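import Mathlib

set_option autoImplicit false

/-!
# The exact finite difference identity (MP_1366af_an, S03875)

`ar p q r` = oriented area form. For two good states with the same bits,
`K = ar (d log x) (d log y) (d log w)` increases from level to level.
-/

namespace Pool.Agent.Loc

open Complex

/-- Half plane mean value theorem. -/
theorem mv_half {f g : ℂ → ℂ} {p q : ℂ} (c : ℂ) (hne : p ≠ q)
    (hd : ∀ t : ℝ, 0 ≤ t → t ≤ 1 → HasDerivAt f (g (p + t * (q - p))) (p + t * (q - p)))
    (hpos : ∀ t : ℝ, 0 ≤ t → t ≤ 1 → 0 < (c * g (p + t * (q - p))).re) :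
    0 < (c * ((f q - f p) / (q - p))).re := by
  have hδ : q - p ≠ 0 := sub_ne_zero.mpr (Ne.symm hne)
  set δ := q - p with hδd
  let φ : ℝ → ℝ := fun t => (c * (f (p + t * δ) / δ)).re
  have hφ : ∀ t : ℝ, 0 ≤ t → t ≤ 1 → HasDerivAt φ ((c * g (p + t * δ)).re) t := by
    intro t h0 h1
    have h2 : HasDerivAt (fun s : ℂ => p + s * δ) δ (t : ℂ) := by
      simpa using ((hasDerivAt_id (t : ℂ)).mul_const δ).const_add p
    have h3 : HasDerivAt (fun s : ℂ => f (p + s * δ)) (g (p + t * δ) * δ) (t : ℂ) :=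
      HasDerivAt.comp (t : ℂ) (hd t h0 h1) h2
    have h4 : HasDerivAt (fun s : ℂ => c * (f (p + s * δ) / δ)) (c * (g (p + t * δ) * δ / δ)) (t : ℂ) :=
      (h3.div_const δ).const_mul c
    have h5 := h4.real_of_complex
    have h6 : c * (g (p + t * δ) * δ / δ) = c * g (p + t * δ) := by
      rw [mul_div_assoc, div_self hδ, mul_one]
    rw [h6] at h5
    exact h5
  have hcont : ContinuousOn φ (Set.Icc 0 1) := fun t ht =>
    (hφ t ht.1 ht.2).continuousAt.continuousWithinAt
  obtain ⟨s, hs, hs'⟩ := exists_hasDerivAt_eq_slope φ (fun t => (c * g (p + t * δ)).re)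
    (by norm_num : (0:ℝ) < 1) hcont (fun t ht => hφ t ht.1.le ht.2.le)
  have h7 := hpos s hs.1.le hs.2.le
  have h8 : φ 1 - φ 0 = (c * ((f q - f p) / δ)).re := by
    simp only [φ]
    rw [← Complex.sub_re]
    congr 1
    have : p + ((1:ℝ):ℂ) * δ = q := by rw [hδd]; push_cast; ring
    rw [this]
    push_cast
    rw [zero_mul, add_zero]
    ring
  rw [← h8]
  have h9 : φ 1 - φ 0 = (c * g (p + s * δ)).re := by
    rw [hs', sub_zero, div_one]
  rw [h9]
  exact h7

/-- Oriented area. -/
noncomputable def ar (p q r : ℂ) : ℝ := (starRingEnd ℂ (p - q) * (r - q)).im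

theorem ar_swap (p q r : ℂ) : ar r q p = - ar p q r := by
  simp only [ar, Complex.mul_im, Complex.conj_re, Complex.conj_im, Complex.sub_re, Complex.sub_im]
  ring

theorem ar_swap' (p q r : ℂ) : ar p r q = - ar p q r := by
  simp only [ar, Complex.mul_im, Complex.conj_re, Complex.conj_im, Complex.sub_re, Complex.sub_im]
  ring

theorem conj_mul_im_eq (δ e : ℂ) (hδ : δ ≠ 0) :
    (starRingEnd ℂ δ * e).im = Complex.normSq δ * (-I * (e / δ)).re := by
  have h : e = δ * (e / δ) := by field_simp
  conv_lhs => rw [h]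
  rw [← mul_assoc, mul_comm (starRingEnd ℂ δ) δ, Complex.mul_conj]
  simp [Complex.mul_im, Complex.mul_re]

/-- `Im (conj dW * d log (1 + e^W)) > 0` on the strip `0 < Im W < π`. -/
theorem D_pos {W W' : ℂ} (h0 : 0 < W.im) (h1 : W.im < Real.pi) (h0' : 0 < W'.im) (h1' : W'.im < Real.pi)
    (hne : W ≠ W') :
    0 < (starRingEnd ℂ (W' - W) * (log (1 + exp W') - log (1 + exp W))).im := by
  have hδ : W' - W ≠ 0 := sub_ne_zero.mpr (Ne.symm hne)
  rw [conj_mul_im_eq _ _ hδ]
  have key : 0 < (-I * ((log (1 + exp W') - log (1 + exp W)) / (W' - W))).re := by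
    have him : ∀ t : ℝ, 0 ≤ t → t ≤ 1 → 0 < (W + t * (W' - W)).im ∧ (W + t * (W' - W)).im < Real.pi := by
      intro t ht0 ht1
      have : (W + t * (W' - W)).im = (1 - t) * W.im + t * W'.im := by
        simp; ring
      rw [this]
      constructor
      · rcases ht0.eq_or_lt with h | h
        · rw [← h]; simpa using h0
        · have := mul_nonneg (sub_nonneg.mpr ht1) h0.le
          have := mul_pos h h0'
          linarith
      · rcases ht0.eq_or_lt with h | h
        · rw [← h]; simpa using h1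
        · have h2 := mul_le_mul_of_nonneg_left h1.le (sub_nonneg.mpr ht1)
          have h3 := mul_lt_mul_of_pos_left h1' h
          nlinarith
    have hexp : ∀ V : ℂ, 0 < V.im → V.im < Real.pi → 0 < (1 + exp V).im := by
      intro V hV0 hV1
      rw [Complex.add_im, Complex.one_im, Complex.exp_im, zero_add]
      exact mul_pos (Real.exp_pos _) (Real.sin_pos_of_pos_of_lt_pi hV0 hV1)
    have := mv_half (f := fun V => log (1 + exp V)) (g := fun V => exp V / (1 + exp V)) (p := W) (q := W')
      (-I) hne ?_ ?_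
    · exact this
    · intro t ht0 ht1
      obtain ⟨hi0, hi1⟩ := him t ht0 ht1
      have hsl : (1 + exp (W + t * (W' - W))) ∈ slitPlane := Or.inr (hexp _ hi0 hi1).ne'
      have h2 : HasDerivAt (fun V : ℂ => 1 + exp V) (exp (W + t * (W' - W))) (W + t * (W' - W)) :=
        (Complex.hasDerivAt_exp _).const_add 1
      exact h2.clog hsl
    · intro t ht0 ht1
      obtain ⟨hi0, hi1⟩ := him t ht0 ht1
      set V := W + t * (W' - W) with hV
      have hp := hexp V hi0 hi1
      have hn : (1 + exp V) ≠ 0 := fun h => by rw [h] at hp; simp at hp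
      have h3 : exp V / (1 + exp V) = 1 - (1 + exp V)⁻¹ := by
        field_simp; ring
      have h4 : (-I * (exp V / (1 + exp V))).re = (exp V / (1 + exp V)).im := by simp
      rw [h4, h3, Complex.sub_im, Complex.one_im, Complex.inv_im, zero_sub, neg_div, neg_neg]
      exact div_pos hp (Complex.normSq_pos.mpr hn)
  exact mul_pos (Complex.normSq_pos.mpr hδ) key

/-- Good edge: `x` in the open first, `y` in the open fourth quadrant, angle `< π/2`. -/
def EdgeI (x y : ℂ) : Prop :=
  0 < x.re ∧ 0 < x.im ∧ 0 < y.re ∧ y.im < 0 ∧ 0 < (x * starRingEnd ℂ y).re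

theorem EdgeI.ne_left {x y : ℂ} (h : EdgeI x y) : x ≠ 0 := fun h0 => by
  have := h.1; rw [h0] at this; simp at this

theorem EdgeI.ne_right {x y : ℂ} (h : EdgeI x y) : y ≠ 0 := fun h0 => by
  have := h.2.2.1; rw [h0] at this; simp at this

theorem arg_pos_lt {x : ℂ} (h0 : 0 < x.re) (h1 : 0 < x.im) : 0 < arg x ∧ arg x < Real.pi / 2 := by
  refine ⟨?_, ?_⟩
  · rcases (arg_nonneg_iff.mpr h1.le).lt_or_eq with h | h
    · exact h
    · exact absurd (arg_eq_zero_iff.mp h.symm).2 h1.ne'
  · exact (abs_lt.mp (abs_arg_lt_pi_div_two_iff.mpr (Or.inl h0))).2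

theorem arg_neg_gt {y : ℂ} (h0 : 0 < y.re) (h1 : y.im < 0) : - (Real.pi / 2) < arg y ∧ arg y < 0 := by
  refine ⟨(abs_lt.mp (abs_arg_lt_pi_div_two_iff.mpr (Or.inl h0))).1, arg_neg_iff.mpr h1⟩

/-- the angle between the two ends of a good edge -/
theorem EdgeI.angle {x y : ℂ} (h : EdgeI x y) : 0 < arg x - arg y ∧ arg x - arg y < Real.pi / 2 := by
  obtain ⟨h1, h2, h3, h4, h5⟩ := h
  have a1 := arg_pos_lt h1 h2
  have a2 := arg_neg_gt h3 h4
  refine ⟨by linarith [a1.1, a2.2], ?_⟩
  by_contra hcon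
  push Not at hcon
  have hx : x ≠ 0 := fun h0 => by rw [h0] at h1; simp at h1
  have hy : y ≠ 0 := fun h0 => by rw [h0] at h3; simp at h3
  have e1 : (x * starRingEnd ℂ y).re = ‖x‖ * ‖y‖ * Real.cos (arg x - arg y) := by
    have hxr : x.re = ‖x‖ * Real.cos (arg x) := by
      rw [Complex.cos_arg hx]; field_simp [norm_ne_zero_iff.mpr hx]
    have hxi : x.im = ‖x‖ * Real.sin (arg x) := by
      rw [Complex.sin_arg]; field_simp [norm_ne_zero_iff.mpr hx]
    have hyr : y.re = ‖y‖ * Real.cos (arg y) := by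
      rw [Complex.cos_arg hy]; field_simp [norm_ne_zero_iff.mpr hy]
    have hyi : y.im = ‖y‖ * Real.sin (arg y) := by
      rw [Complex.sin_arg]; field_simp [norm_ne_zero_iff.mpr hy]
    rw [Complex.mul_re, Complex.conj_re, Complex.conj_im, Real.cos_sub]
    rw [hxr, hxi, hyr, hyi]; ring
  rw [e1] at h5
  have h6 : Real.cos (arg x - arg y) ≤ 0 :=
    Real.cos_nonpos_of_pi_div_two_le_of_le hcon (by linarith [a1.2, a2.1])
  have h7 : 0 < ‖x‖ * ‖y‖ := mul_pos (norm_pos_iff.mpr hx) (norm_pos_iff.mpr hy)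
  nlinarith

/-- `W = 2 (log x - log y)` lies in the strip. -/
theorem EdgeI.strip {x y : ℂ} (h : EdgeI x y) :
    0 < (2 * (log x - log y)).im ∧ (2 * (log x - log y)).im < Real.pi := by
  have := h.angle
  have e : (2 * (log x - log y)).im = 2 * (arg x - arg y) := by
    simp [Complex.mul_im, Complex.log_im]
  rw [e]
  constructor <;> linarith [this.1, this.2]

theorem EdgeI.exp_W {x y : ℂ} (h : EdgeI x y) : exp (2 * (log x - log y)) = x ^ 2 / y ^ 2 := by
  rw [two_mul, Complex.exp_add, Complex.exp_sub, Complex.exp_log h.ne_left, Complex.exp_log h.ne_right]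
  ring

/-- `log w + log m - 2 log y = log (1 + e^W)`. -/
theorem EdgeI.log_one_add {x y w m : ℂ} (h : EdgeI x y) (hw : 0 < w.re) (hm : 0 < m.re)
    (hp : w * m = x ^ 2 + y ^ 2) :
    log (1 + exp (2 * (log x - log y))) = log w + log m - 2 * log y := by
  have hy := h.ne_right
  have hw0 : w ≠ 0 := fun h0 => by rw [h0] at hw; simp at hw
  have hm0 : m ≠ 0 := fun h0 => by rw [h0] at hm; simp at hm
  have he : exp (log w + log m - 2 * log y) = 1 + exp (2 * (log x - log y)) := by
    rw [h.exp_W, Complex.exp_sub, Complex.exp_add, Complex.exp_log hw0, Complex.exp_log hm0, hp,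
      two_mul, Complex.exp_add, Complex.exp_log hy]
    field_simp
    ring
  have him : 0 < (exp (log w + log m - 2 * log y)).im := by
    rw [he, Complex.add_im, Complex.one_im, zero_add, Complex.exp_im]
    exact mul_pos (Real.exp_pos _) (Real.sin_pos_of_pos_of_lt_pi h.strip.1 h.strip.2)
  have aw := abs_lt.mp (abs_arg_lt_pi_div_two_iff.mpr (Or.inl hw))
  have am := abs_lt.mp (abs_arg_lt_pi_div_two_iff.mpr (Or.inl hm))
  have ay := arg_neg_gt h.2.2.1 h.2.2.2.1
  have hi : (log w + log m - 2 * log y).im = arg w + arg m - 2 * arg y := by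
    simp [Complex.mul_im, Complex.log_im]
  have hlow : -Real.pi < (log w + log m - 2 * log y).im := by rw [hi]; linarith [aw.1, am.1, ay.2]
  have hupp : (log w + log m - 2 * log y).im ≤ Real.pi := by
    by_contra hcon
    push Not at hcon
    have h2 : (log w + log m - 2 * log y).im < 2 * Real.pi := by rw [hi]; linarith [aw.2, am.2, ay.1]
    rw [Complex.exp_im] at him
    have h3 : Real.sin (log w + log m - 2 * log y).im < 0 := by
      have := Real.sin_neg_of_neg_of_neg_pi_lt (x := (log w + log m - 2 * log y).im - 2 * Real.pi)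
        (by linarith) (by linarith)
      rwa [Real.sin_sub_two_pi] at this
    have h4 := mul_neg_of_pos_of_neg (Real.exp_pos (log w + log m - 2 * log y).re) h3
    linarith
  rw [← he, Complex.log_exp hlow hupp]

/-- THE IDENTITY: with `m` and `w` on the two sides of the good edge `(x, y)`. -/
theorem ident {x y w m x' y' w' m' : ℂ} (h : EdgeI x y) (h' : EdgeI x' y')
    (hw : 0 < w.re) (hm : 0 < m.re) (hw' : 0 < w'.re) (hm' : 0 < m'.re)
    (hp : w * m = x ^ 2 + y ^ 2) (hp' : w' * m' = x' ^ 2 + y' ^ 2) :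
    ar (log x' - log x) (log y' - log y) (log w' - log w) +
      ar (log x' - log x) (log y' - log y) (log m' - log m) =
    (starRingEnd ℂ (2 * (log x' - log y') - 2 * (log x - log y)) *
      (log (1 + exp (2 * (log x' - log y'))) - log (1 + exp (2 * (log x - log y))))).im / 2 := by
  rw [h.log_one_add hw hm hp, h'.log_one_add hw' hm' hp']
  simp only [ar, Complex.mul_im, Complex.mul_re, Complex.conj_re, Complex.conj_im, Complex.sub_re,
    Complex.sub_im, Complex.add_re, Complex.add_im, Complex.re_ofNat, Complex.im_ofNat]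
  ring

/-- The area does not decrease across a good edge. -/
theorem ar_step {x y w m x' y' w' m' : ℂ} (h : EdgeI x y) (h' : EdgeI x' y')
    (hw : 0 < w.re) (hm : 0 < m.re) (hw' : 0 < w'.re) (hm' : 0 < m'.re)
    (hp : w * m = x ^ 2 + y ^ 2) (hp' : w' * m' = x' ^ 2 + y' ^ 2) :
    - ar (log x' - log x) (log y' - log y) (log m' - log m) ≤
      ar (log x' - log x) (log y' - log y) (log w' - log w) := by
  have hid := ident h h' hw hm hw' hm' hp hp'
  rcases eq_or_ne (2 * (log x - log y)) (2 * (log x' - log y')) with e | e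
  · rw [e] at hid
    simp at hid
    linarith
  · have := D_pos h.strip.1 h.strip.2 h'.strip.1 h'.strip.2 e
    linarith

/-- strict version -/
theorem ar_step_lt {x y w m x' y' w' m' : ℂ} (h : EdgeI x y) (h' : EdgeI x' y')
    (hw : 0 < w.re) (hm : 0 < m.re) (hw' : 0 < w'.re) (hm' : 0 < m'.re)
    (hp : w * m = x ^ 2 + y ^ 2) (hp' : w' * m' = x' ^ 2 + y' ^ 2)
    (hne : log x - log y ≠ log x' - log y') :
    - ar (log x' - log x) (log y' - log y) (log m' - log m) <
      ar (log x' - log x) (log y' - log y) (log w' - log w) := by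
  have hid := ident h h' hw hm hw' hm' hp hp'
  have e : 2 * (log x - log y) ≠ 2 * (log x' - log y') := fun h0 => hne (mul_left_cancel₀ two_ne_zero h0)
  have := D_pos h.strip.1 h.strip.2 h'.strip.1 h'.strip.2 e
  linarith

end Pool.Agent.Loc
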