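import Pool.Agent.Loc.Defs
import Pool.Agent.Loc.Ident

set_option autoImplicit false

/-!
# T3 (helper16): uniqueness at a real end, and monotonicity of the infinitesimal area
-/

namespace Pool.Agent.Loc

open Complex

/-! ## Elementary facts on states -/

theorem T3_vx_succ (β : ℕ → Bool) (n : ℕ) (z : ℂ) :
    vx β (n + 1) z = if β n then vw β n z else vx β n z := by
  unfold vx vw; rw [st]; unfold step; split <;> rfl

theorem T3_vy_succ (β : ℕ → Bool) (n : ℕ) (z : ℂ) :
    vy β (n + 1) z = if β n then vy β n z else vw β n z := by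
  unfold vy vw; rw [st]; unfold step; split <;> rfl

theorem T3_vw_succ (β : ℕ → Bool) (n : ℕ) (z : ℂ) :
    vw β (n + 1) z = if β n then vw β n z * vy β n z - vx β n z else vx β n z * vw β n z - vy β n z := by
  unfold vy vw vx; rw [st]; unfold step; split <;> rfl

/-- the value on the other side of the edge of level `n + 1` -/
noncomputable def vm (β : ℕ → Bool) (n : ℕ) (z : ℂ) : ℂ := if β n then vx β n z else vy β n z

theorem T3_markoff (β : ℕ → Bool) (z : ℂ) (n : ℕ) :
    vx β n z ^ 2 + vy β n z ^ 2 + vw β n z ^ 2 = vx β n z * vy β n z * vw β n z := by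
  induction n with
  | zero =>
    simp only [vx, vy, vw, st, s0]
    have : I ^ 2 = -1 := I_sq
    linear_combination (z ^ 2) * this
  | succ n ih =>
    rw [T3_vx_succ, T3_vy_succ, T3_vw_succ]
    split
    · linear_combination ih
    · linear_combination ih

theorem T3_wm (β : ℕ → Bool) (z : ℂ) (n : ℕ) :
    vw β (n + 1) z * vm β n z = vx β (n + 1) z ^ 2 + vy β (n + 1) z ^ 2 := by
  have ih := T3_markoff β z n
  rw [T3_vx_succ, T3_vy_succ, T3_vw_succ, vm]
  split
  · linear_combination -ih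
  · linear_combination -ih

theorem edgeI_iff (x y : ℂ) : Edge x y ↔ EdgeI x y := Iff.rfl

/-- the area form of the difference of two points -/
noncomputable def KK (β : ℕ → Bool) (n : ℕ) (z z' : ℂ) : ℝ :=
  ar (log (vx β n z') - log (vx β n z)) (log (vy β n z') - log (vy β n z))
    (log (vw β n z') - log (vw β n z))

theorem Q_log {z : ℂ} (hz : z ∈ Q) : log (-I * z) = log z + log (-I) := by
  obtain ⟨h1, h2⟩ := hz
  have hz0 : z ≠ 0 := fun h => by rw [h] at h1; simp at h1
  have a := arg_pos_lt h1 h2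
  rw [add_comm]
  apply Complex.log_mul (by simp) hz0
  rw [Complex.arg_neg_I]
  constructor <;> linarith [a.1, a.2, Real.pi_pos]

theorem KK_zero (β : ℕ → Bool) {z z' : ℂ} (hz : z ∈ Q) (hz' : z' ∈ Q) : KK β 0 z z' = 0 := by
  have h1 : vx β 0 z = z ∧ vx β 0 z' = z' := ⟨rfl, rfl⟩
  have h2 : vy β 0 z = -I * z ∧ vy β 0 z' = -I * z' := ⟨rfl, rfl⟩
  unfold KK
  rw [h1.1, h1.2, h2.1, h2.2, Q_log hz, Q_log hz']
  have : log z' + log (-I) - (log z + log (-I)) = log z' - log z := by ring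
  rw [this]
  simp [ar]

theorem Good.re_x {β : ℕ → Bool} {n : ℕ} {z : ℂ} (hz : z ∈ Q) (h : Good β n z) {k : ℕ} (hk : k ≤ n) :
    0 < (vx β k z).re := by
  rcases Nat.eq_zero_or_pos k with h0 | h0
  · subst h0; exact hz.1
  · exact (h k h0 hk).1

theorem Good.re_y {β : ℕ → Bool} {n : ℕ} {z : ℂ} (hz : z ∈ Q) (h : Good β n z) {k : ℕ} (hk : k ≤ n) :
    0 < (vy β k z).re := by
  rcases Nat.eq_zero_or_pos k with h0 | h0
  · subst h0
    change 0 < (-I * z).re
    simpa using hz.2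
  · exact (h k h0 hk).2.2.1

theorem Good.re_m {β : ℕ → Bool} {n : ℕ} {z : ℂ} (hz : z ∈ Q) (h : Good β n z) {k : ℕ} (hk : k ≤ n) :
    0 < (vm β k z).re := by
  unfold vm; split
  · exact h.re_x hz hk
  · exact h.re_y hz hk

theorem Good.re_w {β : ℕ → Bool} {n : ℕ} {z : ℂ} (h : Good β n z) {k : ℕ} (hk : k + 1 ≤ n) :
    0 < (vw β k z).re := by
  have h1 := h (k + 1) (by omega) hk
  cases hb : β k with
  | true => have := h1.1; rw [T3_vx_succ, hb] at this; simpa using this
  | false => have := h1.2.2.1; rw [T3_vy_succ, hb] at this; simpa using this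

theorem KK_neg (β : ℕ → Bool) (n : ℕ) (z z' : ℂ) :
    KK β n z z' = - ar (log (vx β (n + 1) z') - log (vx β (n + 1) z))
      (log (vy β (n + 1) z') - log (vy β (n + 1) z)) (log (vm β n z') - log (vm β n z)) := by
  unfold KK vm
  rw [T3_vx_succ, T3_vy_succ, T3_vx_succ, T3_vy_succ]
  split
  · rw [ar_swap]
  · rw [ar_swap']

theorem KK_step {β : ℕ → Bool} {n : ℕ} {z z' : ℂ} (hz : z ∈ Q) (hz' : z' ∈ Q)
    (h : Good β (n + 1) z) (h' : Good β (n + 1) z') (hw : 0 < (vw β (n + 1) z).re)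
    (hw' : 0 < (vw β (n + 1) z').re) : KK β n z z' ≤ KK β (n + 1) z z' := by
  rw [KK_neg]
  exact ar_step (h (n + 1) (by omega) le_rfl) (h' (n + 1) (by omega) le_rfl) hw
    (h.re_m hz (by omega)) hw' (h'.re_m hz' (by omega)) (T3_wm β z n) (T3_wm β z' n)

theorem KK_nonneg {β : ℕ → Bool} {n : ℕ} {z z' : ℂ} (hz : z ∈ Q) (hz' : z' ∈ Q)
    (h : Good β n z) (h' : Good β n z') (hw : 0 < (vw β n z).re) (hw' : 0 < (vw β n z').re) :
    0 ≤ KK β n z z' := by
  induction n with
  | zero => rw [KK_zero β hz hz']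
  | succ n ih =>
    have g : Good β n z := fun k h1 h2 => h k h1 (by omega)
    have g' : Good β n z' := fun k h1 h2 => h' k h1 (by omega)
    have := ih g g' (h.re_w le_rfl) (h'.re_w le_rfl)
    exact this.trans (KK_step hz hz' h h' hw hw')

/-! ## The end of a finite path -/

theorem mv_re {f g : ℂ → ℂ} {p q : ℂ} (hne : p ≠ q)
    (hd : ∀ t : ℝ, 0 ≤ t → t ≤ 1 → HasDerivAt f (g (p + t * (q - p))) (p + t * (q - p)))
    (hpos : ∀ t : ℝ, 0 ≤ t → t ≤ 1 → 0 < (g (p + t * (q - p))).re) :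
    0 < ((f q - f p) / (q - p)).re := by
  have := mv_half 1 hne hd (fun t h0 h1 => by simpa using hpos t h0 h1)
  simpa using this

theorem mv_re_neg {f g : ℂ → ℂ} {p q : ℂ} (hne : p ≠ q)
    (hd : ∀ t : ℝ, 0 ≤ t → t ≤ 1 → HasDerivAt f (g (p + t * (q - p))) (p + t * (q - p)))
    (hpos : ∀ t : ℝ, 0 ≤ t → t ≤ 1 → (g (p + t * (q - p))).re < 0) :
    ((f q - f p) / (q - p)).re < 0 := by
  have := mv_half (-1) hne hd (fun t h0 h1 => by simpa using hpos t h0 h1)
  simpa using this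

theorem mv_im {f g : ℂ → ℂ} {p q : ℂ} (hne : p ≠ q)
    (hd : ∀ t : ℝ, 0 ≤ t → t ≤ 1 → HasDerivAt f (g (p + t * (q - p))) (p + t * (q - p)))
    (hpos : ∀ t : ℝ, 0 ≤ t → t ≤ 1 → 0 < (g (p + t * (q - p))).im) :
    0 < ((f q - f p) / (q - p)).im := by
  have := mv_half (-I) hne hd (fun t h0 h1 => by simpa using hpos t h0 h1)
  simpa using this

theorem mv_im_neg {f g : ℂ → ℂ} {p q : ℂ} (hne : p ≠ q)
    (hd : ∀ t : ℝ, 0 ≤ t → t ≤ 1 → HasDerivAt f (g (p + t * (q - p))) (p + t * (q - p)))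
    (hpos : ∀ t : ℝ, 0 ≤ t → t ≤ 1 → (g (p + t * (q - p))).im < 0) :
    ((f q - f p) / (q - p)).im < 0 := by
  have := mv_half I hne hd (fun t h0 h1 => by simpa using hpos t h0 h1)
  simpa using this

theorem seg_re (p q : ℂ) (t : ℝ) : (p + t * (q - p)).re = (1 - t) * p.re + t * q.re := by
  simp; ring

theorem seg_im (p q : ℂ) (t : ℝ) : (p + t * (q - p)).im = (1 - t) * p.im + t * q.im := by
  simp; ring

theorem seg_pos {a b t : ℝ} (ha : 0 < a) (hb : 0 < b) (h0 : 0 ≤ t) (h1 : t ≤ 1) :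
    0 < (1 - t) * a + t * b := by
  rcases h0.eq_or_lt with h | h
  · rw [← h]; simpa using ha
  · have := mul_nonneg (sub_nonneg.mpr h1) ha.le
    have := mul_pos h hb
    linarith

/-- sign of the area from the two difference quotients -/
theorem area_sign {δ a b : ℂ} (hδ : δ ≠ 0)
    (h : 0 < (a / δ).re * (b / δ).im - (a / δ).im * (b / δ).re) :
    0 < (starRingEnd ℂ a * b).im := by
  have e : (starRingEnd ℂ a * b).im =
      Complex.normSq δ * ((a / δ).re * (b / δ).im - (a / δ).im * (b / δ).re) := by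
    have ha : a = (a / δ) * δ := by field_simp
    have hb : b = (b / δ) * δ := by field_simp
    conv_lhs => rw [ha, hb]
    generalize a / δ = u
    generalize b / δ = v
    simp only [map_mul, Complex.mul_im, Complex.mul_re, Complex.conj_re, Complex.conj_im, Complex.normSq_apply]
    ring
  rw [e]
  exact mul_pos (Complex.normSq_pos.mpr hδ) h

/-- case `B = 2`: `y = x - 2 i` -/
theorem end_two {x y x' y' : ℂ} (hxi : 0 < x.im) (hy : 0 < y.re) (hyi : y.im < 0)
    (hxi' : 0 < x'.im) (hy' : 0 < y'.re) (hyi' : y'.im < 0)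
    (h : x ^ 2 + y ^ 2 + 2 ^ 2 = x * y * 2) (h' : x' ^ 2 + y' ^ 2 + 2 ^ 2 = x' * y' * 2)
    (hne : y ≠ y') :
    0 < (starRingEnd ℂ (log x' - log x) * (log y' - log y)).im := by
  have key : ∀ a b : ℂ, 0 < a.im → b.im < 0 → a ^ 2 + b ^ 2 + 2 ^ 2 = a * b * 2 → a = b + 2 * I := by
    intro a b ha hb hab
    have : (a - b - 2 * I) * (a - b + 2 * I) = 0 := by
      have hI : I ^ 2 = -1 := I_sq
      linear_combination hab - 4 * hI
    rcases mul_eq_zero.mp this with h1 | h1
    · linear_combination h1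
    · exfalso
      have := congrArg Complex.im h1
      simp at this
      linarith
  have e := key x y hxi hyi h
  have e' := key x' y' hxi' hyi' h'
  have hδ : y' - y ≠ 0 := sub_ne_zero.mpr (Ne.symm hne)
  apply area_sign hδ
  have hyt : ∀ t : ℝ, 0 ≤ t → t ≤ 1 → 0 < (y + t * (y' - y)).re ∧ (y + t * (y' - y)).im < 0 := by
    intro t h0 h1
    rw [seg_re, seg_im]
    refine ⟨seg_pos hy hy' h0 h1, ?_⟩
    have := seg_pos (neg_pos.mpr hyi) (neg_pos.mpr hyi') h0 h1
    linarith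
  have hxt : ∀ t : ℝ, 0 ≤ t → t ≤ 1 → 0 < (y + t * (y' - y) + 2 * I).im := by
    intro t h0 h1
    have hh : (y + t * (y' - y) + 2 * I).im = (1 - t) * x.im + t * x'.im := by
      rw [e, e', Complex.add_im, seg_im]; simp; ring
    rw [hh]
    exact seg_pos hxi hxi' h0 h1
  -- derivatives
  have d1 : ∀ t : ℝ, 0 ≤ t → t ≤ 1 → HasDerivAt log ((fun v : ℂ => v⁻¹) (y + t * (y' - y)))
      (y + t * (y' - y)) := fun t h0 h1 => Complex.hasDerivAt_log (Or.inl (hyt t h0 h1).1)
  have d2 : ∀ t : ℝ, 0 ≤ t → t ≤ 1 → HasDerivAt (fun v : ℂ => log (v + 2 * I))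
      ((fun v : ℂ => (v + 2 * I)⁻¹) (y + t * (y' - y))) (y + t * (y' - y)) := by
    intro t h0 h1
    have hs : (y + t * (y' - y) + 2 * I) ∈ slitPlane := Or.inr (hxt t h0 h1).ne'
    have := ((hasDerivAt_id (y + t * (y' - y))).add_const (2 * I)).clog hs
    simpa [one_div] using this
  have n1 : ∀ t : ℝ, 0 ≤ t → t ≤ 1 → 0 < Complex.normSq (y + t * (y' - y)) := by
    intro t h0 h1
    apply Complex.normSq_pos.mpr
    intro h3
    have := (hyt t h0 h1).1
    rw [h3] at this
    simp at this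
  have n2 : ∀ t : ℝ, 0 ≤ t → t ≤ 1 → 0 < Complex.normSq (y + t * (y' - y) + 2 * I) := by
    intro t h0 h1
    apply Complex.normSq_pos.mpr
    intro h3
    have := hxt t h0 h1
    rw [h3] at this
    simp at this
  have s1 := mv_re hne d1 (fun t h0 h1 => by
    rw [Complex.inv_re]; exact div_pos (hyt t h0 h1).1 (n1 t h0 h1))
  have s2 := mv_im hne d1 (fun t h0 h1 => by
    rw [Complex.inv_im]; exact div_pos (neg_pos.mpr (hyt t h0 h1).2) (n1 t h0 h1))
  have s3 := mv_re (g := fun v : ℂ => (v + 2 * I)⁻¹) hne d2 (fun t h0 h1 => by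
    rw [Complex.inv_re]
    apply div_pos _ (n2 t h0 h1)
    have := (hyt t h0 h1).1
    simpa using this)
  have s4 := mv_im_neg (g := fun v : ℂ => (v + 2 * I)⁻¹) hne d2 (fun t h0 h1 => by
    rw [Complex.inv_im]
    exact div_neg_of_neg_of_pos (neg_neg_of_pos (hxt t h0 h1)) (n2 t h0 h1))
  rw [← e, ← e'] at s3 s4
  nlinarith [mul_pos s3 s2, mul_pos (neg_pos.mpr s4) s1]

/-- case `B > 2`: coordinates `x = 2 C cosh (u + h)`, `y = 2 C cosh u`. -/
theorem end_param {B : ℝ} (hB : 2 < B) : ∃ (h C : ℝ), 0 < h ∧ 0 < C ∧ ∀ x y : ℂ,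
    0 < x.re → 0 < x.im → 0 < y.re → y.im < 0 → x ^ 2 + y ^ 2 + (B : ℂ) ^ 2 = x * y * B →
    ∃ u : ℂ, -h < u.re ∧ u.re < 0 ∧ 0 < u.im ∧ u.im < Real.pi / 2 ∧
      x = C * cosh (u + h) ∧ y = C * cosh u := by
  set r := Real.sqrt (B ^ 2 - 4) with hr
  have hr0 : 0 < r := Real.sqrt_pos.mpr (by nlinarith)
  have hr2 : r ^ 2 = B ^ 2 - 4 := Real.sq_sqrt (by nlinarith)
  set l := (B + r) / 2 with hl
  have hl1 : 1 < l := by rw [hl]; linarith
  have hl0 : 0 < l := by linarith
  have hlB : l ^ 2 + 1 = B * l := by rw [hl]; nlinarith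
  have hlr : l - l⁻¹ = r := by
    have : l * (l - r) = 1 := by rw [hl]; nlinarith
    have h2 : l⁻¹ = l - r := by
      field_simp; linarith
    rw [h2]; ring
  refine ⟨Real.log l, 2 * B / r, Real.log_pos hl1, by positivity, ?_⟩
  intro x y hx hxi hy hyi hm
  have hlC : (l : ℂ) ≠ 0 := by exact_mod_cast hl0.ne'
  have hBC : (B : ℂ) ≠ 0 := by
    have : B ≠ 0 := by linarith
    exact_mod_cast this
  have hrC : (r : ℂ) ≠ 0 := by exact_mod_cast hr0.ne'
  have hlBC : (l : ℂ) ^ 2 + 1 = B * l := by exact_mod_cast hlB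
  have hlrC : (l : ℂ) - (l : ℂ)⁻¹ = r := by exact_mod_cast hlr
  set μ : ℂ := (x - y / l) / B with hμ
  set ν : ℂ := (l * y - x) / B with hν
  have hμν : μ * ν = 1 := by
    have h1 : (x - y / l) * (l * y - x) = (B : ℂ) ^ 2 := by
      field_simp
      linear_combination (l : ℂ) * (-hm) + (x * y) * hlBC
    rw [hμ, hν, div_mul_div_comm, h1, pow_two, div_self (mul_ne_zero hBC hBC)]
  have hμ0 : μ ≠ 0 := left_ne_zero_of_mul_eq_one hμν
  have hνe : ν = μ⁻¹ := eq_inv_of_mul_eq_one_right hμν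
  have hμim : 0 < μ.im := by
    have e : μ = (x - y * ((l⁻¹ : ℝ) : ℂ)) * ((B⁻¹ : ℝ) : ℂ) := by
      rw [hμ]; push_cast; field_simp
    rw [e, Complex.mul_im, Complex.ofReal_im, Complex.ofReal_re, mul_zero, zero_add, Complex.sub_im,
      Complex.mul_im, Complex.ofReal_im, Complex.ofReal_re, mul_zero, zero_add]
    have hl' : 0 < l⁻¹ := inv_pos.mpr hl0
    have hB' : 0 < B⁻¹ := inv_pos.mpr (by linarith)
    apply mul_pos _ hB'
    nlinarith [mul_neg_of_neg_of_pos hyi hl']
  set u := log μ with hu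
  have hexp : exp u = μ := Complex.exp_log hμ0
  have hexpn : exp (-u) = ν := by rw [Complex.exp_neg, hexp, hνe]
  have hexph : exp ((Real.log l : ℝ) : ℂ) = l := by
    rw [← Complex.ofReal_exp, Real.exp_log hl0]
  have hcy : y = ((2 * B / r : ℝ) : ℂ) * cosh u := by
    rw [Complex.cosh, hexp, hexpn]
    have h4 : μ + ν = y * r / B := by
      rw [hμ, hν, ← hlrC]; field_simp; ring
    rw [h4]
    push_cast
    field_simp
  have hcx : x = ((2 * B / r : ℝ) : ℂ) * cosh (u + (Real.log l : ℝ)) := by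
    rw [Complex.cosh, Complex.exp_add, hexp, neg_add, Complex.exp_add, hexpn, hexph, Complex.exp_neg,
      hexph]
    have h4 : μ * l + ν * (l : ℂ)⁻¹ = x * r / B := by
      rw [hμ, hν, ← hlrC]; field_simp; ring
    rw [h4]
    push_cast
    field_simp
  have hCpos : 0 < 2 * B / r := by positivity
  have huim : u.im = arg μ := Complex.log_im μ
  have hui0 : 0 < u.im := by
    rw [huim]
    rcases (arg_nonneg_iff.mpr hμim.le).lt_or_eq with h | h
    · exact h
    · exact absurd (arg_eq_zero_iff.mp h.symm).2 hμim.ne'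
  have huipi : u.im < Real.pi := by
    rw [huim]
    refine lt_of_le_of_ne (arg_le_pi μ) fun h => ?_
    exact absurd (arg_eq_pi_iff.mp h).2 hμim.ne'
  have hcre : ∀ v : ℂ, (cosh v).re = Real.cosh v.re * Real.cos v.im := fun v => by
    have h5 := Complex.cosh_add (v.re : ℂ) (v.im * I)
    rw [Complex.re_add_im v, Complex.cosh_mul_I, Complex.sinh_mul_I] at h5
    rw [h5]
    simp only [Complex.add_re, Complex.add_im, Complex.mul_re, Complex.mul_im, Complex.cosh_ofReal_re,
      Complex.cosh_ofReal_im, Complex.sinh_ofReal_re, Complex.sinh_ofReal_im, Complex.cos_ofReal_re,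
      Complex.cos_ofReal_im, Complex.sin_ofReal_re, Complex.sin_ofReal_im, Complex.I_re, Complex.I_im]
    ring
  have hcim : ∀ v : ℂ, (cosh v).im = Real.sinh v.re * Real.sin v.im := fun v => by
    have h5 := Complex.cosh_add (v.re : ℂ) (v.im * I)
    rw [Complex.re_add_im v, Complex.cosh_mul_I, Complex.sinh_mul_I] at h5
    rw [h5]
    simp only [Complex.add_re, Complex.add_im, Complex.mul_re, Complex.mul_im, Complex.cosh_ofReal_re,
      Complex.cosh_ofReal_im, Complex.sinh_ofReal_re, Complex.sinh_ofReal_im, Complex.cos_ofReal_re,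
      Complex.cos_ofReal_im, Complex.sin_ofReal_re, Complex.sin_ofReal_im, Complex.I_re, Complex.I_im]
    ring
  have e1 : y.re = (2 * B / r) * (Real.cosh u.re * Real.cos u.im) := by
    conv_lhs => rw [hcy]
    rw [Complex.re_ofReal_mul, hcre]
  have e2 : y.im = (2 * B / r) * (Real.sinh u.re * Real.sin u.im) := by
    conv_lhs => rw [hcy]
    rw [Complex.im_ofReal_mul, hcim]
  have e3 : x.im = (2 * B / r) * (Real.sinh (u.re + Real.log l) * Real.sin u.im) := by
    conv_lhs => rw [hcx]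
    rw [Complex.im_ofReal_mul, hcim]
    simp
  have hsin : 0 < Real.sin u.im := Real.sin_pos_of_pos_of_lt_pi hui0 huipi
  refine ⟨u, ?_, ?_, hui0, ?_, hcx, hcy⟩
  · by_contra hcon
    push Not at hcon
    have h4 : Real.sinh (u.re + Real.log l) ≤ 0 := Real.sinh_nonpos_iff.mpr (by linarith)
    rw [e3] at hxi
    have := mul_nonpos_of_nonpos_of_nonneg h4 hsin.le
    nlinarith
  · by_contra hcon
    push Not at hcon
    have h4 : 0 ≤ Real.sinh u.re := Real.sinh_nonneg_iff.mpr hcon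
    rw [e2] at hyi
    have := mul_nonneg h4 hsin.le
    nlinarith
  · by_contra hcon
    push Not at hcon
    have h4 : Real.cos u.im ≤ 0 :=
      Real.cos_nonpos_of_pi_div_two_le_of_le hcon (by linarith [Real.pi_pos])
    rw [e1] at hy
    have := mul_nonpos_of_nonneg_of_nonpos (Real.cosh_pos u.re).le h4
    nlinarith

theorem T3_cosh_re (v : ℂ) : (cosh v).re = Real.cosh v.re * Real.cos v.im := by
  have h5 := Complex.cosh_add (v.re : ℂ) (v.im * I)
  rw [Complex.re_add_im v, Complex.cosh_mul_I, Complex.sinh_mul_I] at h5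
  rw [h5]
  simp only [Complex.add_re, Complex.mul_re, Complex.mul_im, Complex.cosh_ofReal_re,
    Complex.cosh_ofReal_im, Complex.sinh_ofReal_re, Complex.sinh_ofReal_im, Complex.cos_ofReal_re,
    Complex.cos_ofReal_im, Complex.sin_ofReal_re, Complex.sin_ofReal_im, Complex.I_re, Complex.I_im]
  ring

theorem T3_cosh_im (v : ℂ) : (cosh v).im = Real.sinh v.re * Real.sin v.im := by
  have h5 := Complex.cosh_add (v.re : ℂ) (v.im * I)
  rw [Complex.re_add_im v, Complex.cosh_mul_I, Complex.sinh_mul_I] at h5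
  rw [h5]
  simp only [Complex.add_im, Complex.mul_re, Complex.mul_im, Complex.cosh_ofReal_re,
    Complex.cosh_ofReal_im, Complex.sinh_ofReal_re, Complex.sinh_ofReal_im, Complex.cos_ofReal_re,
    Complex.cos_ofReal_im, Complex.sin_ofReal_re, Complex.sin_ofReal_im, Complex.I_re, Complex.I_im]
  ring

theorem T3_sinh_re (v : ℂ) : (sinh v).re = Real.sinh v.re * Real.cos v.im := by
  have h5 := Complex.sinh_add (v.re : ℂ) (v.im * I)
  rw [Complex.re_add_im v, Complex.cosh_mul_I, Complex.sinh_mul_I] at h5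
  rw [h5]
  simp only [Complex.add_re, Complex.mul_re, Complex.mul_im, Complex.cosh_ofReal_re,
    Complex.cosh_ofReal_im, Complex.sinh_ofReal_re, Complex.sinh_ofReal_im, Complex.cos_ofReal_re,
    Complex.cos_ofReal_im, Complex.sin_ofReal_re, Complex.sin_ofReal_im, Complex.I_re, Complex.I_im]
  ring

theorem T3_sinh_im (v : ℂ) : (sinh v).im = Real.cosh v.re * Real.sin v.im := by
  have h5 := Complex.sinh_add (v.re : ℂ) (v.im * I)
  rw [Complex.re_add_im v, Complex.cosh_mul_I, Complex.sinh_mul_I] at h5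
  rw [h5]
  simp only [Complex.add_im, Complex.mul_re, Complex.mul_im, Complex.cosh_ofReal_re,
    Complex.cosh_ofReal_im, Complex.sinh_ofReal_re, Complex.sinh_ofReal_im, Complex.cos_ofReal_re,
    Complex.cos_ofReal_im, Complex.sin_ofReal_re, Complex.sin_ofReal_im, Complex.I_re, Complex.I_im]
  ring

/-- signs of `tanh` on `0 < Im < π/2` -/
theorem tanh_signs {v : ℂ} (h0 : 0 < v.im) (h1 : v.im < Real.pi / 2) :
    0 < (cosh v).re ∧ 0 < (sinh v / cosh v).im ∧ (0 < v.re → 0 < (sinh v / cosh v).re) ∧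
      (v.re < 0 → (sinh v / cosh v).re < 0) := by
  have hc : 0 < Real.cos v.im := Real.cos_pos_of_mem_Ioo ⟨by linarith [Real.pi_pos], h1⟩
  have hs : 0 < Real.sin v.im := Real.sin_pos_of_pos_of_lt_pi h0 (by linarith [Real.pi_pos])
  have hre : 0 < (cosh v).re := by rw [T3_cosh_re]; exact mul_pos (Real.cosh_pos _) hc
  have hN : 0 < Complex.normSq (cosh v) := by
    apply Complex.normSq_pos.mpr
    intro h; rw [h] at hre; simp at hre
  have hch := Real.cosh_pos v.re
  have hid := Real.cosh_sq' v.re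
  have hsc := Real.sin_sq_add_cos_sq v.im
  have e1 : (sinh v / cosh v).re = Real.sinh v.re * Real.cosh v.re / Complex.normSq (cosh v) := by
    rw [Complex.div_re, T3_sinh_re, T3_sinh_im, T3_cosh_re, T3_cosh_im, ← add_div]
    congr 1
    linear_combination (Real.sinh v.re * Real.cosh v.re) * hsc
  have e2 : (sinh v / cosh v).im = Real.sin v.im * Real.cos v.im / Complex.normSq (cosh v) := by
    rw [Complex.div_im, T3_sinh_re, T3_sinh_im, T3_cosh_re, T3_cosh_im, ← sub_div]
    congr 1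
    linear_combination (Real.sin v.im * Real.cos v.im) * hid
  refine ⟨hre, ?_, ?_, ?_⟩
  · rw [e2]; exact div_pos (mul_pos hs hc) hN
  · intro h
    rw [e1]; exact div_pos (mul_pos (Real.sinh_pos_iff.mpr h) hch) hN
  · intro h
    rw [e1]; exact div_neg_of_neg_of_pos (mul_neg_of_neg_of_pos (Real.sinh_neg_iff.mpr h) hch) hN

/-- the end estimate for `B > 2` -/
theorem end_gt {B : ℝ} (hB : 2 < B) {x y x' y' : ℂ} (hx : 0 < x.re) (hxi : 0 < x.im) (hy : 0 < y.re)
    (hyi : y.im < 0) (hx' : 0 < x'.re) (hxi' : 0 < x'.im) (hy' : 0 < y'.re) (hyi' : y'.im < 0)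
    (h : x ^ 2 + y ^ 2 + (B : ℂ) ^ 2 = x * y * B) (h' : x' ^ 2 + y' ^ 2 + (B : ℂ) ^ 2 = x' * y' * B)
    (hne : x ≠ x' ∨ y ≠ y') :
    0 < (starRingEnd ℂ (log x' - log x) * (log y' - log y)).im := by
  obtain ⟨k, C, hk, hC, hpar⟩ := end_param hB
  obtain ⟨u, u1, u2, u3, u4, ex, ey⟩ := hpar x y hx hxi hy hyi h
  obtain ⟨v, v1, v2, v3, v4, ex', ey'⟩ := hpar x' y' hx' hxi' hy' hyi' h'
  have huv : u ≠ v := by
    intro huv
    rw [← huv] at ex' ey'
    rcases hne with h1 | h1
    · exact h1 (ex.trans ex'.symm)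
    · exact h1 (ey.trans ey'.symm)
  have hδ : v - u ≠ 0 := sub_ne_zero.mpr (Ne.symm huv)
  have hCne : C ≠ 0 := hC.ne'
  have hw : ∀ t : ℝ, 0 ≤ t → t ≤ 1 → -k < (u + t * (v - u)).re ∧ (u + t * (v - u)).re < 0 ∧
      0 < (u + t * (v - u)).im ∧ (u + t * (v - u)).im < Real.pi / 2 := by
    intro t h0 h1
    rw [seg_re, seg_im]
    refine ⟨?_, ?_, seg_pos u3 v3 h0 h1, ?_⟩
    · have := seg_pos (by linarith : 0 < k + u.re) (by linarith : 0 < k + v.re) h0 h1
      linarith
    · have := seg_pos (neg_pos.mpr u2) (neg_pos.mpr v2) h0 h1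
      linarith
    · have := seg_pos (by linarith : 0 < Real.pi / 2 - u.im) (by linarith : 0 < Real.pi / 2 - v.im) h0 h1
      linarith
  have hk0 : ∀ w : ℂ, (w + (k : ℂ)).re = w.re + k := fun w => by simp
  have hk1 : ∀ w : ℂ, (w + (k : ℂ)).im = w.im := fun w => by simp
  have clog : ∀ w : ℂ, 0 < (cosh w).re → log ((C : ℂ) * cosh w) = (Real.log C : ℝ) + log (cosh w) := by
    intro w hw
    have hw0 : cosh w ≠ 0 := fun h => by rw [h] at hw; simp at hw
    exact Complex.log_ofReal_mul hC hw0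
  have g1 := fun (w : ℂ) (h0 : 0 < w.im) (h1 : w.im < Real.pi / 2) => tanh_signs h0 h1
  have d1 : ∀ t : ℝ, 0 ≤ t → t ≤ 1 → HasDerivAt (fun w : ℂ => log (cosh w))
      ((fun w : ℂ => sinh w / cosh w) (u + t * (v - u))) (u + t * (v - u)) := by
    intro t h0 h1
    obtain ⟨a1, a2, a3, a4⟩ := hw t h0 h1
    exact (Complex.hasDerivAt_cosh _).clog (Or.inl (g1 _ a3 a4).1)
  have d2 : ∀ t : ℝ, 0 ≤ t → t ≤ 1 → HasDerivAt (fun w : ℂ => log (cosh (w + k)))
      ((fun w : ℂ => sinh (w + k) / cosh (w + k)) (u + t * (v - u))) (u + t * (v - u)) := by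
    intro t h0 h1
    obtain ⟨a1, a2, a3, a4⟩ := hw t h0 h1
    have b1 : HasDerivAt (fun w : ℂ => w + (k : ℂ)) 1 (u + t * (v - u)) := (hasDerivAt_id _).add_const _
    have b2 := (Complex.hasDerivAt_cosh (u + t * (v - u) + k)).comp (u + t * (v - u)) b1
    have b3 := b2.clog (Or.inl (g1 (u + t * (v - u) + k) (by rw [hk1]; exact a3) (by rw [hk1]; exact a4)).1)
    simpa using b3
  have s1 := mv_re_neg (g := fun w : ℂ => sinh w / cosh w) huv d1 (fun t h0 h1 => by
    obtain ⟨a1, a2, a3, a4⟩ := hw t h0 h1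
    exact (g1 _ a3 a4).2.2.2 a2)
  have s2 := mv_im (g := fun w : ℂ => sinh w / cosh w) huv d1 (fun t h0 h1 => by
    obtain ⟨a1, a2, a3, a4⟩ := hw t h0 h1
    exact (g1 _ a3 a4).2.1)
  have s3 := mv_re (g := fun w : ℂ => sinh (w + k) / cosh (w + k)) huv d2 (fun t h0 h1 => by
    obtain ⟨a1, a2, a3, a4⟩ := hw t h0 h1
    exact (g1 (u + t * (v - u) + k) (by rw [hk1]; exact a3) (by rw [hk1]; exact a4)).2.2.1
      (by rw [hk0]; linarith))
  have s4 := mv_im (g := fun w : ℂ => sinh (w + k) / cosh (w + k)) huv d2 (fun t h0 h1 => by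
    obtain ⟨a1, a2, a3, a4⟩ := hw t h0 h1
    exact (g1 (u + t * (v - u) + k) (by rw [hk1]; exact a3) (by rw [hk1]; exact a4)).2.1)
  have ly : log y' - log y = log (cosh v) - log (cosh u) := by
    rw [ey', ey, clog v (g1 v v3 v4).1, clog u (g1 u u3 u4).1]; ring
  have lx : log x' - log x = log (cosh (v + k)) - log (cosh (u + k)) := by
    rw [ex', ex, clog (v + k) (g1 (v + k) (by rw [hk1]; exact v3) (by rw [hk1]; exact v4)).1,
      clog (u + k) (g1 (u + k) (by rw [hk1]; exact u3) (by rw [hk1]; exact u4)).1]; ring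
  apply area_sign hδ
  rw [lx, ly]
  nlinarith [mul_pos s3 s2, mul_pos s4 (neg_pos.mpr s1)]

/-- the end estimate -/
theorem end_sign {B : ℝ} (hB : 2 ≤ B) {x y x' y' : ℂ} (hx : 0 < x.re) (hxi : 0 < x.im) (hy : 0 < y.re)
    (hyi : y.im < 0) (hx' : 0 < x'.re) (hxi' : 0 < x'.im) (hy' : 0 < y'.re) (hyi' : y'.im < 0)
    (h : x ^ 2 + y ^ 2 + (B : ℂ) ^ 2 = x * y * B) (h' : x' ^ 2 + y' ^ 2 + (B : ℂ) ^ 2 = x' * y' * B)
    (hle : (starRingEnd ℂ (log x' - log x) * (log y' - log y)).im ≤ 0) : x = x' ∧ y = y' := by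
  rcases hB.eq_or_lt with h2 | h2
  · rw [← h2] at h h'
    push_cast at h h'
    have hy2 : y = y' := by
      by_contra hne
      have := end_two hxi hy hyi hxi' hy' hyi' h h' hne
      linarith
    refine ⟨?_, hy2⟩
    rw [← hy2] at h'
    have : (x - x') * (x + x' - 2 * y) = 0 := by linear_combination h - h'
    rcases mul_eq_zero.mp this with h3 | h3
    · exact sub_eq_zero.mp h3
    · exfalso
      have := congrArg Complex.im h3
      simp at this
      linarith
  · by_contra hcon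
    rw [not_and_or] at hcon
    have := end_gt h2 hx hxi hy hyi hx' hxi' hy' hyi' h h' hcon
    linarith

/-! ## T3 -/

theorem Good.im_x {β : ℕ → Bool} {n : ℕ} {z : ℂ} (hz : z ∈ Q) (h : Good β n z) {k : ℕ} (hk : k ≤ n) :
    0 < (vx β k z).im := by
  rcases Nat.eq_zero_or_pos k with h0 | h0
  · subst h0; exact hz.2
  · exact (h k h0 hk).2.1

theorem Good.im_y {β : ℕ → Bool} {n : ℕ} {z : ℂ} (hz : z ∈ Q) (h : Good β n z) {k : ℕ} (hk : k ≤ n) :
    (vy β k z).im < 0 := by
  rcases Nat.eq_zero_or_pos k with h0 | h0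
  · subst h0
    change (-I * z).im < 0
    simpa using hz.1
  · exact (h k h0 hk).2.2.2.1

theorem state_back {β : ℕ → Bool} {z z' : ℂ} (n : ℕ) (hx : vx β n z = vx β n z')
    (hy : vy β n z = vy β n z') (hw : vw β n z = vw β n z') : z = z' := by
  induction n with
  | zero => exact hx
  | succ n ih =>
    rw [T3_vx_succ, T3_vx_succ] at hx
    rw [T3_vy_succ, T3_vy_succ] at hy
    rw [T3_vw_succ, T3_vw_succ] at hw
    cases hb : β n with
    | true =>
      simp only [hb, if_true] at hx hy hw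
      apply ih _ hy hx
      rw [hx, hy] at hw
      exact sub_right_injective hw
    | false =>
      simp only [hb, Bool.false_eq_true, if_false] at hx hy hw
      apply ih hx _ hy
      rw [hx, hy] at hw
      exact sub_right_injective hw

/-- **T3.** At most one point for every finite path and every real end value `≥ 2`. -/
theorem uniq_end {β : ℕ → Bool} {n : ℕ} {z z' : ℂ} (hz : z ∈ Q) (hz' : z' ∈ Q)
    (h : End β n z) (h' : End β n z') (hw : vw β n z = vw β n z') (h2 : 2 ≤ (vw β n z).re) :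
    z = z' := by
  obtain ⟨g, hi, hr⟩ := h
  obtain ⟨g', hi', hr'⟩ := h'
  have hB : vw β n z = (((vw β n z).re : ℝ) : ℂ) := by
    apply Complex.ext <;> simp [hi]
  have hK := KK_nonneg hz hz' g g' hr hr'
  have hm := T3_markoff β z n
  have hm' := T3_markoff β z' n
  rw [← hw, hB] at hm'
  rw [hB] at hm
  have hle : (starRingEnd ℂ (log (vx β n z') - log (vx β n z)) *
      (log (vy β n z') - log (vy β n z))).im ≤ 0 := by
    unfold KK at hK
    rw [← hw, sub_self] at hK
    simp only [ar, Complex.mul_im, Complex.conj_re, Complex.conj_im, Complex.sub_re, Complex.sub_im,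
      Complex.zero_re, Complex.zero_im] at hK ⊢
    nlinarith
  obtain ⟨e1, e2⟩ := end_sign h2 (g.re_x hz le_rfl) (g.im_x hz le_rfl) (g.re_y hz le_rfl)
    (g.im_y hz le_rfl) (g'.re_x hz' le_rfl) (g'.im_x hz' le_rfl) (g'.re_y hz' le_rfl)
    (g'.im_y hz' le_rfl) hm hm' hle
  exact state_back n e1 e2 hw

end Pool.Agent.Loc
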