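import Pool.Agent.Loc.Bas
import Pool.Agent.Loc.T3

set_option autoImplicit false

/-!
# The infinitesimal area form (helper16): `area_mono`
-/

namespace Pool.Agent.Loc

open Complex

/-- Infinitesimal form: the area form of the logarithmic derivatives increases along a good path
and is positive from level `1` on. -/
noncomputable def ld (f : ℂ → ℂ) (z : ℂ) : ℂ := deriv f z / f z

noncomputable def Ar (β : ℕ → Bool) (n : ℕ) (z : ℂ) : ℝ :=
  ((starRingEnd ℂ) (ld (vw β n) z - ld (vx β n) z) * (ld (vy β n) z - ld (vx β n) z)).im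

theorem diff_vm (β : ℕ → Bool) (n : ℕ) : Differentiable ℂ (vm β n) := by
  have : vm β n = if β n then vx β n else vy β n := by
    funext z; unfold vm; split <;> rfl
  rw [this]; split
  · exact diff_vx β n
  · exact diff_vy β n

theorem ld_rel (β : ℕ → Bool) (n : ℕ) {z : ℂ}
    (hw : vw β (n + 1) z ≠ 0) (hm : vm β n z ≠ 0) :
    ld (vw β (n + 1)) z + ld (vm β n) z = (2 * vx β (n + 1) z ^ 2 * ld (vx β (n + 1)) z
      + 2 * vy β (n + 1) z ^ 2 * ld (vy β (n + 1)) z) / (vx β (n + 1) z ^ 2 + vy β (n + 1) z ^ 2) := by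
  have hfun : (fun z => vw β (n + 1) z * vm β n z) =
      fun z => vx β (n + 1) z ^ 2 + vy β (n + 1) z ^ 2 := funext fun z => T3_wm β z n
  have hd : deriv (fun z => vw β (n + 1) z * vm β n z) z =
      deriv (fun z => vx β (n + 1) z ^ 2 + vy β (n + 1) z ^ 2) z := by rw [hfun]
  have d1 : HasDerivAt (fun z => vw β (n + 1) z * vm β n z)
      (deriv (vw β (n + 1)) z * vm β n z + vw β (n + 1) z * deriv (vm β n) z) z :=
    ((diff_vw β (n + 1)) z).hasDerivAt.mul ((diff_vm β n) z).hasDerivAt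
  have d2 : HasDerivAt (fun z => vx β (n + 1) z ^ 2 + vy β (n + 1) z ^ 2)
      (2 * vx β (n + 1) z * deriv (vx β (n + 1)) z + 2 * vy β (n + 1) z * deriv (vy β (n + 1)) z) z := by
    have h1 := ((diff_vx β (n + 1)) z).hasDerivAt.pow 2
    have h2 := ((diff_vy β (n + 1)) z).hasDerivAt.pow 2
    exact (h1.add h2).congr_deriv (by simp)
  rw [d1.deriv, d2.deriv] at hd
  have hp := T3_wm β z n
  have hs : vx β (n + 1) z ^ 2 + vy β (n + 1) z ^ 2 ≠ 0 := by
    rw [← hp]; exact mul_ne_zero hw hm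
  rw [eq_div_iff hs, ← hp]
  unfold ld
  field_simp
  linear_combination hd

theorem Ar_eq (β : ℕ → Bool) (n : ℕ) (z : ℂ) :
    Ar β n z = ar (ld (vx β n) z) (ld (vy β n) z) (ld (vw β n) z) := by
  simp only [Ar, ar, Complex.mul_im, Complex.conj_re, Complex.conj_im, Complex.sub_re, Complex.sub_im]
  ring

theorem Ar_neg (β : ℕ → Bool) (n : ℕ) (z : ℂ) :
    Ar β n z = - ar (ld (vx β (n + 1)) z) (ld (vy β (n + 1)) z) (ld (vm β n) z) := by
  rw [Ar_eq]
  cases h : β n
  · have e1 : vx β (n + 1) = vx β n := funext fun z => vx_f h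
    have e2 : vy β (n + 1) = vw β n := funext fun z => vy_f h
    have e3 : vm β n = vy β n := funext fun z => by simp [vm, h]
    rw [e1, e2, e3, ar_swap']
  · have e1 : vx β (n + 1) = vw β n := funext fun z => vx_t h
    have e2 : vy β (n + 1) = vy β n := funext fun z => vy_t h
    have e3 : vm β n = vx β n := funext fun z => by simp [vm, h]
    rw [e1, e2, e3, ar_swap]

/-- the increment -/
theorem Ar_step (β : ℕ → Bool) (n : ℕ) {z : ℂ} (hE : Edge (vx β (n + 1) z) (vy β (n + 1) z))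
    (hw : vw β (n + 1) z ≠ 0) (hm : vm β n z ≠ 0) :
    ∃ c : ℝ, 0 < c ∧ Ar β (n + 1) z = Ar β n z +
      c * Complex.normSq (ld (vx β (n + 1)) z - ld (vy β (n + 1)) z) := by
  obtain ⟨h1, h2, h3, h4, h5⟩ := hE
  set x := vx β (n + 1) z with hx
  set y := vy β (n + 1) z with hy
  have hx0 : x ≠ 0 := fun h => by rw [h] at h1; simp at h1
  have hy0 : y ≠ 0 := fun h => by rw [h] at h3; simp at h3
  have hrel := ld_rel β n (z := z) hw hm
  rw [← hx, ← hy] at hrel
  have hs : x ^ 2 + y ^ 2 ≠ 0 := by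
    rw [hx, hy, ← T3_wm β z n]; exact mul_ne_zero hw hm
  have him : 0 < (x ^ 2 / (x ^ 2 + y ^ 2)).im := by
    rw [Complex.div_im, ← sub_div]
    apply div_pos _ (Complex.normSq_pos.mpr hs)
    have e : (x ^ 2).im * (x ^ 2 + y ^ 2).re - (x ^ 2).re * (x ^ 2 + y ^ 2).im =
        2 * (x.re * y.re + x.im * y.im) * (x.im * y.re - x.re * y.im) := by
      simp only [pow_two, Complex.add_re, Complex.add_im, Complex.mul_re, Complex.mul_im]
      ring
    rw [e]
    have h6 : 0 < x.re * y.re + x.im * y.im := by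
      simpa [Complex.mul_re] using h5
    have h7 : 0 < x.im * y.re - x.re * y.im := by
      have := mul_pos h2 h3
      have := mul_neg_of_pos_of_neg h1 h4
      linarith
    positivity
  refine ⟨2 * (x ^ 2 / (x ^ 2 + y ^ 2)).im, by positivity, ?_⟩
  rw [Ar_neg β n z, Ar_eq]
  set a := ld (vx β (n + 1)) z
  set b := ld (vy β (n + 1)) z
  set c := ld (vw β (n + 1)) z
  set m := ld (vm β n) z
  have key : c + m - 2 * b = 2 * (x ^ 2 / (x ^ 2 + y ^ 2)) * (a - b) := by
    rw [hrel]; field_simp; ring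
  have e2 : ar a b c + ar a b m = (starRingEnd ℂ (a - b) * (c + m - 2 * b)).im := by
    simp only [ar, Complex.mul_im, Complex.conj_re, Complex.conj_im, Complex.sub_re, Complex.sub_im,
      Complex.add_re, Complex.add_im, Complex.mul_re, Complex.re_ofNat, Complex.im_ofNat]
    ring
  rw [key] at e2
  have e3 : (starRingEnd ℂ (a - b) * (2 * (x ^ 2 / (x ^ 2 + y ^ 2)) * (a - b))).im =
      2 * (x ^ 2 / (x ^ 2 + y ^ 2)).im * Complex.normSq (a - b) := by
    generalize x ^ 2 / (x ^ 2 + y ^ 2) = r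
    generalize a - b = d
    simp only [Complex.mul_im, Complex.mul_re, Complex.conj_re, Complex.conj_im, Complex.normSq_apply,
      Complex.re_ofNat, Complex.im_ofNat]
    ring
  rw [e3] at e2
  linarith

theorem ld_zero_x (β : ℕ → Bool) {z : ℂ} : ld (vx β 0) z = 1 / z := by
  have : vx β 0 = fun z => z := rfl
  unfold ld
  rw [this]; simp

theorem ld_zero_y (β : ℕ → Bool) {z : ℂ} (hz : z ≠ 0) : ld (vy β 0) z = 1 / z := by
  have : vy β 0 = fun z => -I * z := rfl
  unfold ld
  rw [this]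
  have hd : HasDerivAt (fun z : ℂ => -I * z) (-I * 1) z := (hasDerivAt_id z).const_mul (-I)
  rw [hd.deriv]
  field_simp

theorem ld_zero_w (β : ℕ → Bool) {z : ℂ} (hz : z ≠ 0) : ld (vw β 0) z = 2 / z := by
  have : vw β 0 = fun z => -I * z ^ 2 := rfl
  unfold ld
  rw [this]
  have hd : HasDerivAt (fun z : ℂ => -I * z ^ 2) (-I * (2 * z)) z := by
    simpa using ((hasDerivAt_id z).pow 2).const_mul (-I)
  rw [hd.deriv]
  field_simp

theorem area_mono {β : ℕ → Bool} {z : ℂ} (hz : z ∈ Q) (h : Inf β z) :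
    ∃ c : ℝ, c > 0 ∧ ∀ n, 1 ≤ n → c ≤ |Ar β n z| := by
  have hz0 : z ≠ 0 := fun h0 => by have := hz.1; rw [h0] at this; simp at this
  have hw : ∀ n, vw β n z ≠ 0 := fun n h0 => by
    have := (h (n + 1)).re_w (k := n) le_rfl
    rw [h0] at this; simp at this
  have hm : ∀ n, vm β n z ≠ 0 := fun n h0 => by
    have := (h n).re_m hz (k := n) le_rfl
    rw [h0] at this; simp at this
  have hstep := fun n => Ar_step β n (z := z) (h (n + 1) (n + 1) (by omega) le_rfl) (hw (n + 1)) (hm n)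
  have h0 : Ar β 0 z = 0 := by
    rw [Ar_eq, ld_zero_x, ld_zero_y β hz0]; simp [ar]
  have h1 : 0 < Ar β 1 z := by
    obtain ⟨c, hc, he⟩ := hstep 0
    rw [he, h0, zero_add]
    apply mul_pos hc
    apply Complex.normSq_pos.mpr
    have hinv : (1 : ℂ) / z ≠ 0 := by simp [hz0]
    cases hb : β 0
    · have e1 : vx β (0 + 1) = vx β 0 := funext fun z => vx_f hb
      have e2 : vy β (0 + 1) = vw β 0 := funext fun z => vy_f hb
      rw [e1, e2, ld_zero_x, ld_zero_w β hz0]
      have : (1 : ℂ) / z - 2 / z = -(1 / z) := by ring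
      rw [this]; exact neg_ne_zero.mpr hinv
    · have e1 : vx β (0 + 1) = vw β 0 := funext fun z => vx_t hb
      have e2 : vy β (0 + 1) = vy β 0 := funext fun z => vy_t hb
      rw [e1, e2, ld_zero_y β hz0, ld_zero_w β hz0]
      have : (2 : ℂ) / z - 1 / z = 1 / z := by ring
      rw [this]; exact hinv
  refine ⟨Ar β 1 z, h1, ?_⟩
  intro n hn
  have hmono : ∀ k, Ar β 1 z ≤ Ar β (k + 1) z := by
    intro k
    induction k with
    | zero => exact le_rfl
    | succ k ih =>
      obtain ⟨c, hc, he⟩ := hstep (k + 1)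
      rw [he]
      have := mul_nonneg hc.le (Complex.normSq_nonneg (ld (vx β (k + 1 + 1)) z - ld (vy β (k + 1 + 1)) z))
      linarith
  obtain ⟨k, rfl⟩ : ∃ k, n = k + 1 := ⟨n - 1, by omega⟩
  exact (hmono k).trans (le_abs_self _)

end Pool.Agent.Loc
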