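import Pool.Agent.Loc.Defs

set_option autoImplicit false

/-!
# Loc: basic lemmas (proved)
-/

namespace Pool.Agent.Loc

open Complex Pool.Agent.FZC Filter Topology

section Steps

variable {β β' : ℕ → Bool} {n m : ℕ} {z : ℂ}

@[simp] theorem vx_zero (β : ℕ → Bool) (z : ℂ) : vx β 0 z = z := rfl
@[simp] theorem vy_zero (β : ℕ → Bool) (z : ℂ) : vy β 0 z = -I * z := rfl
@[simp] theorem vw_zero (β : ℕ → Bool) (z : ℂ) : vw β 0 z = -I * z ^ 2 := rfl

theorem vx_t (h : β n = true) : vx β (n + 1) z = vw β n z := by
  simp [vx, vw, st, step, h]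
theorem vy_t (h : β n = true) : vy β (n + 1) z = vy β n z := by
  simp [vy, st, step, h]
theorem vw_t (h : β n = true) : vw β (n + 1) z = vw β n z * vy β n z - vx β n z := by
  simp [vx, vy, vw, st, step, h]
theorem vx_f (h : β n = false) : vx β (n + 1) z = vx β n z := by
  simp [vx, st, step, h]
theorem vy_f (h : β n = false) : vy β (n + 1) z = vw β n z := by
  simp [vy, vw, st, step, h]
theorem vw_f (h : β n = false) : vw β (n + 1) z = vx β n z * vw β n z - vy β n z := by
  simp [vx, vy, vw, st, step, h]

/-- The Markoff identity. -/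
theorem markoff (β : ℕ → Bool) (n : ℕ) (z : ℂ) :
    vx β n z ^ 2 + vy β n z ^ 2 + vw β n z ^ 2 = vx β n z * vy β n z * vw β n z := by
  induction n with
  | zero =>
    simp only [vx_zero, vy_zero, vw_zero]
    have hI : I ^ 2 = -1 := I_sq
    linear_combination (2 * z ^ 2 * 0 + z ^ 2 + z ^ 4 - z ^ 4) * hI
  | succ n ih =>
    cases h : β n
    · rw [vx_f h, vy_f h, vw_f h]; linear_combination ih
    · rw [vx_t h, vy_t h, vw_t h]; linear_combination ih

/-- The previous mediant `x y - w`: product formula. -/
theorem markoff_prod (β : ℕ → Bool) (n : ℕ) (z : ℂ) :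
    vw β n z * (vx β n z * vy β n z - vw β n z) = vx β n z ^ 2 + vy β n z ^ 2 := by
  linear_combination -markoff β n z

theorem st_congr (h : ∀ k, k < n → β k = β' k) : st β z n = st β' z n := by
  induction n with
  | zero => rfl
  | succ n ih =>
    simp only [st]
    rw [ih (fun k hk => h k (by omega)), h n (by omega)]

theorem vx_congr (h : ∀ k, k < n → β k = β' k) : vx β n z = vx β' n z := by
  simp [vx, st_congr (z := z) h]
theorem vy_congr (h : ∀ k, k < n → β k = β' k) : vy β n z = vy β' n z := by
  simp [vy, st_congr (z := z) h]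
theorem vw_congr (h : ∀ k, k < n → β k = β' k) : vw β n z = vw β' n z := by
  simp [vw, st_congr (z := z) h]

theorem Good.mono (h : Good β n z) (hm : m ≤ n) : Good β m z := fun k h1 hk => h k h1 (by omega)

theorem good_zero (β : ℕ → Bool) (z : ℂ) : Good β 0 z := fun k h1 hk => by omega

theorem good_congr (h : ∀ k, k < n → β k = β' k) (hg : Good β n z) : Good β' n z := by
  intro k h1 hk
  have e := hg k h1 hk
  rwa [vx_congr (β' := β') (fun j hj => h j (by omega)),
    vy_congr (β' := β') (fun j hj => h j (by omega))] at e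

theorem end_congr (h : ∀ k, k < n → β k = β' k) (hg : End β n z) : End β' n z := by
  obtain ⟨h1, h2, h3⟩ := hg
  refine ⟨good_congr h h1, ?_, ?_⟩
  · rwa [vw_congr (β' := β) (fun j hj => (h j hj).symm)]
  · rwa [vw_congr (β' := β) (fun j hj => (h j hj).symm)]

end Steps

/-! ### the sign path -/

theorem wk_eq (z : ℂ) (n : ℕ) : wk z n = st (bits z) z n := by
  induction n with
  | zero => rfl
  | succ n ih =>
    simp only [wk, st]
    rw [← ih]; rfl

theorem bits_eq (z : ℂ) (n : ℕ) : bits z n = decide (0 ≤ (vw (bits z) n z).im) := by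
  rw [vw, ← wk_eq]; rfl

theorem good_bits {β : ℕ → Bool} {n : ℕ} {z : ℂ} (h : Good β n z) :
    ∀ k, k < n → β k = bits z k := by
  intro k
  induction k using Nat.strong_induction_on with
  | _ k ih =>
    intro hk
    have hc : ∀ j, j < k → β j = bits z j := fun j hj => ih j hj (by omega)
    have e := h (k + 1) (by omega) (by omega)
    rw [bits_eq, ← vw_congr hc]
    obtain ⟨h1, h2, h3, h4, h5⟩ := e
    cases hb : β k
    · rw [vy_f hb] at h4
      simp [h4]
    · rw [vx_t hb] at h2
      simp [h2.le]

theorem inf_bits {β : ℕ → Bool} {z : ℂ} (h : Inf β z) : β = bits z := by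
  funext n
  exact good_bits (h (n + 1)) n (by omega)

theorem end_bits {β : ℕ → Bool} {n : ℕ} {z : ℂ} (h : End β n z) : End (bits z) n z :=
  end_congr (good_bits h.1) h

theorem good_bits_iff {β : ℕ → Bool} {n : ℕ} {z : ℂ} (h : Good β n z) : Good (bits z) n z :=
  good_congr (good_bits h) h

/-! ### continuity, differentiability -/

theorem diff_st (β : ℕ → Bool) (n : ℕ) :
    Differentiable ℂ (vx β n) ∧ Differentiable ℂ (vy β n) ∧ Differentiable ℂ (vw β n) := by
  induction n with
  | zero =>
    refine ⟨?_, ?_, ?_⟩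
    · exact differentiable_id
    · exact (differentiable_const (-I)).mul differentiable_id
    · exact (differentiable_const (-I)).mul (differentiable_id.pow 2)
  | succ n ih =>
    obtain ⟨h1, h2, h3⟩ := ih
    cases h : β n
    · have e1 : vx β (n + 1) = vx β n := funext fun z => vx_f h
      have e2 : vy β (n + 1) = vw β n := funext fun z => vy_f h
      have e3 : vw β (n + 1) = fun z => vx β n z * vw β n z - vy β n z := funext fun z => vw_f h
      rw [e1, e2, e3]
      exact ⟨h1, h3, (h1.mul h3).sub h2⟩
    · have e1 : vx β (n + 1) = vw β n := funext fun z => vx_t h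
      have e2 : vy β (n + 1) = vy β n := funext fun z => vy_t h
      have e3 : vw β (n + 1) = fun z => vw β n z * vy β n z - vx β n z := funext fun z => vw_t h
      rw [e1, e2, e3]
      exact ⟨h3, h2, (h3.mul h2).sub h1⟩

theorem diff_vx (β : ℕ → Bool) (n : ℕ) : Differentiable ℂ (vx β n) := (diff_st β n).1
theorem diff_vy (β : ℕ → Bool) (n : ℕ) : Differentiable ℂ (vy β n) := (diff_st β n).2.1
theorem diff_vw (β : ℕ → Bool) (n : ℕ) : Differentiable ℂ (vw β n) := (diff_st β n).2.2
theorem cont_vx (β : ℕ → Bool) (n : ℕ) : Continuous (vx β n) := (diff_vx β n).continuous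
theorem cont_vy (β : ℕ → Bool) (n : ℕ) : Continuous (vy β n) := (diff_vy β n).continuous
theorem cont_vw (β : ℕ → Bool) (n : ℕ) : Continuous (vw β n) := (diff_vw β n).continuous

theorem edge_open (β : ℕ → Bool) (n : ℕ) : IsOpen {z | Edge (vx β n z) (vy β n z)} := by
  have hx := cont_vx β n
  have hy := cont_vy β n
  have h1 : IsOpen {z | 0 < (vx β n z).re} := isOpen_lt continuous_const (continuous_re.comp hx)
  have h2 : IsOpen {z | 0 < (vx β n z).im} := isOpen_lt continuous_const (continuous_im.comp hx)
  have h3 : IsOpen {z | 0 < (vy β n z).re} := isOpen_lt continuous_const (continuous_re.comp hy)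
  have h4 : IsOpen {z | (vy β n z).im < 0} := isOpen_lt (continuous_im.comp hy) continuous_const
  have h5 : IsOpen {z | 0 < (vx β n z * (starRingEnd ℂ) (vy β n z)).re} :=
    isOpen_lt continuous_const (continuous_re.comp (hx.mul (continuous_conj.comp hy)))
  exact h1.inter (h2.inter (h3.inter (h4.inter h5)))

theorem good_open (β : ℕ → Bool) (n : ℕ) : IsOpen {z | Good β n z} := by
  induction n with
  | zero =>
    have : {z | Good β 0 z} = Set.univ := by
      ext z; simp [good_zero]
    rw [this]; exact isOpen_univ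
  | succ n ih =>
    have : {z | Good β (n + 1) z} = {z | Good β n z} ∩ {z | Edge (vx β (n + 1) z) (vy β (n + 1) z)} := by
      ext z
      constructor
      · intro h
        exact ⟨h.mono (by omega), h (n + 1) (by omega) le_rfl⟩
      · rintro ⟨h1, h2⟩ k hk1 hk
        rcases Nat.lt_or_ge k (n + 1) with h | h
        · exact h1 k hk1 (by omega)
        · have : k = n + 1 := by omega
          subst this; exact h2
    rw [this]; exact ih.inter (edge_open β (n + 1))

theorem bits_near {z₀ : ℂ} {n : ℕ} (h : ∀ k, k < n → (vw (bits z₀) k z₀).im ≠ 0) :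
    ∀ᶠ z in 𝓝 z₀, ∀ k, k < n → bits z k = bits z₀ k := by
  induction n with
  | zero => exact Eventually.of_forall fun z k hk => by omega
  | succ n ih =>
    have h1 := ih (fun k hk => h k (by omega))
    have h0 := h n (by omega)
    have hc : ContinuousAt (fun z => (vw (bits z₀) n z).im) z₀ :=
      (continuous_im.comp (cont_vw (bits z₀) n)).continuousAt
    rcases lt_or_gt_of_ne h0 with h2 | h2
    · have h3 : ∀ᶠ z in 𝓝 z₀, (vw (bits z₀) n z).im < 0 := hc.eventually_lt_const h2
      filter_upwards [h1, h3] with z hz1 hz2 k hk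
      rcases Nat.lt_or_ge k n with h | h
      · exact hz1 k h
      · have : k = n := by omega
        subst this
        rw [bits_eq z, bits_eq z₀, vw_congr (z := z) hz1, decide_eq_decide]
        constructor <;> intro h' <;> linarith
    · have h3 : ∀ᶠ z in 𝓝 z₀, 0 < (vw (bits z₀) n z).im := hc.eventually_const_lt h2
      filter_upwards [h1, h3] with z hz1 hz2 k hk
      rcases Nat.lt_or_ge k n with h | h
      · exact hz1 k h
      · have : k = n := by omega
        subst this
        rw [bits_eq z, bits_eq z₀, vw_congr (z := z) hz1, decide_eq_decide]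
        constructor <;> intro h' <;> linarith

/-- Level one. -/
theorem vw_zero_im (β : ℕ → Bool) (z : ℂ) : (vw β 0 z).im = z.im ^ 2 - z.re ^ 2 := by
  simp [pow_two]

end Pool.Agent.Loc
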