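import Mathlib

set_option autoImplicit false

/-!
# Loc: combinatorics of the words at infinity (3.7 (G), helper77)
-/

namespace Pool.Agent.Loc

/-- The letter words of the two ends of the edge of level `n`. -/
def lw (β : ℕ → Bool) : ℕ → List Bool × List Bool
  | 0 => ([false], [true])
  | n + 1 => if β n then ((lw β n).2 ++ (lw β n).1, (lw β n).2)
      else ((lw β n).1, (lw β n).1 ++ (lw β n).2)

/-- Left and right denominators, and numbers of letters `false`. -/
def dn (β : ℕ → Bool) : ℕ → (ℕ × ℕ) × (ℕ × ℕ)
  | 0 => ((1, 1), (0, 1))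
  | n + 1 => if β n then
      (((dn β n).1.1 + (dn β n).2.1, (dn β n).1.2 + (dn β n).2.2), (dn β n).2)
      else ((dn β n).1, ((dn β n).1.1 + (dn β n).2.1, (dn β n).1.2 + (dn β n).2.2))

/-- Number of letters `false` among the first `j`. -/
def cf (u : List Bool) (j : ℕ) : ℕ := (u.take j).count false

/-- zeros and length -/
def zl (β : ℕ → Bool) (n : ℕ) : ℕ := (dn β n).1.1
def ql (β : ℕ → Bool) (n : ℕ) : ℕ := (dn β n).1.2
def zr (β : ℕ → Bool) (n : ℕ) : ℕ := (dn β n).2.1
def qr (β : ℕ → Bool) (n : ℕ) : ℕ := (dn β n).2.2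
def la (β : ℕ → Bool) (n : ℕ) : List Bool := (lw β n).1
def ra (β : ℕ → Bool) (n : ℕ) : List Bool := (lw β n).2

section
variable {β : ℕ → Bool} {n : ℕ}

@[simp] theorem zl_zero : zl β 0 = 1 := rfl
@[simp] theorem ql_zero : ql β 0 = 1 := rfl
@[simp] theorem zr_zero : zr β 0 = 0 := rfl
@[simp] theorem qr_zero : qr β 0 = 1 := rfl
@[simp] theorem la_zero : la β 0 = [false] := rfl
@[simp] theorem ra_zero : ra β 0 = [true] := rfl

theorem zl_t (h : β n = true) : zl β (n + 1) = zl β n + zr β n := by simp [zl, zr, dn, h]
theorem ql_t (h : β n = true) : ql β (n + 1) = ql β n + qr β n := by simp [ql, qr, dn, h]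
theorem zr_t (h : β n = true) : zr β (n + 1) = zr β n := by simp [zr, dn, h]
theorem qr_t (h : β n = true) : qr β (n + 1) = qr β n := by simp [qr, dn, h]
theorem la_t (h : β n = true) : la β (n + 1) = ra β n ++ la β n := by simp [la, ra, lw, h]
theorem ra_t (h : β n = true) : ra β (n + 1) = ra β n := by simp [ra, lw, h]
theorem zl_f (h : β n = false) : zl β (n + 1) = zl β n := by simp [zl, dn, h]
theorem ql_f (h : β n = false) : ql β (n + 1) = ql β n := by simp [ql, dn, h]
theorem zr_f (h : β n = false) : zr β (n + 1) = zl β n + zr β n := by simp [zl, zr, dn, h]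
theorem qr_f (h : β n = false) : qr β (n + 1) = ql β n + qr β n := by simp [ql, qr, dn, h]
theorem la_f (h : β n = false) : la β (n + 1) = la β n := by simp [la, lw, h]
theorem ra_f (h : β n = false) : ra β (n + 1) = la β n ++ ra β n := by simp [la, ra, lw, h]

theorem ql_pos (β : ℕ → Bool) (n : ℕ) : 0 < ql β n ∧ 0 < qr β n := by
  induction n with
  | zero => simp
  | succ n ih =>
    cases h : β n
    · rw [ql_f h, qr_f h]; omega
    · rw [ql_t h, qr_t h]; omega

theorem len_lw (β : ℕ → Bool) (n : ℕ) : (la β n).length = ql β n ∧ (ra β n).length = qr β n := by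
  induction n with
  | zero => simp
  | succ n ih =>
    cases h : β n
    · rw [ql_f h, qr_f h, la_f h, ra_f h, List.length_append]; omega
    · rw [ql_t h, qr_t h, la_t h, ra_t h, List.length_append]; omega

theorem cnt_lw (β : ℕ → Bool) (n : ℕ) :
    (la β n).count false = zl β n ∧ (ra β n).count false = zr β n := by
  induction n with
  | zero => simp
  | succ n ih =>
    cases h : β n
    · rw [zl_f h, zr_f h, la_f h, ra_f h, List.count_append]; omega
    · rw [zl_t h, zr_t h, la_t h, ra_t h, List.count_append]; omega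

theorem det_dn (β : ℕ → Bool) (n : ℕ) : zl β n * qr β n = zr β n * ql β n + 1 := by
  induction n with
  | zero => simp
  | succ n ih =>
    cases h : β n
    · rw [zl_f h, zr_f h, ql_f h, qr_f h]; nlinarith
    · rw [zl_t h, zr_t h, ql_t h, qr_t h]; nlinarith

theorem cf_append_lt (u v : List Bool) (j : ℕ) (h : j ≤ u.length) : cf (u ++ v) j = cf u j := by
  simp only [cf, List.take_append]
  rw [Nat.sub_eq_zero_of_le h, List.take_zero, List.append_nil]

theorem cf_append_ge (u v : List Bool) (j : ℕ) :
    cf (u ++ v) (u.length + j) = u.count false + cf v j := by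
  simp only [cf, List.take_append]
  rw [List.take_of_length_le (by omega), Nat.add_sub_cancel_left, List.count_append]

/-- The bounds for the prefixes. -/
def PB (zl ql zr qr : ℕ) (u : List Bool) : Prop :=
  ∀ j, j + 2 ≤ ql + qr → qr * cf u j ≤ (j + 1) * zr ∧ (j + 1) * zl ≤ ql * (cf u j + 1)

theorem pb (β : ℕ → Bool) (n : ℕ) :
    PB (zl β n) (ql β n) (zr β n) (qr β n) (la β n ++ ra β n) ∧
      PB (zl β n) (ql β n) (zr β n) (qr β n) (ra β n ++ la β n) := by
  induction n with
  | zero =>
    constructor <;>
    · intro j hj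
      have : j = 0 := by simpa using hj
      subst this
      simp [cf]
  | succ n ih =>
    obtain ⟨ih1, ih2⟩ := ih
    obtain ⟨hql, hqr⟩ := ql_pos β n
    obtain ⟨hll, hlr⟩ := len_lw β n
    obtain ⟨hcl, hcr⟩ := cnt_lw β n
    have hdet := det_dn β n
    -- general steps
    have keyF : ∀ v : List Bool, PB (zl β n) (ql β n) (zr β n) (qr β n) v → 
        ∀ i, i + 2 ≤ ql β n + qr β n →
        (ql β n + qr β n) * (zl β n + cf v i) ≤ (ql β n + i + 1) * (zl β n + zr β n) ∧
        (ql β n + i + 1) * zl β n ≤ ql β n * (zl β n + cf v i + 1) := by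
      intro v hv i hi
      obtain ⟨h1, h2⟩ := hv i hi
      constructor
      · -- strictness
        have h3 : (ql β n + qr β n) * cf v i + 1 ≤ (i + 1) * (zl β n + zr β n) := by
          by_contra hcon
          push Not at hcon
          have h4 : (i + 1) * (zl β n + zr β n) ≤ (ql β n + qr β n) * cf v i := by omega
          -- multiply by qr
          have h5 : qr β n * ((i + 1) * (zl β n + zr β n)) ≤
              (ql β n + qr β n) * ((i + 1) * zr β n) := by
            calc qr β n * ((i + 1) * (zl β n + zr β n)) ≤ qr β n * ((ql β n + qr β n) * cf v i) :=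
                  Nat.mul_le_mul_left _ h4
              _ = (ql β n + qr β n) * (qr β n * cf v i) := by ring
              _ ≤ _ := Nat.mul_le_mul_left _ h1
          nlinarith
        nlinarith
      · nlinarith
    have keyT : ∀ v : List Bool, PB (zl β n) (ql β n) (zr β n) (qr β n) v → 
        ∀ i, i + 2 ≤ ql β n + qr β n →
        qr β n * (zr β n + cf v i) ≤ (qr β n + i + 1) * zr β n ∧
        (qr β n + i + 1) * (zl β n + zr β n) ≤ (ql β n + qr β n) * (zr β n + cf v i + 1) := by
      intro v hv i hi
      obtain ⟨h1, h2⟩ := hv i hi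
      constructor
      · nlinarith
      · have h3 : (i + 1) * (zl β n + zr β n) + 1 ≤ (ql β n + qr β n) * (cf v i + 1) := by
          by_contra hcon
          push Not at hcon
          have h4 : (ql β n + qr β n) * (cf v i + 1) ≤ (i + 1) * (zl β n + zr β n) := by omega
          have h5 : (ql β n + qr β n) * ((i + 1) * zl β n) ≤
              ql β n * ((i + 1) * (zl β n + zr β n)) := by
            calc (ql β n + qr β n) * ((i + 1) * zl β n) ≤
                  (ql β n + qr β n) * (ql β n * (cf v i + 1)) := Nat.mul_le_mul_left _ h2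
              _ = ql β n * ((ql β n + qr β n) * (cf v i + 1)) := by ring
              _ ≤ _ := Nat.mul_le_mul_left _ h4
          nlinarith
        nlinarith
    have smallF : ∀ j, j + 2 ≤ ql β n + qr β n → ∀ c : ℕ,
        qr β n * c ≤ (j + 1) * zr β n → (j + 1) * zl β n ≤ ql β n * (c + 1) →
        (ql β n + qr β n) * c ≤ (j + 1) * (zl β n + zr β n) ∧
        (j + 1) * zl β n ≤ ql β n * (c + 1) ∧
        qr β n * c ≤ (j + 1) * zr β n ∧
        (j + 1) * (zl β n + zr β n) ≤ (ql β n + qr β n) * (c + 1) := by
      intro j hj c h1 h2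
      refine ⟨?_, h2, h1, ?_⟩
      · have : qr β n * ((ql β n + qr β n) * c) ≤ qr β n * ((j + 1) * (zl β n + zr β n)) := by
          calc qr β n * ((ql β n + qr β n) * c) = (ql β n + qr β n) * (qr β n * c) := by ring
            _ ≤ (ql β n + qr β n) * ((j + 1) * zr β n) := Nat.mul_le_mul_left _ h1
            _ ≤ _ := by nlinarith
        exact Nat.le_of_mul_le_mul_left this hqr
      · have : ql β n * ((j + 1) * (zl β n + zr β n)) ≤ ql β n * ((ql β n + qr β n) * (c + 1)) := by
          calc ql β n * ((j + 1) * (zl β n + zr β n)) ≤ (ql β n + qr β n) * ((j + 1) * zl β n) := by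
                nlinarith
            _ ≤ (ql β n + qr β n) * (ql β n * (c + 1)) := Nat.mul_le_mul_left _ h2
            _ = _ := by ring
        exact Nat.le_of_mul_le_mul_left this hql
    cases h : β n
    · rw [zl_f h, ql_f h, zr_f h, qr_f h, la_f h, ra_f h]
      constructor
      · -- la ++ (la ++ ra)
        intro j hj
        rcases Nat.lt_or_ge j (ql β n) with hlt | hge
        · have e : cf (la β n ++ (la β n ++ ra β n)) j = cf (la β n ++ ra β n) j := by
            rw [cf_append_lt _ _ _ (by omega), cf_append_lt _ _ _ (by omega)]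
          rw [e]
          obtain ⟨a1, a2⟩ := ih1 j (by omega)
          obtain ⟨b1, b2, -, -⟩ := smallF j (by omega) _ a1 a2
          exact ⟨b1, b2⟩
        · obtain ⟨i, rfl⟩ := Nat.exists_eq_add_of_le hge
          rw [show ql β n + i = (la β n).length + i by rw [hll], cf_append_ge, hcl, hll]
          have := keyF _ ih1 i (by omega)
          exact this
      · -- (la ++ ra) ++ la = la ++ (ra ++ la)
        intro j hj
        rw [List.append_assoc]
        rcases Nat.lt_or_ge j (ql β n) with hlt | hge
        · have e : cf (la β n ++ (ra β n ++ la β n)) j = cf (la β n ++ ra β n) j := by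
            rw [cf_append_lt _ _ _ (by omega), cf_append_lt _ _ _ (by omega)]
          rw [e]
          obtain ⟨a1, a2⟩ := ih1 j (by omega)
          obtain ⟨b1, b2, -, -⟩ := smallF j (by omega) _ a1 a2
          exact ⟨b1, b2⟩
        · obtain ⟨i, rfl⟩ := Nat.exists_eq_add_of_le hge
          rw [show ql β n + i = (la β n).length + i by rw [hll], cf_append_ge, hcl, hll]
          exact keyF _ ih2 i (by omega)
    · rw [zl_t h, ql_t h, zr_t h, qr_t h, la_t h, ra_t h]
      constructor
      · -- (ra ++ la) ++ ra
        intro j hj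
        rw [List.append_assoc]
        rcases Nat.lt_or_ge j (qr β n) with hlt | hge
        · have e : cf (ra β n ++ (la β n ++ ra β n)) j = cf (ra β n ++ la β n) j := by
            rw [cf_append_lt _ _ _ (by omega), cf_append_lt _ _ _ (by omega)]
          rw [e]
          obtain ⟨a1, a2⟩ := ih2 j (by omega)
          obtain ⟨-, -, b1, b2⟩ := smallF j (by omega) _ a1 a2
          exact ⟨b1, b2⟩
        · obtain ⟨i, rfl⟩ := Nat.exists_eq_add_of_le hge
          rw [show qr β n + i = (ra β n).length + i by rw [hlr], cf_append_ge, hcr, hlr]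
          exact keyT _ ih1 i (by omega)
      · -- ra ++ (ra ++ la)
        intro j hj
        rcases Nat.lt_or_ge j (qr β n) with hlt | hge
        · have e : cf (ra β n ++ (ra β n ++ la β n)) j = cf (ra β n ++ la β n) j := by
            rw [cf_append_lt _ _ _ (by omega), cf_append_lt _ _ _ (by omega)]
          rw [e]
          obtain ⟨a1, a2⟩ := ih2 j (by omega)
          obtain ⟨-, -, b1, b2⟩ := smallF j (by omega) _ a1 a2
          exact ⟨b1, b2⟩
        · obtain ⟨i, rfl⟩ := Nat.exists_eq_add_of_le hge
          rw [show qr β n + i = (ra β n).length + i by rw [hlr], cf_append_ge, hcr, hlr]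
          exact keyT _ ih2 i (by omega)

/-- Strict bounds with the mediant. -/
theorem pb_strict (β : ℕ → Bool) (n : ℕ) (j : ℕ) (hj : j + 2 ≤ ql β n + qr β n) :
    (ql β n + qr β n) * cf (la β n ++ ra β n) j + 1 ≤ (j + 1) * (zl β n + zr β n) ∧
      (j + 1) * (zl β n + zr β n) + 1 ≤ (ql β n + qr β n) * (cf (la β n ++ ra β n) j + 1) := by
  obtain ⟨hql, hqr⟩ := ql_pos β n
  have hdet := det_dn β n
  obtain ⟨h1, h2⟩ := (pb β n).1 j hj
  set c := cf (la β n ++ ra β n) j
  constructor
  · by_contra hcon
    push Not at hcon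
    have h4 : (j + 1) * (zl β n + zr β n) ≤ (ql β n + qr β n) * c := by omega
    have h5 : qr β n * ((j + 1) * (zl β n + zr β n)) ≤
        (ql β n + qr β n) * ((j + 1) * zr β n) := by
      calc qr β n * ((j + 1) * (zl β n + zr β n)) ≤ qr β n * ((ql β n + qr β n) * c) :=
            Nat.mul_le_mul_left _ h4
        _ = (ql β n + qr β n) * (qr β n * c) := by ring
        _ ≤ _ := Nat.mul_le_mul_left _ h1
    nlinarith
  · by_contra hcon
    push Not at hcon
    have h4 : (ql β n + qr β n) * (c + 1) ≤ (j + 1) * (zl β n + zr β n) := by omega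
    have h5 : (ql β n + qr β n) * ((j + 1) * zl β n) ≤
        ql β n * ((j + 1) * (zl β n + zr β n)) := by
      calc (ql β n + qr β n) * ((j + 1) * zl β n) ≤
            (ql β n + qr β n) * (ql β n * (c + 1)) := Nat.mul_le_mul_left _ h2
        _ = ql β n * ((ql β n + qr β n) * (c + 1)) := by ring
        _ ≤ _ := Nat.mul_le_mul_left _ h4
    nlinarith

end

end Pool.Agent.Loc
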