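import Pool.Agent.Loc.Bas
import Pool.Agent.Loc.BaseC

set_option autoImplicit false

/-!
# Loc: asymptotics at infinity and ray points there (3.7, helper77)
-/

namespace Pool.Agent.Loc

open Complex Pool.Agent.FZC Filter Topology Bornology

/-- The leading term `(-i z)^q i^c`. -/
def lead (q c : ℕ) (z : ℂ) : ℂ := (-I * z) ^ q * I ^ c

theorem lead_mul (q c q' c' : ℕ) (z : ℂ) : lead (q + q') (c + c') z = lead q c z * lead q' c' z := by
  simp only [lead]; ring

theorem norm_lead (q c : ℕ) (z : ℂ) : ‖lead q c z‖ = ‖z‖ ^ q := by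
  simp [lead, norm_pow]

theorem lead_ne {z : ℂ} (hz : z ≠ 0) (q c : ℕ) : lead q c z ≠ 0 := by
  rw [← norm_pos_iff, norm_lead]
  exact pow_pos (norm_pos_iff.2 hz) q

/-- Asymptotic to the leading term. -/
def As (f : ℂ → ℂ) (q c : ℕ) : Prop :=
  Tendsto (fun z => f z / lead q c z) (cobounded ℂ) (𝓝 1)

theorem tendsto_lead_inv (q c : ℕ) (hq : 0 < q) :
    Tendsto (fun z => (lead q c z)⁻¹) (cobounded ℂ) (𝓝 0) := by
  rw [tendsto_zero_iff_norm_tendsto_zero]
  have h1 : (fun z : ℂ => ‖(lead q c z)⁻¹‖) = fun z => (‖z‖ ^ q)⁻¹ := by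
    funext z; rw [norm_inv, norm_lead]
  rw [h1]
  have h2 : Tendsto (fun z : ℂ => ‖z‖ ^ q) (cobounded ℂ) atTop :=
    (tendsto_pow_atTop hq.ne').comp tendsto_norm_cobounded_atTop
  exact tendsto_inv_atTop_zero.comp h2

theorem As.mul_sub {f g h : ℂ → ℂ} {q c q' c' q'' c'' : ℕ} (hf : As f q c) (hg : As g q' c')
    (hh : As h q'' c'') (hq : q'' < q + q') : As (fun z => f z * g z - h z) (q + q') (c + c') := by
  have h0 : ∀ᶠ z : ℂ in cobounded ℂ, z ≠ 0 := by
    have := (tendsto_norm_cobounded_atTop (E := ℂ)).eventually_gt_atTop 0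
    filter_upwards [this] with z hz
    exact norm_pos_iff.1 hz
  have e1 : Tendsto (fun z => f z / lead q c z * (g z / lead q' c' z)) (cobounded ℂ) (𝓝 (1 * 1)) :=
    hf.mul hg
  -- h / lead (q+q') -> 0
  have e2 : Tendsto (fun z => h z / lead q'' c'' z * (lead q'' c'' z / lead (q + q') (c + c') z))
      (cobounded ℂ) (𝓝 (1 * 0)) := by
    refine hh.mul ?_
    rw [tendsto_zero_iff_norm_tendsto_zero]
    have h2 : Tendsto (fun z : ℂ => (‖z‖ ^ (q + q' - q''))⁻¹) (cobounded ℂ) (𝓝 0) :=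
      tendsto_inv_atTop_zero.comp ((tendsto_pow_atTop (by omega)).comp tendsto_norm_cobounded_atTop)
    refine h2.congr' ?_
    filter_upwards [h0] with z hz
    rw [norm_div, norm_lead, norm_lead]
    have hn : ‖z‖ ≠ 0 := norm_ne_zero_iff.2 hz
    have : ‖z‖ ^ (q + q') = ‖z‖ ^ q'' * ‖z‖ ^ (q + q' - q'') := by
      rw [← pow_add]; congr 1; omega
    rw [this]
    field_simp
  have e3 := e1.sub e2
  simp only [mul_one, mul_zero, sub_zero] at e3
  refine e3.congr' ?_
  filter_upwards [h0] with z hz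
  have l1 := lead_ne hz q c
  have l2 := lead_ne hz q' c'
  have l3 := lead_ne hz q'' c''
  have l4 := lead_ne hz (q + q') (c + c')
  rw [sub_div, lead_mul]
  field_simp

theorem as_all (β : ℕ → Bool) (n : ℕ) :
    As (vx β n) (ql β n) (zl β n) ∧ As (vy β n) (qr β n) (zr β n) ∧
      As (vw β n) (ql β n + qr β n) (zl β n + zr β n) := by
  induction n with
  | zero =>
    have h0 : ∀ᶠ z : ℂ in cobounded ℂ, z ≠ 0 := by
      have := (tendsto_norm_cobounded_atTop (E := ℂ)).eventually_gt_atTop 0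
      filter_upwards [this] with z hz
      exact norm_pos_iff.1 hz
    have hI : I ≠ 0 := I_ne_zero
    refine ⟨?_, ?_, ?_⟩
    · refine tendsto_const_nhds.congr' ?_
      filter_upwards [h0] with z hz
      simp only [vx_zero, lead, ql_zero, zl_zero, pow_one]
      rw [eq_div_iff (by simp [hz])]
      linear_combination (-z) * I_mul_I
    · refine tendsto_const_nhds.congr' ?_
      filter_upwards [h0] with z hz
      simp only [vy_zero, lead, qr_zero, zr_zero, pow_one, pow_zero, mul_one]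
      rw [eq_div_iff (by simp [hz])]
      ring
    · refine tendsto_const_nhds.congr' ?_
      filter_upwards [h0] with z hz
      simp only [vw_zero, lead, ql_zero, zl_zero, qr_zero, zr_zero]
      rw [eq_div_iff (by simp [hz])]
      norm_num
      linear_combination (z ^ 2 * I) * I_sq
  | succ n ih =>
    obtain ⟨hx, hy, hw⟩ := ih
    obtain ⟨hql, hqr⟩ := ql_pos β n
    cases h : β n
    · rw [ql_f h, qr_f h, zl_f h, zr_f h]
      have e1 : vx β (n + 1) = vx β n := funext fun z => vx_f h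
      have e2 : vy β (n + 1) = vw β n := funext fun z => vy_f h
      have e3 : vw β (n + 1) = fun z => vx β n z * vw β n z - vy β n z := funext fun z => vw_f h
      rw [e1, e2, e3]
      exact ⟨hx, hw, hx.mul_sub hw hy (by omega)⟩
    · rw [ql_t h, qr_t h, zl_t h, zr_t h]
      have e1 : vx β (n + 1) = vw β n := funext fun z => vx_t h
      have e2 : vy β (n + 1) = vy β n := funext fun z => vy_t h
      have e3 : vw β (n + 1) = fun z => vw β n z * vy β n z - vx β n z := funext fun z => vw_t h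
      rw [e1, e2, e3]
      exact ⟨hw, hy, hw.mul_sub hy hx (by omega)⟩

/-- The point `i r e^{-iψ}`. -/
noncomputable def zp (r ψ : ℝ) : ℂ := I * (r * exp (-(ψ * I)))

theorem norm_zp {r : ℝ} (hr : 0 ≤ r) (ψ : ℝ) : ‖zp r ψ‖ = r := by
  rw [zp, norm_mul, norm_mul, norm_I, one_mul, norm_real, Real.norm_of_nonneg hr,
    show (-(ψ * I) : ℂ) = ((-ψ : ℝ) : ℂ) * I by push_cast; ring, norm_exp_ofReal_mul_I, mul_one]

theorem cont_zp (r : ℝ) : Continuous (zp r) := by
  unfold zp
  fun_prop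

theorem zp_re_im (r ψ : ℝ) : (zp r ψ).re = r * Real.sin ψ ∧ (zp r ψ).im = r * Real.cos ψ := by
  have : zp r ψ = ((r * Real.sin ψ : ℝ) : ℂ) + ((r * Real.cos ψ : ℝ) : ℂ) * I := by
    rw [zp, show (-(ψ * I) : ℂ) = ((-ψ : ℝ) : ℂ) * I by push_cast; ring, exp_mul_I,
      ← ofReal_cos, ← ofReal_sin, Real.cos_neg, Real.sin_neg]
    push_cast
    linear_combination (-(r : ℂ) * Complex.sin ψ) * I_mul_I
  rw [this]
  constructor
  · rw [add_re, ofReal_re, re_ofReal_mul, I_re, mul_zero, add_zero]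
  · rw [add_im, ofReal_im, im_ofReal_mul, I_im, mul_one, zero_add]

theorem lead_zp {r : ℝ} (ψ : ℝ) (q c : ℕ) :
    lead q c (zp r ψ) = (r : ℂ) ^ q * exp ((c * (Real.pi / 2) - q * ψ : ℝ) * I) := by
  have h1 : -I * zp r ψ = r * exp (-(ψ * I)) := by
    rw [zp]; linear_combination (-(r * exp (-(ψ * I)) : ℂ)) * I_mul_I
  have h2 : (I : ℂ) ^ c = exp ((c * (Real.pi / 2) : ℝ) * I) := by
    have : (I : ℂ) = exp (Real.pi / 2 * I) := by
      rw [exp_mul_I]; simp
    rw [this, ← exp_nat_mul]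
    congr 1
    push_cast
    simp
    ring
  rw [lead, h1, mul_pow, h2, ← exp_nat_mul, mul_assoc, ← exp_add]
  congr 2
  push_cast
  ring

/-- Real and imaginary parts of `e^{iφ} (1 + e)`. -/
theorem exp_err (φ : ℝ) (e : ℂ) (ε : ℝ) (he : ‖e‖ ≤ ε) :
    Real.cos φ - ε ≤ (exp (φ * I) * (1 + e)).re ∧ Real.sin φ - ε ≤ (exp (φ * I) * (1 + e)).im ∧
      (exp (φ * I) * (1 + e)).im ≤ Real.sin φ + ε := by
  have h1 : exp (φ * I) * (1 + e) = exp (φ * I) + exp (φ * I) * e := by ring
  have h2 : ‖exp (φ * I) * e‖ ≤ ε := by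
    rw [norm_mul, norm_exp_ofReal_mul_I, one_mul]; exact he
  have h3 := (abs_re_le_norm (exp (φ * I) * e)).trans h2
  have h4 := (abs_im_le_norm (exp (φ * I) * e)).trans h2
  have h5 : (exp (φ * I)).re = Real.cos φ := exp_ofReal_mul_I_re φ
  have h6 : (exp (φ * I)).im = Real.sin φ := exp_ofReal_mul_I_im φ
  rw [h1, add_re, add_im, h5, h6]
  rw [abs_le] at h3 h4
  refine ⟨?_, ?_, ?_⟩ <;> linarith [h3.1, h4.1, h4.2]

theorem as_ev {f : ℂ → ℂ} {q c : ℕ} (h : As f q c) {ε : ℝ} (hε : 0 < ε) :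
    ∀ᶠ z in cobounded ℂ, ∃ e : ℂ, ‖e‖ ≤ ε ∧ f z = lead q c z * (1 + e) := by
  have h0 : ∀ᶠ z : ℂ in cobounded ℂ, z ≠ 0 := by
    have := (tendsto_norm_cobounded_atTop (E := ℂ)).eventually_gt_atTop 0
    filter_upwards [this] with z hz
    exact norm_pos_iff.1 hz
  have h1 := Metric.tendsto_nhds.1 h ε hε
  filter_upwards [h0, h1] with z hz hz1
  refine ⟨f z / lead q c z - 1, ?_, ?_⟩
  · rw [dist_eq_norm] at hz1; exact hz1.le
  · have := lead_ne hz q c
    field_simp
    ring

/-! ### integers measuring the position of the final mediant -/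

section pos
variable (β : ℕ → Bool) (n : ℕ)

/-- final denominator and number of zeros -/
def qw : ℕ := ql β n + qr β n
def zw : ℕ := zl β n + zr β n

def Ak (k : ℕ) : ℤ := zl β k * qw β n - zw β n * ql β k
def Bk (k : ℕ) : ℤ := zw β n * qr β k - zr β k * qw β n

theorem Ak_pos : ∀ j k, k + j = n → 1 ≤ Ak β n k ∧ 1 ≤ Bk β n k := by
  intro j
  induction j with
  | zero =>
    intro k hk
    have : k = n := by omega
    subst this
    have hd := det_dn β k
    have hd' : (zl β k : ℤ) * qr β k = zr β k * ql β k + 1 := by exact_mod_cast hd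
    constructor
    · simp only [Ak, qw, zw]; push_cast; nlinarith
    · simp only [Bk, qw, zw]; push_cast; nlinarith
  | succ j ih =>
    intro k hk
    obtain ⟨h1, h2⟩ := ih (k + 1) (by omega)
    cases h : β k
    · simp only [Ak, Bk, zl_f h, ql_f h, zr_f h, qr_f h] at h1 h2 ⊢
      push_cast at h1 h2 ⊢
      constructor <;> nlinarith
    · simp only [Ak, Bk, zl_t h, ql_t h, zr_t h, qr_t h] at h1 h2 ⊢
      push_cast at h1 h2 ⊢
      constructor <;> nlinarith

theorem AB_le : ∀ k, k ≤ n → Ak β n k + Bk β n k ≤ qw β n - (if k = 0 then 0 else 1) := by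
  intro k
  induction k with
  | zero => intro _; simp [Ak, Bk]
  | succ k ih =>
    intro hk
    have h0 := ih (by omega)
    obtain ⟨h1, h2⟩ := Ak_pos β n (n - k) k (by omega)
    have h3 : Ak β n k + Bk β n k ≤ qw β n := by
      refine h0.trans ?_
      split_ifs <;> omega
    rw [if_neg (Nat.succ_ne_zero k)]
    cases h : β k
    · have e1 : Ak β n (k + 1) = Ak β n k := by simp only [Ak, zl_f h, ql_f h]
      have e2 : Bk β n (k + 1) = Bk β n k - Ak β n k := by
        simp only [Ak, Bk, zr_f h, qr_f h]; push_cast; ring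
      rw [e1, e2]; omega
    · have e1 : Ak β n (k + 1) = Ak β n k - Bk β n k := by
        simp only [Ak, Bk, zl_t h, ql_t h]; push_cast; ring
      have e2 : Bk β n (k + 1) = Bk β n k := by simp only [Bk, zr_t h, qr_t h]
      rw [e1, e2]; omega

theorem q_le : ∀ k, k ≤ n → ql β k ≤ ql β n + qr β n ∧ qr β k ≤ ql β n + qr β n ∧
    (k < n → ql β k + qr β k ≤ ql β n + qr β n) := by
  have hm : ∀ k, ql β k ≤ ql β (k + 1) ∧ qr β k ≤ qr β (k + 1) := by
    intro k
    cases h : β k
    · rw [ql_f h, qr_f h]; omega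
    · rw [ql_t h, qr_t h]; omega
  have hmono : Monotone (ql β) := monotone_nat_of_le_succ fun k => (hm k).1
  have hmono' : Monotone (qr β) := monotone_nat_of_le_succ fun k => (hm k).2
  intro k hk
  have h1 := hmono hk
  have h2 := hmono' hk
  exact ⟨by omega, by omega, fun _ => by omega⟩

end pos

end Pool.Agent.Loc
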