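import Pool.Agent.Loc.BaseA

set_option autoImplicit false

/-!
# Loc: ray points near infinity (3.7, helper77)
-/

namespace Pool.Agent.Loc

open Complex Pool.Agent.FZC Filter Topology Bornology

theorem edge_at {x y e e' : ℂ} {r φ φ' s : ℝ} {a b : ℕ} (hr : 0 < r)
    (hx : x = (r : ℂ) ^ a * (exp (φ * I) * (1 + e))) (hy : y = (r : ℂ) ^ b * (exp (φ' * I) * (1 + e')))
    (hs : 0 < s) (hs1 : s ≤ 1) (he : ‖e‖ ≤ s / 4) (he' : ‖e'‖ ≤ s / 4)
    (h1 : s ≤ Real.sin φ) (h2 : s ≤ Real.cos φ) (h3 : Real.sin φ' ≤ -s) (h4 : s ≤ Real.cos φ') :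
    0 < x.re ∧ 0 < x.im ∧ 0 < y.re ∧ y.im < 0 ∧
      (s ≤ Real.cos (φ - φ') → 0 < (x * (starRingEnd ℂ) y).re) := by
  obtain ⟨a1, a2, -⟩ := exp_err φ e (s / 4) he
  obtain ⟨b1, -, b3⟩ := exp_err φ' e' (s / 4) he'
  have hra : 0 < r ^ a := pow_pos hr a
  have hrb : 0 < r ^ b := pow_pos hr b
  have hx' : x = ((r ^ a : ℝ) : ℂ) * (exp (φ * I) * (1 + e)) := by rw [hx]; push_cast; ring
  have hy' : y = ((r ^ b : ℝ) : ℂ) * (exp (φ' * I) * (1 + e')) := by rw [hy]; push_cast; ring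
  refine ⟨?_, ?_, ?_, ?_, ?_⟩
  · rw [hx', re_ofReal_mul]; exact mul_pos hra (by linarith)
  · rw [hx', im_ofReal_mul]; exact mul_pos hra (by linarith)
  · rw [hy', re_ofReal_mul]; exact mul_pos hrb (by linarith)
  · rw [hy', im_ofReal_mul]; exact mul_neg_of_pos_of_neg hrb (by linarith)
  · intro h5
    have e1 : (starRingEnd ℂ) y = ((r ^ b : ℝ) : ℂ) * (exp (-(φ' * I)) * (1 + (starRingEnd ℂ) e')) := by
      rw [hy', map_mul, map_mul, conj_ofReal, map_add, map_one, ← exp_conj, map_mul, conj_ofReal,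
        conj_I, mul_neg]
    have e2 : x * (starRingEnd ℂ) y = ((r ^ a * r ^ b : ℝ) : ℂ) *
        (exp ((φ - φ' : ℝ) * I) * (1 + (e + (starRingEnd ℂ) e' + e * (starRingEnd ℂ) e'))) := by
      have : exp ((φ - φ' : ℝ) * I) = exp (φ * I) * exp (-(φ' * I)) := by
        rw [← exp_add]; congr 1; push_cast; ring
      rw [e1, hx', this]; push_cast; ring
    have he3 : ‖e + (starRingEnd ℂ) e' + e * (starRingEnd ℂ) e'‖ ≤ 3 * s / 4 := by
      have n1 : ‖(starRingEnd ℂ) e'‖ = ‖e'‖ := RCLike.norm_conj e'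
      calc _ ≤ ‖e + (starRingEnd ℂ) e'‖ + ‖e * (starRingEnd ℂ) e'‖ := norm_add_le _ _
        _ ≤ ‖e‖ + ‖(starRingEnd ℂ) e'‖ + ‖e‖ * ‖(starRingEnd ℂ) e'‖ := by
            rw [norm_mul]; gcongr; exact norm_add_le _ _
        _ ≤ s / 4 + s / 4 + (s / 4) * (s / 4) := by rw [n1]; gcongr
        _ ≤ 3 * s / 4 := by nlinarith
    obtain ⟨c1, -, -⟩ := exp_err (φ - φ') _ _ he3
    rw [e2, re_ofReal_mul]
    exact mul_pos (mul_pos hra hrb) (by linarith)

/-- The angles of the two ends. -/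
noncomputable def phx (β : ℕ → Bool) (k : ℕ) (ψ : ℝ) : ℝ := zl β k * (Real.pi / 2) - ql β k * ψ
noncomputable def phy (β : ℕ → Bool) (k : ℕ) (ψ : ℝ) : ℝ := zr β k * (Real.pi / 2) - qr β k * ψ

/-- The limit angle and the margins. -/
noncomputable def psi0 (β : ℕ → Bool) (n : ℕ) : ℝ := Real.pi / 2 * (zw β n / qw β n)
noncomputable def del (β : ℕ → Bool) (n : ℕ) : ℝ := Real.pi / (4 * qw β n ^ 2)
noncomputable def mar (β : ℕ → Bool) (n : ℕ) : ℝ := Real.sin (Real.pi / (4 * qw β n))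

theorem qw_ge (β : ℕ → Bool) (n : ℕ) : 2 ≤ qw β n := by
  obtain ⟨h1, h2⟩ := ql_pos β n
  unfold qw; omega

theorem del_pos (β : ℕ → Bool) (n : ℕ) : 0 < del β n := by
  have := qw_ge β n
  have h : (0 : ℝ) < qw β n := by exact_mod_cast (by omega : 0 < qw β n)
  have := Real.pi_pos
  unfold del; positivity

theorem mar_pos (β : ℕ → Bool) (n : ℕ) : 0 < mar β n ∧ mar β n ≤ 1 := by
  have := qw_ge β n
  have h : (2 : ℝ) ≤ qw β n := by exact_mod_cast this
  have hp := Real.pi_pos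
  refine ⟨Real.sin_pos_of_pos_of_lt_pi (by positivity) ?_, Real.sin_le_one _⟩
  rw [div_lt_iff₀ (by positivity)]
  nlinarith

theorem angles (β : ℕ → Bool) (n k : ℕ) (hk : k ≤ n) (ψ : ℝ) (hψ : |ψ - psi0 β n| ≤ del β n) :
    mar β n ≤ Real.sin (phx β k ψ) ∧ mar β n ≤ Real.cos (phx β k ψ) ∧
      Real.sin (phy β k ψ) ≤ -mar β n ∧ mar β n ≤ Real.cos (phy β k ψ) ∧
      (1 ≤ k → mar β n ≤ Real.cos (phx β k ψ - phy β k ψ)) := by
  have hp := Real.pi_pos
  have hq2 := qw_ge β n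
  have hq : (2 : ℝ) ≤ qw β n := by exact_mod_cast hq2
  have hq0 : (0 : ℝ) < qw β n := by linarith
  set q : ℝ := (qw β n : ℝ) with hqdef
  obtain ⟨hA, hB⟩ := Ak_pos β n (n - k) k (by omega)
  have hAB := AB_le β n k hk
  obtain ⟨hl, hr, -⟩ := q_le β n k hk
  obtain ⟨hl0, hr0⟩ := ql_pos β k
  have hl' : (ql β k : ℝ) ≤ q := by rw [hqdef]; exact_mod_cast hl
  have hr' : (qr β k : ℝ) ≤ q := by rw [hqdef]; exact_mod_cast hr
  have hl0' : (0 : ℝ) ≤ ql β k := Nat.cast_nonneg _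
  have hr0' : (0 : ℝ) ≤ qr β k := Nat.cast_nonneg _
  have hA' : (1 : ℝ) ≤ Ak β n k := by exact_mod_cast hA
  have hB' : (1 : ℝ) ≤ Bk β n k := by exact_mod_cast hB
  have hAB' : (Ak β n k : ℝ) + Bk β n k ≤ q := by
    have : Ak β n k + Bk β n k ≤ qw β n := by
      refine hAB.trans ?_
      split_ifs <;> omega
    rw [hqdef]; exact_mod_cast this
  set t := ψ - psi0 β n with ht
  have hψ' : ψ = psi0 β n + t := by rw [ht]; ring
  have hqt : q * |t| ≤ Real.pi / (4 * q) := by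
    calc q * |t| ≤ q * del β n := by gcongr
      _ = Real.pi / (4 * q) := by unfold del; rw [← hqdef]; field_simp
  have ex : phx β k ψ = Real.pi / 2 * (Ak β n k / q) - ql β k * t := by
    rw [phx, hψ', psi0, Ak]
    push_cast
    rw [← hqdef]
    field_simp
    ring
  have ey : phy β k ψ = -(Real.pi / 2 * (Bk β n k / q)) - qr β k * t := by
    rw [phy, hψ', psi0, Bk]
    push_cast
    rw [← hqdef]
    field_simp
    ring
  have elt : |(ql β k : ℝ) * t| ≤ Real.pi / (4 * q) := by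
    rw [abs_mul, abs_of_nonneg hl0']
    exact (mul_le_mul_of_nonneg_right hl' (abs_nonneg t)).trans hqt
  have ert : |(qr β k : ℝ) * t| ≤ Real.pi / (4 * q) := by
    rw [abs_mul, abs_of_nonneg hr0']
    exact (mul_le_mul_of_nonneg_right hr' (abs_nonneg t)).trans hqt
  have elrt : |((ql β k : ℝ) - qr β k) * t| ≤ Real.pi / (4 * q) := by
    rw [abs_mul]
    refine (mul_le_mul_of_nonneg_right ?_ (abs_nonneg t)).trans hqt
    rw [abs_le]; constructor <;> linarith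
  rw [abs_le] at elt ert elrt
  -- bounds for A/q, B/q
  have d1 : Real.pi / 2 * (1 / q) = 2 * (Real.pi / (4 * q)) := by field_simp; ring
  have a1 : 2 * (Real.pi / (4 * q)) ≤ Real.pi / 2 * (Ak β n k / q) := by
    rw [← d1]; gcongr
  have b1 : 2 * (Real.pi / (4 * q)) ≤ Real.pi / 2 * (Bk β n k / q) := by
    rw [← d1]; gcongr
  have ab : Real.pi / 2 * (Ak β n k / q) + Real.pi / 2 * (Bk β n k / q) ≤ Real.pi / 2 := by
    rw [← mul_add, ← add_div]
    have : (Ak β n k + Bk β n k) / q ≤ 1 := by rw [div_le_one hq0]; exact hAB'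
    nlinarith
  have hd0 : 0 < Real.pi / (4 * q) := by positivity
  have hd1 : Real.pi / (4 * q) ≤ Real.pi / 8 := by
    rw [div_le_div_iff₀ (by positivity) (by norm_num)]; nlinarith
  set d := Real.pi / (4 * q) with hd
  have hm : mar β n = Real.sin d := by rw [mar, ← hqdef]
  -- generic: θ in [d, π/2 - d]
  have gs : ∀ θ, d ≤ θ → θ ≤ Real.pi / 2 - d → Real.sin d ≤ Real.sin θ ∧ Real.sin d ≤ Real.cos θ := by
    intro θ h1 h2
    constructor
    · exact Real.sin_le_sin_of_le_of_le_pi_div_two (by linarith) (by linarith) h1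
    · rw [← Real.sin_pi_div_two_sub]
      exact Real.sin_le_sin_of_le_of_le_pi_div_two (by linarith) (by linarith) (by linarith)
  obtain ⟨x1, x2⟩ := gs (phx β k ψ) (by rw [ex]; linarith [elt.1, elt.2]) (by
    rw [ex]; linarith [elt.1, elt.2])
  obtain ⟨y1, y2⟩ := gs (-phy β k ψ) (by rw [ey]; linarith [ert.1, ert.2]) (by
    rw [ey]; linarith [ert.1, ert.2])
  rw [Real.sin_neg] at y1
  rw [Real.cos_neg] at y2
  rw [hm]
  refine ⟨x1, x2, by linarith, y2, ?_⟩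
  intro hk1
  have hAB2 : (Ak β n k : ℝ) + Bk β n k ≤ q - 1 := by
    have : Ak β n k + Bk β n k ≤ qw β n - 1 := by
      rw [if_neg (by omega)] at hAB; exact hAB
    rw [hqdef]; exact_mod_cast this
  have ab2 : Real.pi / 2 * (Ak β n k / q) + Real.pi / 2 * (Bk β n k / q) ≤ Real.pi / 2 - 2 * d := by
    rw [← mul_add, ← add_div, ← d1]
    have : (Ak β n k + Bk β n k) / q ≤ 1 - 1 / q := by
      rw [div_le_iff₀ hq0]; field_simp; linarith
    nlinarith
  have exy : phx β k ψ - phy β k ψ = Real.pi / 2 * (Ak β n k / q) + Real.pi / 2 * (Bk β n k / q) -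
      ((ql β k : ℝ) - qr β k) * t := by rw [ex, ey]; ring
  exact (gs _ (by rw [exy]; linarith [elrt.1, elrt.2]) (by rw [exy]; linarith [elrt.1, elrt.2])).2

/-- Values at the points `zp r ψ`. -/
theorem vals (β : ℕ → Bool) (n : ℕ) {ε : ℝ} (hε : 0 < ε) : ∃ r₀ : ℝ, 1 ≤ r₀ ∧ ∀ r, r₀ ≤ r →
    ∀ (ψ : ℝ) (k : ℕ), k ≤ n →
      (∃ e : ℂ, ‖e‖ ≤ ε ∧ vx β k (zp r ψ) = (r : ℂ) ^ ql β k * (exp (phx β k ψ * I) * (1 + e))) ∧
      (∃ e : ℂ, ‖e‖ ≤ ε ∧ vy β k (zp r ψ) = (r : ℂ) ^ qr β k * (exp (phy β k ψ * I) * (1 + e))) ∧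
      (∃ e : ℂ, ‖e‖ ≤ ε ∧ vw β k (zp r ψ) = (r : ℂ) ^ (ql β k + qr β k) *
        (exp ((phx β k ψ + phy β k ψ : ℝ) * I) * (1 + e))) := by
  have h1 : ∀ᶠ z in cobounded ℂ, ∀ k ∈ Finset.range (n + 1),
      (∃ e : ℂ, ‖e‖ ≤ ε ∧ vx β k z = lead (ql β k) (zl β k) z * (1 + e)) ∧
      (∃ e : ℂ, ‖e‖ ≤ ε ∧ vy β k z = lead (qr β k) (zr β k) z * (1 + e)) ∧
      (∃ e : ℂ, ‖e‖ ≤ ε ∧ vw β k z = lead (ql β k + qr β k) (zl β k + zr β k) z * (1 + e)) := by
    rw [Filter.eventually_all_finset]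
    intro k _
    obtain ⟨a, b, c⟩ := as_all β k
    filter_upwards [as_ev a hε, as_ev b hε, as_ev c hε] with z h1 h2 h3
    exact ⟨h1, h2, h3⟩
  rw [← comap_norm_atTop, Filter.eventually_comap] at h1
  obtain ⟨r₁, hr₁⟩ := Filter.eventually_atTop.1 h1
  refine ⟨max r₁ 1, le_max_right _ _, fun r hr ψ k hk => ?_⟩
  have hr0 : 0 ≤ r := le_trans zero_le_one ((le_max_right _ _).trans hr)
  obtain ⟨⟨e1, he1, f1⟩, ⟨e2, he2, f2⟩, ⟨e3, he3, f3⟩⟩ :=
    hr₁ r ((le_max_left _ _).trans hr) (zp r ψ) (norm_zp hr0 ψ) k (Finset.mem_range.2 (by omega))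
  refine ⟨⟨e1, he1, ?_⟩, ⟨e2, he2, ?_⟩, ⟨e3, he3, ?_⟩⟩
  · rw [f1, lead_zp, phx]; ring
  · rw [f2, lead_zp, phy]; ring
  · rw [f3, lead_zp, phx, phy, mul_assoc]
    congr 3
    push_cast
    ring_nf

/-- Ray points on all large circles. -/
theorem ray_far (β : ℕ → Bool) (n : ℕ) : ∃ r₀ : ℝ, 4 ≤ r₀ ∧ ∀ r, r₀ ≤ r → ∃ ψ : ℝ,
    |ψ - psi0 β n| ≤ del β n ∧ zp r ψ ∈ Q ∧ End β n (zp r ψ) ∧ 2 < (vw β n (zp r ψ)).re := by
  obtain ⟨hs, hs1⟩ := mar_pos β n
  have hp := Real.pi_pos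
  have hq2 := qw_ge β n
  have hq : (2 : ℝ) ≤ qw β n := by exact_mod_cast hq2
  obtain ⟨r₁, hr₁, hv⟩ := vals β n (ε := mar β n / 4) (by positivity)
  refine ⟨max r₁ 4, le_max_right _ _, fun r hr => ?_⟩
  have hr1 : r₁ ≤ r := (le_max_left _ _).trans hr
  have hr4 : 4 ≤ r := (le_max_right _ _).trans hr
  have hr0 : 0 < r := by linarith
  have hd := del_pos β n
  -- angle of the mediant
  have hphw : ∀ t : ℝ, phx β n (psi0 β n + t) + phy β n (psi0 β n + t) = -(qw β n * t) := by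
    intro t
    rw [phx, phy, psi0]
    have h1 : (qw β n : ℝ) = ql β n + qr β n := by rw [qw]; push_cast; ring
    have h2 : (zw β n : ℝ) = zl β n + zr β n := by rw [zw]; push_cast; ring
    have h3 : (qw β n : ℝ) ≠ 0 := by positivity
    have : (zl β n + zr β n : ℝ) * (Real.pi / 2) = (ql β n + qr β n) * (Real.pi / 2 * (zw β n / qw β n)) := by
      rw [← h1, ← h2]; field_simp
    rw [h1] at *
    linear_combination this
  have hqd : (qw β n : ℝ) * del β n = Real.pi / (4 * qw β n) := by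
    unfold del; field_simp
  -- sign changes
  have hcont : ContinuousOn (fun t : ℝ => (vw β n (zp r (psi0 β n + t))).im)
      (Set.Icc (-del β n) (del β n)) :=
    (continuous_im.comp ((cont_vw β n).comp ((cont_zp r).comp (continuous_const.add continuous_id)))).continuousOn
  have hrp : ∀ a : ℕ, 0 < r ^ a := fun a => pow_pos hr0 a
  have himneg : (vw β n (zp r (psi0 β n + del β n))).im ≤ 0 := by
    obtain ⟨-, -, e, he, h⟩ := hv r hr1 (psi0 β n + del β n) n le_rfl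
    rw [hphw] at h
    obtain ⟨-, -, h3⟩ := exp_err (-(qw β n * del β n)) e _ he
    have : vw β n (zp r (psi0 β n + del β n)) = ((r ^ (ql β n + qr β n) : ℝ) : ℂ) *
        (exp ((-(qw β n * del β n) : ℝ) * I) * (1 + e)) := by rw [h]; push_cast; ring
    rw [this, im_ofReal_mul]
    refine mul_nonpos_of_nonneg_of_nonpos (hrp _).le ?_
    refine h3.trans ?_
    rw [Real.sin_neg, hqd]
    have : Real.sin (Real.pi / (4 * qw β n)) = mar β n := rfl
    rw [this]; linarith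
  have himpos : 0 ≤ (vw β n (zp r (psi0 β n + -del β n))).im := by
    obtain ⟨-, -, e, he, h⟩ := hv r hr1 (psi0 β n + -del β n) n le_rfl
    rw [hphw] at h
    obtain ⟨-, h2, -⟩ := exp_err (-(qw β n * -del β n)) e _ he
    have : vw β n (zp r (psi0 β n + -del β n)) = ((r ^ (ql β n + qr β n) : ℝ) : ℂ) *
        (exp ((-(qw β n * -del β n) : ℝ) * I) * (1 + e)) := by rw [h]; push_cast; ring
    rw [this, im_ofReal_mul]
    refine mul_nonneg (hrp _).le ?_
    refine le_trans ?_ h2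
    rw [mul_neg, neg_neg, hqd]
    have : Real.sin (Real.pi / (4 * qw β n)) = mar β n := rfl
    rw [this]; linarith
  obtain ⟨t, ht, hz⟩ : (0 : ℝ) ∈ (fun t : ℝ => (vw β n (zp r (psi0 β n + t))).im) ''
      (Set.Icc (-del β n) (del β n)) :=
    intermediate_value_Icc' (by linarith) hcont ⟨himneg, himpos⟩
  have hψ : |psi0 β n + t - psi0 β n| ≤ del β n := by
    rw [add_sub_cancel_left, abs_le]; exact ht
  have hre2 : 2 < (vw β n (zp r (psi0 β n + t))).re := by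
    obtain ⟨-, -, e, he, h⟩ := hv r hr1 (psi0 β n + t) n le_rfl
    rw [hphw] at h
    obtain ⟨h1, -, -⟩ := exp_err (-(qw β n * t)) e _ he
    have : vw β n (zp r (psi0 β n + t)) = ((r ^ (ql β n + qr β n) : ℝ) : ℂ) *
        (exp ((-(qw β n * t) : ℝ) * I) * (1 + e)) := by rw [h]; push_cast; ring
    rw [this, re_ofReal_mul]
    have hqt : |(qw β n : ℝ) * t| ≤ Real.pi / (4 * qw β n) := by
      rw [abs_mul, abs_of_nonneg (by linarith), ← hqd]
      gcongr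
      rw [abs_le]; exact ht
    have hqt2 : |(qw β n : ℝ) * t| ≤ 0.4 := by
      refine hqt.trans ?_
      rw [div_le_iff₀ (by positivity)]
      nlinarith [Real.pi_lt_d2]
    have hc : (0.9 : ℝ) ≤ Real.cos (-(qw β n * t)) := by
      refine le_trans ?_ (Real.one_sub_sq_div_two_le_cos)
      have : (-(qw β n * t)) ^ 2 ≤ 0.4 ^ 2 := by
        rw [← sq_abs, abs_neg]; gcongr
      nlinarith
    have hpow : (16 : ℝ) ≤ r ^ (ql β n + qr β n) := by
      calc (16 : ℝ) = 4 ^ 2 := by norm_num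
        _ ≤ r ^ 2 := by gcongr
        _ ≤ r ^ (ql β n + qr β n) := pow_le_pow_right₀ (by linarith) hq2
    have h9 : (0.65 : ℝ) ≤ (exp ((-(qw β n * t) : ℝ) * I) * (1 + e)).re := by linarith
    nlinarith
  refine ⟨psi0 β n + t, hψ, ?_, ⟨?_, hz, ?_⟩, ?_⟩
  · -- in Q
    obtain ⟨h1, h2, h3, h4, -⟩ := angles β n 0 (by omega) _ hψ
    simp only [phx, zl_zero, ql_zero, Nat.cast_one, one_mul] at h1 h2
    rw [Real.sin_pi_div_two_sub] at h1
    rw [Real.cos_pi_div_two_sub] at h2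
    obtain ⟨e1, e2⟩ := zp_re_im r (psi0 β n + t)
    exact ⟨by rw [e1]; exact mul_pos hr0 (by linarith), by rw [e2]; exact mul_pos hr0 (by linarith)⟩
  · intro k hk1 hk
    obtain ⟨h1, h2, h3, h4, h5⟩ := angles β n k hk _ hψ
    obtain ⟨⟨e, he, hx⟩, ⟨e', he', hy⟩, -⟩ := hv r hr1 (psi0 β n + t) k hk
    obtain ⟨g1, g2, g3, g4, g5⟩ := edge_at hr0 hx hy hs hs1 he he' h1 h2 h3 h4
    exact ⟨g1, g2, g3, g4, g5 (h5 hk1)⟩
  · exact lt_trans (by norm_num) (hre2)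
  · exact hre2

end Pool.Agent.Loc
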