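import Pool.Agent.Loc.Ray
import Pool.Agent.Loc.BaseR

set_option autoImplicit false

/-!
# Loc: the fixed points of the ends near infinity lie above the line (3.7, helper77)
-/

namespace Pool.Agent.Loc

open Complex Pool.Agent.FZC Filter Topology Bornology

theorem ne_ev : ∀ᶠ z : ℂ in cobounded ℂ, z ≠ 0 := by
  have := (tendsto_norm_cobounded_atTop (E := ℂ)).eventually_gt_atTop 0
  filter_upwards [this] with z hz
  exact norm_pos_iff.1 hz

/-- Ratio of two functions of different degrees. -/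
theorem As.ratio {f g : ℂ → ℂ} {q c q' c' : ℕ} (hf : As f q c) (hg : As g q' c') (h : q < q') :
    Tendsto (fun z => f z / g z) (cobounded ℂ) (𝓝 0) := by
  have e1 : Tendsto (fun z => f z / lead q c z * (g z / lead q' c' z)⁻¹ *
      (lead q c z / lead q' c' z)) (cobounded ℂ) (𝓝 (1 * (1)⁻¹ * 0)) := by
    refine (hf.mul (hg.inv₀ one_ne_zero)).mul ?_
    rw [tendsto_zero_iff_norm_tendsto_zero]
    have h2 : Tendsto (fun z : ℂ => (‖z‖ ^ (q' - q))⁻¹) (cobounded ℂ) (𝓝 0) :=
      tendsto_inv_atTop_zero.comp ((tendsto_pow_atTop (by omega)).comp tendsto_norm_cobounded_atTop)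
    refine h2.congr' ?_
    filter_upwards [ne_ev] with z hz
    rw [norm_div, norm_lead, norm_lead]
    have hn : ‖z‖ ≠ 0 := norm_ne_zero_iff.2 hz
    have : ‖z‖ ^ q' = ‖z‖ ^ q * ‖z‖ ^ (q' - q) := by
      rw [← pow_add]; congr 1; omega
    rw [this]
    field_simp
  rw [mul_zero] at e1
  refine e1.congr' ?_
  filter_upwards [ne_ev] with z hz
  have l1 := lead_ne hz q c
  have l2 := lead_ne hz q' c'
  rw [inv_div]
  field_simp

theorem ratios (β : ℕ → Bool) (n : ℕ) :
    Tendsto (fun z => vx β n z / vw β n z) (cobounded ℂ) (𝓝 0) ∧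
    Tendsto (fun z => vy β n z / vw β n z) (cobounded ℂ) (𝓝 0) := by
  obtain ⟨a, b, c⟩ := as_all β n
  obtain ⟨h1, h2⟩ := ql_pos β n
  exact ⟨a.ratio c (by omega), b.ratio c (by omega)⟩

theorem As.ne {f : ℂ → ℂ} {q c : ℕ} (hf : As f q c) : ∀ᶠ z in cobounded ℂ, f z ≠ 0 := by
  filter_upwards [ne_ev, as_ev hf (ε := 1 / 2) (by norm_num)] with z hz h
  obtain ⟨e, he, h⟩ := h
  rw [h]
  refine mul_ne_zero (lead_ne hz q c) ?_
  intro h0
  have h1 : e = -1 := by linear_combination h0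
  rw [h1, norm_neg, norm_one] at he
  norm_num at he

theorem vals_ne (β : ℕ → Bool) (n : ℕ) : ∀ᶠ z in cobounded ℂ,
    z ≠ 0 ∧ vx β n z ≠ 0 ∧ vy β n z ≠ 0 ∧ vw β n z ≠ 0 := by
  obtain ⟨a, b, c⟩ := as_all β n
  filter_upwards [ne_ev, a.ne, b.ne, c.ne] with z h1 h2 h3 h4
  exact ⟨h1, h2, h3, h4⟩

/-- The centres are relatively near the final centre. -/
theorem cn_lim (β : ℕ → Bool) (n : ℕ) : ∀ j k, k + j = n →
    Tendsto (fun z => vx β k z * (cn z (ww β n) - cn z (wl β k))) (cobounded ℂ) (𝓝 0) ∧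
    Tendsto (fun z => vy β k z * (cn z (ww β n) - cn z (wr β k))) (cobounded ℂ) (𝓝 0) ∧
    Tendsto (fun z => vw β k z * (cn z (ww β n) - cn z (ww β k))) (cobounded ℂ) (𝓝 0) := by
  intro j
  induction j with
  | zero =>
    intro k hk
    have : k = n := by omega
    subst this
    obtain ⟨r1, r2⟩ := ratios β k
    refine ⟨?_, ?_, ?_⟩
    · have := r2.neg
      rw [neg_zero] at this
      refine this.congr' ?_
      filter_upwards [vals_ne β k] with z hz
      obtain ⟨h0, h1, h2, h3⟩ := hz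
      rw [(cn_rel h0 h1 h2 h3).1]
      field_simp
      ring
    · refine r1.congr' ?_
      filter_upwards [vals_ne β k] with z hz
      obtain ⟨h0, h1, h2, h3⟩ := hz
      rw [(cn_rel h0 h1 h2 h3).2]
      field_simp
      ring
    · simp only [sub_self, mul_zero]
      exact tendsto_const_nhds
  | succ j ih =>
    intro k hk
    obtain ⟨i1, i2, i3⟩ := ih (k + 1) (by omega)
    obtain ⟨r1, r2⟩ := ratios β k
    cases h : β k
    · have w1 : wl β (k + 1) = wl β k := by simp [wl, wp, h]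
      have w2 : wr β (k + 1) = ww β k := by simp [ww, wl, wr, wp, h]
      have e1 : vx β (k + 1) = vx β k := funext fun z => vx_f h
      have e2 : vy β (k + 1) = vw β k := funext fun z => vy_f h
      rw [w1, e1] at i1
      rw [w2, e2] at i2
      refine ⟨i1, ?_, i2⟩
      have := (r2.mul i2).add r1
      rw [mul_zero, add_zero] at this
      refine this.congr' ?_
      filter_upwards [vals_ne β k] with z hz
      obtain ⟨h0, h1, h2, h3⟩ := hz
      have := (cn_rel h0 h1 h2 h3).2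
      have e : cn z (wr β k) = cn z (ww β k) - vx β k z / (vy β k z * vw β k z) := by
        rw [this]; ring
      rw [e]
      field_simp
      ring
    · have w1 : wl β (k + 1) = ww β k := by simp [ww, wl, wr, wp, h]
      have w2 : wr β (k + 1) = wr β k := by simp [wr, wp, h]
      have e1 : vx β (k + 1) = vw β k := funext fun z => vx_t h
      have e2 : vy β (k + 1) = vy β k := funext fun z => vy_t h
      rw [w1, e1] at i1
      rw [w2, e2] at i2
      refine ⟨?_, i2, i1⟩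
      have := (r1.mul i1).sub r2
      rw [mul_zero, sub_zero] at this
      refine this.congr' ?_
      filter_upwards [vals_ne β k] with z hz
      obtain ⟨h0, h1, h2, h3⟩ := hz
      have := (cn_rel h0 h1 h2 h3).1
      have e : cn z (wl β k) = cn z (ww β k) + vy β k z / (vx β k z * vw β k z) := by
        rw [this]; ring
      rw [e]
      field_simp
      ring

/-- Real part against the modulus. -/
theorem im_inv_ge {x e : ℂ} {r φ s : ℝ} {a : ℕ} (hr : 0 < r)
    (hx : x = (r : ℂ) ^ a * (exp (φ * I) * (1 + e))) (hs : 0 < s) (hs1 : s ≤ 1) (he : ‖e‖ ≤ s / 4)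
    (h2 : s ≤ Real.cos φ) {d : ℂ} (hd : ‖x * d‖ ≤ s / 2) : x ≠ 0 ∧ d.im < (I / x).im := by
  obtain ⟨a1, -, -⟩ := exp_err φ e (s / 4) he
  have hra : 0 < r ^ a := pow_pos hr a
  have hx' : x = ((r ^ a : ℝ) : ℂ) * (exp (φ * I) * (1 + e)) := by rw [hx]; push_cast; ring
  have hre : r ^ a * (3 / 4 * s) ≤ x.re := by
    rw [hx', re_ofReal_mul]
    gcongr
    linarith
  have hn : ‖x‖ ≤ r ^ a * (5 / 4) := by
    rw [hx', norm_mul, norm_real, Real.norm_of_nonneg hra.le, norm_mul, norm_exp_ofReal_mul_I, one_mul]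
    gcongr
    refine (norm_add_le _ _).trans ?_
    rw [norm_one]
    linarith
  have hxre : 0 < x.re := by
    have : 0 < r ^ a * (3 / 4 * s) := by positivity
    linarith
  have hx0 : x ≠ 0 := by
    intro h; rw [h, zero_re] at hxre; exact lt_irrefl _ hxre
  have hxn : 0 < ‖x‖ := norm_pos_iff.2 hx0
  refine ⟨hx0, ?_⟩
  have e1 : (I / x).im = x.re / ‖x‖ ^ 2 := by
    rw [div_im, I_im, I_re, ← normSq_eq_norm_sq]
    ring
  rw [e1, lt_div_iff₀ (by positivity)]
  have h3 : d.im * ‖x‖ ≤ s / 2 := by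
    rw [norm_mul] at hd
    have := (le_abs_self d.im).trans (abs_im_le_norm d)
    nlinarith
  have h4 : d.im * ‖x‖ ^ 2 ≤ s / 2 * ‖x‖ := by nlinarith
  have h5 : s / 2 * ‖x‖ ≤ r ^ a * (5 / 8 * s) := by nlinarith
  have h6 : r ^ a * (5 / 8 * s) < r ^ a * (3 / 4 * s) := by
    have : 0 < r ^ a * s := by positivity
    nlinarith
  linarith

/-- The fixed points lie above the line. -/
theorem fix_far (β : ℕ → Bool) (n : ℕ) : ∃ r₀ : ℝ, 1 ≤ r₀ ∧ ∀ r, r₀ ≤ r → ∀ ψ : ℝ,
    |ψ - psi0 β n| ≤ del β n → RP β n (zp r ψ) → ∀ k ≤ n,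
      ht β n (zp r ψ) < (fl β k (zp r ψ)).im ∧ ht β n (zp r ψ) < (fw β k (zp r ψ)).im ∧
        ht β n (zp r ψ) < (fr β k (zp r ψ)).im := by
  obtain ⟨hs, hs1⟩ := mar_pos β n
  obtain ⟨r₁, hr₁, hv⟩ := vals β n (ε := mar β n / 4) (by positivity)
  have h1 : ∀ᶠ z in cobounded ℂ, ∀ k ∈ Finset.range (n + 1),
      ‖vx β k z * (cn z (ww β n) - cn z (wl β k))‖ ≤ mar β n / 2 ∧
      ‖vy β k z * (cn z (ww β n) - cn z (wr β k))‖ ≤ mar β n / 2 := by
    rw [Filter.eventually_all_finset]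
    intro k hk
    have hk' := Finset.mem_range.1 hk
    obtain ⟨a, b, -⟩ := cn_lim β n (n - k) k (by omega)
    have ha := Metric.tendsto_nhds.1 a (mar β n / 2) (by positivity)
    have hb := Metric.tendsto_nhds.1 b (mar β n / 2) (by positivity)
    filter_upwards [ha, hb] with z h1 h2
    rw [dist_zero_right] at h1 h2
    exact ⟨h1.le, h2.le⟩
  rw [← comap_norm_atTop, Filter.eventually_comap] at h1
  obtain ⟨r₂, hr₂⟩ := Filter.eventually_atTop.1 h1
  refine ⟨max r₁ r₂, hr₁.trans (le_max_left _ _), fun r hr ψ hψ hRP => ?_⟩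
  have hra : r₁ ≤ r := (le_max_left _ _).trans hr
  have hrb : r₂ ≤ r := (le_max_right _ _).trans hr
  have hr0 : 0 < r := by linarith
  have main : ∀ k ≤ n, ht β n (zp r ψ) < (fl β k (zp r ψ)).im ∧
      ht β n (zp r ψ) < (fr β k (zp r ψ)).im := by
    intro k hk
    obtain ⟨-, g1, g2, g3, -⟩ := angles β n k hk ψ hψ
    obtain ⟨⟨e, he, hx⟩, ⟨e', he', hy⟩, -⟩ := hv r hra ψ k hk
    obtain ⟨n1, n2⟩ := hr₂ r hrb (zp r ψ) (norm_zp hr0.le ψ) k (Finset.mem_range.2 (by omega))
    obtain ⟨-, m1⟩ := im_inv_ge hr0 hx hs hs1 he g1 n1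
    obtain ⟨-, m2⟩ := im_inv_ge hr0 hy hs hs1 he' g3 n2
    rw [sub_im] at m1 m2
    constructor
    · rw [fl, add_im, ht]; linarith
    · rw [fr, add_im, ht]; linarith
  intro k hk
  refine ⟨(main k hk).1, ?_, (main k hk).2⟩
  rcases Nat.lt_or_ge k n with h | h
  · obtain ⟨m1, m2⟩ := main (k + 1) (by omega)
    cases hb : β k
    · have w2 : wr β (k + 1) = ww β k := by simp [ww, wl, wr, wp, hb]
      have e2 : vy β (k + 1) = vw β k := funext fun z => vy_f hb
      rw [fr, w2, e2] at m2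
      exact m2
    · have w1 : wl β (k + 1) = ww β k := by simp [ww, wl, wr, wp, hb]
      have e1 : vx β (k + 1) = vw β k := funext fun z => vx_t hb
      rw [fl, w1, e1] at m1
      exact m1
  · have : k = n := by omega
    subst this
    exact (fix_above hRP).2.1

end Pool.Agent.Loc
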