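import Mathlib

set_option autoImplicit false

/-!
# Loc: the trap at infinity (3.7, helper77): pure estimate
-/

namespace Pool.Agent.Loc

open Complex

/-- `κ / (1 ± V)`. -/
noncomputable def am (κ : ℂ) (i : Bool) (V : ℂ) : ℂ := κ / (1 + (if i then -1 else 1) * V)

/-- Composition of the maps `am κ i`. -/
noncomputable def gm (κ : ℂ) : List Bool → ℂ → ℂ
  | [], W => W
  | i :: u, W => am κ i (gm κ u W)

theorem gm_append (κ : ℂ) (u v : List Bool) (W : ℂ) : gm κ (u ++ v) W = gm κ u (gm κ v W) := by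
  induction u with
  | nil => rfl
  | cons i u ih => simp only [List.cons_append, gm, ih]

theorem norm_sgn (i : Bool) : ‖((if i then -1 else 1 : ℂ))‖ = 1 := by cases i <;> simp

theorem am_small {κ V : ℂ} (i : Bool) (hk : ‖κ‖ ≤ 1 / 8) (hV : ‖V‖ ≤ 2 * ‖κ‖) :
    3 / 4 ≤ ‖1 + (if i then -1 else 1) * V‖ ∧ ‖am κ i V‖ ≤ 2 * ‖κ‖ ∧
      ‖am κ i V - κ‖ ≤ 4 * ‖κ‖ ^ 2 := by
  set s : ℂ := (if i then -1 else 1) with hs
  have hs1 : ‖s‖ = 1 := norm_sgn i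
  have h0 : ‖s * V‖ ≤ 2 * ‖κ‖ := by rw [norm_mul, hs1, one_mul]; exact hV
  have h1 : 3 / 4 ≤ ‖1 + s * V‖ := by
    have := norm_sub_norm_le (1 : ℂ) (-(s * V))
    rw [norm_one, norm_neg, sub_neg_eq_add] at this
    linarith
  have h2 : 0 < ‖1 + s * V‖ := by linarith
  have hne : 1 + s * V ≠ 0 := norm_pos_iff.1 h2
  have hk0 := norm_nonneg κ
  refine ⟨h1, ?_, ?_⟩
  · rw [am, ← hs, norm_div, div_le_iff₀ h2]
    nlinarith
  · have : am κ i V - κ = -(κ * (s * V)) / (1 + s * V) := by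
      rw [am, ← hs]; field_simp; ring
    rw [this, norm_div, norm_neg, norm_mul, div_le_iff₀ h2]
    nlinarith [mul_le_mul_of_nonneg_left h0 hk0, sq_nonneg ‖κ‖]

theorem gm_small {κ : ℂ} (hk : ‖κ‖ ≤ 1 / 8) (u : List Bool) {W : ℂ} (hW : ‖W‖ ≤ 2 * ‖κ‖) :
    ‖gm κ u W‖ ≤ 2 * ‖κ‖ := by
  induction u with
  | nil => exact hW
  | cons i u ih => exact (am_small i hk ih).2.1

/-- The linear approximation. -/
theorem gm_lin (u : List Bool) : ∀ η : ℝ, 0 < η → η ≤ 1 → ∃ κ₀ : ℝ, 0 < κ₀ ∧ κ₀ ≤ 1 / 8 ∧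
    ∀ κ W W' : ℂ, ‖κ‖ ≤ κ₀ → ‖W‖ ≤ 2 * ‖κ‖ → ‖W'‖ ≤ 2 * ‖κ‖ →
      ‖gm κ u W - gm κ u W' - (-1) ^ (u.count false) * κ ^ u.length * (W - W')‖ ≤
        η * (‖κ‖ ^ u.length * ‖W - W'‖) := by
  induction u with
  | nil =>
    intro η h1 h2
    refine ⟨1 / 8, by norm_num, le_rfl, fun κ W W' _ _ _ => ?_⟩
    simp only [gm, List.count_nil, pow_zero, List.length_nil, one_mul, sub_self, norm_zero]
    positivity
  | cons i u ih =>
    intro η h1 h2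
    obtain ⟨κ₁, hκ₁, hκ₁', h⟩ := ih (η / 2) (by linarith) (by linarith)
    refine ⟨min κ₁ (η / 60), by positivity, (min_le_left _ _).trans hκ₁', fun κ W W' hk hW hW' => ?_⟩
    have hk1 : ‖κ‖ ≤ κ₁ := hk.trans (min_le_left _ _)
    have hk2 : ‖κ‖ ≤ η / 60 := hk.trans (min_le_right _ _)
    have hk3 : ‖κ‖ ≤ 1 / 8 := hk1.trans hκ₁'
    have hk0 := norm_nonneg κ
    have hI := h κ W W' hk1 hW hW'
    have hV := gm_small hk3 u hW
    have hV' := gm_small hk3 u hW'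
    set V := gm κ u W with hVdef
    set V' := gm κ u W' with hV'def
    obtain ⟨a1, -, -⟩ := am_small i hk3 hV
    obtain ⟨a2, -, -⟩ := am_small i hk3 hV'
    set s : ℂ := (if i then -1 else 1) with hs
    have hs1 : ‖s‖ = 1 := norm_sgn i
    have n1 : 1 + s * V ≠ 0 := norm_pos_iff.1 (by linarith)
    have n2 : 1 + s * V' ≠ 0 := norm_pos_iff.1 (by linarith)
    set m := u.length with hm
    set c := u.count false with hc
    -- sign
    have hsg : ((-1 : ℂ)) ^ ((i :: u).count false) = -s * (-1) ^ c := by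
      cases i
      · simp [hs, hc, List.count_cons, pow_succ]
      · simp [hs, hc, List.count_cons]
    -- rho
    set ρ : ℂ := 1 / ((1 + s * V) * (1 + s * V')) - 1 with hρ
    have hρn : ‖ρ‖ ≤ 10 * ‖κ‖ := by
      have e : ρ = -(s * V + s * V' + s * V * (s * V')) / ((1 + s * V) * (1 + s * V')) := by
        rw [hρ]; field_simp; ring
      have b1 : ‖s * V‖ ≤ 2 * ‖κ‖ := by rw [norm_mul, hs1, one_mul]; exact hV
      have b2 : ‖s * V'‖ ≤ 2 * ‖κ‖ := by rw [norm_mul, hs1, one_mul]; exact hV'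
      have b3 : ‖s * V + s * V' + s * V * (s * V')‖ ≤ 5 * ‖κ‖ := by
        calc _ ≤ ‖s * V‖ + ‖s * V'‖ + ‖s * V‖ * ‖s * V'‖ := by
              refine (norm_add_le _ _).trans ?_
              rw [norm_mul (s * V)]
              exact add_le_add (norm_add_le _ _) le_rfl
          _ ≤ 2 * ‖κ‖ + 2 * ‖κ‖ + (2 * ‖κ‖) * (2 * ‖κ‖) := by gcongr
          _ ≤ 5 * ‖κ‖ := by nlinarith
      rw [e, norm_div, norm_neg, norm_mul (1 + s * V), div_le_iff₀ (by positivity)]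
      have : (9 / 16 : ℝ) ≤ ‖1 + s * V‖ * ‖1 + s * V'‖ := by nlinarith
      nlinarith
    have key : gm κ (i :: u) W - gm κ (i :: u) W' -
        (-1) ^ ((i :: u).count false) * κ ^ (i :: u).length * (W - W') =
        -s * κ * ((V - V' - (-1) ^ c * κ ^ m * (W - W')) + ρ * (V - V')) := by
      rw [hsg]
      simp only [gm, am, ← hs, ← hVdef, ← hV'def, List.length_cons, ← hm, hρ]
      rw [pow_succ]
      field_simp
      ring
    rw [key, norm_mul, norm_mul, norm_neg, hs1, one_mul, List.length_cons, ← hm, pow_succ]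
    have hVV : ‖V - V'‖ ≤ 2 * (‖κ‖ ^ m * ‖W - W'‖) := by
      have e : V - V' = (V - V' - (-1) ^ c * κ ^ m * (W - W')) + (-1) ^ c * κ ^ m * (W - W') := by
        ring
      rw [e]
      refine (norm_add_le _ _).trans ?_
      have e2 : ‖(-1 : ℂ) ^ c * κ ^ m * (W - W')‖ = ‖κ‖ ^ m * ‖W - W'‖ := by
        rw [norm_mul, norm_mul, norm_pow, norm_neg, norm_one, one_pow, one_mul, norm_pow]
      rw [e2]
      have : 0 ≤ ‖κ‖ ^ m * ‖W - W'‖ := by positivity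
      nlinarith
    have hx : 0 ≤ ‖κ‖ ^ m * ‖W - W'‖ := by positivity
    calc ‖κ‖ * ‖(V - V' - (-1) ^ c * κ ^ m * (W - W')) + ρ * (V - V')‖
        ≤ ‖κ‖ * (η / 2 * (‖κ‖ ^ m * ‖W - W'‖) + 10 * ‖κ‖ * (2 * (‖κ‖ ^ m * ‖W - W'‖))) := by
          gcongr
          refine (norm_add_le _ _).trans ?_
          rw [norm_mul ρ]
          gcongr
      _ = ‖κ‖ * (‖κ‖ ^ m * ‖W - W'‖) * (η / 2 + 20 * ‖κ‖) := by ring
      _ ≤ ‖κ‖ * (‖κ‖ ^ m * ‖W - W'‖) * η := by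
          gcongr
          linarith
      _ = η * (‖κ‖ ^ m * ‖κ‖ * ‖W - W'‖) := by ring

/-- Below the line. -/
theorem below (u : List Bool) {c : ℝ} (hc : 0 < c) (hc1 : c ≤ 1) : ∃ κ₀ : ℝ, 0 < κ₀ ∧ κ₀ ≤ 1 / 8 ∧
    ∀ (κ W μ : ℂ) (ρ : ℝ), κ ≠ 0 → ‖κ‖ ≤ κ₀ →
      c * ‖κ‖ ^ (u.length + 1) ≤ ((-1) ^ (u.count false) * κ ^ (u.length + 1)).im →
      ‖W‖ ≤ 2 * ‖κ‖ → ‖μ‖ ≤ 2 * ‖κ‖ → ‖W - ρ * κ‖ ≤ 4 * ‖κ‖ ^ 2 → ‖μ - κ‖ ≤ 4 * ‖κ‖ ^ 2 →
      -1 ≤ ρ → ρ ≤ 1 / 2 → (gm κ u W).im < (gm κ u μ).im := by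
  obtain ⟨κ₁, h1, h2, h3⟩ := gm_lin u (c / 24) (by positivity) (by linarith)
  refine ⟨min κ₁ (c / 64), by positivity, (min_le_left _ _).trans h2, ?_⟩
  intro κ W μ ρ hκ hk hG hW hμ hWρ hμκ hρ1 hρ2
  have hk1 : ‖κ‖ ≤ κ₁ := hk.trans (min_le_left _ _)
  have hk2 : ‖κ‖ ≤ c / 64 := hk.trans (min_le_right _ _)
  have hk0 : 0 < ‖κ‖ := norm_pos_iff.2 hκ
  have hE := h3 κ W μ hk1 hW hμ
  set m := u.length with hm
  set σ : ℂ := (-1) ^ (u.count false) with hσ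
  have hσ1 : ‖σ‖ = 1 := by rw [hσ, norm_pow, norm_neg, norm_one, one_pow]
  set E := gm κ u W - gm κ u μ - σ * κ ^ m * (W - μ) with hEdef
  set E' := (W - ρ * κ) - (μ - κ) with hE'
  have hE'n : ‖E'‖ ≤ 8 * ‖κ‖ ^ 2 := by
    refine (norm_sub_le _ _).trans ?_
    linarith
  have hWμ : W - μ = ((ρ - 1 : ℝ) : ℂ) * κ + E' := by rw [hE']; push_cast; ring
  have hWμn : ‖W - μ‖ ≤ 3 * ‖κ‖ := by
    rw [hWμ]
    refine (norm_add_le _ _).trans ?_
    rw [norm_mul, norm_real, Real.norm_eq_abs]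
    have : |ρ - 1| ≤ 2 := by rw [abs_le]; constructor <;> linarith
    nlinarith
  have hp : 0 < ‖κ‖ ^ m := pow_pos hk0 m
  have hdiff : gm κ u W - gm κ u μ = ((ρ - 1 : ℝ) : ℂ) * (σ * κ ^ (m + 1)) + (σ * κ ^ m * E' + E) := by
    rw [hEdef, hWμ]; ring
  have him : (gm κ u W).im - (gm κ u μ).im =
      (ρ - 1) * (σ * κ ^ (m + 1)).im + (σ * κ ^ m * E' + E).im := by
    have := congrArg Complex.im hdiff
    rw [sub_im, add_im, im_ofReal_mul] at this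
    exact this
  have hrest : (σ * κ ^ m * E' + E).im ≤ ‖κ‖ ^ (m + 1) * (c / 4) := by
    refine (le_trans (le_abs_self _) (abs_im_le_norm _)).trans ?_
    refine (norm_add_le _ _).trans ?_
    have e1 : ‖σ * κ ^ m * E'‖ ≤ ‖κ‖ ^ m * (8 * ‖κ‖ ^ 2) := by
      rw [norm_mul, norm_mul, hσ1, one_mul, norm_pow]; gcongr
    have e2 : ‖E‖ ≤ c / 24 * (‖κ‖ ^ m * (3 * ‖κ‖)) := hE.trans (by gcongr)
    calc _ ≤ ‖κ‖ ^ m * (8 * ‖κ‖ ^ 2) + c / 24 * (‖κ‖ ^ m * (3 * ‖κ‖)) := add_le_add e1 e2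
      _ = ‖κ‖ ^ (m + 1) * (8 * ‖κ‖ + c / 8) := by ring
      _ ≤ ‖κ‖ ^ (m + 1) * (c / 4) := by
          gcongr
          linarith
  have hmain : (ρ - 1) * (σ * κ ^ (m + 1)).im ≤ -(1 / 2) * (c * ‖κ‖ ^ (m + 1)) := by
    have : 0 < c * ‖κ‖ ^ (m + 1) := by positivity
    nlinarith
  have : 0 < c * ‖κ‖ ^ (m + 1) := by positivity
  nlinarith

/-- The trap. -/
def BKK (κ : ℂ) (u : List Bool) (h : ℝ) (W : ℂ) : Prop :=
  ‖W‖ ≤ 2 * ‖κ‖ ∧ ∀ j, j < u.length → (gm κ (u.take j) W).im ≤ h ∧ (gm κ (u.take j) (-W)).im ≤ h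

theorem BKK.neg {κ : ℂ} {u : List Bool} {h : ℝ} {W : ℂ} (hW : BKK κ u h W) : BKK κ u h (-W) := by
  refine ⟨by rw [norm_neg]; exact hW.1, fun j hj => ?_⟩
  rw [neg_neg]
  exact ⟨(hW.2 j hj).2, (hW.2 j hj).1⟩

theorem trap (u : List Bool) (hu : u ≠ []) {c : ℝ} (hc : 0 < c) (hc1 : c ≤ 1) :
    ∃ κ₀ : ℝ, 0 < κ₀ ∧ κ₀ ≤ 1 / 8 ∧ ∀ (κ : ℂ) (h : ℝ), κ ≠ 0 → ‖κ‖ ≤ κ₀ →
      (∀ j, j + 1 < u.length →
        c * ‖κ‖ ^ (j + 1) ≤ ((-1) ^ ((u.take j).count false) * κ ^ (j + 1)).im) →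
      h = (gm κ (u.take (u.length - 1)) 0).im →
      (∀ (n : ℤ) (W : ℂ), n ≠ 0 → ‖W‖ ≤ 2 * ‖κ‖ → W.im ≤ h → (-W).im ≤ h →
        (gm κ (u.take (u.length - 1)) (κ / (n + W))).im ≤ h) →
      BKK κ u h 0 ∧ ∀ (n : ℤ) (W : ℂ), n ≠ 0 → BKK κ u h W → BKK κ u h (κ / (n + W)) := by
  -- a common bound
  have hb : ∀ j : ℕ, ∃ κ₀ : ℝ, 0 < κ₀ ∧ κ₀ ≤ 1 / 8 ∧
    ∀ (κ W μ : ℂ) (ρ : ℝ), κ ≠ 0 → ‖κ‖ ≤ κ₀ →
      c * ‖κ‖ ^ ((u.take j).length + 1) ≤
        ((-1) ^ ((u.take j).count false) * κ ^ ((u.take j).length + 1)).im →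
      ‖W‖ ≤ 2 * ‖κ‖ → ‖μ‖ ≤ 2 * ‖κ‖ → ‖W - ρ * κ‖ ≤ 4 * ‖κ‖ ^ 2 → ‖μ - κ‖ ≤ 4 * ‖κ‖ ^ 2 →
      -1 ≤ ρ → ρ ≤ 1 / 2 → (gm κ (u.take j) W).im < (gm κ (u.take j) μ).im :=
    fun j => below (u.take j) hc hc1
  choose k₀ hk1 hk2 hk3 using hb
  obtain ⟨κ₀, h0, h0', hmin⟩ : ∃ κ₀ : ℝ, 0 < κ₀ ∧ κ₀ ≤ 1 / 8 ∧ ∀ j, j < u.length → κ₀ ≤ k₀ j := by
    have : ∀ N : ℕ, ∃ κ₀ : ℝ, 0 < κ₀ ∧ κ₀ ≤ 1 / 8 ∧ ∀ j, j < N → κ₀ ≤ k₀ j := by
      intro N
      induction N with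
      | zero => exact ⟨1 / 8, by norm_num, le_rfl, fun j hj => by omega⟩
      | succ N ih =>
        obtain ⟨x, hx, hx', hx2⟩ := ih
        refine ⟨min x (k₀ N), lt_min hx (hk1 N), (min_le_left _ _).trans hx', fun j hj => ?_⟩
        rcases Nat.lt_or_ge j N with h | h
        · exact (min_le_left _ _).trans (hx2 j h)
        · have : j = N := by omega
          subst this; exact min_le_right _ _
    exact this u.length
  refine ⟨κ₀, h0, h0', fun κ h hκ hkκ hG hh hP => ?_⟩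
  have hk8 : ‖κ‖ ≤ 1 / 8 := hkκ.trans h0'
  have hk0 : 0 < ‖κ‖ := norm_pos_iff.2 hκ
  set q := u.length with hq
  have hq0 : 0 < q := List.length_pos_iff.2 hu
  -- below for a point ρ κ + O(κ²)
  have hbel : ∀ j, j + 1 < q → ∀ (W : ℂ) (ρ : ℝ), ‖W‖ ≤ 2 * ‖κ‖ → ‖W - ρ * κ‖ ≤ 4 * ‖κ‖ ^ 2 →
      -1 ≤ ρ → ρ ≤ 1 / 2 → (gm κ (u.take j) W).im ≤ h := by
    intro j hj W ρ hW hWρ h1 h2
    have hlen : (u.take j).length = j := by rw [List.length_take]; omega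
    -- the rest
    have hsplit : u.take (q - 1) = u.take j ++ (u.take (q - 1)).drop j := by
      conv_lhs => rw [← List.take_append_drop j (u.take (q - 1))]
      rw [List.take_take, min_eq_left (by omega)]
    have hne : (u.take (q - 1)).drop j ≠ [] := by
      rw [← List.length_pos_iff, List.length_drop, List.length_take]; omega
    obtain ⟨i, v, hiv⟩ := List.exists_cons_of_ne_nil hne
    set μ := gm κ ((u.take (q - 1)).drop j) 0 with hμ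
    have hμ2 : μ = am κ i (gm κ v 0) := by rw [hμ, hiv]; rfl
    have hv0 : ‖gm κ v 0‖ ≤ 2 * ‖κ‖ := gm_small hk8 v (by rw [norm_zero]; positivity)
    obtain ⟨-, b1, b2⟩ := am_small i hk8 hv0
    rw [← hμ2] at b1 b2
    have hh' : h = (gm κ (u.take j) μ).im := by
      rw [hh, hsplit, gm_append]
    rw [hh']
    have hG' := hG j hj
    exact (hk3 j κ W μ ρ hκ (hkκ.trans (hmin j (by omega))) (by rw [hlen]; exact hG') hW b1 hWρ b2 h1 h2).le
  have h00 : BKK κ u h 0 := by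
    refine ⟨by rw [norm_zero]; positivity, fun j hj => ?_⟩
    rw [neg_zero, and_self]
    rcases Nat.lt_or_ge (j + 1) q with h1 | h1
    · exact hbel j h1 0 0 (by rw [norm_zero]; positivity) (by simp) (by norm_num) (by norm_num)
    · have : j = q - 1 := by omega
      rw [this, ← hh]
  refine ⟨h00, ?_⟩
  -- the step, one sign
  have hstep : ∀ (n : ℤ) (W : ℂ), n ≠ 0 → BKK κ u h W → ‖κ / (n + W)‖ ≤ 2 * ‖κ‖ ∧
      ∀ j, j < q → (gm κ (u.take j) (κ / (n + W))).im ≤ h := by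
    intro n W hn hW
    have hn1 : (1 : ℝ) ≤ ‖(n : ℂ)‖ := by
      rw [Complex.norm_intCast]
      exact_mod_cast Int.one_le_abs hn
    have hnW : 3 / 4 ≤ ‖(n : ℂ) + W‖ := by
      have := norm_sub_norm_le (n : ℂ) (-W)
      rw [norm_neg, sub_neg_eq_add] at this
      linarith [hW.1]
    have hnWp : 0 < ‖(n : ℂ) + W‖ := by linarith
    have hnW0 : (n : ℂ) + W ≠ 0 := norm_pos_iff.1 hnWp
    have hnC : (n : ℂ) ≠ 0 := by exact_mod_cast hn
    have hsm : ‖κ / (n + W)‖ ≤ 2 * ‖κ‖ := by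
      rw [norm_div, div_le_iff₀ hnWp]; nlinarith
    refine ⟨hsm, fun j hj => ?_⟩
    rcases Nat.lt_or_ge (j + 1) q with h1 | h1
    · by_cases hn1' : n = 1
      · -- the letter
        subst hn1'
        have hj' : j < u.length := by omega
        have htake : u.take (j + 1) = u.take j ++ [u[j]] := by
          rw [List.take_succ_eq_append_getElem hj']
        cases hi : u[j]
        · have e : κ / (((1 : ℤ) : ℂ) + W) = gm κ [false] W := by simp [gm, am]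
          rw [e, ← gm_append, ← hi, ← htake]
          exact (hW.2 (j + 1) h1).1
        · have e : κ / (((1 : ℤ) : ℂ) + W) = gm κ [true] (-W) := by simp [gm, am]
          rw [e, ← gm_append, ← hi, ← htake]
          exact (hW.2 (j + 1) h1).2
      · refine hbel j h1 _ (1 / n : ℝ) hsm ?_ ?_ ?_
        · have e : κ / (n + W) - ((1 / n : ℝ) : ℂ) * κ = -(κ * W) / (n * (n + W)) := by
            push_cast
            field_simp
            ring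
          rw [e, norm_div, norm_neg, norm_mul, norm_mul, div_le_iff₀ (by positivity)]
          have hW1 := hW.1
          calc ‖κ‖ * ‖W‖ ≤ ‖κ‖ * (2 * ‖κ‖) := by gcongr
            _ ≤ 4 * ‖κ‖ ^ 2 * (1 * (3 / 4)) := by nlinarith [sq_nonneg ‖κ‖]
            _ ≤ _ := by gcongr
        · rcases lt_or_gt_of_ne hn with h2 | h2
          · have : (n : ℝ) ≤ -1 := by exact_mod_cast (by omega : n ≤ -1)
            rw [le_div_iff_of_neg (by linarith)]; linarith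
          · have : (0 : ℝ) < n := by exact_mod_cast h2
            have : 0 < 1 / (n : ℝ) := by positivity
            linarith
        · rcases lt_or_gt_of_ne hn with h2 | h2
          · have : (n : ℝ) < 0 := by exact_mod_cast h2
            have : 1 / (n : ℝ) < 0 := one_div_neg.2 this
            linarith
          · have : (2 : ℝ) ≤ n := by exact_mod_cast (by omega : 2 ≤ n)
            rw [div_le_div_iff₀ (by linarith) (by norm_num)]; linarith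
    · have : j = q - 1 := by omega
      rw [this]
      have := hW.2 0 hq0
      simp only [List.take_zero, gm] at this
      exact hP n W hn hW.1 this.1 this.2
  intro n W hn hW
  obtain ⟨s1, s2⟩ := hstep n W hn hW
  obtain ⟨-, s4⟩ := hstep (-n) (-W) (by omega) hW.neg
  refine ⟨s1, fun j hj => ⟨s2 j hj, ?_⟩⟩
  have e : -(κ / (n + W)) = κ / (((-n : ℤ) : ℂ) + -W) := by
    push_cast
    rw [← neg_add, div_neg]
  rw [e]
  exact s4 j hj

end Pool.Agent.Loc
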