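import Pool.Agent.Loc.Ray
import Pool.Agent.Loc.BaseR
import Pool.Agent.Loc.BaseT

set_option autoImplicit false

/-!
# Loc: the words of the ends act as compositions of `am` (3.7, helper77)
-/

namespace Pool.Agent.Loc

open Complex Pool.Agent.FZC Filter Topology Bornology Matrix

/-- The letters of a word of maps. -/
def wlt (u : List Bool) : List Lt := u.flatMap (fun i => if i then [.B, .S] else [.A, .T])

theorem wlt_append (u v : List Bool) : wlt (u ++ v) = wlt u ++ wlt v := by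
  simp [wlt, List.flatMap_append]

theorem wlt_cons (i : Bool) (v : List Bool) : wlt (i :: v) = wlt [i] ++ wlt v := by
  simp [wlt]

/-- `-1 / z²`. -/
noncomputable def kp (z : ℂ) : ℂ := -(z ^ 2)⁻¹

theorem mm_f (z : ℂ) : MM z (wlt [false]) = !![0, -z⁻¹; z, z] := by
  simp [wlt, MM, lm]

theorem mm_t (z : ℂ) : MM z (wlt [true]) = !![0, -I * z⁻¹; -I * z, I * z] := by
  simp [wlt, MM, lm]

theorem mul_fin_two' (A B : Matrix (Fin 2) (Fin 2) ℂ) :
    (A * B) 0 0 = A 0 0 * B 0 0 + A 0 1 * B 1 0 ∧ (A * B) 0 1 = A 0 0 * B 0 1 + A 0 1 * B 1 1 ∧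
    (A * B) 1 0 = A 1 0 * B 0 0 + A 1 1 * B 1 0 ∧ (A * B) 1 1 = A 1 0 * B 0 1 + A 1 1 * B 1 1 := by
  simp [Matrix.mul_apply, Fin.sum_univ_two]

/-- The letter matrix acts as `am`. -/
theorem mm_am {z : ℂ} (hz : z ≠ 0) (i : Bool) {V : ℂ} (hV : 1 + (if i then -1 else 1) * V ≠ 0) :
    ∃ c : ℂ, c ≠ 0 ∧ MM z (wlt [i]) 0 0 * V + MM z (wlt [i]) 0 1 = c * am (kp z) i V ∧
      MM z (wlt [i]) 1 0 * V + MM z (wlt [i]) 1 1 = c := by
  cases i
  · simp only [Bool.false_eq_true, if_false, one_mul] at hV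
    refine ⟨z * (1 + V), mul_ne_zero hz hV, ?_, ?_⟩
    · rw [mm_f]
      simp only [am, kp, Bool.false_eq_true, if_false, one_mul, of_apply, cons_val', cons_val_zero,
        cons_val_one, cons_val_fin_one]
      field_simp
      ring
    · rw [mm_f]
      simp
      ring
  · simp only [if_true] at hV
    have hV' : 1 - V ≠ 0 := by
      intro h; apply hV; linear_combination h
    refine ⟨I * z * (1 + -1 * V), mul_ne_zero (mul_ne_zero I_ne_zero hz) hV, ?_, ?_⟩
    · rw [mm_t]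
      simp only [am, kp, if_true, of_apply, cons_val', cons_val_zero,
        cons_val_one, cons_val_fin_one]
      have e1 : 1 + -1 * V = 1 - V := by ring
      rw [e1]
      field_simp
      ring
    · rw [mm_t]
      simp
      ring

/-- The word acts as `gm` on small points. -/
theorem mm_gm {z : ℂ} (hz : z ≠ 0) (hk : ‖kp z‖ ≤ 1 / 8) (u : List Bool) {W : ℂ}
    (hW : ‖W‖ ≤ 2 * ‖kp z‖) :
    ∃ c : ℂ, c ≠ 0 ∧ MM z (wlt u) 0 0 * W + MM z (wlt u) 0 1 = c * gm (kp z) u W ∧
      MM z (wlt u) 1 0 * W + MM z (wlt u) 1 1 = c := by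
  induction u with
  | nil => exact ⟨1, one_ne_zero, by simp [wlt, MM, gm], by simp [wlt, MM]⟩
  | cons i u ih =>
    obtain ⟨c, hc, h1, h2⟩ := ih
    have hs := gm_small hk u hW
    obtain ⟨a1, -, -⟩ := am_small i hk hs
    have hne : 1 + (if i then -1 else 1) * gm (kp z) u W ≠ 0 := norm_pos_iff.1 (by linarith)
    obtain ⟨c', hc', k1, k2⟩ := mm_am hz i hne
    refine ⟨c * c', mul_ne_zero hc hc', ?_, ?_⟩
    · rw [wlt_cons, MM_append]
      obtain ⟨m1, m2, -, -⟩ := mul_fin_two' (MM z (wlt [i])) (MM z (wlt u))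
      rw [m1, m2]
      simp only [gm]
      linear_combination MM z (wlt [i]) 0 0 * h1 + MM z (wlt [i]) 0 1 * h2 + c * k1
    · rw [wlt_cons, MM_append]
      obtain ⟨-, -, m3, m4⟩ := mul_fin_two' (MM z (wlt [i])) (MM z (wlt u))
      rw [m3, m4]
      linear_combination MM z (wlt [i]) 1 0 * h1 + MM z (wlt [i]) 1 1 * h2 + c * k2

theorem sq_tr {M : Matrix (Fin 2) (Fin 2) ℂ} (h : M 0 0 + M 1 1 = 0) (hd : M.det = 1) :
    M * M = -1 := by
  rw [det_fin_two] at hd
  have h1 : M 1 1 = -M 0 0 := by linear_combination h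
  obtain ⟨m1, m2, m3, m4⟩ := mul_fin_two' M M
  ext i j
  fin_cases i <;> fin_cases j
  · simp only [Fin.zero_eta, Fin.isValue]
    rw [m1]; simp; rw [h1] at hd; linear_combination -hd
  · simp only [Fin.zero_eta, Fin.mk_one, Fin.isValue]
    rw [m2]; simp; rw [h1]; ring
  · simp only [Fin.zero_eta, Fin.mk_one, Fin.isValue]
    rw [m3]; simp; rw [h1]; ring
  · simp only [Fin.mk_one, Fin.isValue]
    rw [m4]; simp; rw [h1] at hd ⊢; linear_combination -hd

theorem TS_one (z : ℂ) : MM z [.S] * MM z [.T] = 1 ∧ MM z [.T] * MM z [.S] = 1 := by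
  constructor <;> · simp [MM, lm]; exact one_fin_two.symm

/-- `P_r S P_l = - P_w`. -/
theorem prsl {z : ℂ} (hz : z ≠ 0) (β : ℕ → Bool) (n : ℕ) :
    MM z (wr β n) * (MM z [.S] * MM z (wl β n)) = -MM z (ww β n) := by
  have h1 := sq_tr (wl_eq hz β n).2 (MM_det hz _)
  have h2 := sq_tr (wr_eq hz β n).2 (MM_det hz _)
  have h3 := sq_tr (ww_eq hz β n).2 (MM_det hz _)
  have e : ww β n = wl β n ++ ([.T] ++ wr β n) := by simp [ww]
  have h4 : MM z (ww β n) = MM z (wl β n) * (MM z [.T] * MM z (wr β n)) := by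
    rw [e, MM_append, MM_append]
  have h5 : MM z (wr β n) * (MM z [.S] * MM z (wl β n)) * MM z (ww β n) = 1 := by
    rw [h4]
    calc MM z (wr β n) * (MM z [.S] * MM z (wl β n)) * (MM z (wl β n) * (MM z [.T] * MM z (wr β n)))
        = MM z (wr β n) * (MM z [.S] * ((MM z (wl β n) * MM z (wl β n)) * MM z [.T])) * MM z (wr β n) := by
          simp only [Matrix.mul_assoc]
      _ = -(MM z (wr β n) * (MM z [.S] * MM z [.T]) * MM z (wr β n)) := by
          rw [h1]; simp only [neg_mul, one_mul, mul_neg]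
      _ = 1 := by rw [(TS_one z).1, mul_one, h2, neg_neg]
  have h6 := congrArg (fun X => X * (-MM z (ww β n))) h5
  simp only [one_mul] at h6
  rw [← h6, mul_neg, Matrix.mul_assoc, h3, mul_neg, mul_one, neg_neg]

/-- The word of the maps of the ends. -/
theorem mm_lr {z : ℂ} (hz : z ≠ 0) (β : ℕ → Bool) (n : ℕ) :
    (∃ ε : ℂ, (ε = 1 ∨ ε = -1) ∧ MM z (wlt (la β n)) = ε • (MM z (wl β n) * MM z [.T])) ∧
    (∃ ε : ℂ, (ε = 1 ∨ ε = -1) ∧ MM z (wlt (ra β n)) = ε • (MM z (wr β n) * MM z [.S])) := by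
  have hm : ∀ {a b : ℂ}, (a = 1 ∨ a = -1) → (b = 1 ∨ b = -1) → (a * b = 1 ∨ a * b = -1) := by
    rintro a b (rfl | rfl) (rfl | rfl) <;> norm_num
  induction n with
  | zero =>
    constructor
    · refine ⟨1, Or.inl rfl, ?_⟩
      rw [one_smul, ← MM_append]
      rfl
    · refine ⟨1, Or.inl rfl, ?_⟩
      rw [one_smul, ← MM_append]
      rfl
  | succ n ih =>
    obtain ⟨⟨e1, he1, h1⟩, ⟨e2, he2, h2⟩⟩ := ih
    have e : ww β n = wl β n ++ ([.T] ++ wr β n) := by simp [ww]
    cases h : β n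
    · have w1 : wl β (n + 1) = wl β n := by simp [wl, wp, h]
      have w2 : wr β (n + 1) = ww β n := by simp [ww, wl, wr, wp, h]
      rw [la_f h, ra_f h, w1, w2]
      refine ⟨⟨e1, he1, h1⟩, ⟨e1 * e2, hm he1 he2, ?_⟩⟩
      rw [wlt_append, MM_append, h1, h2, e, MM_append, MM_append]
      simp only [smul_mul_assoc, mul_smul_comm, smul_smul, Matrix.mul_assoc]
      congr 1
      ring
    · have w1 : wl β (n + 1) = ww β n := by simp [ww, wl, wr, wp, h]
      have w2 : wr β (n + 1) = wr β n := by simp [wr, wp, h]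
      rw [la_t h, ra_t h, w1, w2]
      refine ⟨⟨-(e1 * e2), ?_, ?_⟩, ⟨e2, he2, h2⟩⟩
      · rcases hm he1 he2 with h | h <;> simp [h]
      · rw [wlt_append, MM_append, h1, h2]
        have := prsl hz β n
        simp only [smul_mul_assoc, mul_smul_comm, smul_smul, Matrix.mul_assoc]
        rw [← Matrix.mul_assoc (MM z [.S]), ← Matrix.mul_assoc (MM z (wr β n)), this]
        simp only [neg_mul, smul_neg, neg_smul]

/-- The product of the two words. -/
theorem mm_u {z : ℂ} (hz : z ≠ 0) (β : ℕ → Bool) (n : ℕ) :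
    ∃ ε : ℂ, ε ≠ 0 ∧
      MM z (wlt (la β n ++ ra β n)) 0 0 = ε * MM z (ww β n) 0 0 ∧
      MM z (wlt (la β n ++ ra β n)) 0 1 = ε * (MM z (ww β n) 0 1 - MM z (ww β n) 0 0) ∧
      MM z (wlt (la β n ++ ra β n)) 1 0 = ε * MM z (ww β n) 1 0 ∧
      MM z (wlt (la β n ++ ra β n)) 1 1 = ε * (MM z (ww β n) 1 1 - MM z (ww β n) 1 0) := by
  obtain ⟨⟨e1, he1, h1⟩, ⟨e2, he2, h2⟩⟩ := mm_lr hz β n
  have e : ww β n = wl β n ++ ([.T] ++ wr β n) := by simp [ww]
  have hm : MM z (wlt (la β n ++ ra β n)) = (e1 * e2) • (MM z (ww β n) * MM z [.S]) := by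
    rw [wlt_append, MM_append, h1, h2, e, MM_append, MM_append]
    simp only [smul_mul_assoc, mul_smul_comm, smul_smul, Matrix.mul_assoc]
    congr 1
    ring
  have hS : MM z [.S] 0 0 = 1 ∧ MM z [.S] 0 1 = -1 ∧ MM z [.S] 1 0 = 0 ∧ MM z [.S] 1 1 = 1 := by
    simp [MM, lm]
  obtain ⟨s1, s2, s3, s4⟩ := hS
  obtain ⟨m1, m2, m3, m4⟩ := mul_fin_two' (MM z (ww β n)) (MM z [.S])
  refine ⟨e1 * e2, ?_, ?_, ?_, ?_, ?_⟩
  · rcases he1 with rfl | rfl <;> rcases he2 with rfl | rfl <;> simp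
  all_goals
    rw [hm, Matrix.smul_apply, smul_eq_mul]
    simp only [m1, m2, m3, m4, s1, s2, s3, s4]
    ring

/-- The final centre and the invariance at the last letter. -/
theorem last_letter {β : ℕ → Bool} {n : ℕ} {z : ℂ} (h : RP β n z) (hk : ‖kp z‖ ≤ 1 / 8) :
    cn z (ww β n) = gm (kp z) ((la β n ++ ra β n).take ((la β n ++ ra β n).length - 1)) 0 ∧
    ∀ (m : ℤ) (W : ℂ), m ≠ 0 → ‖W‖ ≤ 2 * ‖kp z‖ → W.im ≤ ht β n z → (-W).im ≤ ht β n z →
      (gm (kp z) ((la β n ++ ra β n).take ((la β n ++ ra β n).length - 1))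
        (kp z / (m + W))).im ≤ ht β n z := by
  have hz : z ≠ 0 := h.nz.1
  obtain ⟨ε, hε, u1, u2, u3, u4⟩ := mm_u hz β n
  set u := la β n ++ ra β n with hu
  set u' := u.take (u.length - 1) with hu'
  have hne : u ≠ [] := by
    have h1 := (len_lw β n).1
    have h2 := (ql_pos β n).1
    intro h0
    have := congrArg List.length h0
    rw [hu, List.length_append, List.length_nil] at this
    omega
  have hsplit : u = u' ++ [u.getLast hne] := by
    rw [hu', ← List.dropLast_eq_take, List.dropLast_append_getLast hne]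
  set i := u.getLast hne with hi
  have hMM : MM z (wlt u) = MM z (wlt u') * MM z (wlt [i]) := by
    conv_lhs => rw [hsplit]
    rw [wlt_append, MM_append]
  obtain ⟨m1, m2, m3, m4⟩ := mul_fin_two' (MM z (wlt u')) (MM z (wlt [i]))
  rw [← hMM] at m1 m2 m3 m4
  have hw0 : MM z (ww β n) 1 0 ≠ 0 := by
    rw [(ww_eq hz β n).1]; exact (h.nz.2 n le_rfl).2.2
  have htr := (ww_eq hz β n).2
  constructor
  · obtain ⟨c, hc, k1, k2⟩ := mm_gm hz hk u' (W := 0) (by rw [norm_zero]; positivity)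
    rw [mul_zero, zero_add] at k1 k2
    obtain ⟨d, hd, l1, l2⟩ : ∃ d : ℂ, d ≠ 0 ∧ MM z (wlt [i]) 0 0 = 0 ∧ MM z (wlt [i]) 1 0 = d := by
      cases i
      · exact ⟨z, hz, by rw [mm_f]; simp, by rw [mm_f]; simp⟩
      · exact ⟨-I * z, mul_ne_zero (neg_ne_zero.2 I_ne_zero) hz, by rw [mm_t]; simp,
          by rw [mm_t]; simp⟩
    rw [l1, l2, k1] at m1
    rw [l1, l2, k2] at m3
    rw [u1] at m1
    rw [u3] at m3
    rw [cn, div_eq_iff hw0]
    apply mul_left_cancel₀ hε
    linear_combination m1 - gm (kp z) u' 0 * m3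
  · intro m W hm hW h1 h2
    have hk0 := norm_nonneg (kp z)
    have hn1 : (1 : ℝ) ≤ ‖(m : ℂ)‖ := by
      rw [Complex.norm_intCast]
      exact_mod_cast Int.one_le_abs hm
    have hnW : 3 / 4 ≤ ‖(m : ℂ) + W‖ := by
      have := norm_sub_norm_le (m : ℂ) (-W)
      rw [norm_neg, sub_neg_eq_add] at this
      linarith
    have hnWp : 0 < ‖(m : ℂ) + W‖ := by linarith
    have hnW0 : (m : ℂ) + W ≠ 0 := norm_pos_iff.1 hnWp
    have hsm : ‖kp z / (m + W)‖ ≤ 2 * ‖kp z‖ := by
      rw [norm_div, div_le_iff₀ hnWp]; nlinarith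
    obtain ⟨c, hc, k1, k2⟩ := mm_gm hz hk u' hsm
    set s : ℂ := (if i then -1 else 1) with hs
    have hss : s * s = 1 := by rw [hs]; split_ifs <;> norm_num
    obtain ⟨d, hd, l1, l2⟩ := mm_am hz i (V := s * (m + W - 1)) (by
      rw [← hs]
      have : 1 + s * (s * (m + W - 1)) = m + W := by linear_combination (m + W - 1) * hss
      rw [this]; exact hnW0)
    have ham : am (kp z) i (s * (m + W - 1)) = kp z / (m + W) := by
      rw [am, ← hs]
      congr 1
      linear_combination (m + W - 1) * hss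
    rw [ham] at l1
    set V0 := s * (m + W - 1) with hV0
    set G := gm (kp z) u' (kp z / (m + W)) with hG
    -- the action of the mediant
    have a1 : MM z (ww β n) 0 0 * (V0 - 1) + MM z (ww β n) 0 1 = (c * d / ε) * G := by
      rw [div_mul_eq_mul_div, eq_div_iff hε]
      have : MM z (wlt u) 0 0 * V0 + MM z (wlt u) 0 1 = c * d * G := by
        rw [m1, m2]
        linear_combination MM z (wlt u') 0 0 * l1 + MM z (wlt u') 0 1 * l2 + d * k1
      rw [u1, u2] at this
      linear_combination this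
    have a2 : MM z (ww β n) 1 0 * (V0 - 1) + MM z (ww β n) 1 1 = c * d / ε := by
      rw [eq_div_iff hε]
      have : MM z (wlt u) 1 0 * V0 + MM z (wlt u) 1 1 = c * d := by
        rw [m3, m4]
        linear_combination MM z (wlt u') 1 0 * l1 + MM z (wlt u') 1 1 * l2 + d * k2
      rw [u3, u4] at this
      linear_combination this
    have hcd : c * d / ε ≠ 0 := div_ne_zero (mul_ne_zero hc hd) hε
    have hmob : mob (MM z (ww β n)) (V0 - 1) = G := by
      rw [mob, a1, a2, mul_div_cancel_left₀ _ hcd]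
    set v := V0 - 1 - cn z (ww β n) with hv
    have hv0 : v ≠ 0 := by
      intro h0
      have e1 : V0 - 1 = MM z (ww β n) 0 0 / MM z (ww β n) 1 0 := by
        rw [hv, sub_eq_zero] at h0; exact h0
      rw [e1, mul_div_cancel₀ _ hw0] at a2
      rw [htr] at a2
      exact hcd a2.symm
    have hvim : v.im ≤ 0 := by
      have e1 : v.im = V0.im - ht β n z := by rw [hv, sub_im, sub_im, one_im, sub_zero, ht]
      rw [e1, hV0, hs]
      rw [neg_im] at h2
      split_ifs
      · simp only [neg_mul, one_mul, neg_im, sub_im, add_im, intCast_im, one_im]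
        linarith
      · simp only [one_mul, sub_im, add_im, intCast_im, one_im]
        linarith
    have key := im_mob_ww h hv0
    rw [show cn z (ww β n) + v = V0 - 1 by rw [hv]; ring, hmob] at key
    have : v.im / ((vw β n z).re ^ 2 * ‖v‖ ^ 2) ≤ 0 :=
      div_nonpos_of_nonpos_of_nonneg hvim (by positivity)
    linarith

end Pool.Agent.Loc
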