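import Pool.Agent.Loc.BaseM
import Pool.Agent.Loc.BaseF
import Pool.Agent.NoH.Top

set_option autoImplicit false

/-!
# Loc: the base point at infinity (3.7, helper77)
-/

namespace Pool.Agent.Loc

open Complex Pool.Agent.FZC Filter Topology Bornology

theorem kp_zp {r : ℝ} (hr : 0 < r) (ψ : ℝ) :
    kp (zp r ψ) = (((r ^ 2)⁻¹ : ℝ) : ℂ) * exp ((2 * ψ : ℝ) * I) := by
  have h1 : zp r ψ ^ 2 = -((r : ℂ) ^ 2 * exp (-((2 * ψ : ℝ) * I))) := by
    rw [zp]
    have : exp (-((2 * ψ : ℝ) * I)) = exp (-(ψ * I)) ^ 2 := by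
      rw [← exp_nat_mul]; congr 1; push_cast; ring
    rw [this]
    linear_combination ((r : ℂ) * exp (-(ψ * I))) ^ 2 * I_sq
  have hr' : (r : ℂ) ≠ 0 := by exact_mod_cast hr.ne'
  rw [kp, h1, inv_neg, neg_neg, mul_inv, ← exp_neg, neg_neg]
  push_cast
  ring

theorem norm_kp_zp {r : ℝ} (hr : 0 < r) (ψ : ℝ) : ‖kp (zp r ψ)‖ = (r ^ 2)⁻¹ := by
  rw [kp_zp hr, norm_mul, norm_exp_ofReal_mul_I, mul_one, norm_real,
    Real.norm_of_nonneg (by positivity)]

/-- The powers of `κ` at the ray points near infinity. -/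
theorem pow_far (β : ℕ → Bool) (n : ℕ) {r : ℝ} (hr : 0 < r) {ψ : ℝ}
    (hψ : |ψ - psi0 β n| ≤ del β n) (j : ℕ) (hj : j + 1 < (la β n ++ ra β n).length) :
    mar β n * ‖kp (zp r ψ)‖ ^ (j + 1) ≤
      ((-1) ^ (((la β n ++ ra β n).take j).count false) * kp (zp r ψ) ^ (j + 1)).im := by
  have hp := Real.pi_pos
  have hlen : (la β n ++ ra β n).length = ql β n + qr β n := by
    rw [List.length_append, (len_lw β n).1, (len_lw β n).2]
  rw [hlen] at hj
  obtain ⟨b1, b2⟩ := pb_strict β n j (by omega)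
  set c := cf (la β n ++ ra β n) j with hc
  have hc' : ((la β n ++ ra β n).take j).count false = c := rfl
  rw [hc']
  have hq2 := qw_ge β n
  have hq : (2 : ℝ) ≤ qw β n := by exact_mod_cast hq2
  have b1' : (qw β n : ℝ) * c + 1 ≤ (j + 1) * zw β n := by
    have : qw β n * c + 1 ≤ (j + 1) * zw β n := b1
    exact_mod_cast this
  have b2' : (j + 1 : ℝ) * zw β n + 1 ≤ qw β n * (c + 1) := by
    have : (j + 1) * zw β n + 1 ≤ qw β n * (c + 1) := b2
    exact_mod_cast this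
  have hjq : (j + 1 : ℝ) ≤ qw β n := by
    have : j + 1 ≤ qw β n := by unfold qw; omega
    exact_mod_cast this
  set q : ℝ := (qw β n : ℝ) with hqdef
  have hq0 : 0 < q := by linarith
  set t := ψ - psi0 β n with ht
  have hψ' : ψ = Real.pi / 2 * (zw β n / q) + t := by rw [ht, psi0]; ring
  set a : ℝ := ((j + 1) * zw β n - q * c) / q with ha
  have ha1 : 1 / q ≤ a := by rw [ha]; gcongr; linarith
  have ha2 : a ≤ 1 - 1 / q := by
    rw [ha, div_le_iff₀ hq0]; field_simp; linarith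
  -- the angle
  have hθ : 2 * (j + 1) * ψ - c * Real.pi = Real.pi * a + 2 * (j + 1) * t := by
    rw [hψ', ha]; field_simp; ring
  have hts : |2 * (j + 1 : ℝ) * t| ≤ Real.pi / (2 * q) := by
    rw [abs_mul, abs_of_nonneg (by positivity : (0 : ℝ) ≤ 2 * (j + 1))]
    calc 2 * (j + 1 : ℝ) * |t| ≤ 2 * q * del β n := by gcongr
      _ = Real.pi / (2 * q) := by unfold del; rw [← hqdef]; field_simp; ring
  rw [abs_le] at hts
  set d := Real.pi / (4 * q) with hd
  have hd0 : 0 < d := by positivity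
  have hd1 : Real.pi / (2 * q) = 2 * d := by rw [hd]; field_simp; ring
  have hd2 : Real.pi * (1 / q) = 4 * d := by rw [hd]; field_simp
  have hd3 : d ≤ Real.pi / 8 := by
    rw [hd, div_le_div_iff₀ (by positivity) (by norm_num)]; nlinarith
  have hlo : d ≤ 2 * (j + 1) * ψ - c * Real.pi := by
    rw [hθ]
    have : Real.pi * (1 / q) ≤ Real.pi * a := by gcongr
    linarith [hts.1]
  have hhi : 2 * (j + 1) * ψ - c * Real.pi ≤ Real.pi - d := by
    rw [hθ]
    have : Real.pi * a ≤ Real.pi * (1 - 1 / q) := by gcongr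
    rw [mul_sub, mul_one] at this
    linarith [hts.2]
  have hm : mar β n = Real.sin d := by rw [mar, ← hqdef]
  have hsin : mar β n ≤ Real.sin (2 * (j + 1) * ψ - c * Real.pi) := by
    rw [hm]
    rcases le_total (2 * (j + 1) * ψ - c * Real.pi) (Real.pi / 2) with h | h
    · exact Real.sin_le_sin_of_le_of_le_pi_div_two (by linarith) h hlo
    · rw [← Real.sin_pi_sub (2 * (j + 1) * ψ - c * Real.pi)]
      exact Real.sin_le_sin_of_le_of_le_pi_div_two (by linarith) (by linarith) (by linarith)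
  rw [Real.sin_sub_nat_mul_pi] at hsin
  have e1 : (-1) ^ c * kp (zp r ψ) ^ (j + 1) = (((r ^ 2)⁻¹ ^ (j + 1) * (-1) ^ c : ℝ) : ℂ) *
      exp ((2 * (j + 1) * ψ : ℝ) * I) := by
    rw [kp_zp hr, mul_pow, ← exp_nat_mul]
    have : (((j + 1 : ℕ) : ℂ) * ((2 * ψ : ℝ) * I)) = ((2 * (j + 1) * ψ : ℝ) : ℂ) * I := by
      push_cast; ring
    rw [this]
    push_cast
    ring
  rw [norm_kp_zp hr, e1, im_ofReal_mul, exp_ofReal_mul_I_im]
  have : 0 < (r ^ 2)⁻¹ ^ (j + 1) := by positivity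
  nlinarith

/-- The base point. -/
theorem base (β : ℕ → Bool) (n : ℕ) (R : ℝ) : ∃ z ∈ U, R ≤ ‖z‖ ∧ RP β n z ∧ Emp β n z ∧
    ∀ k ≤ n, ht β n z < (fl β k z).im ∧ ht β n z < (fw β k z).im ∧ ht β n z < (fr β k z).im := by
  obtain ⟨r₁, hr₁, h1⟩ := ray_far β n
  obtain ⟨r₂, hr₂, h2⟩ := fix_far β n
  obtain ⟨hs, hs1⟩ := mar_pos β n
  have hu : la β n ++ ra β n ≠ [] := by
    have h1 := (len_lw β n).1
    have h2 := (ql_pos β n).1
    intro h0
    have := congrArg List.length h0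
    rw [List.length_append, List.length_nil] at this
    omega
  obtain ⟨κ₀, hκ₀, hκ₀', h3⟩ := trap (la β n ++ ra β n) hu hs hs1
  set r := max (max r₁ r₂) (max R κ₀⁻¹) with hr
  have hra : r₁ ≤ r := (le_max_left _ _).trans (le_max_left _ _)
  have hrb : r₂ ≤ r := (le_max_right _ _).trans (le_max_left _ _)
  have hrc : R ≤ r := (le_max_left _ _).trans (le_max_right _ _)
  have hrd : κ₀⁻¹ ≤ r := (le_max_right _ _).trans (le_max_right _ _)
  have hr4 : 4 ≤ r := hr₁.trans hra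
  have hr0 : 0 < r := by linarith
  obtain ⟨ψ, hψ, hQ, hE, hG⟩ := h1 r hra
  have hRP : RP β n (zp r ψ) := ⟨hQ, hE, hG⟩
  have hn : ‖zp r ψ‖ = r := norm_zp hr0.le ψ
  have hz0 : zp r ψ ≠ 0 := hRP.nz.1
  have hU : zp r ψ ∈ U := Pool.Agent.NoH.far_not_mem _ (by rw [hn]; linarith)
  refine ⟨zp r ψ, hU, by rw [hn]; exact hrc, hRP, ?_, h2 r hrb ψ hψ hRP⟩
  have hk : ‖kp (zp r ψ)‖ ≤ κ₀ := by
    rw [norm_kp_zp hr0]
    have : (κ₀⁻¹) ≤ r ^ 2 := by nlinarith
    rw [inv_le_comm₀ (by positivity) hκ₀]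
    exact this
  have hk8 : ‖kp (zp r ψ)‖ ≤ 1 / 8 := hk.trans hκ₀'
  have hk0 : kp (zp r ψ) ≠ 0 := by
    rw [kp]
    exact neg_ne_zero.2 (inv_ne_zero (pow_ne_zero 2 hz0))
  obtain ⟨l1, l2⟩ := last_letter hRP hk8
  obtain ⟨t0, tn⟩ := h3 (kp (zp r ψ)) (ht β n (zp r ψ)) hk0 hk
    (fun j hj => pow_far β n hr0 hψ j hj) (by rw [ht, l1]) l2
  have hx : ∀ L : List (Bool × ℤ), (∀ p ∈ L, p.2 ≠ 0) →
      BKK (kp (zp r ψ)) (la β n ++ ra β n) (ht β n (zp r ψ)) (xv (zp r ψ) L) := by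
    intro L
    induction L with
    | nil => intro _; exact t0
    | cons p L ih =>
      intro hL
      obtain ⟨e, m⟩ := p
      have hm : m ≠ 0 := hL (e, m) (by simp)
      have hI := ih (fun p hp => hL p (List.mem_cons_of_mem _ hp))
      cases e
      · have := tn m _ hm hI
        have e1 : xv (zp r ψ) ((false, m) :: L) = kp (zp r ψ) / (m + xv (zp r ψ) L) := by
          simp only [xv, sg, kp, Bool.false_eq_true, if_false]
          rw [div_mul_eq_div_div, neg_div, one_div]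
        rw [e1]; exact this
      · have := tn (-m) _ (by omega) hI.neg
        have e1 : xv (zp r ψ) ((true, m) :: L) =
            kp (zp r ψ) / (((-m : ℤ) : ℂ) + -xv (zp r ψ) L) := by
          simp only [xv, sg, kp, if_true]
          push_cast
          rw [← neg_add, neg_div_neg_eq, div_mul_eq_div_div, one_div]
        rw [e1]; exact this
  intro g hg
  obtain ⟨L, hL, hc⟩ := cn_xv hg
  rw [hc _ hU, add_im, intCast_im, zero_add]
  have hlen : 0 < (la β n ++ ra β n).length := List.length_pos_iff.2 hu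
  have := ((hx L hL).2 0 hlen).1
  simpa [gm] using this

/-- The values at the mediant tend to infinity. -/
theorem vw_big (β : ℕ → Bool) (n : ℕ) (C : ℝ) : ∃ R : ℝ, ∀ z : ℂ, R ≤ ‖z‖ → C ≤ ‖vw β n z‖ := by
  obtain ⟨-, -, hw⟩ := as_all β n
  obtain ⟨hl, hr⟩ := ql_pos β n
  have hpow : Tendsto (fun z : ℂ => ‖z‖ ^ (ql β n + qr β n) * (1 / 2)) (cobounded ℂ) atTop :=
    ((tendsto_pow_atTop (by omega)).comp tendsto_norm_cobounded_atTop).atTop_mul_const
      (by norm_num)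
  have h1 : ∀ᶠ z in cobounded ℂ, C ≤ ‖vw β n z‖ := by
    filter_upwards [as_ev hw (ε := 1 / 2) (by norm_num), hpow.eventually_ge_atTop C] with z h1 h2
    obtain ⟨e, he, h3⟩ := h1
    refine h2.trans ?_
    rw [h3, norm_mul, norm_lead]
    gcongr
    have := norm_sub_norm_le (1 : ℂ) (-e)
    rw [norm_one, norm_neg, sub_neg_eq_add] at this
    linarith
  rw [← comap_norm_atTop, Filter.eventually_comap] at h1
  obtain ⟨R, hR⟩ := Filter.eventually_atTop.1 h1
  exact ⟨R, fun z hz => hR ‖z‖ hz z rfl⟩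

end Pool.Agent.Loc
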