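import Pool.Agent.Loc.Bas

set_option autoImplicit false

/-!
# Loc: closedness of the set of points with a good sign path
-/

namespace Pool.Agent.Loc

open Complex Pool.Agent.FZC Filter Topology

/-- `z` has a good sign path (finite or infinite). -/
def Gd (z : ℂ) : Prop := Inf (bits z) z ∨ ∃ n, End (bits z) n z

/-- closed first quadrant -/
def W1 (x : ℂ) : Prop := 0 ≤ x.re ∧ 0 ≤ x.im
/-- closed fourth quadrant -/
def W4 (x : ℂ) : Prop := 0 ≤ x.re ∧ x.im ≤ 0

/-- real part of `x * conj y` -/
def dt (x y : ℂ) : ℝ := x.re * y.re + x.im * y.im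

theorem dt_eq (x y : ℂ) : (x * (starRingEnd ℂ) y).re = dt x y := by
  simp [dt]

/-- No right angle, first step to the left. -/
theorem nra_a {x y c m : ℂ} (hM : c * m = x ^ 2 + y ^ 2) (hS : c + m = x * y)
    (hx : W1 x) (hy : W4 y) (hc : W4 c) (hx0 : x ≠ 0) (hy0 : y ≠ 0) (hm0 : m ≠ 0)
    (h1 : 0 < dt x c) (h2 : (W4 m ∧ 0 ≤ dt x m) ∨ (W1 m ∧ 0 ≤ dt m y)) : dt x y ≠ 0 := by
  obtain ⟨a, b⟩ := x
  obtain ⟨u, v⟩ := y
  obtain ⟨p, q⟩ := c
  obtain ⟨r, s⟩ := m
  simp only [W1, W4, dt] at *
  obtain ⟨ha, hb⟩ := hx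
  obtain ⟨hu, hv⟩ := hy
  obtain ⟨hp, hq⟩ := hc
  intro h0
  -- |x|² > 0
  have hN : 0 < a ^ 2 + b ^ 2 := by
    rcases eq_or_ne a 0 with h | h
    · rcases eq_or_ne b 0 with h' | h'
      · exact absurd (by rw [h, h']; rfl) hx0
      · positivity
    · positivity
  -- y = -i lam x
  obtain ⟨lam, hlu, hlv⟩ : ∃ lam : ℝ, u = lam * b ∧ v = -(lam * a) := by
    refine ⟨(u * b - v * a) / (a ^ 2 + b ^ 2), ?_, ?_⟩
    · field_simp
      linear_combination (a : ℝ) * h0
    · field_simp
      linear_combination (b : ℝ) * h0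
  have hlam : 0 < lam := by
    rcases lt_trichotomy lam 0 with h | h | h
    · exfalso
      have e1 : b = 0 := by nlinarith
      have e2 : a = 0 := by nlinarith
      rw [e1, e2] at hN; norm_num at hN
    · exfalso
      apply hy0
      rw [hlu, hlv, h]; simp; rfl
    · exact h
  have hMre := congrArg Complex.re hM
  have hMim := congrArg Complex.im hM
  have hSre := congrArg Complex.re hS
  have hSim := congrArg Complex.im hS
  simp [pow_two] at hMre hMim hSre hSim
  subst hlu hlv
  have hM1 : 0 ≤ r * a + s * b := by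
    rcases h2 with ⟨⟨h3, h4⟩, h5⟩ | ⟨⟨h3, h4⟩, h5⟩
    · linarith
    · positivity
  have hM2 : s * a - r * b ≤ 0 := by
    rcases h2 with ⟨⟨h3, h4⟩, h5⟩ | ⟨⟨h3, h4⟩, h5⟩
    · nlinarith [mul_nonneg h3 hb, mul_nonneg ha (neg_nonneg.2 h4)]
    · nlinarith
  have hG2 : q * a - p * b ≤ 0 := by
    nlinarith [mul_nonneg hp hb, mul_nonneg ha (neg_nonneg.2 hq)]
  have hK : (a * p + b * q) * (s * a - r * b) + (q * a - p * b) * (r * a + s * b) = 0 := by
    linear_combination (a ^ 2 - b ^ 2) * hMim - 2 * a * b * hMre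
  have k1 : (a * p + b * q) * (s * a - r * b) ≤ 0 := mul_nonpos_of_nonneg_of_nonpos h1.le hM2
  have k2 : (q * a - p * b) * (r * a + s * b) ≤ 0 := mul_nonpos_of_nonpos_of_nonneg hG2 hM1
  have k3 : s * a - r * b = 0 := by
    have : (a * p + b * q) * (s * a - r * b) = 0 := by linarith
    rcases mul_eq_zero.1 this with h | h
    · exact absurd h h1.ne'
    · exact h
  have k4 : (q * a - p * b) * (r * a + s * b) = 0 := by linarith
  have k5 : r * a + s * b ≠ 0 := by
    intro h
    have e : (r ^ 2 + s ^ 2) * (a ^ 2 + b ^ 2) = 0 := by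
      linear_combination (s * a - r * b) * k3 + (r * a + s * b) * h
    rcases mul_eq_zero.1 e with h' | h'
    · apply hm0
      have e1 : r = 0 := by nlinarith [sq_nonneg r, sq_nonneg s]
      have e2 : s = 0 := by nlinarith [sq_nonneg r, sq_nonneg s]
      rw [e1, e2]; rfl
    · exact hN.ne' h'
  have k6 : q * a - p * b = 0 := by
    rcases mul_eq_zero.1 k4 with h | h
    · exact h
    · exact absurd h k5
  have k7 : 0 < p * a := by nlinarith [mul_nonneg hb (neg_nonneg.2 hq)]
  have ha' : 0 < a := by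
    rcases ha.lt_or_eq with h | h
    · exact h
    · rw [← h] at k7; simp at k7
  have hp' : 0 < p := by
    rcases hp.lt_or_eq with h | h
    · exact h
    · rw [← h] at k7; simp at k7
  have hb0 : b = 0 := by
    have : q * a ≤ 0 := mul_nonpos_of_nonpos_of_nonneg hq ha
    have h3 : 0 ≤ p * b := mul_nonneg hp hb
    have h4 : p * b = 0 := by linarith
    rcases mul_eq_zero.1 h4 with h | h
    · exact absurd h hp'.ne'
    · exact h
  have hq0 : q = 0 := by
    have h4 : q * a = 0 := by rw [hb0] at k6; linarith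
    rcases mul_eq_zero.1 h4 with h | h
    · exact h
    · exact absurd h ha'.ne'
  have hs0 : s = 0 := by
    have h4 : s * a = 0 := by rw [hb0] at k3; linarith
    rcases mul_eq_zero.1 h4 with h | h
    · exact h
    · exact absurd h ha'.ne'
  rw [hb0, hq0, hs0] at hSim
  have : 0 < lam * (a * a) := by positivity
  nlinarith

theorem W1_conj {x : ℂ} (h : W4 x) : W1 ((starRingEnd ℂ) x) := by
  obtain ⟨h1, h2⟩ := h
  exact ⟨by simpa using h1, by simpa using h2⟩

theorem W4_conj {x : ℂ} (h : W1 x) : W4 ((starRingEnd ℂ) x) := by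
  obtain ⟨h1, h2⟩ := h
  exact ⟨by simpa using h1, by simpa using h2⟩

/-- No right angle, first step to the right. -/
theorem nra_b {x y c m : ℂ} (hM : c * m = x ^ 2 + y ^ 2) (hS : c + m = x * y)
    (hx : W1 x) (hy : W4 y) (hc : W1 c) (hx0 : x ≠ 0) (hy0 : y ≠ 0) (hm0 : m ≠ 0)
    (h1 : 0 < dt c y) (h2 : (W4 m ∧ 0 ≤ dt x m) ∨ (W1 m ∧ 0 ≤ dt m y)) : dt x y ≠ 0 := by
  have hc0 : ∀ w : ℂ, w ≠ 0 → (starRingEnd ℂ) w ≠ 0 := fun w hw => by
    simpa using hw
  have hd : ∀ u v : ℂ, dt ((starRingEnd ℂ) u) ((starRingEnd ℂ) v) = dt v u := by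
    intro u v; simp [dt]; ring
  have hM' : (starRingEnd ℂ) c * (starRingEnd ℂ) m
      = (starRingEnd ℂ) y ^ 2 + (starRingEnd ℂ) x ^ 2 := by
    rw [← map_mul, hM, map_add, map_pow, map_pow]; ring
  have hS' : (starRingEnd ℂ) c + (starRingEnd ℂ) m
      = (starRingEnd ℂ) y * (starRingEnd ℂ) x := by
    rw [← map_add, hS, map_mul]; ring
  have := nra_a hM' hS' (W1_conj hy) (W4_conj hx) (W4_conj hc) (hc0 y hy0) (hc0 x hx0) (hc0 m hm0)
    (by rw [hd]; exact h1)
    (by
      rcases h2 with ⟨h3, h4⟩ | ⟨h3, h4⟩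
      · right; exact ⟨W1_conj h3, by rw [hd]; exact h4⟩
      · left; exact ⟨W4_conj h3, by rw [hd]; exact h4⟩)
  rwa [hd] at this

/-- Weak form of `Edge`. -/
def WE (x y : ℂ) : Prop := W1 x ∧ W4 y ∧ 0 ≤ dt x y

theorem Edge.we {x y : ℂ} (h : Edge x y) : WE x y := by
  obtain ⟨h1, h2, h3, h4, h5⟩ := h
  rw [dt_eq] at h5
  exact ⟨⟨h1.le, h2.le⟩, ⟨h3.le, h4.le⟩, h5.le⟩

theorem we_closed {f g : ℂ → ℂ} (hf : Continuous f) (hg : Continuous g) :
    IsClosed {z | WE (f z) (g z)} := by
  have h1 : IsClosed {z | 0 ≤ (f z).re} := isClosed_le continuous_const (continuous_re.comp hf)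
  have h2 : IsClosed {z | 0 ≤ (f z).im} := isClosed_le continuous_const (continuous_im.comp hf)
  have h3 : IsClosed {z | 0 ≤ (g z).re} := isClosed_le continuous_const (continuous_re.comp hg)
  have h4 : IsClosed {z | (g z).im ≤ 0} := isClosed_le (continuous_im.comp hg) continuous_const
  have h5 : IsClosed {z | 0 ≤ dt (f z) (g z)} :=
    isClosed_le continuous_const
      (((continuous_re.comp hf).mul (continuous_re.comp hg)).add
        ((continuous_im.comp hf).mul (continuous_im.comp hg)))
  have : {z | WE (f z) (g z)} = ({z | 0 ≤ (f z).re} ∩ {z | 0 ≤ (f z).im}) ∩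
      (({z | 0 ≤ (g z).re} ∩ {z | (g z).im ≤ 0}) ∩ {z | 0 ≤ dt (f z) (g z)}) := by
    ext z
    simp only [Set.mem_setOf_eq, Set.mem_inter_iff, WE, W1, W4]
  rw [this]
  exact (h1.inter h2).inter ((h3.inter h4).inter h5)

/-- Level one. -/
theorem level_one {z : ℂ} (hz : z ∈ Q) (h : (vw (bits z) 0 z).im ≠ 0) :
    Edge (vx (bits z) 1 z) (vy (bits z) 1 z) := by
  obtain ⟨h1, h2⟩ := hz
  rw [vw_zero_im] at h
  have hb : bits z 0 = decide (0 ≤ z.im ^ 2 - z.re ^ 2) := by rw [bits_eq, vw_zero_im]
  have h12 : 0 < z.re * z.im := mul_pos h1 h2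
  have h11 : 0 < z.re * z.re := mul_pos h1 h1
  have h22 : 0 < z.im * z.im := mul_pos h2 h2
  rcases lt_or_gt_of_ne h with h' | h'
  · have hb' : bits z 0 = false := by rw [hb]; simpa using h'
    have e1 : vx (bits z) 1 z = z := by rw [vx_f hb', vx_zero]
    have e2 : vy (bits z) 1 z = -I * z ^ 2 := by rw [vy_f hb', vw_zero]
    rw [e1, e2]
    refine ⟨h1, h2, ?_, ?_, ?_⟩
    · simp [pow_two]; linarith
    · simp [pow_two]; nlinarith
    · rw [dt_eq]; simp only [dt]; simp [pow_two]; nlinarith [mul_pos h22 h2, mul_pos h11 h2]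
  · have hb' : bits z 0 = true := by rw [hb]; simpa using h'.le
    have e1 : vx (bits z) 1 z = -I * z ^ 2 := by rw [vx_t hb', vw_zero]
    have e2 : vy (bits z) 1 z = -I * z := by rw [vy_t hb', vy_zero]
    rw [e1, e2]
    refine ⟨?_, ?_, ?_, ?_, ?_⟩
    · simp [pow_two]; linarith
    · simp [pow_two]; nlinarith
    · simp; linarith
    · simp; linarith
    · rw [dt_eq]; simp only [dt]; simp [pow_two]; nlinarith [mul_pos h22 h1, mul_pos h11 h1]

/-- The next step of a good point. -/
theorem Gd.next {z : ℂ} (h : Gd z) {n : ℕ} (hne : ∀ k, k < n → (vw (bits z) k z).im ≠ 0) :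
    Good (bits z) n z ∧ (End (bits z) n z ∨ Good (bits z) (n + 1) z) := by
  rcases h with h | ⟨m, h⟩
  · exact ⟨h n, Or.inr (h (n + 1))⟩
  · have hm : n ≤ m := by
      by_contra hlt
      exact hne m (by omega) h.2.1
    refine ⟨h.1.mono hm, ?_⟩
    rcases hm.eq_or_lt with h' | h'
    · left; rw [h']; exact h
    · right; exact h.1.mono h'

/-- What survives in the limit. -/
theorem lim_next {z : ℂ} (h : z ∈ closure {z' | Gd z'}) {n : ℕ}
    (hne : ∀ k, k < n → (vw (bits z) k z).im ≠ 0) (hn : 1 ≤ n) :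
    WE (vx (bits z) n z) (vy (bits z) n z) ∧
      (WE (vx (bits z) n z) (vw (bits z) n z) ∨ WE (vw (bits z) n z) (vy (bits z) n z)) := by
  set β := bits z with hβ
  have hcl : IsClosed {z' | WE (vx β n z') (vy β n z') ∧
      (WE (vx β n z') (vw β n z') ∨ WE (vw β n z') (vy β n z'))} :=
    (we_closed (cont_vx β n) (cont_vy β n)).inter
      ((we_closed (cont_vx β n) (cont_vw β n)).union (we_closed (cont_vw β n) (cont_vy β n)))
  have hfr : ∃ᶠ z' in 𝓝 z, Gd z' := mem_closure_iff_frequently.1 h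
  have hb : ∀ᶠ z' in 𝓝 z, ∀ k, k < n → bits z' k = β k := bits_near hne
  have hi : ∀ᶠ z' in 𝓝 z, ∀ k, k < n → (vw β k z').im ≠ 0 := by
    have : ∀ᶠ z' in 𝓝 z, ∀ k ∈ Finset.range n, (vw β k z').im ≠ 0 := by
      rw [Filter.eventually_all_finset]
      intro k hk
      exact (continuous_im.comp (cont_vw β k)).continuousAt.eventually_ne
        (hne k (Finset.mem_range.1 hk))
    filter_upwards [this] with z' hz' k hk
    exact hz' k (Finset.mem_range.2 hk)
  have hfr2 : ∃ᶠ z' in 𝓝 z, z' ∈ {z' | WE (vx β n z') (vy β n z') ∧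
      (WE (vx β n z') (vw β n z') ∨ WE (vw β n z') (vy β n z'))} := by
    refine (hfr.and_eventually (hb.and hi)).mono ?_
    rintro z' ⟨hg, hbz, hiz⟩
    have hne' : ∀ k, k < n → (vw (bits z') k z').im ≠ 0 := by
      intro k hk
      rw [vw_congr (β' := β) (fun j hj => hbz j (by omega))]
      exact hiz k hk
    obtain ⟨h1, h2⟩ := hg.next hne'
    have h3 := h1 n hn le_rfl
    have ex : vx (bits z') n z' = vx β n z' := vx_congr hbz
    have ey : vy (bits z') n z' = vy β n z' := vy_congr hbz
    have ew : vw (bits z') n z' = vw β n z' := vw_congr hbz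
    refine ⟨?_, ?_⟩
    · rw [← ex, ← ey]; exact h3.we
    · rw [← ex, ← ey, ← ew]
      rcases h2 with h2 | h2
      · left
        obtain ⟨-, h4, h5⟩ := h2
        refine ⟨h3.we.1, ⟨h5.le, h4.le⟩, ?_⟩
        simp only [dt, h4]
        have := mul_pos h3.1 h5
        linarith
      · have h4 := (h2 (n + 1) (by omega) le_rfl).we
        cases hbn : bits z' n
        · left; rwa [vx_f hbn, vy_f hbn] at h4
        · right; rwa [vx_t hbn, vy_t hbn] at h4
  exact hcl.closure_subset (mem_closure_iff_frequently.2 hfr2)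

theorem ne_zero_of_one_le {x : ℂ} (h : 1 ≤ ‖x‖) : x ≠ 0 := by
  rintro rfl
  norm_num at h

/-- The limit is good as long as it has not stopped. -/
theorem lim_good {z : ℂ} (hz : z ∈ Q) (hl : Low z) (h : z ∈ closure {z' | Gd z'}) (n : ℕ) :
    (∀ k, k < n → (vw (bits z) k z).im ≠ 0) → Good (bits z) n z := by
  induction n with
  | zero => intro _; exact good_zero _ _
  | succ n ih =>
    intro hne
    have hg := ih (fun k hk => hne k (by omega))
    have key : Edge (vx (bits z) (n + 1) z) (vy (bits z) (n + 1) z) := by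
      rcases Nat.eq_zero_or_pos n with h0 | hn
      · subst h0
        exact level_one hz (hne 0 (by omega))
      · obtain ⟨⟨w1, w2, w3⟩, w4⟩ := lim_next h hne (by omega)
        have he := hg n hn le_rfl
        have hl' := hl (bits z) (n + 1)
        have n1 := ne_zero_of_one_le hl'.1
        have n2 := ne_zero_of_one_le hl'.2.1
        have n3 := ne_zero_of_one_le hl'.2.2
        have hM := markoff_prod (bits z) (n + 1) z
        have him := hne n (by omega)
        have hbn := bits_eq z n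
        have w4' : (W4 (vw (bits z) (n + 1) z) ∧ 0 ≤ dt (vx (bits z) (n + 1) z) (vw (bits z) (n + 1) z))
            ∨ (W1 (vw (bits z) (n + 1) z) ∧
              0 ≤ dt (vw (bits z) (n + 1) z) (vy (bits z) (n + 1) z)) := by
          rcases w4 with w | w
          · left; exact ⟨w.2.1, w.2.2⟩
          · right; exact ⟨w.1, w.2.2⟩
        obtain ⟨e1, e2, e3, e4, e5⟩ := he
        rw [dt_eq] at e5
        rcases lt_or_gt_of_ne him with hneg | hpos
        · have hb : bits z n = false := by rw [hbn]; simpa using hneg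
          have hc : vx (bits z) (n + 1) z * vy (bits z) (n + 1) z - vw (bits z) (n + 1) z
              = vy (bits z) n z := by
            rw [vx_f hb, vy_f hb, vw_f hb]; ring
          have hd : dt (vx (bits z) (n + 1) z) (vy (bits z) (n + 1) z) ≠ 0 := by
            refine nra_a (c := vy (bits z) n z) (m := vw (bits z) (n + 1) z) ?_ ?_ w1 w2
              ⟨e3.le, e4.le⟩ n1 n2 n3 ?_ w4'
            · rw [← hc, mul_comm]; exact hM
            · rw [← hc]; ring
            · rw [vx_f hb]; exact e5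
          have hd' : 0 < dt (vx (bits z) (n + 1) z) (vy (bits z) (n + 1) z) :=
            lt_of_le_of_ne w3 (Ne.symm hd)
          rw [← dt_eq] at hd'
          have hd2 := hd'
          rw [vx_f hb, vy_f hb] at hd' ⊢
          rw [vx_f hb, vy_f hb, dt_eq] at hd2
          simp only [dt] at hd2
          refine ⟨e1, e2, ?_, hneg, hd'⟩
          by_contra hle
          have hle' : (vw (bits z) n z).re ≤ 0 := not_lt.1 hle
          nlinarith [mul_nonneg e1.le (neg_nonneg.2 hle'), mul_pos e2 (neg_pos.2 hneg)]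
        · have hb : bits z n = true := by rw [hbn]; simpa using hpos.le
          have hc : vx (bits z) (n + 1) z * vy (bits z) (n + 1) z - vw (bits z) (n + 1) z
              = vx (bits z) n z := by
            rw [vx_t hb, vy_t hb, vw_t hb]; ring
          have hd : dt (vx (bits z) (n + 1) z) (vy (bits z) (n + 1) z) ≠ 0 := by
            refine nra_b (c := vx (bits z) n z) (m := vw (bits z) (n + 1) z) ?_ ?_ w1 w2
              ⟨e1.le, e2.le⟩ n1 n2 n3 ?_ w4'
            · rw [← hc, mul_comm]; exact hM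
            · rw [← hc]; ring
            · rw [vy_t hb]; exact e5
          have hd' : 0 < dt (vx (bits z) (n + 1) z) (vy (bits z) (n + 1) z) :=
            lt_of_le_of_ne w3 (Ne.symm hd)
          rw [← dt_eq] at hd'
          have hd2 := hd'
          rw [vx_t hb, vy_t hb] at hd' ⊢
          rw [vx_t hb, vy_t hb, dt_eq] at hd2
          simp only [dt] at hd2
          refine ⟨?_, hpos, e3, e4, hd'⟩
          by_contra hle
          have hle' : (vw (bits z) n z).re ≤ 0 := not_lt.1 hle
          nlinarith [mul_nonneg (neg_nonneg.2 hle') e3.le, mul_pos hpos (neg_pos.2 e4)]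
    intro k hk1 hk
    rcases Nat.lt_or_ge k (n + 1) with hk' | hk'
    · exact hg k hk1 (by omega)
    · have : k = n + 1 := by omega
      subst this; exact key

/-- The set of the points with a good sign path is closed (at points with the lower bounds). -/
theorem closed_gd {z : ℂ} (hz : z ∈ Q) (hl : Low z) (h : z ∈ closure {z' | Gd z'}) : Gd z := by
  by_cases hall : ∀ k, (vw (bits z) k z).im ≠ 0
  · left
    intro n
    exact lim_good hz hl h n (fun k _ => hall k)
  · right
    push_neg at hall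
    classical
    have hmin := Nat.find_spec hall
    have hlt : ∀ k, k < Nat.find hall → (vw (bits z) k z).im ≠ 0 := fun k hk =>
      Nat.find_min hall hk
    set n := Nat.find hall with hn
    refine ⟨n, lim_good hz hl h n hlt, hmin, ?_⟩
    have hre : 0 ≤ (vw (bits z) n z).re := by
      rcases Nat.eq_zero_or_pos n with h0 | h0
      · rw [h0, vw_zero]
        obtain ⟨h1, h2⟩ := hz
        simp [pow_two]
        have := mul_pos h1 h2
        linarith
      · rcases (lim_next h hlt h0).2 with w | w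
        · exact w.2.1.1
        · exact w.1.1
    rcases hre.lt_or_eq with h' | h'
    · exact h'
    · exfalso
      apply ne_zero_of_one_le (hl (bits z) n).2.2
      exact Complex.ext (by simpa using h'.symm) (by simpa using hmin)

end Pool.Agent.Loc
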