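import Pool.Agent.Loc.Bas

set_option autoImplicit false

/-!
# Loc: binary codes (proved)
-/

namespace Pool.Agent.Loc

open Filter Topology

/-- The digits of `β`. -/
def dg (β : ℕ → Bool) (i : ℕ) : Fin 2 := if β i then 1 else 0

theorem cod_eq (β : ℕ → Bool) : cod β = Real.ofDigits (dg β) := by
  unfold cod Real.ofDigits
  congr 1
  funext i
  unfold Real.ofDigitsTerm dg
  cases β i <;> simp

theorem cod_nonneg (β : ℕ → Bool) : 0 ≤ cod β := by
  rw [cod_eq]; exact Real.ofDigits_nonneg _

theorem cod_le_one (β : ℕ → Bool) : cod β ≤ 1 := by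
  rw [cod_eq]; exact Real.ofDigits_le_one _

theorem cod_close {β β' : ℕ → Bool} {n : ℕ} (h : ∀ k, k < n → β k = β' k) :
    |cod β - cod β'| ≤ (1 / 2 : ℝ) ^ n := by
  rw [cod_eq, cod_eq]
  have := Real.abs_ofDigits_sub_ofDigits_le (x := dg β) (y := dg β') (n := n)
    (fun i hi => by unfold dg; rw [h i hi])
  simpa using this

/-- First bit and shift. -/
theorem cod_succ (β : ℕ → Bool) :
    cod β = (if β 0 then 1 / 2 else 0) + cod (fun i => β (i + 1)) / 2 := by
  rw [cod_eq, cod_eq, Real.ofDigits_eq_sum_add_ofDigits (dg β) 1]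
  have : (fun i => dg β (i + 1)) = dg (fun i => β (i + 1)) := by
    funext i; rfl
  rw [this]
  simp only [Finset.range_one, Finset.sum_singleton, Real.ofDigitsTerm, dg]
  cases β 0 <;> simp <;> ring

theorem cod_eq_zero {β : ℕ → Bool} (h : cod β = 0) : ∀ n, β n = false := by
  intro n
  induction n generalizing β with
  | zero =>
    rw [cod_succ] at h
    have := cod_nonneg (fun i => β (i + 1))
    cases hb : β 0
    · rfl
    · rw [hb] at h; simp at h; linarith
  | succ n ih =>
    rw [cod_succ] at h
    have h1 := cod_nonneg (fun i => β (i + 1))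
    have h2 : cod (fun i => β (i + 1)) = 0 := by
      have : (0 : ℝ) ≤ (if β 0 then 1 / 2 else 0) := by cases β 0 <;> simp
      linarith
    exact ih h2

theorem cod_eq_one {β : ℕ → Bool} (h : cod β = 1) : ∀ n, β n = true := by
  intro n
  induction n generalizing β with
  | zero =>
    rw [cod_succ] at h
    have := cod_le_one (fun i => β (i + 1))
    cases hb : β 0
    · rw [hb] at h; simp at h; linarith
    · rfl
  | succ n ih =>
    rw [cod_succ] at h
    have h1 := cod_le_one (fun i => β (i + 1))
    have h2 : cod (fun i => β (i + 1)) = 1 := by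
      have : (if β 0 then 1 / 2 else 0) ≤ (1 / 2 : ℝ) := by cases β 0 <;> simp
      linarith
    exact ih h2

theorem cod_false : cod (fun _ => false) = 0 := by
  unfold cod; simp

theorem cod_true : cod (fun _ => true) = 1 := by
  have h := cod_succ (fun _ => true)
  simp at h; linarith

/-- Binary expansions are unique up to `0 1 1 1 … = 1 0 0 0 …`. -/
theorem cod_inj {β β' : ℕ → Bool} (h : cod β = cod β') : β = β' ∨
    ∃ n, (∀ k, k < n → β k = β' k) ∧
      ((β n = true ∧ β' n = false ∧ ∀ k, n < k → β k = false ∧ β' k = true) ∨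
        (β n = false ∧ β' n = true ∧ ∀ k, n < k → β k = true ∧ β' k = false)) := by
  by_cases he : β = β'
  · exact Or.inl he
  right
  have hex : ∃ n, β n ≠ β' n := by
    by_contra hc; push Not at hc; exact he (funext hc)
  classical
  let n := Nat.find hex
  have hn : β n ≠ β' n := Nat.find_spec hex
  have hk : ∀ k, k < n → β k = β' k := fun k hk => by
    by_contra hc; exact Nat.find_min hex hk hc
  have key : ∀ (m : ℕ) (γ γ' : ℕ → Bool), (∀ k, k < m → γ k = γ' k) → cod γ = cod γ' →
      cod (fun i => γ (i + m)) = cod (fun i => γ' (i + m)) := by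
    intro m
    induction m with
    | zero => intro γ γ' _ h; simpa using h
    | succ m ih =>
      intro γ γ' h1 h2
      have h3 : cod (fun i => γ (i + 1)) = cod (fun i => γ' (i + 1)) := by
        rw [cod_succ γ, cod_succ γ', h1 0 (by omega)] at h2
        linarith
      have h4 := ih (fun i => γ (i + 1)) (fun i => γ' (i + 1)) (fun k hk => h1 (k + 1) (by omega)) h3
      have e : ∀ δ : ℕ → Bool, (fun i => (fun i => δ (i + 1)) (i + m)) = fun i => δ (i + (m + 1)) := by
        intro δ; funext i; show δ (i + m + 1) = δ (i + (m + 1)); rw [Nat.add_assoc]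
      rw [e γ, e γ'] at h4
      exact h4
  have h0 := key n β β' hk h
  rw [cod_succ, cod_succ (fun i => β' (i + n))] at h0
  simp only [Nat.zero_add] at h0
  have a1 := cod_nonneg (fun i => β (i + 1 + n))
  have a2 := cod_le_one (fun i => β (i + 1 + n))
  have a3 := cod_nonneg (fun i => β' (i + 1 + n))
  have a4 := cod_le_one (fun i => β' (i + 1 + n))
  refine ⟨n, hk, ?_⟩
  cases hb : β n
  · have hb' : β' n = true := by
      cases hb' : β' n
      · exact absurd (hb.trans hb'.symm) hn
      · rfl
    right
    rw [hb, hb'] at h0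
    simp only [if_true] at h0
    have e0 : cod (fun i => β (i + 1 + n)) = 1 := by
      simp at h0; linarith
    have e1 : cod (fun i => β' (i + 1 + n)) = 0 := by
      simp at h0; linarith
    refine ⟨rfl, hb', fun k hk' => ?_⟩
    obtain ⟨j, rfl⟩ : ∃ j, k = j + 1 + n := ⟨k - 1 - n, by omega⟩
    exact ⟨cod_eq_one e0 j, cod_eq_zero e1 j⟩
  · have hb' : β' n = false := by
      cases hb' : β' n
      · rfl
      · exact absurd (hb.trans hb'.symm) hn
    left
    rw [hb, hb'] at h0
    simp only [if_true] at h0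
    have e0 : cod (fun i => β (i + 1 + n)) = 0 := by
      simp at h0; linarith
    have e1 : cod (fun i => β' (i + 1 + n)) = 1 := by
      simp at h0; linarith
    refine ⟨rfl, hb', fun k hk' => ?_⟩
    obtain ⟨j, rfl⟩ : ∃ j, k = j + 1 + n := ⟨k - 1 - n, by omega⟩
    exact ⟨cod_eq_zero e0 j, cod_eq_one e1 j⟩

theorem cod_surj {x : ℝ} (hx : x ∈ Set.Icc (0 : ℝ) 1) : ∃ β, cod β = x := by
  obtain ⟨d, _, hd⟩ := Real.ofDigits_SurjOn (b := 2) (by norm_num) hx
  refine ⟨fun i => decide (d i = 1), ?_⟩
  rw [cod_eq, ← hd]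
  congr 1
  funext i
  show (if decide (d i = 1) then (1 : Fin 2) else 0) = d i
  generalize d i = c
  revert c
  decide

end Pool.Agent.Loc
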