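import Pool.Agent.Loc.Iface
import Pool.Agent.Loc.Bas
import Pool.Agent.Loc.Cod

set_option autoImplicit false

/-!
# Loc: fans of real values, continuity of the code (T7, group A)
-/

namespace Pool.Agent.Loc

open Complex Pool.Agent.FZC Metric Set Filter Topology

/-! ## fans -/

theorem fanR {β : ℕ → Bool} {m : ℕ} {z : ℂ} (h0 : ∀ k, m ≤ k → β k = false)
    (hx : (vx β m z).im = 0) (h2 : 2 ≤ (vx β m z).re) (hy : (vy β m z).im < 0)
    (hw : (vw β m z).im < (vy β m z).im) : ∀ k, m ≤ k →
      (vx β k z).im = 0 ∧ 2 ≤ (vx β k z).re ∧ (vy β k z).im < 0 ∧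
        (vw β k z).im < (vy β k z).im := by
  intro k hk
  induction k, hk using Nat.le_induction with
  | base => exact ⟨hx, h2, hy, hw⟩
  | succ k hk ih =>
    obtain ⟨a1, a2, a3, a4⟩ := ih
    have hb := h0 k hk
    rw [vx_f hb, vy_f hb, vw_f hb]
    refine ⟨a1, a2, by linarith, ?_⟩
    rw [sub_im, mul_im, a1]
    nlinarith [mul_nonneg (sub_nonneg.2 a2) (neg_nonneg.2 (a4.trans a3).le)]

theorem fanL {β : ℕ → Bool} {m : ℕ} {z : ℂ} (h0 : ∀ k, m ≤ k → β k = true)
    (hy : (vy β m z).im = 0) (h2 : 2 ≤ (vy β m z).re) (hx : 0 < (vx β m z).im)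
    (hw : (vx β m z).im < (vw β m z).im) : ∀ k, m ≤ k →
      (vy β k z).im = 0 ∧ 2 ≤ (vy β k z).re ∧ 0 < (vx β k z).im ∧
        (vx β k z).im < (vw β k z).im := by
  intro k hk
  induction k, hk using Nat.le_induction with
  | base => exact ⟨hy, h2, hx, hw⟩
  | succ k hk ih =>
    obtain ⟨a1, a2, a3, a4⟩ := ih
    have hb := h0 k hk
    rw [vx_t hb, vy_t hb, vw_t hb]
    refine ⟨a1, a2, by linarith, ?_⟩
    rw [sub_im, mul_im, a1]
    nlinarith [mul_nonneg (sub_nonneg.2 a2) (a3.trans a4).le]

/-- Right fan of a real mediant value. -/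
theorem fan_right {β : ℕ → Bool} {n : ℕ} {z : ℂ} (hx : 0 < (vx β n z).im) (hy : (vy β n z).im < 0)
    (hw : (vw β n z).im = 0) (h2 : 2 ≤ (vw β n z).re) (h1 : β n = true)
    (h0 : ∀ k, n < k → β k = false) : ∀ k, n < k → (vw β k z).im < 0 := by
  intro k hk
  have h := fanR (β := β) (m := n + 1) (z := z) (fun k hk => h0 k (by omega))
    (by rw [vx_t h1]; exact hw) (by rw [vx_t h1]; exact h2) (by rw [vy_t h1]; exact hy)
    (by
      rw [vw_t h1, vy_t h1, sub_im, mul_im, hw]
      nlinarith [mul_nonneg (sub_nonneg.2 h2) (neg_nonneg.2 hy.le)]) k hk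
  linarith [h.2.2.1, h.2.2.2]

/-- Left fan of a real mediant value. -/
theorem fan_left {β : ℕ → Bool} {n : ℕ} {z : ℂ} (hx : 0 < (vx β n z).im) (hy : (vy β n z).im < 0)
    (hw : (vw β n z).im = 0) (h2 : 2 ≤ (vw β n z).re) (h1 : β n = false)
    (h0 : ∀ k, n < k → β k = true) : ∀ k, n < k → 0 < (vw β k z).im := by
  intro k hk
  have h := fanL (β := β) (m := n + 1) (z := z) (fun k hk => h0 k (by omega))
    (by rw [vy_f h1]; exact hw) (by rw [vy_f h1]; exact h2) (by rw [vx_f h1]; exact hx)
    (by
      rw [vw_f h1, vx_f h1, sub_im, mul_im, hw]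
      nlinarith [mul_nonneg (sub_nonneg.2 h2) hx.le]) k hk
  linarith [h.2.2.1, h.2.2.2]

/-- The ends have imaginary parts of the right sign at every level of a good path (level `0`
included). -/
theorem good_im {β : ℕ → Bool} {n : ℕ} {z : ℂ} (hz : z ∈ Q) (h : Good β n z) :
    0 < (vx β n z).im ∧ (vy β n z).im < 0 := by
  rcases Nat.eq_zero_or_pos n with rfl | hn
  · rw [vx_zero, vy_zero]
    refine ⟨hz.2, ?_⟩
    have : (-I * z).im = -z.re := by simp
    rw [this]; linarith [hz.1]
  · have e := h n hn le_rfl
    exact ⟨e.2.1, e.2.2.2.1⟩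

/-- Along a good path the mediant values below the end are not real. -/
theorem good_im_ne {β : ℕ → Bool} {n : ℕ} {z : ℂ} (h : Good β n z) :
    ∀ k, k < n → (vw β k z).im ≠ 0 := by
  intro k hk
  have e := h (k + 1) (by omega) (by omega)
  cases hb : β k
  · have := e.2.2.2.1
    rw [vy_f hb] at this
    exact this.ne
  · have := e.2.1
    rw [vx_t hb] at this
    exact this.ne'

/-- The bits at an end point with end value `≥ 2`. -/
theorem end_tail {β : ℕ → Bool} {n : ℕ} {z : ℂ} (hz : z ∈ Q) (h : End β n z)
    (h2 : 2 ≤ (vw β n z).re) : bits z n = true ∧ ∀ k, n < k → bits z k = false := by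
  have hb := good_bits h.1
  have hi := good_im hz h.1
  have hn : bits z n = true := by
    rw [bits_eq, ← vw_congr hb, h.2.1]; simp
  refine ⟨hn, ?_⟩
  intro k
  induction k using Nat.strong_induction_on with
  | _ k ih =>
    intro hk
    let β' : ℕ → Bool := fun j => if j < n then β j else if j = n then true else false
    have e1 : ∀ j, j < n → β j = β' j := fun j hj => by simp [β', hj]
    have e2 : ∀ j, j < k → bits z j = β' j := by
      intro j hj
      rcases Nat.lt_trichotomy j n with h' | h' | h'
      · rw [← hb j h', e1 j h']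
      · subst h'; simp [β', hn]
      · rw [ih j hj h']
        have a1 : ¬ j < n := by omega
        have a2 : ¬ j = n := by omega
        simp [β', a1, a2]
    have h3 := fan_right (β := β') (n := n) (z := z)
      (by rw [← vx_congr e1]; exact hi.1) (by rw [← vy_congr e1]; exact hi.2)
      (by rw [← vw_congr e1]; exact h.2.1) (by rw [← vw_congr e1]; exact h2)
      (by simp [β']) (fun j hj => by
        have a1 : ¬ j < n := by omega
        have a2 : ¬ j = n := by omega
        simp [β', a1, a2]) k hk
    rw [bits_eq, vw_congr e2]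
    simpa using h3

theorem bits_real {z : ℂ} (h : z.im = 0) (h2 : 2 ≤ z.re) (n : ℕ) :
    bits z n = false ∧ (vw (bits z) n z).im ≠ 0 := by
  have key : ∀ k, (vw (fun _ => false) k z).im < 0 := by
    intro k
    have h3 := fanR (β := fun _ => false) (m := 0) (z := z) (fun _ _ => rfl)
      (by rw [vx_zero]; exact h) (by rw [vx_zero]; exact h2)
      (by rw [vy_zero]; simp; linarith)
      (by
        rw [vw_zero_im, vy_zero, h]
        have : (-I * z).im = -z.re := by simp
        rw [this]; nlinarith) k (Nat.zero_le k)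
    linarith [h3.2.2.1, h3.2.2.2]
  have hb : ∀ k, bits z k = false := by
    intro k
    induction k using Nat.strong_induction_on with
    | _ k ih =>
      rw [bits_eq, vw_congr (β' := fun _ => false) ih]
      simpa using key k
  refine ⟨hb n, ?_⟩
  rw [vw_congr (β' := fun _ => false) (fun k _ => hb k)]
  exact (key n).ne

theorem bits_imag {z : ℂ} (h : z.re = 0) (h2 : 2 ≤ z.im) (n : ℕ) :
    bits z n = true ∧ (vw (bits z) n z).im ≠ 0 := by
  have key : ∀ k, 0 < (vw (fun _ => true) k z).im := by
    intro k
    have h3 := fanL (β := fun _ => true) (m := 0) (z := z) (fun _ _ => rfl)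
      (by rw [vy_zero]; simp [h]) (by rw [vy_zero]; simpa using h2)
      (by rw [vx_zero]; linarith)
      (by rw [vw_zero_im, vx_zero, h]; nlinarith) k (Nat.zero_le k)
    linarith [h3.2.2.1, h3.2.2.2]
  have hb : ∀ k, bits z k = true := by
    intro k
    induction k using Nat.strong_induction_on with
    | _ k ih =>
      rw [bits_eq, vw_congr (β' := fun _ => true) ih]
      simpa using (key k).le
  refine ⟨hb n, ?_⟩
  rw [vw_congr (β' := fun _ => true) (fun k _ => hb k)]
  exact (key n).ne'

/-! ## continuity of the code -/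

/-- Continuity when no mediant value is real. -/
theorem code_cont_of_ne {z : ℂ} (h : ∀ n, (vw (bits z) n z).im ≠ 0) : ContinuousAt code z := by
  rw [Metric.continuousAt_iff']
  intro ε hε
  obtain ⟨n, hn⟩ := exists_pow_lt_of_lt_one hε (by norm_num : (1 / 2 : ℝ) < 1)
  have h1 := bits_near (z₀ := z) (n := n) (fun k _ => h k)
  filter_upwards [h1] with z' hz'
  rw [Real.dist_eq]
  exact lt_of_le_of_lt (cod_close hz') hn

theorem cod_dyadic (n : ℕ) : ∀ β β' : ℕ → Bool, (∀ k, k < n → β k = β' k) → β n = true →
    β' n = false → (∀ k, n < k → β k = false) → (∀ k, n < k → β' k = true) →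
    cod β = cod β' := by
  induction n with
  | zero =>
    intro β β' _ h1 h1' h2 h2'
    rw [cod_succ β, cod_succ β', h1, h1']
    have e1 : (fun i => β (i + 1)) = fun _ => false := funext fun i => h2 (i + 1) (by omega)
    have e2 : (fun i => β' (i + 1)) = fun _ => true := funext fun i => h2' (i + 1) (by omega)
    rw [e1, e2, cod_false, cod_true]
    simp
  | succ n ih =>
    intro β β' h0 h1 h1' h2 h2'
    rw [cod_succ β, cod_succ β', h0 0 (by omega),
      ih (fun i => β (i + 1)) (fun i => β' (i + 1)) (fun k hk => h0 (k + 1) (by omega)) h1 h1'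
        (fun k hk => h2 (k + 1) (by omega)) (fun k hk => h2' (k + 1) (by omega))]

/-- If the mediant values of a word are not real at `z₀` and their signs are given by the bits,
then nearby points which start with the first `n + 1` bits follow it. -/
theorem follow {β : ℕ → Bool} {n : ℕ} {z₀ : ℂ}
    (h : ∀ k, n < k → (vw β k z₀).im ≠ 0 ∧ (β k = true ↔ 0 < (vw β k z₀).im)) (m : ℕ) :
    ∀ᶠ z in 𝓝 z₀, (∀ k, k < n + 1 → bits z k = β k) → ∀ k, k < n + 1 + m → bits z k = β k := by
  induction m with
  | zero => exact Eventually.of_forall fun z hz k hk => hz k (by omega)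
  | succ m ih =>
    have h0 := h (n + 1 + m) (by omega)
    have hc : ContinuousAt (fun z => (vw β (n + 1 + m) z).im) z₀ :=
      (continuous_im.comp (cont_vw β (n + 1 + m))).continuousAt
    rcases lt_or_gt_of_ne h0.1 with h2 | h2
    · have h3 : ∀ᶠ z in 𝓝 z₀, (vw β (n + 1 + m) z).im < 0 := hc.eventually_lt_const h2
      have hb : β (n + 1 + m) = false := by
        cases hb : β (n + 1 + m)
        · rfl
        · have := h0.2.1 hb; linarith
      filter_upwards [ih, h3] with z hz1 hz2 hz3 k hk
      have hz4 := hz1 hz3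
      rcases Nat.lt_or_ge k (n + 1 + m) with h' | h'
      · exact hz4 k h'
      · have : k = n + 1 + m := by omega
        subst this
        rw [bits_eq, vw_congr (z := z) hz4, hb]
        simpa using hz2
    · have h3 : ∀ᶠ z in 𝓝 z₀, 0 < (vw β (n + 1 + m) z).im := hc.eventually_const_lt h2
      have hb : β (n + 1 + m) = true := h0.2.2 h2
      filter_upwards [ih, h3] with z hz1 hz2 hz3 k hk
      have hz4 := hz1 hz3
      rcases Nat.lt_or_ge k (n + 1 + m) with h' | h'
      · exact hz4 k h'
      · have : k = n + 1 + m := by omega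
        subst this
        rw [bits_eq, vw_congr (z := z) hz4, hb]
        simpa using hz2.le

/-- Continuity at the end points. -/
theorem code_cont_of_end {β : ℕ → Bool} {n : ℕ} {z : ℂ} (hz : z ∈ Q) (h : End β n z)
    (h2 : 2 ≤ (vw β n z).re) : ContinuousAt code z := by
  have hb := good_bits h.1
  have hi := good_im hz h.1
  have ht := end_tail hz h h2
  let βt : ℕ → Bool := fun j => if j < n then β j else if j = n then true else false
  let βf : ℕ → Bool := fun j => if j < n then β j else if j = n then false else true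
  have et : ∀ j, j < n → β j = βt j := fun j hj => by simp [βt, hj]
  have ef : ∀ j, j < n → β j = βf j := fun j hj => by simp [βf, hj]
  have htn : βt n = true := by simp [βt]
  have hfn : βf n = false := by simp [βf]
  have ht0 : ∀ j, n < j → βt j = false := fun j hj => by
    have a1 : ¬ j < n := by omega
    have a2 : ¬ j = n := by omega
    simp [βt, a1, a2]
  have hf0 : ∀ j, n < j → βf j = true := fun j hj => by
    have a1 : ¬ j < n := by omega
    have a2 : ¬ j = n := by omega
    simp [βf, a1, a2]
  have hcod : cod βt = cod βf :=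
    cod_dyadic n βt βf (fun k hk => (et k hk).symm.trans (ef k hk)) htn hfn ht0 hf0
  have hcode : code z = cod βt := by
    have : bits z = βt := by
      funext j
      rcases Nat.lt_trichotomy j n with h' | h' | h'
      · rw [← hb j h', et j h']
      · subst h'; rw [ht.1, htn]
      · rw [ht.2 j h', ht0 j h']
    rw [code, this]
  have h3 := fan_right (β := βt) (n := n) (z := z)
      (by rw [← vx_congr et]; exact hi.1) (by rw [← vy_congr et]; exact hi.2)
      (by rw [← vw_congr et]; exact h.2.1) (by rw [← vw_congr et]; exact h2) htn ht0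
  have h4 := fan_left (β := βf) (n := n) (z := z)
      (by rw [← vx_congr ef]; exact hi.1) (by rw [← vy_congr ef]; exact hi.2)
      (by rw [← vw_congr ef]; exact h.2.1) (by rw [← vw_congr ef]; exact h2) hfn hf0
  rw [Metric.continuousAt_iff']
  intro ε hε
  obtain ⟨m, hm⟩ := exists_pow_lt_of_lt_one hε (by norm_num : (1 / 2 : ℝ) < 1)
  have g1 := bits_near (z₀ := z) (n := n) (fun k hk => by
    rw [← vw_congr (β := β) (fun j hj => hb j (by omega))]
    exact good_im_ne h.1 k hk)
  have g2 := follow (β := βt) (n := n) (z₀ := z) (fun k hk => by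
    refine ⟨(h3 k hk).ne, ?_⟩
    rw [ht0 k hk]
    constructor
    · intro h'; simp at h'
    · intro h'; have := h3 k hk; linarith) m
  have g3 := follow (β := βf) (n := n) (z₀ := z) (fun k hk => by
    refine ⟨(h4 k hk).ne', ?_⟩
    rw [hf0 k hk]
    simp [h4 k hk]) m
  filter_upwards [g1, g2, g3] with z' hz1 hz2 hz3
  rw [Real.dist_eq]
  have hpow : (1 / 2 : ℝ) ^ (n + 1 + m) ≤ (1 / 2 : ℝ) ^ m :=
    pow_le_pow_of_le_one (by norm_num) (by norm_num) (by omega)
  cases hb' : bits z' n
  · have h5 := hz3 (fun k hk => by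
      rcases Nat.lt_or_ge k n with h' | h'
      · rw [hz1 k h', ← hb k h', ef k h']
      · have : k = n := by omega
        subst this; rw [hb', hfn])
    rw [hcode, hcod]
    exact lt_of_le_of_lt ((cod_close h5).trans hpow) hm
  · have h5 := hz2 (fun k hk => by
      rcases Nat.lt_or_ge k n with h' | h'
      · rw [hz1 k h', ← hb k h', et k h']
      · have : k = n := by omega
        subst this; rw [hb', htn])
    rw [hcode]
    exact lt_of_le_of_lt ((cod_close h5).trans hpow) hm

/-- The closed quadrant. -/
def Qc : Set ℂ := {z | 0 ≤ z.re ∧ 0 ≤ z.im}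

theorem code_cont : ContinuousOn code (closure U ∩ Qc) := by
  rintro z ⟨hU, hq⟩
  apply ContinuousAt.continuousWithinAt
  rcases hq.2.eq_or_lt with h | h
  · have h1 := axis_ge hU (Or.inl h.symm)
    have h2 : 2 ≤ z.re := by
      have e : z = (z.re : ℂ) := by
        apply Complex.ext <;> simp [h.symm]
      rw [e, Complex.norm_real, Real.norm_eq_abs, abs_of_nonneg hq.1] at h1
      exact h1
    exact code_cont_of_ne fun n => (bits_real h.symm h2 n).2
  rcases hq.1.eq_or_lt with h' | h'
  · have h1 := axis_ge hU (Or.inr h'.symm)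
    have h2 : 2 ≤ z.im := by
      have e : z = (z.im : ℂ) * I := by
        apply Complex.ext <;> simp [h'.symm]
      rw [e, norm_mul, Complex.norm_I, mul_one, Complex.norm_real, Real.norm_eq_abs,
        abs_of_nonneg hq.2] at h1
      exact h1
    exact code_cont_of_ne fun n => (bits_imag h'.symm h2 n).2
  have hz : z ∈ Q := ⟨h', h⟩
  rcases path_exists hz hU with h1 | ⟨n, h1⟩
  · exact code_cont_of_ne fun n => good_im_ne (h1 (n + 1)) n (by omega)
  · have h2 := real_ge hU h1.2.1
    rw [abs_of_pos h1.2.2] at h2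
    exact code_cont_of_end hz h1 h2

end Pool.Agent.Loc
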