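import Pool.Agent.Loc.WrA

set_option autoImplicit false

/-!
# Loc: the values on `U` and on its closure; link with the polynomials `P v` (helper67)
-/

namespace Pool.Agent.Loc

open Complex Pool.Agent.FZC Pool.Agent.FZE Metric Filter Topology Polynomial

/-! ### Sign words -/

/-- The product of the matrices `(z, -b; 1, 0)`. -/
noncomputable def AA (z : ℂ) : List Bool → Matrix (Fin 2) (Fin 2) ℂ
  | [] => 1
  | b :: L => !![z, -sg b; 1, 0] * AA z L

theorem AA_append (z : ℂ) (L L' : List Bool) : AA z (L ++ L') = AA z L * AA z L' := by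
  induction L with
  | nil => simp [AA]
  | cons b L ih => simp [AA, ih, mul_assoc]

theorem AA_col (z : ℂ) (L : List Bool) (b : Bool) :
    AA z (L ++ [b]) 0 0 = (KK L).1.eval z ∧ AA z (L ++ [b]) 1 0 = (KK L).2.eval z := by
  induction L with
  | nil => simp [AA, KK]
  | cons a L ih =>
    obtain ⟨h1, h2⟩ := ih
    simp only [List.cons_append, AA, Matrix.mul_apply, Fin.sum_univ_two, KK]
    simp [h1, h2]
    ring

/-- Unit and sign word of the left end and of the right end. -/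
noncomputable def sq (β : ℕ → Bool) : ℕ → (ℂ × List Bool) × (ℂ × List Bool)
  | 0 => ((1, [true]), (-I, [false]))
  | n + 1 => if β n then
      (((sq β n).1.1 * (sq β n).2.1, (sq β n).1.2 ++ (sq β n).2.2), (sq β n).2)
      else ((sq β n).1, ((sq β n).1.1 * (sq β n).2.1, (sq β n).1.2 ++ (sq β n).2.2))

/-- Units. -/
def Un (u : ℂ) : Prop := ‖u‖ = 1 ∧ u ^ 4 = 1

theorem Un.mul {u v : ℂ} (hu : Un u) (hv : Un v) : Un (u * v) :=
  ⟨by rw [norm_mul, hu.1, hv.1, one_mul], by rw [mul_pow, hu.2, hv.2, one_mul]⟩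

theorem sq_unit (β : ℕ → Bool) (n : ℕ) : (Un (sq β n).1.1 ∧ (sq β n).1.2 ≠ []) ∧
    (Un (sq β n).2.1 ∧ (sq β n).2.2 ≠ []) := by
  induction n with
  | zero =>
    refine ⟨⟨⟨by simp [sq], by simp [sq]⟩, by simp [sq]⟩, ⟨by simp [sq], ?_⟩, by simp [sq]⟩
    simp only [sq]
    rw [Even.neg_pow (by decide), Complex.I_pow_four]
  | succ n ih =>
    obtain ⟨⟨h1, h2⟩, h3, h4⟩ := ih
    cases hb : β n
    · simp only [sq, hb]
      exact ⟨⟨h1, h2⟩, h1.mul h3, by simp [h2]⟩
    · simp only [sq, hb]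
      exact ⟨⟨h1.mul h3, by simp [h2]⟩, h3, h4⟩

/-- `T P` is a unit times a product of sign matrices (plane `w`). -/
theorem sq_eq (z : ℂ) (β : ℕ → Bool) (n : ℕ) :
    ((ev z (.T :: wl β n) : SLC) : Matrix (Fin 2) (Fin 2) ℂ) =
        (sq β n).1.1 • AA z (sq β n).1.2 ∧
    ((ev z (.T :: wr β n) : SLC) : Matrix (Fin 2) (Fin 2) ℂ) =
        (sq β n).2.1 • AA z (sq β n).2.2 := by
  induction n with
  | zero =>
    constructor
    · simp only [wl, wp, ev_cons, ev_nil, mul_one, sq, AA, one_smul]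
      ext i j
      fin_cases i <;> fin_cases j
      · simpa [sl, sg, mul00] using (by simp [mul00, mul01, mul10] : (mT z * (mE * mI)) 0 0 = z)
      · simpa [sl, sg] using (by simp [mul00, mul01, mul11] : (mT z * (mE * mI)) 0 1 = -1)
      · simpa [sl, sg] using (by simp [mul00, mul01, mul10, mul11] : (mT z * (mE * mI)) 1 0 = 1)
      · simpa [sl, sg] using (by simp [mul00, mul01, mul10, mul11] : (mT z * (mE * mI)) 1 1 = 0)
    · simp only [wr, wp, ev_cons, ev_nil, mul_one, sq, AA]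
      ext i j
      fin_cases i <;> fin_cases j
      · simpa [sl, sg] using (by simp [mul00, inv00, inv10]; ring : (mT z * mI⁻¹) 0 0 = -(I * z))
      · simpa [sl, sg] using (by simp [mul01, inv01, inv11] : (mT z * mI⁻¹) 0 1 = -I)
      · simpa [sl, sg] using (by simp [mul10, inv00, inv10] : (mT z * mI⁻¹) 1 0 = -I)
      · simpa [sl, sg] using (by simp [mul11, inv01, inv11] : (mT z * mI⁻¹) 1 1 = 0)
  | succ n ih =>
    obtain ⟨h1, h2⟩ := ih
    have h3 : ((ev z (.T :: ww β n) : SLC) : Matrix (Fin 2) (Fin 2) ℂ) =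
        ((sq β n).1.1 * (sq β n).2.1) • AA z ((sq β n).1.2 ++ (sq β n).2.2) := by
      have e1 : ev z (.T :: ww β n) = ev z (.T :: wl β n) * ev z (.T :: wr β n) := by
        rw [ww, ← ev_append, List.cons_append]
      rw [e1, Matrix.SpecialLinearGroup.coe_mul, h1, h2, AA_append, Matrix.smul_mul,
        Matrix.mul_smul, smul_smul]
    cases hb : β n with
    | true =>
      have e1 : wl β (n + 1) = ww β n := by simp [wl, wp, hb, ww, wr]
      have e2 : wr β (n + 1) = wr β n := by simp [wr, wp, hb]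
      have e3 : sq β (n + 1) = (((sq β n).1.1 * (sq β n).2.1, (sq β n).1.2 ++ (sq β n).2.2),
          (sq β n).2) := by simp [sq, hb]
      rw [e1, e2, e3]
      exact ⟨h3, h2⟩
    | false =>
      have e1 : wl β (n + 1) = wl β n := by simp [wl, wp, hb]
      have e2 : wr β (n + 1) = ww β n := by simp [wr, wp, hb, ww, wl]
      have e3 : sq β (n + 1) = ((sq β n).1,
          ((sq β n).1.1 * (sq β n).2.1, (sq β n).1.2 ++ (sq β n).2.2)) := by simp [sq, hb]
      rw [e1, e2, e3]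
      exact ⟨h1, h3⟩

theorem sq_eq_w (z : ℂ) (β : ℕ → Bool) (n : ℕ) :
    ((ev z (.T :: ww β n) : SLC) : Matrix (Fin 2) (Fin 2) ℂ) =
        ((sq β n).1.1 * (sq β n).2.1) • AA z ((sq β n).1.2 ++ (sq β n).2.2) := by
  have e1 : ev z (.T :: ww β n) = ev z (.T :: wl β n) * ev z (.T :: wr β n) := by
    rw [ww, ← ev_append, List.cons_append]
  rw [e1, Matrix.SpecialLinearGroup.coe_mul, (sq_eq z β n).1, (sq_eq z β n).2, AA_append,
    Matrix.smul_mul, Matrix.mul_smul, smul_smul]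

/-- The three cases together: `g` is the word of an involution with value `V`. -/
def Vl (g : List Lt) (V : ℂ → ℂ) : Prop :=
  (∀ z, z ≠ 0 → z * ev z g 1 0 = V z ∧ ev z g 0 0 + ev z g 1 1 = 0) ∧
    ∃ (u : ℂ) (L : List Bool), Un u ∧ L ≠ [] ∧
      ∀ z, ((ev z (.T :: g) : SLC) : Matrix (Fin 2) (Fin 2) ℂ) = u • AA z L

theorem Vl_l (β : ℕ → Bool) (n : ℕ) : Vl (wl β n) (vx β n) := by
  refine ⟨fun z hz => ?_, (sq β n).1.1, (sq β n).1.2, (sq_unit β n).1.1, (sq_unit β n).1.2,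
    fun z => (sq_eq z β n).1⟩
  obtain ⟨h1, h2, h3, h4⟩ := MM_ev hz (wl β n)
  rw [← h3, ← h1, ← h4]
  exact wl_eq hz β n

theorem Vl_r (β : ℕ → Bool) (n : ℕ) : Vl (wr β n) (vy β n) := by
  refine ⟨fun z hz => ?_, (sq β n).2.1, (sq β n).2.2, (sq_unit β n).2.1, (sq_unit β n).2.2,
    fun z => (sq_eq z β n).2⟩
  obtain ⟨h1, h2, h3, h4⟩ := MM_ev hz (wr β n)
  rw [← h3, ← h1, ← h4]
  exact wr_eq hz β n

theorem Vl_w (β : ℕ → Bool) (n : ℕ) : Vl (ww β n) (vw β n) := by
  refine ⟨fun z hz => ?_, (sq β n).1.1 * (sq β n).2.1, (sq β n).1.2 ++ (sq β n).2.2,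
    (sq_unit β n).1.1.mul (sq_unit β n).2.1, by simp [(sq_unit β n).1.2], fun z => sq_eq_w z β n⟩
  obtain ⟨h1, h2, h3, h4⟩ := MM_ev hz (ww β n)
  rw [← h3, ← h1, ← h4]
  exact ww_eq hz β n

/-! ### Values and the polynomials `P v` -/

theorem continuous_state (β : ℕ → Bool) (n : ℕ) :
    Continuous (vx β n) ∧ Continuous (vy β n) ∧ Continuous (vw β n) := by
  induction n with
  | zero =>
    refine ⟨?_, ?_, ?_⟩
    · exact continuous_id
    · show Continuous fun z : ℂ => -I * z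
      fun_prop
    · show Continuous fun z : ℂ => -I * z ^ 2
      fun_prop
  | succ n ih =>
    obtain ⟨h1, h2, h3⟩ := ih
    cases hb : β n with
    | true =>
      have f1 : vx β (n + 1) = vw β n := by ext z; simp [vx, vw, st, step, hb]
      have f2 : vy β (n + 1) = vy β n := by ext z; simp [vy, st, step, hb]
      have f3 : vw β (n + 1) = fun z => vw β n z * vy β n z - vx β n z := by
        ext z; simp [vw, vy, vx, st, step, hb]
      rw [f1, f2, f3]
      exact ⟨h3, h2, (h3.mul h2).sub h1⟩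
    | false =>
      have f1 : vx β (n + 1) = vx β n := by ext z; simp [vx, st, step, hb]
      have f2 : vy β (n + 1) = vw β n := by ext z; simp [vy, vw, st, step, hb]
      have f3 : vw β (n + 1) = fun z => vx β n z * vw β n z - vy β n z := by
        ext z; simp [vw, vy, vx, st, step, hb]
      rw [f1, f2, f3]
      exact ⟨h1, h3, (h1.mul h3).sub h2⟩

/-- Values are units times values of the `P v`, or of `z`. -/
theorem Vl.eq_P {g : List Lt} {V : ℂ → ℂ} (h : Vl g V) {L : List Bool} {u : ℂ}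
    (hu : ∀ z, ((ev z (.T :: g) : SLC) : Matrix (Fin 2) (Fin 2) ℂ) = u • AA z L) :
    (∀ b, L = [b] → ∀ z, z ≠ 0 → V z = u * z) ∧
      ∀ a v b, L = a :: (v ++ [b]) → ∀ z, z ≠ 0 → V z = u * (P v).eval z := by
  have key : ∀ z, z ≠ 0 → V z = z * (u * AA z L 1 0) := by
    intro z hz
    have h1 := congrFun (congrFun (hu z) 1) 0
    rw [Matrix.smul_apply, smul_eq_mul] at h1
    rw [← h1, ← (h.1 z hz).1, ev_cons, mul10]
    simp [sl]
  constructor
  · rintro b rfl z hz
    rw [key z hz]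
    simp [AA]
    ring
  · rintro a v b rfl z hz
    rw [key z hz]
    have h2 := (AA_col z (a :: v) b).2
    simp only [List.cons_append] at h2
    rw [h2]
    simp [KK, P, D]
    ring

theorem of_ne_zero {V W : ℂ → ℂ} (hV : Continuous V) (hW : Continuous W)
    (h : ∀ z, z ≠ 0 → V z = W z) : ∀ z, V z = W z := by
  have h1 : Set.EqOn V W {0}ᶜ := fun z hz => h z hz
  have h2 : Dense ({0}ᶜ : Set ℂ) := dense_compl_singleton 0
  exact fun z => congrFun (Continuous.ext_on h2 hV hW h1) z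

theorem list_cases {L : List Bool} (hL : L ≠ []) :
    (∃ b, L = [b]) ∨ ∃ a v b, L = a :: (v ++ [b]) := by
  cases L with
  | nil => exact absurd rfl hL
  | cons a L' =>
    rcases List.eq_nil_or_concat L' with h | ⟨v, b, h⟩
    · exact Or.inl ⟨a, by rw [h]⟩
    · exact Or.inr ⟨a, v, b, by rw [h, List.concat_eq_append]⟩

theorem Vl.cases {g : List Lt} {V : ℂ → ℂ} (h : Vl g V) (hV : Continuous V) :
    (∃ u : ℂ, ‖u‖ = 1 ∧ u ^ 4 = 1 ∧ ∀ z, V z = u * z) ∨
      ∃ (v : List Bool) (u : ℂ), ‖u‖ = 1 ∧ u ^ 4 = 1 ∧ ∀ z, V z = u * (P v).eval z := by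
  obtain ⟨u, L, hu, hL, he⟩ := h.2
  obtain ⟨h1, h2⟩ := h.eq_P he
  rcases list_cases hL with ⟨b, hb⟩ | ⟨a, v, b, hb⟩
  · exact Or.inl ⟨u, hu.1, hu.2, of_ne_zero hV (by fun_prop) (h1 b hb)⟩
  · exact Or.inr ⟨v, u, hu.1, hu.2, of_ne_zero hV (by
      exact continuous_const.mul (P v).continuous) (h2 a v b hb)⟩

theorem vx_eq_P (β : ℕ → Bool) (n : ℕ) : (∃ u : ℂ, ‖u‖ = 1 ∧ u ^ 4 = 1 ∧ ∀ z, vx β n z = u * z) ∨
    ∃ (v : List Bool) (u : ℂ), ‖u‖ = 1 ∧ u ^ 4 = 1 ∧ ∀ z, vx β n z = u * (P v).eval z :=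
  (Vl_l β n).cases (continuous_state β n).1

theorem vy_eq_P (β : ℕ → Bool) (n : ℕ) : (∃ u : ℂ, ‖u‖ = 1 ∧ u ^ 4 = 1 ∧ ∀ z, vy β n z = u * z) ∨
    ∃ (v : List Bool) (u : ℂ), ‖u‖ = 1 ∧ u ^ 4 = 1 ∧ ∀ z, vy β n z = u * (P v).eval z :=
  (Vl_r β n).cases (continuous_state β n).2.1

/-- Every mediant value is a unit times a value of some `P v`. -/
theorem vw_eq_P (β : ℕ → Bool) (n : ℕ) : ∃ (v : List Bool) (u : ℂ), ‖u‖ = 1 ∧ u ^ 4 = 1 ∧
    ∀ z, vw β n z = u * (P v).eval z := by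
  have hL : ∃ a v b, (sq β n).1.2 ++ (sq β n).2.2 = a :: (v ++ [b]) := by
    rcases list_cases (L := (sq β n).1.2 ++ (sq β n).2.2) (by simp [(sq_unit β n).1.2]) with
      ⟨b, hb⟩ | h
    · exfalso
      have h1 := List.length_pos_iff.2 (sq_unit β n).1.2
      have h2 := List.length_pos_iff.2 (sq_unit β n).2.2
      have h3 := congrArg List.length hb
      rw [List.length_append, List.length_singleton] at h3
      omega
    · exact h
  obtain ⟨a, v, b, hb⟩ := hL
  have hu := (sq_unit β n).1.1.mul (sq_unit β n).2.1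
  exact ⟨v, _, hu.1, hu.2, of_ne_zero (continuous_state β n).2.2
    (continuous_const.mul (P v).continuous)
    (((Vl_w β n).eq_P (sq_eq_w · β n)).2 a v b hb)⟩

/-! ### Real values on `U` -/

theorem AA_rep (z : ℂ) (L : List Bool) (k : ℕ) :
    AA z L ^ k = AA z (List.replicate k L).flatten := by
  induction k with
  | zero => simp [AA]
  | succ k ih => rw [pow_succ', ih, List.replicate_succ, List.flatten_cons, AA_append]

/-- Powers of an elliptic or parabolic matrix grow at most linearly. -/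
theorem pow_lin {H : Matrix (Fin 2) (Fin 2) ℂ} (hd : H.det = 1) {t : ℝ}
    (ht : H 0 0 + H 1 1 = t) (h2 : |t| ≤ 2) :
    ∃ c : ℝ, 0 ≤ c ∧ ∀ k : ℕ, ‖(H ^ k) 0 0‖ ≤ 1 + k * c := by
  obtain ⟨μ, hμ1, hμ2⟩ : ∃ μ : ℂ, ‖μ‖ = 1 ∧ μ * μ = t * μ - 1 := by
    have h4 : 0 ≤ 4 - t ^ 2 := by nlinarith [abs_le.1 h2]
    refine ⟨⟨t / 2, Real.sqrt (4 - t ^ 2) / 2⟩, ?_, ?_⟩
    · rw [Complex.norm_def, Complex.normSq_mk]
      have h5 := Real.mul_self_sqrt h4
      rw [show t / 2 * (t / 2) + Real.sqrt (4 - t ^ 2) / 2 * (Real.sqrt (4 - t ^ 2) / 2) = 1 by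
        linarith]
      exact Real.sqrt_one
    · have h5 := Real.mul_self_sqrt h4
      apply Complex.ext
      · simp
        linarith
      · simp
        ring
  have hrec : ∀ k, (H ^ (k + 2)) 0 0 = t * (H ^ (k + 1)) 0 0 - (H ^ k) 0 0 := by
    intro k
    have h1 : H ^ (k + 2) = (t : ℂ) • H ^ (k + 1) - H ^ k := by
      have h3 : H * H = (t : ℂ) • H - 1 := by rw [CH, ht, hd, one_smul]
      rw [pow_add, pow_two, h3, mul_sub, mul_one, Matrix.mul_smul, ← pow_succ]
    rw [h1]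
    simp
  have hμ0 : μ ≠ 0 := by
    rintro rfl
    rw [norm_zero] at hμ1
    exact zero_ne_one hμ1
  have hc : ∀ k, ‖(H ^ (k + 1)) 0 0 - μ * (H ^ k) 0 0‖ = ‖(H ^ 1) 0 0 - μ * (H ^ 0) 0 0‖ := by
    intro k
    induction k with
    | zero => rw [zero_add]
    | succ k ih =>
      rw [← ih]
      have h3 : μ * ((H ^ (k + 1 + 1)) 0 0 - μ * (H ^ (k + 1)) 0 0) =
          (H ^ (k + 1)) 0 0 - μ * (H ^ k) 0 0 := by
        rw [hrec k]
        linear_combination (-(H ^ (k + 1)) 0 0) * hμ2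
      rw [← h3, norm_mul, hμ1, one_mul]
  refine ⟨‖(H ^ 1) 0 0 - μ * (H ^ 0) 0 0‖, norm_nonneg _, fun k => ?_⟩
  induction k with
  | zero => simp
  | succ k ih =>
    have h3 := hc k
    have h4 : ‖(H ^ (k + 1)) 0 0‖ ≤ ‖(H ^ (k + 1)) 0 0 - μ * (H ^ k) 0 0‖ + ‖(H ^ k) 0 0‖ := by
      calc ‖(H ^ (k + 1)) 0 0‖ = ‖((H ^ (k + 1)) 0 0 - μ * (H ^ k) 0 0) + μ * (H ^ k) 0 0‖ := by
            congr 1; ring
        _ ≤ _ := norm_add_le _ _
        _ = _ := by rw [norm_mul, hμ1, one_mul]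
    rw [h3] at h4
    push_cast
    linarith

theorem exp_beats {κ c A B : ℝ} (hκ : 1 < κ) (hc : 0 < c) :
    ∃ k : ℕ, 1 ≤ k ∧ A + k * B < c * κ ^ k := by
  have h1 : Tendsto (fun k : ℕ => ((A + k * B) / κ ^ k : ℝ)) atTop (𝓝 0) := by
    have h2 := tendsto_pow_const_div_const_pow_of_one_lt 1 hκ
    have h3 := tendsto_pow_const_div_const_pow_of_one_lt 0 hκ
    have h4 := (h3.const_mul A).add (h2.const_mul B)
    rw [mul_zero, mul_zero, add_zero] at h4
    refine h4.congr fun k => ?_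
    rw [pow_zero, pow_one]
    ring
  have h5 := (h1.eventually (gt_mem_nhds hc)).and (eventually_ge_atTop 1)
  obtain ⟨k, hk, hk1⟩ := h5.exists
  refine ⟨k, hk1, ?_⟩
  rwa [div_lt_iff₀ (by positivity)] at hk

theorem zero_not_mem {z : ℂ} (hz : z ∈ U) : z ≠ 0 := by
  rintro rfl
  exact hz (Pool.Agent.FZR.E_subset ⟨[], by simp [D, KK]⟩)

/-- Real values on `U` are outside `[-2, 2]`. -/
theorem Vl.real_gt {g : List Lt} {V : ℂ → ℂ} (h : Vl g V) {z : ℂ} (hz : z ∈ U)
    (hi : (V z).im = 0) : 2 < |(V z).re| := by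
  by_contra hcon
  push Not at hcon
  have hz0 := zero_not_mem hz
  obtain ⟨u, L, hu, hL, he⟩ := h.2
  obtain ⟨hv, htr⟩ := h.1 z hz0
  obtain ⟨κ, c, hκ, hc, hG⟩ := Pool.Agent.FZR.Gr_of_not_mem hz
  have hκ0 : 0 < κ := by linarith
  have hzn : 0 < ‖z‖ := norm_pos_iff.2 hz0
  set H : Matrix (Fin 2) (Fin 2) ℂ := ((ev z (.T :: g) : SLC) : Matrix (Fin 2) (Fin 2) ℂ) with hH
  have hd : H.det = 1 := (ev z (.T :: g)).det_coe
  have ht : H 0 0 + H 1 1 = (((V z).re : ℝ) : ℂ) := by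
    have h1 : (((V z).re : ℝ) : ℂ) = V z := Complex.ext (by simp) (by simp [hi])
    rw [h1, ← hv, hH, ev_cons]
    show (sl z .T * ev z g) 0 0 + (sl z .T * ev z g) 1 1 = _
    rw [mul00, mul11]
    simp [sl]
    linear_combination htr
  obtain ⟨B, hB, hlin⟩ := pow_lin hd ht hcon
  -- growth
  have hm : 1 ≤ L.length := List.length_pos_iff.2 hL
  have hgrow : ∀ k : ℕ, 1 ≤ k → c / ‖z‖ * κ ^ (k * L.length - 1) ≤ ‖(H ^ k) 0 0‖ := by
    intro k hk
    have he' : H = u • AA z L := he z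
    rw [he', _root_.smul_pow, AA_rep, Matrix.smul_apply, smul_eq_mul, norm_mul, norm_pow, hu.1, one_pow,
      one_mul]
    have hlen : (List.replicate k L).flatten.length = k * L.length := by simp
    have hne : (List.replicate k L).flatten ≠ [] := by
      rw [← List.length_pos_iff, hlen]
      exact Nat.mul_pos (by omega) (by omega)
    obtain ⟨v, b, hvb⟩ : ∃ v b, (List.replicate k L).flatten = v ++ [b] := by
      rcases List.eq_nil_or_concat (List.replicate k L).flatten with h1 | ⟨v, b, h1⟩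
      · exact absurd h1 hne
      · exact ⟨v, b, by rw [h1, List.concat_eq_append]⟩
    rw [hvb, (AA_col z v b).1]
    have h2 := hG v
    have h3 : (P v).eval z = z * (KK v).1.eval z := by simp [P, D]
    rw [h3, norm_mul] at h2
    have h4 : v.length = k * L.length - 1 := by
      have := congrArg List.length hvb
      rw [hlen, List.length_append, List.length_singleton] at this
      omega
    rw [← h4, div_mul_eq_mul_div, div_le_iff₀ hzn]
    linarith
  obtain ⟨k, hk1, hk⟩ := exp_beats (A := 1) (B := B) hκ (c := c / ‖z‖ / κ) (by positivity)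
  have h1 := hgrow k hk1
  have h2 := hlin k
  have h3 : c / ‖z‖ / κ * κ ^ k ≤ c / ‖z‖ * κ ^ (k * L.length - 1) := by
    have h4 : κ ^ k / κ = κ ^ (k - 1) := by
      rw [div_eq_iff hκ0.ne', ← pow_succ]
      congr 1
      omega
    have h5 : κ ^ (k - 1) ≤ κ ^ (k * L.length - 1) := by
      apply pow_le_pow_right₀ hκ.le
      have : k * 1 ≤ k * L.length := Nat.mul_le_mul_left k hm
      omega
    calc c / ‖z‖ / κ * κ ^ k = c / ‖z‖ * (κ ^ k / κ) := by ring
      _ = c / ‖z‖ * κ ^ (k - 1) := by rw [h4]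
      _ ≤ _ := mul_le_mul_of_nonneg_left h5 (by positivity)
  linarith

theorem Vl.ne_zero {g : List Lt} {V : ℂ → ℂ} (h : Vl g V) {z : ℂ} (hz : z ∈ U) : V z ≠ 0 := by
  intro h0
  have := h.real_gt hz (by rw [h0]; rfl)
  rw [h0] at this
  simp at this
  linarith

theorem shim {z : ℂ} (hz : z ∈ U) {g : SLC} (hg : g ∈ GG z) (h0 : g 1 0 ≠ 0) :
    1 ≤ ‖z * g 1 0‖ := by
  obtain ⟨K, hK, hc, -⟩ := exists_continuum hz
  exact shimizu hK hc hg h0

theorem Vl.ge_one {g : List Lt} {V : ℂ → ℂ} (h : Vl g V) (hV : Continuous V) {z : ℂ}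
    (hz : z ∈ closure U) : 1 ≤ ‖V z‖ := by
  have h1 : closure U ⊆ {z | 1 ≤ ‖V z‖} := by
    apply closure_minimal _ (isClosed_le continuous_const hV.norm)
    intro w hw
    have hw0 := zero_not_mem hw
    have h2 := h.ne_zero hw
    show 1 ≤ ‖V w‖
    rw [← (h.1 w hw0).1] at h2 ⊢
    exact shim hw (ev_mem w g) (right_ne_zero_of_mul h2)
  exact h1 hz

/-- Chebyshev type values: `W 0 = 0`, `W 1 = V`, `W (k + 2) = V * W (k + 1) - W k`. -/
def cheb (V : ℂ) : ℕ → ℂ
  | 0 => 0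
  | 1 => V
  | k + 2 => V * cheb V (k + 1) - cheb V k

theorem cheb_sin (θ : ℝ) (k : ℕ) :
    cheb ((2 * Real.cos θ : ℝ) : ℂ) k * (Real.sin θ : ℂ) =
      ((2 * Real.cos θ * Real.sin (k * θ) : ℝ) : ℂ) := by
  induction k using Nat.strong_induction_on with
  | _ k ih =>
    match k with
    | 0 => simp [cheb]
    | 1 => simp [cheb]
    | k + 2 =>
      have h1 := ih (k + 1) (by omega)
      have h2 := ih k (by omega)
      rw [cheb, sub_mul, mul_assoc, h1, h2]
      rw [← Complex.ofReal_mul, ← Complex.ofReal_sub]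
      congr 1
      push_cast
      have e1 : ((k : ℝ) + 2) * θ = (k + 1) * θ + θ := by ring
      have e2 : (k : ℝ) * θ = (k + 1) * θ - θ := by ring
      rw [e1, e2, Real.sin_add, Real.sin_sub]
      ring

theorem cheb_continuous (k : ℕ) : Continuous fun V : ℂ => cheb V k := by
  induction k using Nat.strong_induction_on with
  | _ k ih =>
    match k with
    | 0 => exact continuous_const
    | 1 => exact continuous_id
    | k + 2 =>
      exact (continuous_id.mul (ih (k + 1) (by omega))).sub (ih k (by omega))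

/-- The powers of `T P`: lower left entries. -/
theorem Vl.pow {g : List Lt} {V : ℂ → ℂ} (h : Vl g V) {z : ℂ} (hz : z ≠ 0) (k : ℕ) :
    ∃ q ∈ GG z, z * q 1 0 = cheb (V z) k := by
  obtain ⟨hv, htr⟩ := h.1 z hz
  refine ⟨ev z (.T :: g) ^ k, (GG z).pow_mem (ev_mem z _) k, ?_⟩
  set H : Matrix (Fin 2) (Fin 2) ℂ := ((ev z (.T :: g) : SLC) : Matrix (Fin 2) (Fin 2) ℂ) with hH
  have hd : H.det = 1 := (ev z (.T :: g)).det_coe
  have ht : H 0 0 + H 1 1 = V z := by
    rw [← hv, hH, ev_cons]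
    show (sl z .T * ev z g) 0 0 + (sl z .T * ev z g) 1 1 = _
    rw [mul00, mul11]
    simp [sl]
    linear_combination htr
  have hrec : ∀ k, H ^ (k + 2) = V z • H ^ (k + 1) - H ^ k := by
    intro k
    have h3 : H * H = (V z) • H - 1 := by rw [CH, ht, hd, one_smul]
    rw [pow_add, pow_two, h3, mul_sub, mul_one, Matrix.mul_smul, ← pow_succ]
  have hpow : ∀ k, ((ev z (.T :: g) ^ k : SLC) : Matrix (Fin 2) (Fin 2) ℂ) = H ^ k := by
    intro k
    rw [Matrix.SpecialLinearGroup.coe_pow]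
  have key : ∀ k, z * (H ^ k) 1 0 = cheb (V z) k := by
    intro k
    induction k using Nat.strong_induction_on with
    | _ k ih =>
      match k with
      | 0 => simp [cheb]
      | 1 =>
        rw [pow_one, cheb, ← hv, hH, ev_cons]
        show z * (sl z .T * ev z g) 1 0 = _
        rw [mul10]
        simp [sl]
      | k + 2 =>
        rw [hrec, cheb, ← ih (k + 1) (by omega), ← ih k (by omega)]
        simp
        ring
  show z * ((ev z (.T :: g) ^ k : SLC) : Matrix (Fin 2) (Fin 2) ℂ) 1 0 = _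
  rw [hpow]
  exact key k

/-- On `U` the Chebyshev values do not vanish. -/
theorem Vl.cheb_ne {g : List Lt} {V : ℂ → ℂ} (h : Vl g V) {z : ℂ} (hz : z ∈ U) {k : ℕ}
    (hk : 1 ≤ k) : cheb (V z) k ≠ 0 := by
  intro h0
  have hV0 := h.ne_zero hz
  set v : ℂ := V z with hv
  obtain ⟨s, hs⟩ : ∃ s : ℂ, s ^ 2 = v ^ 2 - 4 := IsAlgClosed.exists_pow_nat_eq _ (by norm_num)
  set μ : ℂ := (v + s) / 2 with hμ
  have hq : μ * (v - μ) = 1 := by
    rw [hμ]
    linear_combination (-1 / 4) * hs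
  have hμ0 : μ ≠ 0 := left_ne_zero_of_mul_eq_one hq
  have hinv : μ⁻¹ = v - μ := inv_eq_of_mul_eq_one_right hq
  have hnorm : ‖μ‖ ≠ 1 := by
    intro h1
    have h2 : μ⁻¹ = (starRingEnd ℂ) μ := by
      rw [Complex.inv_def, Complex.normSq_eq_norm_sq, h1]
      simp
    have h3 : v = μ + (starRingEnd ℂ) μ := by rw [← h2, hinv]; ring
    have h4 : v.im = 0 := by rw [h3]; simp
    have h5 : v.re = 2 * μ.re := by rw [h3]; simp; ring
    have h6 := h.real_gt hz h4
    rw [← hv, h5, abs_mul, abs_two] at h6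
    have h7 := Complex.abs_re_le_norm μ
    rw [h1] at h7
    linarith
  have key : ∀ k, cheb v k * (μ - μ⁻¹) = v * (μ ^ k - μ⁻¹ ^ k) := by
    intro k
    induction k using Nat.strong_induction_on with
    | _ k ih =>
      match k with
      | 0 => simp [cheb]
      | 1 => simp [cheb]
      | k + 2 =>
        have h1 := ih (k + 1) (by omega)
        have h2 := ih k (by omega)
        have h3 : v = μ + μ⁻¹ := by rw [hinv]; ring
        have h4 : μ * μ⁻¹ = 1 := mul_inv_cancel₀ hμ0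
        rw [cheb, sub_mul, mul_assoc, h1, h2]
        generalize μ⁻¹ = ν at *
        rw [h3]
        linear_combination (μ + ν) * (μ ^ k - ν ^ k) * h4
  have h1 := key k
  rw [h0, zero_mul] at h1
  have h2 : μ ^ k - μ⁻¹ ^ k = 0 := (mul_eq_zero.1 h1.symm).resolve_left hV0
  apply hnorm
  have h3 : μ ^ (k + k) = 1 := by
    rw [pow_add]
    nth_rewrite 2 [sub_eq_zero.1 h2]
    rw [← mul_pow, mul_inv_cancel₀ hμ0, one_pow]
  have h4 : ‖μ‖ ^ (k + k) = 1 := by rw [← norm_pow, h3, norm_one]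
  exact (pow_eq_one_iff_of_nonneg (norm_nonneg _) (by omega)).1 h4

theorem Vl.cheb_ge {g : List Lt} {V : ℂ → ℂ} (h : Vl g V) (hV : Continuous V) {z : ℂ}
    (hz : z ∈ closure U) {k : ℕ} (hk : 1 ≤ k) : 1 ≤ ‖cheb (V z) k‖ := by
  have h1 : closure U ⊆ {z | 1 ≤ ‖cheb (V z) k‖} := by
    apply closure_minimal _ (isClosed_le continuous_const ((cheb_continuous k).comp hV).norm)
    intro w hw
    have hw0 := zero_not_mem hw
    have h2 := h.cheb_ne hw hk
    show 1 ≤ ‖cheb (V w) k‖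
    obtain ⟨q, hq, he⟩ := h.pow hw0 k
    rw [← he] at h2 ⊢
    exact shim hw hq (right_ne_zero_of_mul h2)
  exact h1 hz

theorem Vl.real_ge {g : List Lt} {V : ℂ → ℂ} (h : Vl g V) (hV : Continuous V) {z : ℂ}
    (hz : z ∈ closure U) (hi : (V z).im = 0) : 2 ≤ |(V z).re| := by
  by_contra hcon
  push Not at hcon
  obtain ⟨hc1, hc2⟩ := abs_lt.1 hcon
  set t : ℝ := (V z).re with ht
  set θ : ℝ := Real.arccos (t / 2) with hθ
  have hcos : 2 * Real.cos θ = t := by
    rw [hθ, Real.cos_arccos (by linarith) (by linarith)]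
    ring
  have hsin : 0 < Real.sin θ := by
    rw [hθ, Real.sin_arccos]
    apply Real.sqrt_pos.2
    nlinarith
  have hVt : V z = ((2 * Real.cos θ : ℝ) : ℂ) := by
    rw [hcos]
    exact Complex.ext (by simp [ht]) (by simp [hi])
  obtain ⟨N, hN⟩ : ∃ N : ℕ, 2 * Real.pi / Real.sin θ < N := exists_nat_gt _
  have hpi := Real.pi_pos
  have hN0 : 0 < N := by
    have : (0 : ℝ) < N := lt_trans (by positivity) hN
    exact_mod_cast this
  obtain ⟨k, hk, -, hkr⟩ := Real.exists_nat_abs_mul_sub_round_le (θ / Real.pi) hN0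
  have h1 := h.cheb_ge hV hz (k := k) hk
  have h2 := cheb_sin θ k
  rw [← hVt] at h2
  have h3 : ‖cheb (V z) k‖ * Real.sin θ = |2 * Real.cos θ * Real.sin (k * θ)| := by
    have h4 := congrArg (fun x : ℂ => ‖x‖) h2
    simp only [norm_mul, Complex.norm_real, Real.norm_eq_abs, abs_of_pos hsin] at h4
    rw [h4]
    rw [abs_mul, abs_mul]
  have h4 : |Real.sin (k * θ)| ≤ Real.pi / (N + 1) := by
    set j : ℤ := round ((k : ℝ) * (θ / Real.pi)) with hj
    have h5 : (k : ℝ) * θ = Real.pi * ((k : ℝ) * (θ / Real.pi) - j) + j * Real.pi := by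
      field_simp
      ring
    rw [h5, Real.sin_add_int_mul_pi, abs_mul]
    have h6 : |((-1 : ℝ) ^ j)| = 1 := by
      rw [abs_zpow, abs_neg, abs_one, one_zpow]
    rw [h6, one_mul]
    calc |Real.sin (Real.pi * ((k : ℝ) * (θ / Real.pi) - j))|
        ≤ |Real.pi * ((k : ℝ) * (θ / Real.pi) - j)| := Real.abs_sin_le_abs
      _ = Real.pi * |(k : ℝ) * (θ / Real.pi) - j| := by rw [abs_mul, abs_of_pos hpi]
      _ ≤ Real.pi * (1 / (N + 1)) := mul_le_mul_of_nonneg_left hkr hpi.le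
      _ = _ := by ring
  have h5 : |2 * Real.cos θ * Real.sin (k * θ)| ≤ 2 * (Real.pi / (N + 1)) := by
    rw [abs_mul, abs_mul, abs_two]
    have := Real.abs_cos_le_one θ
    have h7 := abs_nonneg (Real.sin (k * θ))
    have h8 := abs_nonneg (Real.cos θ)
    nlinarith
  have h6 : 2 * (Real.pi / (N + 1)) < Real.sin θ := by
    rw [div_lt_iff₀ hsin] at hN
    have : (0 : ℝ) < N + 1 := by positivity
    rw [← mul_div_assoc, div_lt_iff₀ this]
    nlinarith
  have h7 : 1 * Real.sin θ ≤ ‖cheb (V z) k‖ * Real.sin θ :=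
    mul_le_mul_of_nonneg_right h1 hsin.le
  linarith

/-! ### The interface -/

theorem low {z : ℂ} (hz : z ∈ closure U) : Low z := by
  intro β n
  exact ⟨(Vl_l β n).ge_one (continuous_state β n).1 hz,
    (Vl_r β n).ge_one (continuous_state β n).2.1 hz,
    (Vl_w β n).ge_one (continuous_state β n).2.2 hz⟩

/-- Real values on `U` are outside `[-2, 2]`. -/
theorem real_gt {z : ℂ} (hz : z ∈ U) {β : ℕ → Bool} {n : ℕ} (h : (vw β n z).im = 0) :
    2 < |(vw β n z).re| := (Vl_w β n).real_gt hz h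

/-- Real values on the closure of `U` are outside `(-2, 2)`. -/
theorem real_ge {z : ℂ} (hz : z ∈ closure U) {β : ℕ → Bool} {n : ℕ} (h : (vw β n z).im = 0) :
    2 ≤ |(vw β n z).re| := (Vl_w β n).real_ge (continuous_state β n).2.2 hz h

theorem real_gt_x {z : ℂ} (hz : z ∈ U) {β : ℕ → Bool} {n : ℕ} (h : (vx β n z).im = 0) :
    2 < |(vx β n z).re| := (Vl_l β n).real_gt hz h

theorem real_gt_y {z : ℂ} (hz : z ∈ U) {β : ℕ → Bool} {n : ℕ} (h : (vy β n z).im = 0) :
    2 < |(vy β n z).re| := (Vl_r β n).real_gt hz h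

theorem real_ge_x {z : ℂ} (hz : z ∈ closure U) {β : ℕ → Bool} {n : ℕ} (h : (vx β n z).im = 0) :
    2 ≤ |(vx β n z).re| := (Vl_l β n).real_ge (continuous_state β n).1 hz h

theorem real_ge_y {z : ℂ} (hz : z ∈ closure U) {β : ℕ → Bool} {n : ℕ} (h : (vy β n z).im = 0) :
    2 ≤ |(vy β n z).re| := (Vl_r β n).real_ge (continuous_state β n).2.1 hz h

/-- Real and imaginary points in the closure of `U`. -/
theorem axis_ge {z : ℂ} (hz : z ∈ closure U) (h : z.im = 0 ∨ z.re = 0) : 2 ≤ ‖z‖ := by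
  rcases h with h | h
  · have h1 : vx (fun _ => true) 0 z = z := rfl
    have h2 := real_ge_x hz (β := fun _ => true) (n := 0) (by rw [h1]; exact h)
    rw [h1] at h2
    exact h2.trans (Complex.abs_re_le_norm z)
  · have h1 : vy (fun _ => true) 0 z = -I * z := rfl
    have h2 := real_ge_y hz (β := fun _ => true) (n := 0) (by rw [h1]; simp [h])
    rw [h1] at h2
    simp only [neg_mul, neg_re, mul_re, I_re, zero_mul, I_im, one_mul, zero_sub, neg_neg] at h2
    exact h2.trans (Complex.abs_im_le_norm z)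

end Pool.Agent.Loc
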