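import Pool.Agent.Loc.Bas
import Pool.Agent.Loc.Lnk
import Pool.Agent.NoH.Fin
import Pool.Agent.NoH.Top

set_option autoImplicit false

/-!
# Loc: the complement of the spectrum is connected in the open first quadrant
-/

namespace Pool.Agent.Loc

open Complex Pool.Agent.FZC Filter Topology

theorem bddSol_neg {z : ℂ} (h : BddSol z) : BddSol (-z) := by
  obtain ⟨b, hb, ψ, ⟨C, hC⟩, ⟨n₀, h0⟩, hrec⟩ := h
  have hm : ((-1 : ℂ)) ≠ 0 := by norm_num
  have hn : ∀ n : ℤ, ‖((-1 : ℂ) ^ n)‖ = 1 := by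
    intro n
    rw [norm_zpow]; simp
  refine ⟨b, hb, fun n => (-1 : ℂ) ^ n * ψ n, ⟨C, fun n => ?_⟩, ⟨n₀, ?_⟩, fun n => ?_⟩
  · rw [norm_mul, hn, one_mul]; exact hC n
  · exact mul_ne_zero (zpow_ne_zero _ hm) h0
  · have e1 : (-1 : ℂ) ^ (n + 1) = -(-1 : ℂ) ^ n := by rw [zpow_add₀ hm, zpow_one, mul_neg_one]
    have e2 : (-1 : ℂ) ^ (n - 1) = -(-1 : ℂ) ^ n := by
      rw [zpow_sub₀ hm, zpow_one, div_neg, div_one]
    simp only [e1, e2]
    linear_combination (-(-1 : ℂ) ^ n) * hrec n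

theorem bddSol_conj {z : ℂ} (h : BddSol z) : BddSol ((starRingEnd ℂ) z) := by
  obtain ⟨b, hb, ψ, ⟨C, hC⟩, ⟨n₀, h0⟩, hrec⟩ := h
  refine ⟨b, hb, fun n => (starRingEnd ℂ) (ψ n), ⟨C, fun n => ?_⟩, ⟨n₀, ?_⟩, fun n => ?_⟩
  · rw [Complex.norm_conj]; exact hC n
  · simpa using h0
  · have hb' : (starRingEnd ℂ) (b (n - 1)) = b (n - 1) := by
      rcases hb (n - 1) with h | h <;> simp [h]
    have := congrArg (starRingEnd ℂ) (hrec n)
    simp only [map_add, map_mul, hb'] at this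
    exact this

theorem U_neg {z : ℂ} (h : z ∈ U) : -z ∈ U := by
  intro h'
  apply h
  have h'' : BddSol (-z) := by
    have : -z ∈ {z : ℂ | BddSol z} := by rw [← Sig_eq]; exact h'
    exact this
  have h3 := bddSol_neg h''
  rw [neg_neg] at h3
  have : z ∈ {z : ℂ | BddSol z} := h3
  rw [← Sig_eq] at this
  exact this

theorem U_conj {z : ℂ} (h : z ∈ U) : (starRingEnd ℂ) z ∈ U := by
  intro h'
  apply h
  have h'' : BddSol ((starRingEnd ℂ) z) := by
    have : (starRingEnd ℂ) z ∈ {z : ℂ | BddSol z} := by rw [← Sig_eq]; exact h'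
    exact this
  have h3 := bddSol_conj h''
  rw [Complex.conj_conj] at h3
  have : z ∈ {z : ℂ | BddSol z} := h3
  rw [← Sig_eq] at this
  exact this

/-- Folding the plane onto the closed first quadrant. -/
noncomputable def fold (z : ℂ) : ℂ := ⟨|z.re|, |z.im|⟩

theorem fold_cont : Continuous fold := by
  have : fold = fun z => ((|z.re| : ℝ) : ℂ) + ((|z.im| : ℝ) : ℂ) * I := by
    funext z
    apply Complex.ext <;> simp [fold]
  rw [this]
  exact (continuous_ofReal.comp (continuous_abs.comp continuous_re)).add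
    ((continuous_ofReal.comp (continuous_abs.comp continuous_im)).mul continuous_const)

theorem fold_U {z : ℂ} (h : z ∈ U) : fold z ∈ U := by
  have hz : fold z = z ∨ fold z = (starRingEnd ℂ) z ∨ fold z = -(starRingEnd ℂ) z ∨
      fold z = -z := by
    rcases le_total 0 z.re with h1 | h1 <;> rcases le_total 0 z.im with h2 | h2
    · left; apply Complex.ext <;> simp [fold, abs_of_nonneg, h1, h2]
    · right; left; apply Complex.ext <;> simp [fold, abs_of_nonneg, abs_of_nonpos, h1, h2]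
    · right; right; left; apply Complex.ext <;> simp [fold, abs_of_nonneg, abs_of_nonpos, h1, h2]
    · right; right; right; apply Complex.ext <;> simp [fold, abs_of_nonpos, h1, h2]
  rcases hz with e | e | e | e <;> rw [e]
  · exact h
  · exact U_conj h
  · exact U_neg (U_conj h)
  · exact U_neg h

theorem U_preconnected : IsPreconnected U := by
  have h : (Sigᶜ : Set ℂ) = NoH.NN := by
    ext z
    exact NoH.mem_iff z
  have h2 := NoH.isConnected_NN fun z hz => (NoH.mem_iff z).1 (NoH.far_not_mem z hz)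
  rw [← h] at h2
  exact h2.isPreconnected

/-- `U` in the closed quadrant is connected. -/
theorem UQc_preconnected : IsPreconnected (U ∩ {z : ℂ | 0 ≤ z.re ∧ 0 ≤ z.im}) := by
  have h : fold '' U = U ∩ {z : ℂ | 0 ≤ z.re ∧ 0 ≤ z.im} := by
    ext z
    constructor
    · rintro ⟨w, hw, rfl⟩
      exact ⟨fold_U hw, by simp [fold]⟩
    · rintro ⟨hz, h1, h2⟩
      refine ⟨z, hz, ?_⟩
      apply Complex.ext <;> simp [fold, abs_of_nonneg, h1, h2]
  rw [← h]
  exact U_preconnected.image _ fold_cont.continuousOn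

theorem far_U {z : ℂ} (h : 2 < ‖z‖) : z ∈ U := NoH.far_not_mem z h

/-- Points of `U` on the axes are far away. -/
theorem axis_gt {z : ℂ} (hz : z ∈ U) (h : z.im = 0 ∨ z.re = 0) : 2 < ‖z‖ := by
  rcases h with h | h
  · have h1 := real_gt_x (β := fun _ => true) (n := 0) hz (by simpa using h)
    have h2 : z = (z.re : ℂ) := Complex.ext (by simp) (by simpa using h)
    rw [h2, Complex.norm_real, Real.norm_eq_abs]
    simpa using h1
  · have h1 := real_gt_y (β := fun _ => true) (n := 0) hz (by simpa using h)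
    have h2 : z = (z.im : ℂ) * I := Complex.ext (by simpa using h) (by simp)
    rw [h2, norm_mul, Complex.norm_I, mul_one, Complex.norm_real, Real.norm_eq_abs]
    simpa using h1

/-- The far part of the quadrant is connected. -/
theorem far_preconnected : IsPreconnected {z : ℂ | 2 < ‖z‖ ∧ z ∈ Q} := by
  have h1 : IsPreconnected (Set.Ioi (2 : ℝ) ×ˢ Set.Ioo (0 : ℝ) (Real.pi / 2)) :=
    isPreconnected_Ioi.prod isPreconnected_Ioo
  have h2 := h1.image (fun p : ℝ × ℝ => (p.1 : ℂ) * Complex.exp (p.2 * Complex.I)) (by fun_prop)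
  have h3 : (fun p : ℝ × ℝ => (p.1 : ℂ) * Complex.exp (p.2 * Complex.I)) ''
      (Set.Ioi (2 : ℝ) ×ˢ Set.Ioo (0 : ℝ) (Real.pi / 2)) = {z : ℂ | 2 < ‖z‖ ∧ z ∈ Q} := by
    ext w
    constructor
    · rintro ⟨⟨r, t⟩, ⟨hr, ht1, ht2⟩, rfl⟩
      simp only [Set.mem_Ioi] at hr
      have hr0 : 0 < r := by linarith
      have hc : 0 < Real.cos t := Real.cos_pos_of_mem_Ioo ⟨by linarith, ht2⟩
      have hs : 0 < Real.sin t := Real.sin_pos_of_pos_of_lt_pi ht1 (by linarith [Real.pi_pos])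
      refine ⟨?_, ?_, ?_⟩
      · simp only [norm_mul, Complex.norm_exp_ofReal_mul_I, mul_one, Complex.norm_real]
        rwa [Real.norm_of_nonneg (by linarith)]
      · simp only [Complex.exp_mul_I]
        simp [Complex.cos_ofReal_re, Complex.sin_ofReal_re, Complex.cos_ofReal_im,
          Complex.sin_ofReal_im]
        positivity
      · simp only [Complex.exp_mul_I]
        simp [Complex.cos_ofReal_re, Complex.sin_ofReal_re, Complex.cos_ofReal_im,
          Complex.sin_ofReal_im]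
        positivity
    · rintro ⟨hw, hq1, hq2⟩
      refine ⟨(‖w‖, Complex.arg w), ⟨hw, ?_, ?_⟩, Complex.norm_mul_exp_arg_mul_I w⟩
      · have h0 : 0 ≤ arg w := Complex.arg_nonneg_iff.2 hq2.le
        rcases h0.lt_or_eq with h | h
        · exact h
        · exfalso
          have := (Complex.arg_eq_zero_iff.1 h.symm).2
          exact hq2.ne' this
      · exact Complex.arg_lt_pi_div_two_iff.2 (Or.inl hq1)
  rwa [h3] at h2

/-- `U` is connected in the open quadrant. -/
theorem uq_preconnected : IsPreconnected (U ∩ Q) := by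
  have hUo : IsOpen U := Pool.Agent.FZR.isClosed_Sig.isOpen_compl
  have hQo : IsOpen Q := (isOpen_lt continuous_const continuous_re).inter
    (isOpen_lt continuous_const continuous_im)
  have hFo : IsOpen {z : ℂ | 2 < ‖z‖} := isOpen_lt continuous_const continuous_norm
  have key : ∀ u v : Set ℂ, IsOpen u → IsOpen v → U ∩ Q ⊆ u ∪ v → U ∩ Q ∩ (u ∩ v) = ∅ →
      {z : ℂ | 2 < ‖z‖ ∧ z ∈ Q} ⊆ u → U ∩ Q ⊆ u := by
    intro u v hu hv huv hd hF
    have h1 : U ∩ {z : ℂ | 0 ≤ z.re ∧ 0 ≤ z.im} ⊆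
        ((Q ∩ u ∩ U) ∪ {z : ℂ | 2 < ‖z‖}) ∪ (Q ∩ v ∩ U) := by
      rintro z ⟨hz, h1, h2⟩
      by_cases hq : z ∈ Q
      · rcases huv ⟨hz, hq⟩ with h | h
        · left; left; exact ⟨⟨hq, h⟩, hz⟩
        · right; exact ⟨⟨hq, h⟩, hz⟩
      · left; right
        apply axis_gt hz
        by_contra hne
        rw [not_or] at hne
        exact hq ⟨lt_of_le_of_ne h1 (Ne.symm hne.2), lt_of_le_of_ne h2 (Ne.symm hne.1)⟩
    have h2 : U ∩ {z : ℂ | 0 ≤ z.re ∧ 0 ≤ z.im} ∩
        (((Q ∩ u ∩ U) ∪ {z : ℂ | 2 < ‖z‖}) ∩ (Q ∩ v ∩ U)) = ∅ := by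
      rw [Set.eq_empty_iff_forall_notMem]
      rintro z ⟨⟨hz, -⟩, h | h, ⟨hq, hzv⟩, -⟩
      · have : z ∈ (∅ : Set ℂ) := by
          rw [← hd]; exact ⟨⟨hz, hq⟩, h.1.2, hzv⟩
        exact this
      · have : z ∈ (∅ : Set ℂ) := by
          rw [← hd]; exact ⟨⟨hz, hq⟩, hF ⟨h, hq⟩, hzv⟩
        exact this
    have h3 := (isPreconnected_iff_subset_of_disjoint.1 UQc_preconnected) _ _
      (((hQo.inter hu).inter hUo).union hFo) ((hQo.inter hv).inter hUo) h1 h2
    rcases h3 with h3 | h3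
    · rintro z ⟨hz, hq⟩
      rcases h3 ⟨hz, hq.1.le, hq.2.le⟩ with h | h
      · exact h.1.2
      · exact hF ⟨h, hq⟩
    · exfalso
      have h4 : (3 : ℂ) ∈ U ∩ {z : ℂ | 0 ≤ z.re ∧ 0 ≤ z.im} := by
        refine ⟨far_U (by norm_num), ?_⟩
        simp
      have h5 := (h3 h4).1.1.2
      simp at h5
  rw [isPreconnected_iff_subset_of_disjoint]
  intro u v hu hv huv hd
  have hFU : {z : ℂ | 2 < ‖z‖ ∧ z ∈ Q} ⊆ U ∩ Q := fun z hz => ⟨far_U hz.1, hz.2⟩
  have hF := (isPreconnected_iff_subset_of_disjoint.1 far_preconnected) u v hu hv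
    (hFU.trans huv) (by
      rw [Set.eq_empty_iff_forall_notMem]
      rintro z ⟨hz, hzuv⟩
      have : z ∈ (∅ : Set ℂ) := by rw [← hd]; exact ⟨hFU hz, hzuv⟩
      exact this)
  rcases hF with hF | hF
  · left; exact key u v hu hv huv hd hF
  · right
    exact key v u hv hu (by rwa [Set.union_comm]) (by rwa [Set.inter_comm v u]) hF

end Pool.Agent.Loc
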