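import Pool.Agent.Loc.Bas

set_option autoImplicit false

/-!
# Loc: compactness at a hinge

At a hinge with bounded values one of the two levels behind it has an angle bounded away from
`0` and `π / 2`.
-/

namespace Pool.Agent.Loc

open Complex

/-- The algebra of a limit state: `w = a + bi`, `y = p - qi`, `x = u + vi`, `w y - x = r - si`. -/
theorem cpt_real {a b p q u v r s : ℝ} (ha : 0 ≤ a) (hb : 0 ≤ b) (hp : 0 ≤ p) (hq : 0 ≤ q)
    (hu : 0 ≤ u) (hv : 0 ≤ v) (hr : 0 ≤ r) (hs : 0 ≤ s)
    (e1 : u + r = a * p + b * q) (e2 : v - s = b * p - a * q)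
    (e3 : u * r + v * s = a ^ 2 - b ^ 2 + p ^ 2 - q ^ 2)
    (e4 : v * r - u * s = 2 * a * b - 2 * p * q)
    (nw : 1 ≤ a ^ 2 + b ^ 2) (ny : 1 ≤ p ^ 2 + q ^ 2) (nx : 1 ≤ u ^ 2 + v ^ 2)
    (nc : 1 ≤ r ^ 2 + s ^ 2)
    (h1 : 0 ≤ u * p - v * q) (h2 : 0 ≤ a * p - b * q) (h3 : 0 ≤ a * r - b * s)
    (hm : a ^ 2 + b ^ 2 ≤ 4 ∨ p ^ 2 + q ^ 2 ≤ 4) :
    0 < (a * p - b * q) * (b * p + a * q) ∨ 0 < (a * r - b * s) * (b * r + a * s) := by
  by_contra hcon
  push Not at hcon
  obtain ⟨c1, c2⟩ := hcon
  have hbp : 0 ≤ b * p := mul_nonneg hb hp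
  have haq : 0 ≤ a * q := mul_nonneg ha hq
  have hz : (a * p - b * q) * (b * p + a * q) = 0 :=
    le_antisymm c1 (mul_nonneg h2 (by linarith))
  rcases mul_eq_zero.mp hz with hA | hB
  · -- the angle `π / 2` is impossible
    have hAB : a * p = b * q := by linarith
    have hpq : 0 < p + q := by
      rcases hp.eq_or_lt with h | h
      · rcases hq.eq_or_lt with h' | h'
        · rw [← h, ← h'] at ny; norm_num at ny
        · linarith
      · linarith
    have hab : 0 < a + b := by
      rcases ha.eq_or_lt with h | h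
      · rcases hb.eq_or_lt with h' | h'
        · rw [← h, ← h'] at nw; norm_num at nw
        · linarith
      · linarith
    have k1 : 0 ≤ (p + q) * (u * b - v * a) := by
      have i1 : 0 ≤ b * (u * p - v * q) := mul_nonneg hb h1
      have i2 : 0 ≤ a * (u * p - v * q) := mul_nonneg ha h1
      have : (p + q) * (u * b - v * a) = b * (u * p - v * q) + a * (u * p - v * q)
          + (u + v) * (b * q - a * p) := by ring
      rw [this, hAB]; linarith
    have k1' : 0 ≤ u * b - v * a := by
      by_contra hneg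
      push Not at hneg
      have := mul_neg_of_pos_of_neg hpq hneg
      linarith
    have k2 : 0 ≤ (a + b) * (r * q - s * p) := by
      have i1 : 0 ≤ q * (a * r - b * s) := mul_nonneg hq h3
      have i2 : 0 ≤ p * (a * r - b * s) := mul_nonneg hp h3
      have : (a + b) * (r * q - s * p) = q * (a * r - b * s) + p * (a * r - b * s)
          + (r + s) * (b * q - a * p) := by ring
      rw [this, hAB]; linarith
    have k2' : 0 ≤ r * q - s * p := by
      by_contra hneg
      push Not at hneg
      have := mul_neg_of_pos_of_neg hab hneg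
      linarith
    have hsum : (u * a + v * b) * (r * p + s * q) + (u * b - v * a) * (r * q - s * p) = 0 := by
      have : (u * a + v * b) * (r * p + s * q) + (u * b - v * a) * (r * q - s * p)
          = (u * r + v * s) * (a * p + b * q) + (v * r - u * s) * (b * p - a * q) := by ring
      rw [this, e3, e4]
      have h5 : (a ^ 2 - b ^ 2 + p ^ 2 - q ^ 2) * (a * p + b * q)
          + (2 * a * b - 2 * p * q) * (b * p - a * q)
          = (a ^ 2 + b ^ 2 + p ^ 2 + q ^ 2) * (a * p - b * q) := by ring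
      rw [h5, hA, mul_zero]
    have hn1 : 0 ≤ (u * a + v * b) * (r * p + s * q) :=
      mul_nonneg (add_nonneg (mul_nonneg hu ha) (mul_nonneg hv hb))
        (add_nonneg (mul_nonneg hr hp) (mul_nonneg hs hq))
    have hn2 : 0 ≤ (u * b - v * a) * (r * q - s * p) := mul_nonneg k1' k2'
    have hz1 : (u * a + v * b) * (r * p + s * q) = 0 := by linarith
    have hua := mul_nonneg hu ha
    have hvb := mul_nonneg hv hb
    have hrp := mul_nonneg hr hp
    have hsq := mul_nonneg hs hq
    rcases mul_eq_zero.mp hz1 with h6 | h6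
    · have hua0 : u * a = 0 := by linarith
      have hvb0 : v * b = 0 := by linarith
      rcases hu.eq_or_lt with hu0 | hu0
      · -- `u = 0`, `v > 0`, `b = 0`
        have hv0 : 0 < v := by
          rcases hv.eq_or_lt with h | h
          · rw [← h, ← hu0] at nx; norm_num at nx
          · exact h
        have hb0 : b = 0 := by
          rcases mul_eq_zero.mp hvb0 with h | h
          · exact absurd h hv0.ne'
          · exact h
        have ha0 : 0 < a := by rw [hb0] at hab; linarith
        have hp0 : p = 0 := by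
          rw [hb0, zero_mul] at hAB
          rcases mul_eq_zero.mp hAB with h | h
          · exact absurd h ha0.ne'
          · exact h
        have hq0 : 0 < q := by rw [hp0] at hpq; linarith
        rw [← hu0, hp0] at h1
        have := mul_pos hv0 hq0
        linarith
      · have ha0 : a = 0 := by
          rcases mul_eq_zero.mp hua0 with h | h
          · exact absurd h hu0.ne'
          · exact h
        have hq0 : b * q = 0 := by rw [ha0, zero_mul] at hAB; exact hAB.symm
        rw [ha0, hq0] at e1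
        linarith
    · have hrp0 : r * p = 0 := by linarith
      have hsq0 : s * q = 0 := by linarith
      rcases hr.eq_or_lt with hr0 | hr0
      · have hs0 : 0 < s := by
          rcases hs.eq_or_lt with h | h
          · rw [← h, ← hr0] at nc; norm_num at nc
          · exact h
        have hq0 : q = 0 := by
          rcases mul_eq_zero.mp hsq0 with h | h
          · exact absurd h hs0.ne'
          · exact h
        have hp0 : 0 < p := by rw [hq0] at hpq; linarith
        have ha0 : a = 0 := by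
          rw [hq0, mul_zero] at hAB
          rcases mul_eq_zero.mp hAB with h | h
          · exact h
          · exact absurd h hp0.ne'
        have hb0 : 0 < b := by rw [ha0] at hab; linarith
        rw [← hr0, ha0] at h3
        have := mul_pos hb0 hs0
        linarith
      · have hp0 : p = 0 := by
          rcases mul_eq_zero.mp hrp0 with h | h
          · exact absurd h hr0.ne'
          · exact h
        have hq0 : b * q = 0 := by rw [hp0, mul_zero] at hAB; exact hAB.symm
        rw [hp0, hq0] at e1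
        linarith
  · -- a flat state: `w = a`, `y = p`
    have hbp0 : b * p = 0 := by linarith
    have haq0 : a * q = 0 := by linarith
    have hb0 : b = 0 := by
      rcases hb.eq_or_lt with h | h
      · exact h.symm
      · exfalso
        have hp0 : p = 0 := by
          rcases mul_eq_zero.mp hbp0 with h' | h'
          · exact absurd h' h.ne'
          · exact h'
        have hq0 : 0 < q := by
          rcases hq.eq_or_lt with h' | h'
          · rw [hp0, ← h'] at ny; norm_num at ny
          · exact h'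
        have := mul_pos h hq0
        rw [hp0] at h2
        linarith
    have ha0 : 0 < a := by
      rcases ha.eq_or_lt with h | h
      · rw [← h, hb0] at nw; norm_num at nw
      · exact h
    have hq0 : q = 0 := by
      rcases mul_eq_zero.mp haq0 with h | h
      · exact absurd h ha0.ne'
      · exact h
    have hp0 : 0 < p := by
      rcases hp.eq_or_lt with h | h
      · rw [← h, hq0] at ny; norm_num at ny
      · exact h
    subst hb0 hq0
    have hvs : v = s := by linarith
    subst hvs
    have hv4 : v * (r - u) = 0 := by linarith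
    rcases mul_eq_zero.mp hv4 with h | h
    · -- all real
      subst h
      have e1' : u + r = a * p := by linarith
      have e3' : u * r = a ^ 2 + p ^ 2 := by linarith
      have hdisc : 4 * (a ^ 2 + p ^ 2) ≤ (a * p) ^ 2 := by
        rw [← e1', ← e3']; nlinarith [sq_nonneg (u - r)]
      rcases hm with hm | hm
      · have : a ^ 2 ≤ 4 := by linarith
        nlinarith [mul_nonneg (sub_nonneg.mpr this) (sq_nonneg p), mul_pos ha0 ha0]
      · have : p ^ 2 ≤ 4 := by linarith
        nlinarith [mul_nonneg (sub_nonneg.mpr this) (sq_nonneg a), mul_pos hp0 hp0]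
    · have hru : r = u := by linarith
      subst hru
      have hr0 : 0 < r := by
        have := mul_pos ha0 hp0
        linarith
      rcases hv.eq_or_lt with hv0 | hv0
      · -- all real
        rw [← hv0] at e3
        have e1' : r + r = a * p := by linarith
        have e3' : r * r = a ^ 2 + p ^ 2 := by linarith
        have hdisc : 4 * (a ^ 2 + p ^ 2) = (a * p) ^ 2 := by
          rw [← e1', ← e3']; ring
        rcases hm with hm | hm
        · have : a ^ 2 ≤ 4 := by linarith
          nlinarith [mul_nonneg (sub_nonneg.mpr this) (sq_nonneg p), mul_pos ha0 ha0]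
        · have : p ^ 2 ≤ 4 := by linarith
          nlinarith [mul_nonneg (sub_nonneg.mpr this) (sq_nonneg a), mul_pos hp0 hp0]
      · have i1 := mul_pos ha0 hr0
        have i2 := mul_pos ha0 hv0
        have : 0 < (a * r - 0 * v) * (0 * r + a * v) := by
          have e : (a * r - 0 * v) * (0 * r + a * v) = (a * r) * (a * v) := by ring
          rw [e]; exact mul_pos i1 i2
        linarith

/-- Closed form of `Edge`. -/
def CEdge (x y : ℂ) : Prop :=
  0 ≤ x.re ∧ 0 ≤ x.im ∧ 0 ≤ y.re ∧ y.im ≤ 0 ∧ 0 ≤ (x * (starRingEnd ℂ) y).re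

theorem Edge.cedge {x y : ℂ} (h : Edge x y) : CEdge x y :=
  ⟨h.1.le, h.2.1.le, h.2.2.1.le, h.2.2.2.1.le, h.2.2.2.2.le⟩

theorem isClosed_cedge {X : Type*} [TopologicalSpace X] {f g : X → ℂ} (hf : Continuous f)
    (hg : Continuous g) : IsClosed {t | CEdge (f t) (g t)} := by
  have h1 : IsClosed {t | 0 ≤ (f t).re} := isClosed_le continuous_const (continuous_re.comp hf)
  have h2 : IsClosed {t | 0 ≤ (f t).im} := isClosed_le continuous_const (continuous_im.comp hf)
  have h3 : IsClosed {t | 0 ≤ (g t).re} := isClosed_le continuous_const (continuous_re.comp hg)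
  have h4 : IsClosed {t | (g t).im ≤ 0} := isClosed_le (continuous_im.comp hg) continuous_const
  have h5 : IsClosed {t | 0 ≤ (f t * (starRingEnd ℂ) (g t)).re} :=
    isClosed_le continuous_const (continuous_re.comp (hf.mul (continuous_conj.comp hg)))
  exact h1.inter (h2.inter (h3.inter (h4.inter h5)))

theorem one_le_sq_norm {x : ℂ} (h : 1 ≤ ‖x‖) : 1 ≤ x.re ^ 2 + x.im ^ 2 := by
  have h1 : ‖x‖ ^ 2 = x.re ^ 2 + x.im ^ 2 := by
    rw [← Complex.normSq_eq_norm_sq, Complex.normSq_apply]; ring
  nlinarith [norm_nonneg x]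

theorem sq_norm_le_four {x : ℂ} (h : ‖x‖ ≤ 2) : x.re ^ 2 + x.im ^ 2 ≤ 4 := by
  have h1 : ‖x‖ ^ 2 = x.re ^ 2 + x.im ^ 2 := by
    rw [← Complex.normSq_eq_norm_sq, Complex.normSq_apply]; ring
  nlinarith [norm_nonneg x]

/-- Positivity at a closed state. -/
theorem cpt_pos {x y w : ℂ} (hM : x ^ 2 + y ^ 2 + w ^ 2 = x * y * w) (h0 : CEdge x y)
    (h1 : CEdge w y) (h2 : CEdge w (w * y - x)) (nx : 1 ≤ ‖x‖) (ny : 1 ≤ ‖y‖) (nw : 1 ≤ ‖w‖)
    (nc : 1 ≤ ‖w * y - x‖) (hm : ‖w‖ ≤ 2 ∨ ‖y‖ ≤ 2) :
    0 < (w * (starRingEnd ℂ) y).re * (w * (starRingEnd ℂ) y).im ∨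
      0 < (w * (starRingEnd ℂ) (w * y - x)).re * (w * (starRingEnd ℂ) (w * y - x)).im := by
  obtain ⟨hu, hv, hp, hq, h01⟩ := h0
  obtain ⟨ha, hb, -, -, h11⟩ := h1
  obtain ⟨-, -, hr, hs, h21⟩ := h2
  set c := w * y - x with hc
  have hxc : x * c = w ^ 2 + y ^ 2 := by rw [hc]; linear_combination -hM
  have ew : c.re + x.re = w.re * y.re - w.im * y.im := by
    have : c + x = w * y := by rw [hc]; ring
    have := congrArg Complex.re this
    simpa [Complex.mul_re] using this
  have ew' : c.im + x.im = w.re * y.im + w.im * y.re := by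
    have : c + x = w * y := by rw [hc]; ring
    have := congrArg Complex.im this
    simpa [Complex.mul_im] using this
  have e3 : x.re * c.re - x.im * c.im = w.re ^ 2 - w.im ^ 2 + (y.re ^ 2 - y.im ^ 2) := by
    have := congrArg Complex.re hxc
    simp only [Complex.mul_re, Complex.add_re, pow_two] at this
    linarith
  have e4 : x.re * c.im + x.im * c.re = 2 * w.re * w.im + 2 * y.re * y.im := by
    have := congrArg Complex.im hxc
    simp only [Complex.mul_im, Complex.add_im, pow_two] at this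
    linarith
  have m1 := one_le_sq_norm nx
  have m2 := one_le_sq_norm ny
  have m3 := one_le_sq_norm nw
  have m4 := one_le_sq_norm nc
  simp only [Complex.mul_re, Complex.mul_im, Complex.conj_re, Complex.conj_im] at h01 h11 h21 ⊢
  have key := cpt_real (a := w.re) (b := w.im) (p := y.re) (q := -y.im) (u := x.re) (v := x.im)
    (r := c.re) (s := -c.im) ha hb hp (by linarith) hu hv hr (by linarith)
    (by linarith) (by linarith) (by nlinarith) (by linarith) m3 (by nlinarith) m1 (by nlinarith)
    (by linarith) (by linarith) (by linarith) (by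
      rcases hm with h | h
      · exact Or.inl (sq_norm_le_four h)
      · right
        have := sq_norm_le_four h
        linarith [this, neg_sq y.im])
  rcases key with k | k
  · left
    have e : (w.re * y.re - w.im * -y.im) * (w.re * -y.im + w.im * y.re)
        = (w.re * y.re - w.im * -y.im) * (w.im * y.re + w.re * -y.im) := by ring
    rw [e]; exact k
  · right
    have e : (w.re * c.re - w.im * -c.im) * (w.re * -c.im + w.im * c.re)
        = (w.re * c.re - w.im * -c.im) * (w.im * c.re + w.re * -c.im) := by ring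
    rw [e]; exact k

/-- The compactness lemma for a state, hinge of type `1 0`. -/
theorem cpt_state (C : ℝ) : ∃ η : ℝ, 0 < η ∧ ∀ x y w : ℂ,
    x ^ 2 + y ^ 2 + w ^ 2 = x * y * w → CEdge x y → CEdge w y → CEdge w (w * y - x) →
    1 ≤ ‖x‖ → 1 ≤ ‖y‖ → 1 ≤ ‖w‖ → 1 ≤ ‖w * y - x‖ → ‖x‖ ≤ C → ‖y‖ ≤ C → ‖w‖ ≤ C →
    (‖w‖ ≤ 2 ∨ ‖y‖ ≤ 2) →
    η ≤ (w * (starRingEnd ℂ) y).re * (w * (starRingEnd ℂ) y).im ∨
      η ≤ (w * (starRingEnd ℂ) (w * y - x)).re * (w * (starRingEnd ℂ) (w * y - x)).im := by
  let K : Set (ℂ × ℂ × ℂ) := {t | (t.1 ^ 2 + t.2.1 ^ 2 + t.2.2 ^ 2 = t.1 * t.2.1 * t.2.2) ∧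
    CEdge t.1 t.2.1 ∧ CEdge t.2.2 t.2.1 ∧ CEdge t.2.2 (t.2.2 * t.2.1 - t.1) ∧
    1 ≤ ‖t.1‖ ∧ 1 ≤ ‖t.2.1‖ ∧ 1 ≤ ‖t.2.2‖ ∧ 1 ≤ ‖t.2.2 * t.2.1 - t.1‖ ∧
    ‖t.1‖ ≤ C ∧ ‖t.2.1‖ ≤ C ∧ ‖t.2.2‖ ≤ C ∧ (‖t.2.2‖ ≤ 2 ∨ ‖t.2.1‖ ≤ 2)}
  let F : ℂ × ℂ × ℂ → ℝ := fun t =>
    max ((t.2.2 * (starRingEnd ℂ) t.2.1).re * (t.2.2 * (starRingEnd ℂ) t.2.1).im)
      ((t.2.2 * (starRingEnd ℂ) (t.2.2 * t.2.1 - t.1)).re *
        (t.2.2 * (starRingEnd ℂ) (t.2.2 * t.2.1 - t.1)).im)
  have cx : Continuous (fun t : ℂ × ℂ × ℂ => t.1) := continuous_fst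
  have cy : Continuous (fun t : ℂ × ℂ × ℂ => t.2.1) := continuous_fst.comp continuous_snd
  have cw : Continuous (fun t : ℂ × ℂ × ℂ => t.2.2) := continuous_snd.comp continuous_snd
  have cc : Continuous (fun t : ℂ × ℂ × ℂ => t.2.2 * t.2.1 - t.1) := (cw.mul cy).sub cx
  have hF : Continuous F := by
    have c1 : Continuous (fun t : ℂ × ℂ × ℂ => t.2.2 * (starRingEnd ℂ) t.2.1) :=
      cw.mul (continuous_conj.comp cy)
    have c2 : Continuous (fun t : ℂ × ℂ × ℂ => t.2.2 * (starRingEnd ℂ) (t.2.2 * t.2.1 - t.1)) :=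
      cw.mul (continuous_conj.comp cc)
    exact ((continuous_re.comp c1).mul (continuous_im.comp c1)).max
      ((continuous_re.comp c2).mul (continuous_im.comp c2))
  have hK : IsCompact K := by
    have hcl : IsClosed K := by
      refine IsClosed.inter (isClosed_eq (((cx.pow 2).add (cy.pow 2)).add (cw.pow 2))
        ((cx.mul cy).mul cw)) ?_
      refine IsClosed.inter (isClosed_cedge cx cy) ?_
      refine IsClosed.inter (isClosed_cedge cw cy) ?_
      refine IsClosed.inter (isClosed_cedge cw cc) ?_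
      refine IsClosed.inter (isClosed_le continuous_const cx.norm) ?_
      refine IsClosed.inter (isClosed_le continuous_const cy.norm) ?_
      refine IsClosed.inter (isClosed_le continuous_const cw.norm) ?_
      refine IsClosed.inter (isClosed_le continuous_const cc.norm) ?_
      refine IsClosed.inter (isClosed_le cx.norm continuous_const) ?_
      refine IsClosed.inter (isClosed_le cy.norm continuous_const) ?_
      refine IsClosed.inter (isClosed_le cw.norm continuous_const) ?_
      exact IsClosed.union (isClosed_le cw.norm continuous_const)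
        (isClosed_le cy.norm continuous_const)
    refine IsCompact.of_isClosed_subset ((isCompact_closedBall (0 : ℂ) C).prod
      ((isCompact_closedBall (0 : ℂ) C).prod (isCompact_closedBall (0 : ℂ) C))) hcl ?_
    rintro ⟨x, y, w⟩ ⟨-, -, -, -, -, -, -, -, h1, h2, h3, -⟩
    simp only [Set.mem_prod, Metric.mem_closedBall, dist_zero_right]
    exact ⟨h1, h2, h3⟩
  rcases K.eq_empty_or_nonempty with he | hne
  · refine ⟨1, one_pos, fun x y w h1 h2 h3 h4 h5 h6 h7 h8 h9 h10 h11 h12 => ?_⟩
    exact absurd (show (x, y, w) ∈ K from ⟨h1, h2, h3, h4, h5, h6, h7, h8, h9, h10, h11, h12⟩)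
      (by rw [he]; simp)
  · obtain ⟨t0, ht0, hmin⟩ := hK.exists_isMinOn hne hF.continuousOn
    refine ⟨F t0, ?_, fun x y w h1 h2 h3 h4 h5 h6 h7 h8 h9 h10 h11 h12 => ?_⟩
    · obtain ⟨h1, h2, h3, h4, h5, h6, h7, h8, -, -, -, h12⟩ := ht0
      exact lt_max_iff.mpr (cpt_pos h1 h2 h3 h4 h5 h6 h7 h8 h12)
    · have hmem : (x, y, w) ∈ K := ⟨h1, h2, h3, h4, h5, h6, h7, h8, h9, h10, h11, h12⟩
      exact le_max_iff.mp (hmin hmem)

/-- Mirror image. -/
theorem CEdge.mirror {x y : ℂ} (h : CEdge x y) :
    CEdge ((starRingEnd ℂ) y) ((starRingEnd ℂ) x) := by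
  obtain ⟨h1, h2, h3, h4, h5⟩ := h
  refine ⟨by simpa using h3, by simpa using h4, by simpa using h1, by simpa using h2, ?_⟩
  rw [Complex.conj_conj, mul_comm]; exact h5

/-- **Compactness at a hinge.** -/
theorem cpt_hinge (C : ℝ) : ∃ η : ℝ, 0 < η ∧ ∀ (β : ℕ → Bool) (z : ℂ) (k : ℕ), Low z →
    CEdge (vx β k z) (vy β k z) → CEdge (vx β (k + 1) z) (vy β (k + 1) z) →
    CEdge (vx β (k + 2) z) (vy β (k + 2) z) → Hinge β k → Bdd C β k z →
    (‖vx β (k + 1) z‖ ≤ 2 ∨ ‖vy β (k + 1) z‖ ≤ 2) →
    ∃ j, (j = k + 1 ∨ j = k + 2) ∧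
      η ≤ (vx β j z * (starRingEnd ℂ) (vy β j z)).re *
        (vx β j z * (starRingEnd ℂ) (vy β j z)).im := by
  obtain ⟨η, hη, h⟩ := cpt_state C
  refine ⟨η, hη, fun β z k hl e0 e1 e2 hh hb hm => ?_⟩
  obtain ⟨b1, b2, b3⟩ := hb
  obtain ⟨l1, l2, l3⟩ := hl β k
  have hM := markoff β k z
  cases hk : β k
  · have hk1 : β (k + 1) = true := by
      cases h' : β (k + 1)
      · exact absurd (hk.trans h'.symm) hh
      · rfl
    have x1 : vx β (k + 1) z = vx β k z := vx_f hk
    have y1 : vy β (k + 1) z = vw β k z := vy_f hk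
    have w1 : vw β (k + 1) z = vx β k z * vw β k z - vy β k z := vw_f hk
    have x2 : vx β (k + 2) z = vx β k z * vw β k z - vy β k z := (vx_t hk1).trans w1
    have y2 : vy β (k + 2) z = vw β k z := (vy_t hk1).trans y1
    have lc := (hl β (k + 1)).2.2
    rw [x1, y1] at e1 hm
    rw [x2, y2] at e2
    rw [w1] at lc
    set x := vx β k z
    set y := vy β k z
    set w := vw β k z
    have hconj : (starRingEnd ℂ) w * (starRingEnd ℂ) x - (starRingEnd ℂ) y
        = (starRingEnd ℂ) (x * w - y) := by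
      rw [map_sub, map_mul]; ring
    have key := h ((starRingEnd ℂ) y) ((starRingEnd ℂ) x) ((starRingEnd ℂ) w)
      (by
        have := congrArg (starRingEnd ℂ) hM
        simp only [map_add, map_mul, map_pow] at this
        linear_combination this)
      e0.mirror e1.mirror (by rw [hconj]; exact e2.mirror)
      (by simpa using l2) (by simpa using l1) (by simpa using l3)
      (by rw [hconj, RCLike.norm_conj]; exact lc)
      (by simpa using b2) (by simpa using b1) (by simpa using b3)
      (by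
        rcases hm with h' | h'
        · right; simpa using h'
        · left; simpa using h')
    rw [hconj] at key
    rcases key with k1 | k1
    · refine ⟨k + 1, Or.inl rfl, ?_⟩
      rw [x1, y1]
      rw [Complex.conj_conj, mul_comm ((starRingEnd ℂ) w) x] at k1
      exact k1
    · refine ⟨k + 2, Or.inr rfl, ?_⟩
      rw [x2, y2]
      rw [Complex.conj_conj, mul_comm ((starRingEnd ℂ) w) (x * w - y)] at k1
      exact k1
  · have hk1 : β (k + 1) = false := by
      cases h' : β (k + 1)
      · rfl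
      · exact absurd (hk.trans h'.symm) hh
    have x1 : vx β (k + 1) z = vw β k z := vx_t hk
    have y1 : vy β (k + 1) z = vy β k z := vy_t hk
    have w1 : vw β (k + 1) z = vw β k z * vy β k z - vx β k z := vw_t hk
    have x2 : vx β (k + 2) z = vw β k z := (vx_f hk1).trans x1
    have y2 : vy β (k + 2) z = vw β k z * vy β k z - vx β k z := (vy_f hk1).trans w1
    have lc := (hl β (k + 1)).2.2
    rw [x1, y1] at e1 hm
    rw [x2, y2] at e2
    rw [w1] at lc
    rcases h _ _ _ hM e0 e1 e2 l1 l2 l3 lc b1 b2 b3 hm with k1 | k1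
    · refine ⟨k + 1, Or.inl rfl, ?_⟩
      rw [x1, y1]; exact k1
    · refine ⟨k + 2, Or.inr rfl, ?_⟩
      rw [x2, y2]; exact k1

/-- The form used in `uniq_inf`. -/
theorem cpt_inf (C : ℝ) : ∃ η : ℝ, 0 < η ∧ ∀ (β : ℕ → Bool) (z : ℂ) (k : ℕ), Low z → Inf β z →
    1 ≤ k → Hinge β k → Bdd C β k z → (‖vx β (k + 1) z‖ ≤ 2 ∨ ‖vy β (k + 1) z‖ ≤ 2) →
    ∃ j, (j = k + 1 ∨ j = k + 2) ∧
      η ≤ (vx β j z * (starRingEnd ℂ) (vy β j z)).re *
        (vx β j z * (starRingEnd ℂ) (vy β j z)).im := by
  obtain ⟨η, hη, h⟩ := cpt_hinge C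
  refine ⟨η, hη, fun β z k hl hi hk hh hb hm => h β z k hl ?_ ?_ ?_ hh hb hm⟩
  · exact (hi k k hk le_rfl).cedge
  · exact (hi (k + 1) (k + 1) (by omega) le_rfl).cedge
  · exact (hi (k + 2) (k + 2) (by omega) le_rfl).cedge

end Pool.Agent.Loc
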