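import Pool.Agent.Loc.Ray

set_option autoImplicit false

/-!
# Loc: the closed curve and its winding numbers (helper74, text part345 3.8 - 3.11), part 1

`NP z`: proper words have a nonzero lower left entry at `z`. `Abv z t`: all centres are on or below
the height `t`. A piece `(g, i, j)` stands for the image under the word `g` of the segment from
`p i` to `p j`, `p : Fin 3 → ℂ` three points above the height `t`.
-/

namespace Pool.Agent.Loc

open Complex Pool.Agent.FZC Metric Filter Topology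

/-- Proper words are proper at `z`. -/
structure NP (z : ℂ) : Prop where
  z0 : z ≠ 0
  ne : ∀ g, Prp g → MM z g 1 0 ≠ 0

/-- All centres are on or below the height `t`. -/
def Abv (z : ℂ) (t : ℝ) : Prop := ∀ g, Prp g → (cn z g).im ≤ t

/-- The argument of `y - cn z g`, `0` for improper words. -/
noncomputable def Ag (z y : ℂ) (g : List Lt) : ℝ :=
  open Classical in if Prp g then (y - cn z g).arg else 0

/-- A piece `(g, i, j)` of a curve. -/
abbrev Pc : Type := List Lt × Fin 3 × Fin 3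

/-- The reversed curve. -/
def rv (L : List Pc) : List Pc := (L.map fun a => (a.1, a.2.2, a.2.1)).reverse

/-- The image of a curve under a word. -/
def ap (P : List Lt) (L : List Pc) : List Pc := L.map fun a => (P ++ a.1, a.2)

/-- Change of the argument of `W - cn z h` along a piece. -/
noncomputable def el (z : ℂ) (p : Fin 3 → ℂ) (h : List Lt) (a : Pc) : ℝ :=
  Ag z (p a.2.2) (winv a.1 ++ h) - Ag z (p a.2.1) (winv a.1 ++ h) -
    (Ag z (p a.2.2) (winv a.1) - Ag z (p a.2.1) (winv a.1))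

/-- Change of the argument of `W - cn z h` along a curve. -/
noncomputable def ell (z : ℂ) (p : Fin 3 → ℂ) (h : List Lt) (L : List Pc) : ℝ :=
  (L.map (el z p h)).sum

/-- `L` is a connected curve from `a` to `b`. -/
def Chn (z : ℂ) (p : Fin 3 → ℂ) : List Pc → ℂ → ℂ → Prop
  | [], a, b => a = b
  | s :: L, a, b => mob (MM z s.1) (p s.2.1) = a ∧ Chn z p L (mob (MM z s.1) (p s.2.2)) b

/- MODULE ca : matrices and words -/
theorem np_of_closure {z : ℂ} (hz : z ∈ closure U) (h0 : z ≠ 0) : NP z := by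
  refine ⟨h0, fun g hg h => ?_⟩
  have := prp_ge hz hg
  rw [h, norm_zero] at this
  linarith

theorem winv_append (g h : List Lt) : winv (g ++ h) = winv h ++ winv g := by
  simp [winv]

theorem winv_winv (g : List Lt) : winv (winv g) = g := by
  have h : ∀ l : Lt, l.inv.inv = l := fun l => by cases l <;> rfl
  unfold winv
  rw [List.map_reverse, List.reverse_reverse, List.map_map]
  conv_rhs => rw [← List.map_id g]
  congr 1
  funext l
  exact h l

theorem mob_mul {P G : Matrix (Fin 2) (Fin 2) ℂ} {y : ℂ} (h : G 1 0 * y + G 1 1 ≠ 0) :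
    mob (P * G) y = mob P (mob G y) := by
  unfold mob
  rw [Matrix.mul_apply, Matrix.mul_apply, Matrix.mul_apply, Matrix.mul_apply]
  simp only [Fin.sum_univ_two]
  have h1 : P 0 0 * ((G 0 0 * y + G 0 1) / (G 1 0 * y + G 1 1)) + P 0 1 =
      ((P 0 0 * G 0 0 + P 0 1 * G 1 0) * y + (P 0 0 * G 0 1 + P 0 1 * G 1 1)) /
        (G 1 0 * y + G 1 1) := by
    rw [eq_div_iff h, add_mul, mul_assoc, div_mul_cancel₀ _ h]
    ring
  have h2 : P 1 0 * ((G 0 0 * y + G 0 1) / (G 1 0 * y + G 1 1)) + P 1 1 =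
      ((P 1 0 * G 0 0 + P 1 1 * G 1 0) * y + (P 1 0 * G 0 1 + P 1 1 * G 1 1)) /
        (G 1 0 * y + G 1 1) := by
    rw [eq_div_iff h, add_mul, mul_assoc, div_mul_cancel₀ _ h]
    ring
  rw [h1, h2, div_div_div_cancel_right₀ h]

private theorem ca_app {z : ℂ} (hz : z ≠ 0) {g h : List Lt} (hh : ¬ Prp h) :
    MM z h 0 0 ≠ 0 ∧ MM z (g ++ h) 1 0 = MM z g 1 0 * MM z h 0 0 ∧
      MM z (g ++ h) 0 0 = MM z g 0 0 * MM z h 0 0 := by
  have h0 := not_prp hh hz
  have hd := MM_det hz h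
  rw [Matrix.det_fin_two, h0, mul_zero, sub_zero] at hd
  refine ⟨fun h' => ?_, ?_, ?_⟩
  · rw [h', zero_mul] at hd
    exact zero_ne_one hd
  · rw [MM_append, Matrix.mul_apply, Fin.sum_univ_two, h0, mul_zero, add_zero]
  · rw [MM_append, Matrix.mul_apply, Fin.sum_univ_two, h0, mul_zero, add_zero]

/-- An improper word at the end does not change properness and the centre. -/
theorem prp_append_not {g h : List Lt} (hh : ¬ Prp h) : Prp (g ++ h) ↔ Prp g := by
  constructor
  · rintro ⟨z, hz, h⟩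
    refine ⟨z, hz, fun h' => h ?_⟩
    rw [(ca_app hz hh).2.1, h', zero_mul]
  · rintro ⟨z, hz, h⟩
    refine ⟨z, hz, ?_⟩
    rw [(ca_app hz hh).2.1]
    exact mul_ne_zero h (ca_app (g := g) hz hh).1

theorem cn_append_not {z : ℂ} (hz : z ≠ 0) {g h : List Lt} (hh : ¬ Prp h) :
    cn z (g ++ h) = cn z g := by
  obtain ⟨h1, h2, h3⟩ := ca_app (g := g) hz hh
  unfold cn
  rw [h2, h3, mul_div_mul_right _ _ h1]

/- MODULE cb : images of points above the height `t` -/
/-- Points above `t` have finite images. -/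
theorem den_ne {z : ℂ} {t : ℝ} (hz : NP z) (ha : Abv z t) {y : ℂ} (hy : t < y.im) (g : List Lt) :
    MM z g 1 0 * y + MM z g 1 1 ≠ 0 := by
  by_cases hg : Prp g
  · intro h
    have h1 := hz.ne g hg
    have h2 : cn z (winv g) = y := by
      rw [cn_winv hz.z0, div_eq_iff h1]
      linear_combination -h
    have h3 := ha _ (prp_winv.2 hg)
    rw [h2] at h3
    linarith
  · have h0 := not_prp hg hz.z0
    have hd := MM_det hz.z0 g
    rw [Matrix.det_fin_two, h0, mul_zero, sub_zero] at hd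
    rw [h0, zero_mul, zero_add]
    intro h
    rw [h, mul_zero] at hd
    exact zero_ne_one hd

private theorem cb_winv {z : ℂ} (hz : z ≠ 0) (g : List Lt) : ∃ e : ℂ, e ^ 2 = 1 ∧
    MM z (winv g) 0 0 = e * MM z g 1 1 ∧ MM z (winv g) 0 1 = - e * MM z g 0 1 ∧
    MM z (winv g) 1 0 = - e * MM z g 1 0 ∧ MM z (winv g) 1 1 = e * MM z g 0 0 := by
  have hd := MM_det hz g
  rw [Matrix.det_fin_two] at hd
  have key : ∀ e : ℂ, MM z (winv g) * MM z g = e • (1 : Matrix (Fin 2) (Fin 2) ℂ) →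
      MM z (winv g) 0 0 = e * MM z g 1 1 ∧ MM z (winv g) 0 1 = - e * MM z g 0 1 ∧
      MM z (winv g) 1 0 = - e * MM z g 1 0 ∧ MM z (winv g) 1 1 = e * MM z g 0 0 := by
    intro e he
    have h00 := congrFun (congrFun he 0) 0
    have h01 := congrFun (congrFun he 0) 1
    have h10 := congrFun (congrFun he 1) 0
    have h11 := congrFun (congrFun he 1) 1
    rw [Matrix.mul_apply, Fin.sum_univ_two] at h00 h01 h10 h11
    simp only [Matrix.smul_apply, Matrix.one_apply_eq, smul_eq_mul, mul_one,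
      Matrix.one_apply, Fin.isValue, zero_ne_one, one_ne_zero, if_false, mul_zero] at h00 h01 h10 h11
    refine ⟨?_, ?_, ?_, ?_⟩
    · linear_combination (-(MM z (winv g) 0 0)) * hd + (MM z g 1 1) * h00 - (MM z g 1 0) * h01
    · linear_combination (-(MM z (winv g) 0 1)) * hd - (MM z g 0 1) * h00 + (MM z g 0 0) * h01
    · linear_combination (-(MM z (winv g) 1 0)) * hd + (MM z g 1 1) * h10 - (MM z g 1 0) * h11
    · linear_combination (-(MM z (winv g) 1 1)) * hd - (MM z g 0 1) * h10 + (MM z g 0 0) * h11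
  rcases MM_winv hz g with h | h
  · exact ⟨1, by norm_num, key 1 (by rw [h.1, one_smul])⟩
  · exact ⟨-1, by norm_num, key (-1) (by rw [h.1, neg_smul, one_smul])⟩

/-- The key identity. -/
theorem mob_sub_cn {z : ℂ} (hz : z ≠ 0) (g : List Lt) {h : List Lt} (hh : MM z h 1 0 ≠ 0) :
    ∃ e : ℂ, e ^ 2 = 1 ∧ ∀ y : ℂ, MM z g 1 0 * y + MM z g 1 1 ≠ 0 →
    mob (MM z g) y - cn z h = e * (MM z (winv g ++ h) 1 0 * y - MM z (winv g ++ h) 0 0) /
      (MM z h 1 0 * (MM z g 1 0 * y + MM z g 1 1)) := by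
  obtain ⟨e, he, e00, e01, e10, e11⟩ := cb_winv hz g
  refine ⟨e, he, fun y hy => ?_⟩
  have h1 : MM z (winv g ++ h) 1 0 = e * (MM z g 0 0 * MM z h 1 0 - MM z g 1 0 * MM z h 0 0) := by
    rw [MM_append, Matrix.mul_apply, Fin.sum_univ_two, e10, e11]
    ring
  have h0 : MM z (winv g ++ h) 0 0 = e * (MM z g 1 1 * MM z h 0 0 - MM z g 0 1 * MM z h 1 0) := by
    rw [MM_append, Matrix.mul_apply, Fin.sum_univ_two, e00, e01]
    ring
  unfold mob cn
  rw [h1, h0, div_sub_div _ _ hy hh, div_eq_div_iff (mul_ne_zero hy hh) (mul_ne_zero hh hy)]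
  linear_combination (-((MM z g 0 0 * MM z h 1 0 - MM z g 1 0 * MM z h 0 0) * y -
    (MM z g 1 1 * MM z h 0 0 - MM z g 0 1 * MM z h 1 0)) * (MM z g 1 0 * y + MM z g 1 1) *
    MM z h 1 0) * he

/-- the numerator -/
private theorem cb_num {z : ℂ} {t : ℝ} (hz : NP z) (ha : Abv z t) (h : List Lt) :
    ∃ K : ℂ, K ≠ 0 ∧ ∀ y : ℂ, t < y.im → ∃ ρ : ℝ, 0 < ρ ∧
      MM z h 1 0 * y - MM z h 0 0 = K * (ρ * exp (Ag z y h * I)) := by
  by_cases hp : Prp h
  · refine ⟨MM z h 1 0, hz.ne h hp, fun y hy => ?_⟩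
    have h1 : y - cn z h ≠ 0 := by
      intro h2
      have h3 := ha h hp
      rw [← sub_eq_zero.1 h2] at h3
      linarith
    refine ⟨‖y - cn z h‖, norm_pos_iff.2 h1, ?_⟩
    have h2 : Ag z y h = (y - cn z h).arg := by
      unfold Ag
      rw [if_pos hp]
    rw [h2, Complex.norm_mul_exp_arg_mul_I]
    unfold cn
    have := hz.ne h hp
    field_simp
  · have h0 := not_prp hp hz.z0
    have hd := MM_det hz.z0 h
    rw [Matrix.det_fin_two, h0, mul_zero, sub_zero] at hd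
    refine ⟨- MM z h 0 0, ?_, fun y hy => ⟨1, one_pos, ?_⟩⟩
    · intro h1
      rw [neg_eq_zero.1 h1, zero_mul] at hd
      exact zero_ne_one hd
    · have h2 : Ag z y h = 0 := by
        unfold Ag
        rw [if_neg hp]
      rw [h2, h0]
      simp

/-- the denominator -/
private theorem cb_den {z : ℂ} {t : ℝ} (hz : NP z) (ha : Abv z t) (g : List Lt) :
    ∃ K : ℂ, K ≠ 0 ∧ ∀ y : ℂ, t < y.im → ∃ ρ : ℝ, 0 < ρ ∧
      MM z g 1 0 * y + MM z g 1 1 = K * (ρ * exp (Ag z y (winv g) * I)) := by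
  obtain ⟨e, he, e00, e01, e10, e11⟩ := cb_winv hz.z0 g
  obtain ⟨K, hK, h⟩ := cb_num hz ha (winv g)
  have he0 : e ≠ 0 := by
    rintro rfl
    norm_num at he
  refine ⟨- K / e, div_ne_zero (neg_ne_zero.2 hK) he0, fun y hy => ?_⟩
  obtain ⟨ρ, hρ, h1⟩ := h y hy
  refine ⟨ρ, hρ, ?_⟩
  rw [e10, e00] at h1
  rw [div_mul_eq_mul_div, eq_div_iff he0]
  linear_combination -h1

/-- Points above `t` are not mapped to centres. -/
theorem mob_ne_cn {z : ℂ} {t : ℝ} (hz : NP z) (ha : Abv z t) {y : ℂ} (hy : t < y.im)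
    (g : List Lt) {h : List Lt} (hh : Prp h) : mob (MM z g) y ≠ cn z h := by
  obtain ⟨e, he, hm⟩ := mob_sub_cn hz.z0 g (hz.ne h hh)
  have hD := den_ne hz ha hy g
  obtain ⟨K, hK, hN⟩ := cb_num hz ha (winv g ++ h)
  obtain ⟨ρ, hρ, h2⟩ := hN y hy
  intro hc
  have h1 := hm y hD
  rw [hc, sub_self, h2] at h1
  have he0 : e ≠ 0 := by
    rintro rfl
    norm_num at he
  have hρ' : (ρ : ℂ) ≠ 0 := by exact_mod_cast hρ.ne'
  have h3 : e * (K * (ρ * exp (Ag z y (winv g ++ h) * I))) ≠ 0 :=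
    mul_ne_zero he0 (mul_ne_zero hK (mul_ne_zero hρ' (exp_ne_zero _)))
  exact (div_ne_zero h3 (mul_ne_zero (hz.ne h hh) hD)) h1.symm

/- MODULE cc : one piece is multiplicative -/
/-- The change of argument along a piece. -/
theorem el_mul {z : ℂ} {t : ℝ} (hz : NP z) (ha : Abv z t) {p : Fin 3 → ℂ} (hp : ∀ i, t < (p i).im)
    (a : Pc) {h : List Lt} (hh : Prp h) : ∃ ρ : ℝ, 0 < ρ ∧
    mob (MM z a.1) (p a.2.2) - cn z h =
      ρ * exp (el z p h a * I) * (mob (MM z a.1) (p a.2.1) - cn z h) := by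
  obtain ⟨g, i, j⟩ := a
  obtain ⟨e, he, hm⟩ := mob_sub_cn hz.z0 g (hz.ne h hh)
  obtain ⟨K, hK, hN⟩ := cb_num hz ha (winv g ++ h)
  obtain ⟨K', hK', hD⟩ := cb_den hz ha g
  obtain ⟨r1, hr1, n1⟩ := hN (p i) (hp i)
  obtain ⟨r2, hr2, n2⟩ := hN (p j) (hp j)
  obtain ⟨s1, hs1, d1⟩ := hD (p i) (hp i)
  obtain ⟨s2, hs2, d2⟩ := hD (p j) (hp j)
  have m1 := hm (p i) (den_ne hz ha (hp i) g)
  have m2 := hm (p j) (den_ne hz ha (hp j) g)
  rw [n1, d1] at m1
  rw [n2, d2] at m2
  refine ⟨r2 / r1 * (s1 / s2), by positivity, ?_⟩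
  show mob (MM z g) (p j) - cn z h = _ * exp ((el z p h (g, i, j) : ℝ) * I) *
    (mob (MM z g) (p i) - cn z h)
  rw [m1, m2]
  have hel : exp ((el z p h (g, i, j) : ℝ) * I) =
      exp (Ag z (p j) (winv g ++ h) * I) * exp (Ag z (p i) (winv g) * I) /
        (exp (Ag z (p i) (winv g ++ h) * I) * exp (Ag z (p j) (winv g) * I)) := by
    rw [← exp_add, ← exp_add, ← exp_sub]
    congr 1
    unfold el
    push_cast
    ring
  rw [hel]
  have x1 := exp_ne_zero (Ag z (p i) (winv g ++ h) * I)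
  have x2 := exp_ne_zero (Ag z (p j) (winv g ++ h) * I)
  have x3 := exp_ne_zero (Ag z (p i) (winv g) * I)
  have x4 := exp_ne_zero (Ag z (p j) (winv g) * I)
  have y1 : (r1 : ℂ) ≠ 0 := by exact_mod_cast hr1.ne'
  have y2 : (r2 : ℂ) ≠ 0 := by exact_mod_cast hr2.ne'
  have y3 : (s1 : ℂ) ≠ 0 := by exact_mod_cast hs1.ne'
  have y4 : (s2 : ℂ) ≠ 0 := by exact_mod_cast hs2.ne'
  have y5 := hz.ne h hh
  push_cast
  field_simp

/- MODULE cd : curves -/
theorem chn_append {z : ℂ} {p : Fin 3 → ℂ} {L L' : List Pc} {a b c : ℂ} (h : Chn z p L a b)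
    (h' : Chn z p L' b c) : Chn z p (L ++ L') a c := by
  induction L generalizing a with
  | nil =>
    have h1 : a = b := h
    rw [h1]
    exact h'
  | cons s L ih => exact ⟨h.1, ih h.2⟩

theorem chn_rv {z : ℂ} {p : Fin 3 → ℂ} {L : List Pc} {a b : ℂ} (h : Chn z p L a b) :
    Chn z p (rv L) b a := by
  induction L generalizing a with
  | nil =>
    have h1 : a = b := h
    exact h1.symm
  | cons s L ih =>
    have h1 : rv (s :: L) = rv L ++ [(s.1, s.2.2, s.2.1)] := by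
      unfold rv
      simp
    rw [h1]
    exact chn_append (ih h.2) ⟨rfl, h.1⟩

theorem chn_ap {z : ℂ} {t : ℝ} (hz : NP z) (ha : Abv z t) {p : Fin 3 → ℂ}
    (hp : ∀ i, t < (p i).im) (P : List Lt) {L : List Pc} {a b : ℂ} (h : Chn z p L a b) :
    Chn z p (ap P L) (mob (MM z P) a) (mob (MM z P) b) := by
  induction L generalizing a with
  | nil =>
    have h1 : a = b := h
    rw [h1]
    rfl
  | cons s L ih =>
    refine ⟨?_, ?_⟩
    · show mob (MM z (P ++ s.1)) (p s.2.1) = _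
      rw [MM_append, mob_mul (den_ne hz ha (hp _) s.1), h.1]
    · show Chn z p (ap P L) (mob (MM z (P ++ s.1)) (p s.2.2)) _
      rw [MM_append, mob_mul (den_ne hz ha (hp _) s.1)]
      exact ih h.2

theorem ell_append (z : ℂ) (p : Fin 3 → ℂ) (h : List Lt) (L L' : List Pc) :
    ell z p h (L ++ L') = ell z p h L + ell z p h L' := by
  unfold ell
  rw [List.map_append, List.sum_append]

theorem ell_rv (z : ℂ) (p : Fin 3 → ℂ) (h : List Lt) (L : List Pc) :
    ell z p h (rv L) = - ell z p h L := by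
  have h1 : ∀ s : Pc, el z p h (s.1, s.2.2, s.2.1) = - el z p h s := by
    intro s
    unfold el
    ring
  induction L with
  | nil =>
    unfold ell rv
    simp
  | cons s L ih =>
    have h2 : rv (s :: L) = rv L ++ [(s.1, s.2.2, s.2.1)] := by
      unfold rv
      simp
    rw [h2, ell_append, ih]
    unfold ell
    rw [List.map_cons, List.sum_cons, List.map_cons, List.sum_cons, List.map_nil, List.sum_nil, h1]
    ring

theorem ell_ap (z : ℂ) (p : Fin 3 → ℂ) (h P : List Lt) (L : List Pc) :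
    ell z p h (ap P L) = ell z p (winv P ++ h) L - ell z p (winv P) L := by
  induction L with
  | nil =>
    unfold ell ap
    simp
  | cons s L ih =>
    have h2 : ap P (s :: L) = (P ++ s.1, s.2) :: ap P L := rfl
    have h3 : el z p h (P ++ s.1, s.2) = el z p (winv P ++ h) s - el z p (winv P) s := by
      unfold el
      simp only [winv_append, List.append_assoc]
      ring
    rw [h2]
    unfold ell at ih ⊢
    rw [List.map_cons, List.sum_cons, List.map_cons, List.sum_cons, List.map_cons, List.sum_cons,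
      ih, h3]
    ring

/- MODULE ce : (3.9) -/
theorem ell_mul {z : ℂ} {t : ℝ} (hz : NP z) (ha : Abv z t) {p : Fin 3 → ℂ} (hp : ∀ i, t < (p i).im)
    {L : List Pc} {a b : ℂ} (hc : Chn z p L a b) {h : List Lt} (hh : Prp h) : ∃ ρ : ℝ, 0 < ρ ∧
    b - cn z h = ρ * exp (ell z p h L * I) * (a - cn z h) := by
  induction L generalizing a with
  | nil =>
    have e : a = b := hc
    refine ⟨1, one_pos, ?_⟩
    rw [e]
    simp [ell]
  | cons s L ih =>
    obtain ⟨h1, h2⟩ := hc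
    obtain ⟨r1, hr1, e1⟩ := ih h2
    obtain ⟨r2, hr2, e2⟩ := el_mul hz ha hp s hh
    refine ⟨r1 * r2, mul_pos hr1 hr2, ?_⟩
    have e3 : ell z p h (s :: L) = el z p h s + ell z p h L := by
      simp [ell]
    rw [e1, e2, h1, e3]
    push_cast
    rw [add_mul, Complex.exp_add]
    ring

/-- The change of argument along a closed curve is a multiple of `2 π`. -/
theorem ell_closed {z : ℂ} {t : ℝ} (hz : NP z) (ha : Abv z t) {p : Fin 3 → ℂ}
    (hp : ∀ i, t < (p i).im) {L : List Pc} {a : ℂ} (hc : Chn z p L a a)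
    {h : List Lt} (hh : Prp h) : ∃ k : ℤ, ell z p h L = 2 * Real.pi * k := by
  obtain ⟨r, hr, e⟩ := ell_mul hz ha hp hc hh
  cases L with
  | nil => exact ⟨0, by simp [ell]⟩
  | cons s L =>
    have ha0 : a - cn z h ≠ 0 := by
      obtain ⟨h1, -⟩ := hc
      rw [← h1]
      exact sub_ne_zero.2 (mob_ne_cn hz ha (hp _) _ hh)
    have e1 : (r : ℂ) * exp (ell z p h (s :: L) * I) = 1 := by
      have := mul_right_cancel₀ ha0 (e.symm.trans (one_mul (a - cn z h)).symm)
      exact this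
    have e2 : r = 1 := by
      have := congrArg norm e1
      rw [norm_mul, Complex.norm_exp_ofReal_mul_I, mul_one, norm_one, Complex.norm_real,
        Real.norm_eq_abs, abs_of_pos hr] at this
      exact this
    rw [e2, Complex.ofReal_one, one_mul, Complex.exp_eq_one_iff] at e1
    obtain ⟨k, hk⟩ := e1
    refine ⟨k, ?_⟩
    have h3 : ((ell z p h (s :: L) : ℝ) : ℂ) = ((2 * Real.pi * k : ℝ) : ℂ) := by
      have h4 : ((ell z p h (s :: L) : ℝ) : ℂ) * I = (2 * Real.pi * k) * I := by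
        rw [hk]; ring
      have h5 := mul_right_cancel₀ Complex.I_ne_zero h4
      rw [h5]
      push_cast
      ring
    exact_mod_cast h3

/- MODULE cf : positive distance -/
theorem piece_dist {z : ℂ} {t : ℝ} (hz : NP z) (ha : Abv z t) {p : Fin 3 → ℂ}
    (hp : ∀ i, t < (p i).im) (a : Pc) : ∃ δ : ℝ, 0 < δ ∧ ∀ s : ℝ, 0 ≤ s → s ≤ 1 → ∀ h, Prp h →
    δ ≤ ‖mob (MM z a.1) (p a.2.1 + s * (p a.2.2 - p a.2.1)) - cn z h‖ := by
  obtain ⟨g, i, j⟩ := a
  set m : ℝ := min ((p i).im - t) ((p j).im - t) with hm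
  have hm0 : 0 < m := lt_min (by linarith [hp i]) (by linarith [hp j])
  set D : ℝ := ‖MM z g 1 0‖ * (‖p i‖ + ‖p j - p i‖) + ‖MM z g 1 1‖ + 1 with hD
  have hD0 : 0 < D := by positivity
  refine ⟨m / ((D + ‖MM z g 1 0‖ * m) * D), by positivity, ?_⟩
  intro s hs0 hs1 h hh
  show m / ((D + ‖MM z g 1 0‖ * m) * D) ≤ ‖mob (MM z g) (p i + s * (p j - p i)) - cn z h‖
  set y : ℂ := p i + s * (p j - p i) with hy
  have hyi : m ≤ y.im - t := by
    have e : y.im = (1 - s) * (p i).im + s * (p j).im := by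
      rw [hy]; simp; ring
    have e1 : m ≤ (p i).im - t := min_le_left _ _
    have e2 : m ≤ (p j).im - t := min_le_right _ _
    rw [e]
    nlinarith [mul_le_mul_of_nonneg_left e1 (sub_nonneg.2 hs1), mul_le_mul_of_nonneg_left e2 hs0]
  have hyt : t < y.im := by linarith
  have hden := den_ne hz ha hyt g
  have hh0 : MM z h 1 0 ≠ 0 := hz.ne h hh
  obtain ⟨e, he, hmob⟩ := mob_sub_cn hz.z0 g hh0
  have hne : ‖e‖ = 1 := by
    have h1 : ‖e‖ ^ 2 = 1 := by rw [← norm_pow, he, norm_one]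
    nlinarith [norm_nonneg e, sq_nonneg (‖e‖ - 1)]
  rw [hmob y hden, norm_div, norm_mul, norm_mul, hne, one_mul]
  have hDy : ‖MM z g 1 0 * y + MM z g 1 1‖ ≤ D := by
    have h1 : ‖y‖ ≤ ‖p i‖ + ‖p j - p i‖ := by
      rw [hy]
      refine (norm_add_le _ _).trans ?_
      rw [norm_mul, Complex.norm_real, Real.norm_eq_abs, abs_of_nonneg hs0]
      nlinarith [norm_nonneg (p j - p i)]
    refine (norm_add_le _ _).trans ?_
    rw [norm_mul]
    have := mul_le_mul_of_nonneg_left h1 (norm_nonneg (MM z g 1 0))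
    rw [hD]; linarith
  set A : ℝ := ‖MM z g 1 0 * y + MM z g 1 1‖ with hA
  have hA0 : 0 < A := norm_pos_iff.2 hden
  set M : Matrix (Fin 2) (Fin 2) ℂ := MM z (winv g ++ h) with hM
  have hhn : 0 < ‖MM z h 1 0‖ := norm_pos_iff.2 hh0
  -- the lower left entry of `h`
  obtain ⟨σ, hσ, hrel⟩ : ∃ σ : ℂ, ‖σ‖ = 1 ∧
      MM z h 1 0 = σ * (MM z g 1 0 * M 0 0 + MM z g 1 1 * M 1 0) := by
    have hw := MM_winv hz.z0 g
    have hap : M = MM z (winv g) * MM z h := by rw [hM, MM_append]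
    rcases hw with hw | hw
    · refine ⟨1, by simp, ?_⟩
      have h2 : MM z g * M = MM z h := by
        rw [hap, ← Matrix.mul_assoc, hw.2, Matrix.one_mul]
      rw [← h2, Matrix.mul_apply, Fin.sum_univ_two]
      ring
    · refine ⟨-1, by simp, ?_⟩
      have h2 : MM z g * M = - MM z h := by
        rw [hap, ← Matrix.mul_assoc, hw.2, Matrix.neg_mul, Matrix.one_mul]
      have h3 : MM z h = - (MM z g * M) := by rw [h2, neg_neg]
      rw [h3, Matrix.neg_apply, Matrix.mul_apply, Fin.sum_univ_two]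
      ring
  have hN : ‖MM z h 1 0‖ = ‖MM z g 1 0 * M 0 0 + MM z g 1 1 * M 1 0‖ := by
    conv_lhs => rw [hrel]
    rw [norm_mul, hσ, one_mul]
  -- the main estimate
  have key : m * ‖MM z h 1 0‖ ≤ ‖M 1 0 * y - M 0 0‖ * (A + ‖MM z g 1 0‖ * m) := by
    by_cases hP : Prp (winv g ++ h)
    · have hM0 : M 1 0 ≠ 0 := hz.ne _ hP
      have hc := ha _ hP
      set c : ℂ := cn z (winv g ++ h) with hcdef
      have hc1 : M 0 0 = M 1 0 * c := by
        rw [hcdef, cn, ← hM, mul_div_cancel₀ _ hM0]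
      have h1 : M 1 0 * y - M 0 0 = M 1 0 * (y - c) := by rw [hc1]; ring
      have h2 : MM z g 1 0 * M 0 0 + MM z g 1 1 * M 1 0 =
          M 1 0 * ((MM z g 1 0 * y + MM z g 1 1) - MM z g 1 0 * (y - c)) := by
        rw [hc1]; ring
      have h3 : ‖MM z h 1 0‖ ≤ ‖M 1 0‖ * (A + ‖MM z g 1 0‖ * ‖y - c‖) := by
        rw [hN, h2, norm_mul]
        refine mul_le_mul_of_nonneg_left ?_ (norm_nonneg _)
        refine (norm_sub_le _ _).trans ?_
        rw [norm_mul]
      have h4 : m ≤ ‖y - c‖ := by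
        have h5 : (y - c).im ≤ ‖y - c‖ := (le_abs_self _).trans (Complex.abs_im_le_norm _)
        rw [Complex.sub_im] at h5
        linarith
      rw [h1, norm_mul]
      have h6 : m * (A + ‖MM z g 1 0‖ * ‖y - c‖) ≤ ‖y - c‖ * (A + ‖MM z g 1 0‖ * m) := by
        nlinarith [mul_le_mul_of_nonneg_right h4 hA0.le]
      calc m * ‖MM z h 1 0‖ ≤ m * (‖M 1 0‖ * (A + ‖MM z g 1 0‖ * ‖y - c‖)) :=
            mul_le_mul_of_nonneg_left h3 hm0.le
        _ = ‖M 1 0‖ * (m * (A + ‖MM z g 1 0‖ * ‖y - c‖)) := by ring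
        _ ≤ ‖M 1 0‖ * (‖y - c‖ * (A + ‖MM z g 1 0‖ * m)) :=
            mul_le_mul_of_nonneg_left h6 (norm_nonneg _)
        _ = _ := by ring
    · have hM0 : M 1 0 = 0 := not_prp hP hz.z0
      rw [hN, hM0, mul_zero, add_zero, zero_mul, zero_sub, norm_neg, norm_mul]
      nlinarith [mul_nonneg (norm_nonneg (M 0 0)) hA0.le]
  rw [div_le_div_iff₀ (by positivity) (by positivity)]
  have h7 : ‖M 1 0 * y - M 0 0‖ * (A + ‖MM z g 1 0‖ * m) ≤
      ‖M 1 0 * y - M 0 0‖ * (D + ‖MM z g 1 0‖ * m) :=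
    mul_le_mul_of_nonneg_left (by linarith) (norm_nonneg _)
  calc m * (‖MM z h 1 0‖ * A) = (m * ‖MM z h 1 0‖) * A := by ring
    _ ≤ (‖M 1 0 * y - M 0 0‖ * (D + ‖MM z g 1 0‖ * m)) * D :=
        mul_le_mul (key.trans h7) hDy hA0.le (by positivity)
    _ = _ := by ring

theorem curve_dist {z : ℂ} {t : ℝ} (hz : NP z) (ha : Abv z t) {p : Fin 3 → ℂ}
    (hp : ∀ i, t < (p i).im) (L : List Pc) : ∃ δ : ℝ, 0 < δ ∧ ∀ a ∈ L, ∀ s : ℝ, 0 ≤ s → s ≤ 1 →
    ∀ h, Prp h → δ ≤ ‖mob (MM z a.1) (p a.2.1 + s * (p a.2.2 - p a.2.1)) - cn z h‖ := by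
  induction L with
  | nil => exact ⟨1, one_pos, fun a ha' => by simp at ha'⟩
  | cons s L ih =>
    obtain ⟨d1, h1, h2⟩ := ih
    obtain ⟨d2, h3, h4⟩ := piece_dist hz ha hp s
    refine ⟨min d1 d2, lt_min h1 h3, ?_⟩
    intro a haL x hx0 hx1 h hh
    rcases List.mem_cons.1 haL with rfl | h5
    · exact (min_le_right _ _).trans (h4 x hx0 hx1 h hh)
    · exact (min_le_left _ _).trans (h2 a h5 x hx0 hx1 h hh)

/- MODULE cg : (3.10) -/
/-- A continuous real function on `[0, 1]` with constant `exp (i f)` is constant. -/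
theorem const_of_exp {f : ℝ → ℝ} (hf : ContinuousOn f (Set.Icc 0 1))
    (h : ∀ s ∈ Set.Icc (0 : ℝ) 1, exp (f s * I) = exp (f 0 * I)) : f 1 = f 0 := by
  by_contra hne
  have hint : ∀ v : ℝ, v ∈ Set.uIcc (f 0) (f 1) → ∃ k : ℤ, v = f 0 + k * (2 * Real.pi) := by
    intro v hv
    have hc : ContinuousOn f (Set.uIcc 0 1) := by
      rw [Set.uIcc_of_le zero_le_one]; exact hf
    obtain ⟨s, hs, rfl⟩ := intermediate_value_uIcc hc hv
    rw [Set.uIcc_of_le zero_le_one] at hs
    have h1 := h s hs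
    rw [Complex.exp_eq_exp_iff_exists_int] at h1
    obtain ⟨k, hk⟩ := h1
    refine ⟨k, ?_⟩
    have h2 : ((f s : ℝ) : ℂ) * I = ((f 0 + k * (2 * Real.pi) : ℝ) : ℂ) * I := by
      rw [hk]; push_cast; ring
    have h3 := mul_right_cancel₀ Complex.I_ne_zero h2
    exact_mod_cast h3
  have hpi := Real.pi_gt_three
  rcases lt_or_gt_of_ne hne with hlt | hlt
  · -- `f 1 < f 0`
    have hv : max (f 1) (f 0 - 1) ∈ Set.uIcc (f 0) (f 1) := by
      rw [Set.uIcc_of_ge hlt.le]
      exact ⟨le_max_left _ _, max_le hlt.le (by linarith)⟩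
    obtain ⟨k, hk⟩ := hint _ hv
    have h1 : max (f 1) (f 0 - 1) < f 0 := max_lt hlt (by linarith)
    have h2 : f 0 - 1 ≤ max (f 1) (f 0 - 1) := le_max_right _ _
    rw [hk] at h1 h2
    have h3 : (k : ℝ) < 0 := by nlinarith
    have h4 : k ≤ -1 := by
      have : k < 0 := by exact_mod_cast h3
      omega
    have h5 : (k : ℝ) ≤ -1 := by exact_mod_cast h4
    nlinarith
  · have hv : min (f 1) (f 0 + 1) ∈ Set.uIcc (f 0) (f 1) := by
      rw [Set.uIcc_of_le hlt.le]
      exact ⟨le_min hlt.le (by linarith), min_le_left _ _⟩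
    obtain ⟨k, hk⟩ := hint _ hv
    have h1 : f 0 < min (f 1) (f 0 + 1) := lt_min hlt (by linarith)
    have h2 : min (f 1) (f 0 + 1) ≤ f 0 + 1 := min_le_right _ _
    rw [hk] at h1 h2
    have h3 : 0 < (k : ℝ) := by nlinarith
    have h4 : 1 ≤ k := by
      have : 0 < k := by exact_mod_cast h3
      omega
    have h5 : (1 : ℝ) ≤ k := by exact_mod_cast h4
    nlinarith

theorem el_sub {z : ℂ} {t : ℝ} (hz : NP z) (ha : Abv z t) {p : Fin 3 → ℂ} (hp : ∀ i, t < (p i).im)
    (a : Pc) {h h' : List Lt} (hh : Prp h) (hh' : Prp h') {δ : ℝ} (hδ : 0 < δ)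
    (hc : ‖cn z h - cn z h'‖ ≤ δ / 2)
    (hd : ∀ s : ℝ, 0 ≤ s → s ≤ 1 →
      δ ≤ ‖mob (MM z a.1) (p a.2.1 + s * (p a.2.2 - p a.2.1)) - cn z h'‖) :
    el z p h a - el z p h' a =
      ((mob (MM z a.1) (p a.2.2) - cn z h) / (mob (MM z a.1) (p a.2.2) - cn z h')).arg -
      ((mob (MM z a.1) (p a.2.1) - cn z h) / (mob (MM z a.1) (p a.2.1) - cn z h')).arg := by
  obtain ⟨g, i, j⟩ := a
  set y : ℝ → ℂ := fun s => p i + s * (p j - p i) with hy
  have hy0 : y 0 = p i := by simp [hy]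
  have hy1 : y 1 = p j := by simp [hy]
  have hyt : ∀ s ∈ Set.Icc (0 : ℝ) 1, t < (y s).im := by
    intro s hs
    have e : (y s).im = (1 - s) * (p i).im + s * (p j).im := by
      simp [hy]; ring
    rw [e]
    rcases eq_or_lt_of_le hs.1 with h0 | h0
    · rw [← h0]; simpa using hp i
    · nlinarith [mul_lt_mul_of_pos_left (hp j) h0,
        mul_le_mul_of_nonneg_left (hp i).le (sub_nonneg.2 hs.2)]
  have hyc : Continuous y := by
    simp only [hy]; fun_prop
  have hden : ∀ s ∈ Set.Icc (0 : ℝ) 1, MM z g 1 0 * y s + MM z g 1 1 ≠ 0 :=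
    fun s hs => den_ne hz ha (hyt s hs) g
  -- the continuous change of argument
  have hF : ∀ w : List Lt, Prp w → ∃ F : ℝ → ℝ, F 0 = 0 ∧ ContinuousOn F (Set.Icc 0 1) ∧
      F 1 = el z p w (g, i, j) ∧ ∀ s ∈ Set.Icc (0 : ℝ) 1, ∃ ρ : ℝ, 0 < ρ ∧
        mob (MM z g) (y s) - cn z w = ρ * exp (F s * I) * (mob (MM z g) (y 0) - cn z w) := by
    intro w hw
    refine ⟨fun s => Ag z (y s) (winv g ++ w) - Ag z (y 0) (winv g ++ w) -
      (Ag z (y s) (winv g) - Ag z (y 0) (winv g)), by ring, ?_, ?_, ?_⟩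
    · have hA : ∀ v : List Lt, ContinuousOn (fun s => Ag z (y s) v) (Set.Icc 0 1) := by
        intro v
        by_cases hv : Prp v
        · have e : (fun s => Ag z (y s) v) = fun s => (y s - cn z v).arg := by
            funext s
            simp only [Ag, if_pos hv]
          rw [e]
          intro s hs
          have h1 : 0 < (y s - cn z v).im := by
            rw [Complex.sub_im]
            linarith [hyt s hs, ha v hv]
          have h2 : y s - cn z v ∈ slitPlane := Or.inr h1.ne'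
          exact (ContinuousAt.comp (f := fun s => y s - cn z v) (continuousAt_arg h2)
            (hyc.sub continuous_const).continuousAt).continuousWithinAt
        · have e : (fun s => Ag z (y s) v) = fun _ => 0 := by
            funext s
            simp only [Ag, if_neg hv]
          rw [e]; exact continuousOn_const
      exact ((hA _).sub continuousOn_const).sub ((hA _).sub continuousOn_const)
    · show _ = Ag z (p j) (winv g ++ w) - Ag z (p i) (winv g ++ w) -
        (Ag z (p j) (winv g) - Ag z (p i) (winv g))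
      simp only [hy0, hy1]
    · intro s hs
      have h1 : ∀ k : Fin 3, t < ((![y 0, y s, y s] : Fin 3 → ℂ) k).im := by
        intro k
        fin_cases k
        · exact hyt 0 ⟨le_rfl, zero_le_one⟩
        · exact hyt s hs
        · exact hyt s hs
      exact el_mul hz ha h1 ((g, 0, 1) : Pc) hw
  obtain ⟨F, F0, Fc, F1, Fm⟩ := hF h hh
  obtain ⟨F', F0', Fc', F1', Fm'⟩ := hF h' hh'
  -- the ratio
  set r : ℝ → ℂ := fun s => (mob (MM z g) (y s) - cn z h) / (mob (MM z g) (y s) - cn z h') with hr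
  have hd' : ∀ s ∈ Set.Icc (0 : ℝ) 1, δ ≤ ‖mob (MM z g) (y s) - cn z h'‖ :=
    fun s hs => hd s hs.1 hs.2
  have hne' : ∀ s ∈ Set.Icc (0 : ℝ) 1, mob (MM z g) (y s) - cn z h' ≠ 0 := by
    intro s hs h0
    have := hd' s hs
    rw [h0, norm_zero] at this
    linarith
  have hr1 : ∀ s ∈ Set.Icc (0 : ℝ) 1, ‖r s - 1‖ ≤ 1 / 2 := by
    intro s hs
    have e : r s - 1 = (cn z h' - cn z h) / (mob (MM z g) (y s) - cn z h') := by
      rw [hr]
      field_simp [hne' s hs]
      ring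
    rw [e, norm_div, norm_sub_rev]
    rw [div_le_iff₀ (by linarith [hd' s hs])]
    linarith [hd' s hs]
  have hrs : ∀ s ∈ Set.Icc (0 : ℝ) 1, r s ∈ slitPlane := by
    intro s hs
    left
    have h1 : |(r s - 1).re| ≤ ‖r s - 1‖ := Complex.abs_re_le_norm _
    rw [Complex.sub_re, Complex.one_re] at h1
    have := abs_le.1 (h1.trans (hr1 s hs))
    linarith [this.1]
  have hmc : ContinuousOn (fun s => mob (MM z g) (y s)) (Set.Icc 0 1) := by
    have h1 : Continuous fun s => MM z g 0 0 * y s + MM z g 0 1 :=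
      (continuous_const.mul hyc).add continuous_const
    have h2 : Continuous fun s => MM z g 1 0 * y s + MM z g 1 1 :=
      (continuous_const.mul hyc).add continuous_const
    exact h1.continuousOn.div h2.continuousOn hden
  have hrc : ContinuousOn r (Set.Icc 0 1) :=
    (hmc.sub continuousOn_const).div (hmc.sub continuousOn_const) hne'
  have hac : ContinuousOn (fun s => (r s).arg) (Set.Icc 0 1) := fun s hs =>
    (continuousAt_arg (hrs s hs)).comp_continuousWithinAt (hrc s hs)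
  have h01 : (0 : ℝ) ∈ Set.Icc (0 : ℝ) 1 := ⟨le_rfl, zero_le_one⟩
  have hfin := const_of_exp (f := fun s => F s - F' s - (r s).arg) ((Fc.sub Fc').sub hac) (by
    intro s hs
    obtain ⟨ρ, hρ, e1⟩ := Fm s hs
    obtain ⟨ρ', hρ', e2⟩ := Fm' s hs
    -- the ratio at `s`
    have e3 : r s = ((ρ / ρ' : ℝ) : ℂ) * (exp ((F s - F' s : ℝ) * I) * r 0) := by
      have h5 : mob (MM z g) (y 0) - cn z h' ≠ 0 := hne' 0 h01
      have h6 : exp (F' s * I) ≠ 0 := Complex.exp_ne_zero _
      have h7 : (ρ' : ℂ) ≠ 0 := by exact_mod_cast hρ'.ne'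
      have h8 : exp ((F s - F' s : ℝ) * I) = exp (F s * I) / exp (F' s * I) := by
        rw [← Complex.exp_sub]
        push_cast
        ring_nf
      rw [h8]
      simp only [hr]
      rw [e1, e2]
      push_cast
      field_simp
    have e4 : exp ((r s).arg * I) = exp ((F s - F' s : ℝ) * I) * exp ((r 0).arg * I) := by
      have n1 : ((‖r s‖ : ℝ) : ℂ) * exp ((r s).arg * I) = r s := Complex.norm_mul_exp_arg_mul_I _
      have n2 : ((‖r 0‖ : ℝ) : ℂ) * exp ((r 0).arg * I) = r 0 := Complex.norm_mul_exp_arg_mul_I _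
      have n3 : ‖r s‖ = ρ / ρ' * ‖r 0‖ := by
        conv_lhs => rw [e3]
        rw [norm_mul, norm_mul, Complex.norm_exp_ofReal_mul_I, one_mul, Complex.norm_real,
          Real.norm_eq_abs, abs_of_pos (div_pos hρ hρ')]
      have n4 : ((‖r s‖ : ℝ) : ℂ) ≠ 0 := by
        have := slitPlane_ne_zero (hrs s hs)
        exact_mod_cast (norm_ne_zero_iff.2 this)
      apply mul_left_cancel₀ n4
      rw [n1]
      conv_lhs => rw [e3, ← n2]
      rw [n3]
      push_cast
      ring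
    have e5 : exp (((F s - F' s - (r s).arg : ℝ) : ℂ) * I) =
        exp ((F s - F' s : ℝ) * I) / exp ((r s).arg * I) := by
      rw [← Complex.exp_sub]
      push_cast
      ring_nf
    have e6 : exp (((F 0 - F' 0 - (r 0).arg : ℝ) : ℂ) * I) = 1 / exp ((r 0).arg * I) := by
      rw [F0, F0', ← Complex.exp_zero, ← Complex.exp_sub]
      push_cast
      ring_nf
    show exp (((F s - F' s - (r s).arg : ℝ) : ℂ) * I) = exp (((F 0 - F' 0 - (r 0).arg : ℝ) : ℂ) * I)
    rw [e5, e6, e4]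
    have h9 : exp ((F s - F' s : ℝ) * I) ≠ 0 := Complex.exp_ne_zero _
    have h10 : exp ((r 0).arg * I) ≠ 0 := Complex.exp_ne_zero _
    field_simp)
  have hfin2 : F 1 - F' 1 - (r 1).arg = F 0 - F' 0 - (r 0).arg := hfin
  rw [F0, F0', F1, F1'] at hfin2
  have r1 : (r 1).arg = ((mob (MM z g) (p j) - cn z h) / (mob (MM z g) (p j) - cn z h')).arg := by
    simp only [hr, hy1]
  have r0 : (r 0).arg = ((mob (MM z g) (p i) - cn z h) / (mob (MM z g) (p i) - cn z h')).arg := by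
    simp only [hr, hy0]
  show el z p h (g, i, j) - el z p h' (g, i, j) =
    ((mob (MM z g) (p j) - cn z h) / (mob (MM z g) (p j) - cn z h')).arg -
    ((mob (MM z g) (p i) - cn z h) / (mob (MM z g) (p i) - cn z h')).arg
  rw [← r1, ← r0]
  linarith

/- MODULE ch -/
private theorem ch_tel {z : ℂ} {t : ℝ} (hz : NP z) (ha : Abv z t) {p : Fin 3 → ℂ}
    (hp : ∀ i, t < (p i).im) {h h' : List Lt} (hh : Prp h) (hh' : Prp h') {δ : ℝ} (hδ : 0 < δ)
    (hn : ‖cn z h - cn z h'‖ ≤ δ / 2) : ∀ (L : List Pc) (a b : ℂ), Chn z p L a b →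
    (∀ a ∈ L, ∀ s : ℝ, 0 ≤ s → s ≤ 1 →
      δ ≤ ‖mob (MM z a.1) (p a.2.1 + s * (p a.2.2 - p a.2.1)) - cn z h'‖) →
    ell z p h L - ell z p h' L = ((b - cn z h) / (b - cn z h')).arg -
      ((a - cn z h) / (a - cn z h')).arg := by
  intro L
  induction L with
  | nil =>
    intro a b hc _
    have hab : a = b := hc
    simp [ell, hab]
  | cons x L ih =>
    intro a b hc hd
    obtain ⟨h1, h2⟩ := hc
    have e1 := ih _ _ h2 (fun y hy => hd y (List.mem_cons_of_mem _ hy))
    have e2 := el_sub hz ha hp x hh hh' hδ hn (hd x List.mem_cons_self)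
    have e3 : ell z p h (x :: L) = el z p h x + ell z p h L := by simp [ell]
    have e4 : ell z p h' (x :: L) = el z p h' x + ell z p h' L := by simp [ell]
    rw [h1] at e2
    rw [e3, e4]
    linarith

theorem ell_near {z : ℂ} {t : ℝ} (hz : NP z) (ha : Abv z t) {p : Fin 3 → ℂ}
    (hp : ∀ i, t < (p i).im) {L : List Pc} {a : ℂ} (hc : Chn z p L a a) : ∃ δ : ℝ, 0 < δ ∧
    ∀ h h', Prp h → Prp h' → ‖cn z h - cn z h'‖ ≤ δ → ell z p h L = ell z p h' L := by
  obtain ⟨δ, hδ, hd⟩ := curve_dist hz ha hp L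
  refine ⟨δ / 2, by positivity, fun h h' hh hh' hn => ?_⟩
  have := ch_tel hz ha hp hh hh' hδ hn L a a hc (fun x hx s hs0 hs1 => hd x hx s hs0 hs1 h' hh')
  rw [sub_self] at this
  linarith

/- MODULE ci -/
private theorem ci_arg_div {a b : ℂ} (ha : 0 < a.im) (hb : 0 < b.im) :
    a.arg - b.arg = (a / b).arg := by
  have ha0 : a ≠ 0 := by
    rintro rfl
    simp at ha
  have hb0 : b ≠ 0 := by
    rintro rfl
    simp at hb
  have h1 : ((a / b * b).arg : Real.Angle) = (a / b).arg + b.arg :=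
    Complex.arg_mul_coe_angle (div_ne_zero ha0 hb0) hb0
  rw [div_mul_cancel₀ a hb0] at h1
  have h2 : ((a.arg - b.arg : ℝ) : Real.Angle) = ((a / b).arg : ℝ) := by
    rw [Real.Angle.coe_sub, h1]
    abel
  have h3 := (Real.Angle.angle_eq_iff_two_pi_dvd_sub).1 h2
  obtain ⟨k, hk⟩ := h3
  have a1 := Complex.arg_nonneg_iff.2 ha.le
  have a2 := Complex.arg_nonneg_iff.2 hb.le
  have a3 : a.arg < Real.pi := by
    rcases (Complex.arg_le_pi a).lt_or_eq with h | h
    · exact h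
    · exact absurd (Complex.arg_eq_pi_iff.1 h).2 ha.ne'
  have a4 : b.arg < Real.pi := by
    rcases (Complex.arg_le_pi b).lt_or_eq with h | h
    · exact h
    · exact absurd (Complex.arg_eq_pi_iff.1 h).2 hb.ne'
  have a5 := Complex.neg_pi_lt_arg (a / b)
  have a6 := Complex.arg_le_pi (a / b)
  have hp := Real.pi_pos
  have hk0 : k = 0 := by
    have k1 : (k : ℝ) < 1 := by
      by_contra hc
      push Not at hc
      nlinarith
    have k2 : (-1 : ℝ) < k := by
      by_contra hc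
      push Not at hc
      nlinarith
    have k3 : k < 1 := by exact_mod_cast k1
    have k4 : -1 < k := by exact_mod_cast k2
    omega
  rw [hk0] at hk
  simp at hk
  linarith

private theorem ci_arg_one {w : ℂ} (h : ‖w‖ ≤ 1 / 2) : |(1 + w).arg| ≤ 3 / 2 * ‖w‖ := by
  have h1 := Complex.norm_log_one_add_half_le_self h
  have h2 : |(Complex.log (1 + w)).im| ≤ ‖Complex.log (1 + w)‖ := Complex.abs_im_le_norm _
  rw [Complex.log_im] at h2
  exact h2.trans h1

/-- The argument is uniformly continuous on half planes. -/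
theorem arg_sub_le {a b : ℂ} (ha : 0 < a.im) (hb : 0 < b.im) (h : 2 * ‖a - b‖ ≤ b.im) :
    |a.arg - b.arg| ≤ 2 * ‖a - b‖ / b.im := by
  have hb0 : b ≠ 0 := by
    rintro rfl
    simp at hb
  have hbn : b.im ≤ ‖b‖ := (le_abs_self _).trans (Complex.abs_im_le_norm b)
  have h1 : ‖(a - b) / b‖ ≤ ‖a - b‖ / b.im := by
    rw [norm_div]
    exact div_le_div_of_nonneg_left (norm_nonneg _) hb hbn
  have h2 : ‖(a - b) / b‖ ≤ 1 / 2 := by
    refine h1.trans ?_
    rw [div_le_iff₀ hb]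
    linarith
  have h3 := ci_arg_one h2
  have h4 : 1 + (a - b) / b = a / b := by
    field_simp
    ring
  rw [ci_arg_div ha hb, ← h4]
  refine h3.trans ?_
  have h5 : 0 ≤ ‖a - b‖ / b.im := by positivity
  calc 3 / 2 * ‖(a - b) / b‖ ≤ 3 / 2 * (‖a - b‖ / b.im) := by linarith
    _ ≤ 2 * (‖a - b‖ / b.im) := by linarith
    _ = _ := by ring

private theorem ci_MM_cont {z₀ : ℂ} (h0 : z₀ ≠ 0) (g : List Lt) :
    ∀ i j, ContinuousAt (fun z => MM z g i j) z₀ := by
  induction g with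
  | nil =>
    intro i j
    simp only [MM_nil]
    exact continuousAt_const
  | cons l g ih =>
    intro i j
    have hl : ∀ a b, ContinuousAt (fun z => lm z l a b) z₀ := by
      have hinv : ContinuousAt (fun z : ℂ => z⁻¹) z₀ := continuousAt_inv₀ h0
      intro a b
      cases l <;> fin_cases a <;> fin_cases b <;> simp [lm]
      all_goals first
        | exact continuousAt_const
        | exact continuousAt_id
        | exact hinv
        | exact hinv.neg
        | exact (continuousAt_const.mul hinv)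
        | exact (continuousAt_const.mul hinv).neg
        | exact (continuousAt_const.mul continuousAt_id).neg
    simp only [MM_cons, Matrix.mul_apply, Fin.sum_univ_two]
    exact ((hl i 0).mul (ih 0 j)).add ((hl i 1).mul (ih 1 j))

theorem Ag_cont {z₀ : ℂ} {t : ℝ} (hz : NP z₀) (ha : Abv z₀ t) {y : ℂ → ℂ}
    (hc : ContinuousAt y z₀) (hy : t < (y z₀).im) (g : List Lt) :
    ContinuousAt (fun z => Ag z (y z) g) z₀ := by
  by_cases hg : Prp g
  · have h1 : (fun z => Ag z (y z) g) = fun z => (y z - cn z g).arg := by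
      funext z
      unfold Ag
      rw [if_pos hg]
    rw [h1]
    have h2 : ContinuousAt (fun z => cn z g) z₀ :=
      (ci_MM_cont hz.z0 g 0 0).div (ci_MM_cont hz.z0 g 1 0) (hz.ne g hg)
    have h3 : ContinuousAt (fun z => y z - cn z g) z₀ := hc.sub h2
    have h4 : 0 < (y z₀ - cn z₀ g).im := by
      rw [sub_im]
      linarith [ha g hg]
    exact (Complex.continuousAt_arg (Complex.mem_slitPlane_iff.2 (Or.inr h4.ne'))).comp (f := fun z => y z - cn z g) h3
  · have h1 : (fun z => Ag z (y z) g) = fun _ => 0 := by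
      funext z
      unfold Ag
      rw [if_neg hg]
    rw [h1]
    exact continuousAt_const

theorem Ag_unif {z₀ : ℂ} {t : ℝ} (hz : z₀ ∈ U) (h0 : z₀ ≠ 0) (ha : Abv z₀ t) {y : ℂ → ℂ}
    (hc : ContinuousAt y z₀) (hy : t < (y z₀).im) {ε : ℝ} (hε : 0 < ε) :
    ∀ᶠ z in 𝓝 z₀, ∀ g, |Ag z (y z) g - Ag z₀ (y z₀) g| < ε := by
  obtain ⟨r, L, hr, hL, hU, hlip⟩ := cn_lip hz
  set m : ℝ := (y z₀).im - t with hm
  have hm0 : 0 < m := by linarith
  have h1 : Tendsto (fun z => ‖y z - y z₀‖ + L * ‖z - z₀‖) (𝓝 z₀) (𝓝 0) := by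
    have e1 : Tendsto (fun z => ‖y z - y z₀‖) (𝓝 z₀) (𝓝 0) := by
      have := (hc.tendsto.sub_const (y z₀)).norm
      simpa using this
    have e2 : Tendsto (fun z : ℂ => L * ‖z - z₀‖) (𝓝 z₀) (𝓝 0) := by
      have hcc : Continuous (fun z : ℂ => L * ‖z - z₀‖) := by fun_prop
      have := hcc.tendsto z₀
      simpa using this
    simpa using e1.add e2
  have h2 : ∀ᶠ z in 𝓝 z₀, ‖y z - y z₀‖ + L * ‖z - z₀‖ < min (m / 2) (ε * m / 2) :=
    h1.eventually_lt_const (by positivity)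
  filter_upwards [h2, ball_mem_nhds z₀ hr] with z hz1 hz2 g
  by_cases hg : Prp g
  · unfold Ag
    rw [if_pos hg, if_pos hg]
    have h3 : ‖cn z g - cn z₀ g‖ ≤ L * ‖z - z₀‖ := hlip z hz2 z₀ (mem_ball_self hr) g hg
    have h4 : m ≤ (y z₀ - cn z₀ g).im := by
      rw [sub_im]
      linarith [ha g hg]
    have h5 : ‖(y z - cn z g) - (y z₀ - cn z₀ g)‖ ≤ ‖y z - y z₀‖ + L * ‖z - z₀‖ := by
      have e1 : (y z - cn z g) - (y z₀ - cn z₀ g) = (y z - y z₀) - (cn z g - cn z₀ g) := by ring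
      rw [e1]
      exact (norm_sub_le _ _).trans (by linarith)
    have h6 : ‖(y z - cn z g) - (y z₀ - cn z₀ g)‖ < m / 2 :=
      h5.trans_lt (hz1.trans_le (min_le_left _ _))
    have h7 : ‖(y z - cn z g) - (y z₀ - cn z₀ g)‖ < ε * m / 2 :=
      h5.trans_lt (hz1.trans_le (min_le_right _ _))
    have h8 : 0 < (y z - cn z g).im := by
      have e1 : |((y z - cn z g) - (y z₀ - cn z₀ g)).im| ≤ ‖(y z - cn z g) - (y z₀ - cn z₀ g)‖ :=
        Complex.abs_im_le_norm _
      rw [sub_im (y z - cn z g)] at e1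
      have e2 := (abs_le.1 e1).1
      linarith
    have h9 : 0 < (y z₀ - cn z₀ g).im := by linarith
    have h10 := arg_sub_le h8 h9 (by linarith)
    refine h10.trans_lt ?_
    rw [div_lt_iff₀ h9]
    nlinarith
  · unfold Ag
    rw [if_neg hg, if_neg hg, sub_zero, abs_zero]
    exact hε

/- MODULE cj -/
theorem ell_cont {z₀ : ℂ} {t : ℝ} (hz : NP z₀) (ha : Abv z₀ t) {p : ℂ → Fin 3 → ℂ}
    (hc : ∀ i, ContinuousAt (fun z => p z i) z₀) (hp : ∀ i, t < (p z₀ i).im) (h : List Lt)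
    (L : List Pc) : ContinuousAt (fun z => ell z (p z) h L) z₀ := by
  induction L with
  | nil =>
    have e : (fun z => ell z (p z) h []) = fun _ => (0 : ℝ) := by
      funext z
      simp [ell]
    rw [e]
    exact continuousAt_const
  | cons a L ih =>
    have e : (fun z => ell z (p z) h (a :: L)) = fun z => el z (p z) h a + ell z (p z) h L := by
      funext z
      simp [ell]
    rw [e]
    refine ContinuousAt.add ?_ ih
    have h1 := Ag_cont hz ha (hc a.2.2) (hp a.2.2) (winv a.1 ++ h)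
    have h2 := Ag_cont hz ha (hc a.2.1) (hp a.2.1) (winv a.1 ++ h)
    have h3 := Ag_cont hz ha (hc a.2.2) (hp a.2.2) (winv a.1)
    have h4 := Ag_cont hz ha (hc a.2.1) (hp a.2.1) (winv a.1)
    exact (h1.sub h2).sub (h3.sub h4)

theorem ell_unif {z₀ : ℂ} {t : ℝ} (hz : z₀ ∈ U) (h0 : z₀ ≠ 0) (ha : Abv z₀ t) {p : ℂ → Fin 3 → ℂ}
    (hc : ∀ i, ContinuousAt (fun z => p z i) z₀) (hp : ∀ i, t < (p z₀ i).im)
    (L : List Pc) {ε : ℝ} (hε : 0 < ε) :
    ∀ᶠ z in 𝓝 z₀, ∀ h, |ell z (p z) h L - ell z₀ (p z₀) h L| < ε := by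
  induction L generalizing ε with
  | nil =>
    refine Eventually.of_forall fun z h => ?_
    simpa [ell] using hε
  | cons a L ih =>
    have h1 := Ag_unif hz h0 ha (hc a.2.2) (hp a.2.2) (show 0 < ε / 8 by positivity)
    have h2 := Ag_unif hz h0 ha (hc a.2.1) (hp a.2.1) (show 0 < ε / 8 by positivity)
    have h3 := ih (show 0 < ε / 2 by positivity)
    filter_upwards [h1, h2, h3] with z g1 g2 g3 h
    have e : ∀ z' : ℂ, ell z' (p z') h (a :: L) = el z' (p z') h a + ell z' (p z') h L := by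
      intro z'
      simp [ell]
    rw [e, e]
    have k1 := abs_lt.1 (g1 (winv a.1 ++ h))
    have k2 := abs_lt.1 (g2 (winv a.1 ++ h))
    have k3 := abs_lt.1 (g1 (winv a.1))
    have k4 := abs_lt.1 (g2 (winv a.1))
    have k5 := abs_lt.1 (g3 h)
    unfold el
    rw [abs_lt]
    constructor <;> linarith [k1.1, k1.2, k2.1, k2.2, k3.1, k3.2, k4.1, k4.2, k5.1, k5.2]

end Pool.Agent.Loc
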