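import Pool.Agent.Loc.Crv

set_option autoImplicit false

/-!
# Loc: the closed curve and its winding numbers (helper74, text part345 3.8 - 3.11), part 2
-/

namespace Pool.Agent.Loc

open Complex Pool.Agent.FZC Metric Filter Topology

/-- The three fixed points at level `n`. -/
noncomputable def pt (β : ℕ → Bool) (n : ℕ) (z : ℂ) : Fin 3 → ℂ :=
  ![fl β n z, fw β n z, fr β n z]

/-- The arcs from `F_l` to `F_w` and from `F_w` to `F_r` of the level `n - i`. -/
def arcs (β : ℕ → Bool) (n : ℕ) : ℕ → List Pc × List Pc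
  | 0 => ([([], 0, 1)], [([], 1, 2)])
  | i + 1 => if β (n - (i + 1)) then
      (ap (ww β (n - (i + 1))) (rv (arcs β n i).1), (arcs β n i).1 ++ (arcs β n i).2)
    else ((arcs β n i).1 ++ (arcs β n i).2, ap (ww β (n - (i + 1))) (rv (arcs β n i).2))

/-- The arc from `F_l` to `F_r` of level `0`. -/
def al (β : ℕ → Bool) (n : ℕ) : List Pc := (arcs β n n).1 ++ (arcs β n n).2

/-- The closed curve. -/
def CC (β : ℕ → Bool) (n : ℕ) : List Pc :=
  al β n ++ (ap [.B] (rv (al β n)) ++ (ap [.B, .A] (al β n) ++ ap [.A] (rv (al β n))))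

/-- The winding (times `2 π`) of the closed curve around the centre of `h`. -/
noncomputable def Wd (β : ℕ → Bool) (n : ℕ) (z : ℂ) (h : List Lt) : ℝ :=
  ell z (pt β n z) h (CC β n)

/- MODULE da -/
theorem pt_above {β : ℕ → Bool} {n : ℕ} {z : ℂ} (h : RP β n z) (i : Fin 3) :
    ht β n z < (pt β n z i).im := by
  obtain ⟨h1, h2, h3⟩ := fix_above h
  fin_cases i
  · exact h1
  · exact h2
  · exact h3

theorem da_cn {z : ℂ} (hz : z ≠ 0) {g : List Lt} (hg : MM z g 1 0 ≠ 0) :
    ContinuousAt (fun z' => cn z' g) z :=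
  (MM_contAt g 0 0 hz).div (MM_contAt g 1 0 hz) hg

theorem pt_cont {β : ℕ → Bool} {n : ℕ} {z : ℂ} (h : RP β n z) (i : Fin 3) :
    ContinuousAt (fun z' => pt β n z' i) z := by
  obtain ⟨h0, hk⟩ := h.nz
  obtain ⟨hx, hy, hw⟩ := hk n le_rfl
  have hl : MM z (wl β n) 1 0 ≠ 0 := by rw [(wl_eq h0 β n).1]; exact hx
  have hr : MM z (wr β n) 1 0 ≠ 0 := by rw [(wr_eq h0 β n).1]; exact hy
  have hm : MM z (ww β n) 1 0 ≠ 0 := by rw [(ww_eq h0 β n).1]; exact hw
  fin_cases i
  · exact (da_cn h0 hl).add (continuousAt_const.div (cont_vx β n).continuousAt hx)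
  · exact (da_cn h0 hm).add (continuousAt_const.div (cont_vw β n).continuousAt hw)
  · exact (da_cn h0 hr).add (continuousAt_const.div (cont_vy β n).continuousAt hy)

theorem ht_cont {β : ℕ → Bool} {n : ℕ} {z : ℂ} (h : RP β n z) :
    ContinuousAt (fun z' => ht β n z') z := by
  obtain ⟨h0, hk⟩ := h.nz
  obtain ⟨hx, hy, hw⟩ := hk n le_rfl
  have hm : MM z (ww β n) 1 0 ≠ 0 := by rw [(ww_eq h0 β n).1]; exact hw
  exact continuous_im.continuousAt.comp (da_cn h0 hm)

theorem fl_zero (β : ℕ → Bool) (z : ℂ) : fl β 0 z = I / z := by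
  simp [fl, cn, wl, wp, MM, lm]

theorem fr_zero (β : ℕ → Bool) (z : ℂ) : fr β 0 z = -1 / z := by
  simp only [fr, cn, wr, wp, MM, lm, List.map_cons, List.map_nil, List.prod_cons, List.prod_nil,
    mul_one, vy_zero]
  simp only [Matrix.of_apply, Matrix.cons_val', Matrix.cons_val_zero, Matrix.cons_val_one,
    zero_div, zero_add]
  by_cases hz : z = 0
  · simp [hz]
  · have hI : I ≠ 0 := I_ne_zero
    rw [div_eq_div_iff (mul_ne_zero (neg_ne_zero.2 hI) hz) hz]
    ring

private theorem db_nz {β : ℕ → Bool} {n : ℕ} {z : ℂ} (h : NZ β n z) {k : ℕ} (hk : k ≤ n) :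
    NZ β k z := ⟨h.1, fun j hj => h.2 j (hj.trans hk)⟩

private theorem db_mob_one (W : ℂ) : mob 1 W = W := by
  simp [mob]

/- MODULE db -/
theorem arcs_chn {β : ℕ → Bool} {n : ℕ} {z : ℂ} (hz : NP z) (h : RP β n z) (he : Emp β n z)
    (i : ℕ) (hi : i ≤ n) :
    Chn z (pt β n z) (arcs β n i).1 (fl β (n - i) z) (fw β (n - i) z) ∧
    Chn z (pt β n z) (arcs β n i).2 (fw β (n - i) z) (fr β (n - i) z) := by
  induction i with
  | zero =>
    constructor
    · show mob (MM z []) (pt β n z 0) = fl β n z ∧ mob (MM z []) (pt β n z 1) = fw β n z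
      rw [MM_nil]
      exact ⟨db_mob_one _, db_mob_one _⟩
    · show mob (MM z []) (pt β n z 1) = fw β n z ∧ mob (MM z []) (pt β n z 2) = fr β n z
      rw [MM_nil]
      exact ⟨db_mob_one _, db_mob_one _⟩
  | succ i ih =>
    obtain ⟨h1, h2⟩ := ih (by omega)
    obtain ⟨k, hk⟩ : ∃ k, k = n - (i + 1) := ⟨_, rfl⟩
    have hk1 : n - i = k + 1 := by omega
    rw [hk1] at h1 h2
    rw [← hk]
    have nz : NZ β (k + 1) z := db_nz h.nz (by omega)
    have ha : Abv z (ht β n z) := he
    have hp : ∀ j, ht β n z < (pt β n z j).im := pt_above h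
    cases hb : β k with
    | true =>
      obtain ⟨e1, e2, ⟨-, e3⟩, ⟨-, e4⟩, -⟩ := flip_true nz hb
      have a1 : (arcs β n (i + 1)).1 = ap (ww β k) (rv (arcs β n i).1) := by
        simp [arcs, ← hk, hb]
      have a2 : (arcs β n (i + 1)).2 = (arcs β n i).1 ++ (arcs β n i).2 := by
        simp [arcs, ← hk, hb]
      rw [a1, a2]
      constructor
      · have := chn_ap hz ha hp (ww β k) (chn_rv h1)
        rwa [e3, e4] at this
      · have := chn_append h1 h2
        rwa [e1, e2] at this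
    | false =>
      obtain ⟨e1, e2, ⟨-, e3⟩, -, -, ⟨-, e4⟩⟩ := flip_false nz hb
      have a1 : (arcs β n (i + 1)).1 = (arcs β n i).1 ++ (arcs β n i).2 := by
        simp [arcs, ← hk, hb]
      have a2 : (arcs β n (i + 1)).2 = ap (ww β k) (rv (arcs β n i).2) := by
        simp [arcs, ← hk, hb]
      rw [a1, a2]
      constructor
      · have := chn_append h1 h2
        rwa [e1, e2] at this
      · have := chn_ap hz ha hp (ww β k) (chn_rv h2)
        rwa [e3, e4] at this

/- MODULE dc -/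
theorem CC_chn {β : ℕ → Bool} {n : ℕ} {z : ℂ} (hz : NP z) (h : RP β n z) (he : Emp β n z) :
    Chn z (pt β n z) (CC β n) (fl β 0 z) (fl β 0 z) := by
  obtain ⟨h1, h2⟩ := arcs_chn hz h he n le_rfl
  rw [Nat.sub_self] at h1 h2
  have ha : Abv z (ht β n z) := he
  have hp : ∀ j, ht β n z < (pt β n z j).im := pt_above h
  have h0 : z ≠ 0 := hz.z0
  have hal : Chn z (pt β n z) (al β n) (fl β 0 z) (fr β 0 z) := chn_append h1 h2
  have c1 := chn_ap hz ha hp [.B] (chn_rv hal)
  have c2 := chn_ap hz ha hp [.B, .A] hal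
  have c3 := chn_ap hz ha hp [.A] (chn_rv hal)
  rw [fl_zero, fr_zero] at *
  have hB : ∀ W : ℂ, W ≠ 0 → mob (MM z [.B]) W = 1 / (z ^ 2 * W) := by
    intro W hW
    simp only [MM_cons, MM_nil, mul_one, mob, lm]
    simp only [Matrix.of_apply, Matrix.cons_val', Matrix.cons_val_zero, Matrix.cons_val_one,
      Matrix.cons_val_fin_one]
    simp only [zero_mul, zero_add, add_zero]
    rw [div_eq_div_iff (by simp [h0, hW]) (by simp [h0, hW])]
    field_simp
  have hA : ∀ W : ℂ, W ≠ 0 → mob (MM z [.A]) W = -1 / (z ^ 2 * W) := by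
    intro W hW
    simp only [MM_cons, MM_nil, mul_one, mob, lm]
    simp only [Matrix.of_apply, Matrix.cons_val', Matrix.cons_val_zero, Matrix.cons_val_one,
      Matrix.cons_val_fin_one]
    field_simp
    ring_nf
  have hBA : ∀ W : ℂ, mob (MM z [.B, .A]) W = -W := by
    intro W
    simp only [MM_cons, MM_nil, mul_one, BA_eq h0, mob, Em]
    simp only [Matrix.neg_apply, Matrix.of_apply, Matrix.cons_val', Matrix.cons_val_zero,
      Matrix.cons_val_one, Matrix.cons_val_fin_one]
    have := I_ne_zero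
    field_simp
    ring_nf
  have iz : I / z ≠ 0 := div_ne_zero I_ne_zero h0
  have mz : -1 / z ≠ 0 := div_ne_zero (by norm_num) h0
  have e1 : mob (MM z [.B]) (-1 / z) = -1 / z := by
    rw [hB _ mz]; field_simp
  have e2 : mob (MM z [.B]) (I / z) = -(I / z) := by
    rw [hB _ iz]
    have := I_ne_zero
    field_simp
    simp
  have e3 : mob (MM z [.A]) (-1 / z) = -(-1 / z) := by
    rw [hA _ mz]; field_simp
  have e4 : mob (MM z [.A]) (I / z) = I / z := by
    rw [hA _ iz]
    have := I_ne_zero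
    field_simp
    simp
  rw [e1, e2] at c1
  rw [hBA, hBA] at c2
  rw [e3, e4] at c3
  exact chn_append hal (chn_append c1 (chn_append c2 c3))

theorem Wd_int {β : ℕ → Bool} {n : ℕ} {z : ℂ} (hz : NP z) (h : RP β n z) (he : Emp β n z)
    {g : List Lt} (hg : Prp g) : ∃ k : ℤ, Wd β n z g = 2 * Real.pi * k :=
  ell_closed hz he (pt_above h) (CC_chn hz h he) hg

/-- The image of a point under a proper word. -/
private theorem dd_mob {z : ℂ} (hz : NP z) {P : List Lt} (hP : Prp P) {W : ℂ}
    (hW : W - cn z (winv P) ≠ 0) :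
    mob (MM z P) W = cn z P - 1 / (MM z P 1 0 ^ 2 * (W - cn z (winv P))) := by
  have h0 := hz.z0
  have hc : MM z P 1 0 ≠ 0 := hz.ne P hP
  have hd := MM_det h0 P
  rw [Matrix.det_fin_two] at hd
  rw [cn_winv h0] at hW ⊢
  have h1 : W - -MM z P 1 1 / MM z P 1 0 = (MM z P 1 0 * W + MM z P 1 1) / MM z P 1 0 := by
    field_simp
    ring
  have h2 : MM z P 1 0 * W + MM z P 1 1 ≠ 0 := by
    intro h
    apply hW
    rw [h1, h, zero_div]
  have h3 : MM z P 1 0 ^ 2 * ((MM z P 1 0 * W + MM z P 1 1) / MM z P 1 0) =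
      MM z P 1 0 * (MM z P 1 0 * W + MM z P 1 1) := by
    field_simp
  rw [h1, h3]
  unfold mob cn
  rw [div_sub_div _ _ hc (mul_ne_zero hc h2), div_eq_div_iff h2 (mul_ne_zero hc (mul_ne_zero hc h2))]
  linear_combination (-((MM z P 1 0 * W + MM z P 1 1) * MM z P 1 0)) * hd

/-- The condition on the image. -/
private theorem dd_im {q u d : ℂ} {t : ℝ} (hq : q ≠ 0) (hu : u ≠ 0) :
    t < (d - 1 / (q * u)).im ↔ (t - d.im) * normSq (q * u) < (q * u).im := by
  have hn : 0 < normSq (q * u) := normSq_pos.mpr (mul_ne_zero hq hu)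
  rw [sub_im, one_div, inv_im]
  constructor
  · intro h
    have h1 : t - d.im < (q * u).im / normSq (q * u) := by
      have : -(-(q * u).im / normSq (q * u)) = (q * u).im / normSq (q * u) := by ring
      linarith
    rwa [lt_div_iff₀ hn] at h1
  · intro h
    have h1 : t - d.im < (q * u).im / normSq (q * u) := by
      rwa [lt_div_iff₀ hn]
    have : -(-(q * u).im / normSq (q * u)) = (q * u).im / normSq (q * u) := by ring
    linarith

private theorem dd_nsq (v w : ℂ) {s : ℝ} (h0 : 0 ≤ s) (h1 : s ≤ 1) :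
    normSq (v + s * (w - v)) ≤ (1 - s) * normSq v + s * normSq w := by
  rw [normSq_apply, normSq_apply, normSq_apply]
  simp only [add_re, mul_re, ofReal_re, sub_re, ofReal_im, sub_im, zero_mul, sub_zero, add_im,
    mul_im, add_zero]
  nlinarith [mul_nonneg (mul_nonneg h0 (sub_nonneg.mpr h1)) (sq_nonneg (v.re - w.re)),
    mul_nonneg (mul_nonneg h0 (sub_nonneg.mpr h1)) (sq_nonneg (v.im - w.im))]

private theorem dd_seg {z : ℂ} {t : ℝ} (hz : NP z) (ha : Abv z t) {P : List Lt} (hP : Prp P)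
    {y y' : ℂ} (hy : t < y.im) (hy' : t < y'.im) (h1 : t < (mob (MM z P) y).im)
    (h1' : t < (mob (MM z P) y').im) {s : ℝ} (s0 : 0 ≤ s) (s1 : s ≤ 1) :
    t < (y + s * (y' - y)).im ∧ t < (mob (MM z P) (y + s * (y' - y))).im := by
  have hm : t < (y + s * (y' - y)).im := by
    simp only [add_im, mul_im, ofReal_re, sub_im, ofReal_im, sub_re, zero_mul, add_zero]
    rcases eq_or_lt_of_le s0 with h | h
    · rw [← h]
      linarith
    · have k1 := mul_pos h (sub_pos.2 hy')
      have k2 := mul_nonneg (sub_nonneg.2 s1) (sub_nonneg.2 hy.le)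
      nlinarith
  refine ⟨hm, ?_⟩
  have hc : MM z P 1 0 ^ 2 ≠ 0 := pow_ne_zero 2 (hz.ne P hP)
  have hcc : (cn z (winv P)).im ≤ t := ha _ (prp_winv.mpr hP)
  have hne : ∀ W : ℂ, t < W.im → W - cn z (winv P) ≠ 0 := by
    intro W hW h
    have := congrArg Complex.im h
    rw [sub_im, zero_im] at this
    linarith
  rw [dd_mob hz hP (hne _ hy), dd_im hc (hne _ hy)] at h1
  rw [dd_mob hz hP (hne _ hy'), dd_im hc (hne _ hy')] at h1'
  rw [dd_mob hz hP (hne _ hm), dd_im hc (hne _ hm)]
  have hd : 0 ≤ t - (cn z P).im := sub_nonneg.mpr (ha P hP)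
  set q := MM z P 1 0 ^ 2
  set c := cn z (winv P)
  have e : q * (y + s * (y' - y) - c) = q * (y - c) + s * (q * (y' - c) - q * (y - c)) := by ring
  have h2 := dd_nsq (q * (y - c)) (q * (y' - c)) s0 s1
  rw [← e] at h2
  have h3 : (q * (y + s * (y' - y) - c)).im =
      (1 - s) * (q * (y - c)).im + s * (q * (y' - c)).im := by
    rw [e]
    simp only [add_im, mul_im, ofReal_re, sub_im, ofReal_im, sub_re, zero_mul, add_zero]
    ring
  rw [h3]
  have h4 : (t - (cn z P).im) * normSq (q * (y + s * (y' - y) - c)) ≤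
      (1 - s) * ((t - (cn z P).im) * normSq (q * (y - c))) +
        s * ((t - (cn z P).im) * normSq (q * (y' - c))) := by
    calc _ ≤ (t - (cn z P).im) * ((1 - s) * normSq (q * (y - c)) + s * normSq (q * (y' - c))) :=
          mul_le_mul_of_nonneg_left h2 hd
      _ = _ := by ring
  rcases eq_or_lt_of_le s0 with h | h
  · subst h
    simp only [sub_zero, one_mul, zero_mul, add_zero] at h4 ⊢
    linarith
  · have : (1 - s) * ((t - (cn z P).im) * normSq (q * (y - c))) ≤ (1 - s) * (q * (y - c)).im :=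
      mul_le_mul_of_nonneg_left h1.le (by linarith)
    have : s * ((t - (cn z P).im) * normSq (q * (y' - c))) < s * (q * (y' - c)).im :=
      mul_lt_mul_of_pos_left h1' h
    linarith

private theorem dd_Ag {z : ℂ} {t : ℝ} (ha : Abv z t) {f : ℝ → ℂ} {s : Set ℝ}
    (hf : ContinuousOn f s) (hs : ∀ x ∈ s, t < (f x).im) (g : List Lt) :
    ContinuousOn (fun x => Ag z (f x) g) s := by
  unfold Ag
  by_cases hg : Prp g
  · simp only [hg, if_true]
    intro x hx
    have h1 : (f x - cn z g) ∈ slitPlane := by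
      rw [mem_slitPlane_iff]
      right
      rw [sub_im]
      have := ha g hg
      have := hs x hx
      intro h
      linarith
    have h2 : ContinuousWithinAt (fun x => f x - cn z g) s x :=
      (hf x hx).sub continuousWithinAt_const
    exact ContinuousAt.comp_continuousWithinAt (f := fun x => f x - cn z g)
      (continuousAt_arg h1) h2
  · simp only [hg, if_false]
    exact continuousOn_const

/- MODULE dd : convexity -/
/-- Along a segment between two points above `t` whose images are above `t` the image stays above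
`t` and the change of argument is the difference of the principal arguments. -/
theorem flip_const {z : ℂ} {t : ℝ} (hz : NP z) (ha : Abv z t) {P : List Lt} (hP : Prp P) {y y' : ℂ}
    (hy : t < y.im) (hy' : t < y'.im) (h1 : t < (mob (MM z P) y).im)
    (h1' : t < (mob (MM z P) y').im) (h : List Lt) :
    Ag z (mob (MM z P) y') h - Ag z (mob (MM z P) y) h =
      Ag z y' (winv P ++ h) - Ag z y (winv P ++ h) - (Ag z y' (winv P) - Ag z y (winv P)) := by
  by_cases hh : Prp h
  swap
  · have e1 : ∀ W : ℂ, Ag z W h = 0 := fun W => by simp [Ag, hh]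
    have e2 : ∀ W : ℂ, Ag z W (winv P ++ h) = Ag z W (winv P) := by
      intro W
      unfold Ag
      rw [cn_append_not hz.z0 hh]
      by_cases hw : Prp (winv P)
      · rw [if_pos hw, if_pos ((prp_append_not hh).mpr hw)]
      · rw [if_neg hw, if_neg (fun q => hw ((prp_append_not hh).mp q))]
    rw [e1, e1, e2, e2]
    ring
  let Y : ℝ → ℂ := fun s => y + s * (y' - y)
  have hseg := fun (s : ℝ) (s0 : 0 ≤ s) (s1 : s ≤ 1) => dd_seg hz ha hP hy hy' h1 h1' s0 s1
  have hYc : ContinuousOn Y (Set.Icc 0 1) := by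
    apply Continuous.continuousOn
    have : Continuous fun s : ℝ => (s : ℂ) := continuous_ofReal
    exact continuous_const.add (this.mul continuous_const)
  have hYm : ∀ s ∈ Set.Icc (0 : ℝ) 1, t < (Y s).im := fun s hs => (hseg s hs.1 hs.2).1
  have hMc : ContinuousOn (fun s => mob (MM z P) (Y s)) (Set.Icc 0 1) := by
    unfold mob
    refine ContinuousOn.div ((continuousOn_const.mul hYc).add continuousOn_const)
      ((continuousOn_const.mul hYc).add continuousOn_const) ?_
    intro s hs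
    exact den_ne hz ha (hYm s hs) P
  have hMm : ∀ s ∈ Set.Icc (0 : ℝ) 1, t < (mob (MM z P) (Y s)).im :=
    fun s hs => (hseg s hs.1 hs.2).2
  let E : ℝ → ℝ := fun s =>
    Ag z (Y s) (winv P ++ h) - Ag z (Y 0) (winv P ++ h) - (Ag z (Y s) (winv P) - Ag z (Y 0) (winv P))
  let f : ℝ → ℝ := fun s => Ag z (mob (MM z P) (Y s)) h - E s
  have hf : ContinuousOn f (Set.Icc 0 1) := by
    refine (dd_Ag ha hMc hMm h).sub ?_
    exact ((dd_Ag ha hYc hYm _).sub continuousOn_const).sub
      ((dd_Ag ha hYc hYm _).sub continuousOn_const)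
  have he : ∀ s ∈ Set.Icc (0 : ℝ) 1, exp (f s * I) = exp (f 0 * I) := by
    intro s hs
    let p : Fin 3 → ℂ := ![Y 0, Y s, Y s]
    have hp : ∀ i, t < (p i).im := by
      intro i
      fin_cases i
      · exact hYm 0 (by simp)
      · exact hYm s hs
      · exact hYm s hs
    obtain ⟨ρ, hρ, hE⟩ := el_mul hz ha hp (P, 0, 1) hh
    have hel : el z p h (P, 0, 1) = E s := rfl
    rw [hel] at hE
    have hE' : mob (MM z P) (Y s) - cn z h = ρ * exp (E s * I) * (mob (MM z P) (Y 0) - cn z h) := hE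
    have hA : ∀ W : ℂ, Ag z W h = (W - cn z h).arg := fun W => by simp [Ag, hh]
    have k0 := mob_ne_cn hz ha (hYm 0 (by simp)) P hh
    have k1 := mob_ne_cn hz ha (hYm s hs) P hh
    have n0 := norm_mul_exp_arg_mul_I (mob (MM z P) (Y 0) - cn z h)
    have n1 := norm_mul_exp_arg_mul_I (mob (MM z P) (Y s) - cn z h)
    rw [← hA] at n0 n1
    have r0 : (0 : ℝ) < ‖mob (MM z P) (Y 0) - cn z h‖ := norm_pos_iff.mpr (sub_ne_zero.mpr k0)
    have r1 : (0 : ℝ) < ‖mob (MM z P) (Y s) - cn z h‖ := norm_pos_iff.mpr (sub_ne_zero.mpr k1)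
    have E0 : E 0 = 0 := by simp [E]
    have nrm : ‖mob (MM z P) (Y s) - cn z h‖ = ρ * ‖mob (MM z P) (Y 0) - cn z h‖ := by
      rw [hE', norm_mul, norm_mul, norm_exp_ofReal_mul_I, mul_one, norm_real,
        Real.norm_of_nonneg hρ.le]
    have key : exp (Ag z (mob (MM z P) (Y s)) h * I) =
        exp (E s * I) * exp (Ag z (mob (MM z P) (Y 0)) h * I) := by
      have q1 : ((‖mob (MM z P) (Y s) - cn z h‖ : ℝ) : ℂ) * exp (Ag z (mob (MM z P) (Y s)) h * I) =
          ((‖mob (MM z P) (Y s) - cn z h‖ : ℝ) : ℂ) *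
            (exp (E s * I) * exp (Ag z (mob (MM z P) (Y 0)) h * I)) := by
        rw [n1]
        calc _ = ρ * exp (E s * I) * (mob (MM z P) (Y 0) - cn z h) := hE'
          _ = ρ * exp (E s * I) * (((‖mob (MM z P) (Y 0) - cn z h‖ : ℝ) : ℂ) *
              exp (Ag z (mob (MM z P) (Y 0)) h * I)) := by rw [n0]
          _ = _ := by
            rw [nrm]
            push_cast
            ring
      exact mul_left_cancel₀ (by exact_mod_cast r1.ne') q1
    have f0 : f 0 = Ag z (mob (MM z P) (Y 0)) h := by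
      show Ag z (mob (MM z P) (Y 0)) h - E 0 = _
      rw [E0, sub_zero]
    rw [f0]
    show exp (((Ag z (mob (MM z P) (Y s)) h - E s : ℝ) : ℂ) * I) = _
    push_cast
    rw [sub_mul, exp_sub, key]
    field_simp [exp_ne_zero]
  have := const_of_exp hf he
  have Y0 : Y 0 = y := by simp [Y]
  have Y1 : Y 1 = y' := by simp [Y]
  have f1 : f 1 = Ag z (mob (MM z P) y') h - (Ag z y' (winv P ++ h) - Ag z y (winv P ++ h) -
      (Ag z y' (winv P) - Ag z y (winv P))) := by
    simp only [f, E, Y0, Y1]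
  have f0 : f 0 = Ag z (mob (MM z P) y) h := by
    simp only [f, E, Y0]
    ring
  rw [f1, f0] at this
  linarith

/- MODULE de -/
private theorem de_Ag_nil (z y : ℂ) : Ag z y [] = 0 := by
  have h : ¬ Prp [] := by
    rintro ⟨z, hz, h⟩
    apply h
    simp [MM_nil]
  unfold Ag
  rw [if_neg h]

private theorem de_winv_nil : winv [] = [] := rfl

private theorem de_prp {β : ℕ → Bool} {n k : ℕ} {z : ℂ} (h : NZ β n z) (hk : k ≤ n) :
    Prp (ww β k) :=
  ⟨z, h.1, by rw [(ww_eq h.1 β k).1]; exact (h.2 k hk).2.2⟩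

theorem arcs_big {β : ℕ → Bool} {n : ℕ} {z : ℂ} (hz : NP z) (h : RP β n z) (he : Emp β n z)
    (hF : ∀ k ≤ n, ht β n z < (fl β k z).im ∧ ht β n z < (fw β k z).im ∧
      ht β n z < (fr β k z).im) (i : ℕ) (hi : i ≤ n) (g : List Lt) :
    ell z (pt β n z) g (arcs β n i).1 = Ag z (fw β (n - i) z) g - Ag z (fl β (n - i) z) g ∧
    ell z (pt β n z) g (arcs β n i).2 = Ag z (fr β (n - i) z) g - Ag z (fw β (n - i) z) g := by
  induction i generalizing g with
  | zero =>
    constructor
    · simp [ell, arcs, el, pt, de_Ag_nil, de_winv_nil]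
    · simp [ell, arcs, el, pt, de_Ag_nil, de_winv_nil]
  | succ i ih =>
    have ih' := ih (by omega)
    set k := n - (i + 1) with hk
    have hki : n - i = k + 1 := by omega
    have hkn : k + 1 ≤ n := by omega
    rw [hki] at ih'
    have hNZ : NZ β (k + 1) z := ⟨h.nz.1, fun j hj => h.nz.2 j (by omega)⟩
    have hP : Prp (ww β k) := de_prp h.nz (by omega)
    obtain ⟨f1, f2, f3⟩ := hF (k + 1) hkn
    obtain ⟨g1, g2, g3⟩ := hF k (by omega)
    cases hb : β k with
    | true =>
      obtain ⟨t1, t2, t3, t4, -⟩ := flip_true hNZ hb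
      have ha : arcs β n (i + 1) = (ap (ww β k) (rv (arcs β n i).1), (arcs β n i).1 ++ (arcs β n i).2) := by
        rw [arcs, ← hk, hb]
        rfl
      rw [ha]
      constructor
      · have hfc := flip_const hz he hP f2 f1 (by rw [t3.2]; exact g1) (by rw [t4.2]; exact g2) g
        rw [t3.2, t4.2] at hfc
        change ell z (pt β n z) g (ap (ww β k) (rv (arcs β n i).1)) = _
        rw [ell_ap, ell_rv, ell_rv, (ih' _).1, (ih' _).1, hfc]
        ring
      · change ell z (pt β n z) g ((arcs β n i).1 ++ (arcs β n i).2) = _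
        rw [ell_append, (ih' g).1, (ih' g).2, t1, t2]
        ring
    | false =>
      obtain ⟨t1, t2, t3, -, -, t4⟩ := flip_false hNZ hb
      have ha : arcs β n (i + 1) = ((arcs β n i).1 ++ (arcs β n i).2, ap (ww β k) (rv (arcs β n i).2)) := by
        rw [arcs, ← hk, hb]
        rfl
      rw [ha]
      constructor
      · change ell z (pt β n z) g ((arcs β n i).1 ++ (arcs β n i).2) = _
        rw [ell_append, (ih' g).1, (ih' g).2, t1, t2]
        ring
      · have hfc := flip_const hz he hP f3 f2 (by rw [t4.2]; exact g2) (by rw [t3.2]; exact g3) g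
        rw [t3.2, t4.2] at hfc
        change ell z (pt β n z) g (ap (ww β k) (rv (arcs β n i).2)) = _
        rw [ell_ap, ell_rv, ell_rv, (ih' _).2, (ih' _).2, hfc]
        ring

theorem al_big {β : ℕ → Bool} {n : ℕ} {z : ℂ} (hz : NP z) (h : RP β n z) (he : Emp β n z)
    (hF : ∀ k ≤ n, ht β n z < (fl β k z).im ∧ ht β n z < (fw β k z).im ∧
      ht β n z < (fr β k z).im) (g : List Lt) :
    ell z (pt β n z) g (al β n) = Ag z (-1 / z) g - Ag z (I / z) g := by
  have h1 := arcs_big hz h he hF n le_rfl g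
  rw [Nat.sub_self, fl_zero, fr_zero] at h1
  rw [al, ell_append, h1.1, h1.2]
  ring

/- MODULE df : integers -/
private theorem df_four : (2 : ℝ) < ‖(4 : ℂ)‖ := by
  have : ‖(4 : ℂ)‖ = 4 := by simp
  rw [this]
  norm_num

private theorem df_le {g : List Lt} (hg : Prp g) (h0 : nn g = 0) : ‖cn 4 g‖ ≤ 1 / 8 := by
  have h4 : ‖(4 : ℂ)‖ = 4 := by simp
  have h := cn_big (z := 4) (by rw [h4]) hg
  rw [h0, h4] at h
  norm_num at h ⊢
  exact h

private theorem df_key {g : List Lt} {l : Lt} (hl : l = .A ∨ l = .B) (hg : Prp g) (h0 : nn g = 0)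
    (h : Prp (l :: g)) : nn (l :: g) ≠ 0 := by
  intro h1
  have e1 := df_le hg h0
  have e2 := df_le h h1
  have n1 := prp_ne (big_mem df_four) hg
  have n2 := prp_ne (big_mem df_four) h
  have e3 : ‖cn 4 (l :: g) * cn 4 g‖ = 1 / 16 := by
    have hm : MM 4 (l :: g) = lm 4 l * MM 4 g := MM_cons 4 l g
    rcases hl with rfl | rfl
    · rw [hm] at n2
      have a1 : (lm 4 .A * MM 4 g) 1 0 = 4 * MM 4 g 0 0 := by
        simp [lm, Matrix.mul_apply, Fin.sum_univ_two]
      have a2 : (lm 4 .A * MM 4 g) 0 0 = -(4 : ℂ)⁻¹ * MM 4 g 1 0 := by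
        simp [lm, Matrix.mul_apply, Fin.sum_univ_two]
      rw [a1] at n2
      have n3 : MM 4 g 0 0 ≠ 0 := fun h => n2 (by rw [h, mul_zero])
      have : cn 4 (.A :: g) * cn 4 g = -(1 / 16) := by
        unfold cn
        rw [hm, a1, a2]
        field_simp
        norm_num
      rw [this]
      simp
    · rw [hm] at n2
      have a1 : (lm 4 .B * MM 4 g) 1 0 = -I * 4 * MM 4 g 0 0 := by
        simp [lm, Matrix.mul_apply, Fin.sum_univ_two]
      have a2 : (lm 4 .B * MM 4 g) 0 0 = -I * (4 : ℂ)⁻¹ * MM 4 g 1 0 := by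
        simp [lm, Matrix.mul_apply, Fin.sum_univ_two]
      rw [a1] at n2
      have n3 : MM 4 g 0 0 ≠ 0 := fun h => n2 (by rw [h, mul_zero])
      have hI : I ≠ 0 := I_ne_zero
      have : cn 4 (.B :: g) * cn 4 g = 1 / 16 := by
        unfold cn
        rw [hm, a1, a2]
        field_simp
        norm_num
      rw [this]
      simp
  rw [norm_mul] at e3
  have := mul_le_mul e2 e1 (norm_nonneg _) (by norm_num)
  rw [e3] at this
  norm_num at this

theorem nn_B0 {g : List Lt} (hg : Prp g) (h0 : nn g = 0) (h : Prp (.B :: g)) :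
    nn (.B :: g) ≠ 0 := by
  exact df_key (Or.inr rfl) hg h0 h

theorem nn_A0 {g : List Lt} (hg : Prp g) (h0 : nn g = 0) (h : Prp (.A :: g)) :
    nn (.A :: g) ≠ 0 := by
  exact df_key (Or.inl rfl) hg h0 h

/- MODULE dg -/
private theorem dg_arg_div {a b : ℂ} (ha : 0 < a.im) (hb : 0 < b.im) :
    a.arg - b.arg = (a / b).arg := by
  have ha0 : a ≠ 0 := by
    rintro rfl
    simp at ha
  have hb0 : b ≠ 0 := by
    rintro rfl
    simp at hb
  have h1 : ((a / b * b).arg : Real.Angle) = (a / b).arg + b.arg :=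
    Complex.arg_mul_coe_angle (div_ne_zero ha0 hb0) hb0
  rw [div_mul_cancel₀ a hb0] at h1
  have h2 : ((a.arg - b.arg : ℝ) : Real.Angle) = ((a / b).arg : ℝ) := by
    rw [Real.Angle.coe_sub, h1]
    abel
  have h3 := (Real.Angle.angle_eq_iff_two_pi_dvd_sub).1 h2
  obtain ⟨k, hk⟩ := h3
  have a1 := Complex.arg_nonneg_iff.2 ha.le
  have a2 := Complex.arg_nonneg_iff.2 hb.le
  have a3 : a.arg < Real.pi := by
    rcases (Complex.arg_le_pi a).lt_or_eq with h | h
    · exact h
    · exact absurd (Complex.arg_eq_pi_iff.1 h).2 ha.ne'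
  have a4 : b.arg < Real.pi := by
    rcases (Complex.arg_le_pi b).lt_or_eq with h | h
    · exact h
    · exact absurd (Complex.arg_eq_pi_iff.1 h).2 hb.ne'
  have a5 := Complex.neg_pi_lt_arg (a / b)
  have a6 := Complex.arg_le_pi (a / b)
  have hp := Real.pi_pos
  have hk0 : k = 0 := by
    have k1 : (k : ℝ) < 1 := by
      by_contra hc
      push Not at hc
      nlinarith
    have k2 : (-1 : ℝ) < k := by
      by_contra hc
      push Not at hc
      nlinarith
    have k3 : k < 1 := by exact_mod_cast k1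
    have k4 : -1 < k := by exact_mod_cast k2
    omega
  rw [hk0] at hk
  simp at hk
  linarith

/-- The argument of a quotient of two numbers near one. -/
private theorem dg_near {u v : ℂ} (hu : ‖u‖ ≤ 1 / 40) (hv : ‖v‖ ≤ 1 / 40) :
    |((1 + u) / (1 + v)).arg| ≤ 1 / 10 := by
  have hv1 : (39 : ℝ) / 40 ≤ ‖1 + v‖ := by
    have h1 := norm_sub_norm_le (1 : ℂ) (-v)
    rw [sub_neg_eq_add, norm_neg, norm_one] at h1
    linarith
  have hv0 : 1 + v ≠ 0 := by
    intro h
    rw [h, norm_zero] at hv1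
    norm_num at hv1
  have h1 : (1 + u) / (1 + v) = 1 + (u - v) / (1 + v) := by
    field_simp
    ring
  have h2 : ‖(u - v) / (1 + v)‖ ≤ 2 / 39 := by
    rw [norm_div, div_le_iff₀ (by linarith)]
    have h3 := norm_sub_le u v
    nlinarith
  have h3 := Complex.norm_log_one_add_half_le_self (z := (u - v) / (1 + v)) (h2.trans (by norm_num))
  have h4 : |(Complex.log (1 + (u - v) / (1 + v))).im| ≤ ‖Complex.log (1 + (u - v) / (1 + v))‖ :=
    Complex.abs_im_le_norm _
  rw [Complex.log_im] at h4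
  rw [h1]
  refine h4.trans (h3.trans ?_)
  linarith

private theorem dg_arg_I {w : ℂ} (hw : w ≠ 0) (h : |w.arg| ≤ 1 / 10) :
    (I * w).arg = Real.pi / 2 + w.arg := by
  have h1 := abs_le.1 h
  have hp := Real.pi_gt_three
  rw [Complex.arg_mul_eq_add_arg_iff I_ne_zero hw |>.2, Complex.arg_I]
  rw [Complex.arg_I]
  constructor <;> linarith [h1.1, h1.2]

/-- The change of argument from `i / z` to `-1 / z` seen from a centre, for large `z`. -/
theorem quarter {z : ℂ} (hq : z ∈ Q) (hz : 100 ≤ ‖z‖) {g : List Lt} (hg : Prp g)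
    (h1 : (cn z g).im < (-1 / z).im) (h2 : (cn z g).im < (I / z).im) :
    (nn g = 0 → |Ag z (-1 / z) g - Ag z (I / z) g - Real.pi / 2| ≤ 1 / 10) ∧
    (nn g ≠ 0 → |Ag z (-1 / z) g - Ag z (I / z) g| ≤ 1 / 10) := by
  have hz0 : z ≠ 0 := by
    intro h
    rw [h, norm_zero] at hz
    norm_num at hz
  have hzp : 0 < ‖z‖ := by linarith
  have hcn := cn_big (z := z) (by linarith) hg
  have ha : 0 < (-1 / z - cn z g).im := by
    rw [sub_im]
    linarith
  have hb : 0 < (I / z - cn z g).im := by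
    rw [sub_im]
    linarith
  have hA : Ag z (-1 / z) g - Ag z (I / z) g = ((-1 / z - cn z g) / (I / z - cn z g)).arg := by
    unfold Ag
    rw [if_pos hg, if_pos hg]
    exact dg_arg_div ha hb
  rw [hA]
  constructor
  · intro hn
    rw [hn, Int.cast_zero, sub_zero] at hcn
    have hu : ‖cn z g * z‖ ≤ 1 / 40 := by
      rw [norm_mul]
      calc ‖cn z g‖ * ‖z‖ ≤ 2 / ‖z‖ ^ 2 * ‖z‖ := mul_le_mul_of_nonneg_right hcn hzp.le
        _ = 2 / ‖z‖ := by field_simp
        _ ≤ 2 / 100 := div_le_div_of_nonneg_left (by norm_num) (by norm_num) hz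
        _ ≤ 1 / 40 := by norm_num
    have hv : ‖I * (cn z g * z)‖ ≤ 1 / 40 := by
      rw [norm_mul, norm_I, one_mul]
      exact hu
    have h3 := dg_near hu hv
    have hne1 : 1 + cn z g * z ≠ 0 := by
      intro h
      have h4 : ‖cn z g * z‖ = 1 := by
        rw [show cn z g * z = -1 by linear_combination h, norm_neg, norm_one]
      rw [h4] at hu
      norm_num at hu
    have hne2 : 1 + I * (cn z g * z) ≠ 0 := by
      intro h
      have h4 : ‖I * (cn z g * z)‖ = 1 := by
        rw [show I * (cn z g * z) = -1 by linear_combination h, norm_neg, norm_one]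
      rw [h4] at hv
      norm_num at hv
    have h4 : (-1 / z - cn z g) / (I / z - cn z g) =
        I * ((1 + cn z g * z) / (1 + I * (cn z g * z))) := by
      have e1 : -1 / z - cn z g = -(1 + cn z g * z) / z := by
        field_simp
        ring
      have e2 : I / z - cn z g = I * (1 + I * (cn z g * z)) / z := by
        field_simp
        linear_combination (-(cn z g * z)) * I_sq
      rw [e1, e2, div_div_div_cancel_right₀ hz0, div_eq_iff (mul_ne_zero I_ne_zero hne2)]
      rw [show I * ((1 + cn z g * z) / (1 + I * (cn z g * z))) * (I * (1 + I * (cn z g * z))) =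
        (I * I) * ((1 + cn z g * z) / (1 + I * (cn z g * z)) * (1 + I * (cn z g * z))) by ring,
        div_mul_cancel₀ _ hne2, I_mul_I]
      ring
    rw [h4, dg_arg_I (div_ne_zero hne1 hne2) h3]
    rw [show Real.pi / 2 + ((1 + cn z g * z) / (1 + I * (cn z g * z))).arg - Real.pi / 2 =
      ((1 + cn z g * z) / (1 + I * (cn z g * z))).arg by ring]
    exact h3
  · intro hn
    have hn0 : ((nn g : ℤ) : ℂ) ≠ 0 := by exact_mod_cast hn
    have hn1 : (1 : ℝ) ≤ ‖((nn g : ℤ) : ℂ)‖ := by
      rw [Complex.norm_intCast]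
      exact_mod_cast Int.one_le_abs hn
    have hsm : 2 / ‖z‖ ^ 2 ≤ 2 / 100 ^ 2 :=
      div_le_div_of_nonneg_left (by norm_num) (by norm_num) (by nlinarith)
    have hin : ‖z‖⁻¹ ≤ 1 / 100 := by
      rw [← one_div]
      exact div_le_div_of_nonneg_left (by norm_num) (by norm_num) hz
    have key : ∀ w : ℂ, ‖w‖ ≤ 1 → ‖((cn z g - nn g) + w / z) / nn g‖ ≤ 1 / 40 := by
      intro w hw
      rw [norm_div, div_le_iff₀ (by linarith)]
      have e1 : ‖(cn z g - nn g) + w / z‖ ≤ ‖cn z g - nn g‖ + ‖w / z‖ := norm_add_le _ _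
      have e2 : ‖w / z‖ ≤ ‖z‖⁻¹ := by
        rw [norm_div, div_eq_mul_inv]
        have : 0 ≤ ‖z‖⁻¹ := by positivity
        nlinarith [norm_nonneg w]
      nlinarith
    have hu := key 1 (by simp)
    have hv := key (-I) (by simp)
    have h3 := dg_near hu hv
    have h4 : (-1 / z - cn z g) / (I / z - cn z g) =
        (1 + ((cn z g - nn g) + 1 / z) / nn g) / (1 + ((cn z g - nn g) + -I / z) / nn g) := by
      have e1 : -1 / z - cn z g = -(nn g : ℂ) * (1 + ((cn z g - nn g) + 1 / z) / nn g) := by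
        field_simp
        ring
      have e2 : I / z - cn z g = -(nn g : ℂ) * (1 + ((cn z g - nn g) + -I / z) / nn g) := by
        field_simp
        ring
      rw [e1, e2, mul_div_mul_left _ _ (neg_ne_zero.2 hn0)]
    rw [h4]
    exact h3

theorem quarter_AB {z : ℂ} (hq : z ∈ Q) :
    Ag z (-1 / z) [.A] - Ag z (I / z) [.A] = Real.pi / 2 ∧
    Ag z (-1 / z) [.B] - Ag z (I / z) [.B] = Real.pi / 2 := by
  have hq1 : 0 < z.re := hq.1
  have hq2 : 0 < z.im := hq.2
  have hz0 : z ≠ 0 := by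
    rintro rfl
    simp at hq1
  have hns : 0 < Complex.normSq z := Complex.normSq_pos.2 hz0
  have ha : 0 < (-1 / z).im := by
    have e1 : (-1 / z).im = z.im / Complex.normSq z := by
      rw [Complex.div_im]
      simp [neg_div]
    rw [e1]
    exact div_pos hq2 hns
  have hb : 0 < (I / z).im := by
    have e1 : (I / z).im = z.re / Complex.normSq z := by
      rw [Complex.div_im]
      simp
    rw [e1]
    exact div_pos hq1 hns
  have h1 : (-1 / z) / (I / z) = I := by
    rw [div_div_div_cancel_right₀ hz0]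
    rw [div_eq_iff I_ne_zero, I_mul_I]
  have h2 : (-1 / z).arg - (I / z).arg = Real.pi / 2 := by
    rw [dg_arg_div ha hb, h1, Complex.arg_I]
  have pA : Prp [Lt.A] := ⟨z, hz0, by simpa [MM, lm] using hz0⟩
  have pB : Prp [Lt.B] := ⟨z, hz0, by simpa [MM, lm] using hz0⟩
  have cA : cn z [Lt.A] = 0 := by simp [cn, MM, lm]
  have cB : cn z [Lt.B] = 0 := by simp [cn, MM, lm]
  unfold Ag
  rw [if_pos pA, if_pos pA, if_pos pB, if_pos pB, cA, cB, sub_zero, sub_zero]
  exact ⟨h2, h2⟩

private theorem dh_AB : ¬ Prp [.A, .B] := by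
  intro h
  have h0 : ¬ Prp ([] : List Lt) := by
    rintro ⟨z, -, h⟩
    apply h
    simp [MM_nil]
  exact h0 (prp_E.mp h)

/- MODULE dh : (3.11) -/
theorem Wd_big {β : ℕ → Bool} {n : ℕ} {z : ℂ} (hz : NP z) (hb : 100 ≤ ‖z‖) (h : RP β n z)
    (he : Emp β n z) (hF : ∀ k ≤ n, ht β n z < (fl β k z).im ∧ ht β n z < (fw β k z).im ∧
      ht β n z < (fr β k z).im) {g : List Lt} (hg : Prp g) :
    Wd β n z g = if nn g = 0 then 2 * Real.pi else 0 := by
  obtain ⟨q, hq⟩ : ∃ q : List Lt → ℝ, q = fun g => Ag z (-1 / z) g - Ag z (I / z) g := ⟨_, rfl⟩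
  have hal : ∀ g, ell z (pt β n z) g (al β n) = q g := fun g => by
    rw [al_big hz h he hF g, hq]
  have hnp : ∀ g, ¬ Prp g → q g = 0 := by
    intro g hg
    rw [hq]
    simp [Ag, hg]
  have hWd : Wd β n z g = q g - q (.B :: g) + q [.B] + q (.A :: .B :: g) - q (.A :: g) + q [.A] := by
    unfold Wd CC
    rw [ell_append, ell_append, ell_append, ell_ap, ell_ap, ell_ap, ell_rv, ell_rv, ell_rv, ell_rv]
    have w1 : winv [.B] = [.B] := rfl
    have w2 : winv [.A] = [.A] := rfl
    have w3 : winv [.B, .A] = [.A, .B] := rfl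
    rw [w1, w2, w3]
    simp only [List.cons_append, List.nil_append, hal]
    rw [hnp _ dh_AB]
    ring
  have him : ∀ g, Prp g → (cn z g).im < (-1 / z).im ∧ (cn z g).im < (I / z).im := by
    intro g hg
    have h1 := he g hg
    obtain ⟨h2, -, h3⟩ := hF 0 (Nat.zero_le n)
    rw [fl_zero] at h2
    rw [fr_zero] at h3
    exact ⟨lt_of_le_of_lt h1 h3, lt_of_le_of_lt h1 h2⟩
  have q0 : ∀ g, Prp g → nn g = 0 → |q g - Real.pi / 2| ≤ 1 / 10 := by
    intro g hg h0
    rw [hq]
    exact (quarter h.q hb hg (him g hg).1 (him g hg).2).1 h0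
  have q1 : ∀ g, Prp g → nn g ≠ 0 → |q g| ≤ 1 / 10 := by
    intro g hg h0
    rw [hq]
    exact (quarter h.q hb hg (him g hg).1 (him g hg).2).2 h0
  have qA : q [.A] = Real.pi / 2 := by rw [hq]; exact (quarter_AB h.q).1
  have qB : q [.B] = Real.pi / 2 := by rw [hq]; exact (quarter_AB h.q).2
  obtain ⟨k, hk⟩ := Wd_int hz h he hg
  have hpi := Real.pi_gt_three
  have hE : Prp (.A :: .B :: g) := prp_E.mpr hg
  have hnE : nn (.A :: .B :: g) = -nn g := nn_E hg
  by_cases h0 : nn g = 0
  · rw [if_pos h0]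
    have a1 := abs_le.mp (q0 g hg h0)
    have a2 := abs_le.mp (q0 _ hE (by rw [hnE, h0, neg_zero]))
    have a3 : |q (.B :: g)| ≤ 1 / 10 := by
      by_cases hp : Prp (.B :: g)
      · exact q1 _ hp (nn_B0 hg h0 hp)
      · rw [hnp _ hp]; norm_num
    have a4 : |q (.A :: g)| ≤ 1 / 10 := by
      by_cases hp : Prp (.A :: g)
      · exact q1 _ hp (nn_A0 hg h0 hp)
      · rw [hnp _ hp]; norm_num
    have a3' := abs_le.mp a3
    have a4' := abs_le.mp a4
    have b1 : 2 * Real.pi - 4 / 10 ≤ Wd β n z g := by rw [hWd, qA, qB]; linarith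
    have b2 : Wd β n z g ≤ 2 * Real.pi + 4 / 10 := by rw [hWd, qA, qB]; linarith
    rw [hk] at b1 b2
    have k1 : (0 : ℝ) < k := by
      by_contra hc
      push Not at hc
      nlinarith
    have k2 : (k : ℝ) < 2 := by
      by_contra hc
      push Not at hc
      nlinarith
    have k1' : (0 : ℤ) < k := by exact_mod_cast k1
    have k2' : k < 2 := by exact_mod_cast k2
    have : k = 1 := by omega
    rw [hk, this]
    simp
  · rw [if_neg h0]
    have a1 := abs_le.mp (q1 g hg h0)
    have a2 := abs_le.mp (q1 _ hE (by rw [hnE]; exact neg_ne_zero.mpr h0))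
    obtain ⟨pB, nB⟩ := nn_B hg h0
    obtain ⟨pA, nA⟩ := nn_A hg h0
    have a3 := abs_le.mp (q0 _ pB nB)
    have a4 := abs_le.mp (q0 _ pA nA)
    have b1 : -(4 / 10) ≤ Wd β n z g := by rw [hWd, qA, qB]; linarith
    have b2 : Wd β n z g ≤ 4 / 10 := by rw [hWd, qA, qB]; linarith
    rw [hk] at b1 b2
    have k1 : (-1 : ℝ) < k := by
      by_contra hc
      push Not at hc
      nlinarith
    have k2 : (k : ℝ) < 1 := by
      by_contra hc
      push Not at hc
      nlinarith
    have k1' : (-1 : ℤ) < k := by exact_mod_cast k1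
    have k2' : k < 1 := by exact_mod_cast k2
    have : k = 0 := by omega
    rw [hk, this]
    simp

end Pool.Agent.Loc
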