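import Pool.Agent.FZR.Har

set_option autoImplicit false

/-!
# Loc: the frontier of the Feinberg-Zee spectrum is an arc in every quadrant (definitions)

`Sig` (`FZC.Sig`) is the spectrum, `U = Sigᶜ`, `Q` the open first quadrant. `V` is the Markoff map
`V_∞ = 0`, `V_0 = z`, `V_1 = -iz`, `V_{l⊕r} + V_{l⊖r} = V_l V_r`, on the Farey tree. A Farey edge
`(l, r)` between `0` and `1` is given by the bits which lead to it; the state is
`(x, y, w) = (V_l, V_r, V_{l⊕r})`. Bit `true`: go to the edge `(l⊕r, r)`, bit `false`: `(l, l⊕r)`.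
The previous mediant is `x * y - w`.
-/

namespace Pool.Agent.Loc

open Complex Pool.Agent.FZC

/-- One step of the walk. -/
def step (b : Bool) (s : ℂ × ℂ × ℂ) : ℂ × ℂ × ℂ :=
  if b then (s.2.2, s.2.1, s.2.2 * s.2.1 - s.1) else (s.1, s.2.2, s.1 * s.2.2 - s.2.1)

/-- The state at the edge `(0, 1)`. -/
def s0 (z : ℂ) : ℂ × ℂ × ℂ := (z, -I * z, -I * z ^ 2)

/-- The state after the first `n` bits of `β`. -/
def st (β : ℕ → Bool) (z : ℂ) : ℕ → ℂ × ℂ × ℂ
  | 0 => s0 z
  | n + 1 => step (β n) (st β z n)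

/-- Value at the left end. -/
def vx (β : ℕ → Bool) (n : ℕ) (z : ℂ) : ℂ := (st β z n).1

/-- Value at the right end. -/
def vy (β : ℕ → Bool) (n : ℕ) (z : ℂ) : ℂ := (st β z n).2.1

/-- Value at the mediant. -/
def vw (β : ℕ → Bool) (n : ℕ) (z : ℂ) : ℂ := (st β z n).2.2

/-- Left value in the open first quadrant, right value in the open fourth quadrant, angle less
than `π / 2`. -/
def Edge (x y : ℂ) : Prop :=
  0 < x.re ∧ 0 < x.im ∧ 0 < y.re ∧ y.im < 0 ∧ 0 < (x * (starRingEnd ℂ) y).re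

/-- The levels `1, …, n` of the path `β` are good at `z`. (At level `0` the angle is `π / 2`.) -/
def Good (β : ℕ → Bool) (n : ℕ) (z : ℂ) : Prop :=
  ∀ k, 1 ≤ k → k ≤ n → Edge (vx β k z) (vy β k z)

/-- `β` is an infinite good path at `z`. -/
def Inf (β : ℕ → Bool) (z : ℂ) : Prop := ∀ n, Good β n z

/-- The first `n` bits of `β` are a finite good path at `z`: it ends at a positive real value. -/
def End (β : ℕ → Bool) (n : ℕ) (z : ℂ) : Prop :=
  Good β n z ∧ (vw β n z).im = 0 ∧ 0 < (vw β n z).re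

/-- The open first quadrant. -/
def Q : Set ℂ := {z | 0 < z.re ∧ 0 < z.im}

/-- The complement of the spectrum. -/
def U : Set ℂ := Sigᶜ

/-- Change of pivot between the levels `n` and `n + 2`. -/
def Hinge (β : ℕ → Bool) (n : ℕ) : Prop := β n ≠ β (n + 1)

/-- The three values at level `n` are at most `C`. -/
def Bdd (C : ℝ) (β : ℕ → Bool) (n : ℕ) (z : ℂ) : Prop :=
  ‖vx β n z‖ ≤ C ∧ ‖vy β n z‖ ≤ C ∧ ‖vw β n z‖ ≤ C

/-- The path grows: beyond some level both ends are larger than `2` and the values increase. -/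
def Grow (β : ℕ → Bool) (z : ℂ) : Prop :=
  ∃ n, 2 < ‖vx β n z‖ ∧ 2 < ‖vy β n z‖ ∧ ‖vx β n z * vy β n z - vw β n z‖ ≤ ‖vw β n z‖

/-- The state along the sign path of `z`: bit `true` iff the mediant value has imaginary part
`≥ 0`. -/
noncomputable def wk (z : ℂ) : ℕ → ℂ × ℂ × ℂ
  | 0 => s0 z
  | n + 1 => step (decide (0 ≤ (wk z n).2.2.im)) (wk z n)

/-- The bits of the sign path of `z`. After the end of a finite path they are `1 0 0 0 …`. -/
noncomputable def bits (z : ℂ) (n : ℕ) : Bool := decide (0 ≤ (wk z n).2.2.im)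

/-- The real number with the binary expansion `β`. -/
noncomputable def cod (β : ℕ → Bool) : ℝ := ∑' i : ℕ, if β i then (1 / 2 : ℝ) ^ (i + 1) else 0

/-- The code of `z`. -/
noncomputable def code (z : ℂ) : ℝ := cod (bits z)

/-- Lower bounds valid on the closure of `U`. -/
def Low (z : ℂ) : Prop := ∀ β n, 1 ≤ ‖vx β n z‖ ∧ 1 ≤ ‖vy β n z‖ ∧ 1 ≤ ‖vw β n z‖

end Pool.Agent.Loc
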