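import Pool.Agent.Loc.Clo
import Pool.Agent.Loc.Lnk

set_option autoImplicit false

/-!
# Loc: finite good paths are closed

`end_closed`: if `z₀` is a limit of points of `U ∩ Q` whose good path ends at level `n` of `β`,
then so does the path of `z₀`, and `z₀ ∈ Q` (in particular `z₀` is not on an axis).
-/

namespace Pool.Agent.Loc

open Complex Pool.Agent.FZC Filter Topology

variable {β : ℕ → Bool} {n : ℕ} {z₀ : ℂ}

/-- The points of the statement. -/
def ES (β : ℕ → Bool) (n : ℕ) : Set ℂ := {z | z ∈ U ∧ z ∈ Q ∧ End β n z}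

/-- The bits follow the signs in the limit: positive. -/
theorem es_true (h : z₀ ∈ closure (ES β n)) {j : ℕ} (hj : j < n) (hp : 0 < (vw β j z₀).im) :
    β j = true := by
  have h1 : ∃ᶠ z in 𝓝 z₀, z ∈ ES β n := mem_closure_iff_frequently.1 h
  have h2 : ∀ᶠ z in 𝓝 z₀, 0 < (vw β j z).im :=
    (continuous_im.comp (cont_vw β j)).continuousAt.eventually_const_lt hp
  obtain ⟨z, ⟨-, -, hz⟩, hz2⟩ := (h1.and_eventually h2).exists
  have hb := good_bits hz.1
  rw [hb j hj, bits_eq, vw_congr (β' := β) (fun k hk => (hb k (by omega)).symm)]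
  simpa using hz2.le

/-- The bits follow the signs in the limit: negative. -/
theorem es_false (h : z₀ ∈ closure (ES β n)) {j : ℕ} (hj : j < n) (hp : (vw β j z₀).im < 0) :
    β j = false := by
  have h1 : ∃ᶠ z in 𝓝 z₀, z ∈ ES β n := mem_closure_iff_frequently.1 h
  have h2 : ∀ᶠ z in 𝓝 z₀, (vw β j z).im < 0 :=
    (continuous_im.comp (cont_vw β j)).continuousAt.eventually_lt_const hp
  obtain ⟨z, ⟨-, -, hz⟩, hz2⟩ := (h1.and_eventually h2).exists
  have hb := good_bits hz.1
  rw [hb j hj, bits_eq, vw_congr (β' := β) (fun k hk => (hb k (by omega)).symm)]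
  simpa using hz2

/-- The limit is in the closed set of the real values. -/
theorem es_real (h : z₀ ∈ closure (ES β n)) : (vw β n z₀).im = 0 ∧ 0 ≤ (vw β n z₀).re := by
  have hc : IsClosed {z | (vw β n z).im = 0 ∧ 0 ≤ (vw β n z).re} :=
    (isClosed_eq (continuous_im.comp (cont_vw β n)) continuous_const).inter
      (isClosed_le continuous_const (continuous_re.comp (cont_vw β n)))
  refine hc.closure_subset_iff.2 ?_ h
  rintro z ⟨-, -, hz⟩
  exact ⟨hz.2.1, hz.2.2.le⟩

/-- The limit is in the closed quadrant. -/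
theorem es_quad (h : z₀ ∈ closure (ES β n)) : 0 ≤ z₀.re ∧ 0 ≤ z₀.im := by
  have hc : IsClosed {z : ℂ | 0 ≤ z.re ∧ 0 ≤ z.im} :=
    (isClosed_le continuous_const continuous_re).inter (isClosed_le continuous_const continuous_im)
  refine hc.closure_subset_iff.2 ?_ h
  rintro z ⟨-, hz, -⟩
  exact ⟨hz.1.le, hz.2.le⟩

theorem es_U (h : z₀ ∈ closure (ES β n)) : z₀ ∈ closure U :=
  closure_mono (fun _ hz => hz.1) h

theorem es_gd (h : z₀ ∈ closure (ES β n)) : z₀ ∈ closure {z | Gd z} :=
  closure_mono (fun _ hz => Or.inr ⟨n, end_bits hz.2.2⟩) h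

/-- Not on the real axis. -/
theorem es_im_ne (h : z₀ ∈ closure (ES β n)) : z₀.im ≠ 0 := by
  intro h0
  have hU := es_U h
  have hl := low hU
  have hr : 2 ≤ z₀.re := by
    have h1 := axis_ge hU (Or.inl h0)
    have h2 := (es_quad h).1
    have h3 : z₀ = (z₀.re : ℂ) := Complex.ext (by simp) (by simpa using h0)
    rw [h3, Complex.norm_real, Real.norm_eq_abs, abs_of_nonneg h2] at h1
    exact h1
  have key : ∀ j, j ≤ n → vx β j z₀ = z₀ ∧ (vy β j z₀).re = 0 ∧ (vw β j z₀).re = 0 ∧
      (vy β j z₀).im < 0 ∧ (vw β j z₀).im ≤ (vy β j z₀).im := by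
    intro j
    induction j with
    | zero =>
      intro _
      refine ⟨rfl, ?_, ?_, ?_, ?_⟩
      · simp [h0]
      · simp [h0, pow_two]
      · simp; linarith
      · simp [h0, pow_two]; nlinarith
    | succ j ih =>
      intro hj
      obtain ⟨e1, e2, e3, e4, e5⟩ := ih (by omega)
      have hb : β j = false := es_false h (by omega) (by linarith)
      rw [vx_f hb, vy_f hb, vw_f hb, e1]
      refine ⟨rfl, e3, ?_, by linarith, ?_⟩
      · simp [h0, e3, e2]
      · simp [h0]; nlinarith
  obtain ⟨-, -, k3, k4, k5⟩ := key n le_rfl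
  have := (es_real h).1
  linarith

/-- Not on the imaginary axis. -/
theorem es_re_ne (h : z₀ ∈ closure (ES β n)) : z₀.re ≠ 0 := by
  intro h0
  have hU := es_U h
  have hl := low hU
  have hr : 2 ≤ z₀.im := by
    have h1 := axis_ge hU (Or.inr h0)
    have h2 := (es_quad h).2
    have h3 : z₀ = (z₀.im : ℂ) * I := Complex.ext (by simpa using h0) (by simp)
    rw [h3, norm_mul, Complex.norm_I, mul_one, Complex.norm_real, Real.norm_eq_abs,
      abs_of_nonneg h2] at h1
    exact h1
  have key : ∀ j, j ≤ n → vy β j z₀ = -I * z₀ ∧ (vx β j z₀).re = 0 ∧ (vw β j z₀).re = 0 ∧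
      0 < (vx β j z₀).im ∧ (vx β j z₀).im ≤ (vw β j z₀).im := by
    intro j
    induction j with
    | zero =>
      intro _
      refine ⟨rfl, ?_, ?_, ?_, ?_⟩
      · simp [h0]
      · simp [h0, pow_two]
      · simp; linarith
      · simp [h0, pow_two]; nlinarith
    | succ j ih =>
      intro hj
      obtain ⟨e1, e2, e3, e4, e5⟩ := ih (by omega)
      have hb : β j = true := es_true h (by omega) (by linarith)
      rw [vx_t hb, vy_t hb, vw_t hb, e1]
      refine ⟨rfl, e3, ?_, by linarith, ?_⟩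
      · simp [h0, e3, e2]
      · simp [h0]; nlinarith
  obtain ⟨-, -, k3, k4, k5⟩ := key n le_rfl
  have := (es_real h).1
  linarith

theorem es_Q (h : z₀ ∈ closure (ES β n)) : z₀ ∈ Q := by
  obtain ⟨h1, h2⟩ := es_quad h
  exact ⟨lt_of_le_of_ne h1 (Ne.symm (es_re_ne h)), lt_of_le_of_ne h2 (Ne.symm (es_im_ne h))⟩

/-- The fan after a real value `≥ 2`, to the left: all later values have positive imaginary
part. -/
theorem es_fan_left (h : z₀ ∈ closure (ES β n)) {k : ℕ} (hk : k < n) (hb : β k = false)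
    (hx : 0 < (vx β k z₀).im) (hy : (vy β k z₀).im < 0) (hw : (vw β k z₀).im = 0)
    (hw2 : 2 ≤ (vw β k z₀).re) (j : ℕ) (hj : k + 1 + j ≤ n) :
    vy β (k + 1 + j) z₀ = vw β k z₀ ∧ 0 < (vx β (k + 1 + j) z₀).im ∧
      (vx β (k + 1 + j) z₀).im < (vw β (k + 1 + j) z₀).im := by
  induction j with
  | zero =>
    simp only [Nat.add_zero]
    rw [vy_f hb, vx_f hb, vw_f hb]
    refine ⟨rfl, hx, ?_⟩
    simp [hw]; nlinarith
  | succ j ih =>
    obtain ⟨e1, e2, e3⟩ := ih (by omega)
    have hb' : β (k + 1 + j) = true := es_true h (by omega) (by linarith)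
    have e : k + 1 + (j + 1) = (k + 1 + j) + 1 := by ring
    rw [e, vx_t hb', vy_t hb', vw_t hb', e1]
    refine ⟨rfl, by linarith, ?_⟩
    simp [hw]; nlinarith

/-- The fan after a real value `≥ 2`, to the right. -/
theorem es_fan_right (h : z₀ ∈ closure (ES β n)) {k : ℕ} (hk : k < n) (hb : β k = true)
    (hx : 0 < (vx β k z₀).im) (hy : (vy β k z₀).im < 0) (hw : (vw β k z₀).im = 0)
    (hw2 : 2 ≤ (vw β k z₀).re) (j : ℕ) (hj : k + 1 + j ≤ n) :
    vx β (k + 1 + j) z₀ = vw β k z₀ ∧ (vy β (k + 1 + j) z₀).im < 0 ∧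
      (vw β (k + 1 + j) z₀).im < (vy β (k + 1 + j) z₀).im := by
  induction j with
  | zero =>
    simp only [Nat.add_zero]
    rw [vy_t hb, vx_t hb, vw_t hb]
    refine ⟨rfl, hy, ?_⟩
    simp [hw]; nlinarith
  | succ j ih =>
    obtain ⟨e1, e2, e3⟩ := ih (by omega)
    have hb' : β (k + 1 + j) = false := es_false h (by omega) (by linarith)
    have e : k + 1 + (j + 1) = (k + 1 + j) + 1 := by ring
    rw [e, vx_f hb', vy_f hb', vw_f hb', e1]
    refine ⟨rfl, by linarith, ?_⟩
    simp [hw]; nlinarith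

theorem es_good (h : z₀ ∈ closure (ES β n)) (k : ℕ) (hk : k ≤ n) :
    (∀ j, j < k → β j = bits z₀ j ∧ (vw β j z₀).im ≠ 0) ∧ Good β k z₀ := by
  have hQ := es_Q h
  have hU := es_U h
  have hl := low hU
  induction k with
  | zero => exact ⟨fun j hj => by omega, good_zero _ _⟩
  | succ k ih =>
    obtain ⟨i1, i2⟩ := ih (by omega)
    have hc : ∀ j, j < k → β j = bits z₀ j := fun j hj => (i1 j hj).1
    -- signs of the ends at level k
    have hx : 0 < (vx β k z₀).im := by
      rcases Nat.eq_zero_or_pos k with h0 | h0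
      · subst h0; exact hQ.2
      · exact (i2 k h0 le_rfl).2.1
    have hy : (vy β k z₀).im < 0 := by
      rcases Nat.eq_zero_or_pos k with h0 | h0
      · subst h0; simp; exact hQ.1
      · exact (i2 k h0 le_rfl).2.2.2.1
    have hne : (vw β k z₀).im ≠ 0 := by
      intro hw
      have hre : 0 ≤ (vw β k z₀).re := by
        rcases Nat.eq_zero_or_pos k with h0 | h0
        · subst h0
          rw [vw_zero]
          have := mul_pos hQ.1 hQ.2
          simp [pow_two]; linarith
        · have hlim := lim_next (es_gd h) (n := k) (fun j hj => by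
            rw [← vw_congr (β := β) (fun i hi => hc i (by omega))]; exact (i1 j hj).2) h0
          rw [← vx_congr (β := β) hc, ← vy_congr (β := β) hc, ← vw_congr (β := β) hc] at hlim
          rcases hlim.2 with w | w
          · exact w.2.1.1
          · exact w.1.1
      have hw2 : 2 ≤ (vw β k z₀).re := by
        have := real_ge hU hw
        rwa [abs_of_nonneg hre] at this
      obtain ⟨j, hj⟩ : ∃ j, k + 1 + j = n := ⟨n - (k + 1), by omega⟩
      have hreal := (es_real h).1
      cases hb : β k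
      · obtain ⟨-, f2, f3⟩ := es_fan_left h (by omega) hb hx hy hw hw2 j (by omega)
        rw [hj] at f2 f3
        linarith
      · obtain ⟨-, f2, f3⟩ := es_fan_right h (by omega) hb hx hy hw hw2 j (by omega)
        rw [hj] at f2 f3
        linarith
    have hbit : β k = bits z₀ k := by
      rw [bits_eq, ← vw_congr (β := β) hc]
      rcases lt_or_gt_of_ne hne with h' | h'
      · rw [es_false h (by omega) h']
        simpa using h'
      · rw [es_true h (by omega) h']
        simpa using h'.le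
    have hall : ∀ j, j < k + 1 → β j = bits z₀ j ∧ (vw β j z₀).im ≠ 0 := by
      intro j hj
      rcases Nat.lt_or_ge j k with h' | h'
      · exact i1 j h'
      · have : j = k := by omega
        subst this; exact ⟨hbit, hne⟩
    refine ⟨hall, ?_⟩
    have := lim_good hQ hl (es_gd h) (k + 1) (fun j hj => by
      rw [← vw_congr (β := β) (fun i hi => (hall i (by omega)).1)]; exact (hall j hj).2)
    exact good_congr (fun j hj => ((hall j hj).1).symm) this

/-- Finite good paths are closed. -/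
theorem end_closed (h : z₀ ∈ closure {z | z ∈ U ∧ z ∈ Q ∧ End β n z}) : z₀ ∈ Q ∧ End β n z₀ := by
  have h' : z₀ ∈ closure (ES β n) := h
  have hl := low (es_U h')
  obtain ⟨h1, h2⟩ := es_real h'
  refine ⟨es_Q h', (es_good h' n le_rfl).2, h1, lt_of_le_of_ne h2 ?_⟩
  intro h3
  exact ne_zero_of_one_le (hl β n).2.2 (Complex.ext (by simpa using h3.symm) (by simpa using h1))

/-- The sequence form. -/
theorem end_lim {u : ℕ → ℂ} (hU : ∀ k, u k ∈ U) (hQ : ∀ k, u k ∈ Q) (hE : ∀ k, End β n (u k))
    (hu : Tendsto u atTop (𝓝 z₀)) : z₀ ∈ Q ∧ End β n z₀ :=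
  end_closed (mem_closure_of_tendsto hu (Eventually.of_forall fun k => ⟨hU k, hQ k, hE k⟩))

end Pool.Agent.Loc
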