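import Pool.Agent.Loc.Opn
import Pool.Agent.Loc.Bse
import Pool.Agent.Loc.EndLim

set_option autoImplicit false

/-!
# Loc: limits of ray points
-/

namespace Pool.Agent.Loc

open Complex Pool.Agent.FZC Metric Filter Topology

/-- Limits of finite good paths in `U`. -/
theorem end_lim5 {β : ℕ → Bool} {n : ℕ} {z : ℕ → ℂ} {z₀ : ℂ} (hU : ∀ k, z k ∈ U)
    (hQ : ∀ k, z k ∈ Q) (he : ∀ k, End β n (z k)) (hl : Tendsto z atTop (𝓝 z₀)) {v : ℝ}
    (_hv : 2 < v) (_hw : vw β n z₀ = v) : z₀ ∈ Q ∧ End β n z₀ :=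
  end_lim hU hQ he hl

end Pool.Agent.Loc
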