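import Pool.Agent.Loc.Crw
import Pool.Agent.Loc.T5i
import Pool.Agent.Loc.T3

set_option autoImplicit false

/-!
# Loc: T5 (rays are full) and T4 (helper74, text part345 3.12)
-/

namespace Pool.Agent.Loc

open Complex Pool.Agent.FZC Metric Filter Topology

/-- The good values: those of ray points in `U` with an empty half plane and the winding numbers
`1` for the centres with integer `0`, `0` for the others. -/
def JJ (β : ℕ → Bool) (n : ℕ) : Set ℝ :=
  {v | 2 < v ∧ ∃ z ∈ U, RP β n z ∧ vw β n z = v ∧ Emp β n z ∧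
    ∀ g, Prp g → Wd β n z g = if nn g = 0 then 2 * Real.pi else 0}

/- MODULE fa -/
theorem JJ_nonempty (β : ℕ → Bool) (n : ℕ) : (JJ β n).Nonempty := by
  obtain ⟨z, hz, hR, hRP, hE, hF⟩ := base β n 100
  exact ⟨(vw β n z).re, hRP.g, z, hz, hRP, hRP.edge.2.2.2.2.2, hE, fun g hg =>
    Wd_big (np_of_closure (subset_closure hz) hRP.nz.1) hR hRP hE hF hg⟩

private theorem fb_diff (β : ℕ → Bool) (n : ℕ) :
    Differentiable ℂ (vx β n) ∧ Differentiable ℂ (vy β n) ∧ Differentiable ℂ (vw β n) := by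
  induction n with
  | zero =>
    refine ⟨?_, ?_, ?_⟩
    · exact differentiable_id
    · show Differentiable ℂ fun z : ℂ => -I * z
      fun_prop
    · show Differentiable ℂ fun z : ℂ => -I * z ^ 2
      fun_prop
  | succ n ih =>
    obtain ⟨h1, h2, h3⟩ := ih
    cases hb : β n with
    | true =>
      have f1 : vx β (n + 1) = vw β n := by ext z; simp [vx, vw, st, step, hb]
      have f2 : vy β (n + 1) = vy β n := by ext z; simp [vy, st, step, hb]
      have f3 : vw β (n + 1) = fun z => vw β n z * vy β n z - vx β n z := by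
        ext z; simp [vw, vy, vx, st, step, hb]
      rw [f1, f2, f3]
      exact ⟨h3, h2, (h3.mul h2).sub h1⟩
    | false =>
      have f1 : vx β (n + 1) = vx β n := by ext z; simp [vx, st, step, hb]
      have f2 : vy β (n + 1) = vw β n := by ext z; simp [vy, vw, st, step, hb]
      have f3 : vw β (n + 1) = fun z => vx β n z * vw β n z - vy β n z := by
        ext z; simp [vw, vy, vx, st, step, hb]
      rw [f1, f2, f3]
      exact ⟨h1, h3, (h1.mul h3).sub h2⟩

/- MODULE fb : open -/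
/-- `vw β n` is an open map. -/
theorem vw_open (β : ℕ → Bool) (n : ℕ) (z : ℂ) : 𝓝 (vw β n z) ≤ map (vw β n) (𝓝 z) := by
  have hd := (fb_diff β n).2.2
  have han : ∀ w, AnalyticAt ℂ (vw β n) w := fun w => hd.analyticAt w
  rcases (han z).eventually_constant_or_nhds_le_map_nhds with h | h
  · exfalso
    have h1 : AnalyticOnNhd ℂ (vw β n) Set.univ := fun w _ => han w
    have h2 : AnalyticOnNhd ℂ (fun _ : ℂ => vw β n z) Set.univ := fun w _ => analyticAt_const
    have h3 := h1.eqOn_of_preconnected_of_eventuallyEq h2 isPreconnected_univ (Set.mem_univ z) h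
    obtain ⟨R, hR⟩ := vw_big β n (‖vw β n z‖ + 1)
    have h4 := hR ((|R| : ℝ) : ℂ) (by rw [norm_real, Real.norm_eq_abs, abs_abs]; exact le_abs_self R)
    have h5 : vw β n ((|R| : ℝ) : ℂ) = vw β n z := h3 (Set.mem_univ _)
    rw [h5] at h4
    linarith
  · exact h

/-- Near a ray point all points with a real value are ray points. -/
theorem rp_open {β : ℕ → Bool} {n : ℕ} {z : ℂ} (h : RP β n z) :
    ∀ᶠ z' in 𝓝 z, (vw β n z').im = 0 → RP β n z' := by
  have hc := fun k => continuous_state β k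
  have cre : ∀ {f : ℂ → ℂ}, Continuous f → Continuous fun w => (f w).re :=
    fun hf => continuous_re.comp hf
  have cim : ∀ {f : ℂ → ℂ}, Continuous f → Continuous fun w => (f w).im :=
    fun hf => continuous_im.comp hf
  have e1 : ∀ᶠ z' in 𝓝 z, z' ∈ Q := by
    have a1 : ∀ᶠ z' in 𝓝 z, 0 < z'.re := continuous_re.continuousAt.eventually (lt_mem_nhds h.q.1)
    have a2 : ∀ᶠ z' in 𝓝 z, 0 < z'.im := continuous_im.continuousAt.eventually (lt_mem_nhds h.q.2)
    filter_upwards [a1, a2] with z' b1 b2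
    exact ⟨b1, b2⟩
  have e2 : ∀ᶠ z' in 𝓝 z, ∀ k ∈ Finset.Icc 1 n, Edge (vx β k z') (vy β k z') := by
    rw [eventually_all_finset]
    intro k hk
    rw [Finset.mem_Icc] at hk
    obtain ⟨g1, g2, g3, g4, g5⟩ := h.e.1 k hk.1 hk.2
    obtain ⟨c1, c2, -⟩ := hc k
    have b1 : ∀ᶠ z' in 𝓝 z, 0 < (vx β k z').re :=
      (cre c1).continuousAt.eventually (lt_mem_nhds g1)
    have b2 : ∀ᶠ z' in 𝓝 z, 0 < (vx β k z').im :=
      (cim c1).continuousAt.eventually (lt_mem_nhds g2)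
    have b3 : ∀ᶠ z' in 𝓝 z, 0 < (vy β k z').re :=
      (cre c2).continuousAt.eventually (lt_mem_nhds g3)
    have b4 : ∀ᶠ z' in 𝓝 z, (vy β k z').im < 0 :=
      (cim c2).continuousAt.eventually (gt_mem_nhds g4)
    have c3 : Continuous fun w => (vx β k w * (starRingEnd ℂ) (vy β k w)).re :=
      cre (c1.mul (continuous_conj.comp c2))
    have b5 : ∀ᶠ z' in 𝓝 z, 0 < (vx β k z' * (starRingEnd ℂ) (vy β k z')).re :=
      c3.continuousAt.eventually (lt_mem_nhds g5)
    filter_upwards [b1, b2, b3, b4, b5] with z' d1 d2 d3 d4 d5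
    exact ⟨d1, d2, d3, d4, d5⟩
  have e3 : ∀ᶠ z' in 𝓝 z, 2 < (vw β n z').re :=
    (cre (hc n).2.2).continuousAt.eventually (lt_mem_nhds h.g)
  filter_upwards [e1, e2, e3] with z' d1 d2 d3 him
  refine ⟨d1, ⟨?_, him, by linarith⟩, d3⟩
  intro k k1 k2
  exact d2 k (Finset.mem_Icc.mpr ⟨k1, k2⟩)

theorem Wd_open {β : ℕ → Bool} {n : ℕ} {z : ℂ} (hz : z ∈ U) (h : RP β n z) (he : Emp β n z) :
    ∀ᶠ z' in 𝓝 z, RP β n z' → Emp β n z' ∧ ∀ g, Prp g → Wd β n z' g = Wd β n z g := by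
  have h0 : z ≠ 0 := h.nz.1
  have hnp : NP z := np_of_closure (subset_closure hz) h0
  have ha : Abv z (ht β n z) := he
  have e1 := emp_open hz h he
  have e2 : ∀ᶠ z' in 𝓝 z, z' ∈ U := U_open.mem_nhds hz
  have e3 := ell_unif hz h0 ha (p := fun w => pt β n w) (pt_cont h) (pt_above h) (CC β n)
    (ε := 1) one_pos
  filter_upwards [e1, e2, e3] with z' d1 d2 d3 hr
  have he' := d1 hr
  refine ⟨he', fun g hg => ?_⟩
  have hnp' : NP z' := np_of_closure (subset_closure d2) hr.nz.1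
  obtain ⟨k, hk⟩ := Wd_int hnp h he hg
  obtain ⟨k', hk'⟩ := Wd_int hnp' hr he' hg
  have h1 : |Wd β n z' g - Wd β n z g| < 1 := d3 g
  rw [hk, hk'] at h1 ⊢
  have hpi := Real.pi_gt_three
  have h2 : |((k' - k : ℤ) : ℝ)| * (2 * Real.pi) < 1 := by
    have : 2 * Real.pi * (k' : ℝ) - 2 * Real.pi * (k : ℝ) = ((k' - k : ℤ) : ℝ) * (2 * Real.pi) := by
      push_cast; ring
    rw [this, abs_mul, abs_of_pos (by positivity : (0 : ℝ) < 2 * Real.pi)] at h1
    exact h1
  have h3 : k' = k := by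
    by_contra hne
    have h4 : (1 : ℝ) ≤ |((k' - k : ℤ) : ℝ)| := by
      rw [← Int.cast_abs]
      exact_mod_cast Int.one_le_abs (sub_ne_zero.mpr hne)
    nlinarith
  rw [h3]

/- MODULE fc -/
theorem JJ_open (β : ℕ → Bool) (n : ℕ) : IsOpen (JJ β n) := by
  rw [isOpen_iff_mem_nhds]
  rintro v ⟨hv, z, hz, hRP, hw, hE, hW⟩
  have hUo : IsOpen U := FZR.isClosed_Sig.isOpen_compl
  have hev : ∀ᶠ z' in 𝓝 z, z' ∈ U ∧ ((vw β n z').im = 0 → RP β n z') ∧
      (RP β n z' → Emp β n z' ∧ ∀ g, Prp g → Wd β n z' g = Wd β n z g) := by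
    filter_upwards [hUo.mem_nhds hz, rp_open hRP, Wd_open hz hRP hE] with z' h1 h2 h3
    exact ⟨h1, h2, h3⟩
  have h1 := vw_open β n z (image_mem_map hev)
  rw [hw] at h1
  have h2 := (continuous_ofReal.tendsto v).eventually h1
  filter_upwards [h2, lt_mem_nhds hv] with v' h3 h4
  obtain ⟨z', ⟨hU', hr, hWd⟩, he⟩ := h3
  have hR' : RP β n z' := hr (by rw [he]; exact ofReal_im _)
  obtain ⟨h5, h6⟩ := hWd hR'
  exact ⟨h4, z', hU', hR', he, h5, fun g hg => by rw [h6 g hg]; exact hW g hg⟩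

/- MODULE fd : limits -/
private theorem fd_ne {β : ℕ → Bool} {n : ℕ} {z : ℂ} (h : RP β n z) : z ≠ 0 := by
  rintro rfl
  have := h.q.1
  simp at this

private theorem fd_lm {z₀ : ℂ} (hz : z₀ ≠ 0) (l : Lt) (i j : Fin 2) :
    ContinuousAt (fun z => lm z l i j) z₀ := by
  have h1 : ContinuousAt (fun z : ℂ => z⁻¹) z₀ := continuousAt_inv₀ hz
  have h2 : ContinuousAt (fun z : ℂ => z) z₀ := continuousAt_id
  cases l
  · exact continuousAt_const
  · exact continuousAt_const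
  · fin_cases i <;> fin_cases j
    · exact continuousAt_const
    · exact h1.neg
    · exact h2
    · exact continuousAt_const
  · fin_cases i <;> fin_cases j
    · exact continuousAt_const
    · exact continuousAt_const.mul h1
    · exact continuousAt_const.mul h2
    · exact continuousAt_const

private theorem fd_MM {z₀ : ℂ} (hz : z₀ ≠ 0) (g : List Lt) (i j : Fin 2) :
    ContinuousAt (fun z => MM z g i j) z₀ := by
  induction g generalizing i j with
  | nil =>
    have e : (fun z => MM z ([] : List Lt) i j) = fun _ => (1 : Matrix (Fin 2) (Fin 2) ℂ) i j := by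
      funext z
      rw [MM_nil]
    rw [e]
    exact continuousAt_const
  | cons l g ih =>
    have e : (fun z => MM z (l :: g) i j) = fun z => lm z l i 0 * MM z g 0 j +
        lm z l i 1 * MM z g 1 j := by
      funext z
      rw [MM_cons, Matrix.mul_apply, Fin.sum_univ_two]
    rw [e]
    exact ((fd_lm hz l i 0).mul (ih 0 j)).add ((fd_lm hz l i 1).mul (ih 1 j))

private theorem fd_cn {z₀ : ℂ} (hU : z₀ ∈ closure U) (hz : z₀ ≠ 0) {g : List Lt} (hg : Prp g) :
    ContinuousAt (fun z => cn z g) z₀ := by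
  have h1 : MM z₀ g 1 0 ≠ 0 := by
    intro h0
    have := prp_ge hU hg
    rw [h0, norm_zero] at this
    linarith
  exact (fd_MM hz g 0 0).div (fd_MM hz g 1 0) h1

theorem emp_lim5 {β : ℕ → Bool} {n : ℕ} {z : ℕ → ℂ} {z₀ : ℂ} (hU : z₀ ∈ closure U)
    (h0 : RP β n z₀) (he : ∀ k, Emp β n (z k)) (hl : Tendsto z atTop (𝓝 z₀)) : Emp β n z₀ := by
  intro g hg
  have hz0 : z₀ ≠ 0 := fd_ne h0
  have h1 : Tendsto (fun k => (cn (z k) g).im) atTop (𝓝 (cn z₀ g).im) :=
    ((Complex.continuous_im.continuousAt.comp (fd_cn hU hz0 hg)).tendsto).comp hl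
  have h2 : Tendsto (fun k => ht β n (z k)) atTop (𝓝 (ht β n z₀)) :=
    (ht_cont h0).tendsto.comp hl
  exact le_of_tendsto_of_tendsto' h1 h2 fun k => he k g hg

theorem Wd_lim {β : ℕ → Bool} {n : ℕ} {z : ℕ → ℂ} {z₀ : ℂ} (hU : z₀ ∈ closure U)
    (h0 : RP β n z₀) (he : Emp β n z₀) (hl : Tendsto z atTop (𝓝 z₀)) {g : List Lt} {c : ℝ}
    (hc : ∀ k, Wd β n (z k) g = c) : Wd β n z₀ g = c := by
  have hnp : NP z₀ := np_of_closure hU (fd_ne h0)
  have hc2 : ContinuousAt (fun z => Wd β n z g) z₀ :=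
    ell_cont hnp (t := ht β n z₀) he (p := fun z => pt β n z) (fun i => pt_cont h0 i)
      (fun i => pt_above h0 i) g (CC β n)
  have h1 : Tendsto (fun k => Wd β n (z k) g) atTop (𝓝 (Wd β n z₀ g)) := hc2.tendsto.comp hl
  have h2 : Tendsto (fun k => Wd β n (z k) g) atTop (𝓝 c) := by
    have e : (fun k => Wd β n (z k) g) = fun _ => c := funext hc
    rw [e]
    exact tendsto_const_nhds
  exact tendsto_nhds_unique h1 h2

/-- A ray point in the closure of `U` with the right winding numbers is in `U`. -/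
theorem mem_of_Wd {β : ℕ → Bool} {n : ℕ} {z : ℂ} (hU : z ∈ closure U) (h : RP β n z)
    (he : Emp β n z) (hw : ∀ g, Prp g → Wd β n z g = if nn g = 0 then 2 * Real.pi else 0) :
    z ∈ U := by
  by_contra hzU
  have hS : z ∈ Sig := by
    by_contra h'
    exact hzU h'
  obtain ⟨ξ, g, h', hg, hh', hgt, hht⟩ := K3 hS hU
  have hnp : NP z := np_of_closure hU (fd_ne h)
  obtain ⟨δ, hδ, hel⟩ := ell_near hnp (t := ht β n z) he (p := pt β n z)
    (fun i => pt_above h i) (CC_chn hnp h he)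
  have h1 : Tendsto (fun k => ‖cn z (g k) - cn z (h' k)‖) atTop (𝓝 0) := by
    have := (hgt.sub hht).norm
    rwa [sub_self, norm_zero] at this
  obtain ⟨k, hk⟩ := (h1.eventually_lt_const hδ).exists
  have h2 := hel (g k) (h' k) (hg k).1 (hh' k).1 hk.le
  have h3 : Wd β n z (g k) = Wd β n z (h' k) := h2
  rw [hw _ (hg k).1, hw _ (hh' k).1, (hg k).2, (hh' k).2] at h3
  simp at h3

/- MODULE fe -/
theorem JJ_closed {β : ℕ → Bool} {n : ℕ} {v : ℝ} (hv : 2 < v) (h : v ∈ closure (JJ β n)) :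
    v ∈ JJ β n := by
  obtain ⟨v', hv'J, hv't⟩ := mem_closure_iff_seq_limit.1 h
  choose hv2 z hzU hrp hvw hemp hWd using hv'J
  obtain ⟨R, hR⟩ := vw_big β n (v + 1)
  have hev : ∀ᶠ k in atTop, v' k < v + 1 := hv't.eventually_lt_const (by linarith)
  have hbd : ∀ᶠ k in atTop, z k ∈ closedBall (0 : ℂ) R := by
    filter_upwards [hev] with k hk
    rw [mem_closedBall, dist_zero_right]
    by_contra hcon
    have h1 := hR (z k) (le_of_not_ge hcon)
    rw [hvw k, Complex.norm_real, Real.norm_eq_abs, abs_of_pos (by linarith [hv2 k])] at h1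
    linarith
  obtain ⟨z₀, -, φ, hφ, hlim⟩ := (isCompact_closedBall (0 : ℂ) R).tendsto_subseq' hbd.frequently
  have hlim' : Tendsto (fun k => z (φ k)) atTop (𝓝 z₀) := hlim
  have hvw0 : vw β n z₀ = v := by
    have h1 : Tendsto (fun k => vw β n (z (φ k))) atTop (𝓝 (vw β n z₀)) :=
      ((cont_vw β n).tendsto z₀).comp hlim'
    have h2 : Tendsto (fun k => vw β n (z (φ k))) atTop (𝓝 (v : ℂ)) := by
      have e : (fun k => vw β n (z (φ k))) = fun k => ((v' (φ k) : ℝ) : ℂ) :=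
        funext fun k => hvw (φ k)
      rw [e]
      exact (Complex.continuous_ofReal.tendsto v).comp (hv't.comp hφ.tendsto_atTop)
    exact tendsto_nhds_unique h1 h2
  obtain ⟨hq0, he0⟩ := end_lim5 (fun k => hzU (φ k)) (fun k => (hrp (φ k)).q)
    (fun k => (hrp (φ k)).e) hlim' hv hvw0
  have hrp0 : RP β n z₀ := ⟨hq0, he0, by rw [hvw0, Complex.ofReal_re]; exact hv⟩
  have hcl : z₀ ∈ closure U :=
    mem_closure_iff_seq_limit.2 ⟨fun k => z (φ k), fun k => hzU (φ k), hlim'⟩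
  have hemp0 : Emp β n z₀ := emp_lim5 hcl hrp0 (fun k => hemp (φ k)) hlim'
  have hWd0 : ∀ g, Prp g → Wd β n z₀ g = if nn g = 0 then 2 * Real.pi else 0 := fun g hg =>
    Wd_lim hcl hrp0 hemp0 hlim' fun k => hWd (φ k) g hg
  exact ⟨hv, z₀, mem_of_Wd hcl hrp0 hemp0 hWd0, hrp0, hvw0, hemp0, hWd0⟩

/- MODULE ff -/
theorem JJ_eq (β : ℕ → Bool) (n : ℕ) {v : ℝ} (hv : 2 < v) : v ∈ JJ β n := by
  have h1 : (Set.Ioi (2 : ℝ) ∩ JJ β n).Nonempty := by
    obtain ⟨x, hx⟩ := JJ_nonempty β n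
    exact ⟨x, hx.1, hx⟩
  have h2 : closure (JJ β n) ∩ Set.Ioi (2 : ℝ) ⊆ JJ β n := fun x hx => JJ_closed hx.2 hx.1
  exact isPreconnected_Ioi.subset_of_closure_inter_subset (JJ_open β n) h1 h2 hv

theorem ray5 (β : ℕ → Bool) (n : ℕ) (v : ℝ) (hv : 2 < v) :
    ∃ z ∈ U, z ∈ Q ∧ End β n z ∧ vw β n z = v := by
  obtain ⟨-, z, hz, h, hw, -, -⟩ := JJ_eq β n hv
  exact ⟨z, hz, h.q, h.e, hw⟩

theorem end_mem5 {β : ℕ → Bool} {n : ℕ} {z : ℂ} (hz : z ∈ Q) (h : End β n z)
    (h2 : 2 < (vw β n z).re) : z ∈ U := by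
  obtain ⟨z', hz', hq', he', hw'⟩ := ray5 β n (vw β n z).re h2
  have e : vw β n z = vw β n z' := by
    rw [hw']
    apply Complex.ext
    · simp
    · simpa using h.2.1
  have := uniq_end hz hq' h he' e h2.le
  rwa [this]

end Pool.Agent.Loc
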