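import Pool.Agent.Loc.T7C
import Pool.Agent.FZC.Fin
import Pool.Agent.NoH.Fin
import Pool.Agent.NoH.Top
import Pool.Agent.Lps.Lim

set_option autoImplicit false

/-!
# Loc: the spectrum is simply connected
-/

namespace Pool.Agent.Loc

open Pool.Agent.FZC

theorem compl_connected : IsConnected Sigᶜ := by
  have h : Sigᶜ = Pool.Agent.NoH.NN := by
    ext z
    exact Pool.Agent.NoH.mem_iff z
  rw [h]
  exact Pool.Agent.NoH.isConnected_NN fun z hz =>
    (Pool.Agent.NoH.mem_iff z).1 (Pool.Agent.NoH.far_not_mem z hz)

theorem simply : SimplyConnectedSpace Sig := by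
  have hc : IsCompact Sig := by rw [Sig_eq]; exact isCompact_bddSol
  rw [simply_connected_iff_loops_nullhomotopic]
  exact ⟨isPathConnected_iff_pathConnectedSpace.1 pathConnected,
    fun z γ => Pool.Agent.Lps.loop_null hc Sig_connected compl_connected z γ⟩

end Pool.Agent.Loc
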