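import Pool.Agent.Loc.T6a

/-!
# Loc, growth part A: no good path is eventually constant
-/

set_option autoImplicit false

namespace Pool.Agent.Loc

open Complex Pool.Agent.FZC Filter Topology

lemma st_true {β : ℕ → Bool} {z : ℂ} {n : ℕ} (hb : β n = true) :
    vx β (n + 1) z = vw β n z ∧ vy β (n + 1) z = vy β n z ∧
      vw β (n + 1) z = vw β n z * vy β n z - vx β n z := (pathStep_st β z n).1 hb

lemma st_false {β : ℕ → Bool} {z : ℂ} {n : ℕ} (hb : β n = false) :
    vx β (n + 1) z = vx β n z ∧ vy β (n + 1) z = vw β n z ∧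
      vw β (n + 1) z = vx β n z * vw β n z - vy β n z := (pathStep_st β z n).2 hb

lemma markoff_st (β : ℕ → Bool) (z : ℂ) (n : ℕ) :
    vx β n z ^ 2 + vy β n z ^ 2 + vw β n z ^ 2 = vx β n z * vy β n z * vw β n z := by
  have h00 : vx β 0 z ^ 2 + vy β 0 z ^ 2 + vw β 0 z ^ 2 = vx β 0 z * vy β 0 z * vw β 0 z := by
    simp only [vx, vy, vw, st, s0]
    have hI : Complex.I ^ 2 = -1 := Complex.I_sq
    linear_combination (z ^ 2 + z ^ 4 - z ^ 4) * hI
  exact (pathStep_st β z).markoff h00 n

/-- A linear recursion with a multiplier in the upper half plane leaves the fourth quadrant. -/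
lemma rec_leaves {p : ℂ} (hp : 0 < p.im) {y : ℕ → ℂ} (hrec : ∀ k, y (k + 2) = p * y (k + 1) - y k)
    (hre : ∀ k, 0 < (y k).re) (him : ∀ k, (y k).im < 0) (h1 : ∀ k, 1 ≤ ‖y k‖) : False := by
  set A : ℕ → ℝ := fun k => (y (k + 1) * (starRingEnd ℂ) (y k)).im with hA
  have hAr : ∀ k, A (k + 1) = A k + p.im * ‖y (k + 1)‖ ^ 2 := by
    intro k
    have h2 : ‖y (k + 1)‖ ^ 2 = (y (k + 1)).re ^ 2 + (y (k + 1)).im ^ 2 := by
      rw [← Complex.normSq_eq_norm_sq, Complex.normSq_apply]; ring
    simp only [hA]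
    rw [show k + 1 + 1 = k + 2 from rfl, hrec k, h2]
    simp only [Complex.mul_im, Complex.sub_re, Complex.sub_im, Complex.mul_re, Complex.conj_re,
      Complex.conj_im]
    ring
  have hAlow : ∀ k : ℕ, A 0 + k * p.im ≤ A k := by
    intro k
    induction k with
    | zero => simp
    | succ k ih =>
      rw [hAr k]
      have := h1 (k + 1)
      have h3 : p.im ≤ p.im * ‖y (k + 1)‖ ^ 2 := by
        have : (1 : ℝ) ≤ ‖y (k + 1)‖ ^ 2 := by nlinarith
        nlinarith
      push_cast
      linarith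
  obtain ⟨K, hK⟩ : ∃ K : ℕ, ∀ k, K ≤ k → 0 ≤ A k := by
    obtain ⟨K, hK⟩ := exists_nat_ge (-A 0 / p.im)
    refine ⟨K, fun k hk => ?_⟩
    have h2 : (K : ℝ) ≤ k := by exact_mod_cast hk
    have h3 : -A 0 ≤ K * p.im := by
      rw [div_le_iff₀ hp] at hK; exact hK
    have := hAlow k
    nlinarith
  set d : ℕ → ℝ := fun k => (y k).re - (y k).im with hd
  have hdpos : ∀ k, 0 < d k := fun k => by simp only [hd]; linarith [hre k, him k]
  have hdle : ∀ k, d k ≤ 2 * ‖y k‖ := fun k => by
    simp only [hd]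
    linarith [Complex.re_le_norm (y k), (abs_le.mp (Complex.abs_im_le_norm (y k))).1]
  set s : ℕ → ℝ := fun k => (y k).re / d k with hs
  have hsdiff : ∀ k, s (k + 1) - s k = A k / (d k * d (k + 1)) := by
    intro k
    have e1 := (hdpos k).ne'
    have e2 := (hdpos (k + 1)).ne'
    simp only [hs]
    rw [div_sub_div _ _ e2 e1, mul_comm (d (k + 1)) (d k)]
    congr 1
    simp only [hA, hd, Complex.mul_im, Complex.conj_re, Complex.conj_im]
    ring
  have hs1 : ∀ k, s k ≤ 1 := by
    intro k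
    simp only [hs]
    rw [div_le_one (hdpos k)]
    simp only [hd]; linarith [him k]
  have hmono : Monotone (fun k => s (K + k)) := by
    refine monotone_nat_of_le_succ fun k => ?_
    have h2 := hsdiff (K + k)
    have h3 : 0 ≤ A (K + k) / (d (K + k) * d (K + k + 1)) :=
      div_nonneg (hK _ (by omega)) (mul_nonneg (hdpos _).le (hdpos _).le)
    rw [← add_assoc]
    linarith
  have hconv : ∃ L, Tendsto (fun k => s (K + k)) atTop (𝓝 L) :=
    ⟨_, tendsto_atTop_ciSup hmono ⟨1, by rintro _ ⟨k, rfl⟩; exact hs1 _⟩⟩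
  obtain ⟨L, hL⟩ := hconv
  have hdiff0 : Tendsto (fun k => s (K + (k + 1)) - s (K + k)) atTop (𝓝 0) := by
    have := (hL.comp (tendsto_add_atTop_nat 1)).sub hL
    simpa using this
  -- ratio bound
  have hratio : ∀ k, K ≤ k → p.im * ‖y (k + 1)‖ / (4 * ‖y (k + 2)‖) ≤ s (k + 2) - s (k + 1) := by
    intro k hk
    rw [hsdiff (k + 1)]
    have h2 : p.im * ‖y (k + 1)‖ ^ 2 ≤ A (k + 1) := by rw [hAr k]; linarith [hK k hk]
    have h3 := h1 (k + 1)
    have h4 := h1 (k + 2)
    have h5 : d (k + 1) * d (k + 2) ≤ 4 * (‖y (k + 1)‖ * ‖y (k + 2)‖) := by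
      calc d (k + 1) * d (k + 2) ≤ (2 * ‖y (k + 1)‖) * (2 * ‖y (k + 2)‖) :=
            mul_le_mul (hdle _) (hdle _) (hdpos _).le (by positivity)
        _ = _ := by ring
    have h6 : 0 < d (k + 1) * d (k + 2) := mul_pos (hdpos _) (hdpos _)
    rw [div_le_div_iff₀ (by linarith) h6]
    have h7 : p.im * ‖y (k + 1)‖ * (d (k + 1) * d (k + 2)) ≤
        p.im * ‖y (k + 1)‖ * (4 * (‖y (k + 1)‖ * ‖y (k + 2)‖)) :=
      mul_le_mul_of_nonneg_left h5 (by positivity)
    nlinarith
  have hc : 0 < p.im / (4 * (‖p‖ + 1)) := by positivity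
  obtain ⟨M, hM⟩ := (Metric.tendsto_atTop.mp hdiff0) _ hc
  have key : ∀ k, M ≤ k → (‖p‖ + 1) * ‖y (K + k + 1)‖ < ‖y (K + k + 2)‖ := by
    intro k hk
    have h2 := hM (k + 1) (by omega)
    rw [Real.dist_eq, sub_zero] at h2
    have h3 := (abs_lt.mp h2).2
    have h4 := hratio (K + k) (by omega)
    rw [show K + (k + 1 + 1) = K + k + 2 by ring, show K + (k + 1) = K + k + 1 by ring] at h3
    have h5 : p.im * ‖y (K + k + 1)‖ / (4 * ‖y (K + k + 2)‖) < p.im / (4 * (‖p‖ + 1)) := by
      linarith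
    have h6 := h1 (K + k + 2)
    rw [div_lt_div_iff₀ (by linarith) (by positivity)] at h5
    have h7 : p.im * (4 * ((‖p‖ + 1) * ‖y (K + k + 1)‖)) < p.im * (4 * ‖y (K + k + 2)‖) := by
      linarith
    have h8 := lt_of_mul_lt_mul_left h7 hp.le
    linarith
  have k1 := key M le_rfl
  have k2 := key (M + 1) (by omega)
  rw [show K + (M + 1) + 1 = K + M + 2 by ring, show K + (M + 1) + 2 = K + M + 3 by ring] at k2
  have k3 : ‖y (K + M + 3)‖ ≤ ‖p‖ * ‖y (K + M + 2)‖ + ‖y (K + M + 1)‖ := by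
    have := hrec (K + M + 1)
    rw [show K + M + 1 + 2 = K + M + 3 by ring, show K + M + 1 + 1 = K + M + 2 by ring] at this
    rw [this]
    refine (norm_sub_le _ _).trans ?_
    rw [norm_mul]
  have k4 : ‖y (K + M + 1)‖ ≤ ‖y (K + M + 2)‖ := by
    nlinarith [norm_nonneg p, norm_nonneg (y (K + M + 1))]
  linarith

/-- A good path whose ends stay of modulus at least `1` has infinitely many hinges. -/
theorem not_const_of {z : ℂ} {β : ℕ → Bool} (h : Inf β z) {M : ℕ}
    (hl : ∀ n, M ≤ n → 1 ≤ ‖vx β n z‖ ∧ 1 ≤ ‖vy β n z‖) :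
    ∀ N, ∃ n, N ≤ n ∧ Hinge β n := by
  intro N0
  by_contra hcon
  push Not at hcon
  set N := max (max N0 M) 1 with hN
  have hN0 : N0 ≤ N := le_trans (le_max_left _ _) (le_max_left _ _)
  have hNM : M ≤ N := le_trans (le_max_right _ _) (le_max_left _ _)
  have hN1 : 1 ≤ N := le_max_right _ _
  have hconst : ∀ k, β (N + k) = β N := by
    intro k
    induction k with
    | zero => rfl
    | succ k ih =>
      have := hcon (N + k) (by omega)
      unfold Hinge at this
      rw [not_not] at this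
      rw [← add_assoc, ← this, ih]
  have hedge : ∀ k, Edge (vx β (N + k) z) (vy β (N + k) z) := fun k =>
    h (N + k) (N + k) (by omega) le_rfl
  cases hb : β N
  · have hx : ∀ k, vx β (N + k) z = vx β N z := by
      intro k
      induction k with
      | zero => rfl
      | succ k ih =>
        rw [← add_assoc, (st_false (by rw [hconst, hb])).1, ih]
    refine rec_leaves (p := vx β N z) (y := fun k => vy β (N + k) z) (hedge 0).2.1 ?_
      (fun k => (hedge k).2.2.1) (fun k => (hedge k).2.2.2.1) (fun k => (hl _ (by omega)).2)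
    intro k
    have e1 := st_false (z := z) (show β (N + k) = false by rw [hconst, hb])
    have e2 := st_false (z := z) (show β (N + k + 1) = false by rw [add_assoc, hconst, hb])
    rw [← add_assoc, ← add_assoc, show N + k + 2 = N + k + 1 + 1 by ring, e2.2.1, e1.2.2, e1.2.1,
      hx k]
  · have hy : ∀ k, vy β (N + k) z = vy β N z := by
      intro k
      induction k with
      | zero => rfl
      | succ k ih =>
        rw [← add_assoc, (st_true (by rw [hconst, hb])).2.1, ih]
    refine rec_leaves (p := (starRingEnd ℂ) (vy β N z))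
      (y := fun k => (starRingEnd ℂ) (vx β (N + k) z)) ?_ ?_ ?_ ?_ ?_
    · have h0 : (vy β N z).im < 0 := (hedge 0).2.2.2.1
      rw [Complex.conj_im]; linarith
    · intro k
      have e1 := st_true (z := z) (show β (N + k) = true by rw [hconst, hb])
      have e2 := st_true (z := z) (show β (N + k + 1) = true by rw [add_assoc, hconst, hb])
      rw [← add_assoc, ← add_assoc, show N + k + 2 = N + k + 1 + 1 by ring, e2.1, e1.2.2, e1.1,
        hy k, map_sub, map_mul, mul_comm]
    · intro k; rw [Complex.conj_re]; exact (hedge k).1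
    · intro k; rw [Complex.conj_im]; linarith [(hedge k).2.1]
    · intro k; rw [Complex.norm_conj]; exact (hl _ (by omega)).1

/-- No good path is eventually constant. -/
theorem not_const {z : ℂ} (_hz : z ∈ Q) (hl : Low z) {β : ℕ → Bool} (h : Inf β z) :
    ∀ N, ∃ n, N ≤ n ∧ Hinge β n :=
  not_const_of h (M := 0) fun n _ => ⟨(hl β n).1, (hl β n).2.1⟩

end Pool.Agent.Loc
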