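import Pool.Agent.Loc.GroA
import Pool.Agent.Loc.Bas

/-!
# Loc, growth part B: the angle step on large edges
-/

set_option autoImplicit false

namespace Pool.Agent.Loc

open Complex Real ComplexConjugate

lemma triple_polar (x y w : ℂ) : x * conj y * conj w =
    ((‖x‖ * ‖y‖ * ‖w‖ : ℝ) : ℂ) * exp ((arg x - arg y - arg w : ℝ) * I) := by
  have hx := Complex.norm_mul_exp_arg_mul_I x
  have hc : ∀ u : ℂ, conj u = ‖u‖ * exp ((-arg u : ℝ) * I) := by
    intro u
    conv_lhs => rw [← Complex.norm_mul_exp_arg_mul_I u]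
    rw [map_mul, Complex.conj_ofReal, ← Complex.exp_conj, map_mul, Complex.conj_I,
      Complex.conj_ofReal]
    congr 2
    push_cast; ring
  conv_lhs => rw [← hx, hc y, hc w]
  push_cast
  have : exp ((arg x - arg y - arg w : ℂ) * I) =
      exp (arg x * I) * exp (-(arg y : ℂ) * I) * exp (-(arg w : ℂ) * I) := by
    rw [← Complex.exp_add, ← Complex.exp_add]
    congr 1; ring
  rw [this]; ring

lemma triple_im (x y w : ℂ) : (x * conj y * conj w).im =
    ‖x‖ * ‖y‖ * ‖w‖ * Real.sin (arg x - arg y - arg w) := by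
  rw [triple_polar, Complex.im_ofReal_mul, Complex.exp_ofReal_mul_I_im]

lemma triple_re (x y w : ℂ) : (x * conj y * conj w).re =
    ‖x‖ * ‖y‖ * ‖w‖ * Real.cos (arg x - arg y - arg w) := by
  rw [triple_polar, Complex.re_ofReal_mul, Complex.exp_ofReal_mul_I_re]

lemma markoff_conj {x y w : ℂ} (hM : x ^ 2 + y ^ 2 + w ^ 2 = x * y * w) :
    ((‖x‖ ^ 2 : ℝ) : ℂ) * (x * conj y * conj w) + ((‖y‖ ^ 2 : ℝ) : ℂ) * (y * conj x * conj w) +
      ((‖w‖ ^ 2 : ℝ) : ℂ) * (w * conj x * conj y) = ((‖x‖ ^ 2 * ‖y‖ ^ 2 * ‖w‖ ^ 2 : ℝ) : ℂ) := by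
  have h : ∀ u : ℂ, ((‖u‖ ^ 2 : ℝ) : ℂ) = u * conj u := by
    intro u
    rw [Complex.mul_conj, Complex.normSq_eq_norm_sq]
  push_cast at h ⊢
  rw [h x, h y, h w]
  linear_combination (conj x * conj y * conj w) * hM

/-- The angle of the mediant value. -/
lemma step_arg {x y w : ℂ} (hM : x ^ 2 + y ^ 2 + w ^ 2 = x * y * w) (hx : 10 ≤ ‖x‖)
    (hy : 10 ≤ ‖y‖) (hw : ‖x‖ * ‖y‖ ≤ 2 * ‖w‖) (ha : 0 ≤ arg x) (hb : arg y ≤ 0)
    (hS : arg x - arg y < π / 2) :
    |arg w - arg x - arg y| ≤ 15 * (arg x / ‖x‖ ^ 2 + (-arg y) / ‖y‖ ^ 2) := by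
  set X := ‖x‖
  set Y := ‖y‖
  set W := ‖w‖
  set η := arg w - arg x - arg y with hη
  have hX0 : 0 < X := by linarith
  have hY0 : 0 < Y := by linarith
  have hW0 : 0 < W := by nlinarith
  have hc := markoff_conj hM
  have hN : 0 < X * Y * W := by positivity
  have him : X ^ 2 * Real.sin (arg x - arg y - arg w) + Y ^ 2 * Real.sin (arg y - arg x - arg w) +
      W ^ 2 * Real.sin η = 0 := by
    have := congrArg Complex.im hc
    simp only [Complex.add_im, Complex.im_ofReal_mul, triple_im, Complex.ofReal_im] at this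
    have h2 : X * Y * W * (X ^ 2 * Real.sin (arg x - arg y - arg w) +
        Y ^ 2 * Real.sin (arg y - arg x - arg w) + W ^ 2 * Real.sin η) = 0 := by
      linear_combination this
    exact (mul_eq_zero.mp h2).resolve_left hN.ne'
  have hre : X ^ 2 * Real.cos (arg x - arg y - arg w) + Y ^ 2 * Real.cos (arg y - arg x - arg w) +
      W ^ 2 * Real.cos η = X * Y * W := by
    have := congrArg Complex.re hc
    simp only [Complex.add_re, Complex.re_ofReal_mul, triple_re, Complex.ofReal_re] at this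
    have h2 : X * Y * W * (X ^ 2 * Real.cos (arg x - arg y - arg w) +
        Y ^ 2 * Real.cos (arg y - arg x - arg w) + W ^ 2 * Real.cos η) =
        X * Y * W * (X * Y * W) := by
      linear_combination this
    exact mul_left_cancel₀ hN.ne' h2
  have hXY : X ^ 2 * Y ^ 2 ≤ 4 * W ^ 2 := by nlinarith [mul_pos hX0 hY0]
  have hcos : 0 < Real.cos η := by
    have h1 := Real.cos_le_one (arg x - arg y - arg w)
    have h2 := Real.cos_le_one (arg y - arg x - arg w)
    have h3 : X ^ 2 + Y ^ 2 < X * Y * W := by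
      have e1 : X * Y * (X * Y) ≤ X * Y * (2 * W) :=
        mul_le_mul_of_nonneg_left hw (by positivity)
      have e2 : (100 : ℝ) ≤ X ^ 2 := by nlinarith
      have e3 : (100 : ℝ) ≤ Y ^ 2 := by nlinarith
      nlinarith
    have h4 : 0 < W ^ 2 * Real.cos η := by nlinarith [sq_nonneg X, sq_nonneg Y]
    exact (pos_iff_pos_of_mul_pos h4).mp (by positivity)
  have hπ := Real.pi_pos
  have hw1 := Complex.arg_le_pi w
  have hw2 := Complex.neg_pi_lt_arg w
  have habs : |η| ≤ π / 2 := by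
    by_contra hcon
    push Not at hcon
    have h1 : Real.cos |η| ≤ 0 := by
      refine Real.cos_nonpos_of_pi_div_two_le_of_le hcon.le ?_
      rw [abs_le]
      constructor <;> linarith
    rw [Real.cos_abs] at h1
    linarith
  have hsin := Real.mul_abs_le_abs_sin habs
  have h1 : W ^ 2 * |Real.sin η| ≤ X ^ 2 * (2 * (-arg y) + |η|) + Y ^ 2 * (2 * arg x + |η|) := by
    have e1 : |Real.sin (arg x - arg y - arg w)| ≤ 2 * (-arg y) + |η| := by
      refine Real.abs_sin_le_abs.trans ?_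
      have : arg x - arg y - arg w = 2 * (-arg y) - η := by rw [hη]; ring
      rw [this]
      refine (abs_sub _ _).trans ?_
      rw [abs_of_nonneg (by linarith : 0 ≤ 2 * (-arg y))]
    have e2 : |Real.sin (arg y - arg x - arg w)| ≤ 2 * arg x + |η| := by
      refine Real.abs_sin_le_abs.trans ?_
      have : arg y - arg x - arg w = -(2 * arg x + η) := by rw [hη]; ring
      rw [this, abs_neg]
      refine (abs_add_le _ _).trans ?_
      rw [abs_of_nonneg (by linarith : 0 ≤ 2 * arg x)]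
    have e3 : W ^ 2 * |Real.sin η| = |X ^ 2 * Real.sin (arg x - arg y - arg w) +
        Y ^ 2 * Real.sin (arg y - arg x - arg w)| := by
      rw [show X ^ 2 * Real.sin (arg x - arg y - arg w) +
        Y ^ 2 * Real.sin (arg y - arg x - arg w) = -(W ^ 2 * Real.sin η) by linarith, abs_neg,
        abs_mul, abs_of_nonneg (sq_nonneg W)]
    rw [e3]
    refine (abs_add_le _ _).trans ?_
    rw [abs_mul, abs_mul, abs_of_nonneg (sq_nonneg X), abs_of_nonneg (sq_nonneg Y)]
    gcongr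
  have h2 : (0.63 : ℝ) ≤ 2 / π := by
    rw [le_div_iff₀ hπ]
    have := Real.pi_lt_d2
    linarith
  have h3 : 0.63 * |η| ≤ |Real.sin η| := by
    refine le_trans ?_ hsin
    exact mul_le_mul_of_nonneg_right h2 (abs_nonneg _)
  have h4 : X ^ 2 * Y ^ 2 * (0.63 * |η|) ≤
      4 * (X ^ 2 * (2 * (-arg y) + |η|) + Y ^ 2 * (2 * arg x + |η|)) := by
    calc X ^ 2 * Y ^ 2 * (0.63 * |η|) ≤ 4 * W ^ 2 * |Real.sin η| := by gcongr
      _ ≤ _ := by linarith
  have hX2 : (100 : ℝ) ≤ X ^ 2 := by nlinarith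
  have hY2 : (100 : ℝ) ≤ Y ^ 2 := by nlinarith
  have h5 : 15 * (arg x / X ^ 2 + (-arg y) / Y ^ 2) =
      15 * (arg x * Y ^ 2 + (-arg y) * X ^ 2) / (X ^ 2 * Y ^ 2) := by
    field_simp
  rw [h5, le_div_iff₀ (by positivity)]
  have h6 : X ^ 2 * 100 ≤ X ^ 2 * Y ^ 2 := by gcongr
  have h7 : Y ^ 2 * 100 ≤ X ^ 2 * Y ^ 2 := by nlinarith
  have h8 : (X ^ 2 + Y ^ 2) * |η| ≤ 0.02 * (X ^ 2 * Y ^ 2) * |η| := by
    gcongr; linarith
  have h9 : 0 ≤ (-arg y) * X ^ 2 := mul_nonneg (by linarith) (by positivity)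
  have h10 : 0 ≤ arg x * Y ^ 2 := mul_nonneg ha (by positivity)
  linarith

end Pool.Agent.Loc
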