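import Pool.Agent.Loc.GroB

/-!
# Loc, growth part C: large states are kept by the sign step and a potential decreases
-/

set_option autoImplicit false

namespace Pool.Agent.Loc

open Complex Real ComplexConjugate

lemma T_num {α β ω a b c : ℝ} (hα : 0 ≤ α) (hβ : 0 ≤ β) (ha0 : 0 ≤ a) (ha : a ≤ 1 / 100)
    (hb0 : 0 ≤ b) (hb : b ≤ 1 / 100) (hc : c ≤ 4 * (a * b)) (hω : 0 ≤ ω + β)
    (h : |ω - (α - β)| ≤ 15 * (α * a + β * b)) :
    (ω + β) * (1 + 25 * (c + b)) ≤ (α + β) * (1 + 25 * (a + b)) - β / 2 := by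
  have h1 : ω + β ≤ (1 + 15 * a) * α + 0.15 * β := by
    have := (abs_le.mp h).2
    nlinarith
  have h2 : 1 + 25 * (c + b) ≤ 1 + 25 * b + a := by nlinarith
  have h3 : (ω + β) * (1 + 25 * (c + b)) ≤ ((1 + 15 * a) * α + 0.15 * β) * (1 + 25 * b + a) := by
    have e1 : (ω + β) * (1 + 25 * (c + b)) ≤ (ω + β) * (1 + 25 * b + a) :=
      mul_le_mul_of_nonneg_left h2 hω
    have e2 : (ω + β) * (1 + 25 * b + a) ≤ ((1 + 15 * a) * α + 0.15 * β) * (1 + 25 * b + a) :=
      mul_le_mul_of_nonneg_right h1 (by positivity)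
    exact e1.trans e2
  have h4 : (1 + 15 * a) * (1 + 25 * b + a) ≤ 1 + 25 * (a + b) := by nlinarith
  have h5 : 0.15 * (1 + 25 * b + a) ≤ 1 + 25 * (a + b) - 1 / 2 := by nlinarith
  nlinarith

/-- The potential. -/
noncomputable def TT (x y : ℂ) : ℝ :=
  (arg x - arg y) * (1 + 25 * ((‖x‖ ^ 2)⁻¹ + (‖y‖ ^ 2)⁻¹))

/-- Large states. -/
structure Large (x y w : ℂ) : Prop where
  mark : x ^ 2 + y ^ 2 + w ^ 2 = x * y * w
  hx : 10 ≤ ‖x‖
  hy : 10 ≤ ‖y‖
  back : ‖x * y - w‖ ≤ ‖w‖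
  ax : 0 < arg x
  ay : arg y < 0
  sm : arg x - arg y < π / 2

lemma arg_pos_of_im {x : ℂ} (h : 0 < x.im) : 0 < arg x := by
  have h1 := Complex.arg_nonneg_iff.mpr h.le
  rcases h1.eq_or_lt with h2 | h2
  · exfalso
    have := (Complex.arg_eq_zero_iff.mp h2.symm).2
    linarith
  · exact h2

lemma re_mul_conj (x y : ℂ) : (x * conj y).re = ‖x‖ * ‖y‖ * Real.cos (arg x - arg y) := by
  have := triple_re x y 1
  simpa using this

lemma Edge.arg_pos {x y : ℂ} (h : Edge x y) : 0 < arg x := arg_pos_of_im h.2.1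

lemma Edge.arg_neg {x y : ℂ} (h : Edge x y) : arg y < 0 := Complex.arg_neg_iff.mpr h.2.2.2.1

lemma Edge.arg_sub {x y : ℂ} (h : Edge x y) : arg x - arg y < π / 2 := by
  obtain ⟨h1, h2, h3, h4, h5⟩ := h
  by_contra hcon
  push Not at hcon
  rw [re_mul_conj] at h5
  have hx : |arg x| < π / 2 := Complex.abs_arg_lt_pi_div_two_iff.mpr (Or.inl h1)
  have hy : |arg y| < π / 2 := Complex.abs_arg_lt_pi_div_two_iff.mpr (Or.inl h3)
  have h6 : Real.cos (arg x - arg y) ≤ 0 := by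
    refine Real.cos_nonpos_of_pi_div_two_le_of_le hcon ?_
    have := (abs_lt.mp hx).2
    have := (abs_lt.mp hy).1
    have := Real.pi_pos
    linarith
  have h7 : 0 ≤ ‖x‖ * ‖y‖ := by positivity
  nlinarith

lemma edge_of_arg {x y : ℂ} (hx0 : x ≠ 0) (hy0 : y ≠ 0) (hx : 0 < x.im) (hy : y.im < 0)
    (h : arg x - arg y < π / 2) : Edge x y := by
  have h1 := arg_pos_of_im hx
  have h2 : arg y < 0 := Complex.arg_neg_iff.mpr hy
  have hxr : 0 < x.re := by
    have : |arg x| < π / 2 := by rw [abs_of_pos h1]; linarith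
    exact (Complex.abs_arg_lt_pi_div_two_iff.mp this).resolve_right hx0
  have hyr : 0 < y.re := by
    have : |arg y| < π / 2 := by rw [abs_of_neg h2]; linarith
    exact (Complex.abs_arg_lt_pi_div_two_iff.mp this).resolve_right hy0
  refine ⟨hxr, hx, hyr, hy, ?_⟩
  rw [re_mul_conj]
  have h3 : 0 < Real.cos (arg x - arg y) := Real.cos_pos_of_mem_Ioo ⟨by linarith [Real.pi_pos], h⟩
  have := norm_pos_iff.mpr hx0
  have := norm_pos_iff.mpr hy0
  positivity

section

variable {x y w : ℂ}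

lemma Large.sub_le (h : Large x y w) : arg x - arg y ≤ TT x y := by
  have h1 := h.ax
  have h2 := h.ay
  unfold TT
  have h3 : 0 ≤ (‖x‖ ^ 2)⁻¹ + (‖y‖ ^ 2)⁻¹ := by positivity
  nlinarith

lemma Large.inv_sq_le (hx : 10 ≤ ‖x‖) : (‖x‖ ^ 2)⁻¹ ≤ 1 / 100 := by
  rw [inv_eq_one_div]
  apply one_div_le_one_div_of_le (by norm_num)
  nlinarith

lemma Large.tt_le (h : Large x y w) : TT x y ≤ 3 / 2 * (arg x - arg y) := by
  have h1 := h.ax
  have h2 := h.ay
  unfold TT
  have h3 := Large.inv_sq_le h.hx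
  have h4 := Large.inv_sq_le h.hy
  nlinarith

lemma Large.prod_le (h : Large x y w) : ‖x‖ * ‖y‖ ≤ 2 * ‖w‖ := by
  have := norm_sub_norm_le (x * y) w
  have h2 := h.back
  rw [norm_mul] at this
  linarith

lemma Large.w_ge (h : Large x y w) : 10 ≤ ‖w‖ := by
  have := h.prod_le
  have := h.hx
  have := h.hy
  nlinarith

lemma sub_lt_of_tt {x y : ℂ} (hx : 0 < arg x) (hy : arg y < 0) (ht : TT x y < 1) :
    arg x - arg y < 1 := by
  have h3 : 0 ≤ (‖x‖ ^ 2)⁻¹ + (‖y‖ ^ 2)⁻¹ := by positivity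
  unfold TT at ht
  nlinarith

lemma Large.arg_w (h : Large x y w) :
    |arg w - (arg x - -arg y)| ≤ 15 * (arg x * (‖x‖ ^ 2)⁻¹ + -arg y * (‖y‖ ^ 2)⁻¹) := by
  have := step_arg h.mark h.hx h.hy h.prod_le h.ax.le h.ay.le h.sm
  rw [show arg w - (arg x - -arg y) = arg w - arg x - arg y by ring]
  simpa [div_eq_mul_inv] using this

lemma Large.abs_arg_w (h : Large x y w) (ht : TT x y < 1) : |arg w| < π / 2 := by
  have h1 := h.arg_w
  have h2 := Large.inv_sq_le h.hx
  have h3 := Large.inv_sq_le h.hy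
  have h4 := h.ax
  have h5 := h.ay
  have h6 : arg x * (‖x‖ ^ 2)⁻¹ + -arg y * (‖y‖ ^ 2)⁻¹ ≤ (arg x - arg y) * (1 / 100) := by
    nlinarith
  have h7 := h.sub_le
  have h9 := Real.pi_gt_three
  rw [abs_le] at h1
  rw [abs_lt]
  constructor <;> linarith [h1.1, h1.2]

lemma Large.w_re (h : Large x y w) (ht : TT x y < 1) : 0 < w.re := by
  refine (Complex.abs_arg_lt_pi_div_two_iff.mp (h.abs_arg_w ht)).resolve_right ?_
  have := h.w_ge
  intro h0
  rw [h0, norm_zero] at this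
  linarith

lemma Large.c_le (h : Large x y w) :
    (‖w‖ ^ 2)⁻¹ ≤ 4 * ((‖x‖ ^ 2)⁻¹ * (‖y‖ ^ 2)⁻¹) := by
  have h1 := h.prod_le
  have hx := h.hx
  have hy := h.hy
  have hx0 : 0 < ‖x‖ := by linarith
  have hy0 : 0 < ‖y‖ := by linarith
  have hw0 : 0 < ‖w‖ := by linarith [h.w_ge]
  have h2 : ‖x‖ ^ 2 * ‖y‖ ^ 2 ≤ 4 * ‖w‖ ^ 2 := by nlinarith [mul_pos hx0 hy0]
  rw [← mul_inv, ← div_eq_mul_inv, inv_eq_one_div, div_le_div_iff₀ (by positivity) (by positivity)]
  linarith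

/-- The potential decreases (left end replaced). -/
lemma Large.pot_true (h : Large x y w) (hw : 0 < w.im) :
    TT w y ≤ TT x y - (-arg y) / 2 := by
  have haw := arg_pos_of_im hw
  have := T_num (α := arg x) (β := -arg y) (ω := arg w) (a := (‖x‖ ^ 2)⁻¹) (b := (‖y‖ ^ 2)⁻¹)
    (c := (‖w‖ ^ 2)⁻¹) h.ax.le (by linarith [h.ay]) (by positivity) (Large.inv_sq_le h.hx)
    (by positivity) (Large.inv_sq_le h.hy) h.c_le (by linarith [h.ay]) h.arg_w
  unfold TT
  linarith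

/-- The potential decreases (right end replaced). -/
lemma Large.pot_false (h : Large x y w) (hw : w.im < 0) :
    TT x w ≤ TT x y - arg x / 2 := by
  have haw : arg w < 0 := Complex.arg_neg_iff.mpr hw
  have h3 : |-arg w - (-arg y - arg x)| ≤
      15 * (-arg y * (‖y‖ ^ 2)⁻¹ + arg x * (‖x‖ ^ 2)⁻¹) := by
    have := h.arg_w
    rw [← abs_neg, show -(-arg w - (-arg y - arg x)) = arg w - (arg x - -arg y) by ring]
    linarith
  have := T_num (α := -arg y) (β := arg x) (ω := -arg w) (a := (‖y‖ ^ 2)⁻¹) (b := (‖x‖ ^ 2)⁻¹)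
    (c := (‖w‖ ^ 2)⁻¹) (by linarith [h.ay]) h.ax.le (by positivity) (Large.inv_sq_le h.hy)
    (by positivity) (Large.inv_sq_le h.hx) (by linarith [h.c_le]) (by linarith [h.ax]) h3
  unfold TT
  linarith

lemma Large.step_true (h : Large x y w) (ht : TT x y < 1) (hw : 0 < w.im) :
    TT w y < 1 ∧ Large w y (w * y - x) := by
  have haw := arg_pos_of_im hw
  have h1 := h.pot_true hw
  have h2 : TT w y < 1 := by linarith [h.ay]
  refine ⟨h2, ?_, h.w_ge, h.hy, ?_, haw, h.ay, ?_⟩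
  · linear_combination h.mark
  · have := arrow_step (x := x) (y := y) (w := w) (by linarith [h.hy]) h.back
    rwa [show w * y - (w * y - x) = x by ring]
  · linarith [sub_lt_of_tt haw h.ay h2, Real.pi_gt_three]

lemma Large.step_false (h : Large x y w) (ht : TT x y < 1) (hw : w.im < 0) :
    TT x w < 1 ∧ Large x w (x * w - y) := by
  have haw : arg w < 0 := Complex.arg_neg_iff.mpr hw
  have h1 := h.pot_false hw
  have h2 : TT x w < 1 := by linarith [h.ax]
  refine ⟨h2, ?_, h.hx, h.w_ge, ?_, h.ax, haw, ?_⟩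
  · linear_combination h.mark
  · have := arrow_step' (x := x) (y := y) (w := w) (by linarith [h.hx]) h.back
    rwa [show x * w - (x * w - y) = y by ring]
  · linarith [sub_lt_of_tt h.ax haw h2, Real.pi_gt_three]

lemma Large.edge (h : Large x y w) : Edge x y := by
  refine edge_of_arg ?_ ?_ ?_ (Complex.arg_neg_iff.mp h.ay) h.sm
  · intro h0; have := h.hx; rw [h0, norm_zero] at this; linarith
  · intro h0; have := h.hy; rw [h0, norm_zero] at this; linarith
  · rcases (Complex.arg_nonneg_iff.mp h.ax.le).eq_or_lt with h1 | h1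
    · exfalso
      have h2 : |arg x| < π / 2 := by
        rw [abs_of_pos h.ax]; linarith [h.sm, h.ay]
      rcases Complex.abs_arg_lt_pi_div_two_iff.mp h2 with h3 | h3
      · have := Complex.arg_eq_zero_iff.mpr ⟨h3.le, h1.symm⟩
        linarith [h.ax]
      · have := h.hx; rw [h3, norm_zero] at this; linarith
    · exact h1

end

end Pool.Agent.Loc
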