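import Pool.Agent.Loc.GroC

/-!
# Loc, growth part D: `grow_arg` and `grow_open`
-/

set_option autoImplicit false

namespace Pool.Agent.Loc

open Complex Filter Topology Metric

lemma Good.succ {β : ℕ → Bool} {n : ℕ} {z : ℂ} (h : Good β n z)
    (he : Edge (vx β (n + 1) z) (vy β (n + 1) z)) : Good β (n + 1) z := by
  intro k hk1 hk
  rcases Nat.lt_or_ge k (n + 1) with h' | h'
  · exact h k hk1 (by omega)
  · have : k = n + 1 := by omega
    subst this; exact he

lemma Inf.edge {β : ℕ → Bool} {z : ℂ} (h : Inf β z) {n : ℕ} (hn : 1 ≤ n) :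
    Edge (vx β n z) (vy β n z) := h n n hn le_rfl

lemma Inf.im_pos {β : ℕ → Bool} {z : ℂ} (h : Inf β z) {n : ℕ} (hb : β n = true) :
    0 < (vw β n z).im := by
  have := (h.edge (n := n + 1) (by omega)).2.1
  rwa [vx_t hb] at this

lemma Inf.im_neg {β : ℕ → Bool} {z : ℂ} (h : Inf β z) {n : ℕ} (hb : β n = false) :
    (vw β n z).im < 0 := by
  have := (h.edge (n := n + 1) (by omega)).2.2.2.1
  rwa [vy_f hb] at this

/-- Beyond some level all states of a growing good path are large, and the values tend to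
infinity. -/
theorem grow_large {β : ℕ → Bool} {z : ℂ} (h : Inf β z) (hg : Grow β z) (C : ℝ) :
    (∀ N, ∃ n, N ≤ n ∧ Hinge β n) ∧ ∃ M, ∀ m, M ≤ m →
      Large (vx β m z) (vy β m z) (vw β m z) ∧ C ≤ ‖vx β m z‖ ∧ C ≤ ‖vy β m z‖ ∧
        C ≤ ‖vw β m z‖ := by
  obtain ⟨n, hx, hy, hB⟩ := hg
  have hs := pathStep_st β z
  have hla := hs.large_after (lt_min hx hy).le hB (min_le_left _ _) (min_le_right _ _)
  have hgrow : ∀ m, n ≤ m → min ‖vx β n z‖ ‖vy β n z‖ ≤ ‖vx β m z‖ ∧
      min ‖vx β n z‖ ‖vy β n z‖ ≤ ‖vy β m z‖ ∧ ‖vx β m z‖ * ‖vy β m z‖ ≤ 2 * ‖vw β m z‖ :=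
    fun m hm => ⟨(hla m hm).2.1, (hla m hm).2.2, (hla m hm).1.mul_le⟩
  have hhinge : ∀ N, ∃ n, N ≤ n ∧ Hinge β n := by
    refine not_const_of h (M := n) fun m hm => ?_
    have h2 : 2 < min ‖vx β n z‖ ‖vy β n z‖ := lt_min hx hy
    exact ⟨by linarith [(hgrow m hm).1], by linarith [(hgrow m hm).2.1]⟩
  refine ⟨hhinge, ?_⟩
  obtain ⟨M, hM⟩ := hs.tendsto_of_growth hhinge (lt_min hx hy) hgrow (max C 10)
  refine ⟨max M (max n 1), fun m hm => ?_⟩
  have hm1 : M ≤ m := le_trans (le_max_left _ _) hm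
  have hm2 : n ≤ m := le_trans (le_trans (le_max_left _ _) (le_max_right _ _)) hm
  have hm3 : 1 ≤ m := le_trans (le_trans (le_max_right _ _) (le_max_right _ _)) hm
  obtain ⟨a1, a2, a3⟩ := hM m hm1
  have e := h.edge hm3
  refine ⟨⟨markoff_st β z m, (le_max_right _ _).trans a1, (le_max_right _ _).trans a2,
    (hla m hm2).1, e.arg_pos, e.arg_neg, e.arg_sub⟩, (le_max_left _ _).trans a1,
    (le_max_left _ _).trans a2, (le_max_left _ _).trans a3⟩

/-- The potential tends to zero along a growing good path. -/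
theorem grow_pot {β : ℕ → Bool} {z : ℂ} (h : Inf β z) (hg : Grow β z) (C : ℝ) {ε : ℝ}
    (hε : 0 < ε) : ∃ N, ∀ m, N ≤ m → Large (vx β m z) (vy β m z) (vw β m z) ∧
      TT (vx β m z) (vy β m z) < ε ∧ C ≤ ‖vx β m z‖ ∧ C ≤ ‖vy β m z‖ ∧ C ≤ ‖vw β m z‖ := by
  obtain ⟨hh, M, hM⟩ := grow_large h hg C
  set T : ℕ → ℝ := fun m => TT (vx β m z) (vy β m z) with hT
  set κ : ℕ → ℝ := fun m => if β m then -arg (vy β m z) else arg (vx β m z) with hκ
  have hstep : ∀ m, M ≤ m → T (m + 1) ≤ T m - κ m / 2 := by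
    intro m hm
    have hL := (hM m hm).1
    cases hb : β m
    · have := hL.pot_false (h.im_neg hb)
      simp only [hT, hκ, hb, Bool.false_eq_true, if_false]
      rw [vx_f hb, vy_f hb]; exact this
    · have := hL.pot_true (h.im_pos hb)
      simp only [hT, hκ, hb, if_true]
      rw [vx_t hb, vy_t hb]; exact this
  have hκ0 : ∀ m, M ≤ m → 0 < κ m := by
    intro m hm
    have hL := (hM m hm).1
    cases hb : β m
    · simp only [hκ, hb, Bool.false_eq_true, if_false]; exact hL.ax
    · simp only [hκ, hb, if_true]; linarith [hL.ay]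
  have hT0 : ∀ m, M ≤ m → 0 ≤ T m := by
    intro m hm
    have hL := (hM m hm).1
    have := hL.sub_le
    simp only [hT]
    linarith [hL.ax, hL.ay]
  have hanti : Antitone (fun k => T (M + k)) := by
    refine antitone_nat_of_succ_le fun k => ?_
    have h1 := hstep (M + k) (by omega)
    have h2 := hκ0 (M + k) (by omega)
    rw [← add_assoc]
    linarith
  have hconv : ∃ L, Tendsto (fun k => T (M + k)) atTop (𝓝 L) :=
    ⟨_, tendsto_atTop_ciInf hanti ⟨0, by rintro _ ⟨k, rfl⟩; exact hT0 _ (by omega)⟩⟩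
  obtain ⟨L, hL⟩ := hconv
  have hdiff0 : Tendsto (fun k => T (M + k) - T (M + (k + 1))) atTop (𝓝 0) := by
    have := hL.sub (hL.comp (tendsto_add_atTop_nat 1))
    simpa using this
  obtain ⟨K, hK⟩ := (Metric.tendsto_atTop.mp hdiff0) (ε / 6) (by positivity)
  have hsmall : ∀ m, M + K ≤ m → κ m < ε / 3 := by
    intro m hm
    have h1 := hK (m - M) (by omega)
    rw [Real.dist_eq, sub_zero] at h1
    have h2 := (abs_lt.mp h1).2
    rw [show M + (m - M) = m by omega, show M + (m - M + 1) = m + 1 by omega] at h2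
    have h3 := hstep m (by omega)
    linarith
  obtain ⟨n, hn, hbn⟩ := hh (M + K)
  have hS : arg (vx β (n + 1) z) - arg (vy β (n + 1) z) = κ n + κ (n + 1) := by
    unfold Hinge at hbn
    cases hb : β n
    · have hb2 : β (n + 1) = true := by
        cases h' : β (n + 1)
        · exact absurd (hb.trans h'.symm) hbn
        · rfl
      simp only [hκ, hb, hb2, Bool.false_eq_true, if_false, if_true]
      rw [vx_f hb]; ring
    · have hb2 : β (n + 1) = false := by
        cases h' : β (n + 1)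
        · rfl
        · exact absurd (hb.trans h'.symm) hbn
      simp only [hκ, hb, hb2, Bool.false_eq_true, if_false, if_true]
      rw [vy_t hb]; ring
  have hTn : T (n + 1) < ε := by
    have h1 := ((hM (n + 1) (by omega)).1).tt_le
    have h2 := hsmall n hn
    have h3 := hsmall (n + 1) (by omega)
    rw [hS] at h1
    simp only [hT]
    linarith
  refine ⟨n + 1, fun m hm => ⟨(hM m (by omega)).1, ?_, (hM m (by omega)).2⟩⟩
  have h1 := hanti (show n + 1 - M ≤ m - M by omega)
  beta_reduce at h1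
  rw [show M + (m - M) = m by omega, show M + (n + 1 - M) = n + 1 by omega] at h1
  exact lt_of_le_of_lt h1 hTn

/-- On a growing path all arguments tend to `0`. -/
theorem grow_arg {z : ℂ} (_hz : z ∈ Q) {β : ℕ → Bool} (h : Inf β z) (hg : Grow β z) (ε : ℝ)
    (hε : 0 < ε) : ∃ N, ∀ n, N ≤ n → |(vx β n z).arg| < ε ∧ |(vy β n z).arg| < ε ∧
      |(vw β n z).arg| < ε := by
  obtain ⟨N, hN⟩ := grow_pot h hg 0 hε
  have key : ∀ n, N ≤ n → |(vx β n z).arg| < ε ∧ |(vy β n z).arg| < ε := by
    intro n hn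
    obtain ⟨hL, hT, -⟩ := hN n hn
    have h1 := hL.sub_le
    have h2 := hL.ax
    have h3 := hL.ay
    rw [abs_of_pos h2, abs_of_neg h3]
    constructor <;> linarith
  refine ⟨N, fun n hn => ⟨(key n hn).1, (key n hn).2, ?_⟩⟩
  have h2 := key (n + 1) (by omega)
  cases hb : β n
  · rw [vy_f hb] at h2; exact h2.2
  · rw [vx_t hb] at h2; exact h2.1

lemma isOpen_Q : IsOpen Q :=
  (isOpen_lt continuous_const continuous_re).inter (isOpen_lt continuous_const continuous_im)

/-- From a large state with a small potential the sign path continues. -/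
theorem large_cont {z : ℂ} {N : ℕ} (hgN : Good (bits z) N z)
    (hL : Large (vx (bits z) N z) (vy (bits z) N z) (vw (bits z) N z))
    (hT : TT (vx (bits z) N z) (vy (bits z) N z) < 1) :
    (Inf (bits z) z ∧ Grow (bits z) z) ∨
      ∃ n, End (bits z) n z ∧ 2 < (vw (bits z) n z).re := by
  set β := bits z with hβ
  have hP : ∀ m, N ≤ m → (∀ k, N ≤ k → k < m → (vw β k z).im ≠ 0) →
      Good β m z ∧ Large (vx β m z) (vy β m z) (vw β m z) ∧ TT (vx β m z) (vy β m z) < 1 := by
    intro m hm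
    induction m, hm using Nat.le_induction with
    | base => exact fun _ => ⟨hgN, hL, hT⟩
    | succ m hm ih =>
      intro hne
      obtain ⟨g, l, t⟩ := ih fun k hk hk' => hne k hk (by omega)
      have hm0 := hne m hm (by omega)
      have hbm : β m = decide (0 ≤ (vw β m z).im) := bits_eq z m
      rcases lt_or_gt_of_ne hm0 with h1 | h1
      · have hb : β m = false := by rw [hbm]; simp [h1]
        obtain ⟨s1, s2⟩ := l.step_false t h1
        have e1 : vx β (m + 1) z = vx β m z := vx_f hb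
        have e2 : vy β (m + 1) z = vw β m z := vy_f hb
        have e3 : vw β (m + 1) z = vx β m z * vw β m z - vy β m z := vw_f hb
        rw [← e1, ← e2, vx_f hb, vy_f hb] at s1
        refine ⟨g.succ ?_, ?_, ?_⟩
        · rw [e1, e2]; exact s2.edge
        · rw [e1, e2, e3]; exact s2
        · rw [e1, e2]; exact s1
      · have hb : β m = true := by rw [hbm]; simp [h1.le]
        obtain ⟨s1, s2⟩ := l.step_true t h1
        have e1 : vx β (m + 1) z = vw β m z := vx_t hb
        have e2 : vy β (m + 1) z = vy β m z := vy_t hb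
        have e3 : vw β (m + 1) z = vw β m z * vy β m z - vx β m z := vw_t hb
        refine ⟨g.succ ?_, ?_, ?_⟩
        · rw [e1, e2]; exact s2.edge
        · rw [e1, e2, e3]; exact s2
        · rw [e1, e2]; exact s1
  by_cases hall : ∀ k, N ≤ k → (vw β k z).im ≠ 0
  · left
    refine ⟨fun n => ?_, N, ?_, ?_, hL.back⟩
    · rcases Nat.lt_or_ge n N with h | h
      · exact hgN.mono h.le
      · exact (hP n h fun k hk _ => hall k hk).1
    · linarith [hL.hx]
    · linarith [hL.hy]
  · right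
    push Not at hall
    obtain ⟨n, ⟨hn1, hn2⟩, hmin⟩ : ∃ n, (N ≤ n ∧ (vw β n z).im = 0) ∧
        ∀ k, k < n → ¬ (N ≤ k ∧ (vw β k z).im = 0) := by
      classical
      exact ⟨Nat.find hall, Nat.find_spec hall, fun k hk => Nat.find_min hall hk⟩
    obtain ⟨g, l, t⟩ := hP n hn1 fun k hk hk' h0 => hmin k hk' ⟨hk, h0⟩
    have hre := l.w_re t
    refine ⟨n, ⟨g, hn2, hre⟩, ?_⟩
    have h1 := l.w_ge
    have h2 : ‖vw β n z‖ = (vw β n z).re := by
      have : vw β n z = ((vw β n z).re : ℂ) := by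
        apply Complex.ext <;> simp [hn2]
      rw [this, Complex.norm_real, Real.norm_eq_abs, Complex.ofReal_re, abs_of_pos hre]
    linarith

/-- Growth is open: near a point with a growing infinite good path all points (in `U` or not) have
good paths, and the real ends are larger than `2`. -/
theorem grow_open {z : ℂ} (hz : z ∈ Q) (_hl : Low z) {β : ℕ → Bool} (h : Inf β z)
    (hg : Grow β z) : ∃ r : ℝ, 0 < r ∧ ∀ z' ∈ ball z r, z' ∈ Q ∧
      ((Inf (bits z') z' ∧ Grow (bits z') z') ∨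
        ∃ n, End (bits z') n z' ∧ 2 < (vw (bits z') n z').re) := by
  obtain ⟨N₀, hN₀⟩ := grow_pot h hg 11 one_pos
  set N := N₀ + 1 with hN
  obtain ⟨hL, hT, c1, c2, c3⟩ := hN₀ N (by omega)
  obtain ⟨hL0, -, d1, d2, d3⟩ := hN₀ N₀ le_rfl
  -- strict arrow
  have hstrict : ‖vx β N z * vy β N z - vw β N z‖ < ‖vw β N z‖ := by
    have hb := (pathStep_st β z).behind N₀
    have hp := hL.prod_le
    have hp0 := hL0.prod_le
    cases hb' : β N₀
    · have e := hb.2 hb'
      rw [← hN] at e
      rw [e]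
      have e1 : vx β N z = vx β N₀ z := vx_f hb'
      have e2 : vy β N z = vw β N₀ z := vy_f hb'
      rw [e1, e2] at hp
      have := hL0.hx
      nlinarith [norm_nonneg (vy β N₀ z), norm_nonneg (vw β N₀ z)]
    · have e := hb.1 hb'
      rw [← hN] at e
      rw [e]
      have e1 : vx β N z = vw β N₀ z := vx_t hb'
      have e2 : vy β N z = vy β N₀ z := vy_t hb'
      rw [e1, e2] at hp
      have := hL0.hy
      nlinarith [norm_nonneg (vx β N₀ z), norm_nonneg (vw β N₀ z)]
  have hβ := inf_bits h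
  have hedge : Edge (vx β N z) (vy β N z) := h.edge (by omega)
  have cx := (cont_vx β N).continuousAt (x := z)
  have cy := (cont_vy β N).continuousAt (x := z)
  have cw := (cont_vw β N).continuousAt (x := z)
  have ev1 : ∀ᶠ z' in 𝓝 z, z' ∈ Q := isOpen_Q.mem_nhds hz
  have ev2 : ∀ᶠ z' in 𝓝 z, ∀ k, k < N → bits z' k = bits z k := by
    refine bits_near fun k _ => ?_
    rw [← hβ]
    cases hb : β k
    · exact (h.im_neg hb).ne
    · exact (h.im_pos hb).ne'
  have ev3 : ∀ᶠ z' in 𝓝 z, Good β N z' := (good_open β N).mem_nhds (h N)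
  have ev4 : ∀ᶠ z' in 𝓝 z, 10 < ‖vx β N z'‖ := cx.norm.eventually_const_lt (by linarith)
  have ev5 : ∀ᶠ z' in 𝓝 z, 10 < ‖vy β N z'‖ := cy.norm.eventually_const_lt (by linarith)
  have ev6 : ∀ᶠ z' in 𝓝 z, ‖vx β N z' * vy β N z' - vw β N z'‖ < ‖vw β N z'‖ :=
    ((cx.mul cy).sub cw).norm.eventually_lt cw.norm hstrict
  have ev7 : ∀ᶠ z' in 𝓝 z, TT (vx β N z') (vy β N z') < 1 := by
    have ax : ContinuousAt (fun z' => arg (vx β N z')) z :=
      ContinuousAt.comp (g := arg) (f := vx β N)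
        (Complex.continuousAt_arg (Or.inl hedge.1)) cx
    have ay : ContinuousAt (fun z' => arg (vy β N z')) z :=
      ContinuousAt.comp (g := arg) (f := vy β N)
        (Complex.continuousAt_arg (Or.inl hedge.2.2.1)) cy
    have hx0 : ‖vx β N z‖ ^ 2 ≠ 0 := by
      have : 0 < ‖vx β N z‖ := by linarith
      positivity
    have hy0 : ‖vy β N z‖ ^ 2 ≠ 0 := by
      have : 0 < ‖vy β N z‖ := by linarith
      positivity
    have : ContinuousAt (fun z' => TT (vx β N z') (vy β N z')) z := by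
      unfold TT
      exact (ax.sub ay).mul (continuousAt_const.add (continuousAt_const.mul
        (((cx.norm.pow 2).inv₀ hx0).add ((cy.norm.pow 2).inv₀ hy0))))
    exact this.eventually_lt_const hT
  obtain ⟨r, hr, hball⟩ := Metric.eventually_nhds_iff_ball.mp
    (ev1.and (ev2.and (ev3.and (ev4.and (ev5.and (ev6.and ev7))))))
  refine ⟨r, hr, fun z' hz' => ?_⟩
  obtain ⟨f1, f2, f3, f4, f5, f6, f7⟩ := hball z' hz'
  refine ⟨f1, ?_⟩
  have hc : ∀ k, k < N → β k = bits z' k := fun k hk => by rw [f2 k hk, ← hβ]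
  have ex : vx β N z' = vx (bits z') N z' := vx_congr hc
  have ey : vy β N z' = vy (bits z') N z' := vy_congr hc
  have ew : vw β N z' = vw (bits z') N z' := vw_congr hc
  have f3' : Good (bits z') N z' := good_congr hc f3
  rw [ex] at f4
  rw [ey] at f5
  rw [ex, ey, ew] at f6
  rw [ex, ey] at f7
  have e := f3' N (by omega) le_rfl
  exact large_cont f3' ⟨markoff_st _ z' N, f4.le, f5.le, f6.le, e.arg_pos, e.arg_neg, e.arg_sub⟩ f7

end Pool.Agent.Loc
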