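import Pool.Agent.Loc.Pth
import Pool.Agent.Loc.Conn

set_option autoImplicit false

/-!
# Loc: the sign path is good on the closure of `U` in the open quadrant
-/

namespace Pool.Agent.Loc

open Complex Pool.Agent.FZC

/-- Every point of the closure of `U` in the open quadrant has a good path. -/
theorem path_exists {z : ℂ} (hz : z ∈ Q) (hU : z ∈ closure U) :
    Inf (bits z) z ∨ ∃ n, End (bits z) n z :=
  path_exists_of uq_preconnected hz hU

end Pool.Agent.Loc
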