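import Pool.Agent.Loc.Cpt
import Pool.Agent.Loc.GroD
import Pool.Agent.Loc.T3

set_option autoImplicit false

/-!
# Loc: T2, uniqueness at an infinite path with bounded hinges
-/

namespace Pool.Agent.Loc

open Complex Metric Filter Topology

theorem ui_phi {R s : ℝ} {V : ℂ} (hs : 0 ≤ s) (hR : |V.re| ≤ R) (hV : s ≤ Real.sin V.im) :
    Real.exp (-R) * s / (1 + Real.exp R) ^ 2 ≤ (exp V / (1 + exp V)).im := by
  by_cases h0 : 1 + exp V = 0
  · -- then `sin (Im V) = 0`
    have h1 : (1 + exp V).im = 0 := by rw [h0]; simp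
    rw [add_im, one_im, zero_add, exp_im] at h1
    have h2 : Real.sin V.im = 0 := by
      rcases mul_eq_zero.1 h1 with h | h
      · exact absurd h (Real.exp_pos _).ne'
      · exact h
    have h3 : s = 0 := le_antisymm (by rw [← h2]; exact hV) hs
    rw [h0, h3]; simp
  have h3 : exp V / (1 + exp V) = 1 - (1 + exp V)⁻¹ := by
    field_simp; ring
  have h4 : (exp V / (1 + exp V)).im = (Real.exp V.re * Real.sin V.im) / normSq (1 + exp V) := by
    rw [h3, sub_im, one_im, inv_im, zero_sub, neg_div, neg_neg, add_im, one_im, zero_add, exp_im]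
  rw [h4]
  obtain ⟨hR1, hR2⟩ := abs_le.1 hR
  have h5 : normSq (1 + exp V) ≤ (1 + Real.exp R) ^ 2 := by
    rw [normSq_eq_norm_sq]
    have h6 : ‖1 + exp V‖ ≤ 1 + Real.exp R := by
      refine (norm_add_le _ _).trans ?_
      rw [norm_one, norm_exp]
      have := Real.exp_le_exp.2 hR2
      linarith
    exact pow_le_pow_left₀ (norm_nonneg _) h6 2
  have h7 : Real.exp (-R) * s ≤ Real.exp V.re * Real.sin V.im :=
    mul_le_mul (Real.exp_le_exp.2 hR1) hV hs (Real.exp_pos _).le
  have h8 : 0 < normSq (1 + exp V) := normSq_pos.2 h0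
  exact div_le_div₀ (le_trans (by positivity) h7) h7 h8 h5

/-- Mean value with a lower bound. -/
theorem ui_mv {p q : ℂ} {c : ℝ} (hne : p ≠ q)
    (him : ∀ t : ℝ, 0 ≤ t → t ≤ 1 → 0 < (p + t * (q - p)).im ∧ (p + t * (q - p)).im < Real.pi)
    (hb : ∀ t : ℝ, 0 ≤ t → t ≤ 1 → c < (exp (p + t * (q - p)) / (1 + exp (p + t * (q - p)))).im) :
    c < ((log (1 + exp q) - log (1 + exp p)) / (q - p)).im := by
  have hexp : ∀ V : ℂ, 0 < V.im → V.im < Real.pi → 0 < (1 + exp V).im := by
    intro V hV0 hV1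
    rw [Complex.add_im, Complex.one_im, Complex.exp_im, zero_add]
    exact mul_pos (Real.exp_pos _) (Real.sin_pos_of_pos_of_lt_pi hV0 hV1)
  have hqp : q - p ≠ 0 := sub_ne_zero.2 hne.symm
  have := mv_half (f := fun V => log (1 + exp V) - c * I * V)
    (g := fun V => exp V / (1 + exp V) - c * I) (p := p) (q := q) (-I) hne ?_ ?_
  · have e : (log (1 + exp q) - c * I * q - (log (1 + exp p) - c * I * p)) / (q - p) =
        (log (1 + exp q) - log (1 + exp p)) / (q - p) - c * I := by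
      field_simp; ring
    simp only [e] at this
    have e2 : (-I * ((log (1 + exp q) - log (1 + exp p)) / (q - p) - c * I)).re =
        ((log (1 + exp q) - log (1 + exp p)) / (q - p)).im - c := by
      simp only [mul_re, neg_re, I_re, neg_im, I_im, sub_re, sub_im, ofReal_re, ofReal_im, mul_im]
      ring
    rw [e2] at this
    linarith
  · intro t ht0 ht1
    obtain ⟨hi0, hi1⟩ := him t ht0 ht1
    have hsl : (1 + exp (p + t * (q - p))) ∈ slitPlane := Or.inr (hexp _ hi0 hi1).ne'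
    have h2 : HasDerivAt (fun V : ℂ => 1 + exp V) (exp (p + t * (q - p))) (p + t * (q - p)) :=
      (Complex.hasDerivAt_exp _).const_add 1
    have h3 := h2.clog hsl
    have h4 : HasDerivAt (fun V : ℂ => (c : ℂ) * I * V) (c * I) (p + t * (q - p)) := by
      simpa using (hasDerivAt_id (p + t * (q - p))).const_mul ((c : ℂ) * I)
    exact h3.sub h4
  · intro t ht0 ht1
    have h5 := hb t ht0 ht1
    have e2 : (-I * (exp (p + t * (q - p)) / (1 + exp (p + t * (q - p))) - c * I)).re =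
        (exp (p + t * (q - p)) / (1 + exp (p + t * (q - p)))).im - c := by
      simp only [mul_re, neg_re, I_re, neg_im, I_im, sub_re, sub_im, ofReal_re, ofReal_im, mul_im]
      ring
    show 0 < (-I * (exp (p + t * (q - p)) / (1 + exp (p + t * (q - p))) - c * I)).re
    rw [e2]; linarith

/-- Lower bound for the increment. -/
theorem ui_D (R s : ℝ) (hs : 0 < s) : ∃ c : ℝ, 0 < c ∧ ∀ W W' : ℂ, 0 < W.im → W.im < Real.pi →
    0 < W'.im → W'.im < Real.pi → |W.re| ≤ R → |W'.re| ≤ R → s ≤ Real.sin W.im →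
    c * ‖W' - W‖ ^ 2 ≤
      (starRingEnd ℂ (W' - W) * (log (1 + exp W') - log (1 + exp W))).im := by
  set c0 : ℝ := Real.exp (-R) * (s / 4) / (1 + Real.exp R) ^ 2 with hc0
  have hc0p : 0 < c0 := by positivity
  refine ⟨c0 / 2, by positivity, ?_⟩
  intro W W' h0 h1 h0' h1' hR hR' hsin
  rcases eq_or_ne W W' with e | hne
  · subst e; simp
  have hseg : ∀ t : ℝ, (W + t * (W' - W)).im = (1 - t) * W.im + t * W'.im := fun t => by
    simp; ring
  have hsegre : ∀ t : ℝ, (W + t * (W' - W)).re = (1 - t) * W.re + t * W'.re := fun t => by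
    simp; ring
  have him : ∀ t : ℝ, 0 ≤ t → t ≤ 1 →
      0 < (W + t * (W' - W)).im ∧ (W + t * (W' - W)).im < Real.pi := by
    intro t ht0 ht1
    rw [hseg]
    have a1 : 0 ≤ (1 - t) := by linarith
    constructor
    · rcases ht0.eq_or_lt with h | h
      · rw [← h]; simpa using h0
      · have := mul_nonneg a1 h0.le
        have := mul_pos h h0'
        linarith
    · rcases ht0.eq_or_lt with h | h
      · rw [← h]; simpa using h1
      · have h2 := mul_le_mul_of_nonneg_left h1.le a1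
        have h3 := mul_lt_mul_of_pos_left h1' h
        nlinarith
  have hre : ∀ t : ℝ, 0 ≤ t → t ≤ 1 → |(W + t * (W' - W)).re| ≤ R := by
    intro t ht0 ht1
    rw [hsegre, abs_le]
    obtain ⟨a1, a2⟩ := abs_le.1 hR
    obtain ⟨b1, b2⟩ := abs_le.1 hR'
    have a0 : 0 ≤ (1 - t) := by linarith
    constructor <;> nlinarith
  set M : ℂ := (W + W') / 2 with hM
  have hMW : M - W = (W' - W) / 2 := by rw [hM]; ring
  have hWM : W' - M = (W' - W) / 2 := by rw [hM]; ring
  have hne1 : W ≠ M := fun h => hne (by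
    have : M - W = 0 := by rw [← h]; ring
    rw [hMW] at this
    have h2 : W' - W = 0 := by
      have := mul_eq_zero_of_left this 2
      simpa using this
    exact (sub_eq_zero.1 h2).symm)
  have hne2 : M ≠ W' := fun h => hne (by
    have : W' - M = 0 := by rw [h]; ring
    rw [hWM] at this
    have h2 : W' - W = 0 := by
      have := mul_eq_zero_of_left this 2
      simpa using this
    exact (sub_eq_zero.1 h2).symm)
  -- first half
  have p1 : ∀ t : ℝ, W + t * (M - W) = W + ((t / 2 : ℝ) : ℂ) * (W' - W) := fun t => by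
    rw [hMW]; push_cast; ring
  have p2 : ∀ t : ℝ, M + t * (W' - M) = W + (((1 + t) / 2 : ℝ) : ℂ) * (W' - W) := fun t => by
    rw [hWM, hM]; push_cast; ring
  have hA := ui_mv (c := c0) hne1
    (fun t h2 h3 => by rw [p1]; exact him _ (by linarith) (by linarith))
    (fun t h2 h3 => by
      rw [p1]
      have hc : s / 2 ≤ Real.sin (W + ((t / 2 : ℝ) : ℂ) * (W' - W)).im := by
        rw [hseg]
        have hcc := strictConcaveOn_sin_Icc.concaveOn.2
          (⟨h0.le, h1.le⟩ : W.im ∈ Set.Icc 0 Real.pi) (⟨h0'.le, h1'.le⟩ : W'.im ∈ Set.Icc 0 Real.pi)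
          (by linarith : (0 : ℝ) ≤ 1 - t / 2) (by linarith : (0 : ℝ) ≤ t / 2) (by ring)
        simp only [smul_eq_mul] at hcc
        have h5 : 0 ≤ Real.sin W'.im := (Real.sin_pos_of_pos_of_lt_pi h0' h1').le
        have h6 : 0 ≤ t / 2 * Real.sin W'.im := mul_nonneg (by linarith) h5
        have h7 : s / 2 ≤ (1 - t / 2) * Real.sin W.im := by nlinarith
        linarith
      have h6 := ui_phi (R := R) (by positivity) (hre (t / 2) (by linarith) (by linarith)) hc
      refine lt_of_lt_of_le ?_ h6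
      rw [hc0]
      gcongr
      linarith)
  -- second half
  have hB := ui_mv (c := 0) hne2
    (fun t h2 h3 => by rw [p2]; exact him _ (by linarith) (by linarith))
    (fun t h2 h3 => by
      rw [p2]
      obtain ⟨i0, i1⟩ := him ((1 + t) / 2) (by linarith) (by linarith)
      have hsp := Real.sin_pos_of_pos_of_lt_pi i0 i1
      have h6 := ui_phi (R := R) hsp.le (hre ((1 + t) / 2) (by linarith) (by linarith)) le_rfl
      refine lt_of_lt_of_le ?_ h6
      positivity)
  have hδ1 : M - W ≠ 0 := sub_ne_zero.2 hne1.symm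
  have hδ2 : W' - M ≠ 0 := sub_ne_zero.2 hne2.symm
  have e1 : (starRingEnd ℂ (W' - W) * (log (1 + exp W') - log (1 + exp W))).im =
      2 * (starRingEnd ℂ (M - W) * (log (1 + exp M) - log (1 + exp W))).im +
      2 * (starRingEnd ℂ (W' - M) * (log (1 + exp W') - log (1 + exp M))).im := by
    have a1 : W' - W = 2 * (M - W) := by rw [hMW]; ring
    have a2 : W' - M = M - W := by rw [hMW, hWM]
    rw [a2, a1, map_mul]
    have : log (1 + exp W') - log (1 + exp W) =
      (log (1 + exp M) - log (1 + exp W)) + (log (1 + exp W') - log (1 + exp M)) := by ring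
    rw [this]
    have h2 : (starRingEnd ℂ) (2 : ℂ) = 2 := Complex.conj_ofNat 2
    rw [h2]
    simp only [mul_im, mul_re, add_re, add_im, re_ofNat, im_ofNat]
    ring
  rw [e1, conj_mul_im_eq _ _ hδ1, conj_mul_im_eq _ _ hδ2]
  have f1 : ∀ w : ℂ, (-I * w).re = w.im := fun w => by simp
  rw [f1, f1]
  have n1 : normSq (M - W) = ‖W' - W‖ ^ 2 / 4 := by
    rw [hMW, normSq_eq_norm_sq, norm_div]
    simp; ring
  rw [n1]
  have hp : 0 < normSq (W' - M) := normSq_pos.2 hδ2
  have hq := mul_pos hp hB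
  have hr : ‖W' - W‖ ^ 2 / 4 * c0 ≤
      ‖W' - W‖ ^ 2 / 4 * ((log (1 + exp M) - log (1 + exp W)) / (M - W)).im :=
    mul_le_mul_of_nonneg_left hA.le (by positivity)
  linarith

/-- Real and imaginary part of `x conj y` and the angle. -/
theorem ui_sin {x y : ℂ} (hx : x ≠ 0) (hy : y ≠ 0) :
    2 * ((x * starRingEnd ℂ y).re * (x * starRingEnd ℂ y).im) =
      ‖x‖ ^ 2 * ‖y‖ ^ 2 * Real.sin (2 * (log x - log y)).im := by
  have hxr : x.re = ‖x‖ * Real.cos (arg x) := by
    rw [Complex.cos_arg hx]; field_simp [norm_ne_zero_iff.mpr hx]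
  have hxi : x.im = ‖x‖ * Real.sin (arg x) := by
    rw [Complex.sin_arg]; field_simp [norm_ne_zero_iff.mpr hx]
  have hyr : y.re = ‖y‖ * Real.cos (arg y) := by
    rw [Complex.cos_arg hy]; field_simp [norm_ne_zero_iff.mpr hy]
  have hyi : y.im = ‖y‖ * Real.sin (arg y) := by
    rw [Complex.sin_arg]; field_simp [norm_ne_zero_iff.mpr hy]
  have e1 : (x * starRingEnd ℂ y).re = ‖x‖ * ‖y‖ * Real.cos (arg x - arg y) := by
    rw [Complex.mul_re, Complex.conj_re, Complex.conj_im, Real.cos_sub, hxr, hxi, hyr, hyi]; ring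
  have e2 : (x * starRingEnd ℂ y).im = ‖x‖ * ‖y‖ * Real.sin (arg x - arg y) := by
    rw [Complex.mul_im, Complex.conj_re, Complex.conj_im, Real.sin_sub, hxr, hxi, hyr, hyi]; ring
  have e3 : (2 * (log x - log y)).im = 2 * (arg x - arg y) := by
    simp [Complex.mul_im, Complex.log_im]
  rw [e1, e2, e3, Real.sin_two_mul]; ring

theorem ui_log {x : ℂ} {B : ℝ} (h1 : 1 ≤ ‖x‖) (h2 : ‖x‖ ≤ B) : ‖log x‖ ≤ Real.log B + Real.pi := by
  have h3 : ‖log x‖ ≤ |(log x).re| + |(log x).im| := norm_le_abs_re_add_abs_im _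
  rw [log_re, log_im] at h3
  have h4 : |Real.log ‖x‖| ≤ Real.log B := by
    rw [abs_of_nonneg (Real.log_nonneg h1)]
    exact Real.log_le_log (by linarith) h2
  have h5 : |arg x| ≤ Real.pi := abs_arg_le_pi x
  linarith

/-- One good edge: increment and size of the area. -/
theorem ui_edge (B η : ℝ) (hB : 1 ≤ B) (hη : 0 < η) : ∃ c : ℝ, 0 < c ∧
    ∀ x y w m x' y' w' m' : ℂ, EdgeI x y → EdgeI x' y' → 0 < w.re → 0 < m.re → 0 < w'.re →
    0 < m'.re → w * m = x ^ 2 + y ^ 2 → w' * m' = x' ^ 2 + y' ^ 2 →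
    1 ≤ ‖x‖ → ‖x‖ ≤ B → 1 ≤ ‖y‖ → ‖y‖ ≤ B → 1 ≤ ‖w‖ → ‖w‖ ≤ B →
    1 ≤ ‖x'‖ → ‖x'‖ ≤ B → 1 ≤ ‖y'‖ → ‖y'‖ ≤ B → 1 ≤ ‖w'‖ → ‖w'‖ ≤ B →
    η ≤ (x * starRingEnd ℂ y).re * (x * starRingEnd ℂ y).im →
    c * ‖(log x' - log x) - (log y' - log y)‖ ^ 2 ≤
      ar (log x' - log x) (log y' - log y) (log w' - log w) +
      ar (log x' - log x) (log y' - log y) (log m' - log m) ∧
    |ar (log x' - log x) (log y' - log y) (log w' - log w)| ≤
      ‖(log x' - log x) - (log y' - log y)‖ * (4 * (Real.log B + Real.pi)) := by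
  have hB0 : 0 < B := by linarith
  have hlB : 0 ≤ Real.log B := Real.log_nonneg hB
  obtain ⟨c, hc, hD⟩ := ui_D (2 * Real.log B) (2 * η / B ^ 4) (by positivity)
  refine ⟨2 * c, by positivity, ?_⟩
  intro x y w m x' y' w' m' h h' hw hm hw' hm' hp hp' x1 x2 y1 y2 w1 w2 x1' x2' y1' y2' w1' w2' he
  have hRe : ∀ {a b : ℂ}, 1 ≤ ‖a‖ → ‖a‖ ≤ B → 1 ≤ ‖b‖ → ‖b‖ ≤ B →
      |(2 * (log a - log b)).re| ≤ 2 * Real.log B := by
    intro a b a1 a2 b1 b2
    have e : (2 * (log a - log b)).re = 2 * (Real.log ‖a‖ - Real.log ‖b‖) := by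
      simp [Complex.mul_re, Complex.log_re]
    rw [e, abs_le]
    have i1 := Real.log_nonneg a1
    have i2 := Real.log_nonneg b1
    have i3 := Real.log_le_log (by linarith) a2
    have i4 := Real.log_le_log (by linarith) b2
    constructor <;> linarith
  constructor
  · have hsin : 2 * η / B ^ 4 ≤ Real.sin (2 * (log x - log y)).im := by
      have e := ui_sin h.ne_left h.ne_right
      have hs := Real.sin_pos_of_pos_of_lt_pi h.strip.1 h.strip.2
      have h5 : ‖x‖ ^ 2 * ‖y‖ ^ 2 ≤ B ^ 4 := by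
        have a1 := pow_le_pow_left₀ (norm_nonneg x) x2 2
        have a2 := pow_le_pow_left₀ (norm_nonneg y) y2 2
        calc ‖x‖ ^ 2 * ‖y‖ ^ 2 ≤ B ^ 2 * B ^ 2 := mul_le_mul a1 a2 (by positivity) (by positivity)
          _ = B ^ 4 := by ring
      rw [div_le_iff₀ (by positivity)]
      have h6 : ‖x‖ ^ 2 * ‖y‖ ^ 2 * Real.sin (2 * (log x - log y)).im ≤
          B ^ 4 * Real.sin (2 * (log x - log y)).im := mul_le_mul_of_nonneg_right h5 hs.le
      linarith
    have h7 := hD _ _ h.strip.1 h.strip.2 h'.strip.1 h'.strip.2 (hRe x1 x2 y1 y2)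
      (hRe x1' x2' y1' y2') hsin
    have hid := ident h h' hw hm hw' hm' hp hp'
    rw [hid]
    have e2 : ‖2 * (log x' - log y') - 2 * (log x - log y)‖ =
        2 * ‖(log x' - log x) - (log y' - log y)‖ := by
      have : 2 * (log x' - log y') - 2 * (log x - log y) =
          2 * ((log x' - log x) - (log y' - log y)) := by ring
      rw [this, norm_mul, Complex.norm_ofNat]
    rw [e2] at h7
    linarith
  · unfold ar
    refine (abs_im_le_norm _).trans ?_
    rw [norm_mul, norm_conj]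
    refine mul_le_mul_of_nonneg_left ?_ (norm_nonneg _)
    have a1 := ui_log w1 w2
    have a2 := ui_log w1' w2'
    have a3 := ui_log y1 y2
    have a4 := ui_log y1' y2'
    calc ‖log w' - log w - (log y' - log y)‖ ≤ ‖log w' - log w‖ + ‖log y' - log y‖ := norm_sub_le _ _
      _ ≤ (‖log w'‖ + ‖log w‖) + (‖log y'‖ + ‖log y‖) := add_le_add (norm_sub_le _ _) (norm_sub_le _ _)
      _ ≤ 4 * (Real.log B + Real.pi) := by linarith

/-- Bounded hinges exclude growth. -/
theorem ui_not_grow {β : ℕ → Bool} {z : ℂ} {C : ℝ} (h : Inf β z)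
    (hC : ∀ n, Hinge β n → Bdd C β n z) : ¬ Grow β z := by
  intro hg
  obtain ⟨h1, M, hM⟩ := grow_large h hg (C + 1)
  obtain ⟨n, hn, hh⟩ := h1 M
  have h2 := (hC n hh).1
  have h3 := (hM n hn).2.1
  linarith

/-- The levels `k + 1`, `k + 2` after a hinge are bounded by `100`. -/
theorem ui_bdd {β : ℕ → Bool} {z : ℂ} (hg : ¬ Grow β z) {k j : ℕ} (hk : Hinge β k)
    (hj : j = k + 1 ∨ j = k + 2) : ‖vx β j z‖ ≤ 100 ∧ ‖vy β j z‖ ≤ 100 ∧ ‖vw β j z‖ ≤ 100 := by
  obtain ⟨h1, h2, h3, -⟩ := hinge_bdd_explicit hg hk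
  rcases hj with rfl | rfl
  · exact ⟨by linarith, by linarith, by linarith⟩
  · have hw : ∀ a b c : ℂ, ‖a‖ ≤ 11 / 2 → ‖b‖ ≤ 11 / 2 → ‖c‖ ≤ 14 → ‖a * c - b‖ ≤ 100 := by
      intro a b c ha hb hc
      refine (norm_sub_le _ _).trans ?_
      rw [norm_mul]
      have : ‖a‖ * ‖c‖ ≤ 11 / 2 * 14 := mul_le_mul ha hc (norm_nonneg _) (by norm_num)
      linarith
    cases hb : β (k + 1)
    · rw [vx_f hb, vy_f hb, vw_f hb]
      exact ⟨by linarith, by linarith, hw _ _ _ h1 h2 h3⟩
    · rw [vx_t hb, vy_t hb, vw_t hb]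
      refine ⟨by linarith, by linarith, ?_⟩
      rw [mul_comm]
      exact hw _ _ _ h2 h1 h3

theorem uniq_inf {β : ℕ → Bool} {z z' : ℂ} (hz : z ∈ Q) (hz' : z' ∈ Q) (hl : Low z) (hl' : Low z')
    (h : Inf β z) (h' : Inf β z') (C : ℝ) (hC : ∀ n, Hinge β n → Bdd C β n z)
    (hC' : ∀ n, Hinge β n → Bdd C β n z') : z = z' := by
  by_contra hne
  have hg := ui_not_grow h hC
  have hg' := ui_not_grow h' hC'
  have hnc := not_const hz hl h
  obtain ⟨η, hη, hcpt⟩ := cpt_inf 14
  obtain ⟨c, hc, hedge⟩ := ui_edge 100 η (by norm_num) hη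
  set L : ℝ := 4 * (Real.log 100 + Real.pi) with hL
  have hLpos : 0 < L := by
    have : 0 < Real.log 100 := Real.log_pos (by norm_num)
    have := Real.pi_pos
    positivity
  have hrw : ∀ n, 0 < (vw β n z).re := fun n => (h (n + 1)).re_w le_rfl
  have hrw' : ∀ n, 0 < (vw β n z').re := fun n => (h' (n + 1)).re_w le_rfl
  have hstep : ∀ n, KK β n z z' ≤ KK β (n + 1) z z' := fun n =>
    KK_step hz hz' (h (n + 1)) (h' (n + 1)) (hrw _) (hrw' _)
  have hmono : Monotone fun n => KK β n z z' := monotone_nat_of_le_succ hstep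
  have h0 : KK β 0 z z' = 0 := KK_zero β hz hz'
  -- strict at level one
  have h1 : 0 < KK β 1 z z' := by
    have e1 : EdgeI (vx β 1 z) (vy β 1 z) := h 1 1 le_rfl le_rfl
    have e1' : EdgeI (vx β 1 z') (vy β 1 z') := h' 1 1 le_rfl le_rfl
    have hlt := ar_step_lt e1 e1' (hrw 1) ((h 1).re_m hz (by omega : 0 ≤ 1)) (hrw' 1)
      ((h' 1).re_m hz' (by omega : 0 ≤ 1)) (T3_wm β z 0) (T3_wm β z' 0) (by
        intro he
        apply hne
        have hz0 : z ≠ 0 := fun h0 => by have := hz.1; rw [h0] at this; simp at this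
        have hz0' : z' ≠ 0 := fun h0 => by have := hz'.1; rw [h0] at this; simp at this
        have hexp : vx β 1 z / vy β 1 z = vx β 1 z' / vy β 1 z' := by
          have := congrArg exp he
          rwa [exp_sub, exp_sub, exp_log e1.ne_left, exp_log e1.ne_right, exp_log e1'.ne_left,
            exp_log e1'.ne_right] at this
        cases hb : β 0
        · rw [vx_f hb, vy_f hb, vx_f hb, vy_f hb] at hexp
          simp only [vx_zero, vw_zero] at hexp
          have hI : I ≠ 0 := I_ne_zero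
          field_simp at hexp
          exact (neg_injective hexp).symm
        · rw [vx_t hb, vy_t hb, vx_t hb, vy_t hb] at hexp
          simp only [vy_zero, vw_zero] at hexp
          have hI : I ≠ 0 := I_ne_zero
          field_simp at hexp
          exact hexp)
    have e2 : KK β 1 z z' = ar (log (vx β 1 z') - log (vx β 1 z)) (log (vy β 1 z') - log (vy β 1 z))
      (log (vw β 1 z') - log (vw β 1 z)) := rfl
    rw [e2]
    have e3 := KK_neg β 0 z z'
    rw [h0] at e3
    linarith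
  set κ : ℝ := KK β 1 z z' with hκ
  -- every hinge gives a level with a jump
  have hjump : ∀ k, 1 ≤ k → Hinge β k → ∃ j, (j = k + 1 ∨ j = k + 2) ∧
      KK β (j - 1) z z' + c * (κ / L) ^ 2 ≤ KK β j z z' ∧ KK β j z z' ≤ L * L := by
    intro k hk hh
    obtain ⟨j, hj, hjη⟩ := hcpt β z k hl h hk hh
      (by obtain ⟨-, -, -, h4⟩ := hinge_bdd_explicit hg hh; exact h4)
      (small_end_of_not_grow hg (k + 1))
    refine ⟨j, hj, ?_⟩
    obtain ⟨i, rfl⟩ : ∃ i, j = i + 1 := ⟨j - 1, by rcases hj with h | h <;> omega⟩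
    obtain ⟨b1, b2, b3⟩ := ui_bdd hg hh hj
    obtain ⟨b1', b2', b3'⟩ := ui_bdd hg' hh hj
    obtain ⟨l1, l2, l3⟩ := hl β (i + 1)
    obtain ⟨l1', l2', l3'⟩ := hl' β (i + 1)
    have e1 : EdgeI (vx β (i + 1) z) (vy β (i + 1) z) := h (i + 1) (i + 1) (by omega) le_rfl
    have e1' : EdgeI (vx β (i + 1) z') (vy β (i + 1) z') := h' (i + 1) (i + 1) (by omega) le_rfl
    obtain ⟨q1, q2⟩ := hedge _ _ _ (vm β i z) _ _ _ (vm β i z') e1 e1' (hrw (i + 1))
      ((h (i + 1)).re_m hz (by omega)) (hrw' (i + 1)) ((h' (i + 1)).re_m hz' (by omega))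
      (T3_wm β z i) (T3_wm β z' i) l1 b1 l2 b2 l3 b3 l1' b1' l2' b2' l3' b3' hjη
    set δ := ‖(log (vx β (i + 1) z') - log (vx β (i + 1) z)) -
      (log (vy β (i + 1) z') - log (vy β (i + 1) z))‖ with hδ
    have e2 : KK β (i + 1) z z' = ar (log (vx β (i + 1) z') - log (vx β (i + 1) z))
      (log (vy β (i + 1) z') - log (vy β (i + 1) z))
      (log (vw β (i + 1) z') - log (vw β (i + 1) z)) := rfl
    have e3 := KK_neg β i z z'
    rw [← e2] at q1 q2
    have hδ0 : 0 ≤ δ := norm_nonneg _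
    have hge : κ ≤ KK β (i + 1) z z' := hmono (by omega : 1 ≤ i + 1)
    have habs : KK β (i + 1) z z' ≤ δ * L := (le_abs_self _).trans q2
    have hκδ : κ / L ≤ δ := by
      rw [div_le_iff₀ hLpos]; linarith
    have hκL : 0 ≤ κ / L := by positivity
    have hsq : (κ / L) ^ 2 ≤ δ ^ 2 := pow_le_pow_left₀ hκL hκδ 2
    constructor
    · have : c * (κ / L) ^ 2 ≤ c * δ ^ 2 := mul_le_mul_of_nonneg_left hsq hc.le
      have e4 : i + 1 - 1 = i := by omega
      rw [e4]
      linarith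
    · have hδL : δ ≤ L := by
        have a1 := ui_log l1 b1
        have a2 := ui_log l1' b1'
        have a3 := ui_log l2 b2
        have a4 := ui_log l2' b2'
        calc δ ≤ ‖log (vx β (i + 1) z') - log (vx β (i + 1) z)‖ +
              ‖log (vy β (i + 1) z') - log (vy β (i + 1) z)‖ := norm_sub_le _ _
          _ ≤ (‖log (vx β (i + 1) z')‖ + ‖log (vx β (i + 1) z)‖) +
              (‖log (vy β (i + 1) z')‖ + ‖log (vy β (i + 1) z)‖) :=
              add_le_add (norm_sub_le _ _) (norm_sub_le _ _)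
          _ ≤ L := by rw [hL]; linarith
      exact habs.trans (mul_le_mul_of_nonneg_right hδL hLpos.le)
  set ε := c * (κ / L) ^ 2 with hε
  have hεpos : 0 < ε := by positivity
  have hub : ∀ n, KK β n z z' ≤ L * L := by
    intro n
    obtain ⟨k, hk, hh⟩ := hnc (n + 1)
    obtain ⟨j, hj, -, h3⟩ := hjump k (by omega) hh
    exact (hmono (by rcases hj with h | h <;> omega : n ≤ j)).trans h3
  have hinc : ∀ N : ℕ, ∃ j, (N : ℝ) * ε ≤ KK β j z z' := by
    intro N
    induction N with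
    | zero => exact ⟨0, by simp [h0]⟩
    | succ N ih =>
      obtain ⟨j0, hj0⟩ := ih
      obtain ⟨k, hk, hh⟩ := hnc (j0 + 1)
      obtain ⟨j, hj, h2, -⟩ := hjump k (by omega) hh
      refine ⟨j, ?_⟩
      have h3 : KK β j0 z z' ≤ KK β (j - 1) z z' :=
        hmono (by rcases hj with h | h <;> omega : j0 ≤ j - 1)
      push_cast
      linarith
  obtain ⟨N, hN⟩ := exists_nat_gt (L * L / ε)
  obtain ⟨j, hj⟩ := hinc N
  have h5 := hub j
  rw [div_lt_iff₀ hεpos] at hN
  linarith

end Pool.Agent.Loc
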