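import Pool.Agent.Loc.Lnk
import Pool.Agent.Loc.GroD
import Pool.Agent.Loc.AreaMono
import Pool.Agent.Loc.UniqInf
import Pool.Agent.Loc.Cod
import Pool.Agent.Loc.PE
import Pool.Agent.Loc.Fin5

set_option autoImplicit false

/-!
# Loc: the interface theorems
-/

namespace Pool.Agent.Loc

open Complex Pool.Agent.FZC Metric

theorem ray (β : ℕ → Bool) (n : ℕ) (v : ℝ) (hv : 2 < v) :
    ∃ z ∈ U, z ∈ Q ∧ End β n z ∧ vw β n z = v :=
  ray5 β n v hv

theorem end_mem {β : ℕ → Bool} {n : ℕ} {z : ℂ} (hz : z ∈ Q) (_hU : z ∈ closure U) (h : End β n z)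
    (h2 : 2 < (vw β n z).re) : z ∈ U :=
  end_mem5 hz h h2

end Pool.Agent.Loc
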