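import Pool.Agent.Loc.Ray

set_option autoImplicit false

/-!
# Loc: openness of the empty half plane (helper93), section 3.6 of the text
-/

namespace Pool.Agent.Loc

open Complex Pool.Agent.FZC Metric Filter Topology

/-! ## Algebra -/

/-- Action of an involution on a centre. -/
theorem act_inv {z : ℂ} {g h : List Lt} (hdet : (MM z g).det = 1)
    (htr : MM z g 0 0 + MM z g 1 1 = 0) (hV : MM z g 1 0 ≠ 0) (hh : MM z h 1 0 ≠ 0)
    (hne : cn z h ≠ cn z g) :
    MM z (g ++ h) 1 0 ≠ 0 ∧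
      cn z (g ++ h) = cn z g - 1 / ((MM z g 1 0) ^ 2 * (cn z h - cn z g)) := by
  have h11 : MM z g 1 1 = - MM z g 0 0 := by linear_combination htr
  have hd : MM z g 0 0 * MM z g 1 1 - MM z g 0 1 * MM z g 1 0 = 1 := by
    rw [← hdet, Matrix.det_fin_two]
  rw [h11] at hd
  have e10 : MM z (g ++ h) 1 0 = MM z g 1 0 * MM z h 0 0 - MM z g 0 0 * MM z h 1 0 := by
    rw [MM_append, Matrix.mul_apply, Fin.sum_univ_two, h11]; ring
  have e00 : MM z (g ++ h) 0 0 = MM z g 0 0 * MM z h 0 0 + MM z g 0 1 * MM z h 1 0 := by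
    rw [MM_append, Matrix.mul_apply, Fin.sum_univ_two]
  have hne' : MM z g 1 0 * MM z h 0 0 - MM z g 0 0 * MM z h 1 0 ≠ 0 := by
    intro h0
    apply hne
    unfold cn
    rw [div_eq_div_iff hh hV]
    linear_combination h0
  refine ⟨by rw [e10]; exact hne', ?_⟩
  have hsub : cn z h - cn z g ≠ 0 := sub_ne_zero.2 hne
  have hq : cn z h - cn z g =
      (MM z g 1 0 * MM z h 0 0 - MM z g 0 0 * MM z h 1 0) / (MM z h 1 0 * MM z g 1 0) := by
    unfold cn
    field_simp
  have key : ∀ a b u v V D : ℂ, V ≠ 0 → v ≠ 0 → D ≠ 0 → D = V * u - a * v →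
      a * -a - b * V = 1 →
      (a * u + b * v) / D = a / V - 1 / (V ^ 2 * (D / (v * V))) := by
    intro a b u v V D hV hv hD hDe hdd
    have e1 : 1 / (V ^ 2 * (D / (v * V))) = v / (V * D) := by field_simp
    rw [e1, div_sub_div _ _ hV (mul_ne_zero hV hD), div_eq_div_iff hD (mul_ne_zero hV (mul_ne_zero hV hD))]
    rw [hDe]
    linear_combination (-v * V * (V * u - a * v)) * hdd
  rw [hq]
  unfold cn
  rw [e10, e00]
  exact key _ _ _ _ _ _ hV hh hne' rfl hd

private theorem opn_T (z : ℂ) (h : List Lt) :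
    MM z (.T :: h) 0 0 = MM z h 0 0 + MM z h 1 0 ∧ MM z (.T :: h) 1 0 = MM z h 1 0 := by
  rw [MM_cons, Matrix.mul_apply, Matrix.mul_apply, Fin.sum_univ_two, Fin.sum_univ_two]
  simp [lm]

private theorem opn_S (z : ℂ) (h : List Lt) :
    MM z (.S :: h) 0 0 = MM z h 0 0 - MM z h 1 0 ∧ MM z (.S :: h) 1 0 = MM z h 1 0 := by
  rw [MM_cons, Matrix.mul_apply, Matrix.mul_apply, Fin.sum_univ_two, Fin.sum_univ_two]
  simp [lm, sub_eq_add_neg]

/-- The values of the Markoff map satisfy the Markoff equation. -/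
theorem opn_markoff (β : ℕ → Bool) (z : ℂ) (n : ℕ) :
    vx β n z ^ 2 + vy β n z ^ 2 + vw β n z ^ 2 = vx β n z * vy β n z * vw β n z := by
  induction n with
  | zero =>
    simp only [vx, vy, vw, st, s0]
    linear_combination (z ^ 2 : ℂ) * I_sq
  | succ n ih =>
    simp only [vx, vy, vw] at ih
    simp only [vx, vy, vw, st, step]
    split
    · simp only
      linear_combination ih
    · simp only
      linear_combination ih

/-- The distance from the left centre to the centre of the mediant. -/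
theorem cn_wl {z : ℂ} (hz : z ≠ 0) (β : ℕ → Bool) (n : ℕ) (hx : vx β n z ≠ 0)
    (hw : vw β n z ≠ 0) :
    cn z (wl β n) = cn z (ww β n) + vy β n z / (vx β n z * vw β n z) := by
  obtain ⟨lx, ltr⟩ := wl_eq hz β n
  obtain ⟨ry, rtr⟩ := wr_eq hz β n
  obtain ⟨wwe, _⟩ := ww_eq hz β n
  have ld := MM_det hz (wl β n)
  rw [Matrix.det_fin_two] at ld
  have l11 : MM z (wl β n) 1 1 = - MM z (wl β n) 0 0 := by linear_combination ltr
  obtain ⟨hT0, hT1⟩ := opn_T z (wr β n)
  have e10 : MM z (ww β n) 1 0 = MM z (wl β n) 1 0 * (MM z (wr β n) 0 0 + MM z (wr β n) 1 0)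
      + MM z (wl β n) 1 1 * MM z (wr β n) 1 0 := by
    unfold ww
    rw [MM_append, Matrix.mul_apply, Fin.sum_univ_two, hT0, hT1]
  have e00 : MM z (ww β n) 0 0 = MM z (wl β n) 0 0 * (MM z (wr β n) 0 0 + MM z (wr β n) 1 0)
      + MM z (wl β n) 0 1 * MM z (wr β n) 1 0 := by
    unfold ww
    rw [MM_append, Matrix.mul_apply, Fin.sum_univ_two, hT0, hT1]
  unfold cn
  rw [wwe, e00, lx, ry]
  rw [wwe, l11, lx, ry] at e10
  rw [l11, lx] at ld
  have hxw : vx β n z * vw β n z ≠ 0 := mul_ne_zero hx hw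
  rw [div_add_div _ _ hw hxw, div_eq_div_iff hx (mul_ne_zero hw hxw)]
  linear_combination (MM z (wl β n) 0 0 * vx β n z * vw β n z) * e10
    + (vx β n z * vw β n z * vy β n z) * ld

theorem cn_wr {z : ℂ} (hz : z ≠ 0) (β : ℕ → Bool) (n : ℕ) (hx : vx β n z ≠ 0)
    (hy : vy β n z ≠ 0) (hw : vw β n z ≠ 0) :
    cn z (wr β n) = cn z (ww β n) - vx β n z / (vy β n z * vw β n z) := by
  obtain ⟨lx, ltr⟩ := wl_eq hz β n
  obtain ⟨ry, rtr⟩ := wr_eq hz β n
  obtain ⟨wwe, _⟩ := ww_eq hz β n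
  have hl := cn_wl hz β n hx hw
  have hM := opn_markoff β z n
  have l11 : MM z (wl β n) 1 1 = - MM z (wl β n) 0 0 := by linear_combination ltr
  obtain ⟨hT0, hT1⟩ := opn_T z (wr β n)
  have e10 : MM z (ww β n) 1 0 = MM z (wl β n) 1 0 * (MM z (wr β n) 0 0 + MM z (wr β n) 1 0)
      + MM z (wl β n) 1 1 * MM z (wr β n) 1 0 := by
    unfold ww
    rw [MM_append, Matrix.mul_apply, Fin.sum_univ_two, hT0, hT1]
  rw [wwe, l11, lx, ry] at e10
  have hd : cn z (wl β n) - cn z (wr β n) = 1 - vw β n z / (vx β n z * vy β n z) := by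
    unfold cn
    rw [lx, ry]
    field_simp
    linear_combination e10
  have h3 : vw β n z / (vx β n z * vy β n z) + vy β n z / (vx β n z * vw β n z)
      + vx β n z / (vy β n z * vw β n z) = 1 := by
    field_simp
    linear_combination hM
  linear_combination hl - hd + h3

/-! ## The two neighbours on the line -/

private theorem opn_im (N D : ℂ) (B : ℝ) (hD : D ≠ 0) :
    (N / ((B : ℂ) * D)).im = (N * (starRingEnd ℂ) D).im / (B * normSq D) := by
  have h1 : N / ((B : ℂ) * D) = (N * (starRingEnd ℂ) D) / ((B * normSq D : ℝ) : ℂ) := by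
    by_cases hB : (B : ℂ) = 0
    · simp [hB]
    have hc : (starRingEnd ℂ) D ≠ 0 := (map_ne_zero _).2 hD
    push_cast
    rw [← mul_conj]
    field_simp
  rw [h1, div_ofReal_im]

theorem opn_L {x y d : ℂ} {B v : ℝ} (hM : x ^ 2 + y ^ 2 + (B : ℂ) ^ 2 = x * y * B) (hB : 0 < B)
    (hb : 0 < (x * (starRingEnd ℂ) y).im) :
    d + v ≠ d + y / (x * B) ∧ 0 < normSq (v * B * x - y) ∧
      ((d + y / (x * B)) - 1 / (x ^ 2 * ((d + v) - (d + y / (x * B))))).im =
        d.im + (x * (starRingEnd ℂ) y).im * (v * (1 - v) * B ^ 2 - 1) /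
          (B * normSq (v * B * x - y)) := by
  have hx : x ≠ 0 := by rintro rfl; simp at hb
  have hBc : (B : ℂ) ≠ 0 := by exact_mod_cast hB.ne'
  have hD : (v : ℂ) * B * x - y ≠ 0 := by
    intro h
    have hy : y = ((v * B : ℝ) : ℂ) * x := by push_cast; linear_combination -h
    rw [hy] at hb
    simp [mul_im] at hb
    nlinarith
  have hsub : (d + v) - (d + y / (x * B)) = (v * B * x - y) / (x * B) := by
    field_simp
    ring
  refine ⟨?_, normSq_pos.2 hD, ?_⟩
  · intro h
    rw [h, sub_self] at hsub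
    exact div_ne_zero hD (mul_ne_zero hx hBc) hsub.symm
  · have e : (d + y / (x * B)) - 1 / (x ^ 2 * ((d + v) - (d + y / (x * B)))) =
        d + (x - (1 - v) * B * y) / (B * (v * B * x - y)) := by
      rw [hsub]
      generalize hDD : (v : ℂ) * B * x - y = D at *
      have hy : y = v * B * x - D := by rw [← hDD]; ring
      rw [add_sub_assoc, add_right_inj]
      have e1 : 1 / (x ^ 2 * (D / (x * B))) = B / (x * D) := by field_simp
      rw [e1, div_sub_div _ _ (mul_ne_zero hx hBc) (mul_ne_zero hx hD),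
        div_eq_div_iff (mul_ne_zero (mul_ne_zero hx hBc) (mul_ne_zero hx hD))
          (mul_ne_zero hBc hD)]
      rw [← hDD]
      linear_combination (-(x * B * (v * B * x - y))) * hM
    rw [e, add_im, opn_im _ _ _ hD]
    congr 2
    simp only [mul_im, sub_im, sub_re, mul_re, conj_re, conj_im, ofReal_re, ofReal_im, one_re,
      one_im]
    ring

theorem opn_R {x y d : ℂ} {B v : ℝ} (hM : x ^ 2 + y ^ 2 + (B : ℂ) ^ 2 = x * y * B) (hB : 0 < B)
    (hb : 0 < (x * (starRingEnd ℂ) y).im) :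
    d + v ≠ d - x / (y * B) ∧ 0 < normSq (v * B * y + x) ∧
      ((d - x / (y * B)) - 1 / (y ^ 2 * ((d + v) - (d - x / (y * B))))).im =
        d.im + (x * (starRingEnd ℂ) y).im * (-v * (1 + v) * B ^ 2 - 1) /
          (B * normSq (v * B * y + x)) := by
  have hy : y ≠ 0 := by rintro rfl; simp at hb
  have hBc : (B : ℂ) ≠ 0 := by exact_mod_cast hB.ne'
  have hD : (v : ℂ) * B * y + x ≠ 0 := by
    intro h
    have hx : x = ((-(v * B) : ℝ) : ℂ) * y := by push_cast; linear_combination h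
    rw [hx] at hb
    simp [mul_im] at hb
    nlinarith
  have hsub : (d + v) - (d - x / (y * B)) = (v * B * y + x) / (y * B) := by
    field_simp
    ring
  refine ⟨?_, normSq_pos.2 hD, ?_⟩
  · intro h
    rw [h, sub_self] at hsub
    exact div_ne_zero hD (mul_ne_zero hy hBc) hsub.symm
  · have e : (d - x / (y * B)) - 1 / (y ^ 2 * ((d + v) - (d - x / (y * B)))) =
        d + (-((v + 1) * B * x - y)) / (B * (v * B * y + x)) := by
      rw [hsub]
      generalize hDD : (v : ℂ) * B * y + x = D at *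
      have e1 : 1 / (y ^ 2 * (D / (y * B))) = B / (y * D) := by field_simp
      rw [e1]
      have e2 : x / (y * B) + B / (y * D) = ((v + 1) * B * x - y) / (B * D) := by
        rw [div_add_div _ _ (mul_ne_zero hy hBc) (mul_ne_zero hy hD),
          div_eq_div_iff (mul_ne_zero (mul_ne_zero hy hBc) (mul_ne_zero hy hD))
            (mul_ne_zero hBc hD)]
        rw [← hDD]
        linear_combination (y * B * (v * B * y + x)) * hM
      rw [neg_div]
      linear_combination -e2
    rw [e, add_im, opn_im _ _ _ hD]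
    congr 2
    simp only [mul_im, sub_im, sub_re, mul_re, conj_re, conj_im, ofReal_re, ofReal_im, one_re,
      one_im, neg_im, neg_re, add_im, add_re]
    ring

/-! ## Openness -/

private theorem opn_shift (h : List Lt) (j : ℤ) : ∃ h' : List Lt, ∀ z,
    MM z h' 1 0 = MM z h 1 0 ∧ MM z h' 0 0 = MM z h 0 0 + j * MM z h 1 0 := by
  induction j using Int.induction_on with
  | zero => exact ⟨h, fun z => by simp⟩
  | succ i ih =>
    obtain ⟨h', e⟩ := ih
    refine ⟨.T :: h', fun z => ?_⟩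
    rw [(opn_T z h').1, (opn_T z h').2, (e z).1, (e z).2]
    push_cast
    exact ⟨rfl, by ring⟩
  | pred i ih =>
    obtain ⟨h', e⟩ := ih
    refine ⟨.S :: h', fun z => ?_⟩
    rw [(opn_S z h').1, (opn_S z h').2, (e z).1, (e z).2]
    push_cast
    exact ⟨rfl, by ring⟩

theorem opn_cont (β : ℕ → Bool) (n : ℕ) : Continuous (fun z => st β z n) := by
  induction n with
  | zero => simp only [st, s0]; fun_prop
  | succ n ih =>
    have h1 : Continuous (fun z => (st β z n).1) := continuous_fst.comp ih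
    have h2 : Continuous (fun z => (st β z n).2.1) :=
      continuous_fst.comp (continuous_snd.comp ih)
    have h3 : Continuous (fun z => (st β z n).2.2) :=
      continuous_snd.comp (continuous_snd.comp ih)
    simp only [st, step]
    cases β n
    · simpa using h1.prodMk (h3.prodMk ((h1.mul h3).sub h2))
    · simpa using h3.prodMk (h2.prodMk ((h3.mul h2).sub h1))

/-- The oriented area of an edge is positive. -/
theorem b0_pos {β : ℕ → Bool} {n : ℕ} {z : ℂ} (hz : z ∈ Q) (h : Good β n z) :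
    0 < (vx β n z * (starRingEnd ℂ) (vy β n z)).im := by
  rcases Nat.eq_zero_or_pos n with rfl | hn
  · have h1 : 0 < z.re := hz.1
    simp only [vx, vy, st, s0, mul_im, conj_re, conj_im, neg_re, neg_im, mul_re, I_re, I_im]
    nlinarith [sq_nonneg z.im]
  · obtain ⟨a, b, c, d, _⟩ := h n hn le_rfl
    simp only [mul_im, conj_re, conj_im]
    nlinarith [mul_pos a (neg_pos.2 d), mul_pos b c]

private theorem opn_const {B : ℝ} (hB : 2 < B) : ∃ a : ℝ, 0 < a ∧ a < 1 ∧ 1 < a * (B - a) := by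
  obtain ⟨u, hu⟩ : ∃ u : ℝ, u = 1 / (B - 1) := ⟨_, rfl⟩
  have h1 : (B - 1) * u = 1 := by rw [hu]; field_simp [show B - 1 ≠ 0 by linarith]
  have h0 : 0 < u := by rw [hu]; exact div_pos one_pos (by linarith)
  have h2 : u < 1 := by nlinarith
  exact ⟨(1 + u) / 2, by linarith, by linarith, by nlinarith⟩

/-- The involution of a word moves centres to centres. -/
private theorem opn_act {z : ℂ} (hz : z ≠ 0) {p g : List Lt} {V : ℂ} (hp : MM z p 1 0 = V ∧
    MM z p 0 0 + MM z p 1 1 = 0) (hV : V ≠ 0) (hg : MM z g 1 0 ≠ 0) (hne : cn z g ≠ cn z p) :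
    Prp (p ++ g) ∧ cn z (p ++ g) = cn z p - 1 / (V ^ 2 * (cn z g - cn z p)) := by
  have h := act_inv (MM_det hz p) hp.2 (by rw [hp.1]; exact hV) hg hne
  rw [hp.1] at h
  exact ⟨⟨z, hz, h.1⟩, h.2⟩

/-- Centres stay away from the points of the line between the isometric circle of the mediant
and its translates. -/
private theorem opn_free {β : ℕ → Bool} {n : ℕ} {z : ℂ} {B a : ℝ} (hU : z ∈ U) (hQ : z ∈ Q)
    (hG : Good β n z) (hw : vw β n z = B) (hB : 2 < B) (ha : 0 < a) (ha1 : a < 1)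
    (haB : 1 < a * (B - a)) (he : Emp β n z) (v : ℂ) (h1 : |v.re| ≤ 1 / 2) (h2 : 0 ≤ v.im)
    (h3 : a / B ≤ ‖v‖) : cn z (ww β n) + v ∉ closure {c | ∃ g, Prp g ∧ cn z g = c} := by
  intro hcl
  rw [mem_closure_iff_frequently] at hcl
  have hz0 : z ≠ 0 := by rintro rfl; exact lt_irrefl _ hQ.1
  have hb := b0_pos hQ hG
  have hM := opn_markoff β z n
  rw [hw] at hM
  have hB0 : 0 < B := by linarith
  have hBc : (B : ℂ) ≠ 0 := by exact_mod_cast hB0.ne'
  have hx : vx β n z ≠ 0 := by intro h; rw [h] at hb; simp at hb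
  have hy : vy β n z ≠ 0 := by intro h; rw [h] at hb; simp at hb
  have hcl1 := cn_wl hz0 β n hx (by rw [hw]; exact hBc)
  have hcr1 := cn_wr hz0 β n hx hy (by rw [hw]; exact hBc)
  rw [hw] at hcl1 hcr1
  rcases h2.lt_or_eq with h2 | h2
  · have ev : ∀ᶠ x : ℂ in 𝓝 (cn z (ww β n) + v), (cn z (ww β n)).im < x.im :=
      continuous_im.continuousAt.eventually (lt_mem_nhds (by rw [add_im]; linarith))
    obtain ⟨c, ⟨g, hg, rfl⟩, hc⟩ := (hcl.and_eventually ev).exists
    exact absurd (he g hg) (not_le.2 hc)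
  · obtain ⟨t, rfl⟩ : ∃ t : ℝ, v = t := ⟨v.re, Complex.ext (by simp) (by simp [← h2])⟩
    simp only [ofReal_re, norm_real, Real.norm_eq_abs] at h1 h3
    have key : ∀ (p : List Lt) (V : ℂ), MM z p 1 0 = V ∧ MM z p 0 0 + MM z p 1 1 = 0 → V ≠ 0 →
        cn z (ww β n) + t ≠ cn z p →
        ¬ ((cn z (ww β n)).im <
          (cn z p - 1 / (V ^ 2 * ((cn z (ww β n) + t) - cn z p))).im) := by
      intro p V hp hV hne hlt
      have hc1 : ContinuousAt (fun W : ℂ => (cn z p - 1 / (V ^ 2 * (W - cn z p))).im)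
          (cn z (ww β n) + t) := by
        apply continuous_im.continuousAt.comp
        refine ContinuousAt.sub continuousAt_const (ContinuousAt.div continuousAt_const
          (by fun_prop) ?_)
        exact mul_ne_zero (pow_ne_zero 2 hV) (sub_ne_zero.2 hne)
      have ev1 := hc1.eventually (lt_mem_nhds hlt)
      have ev2 : ∀ᶠ x : ℂ in 𝓝 (cn z (ww β n) + t), x ≠ cn z p :=
        isOpen_ne.mem_nhds hne
      obtain ⟨c, ⟨g, hg, rfl⟩, hc, hc'⟩ := (hcl.and_eventually (ev1.and ev2)).exists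
      obtain ⟨hP, hcc⟩ := opn_act hz0 hp hV (prp_ne hU hg) hc'
      have : (cn z (p ++ g)).im ≤ (cn z (ww β n)).im := he _ hP
      rw [hcc] at this
      linarith
    have hBB : a / B * B = a := div_mul_cancel₀ a hB0.ne'
    have hq0 : 0 < a / B := div_pos ha hB0
    rcases le_or_gt 0 t with ht | ht
    · rw [abs_of_nonneg ht] at h1 h3
      obtain ⟨e1, e2, e3⟩ := opn_L (d := cn z (ww β n)) (v := t) hM hB0 hb
      rw [← hcl1] at e1 e3
      apply key _ _ (wl_eq hz0 β n) hx e1
      rw [e3]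
      have : 1 < t * (1 - t) * B ^ 2 := by
        have h5 : a / B * (1 - a / B) ≤ t * (1 - t) := by nlinarith
        have h6 : a / B * (1 - a / B) * B ^ 2 = a * (B - a) := by field_simp
        nlinarith [mul_le_mul_of_nonneg_right h5 (sq_nonneg B)]
      have h7 : 0 < (vx β n z * (starRingEnd ℂ) (vy β n z)).im * (t * (1 - t) * B ^ 2 - 1) /
          (B * normSq (t * B * vx β n z - vy β n z)) :=
        div_pos (mul_pos hb (by linarith)) (mul_pos hB0 e2)
      linarith
    · rw [abs_of_neg ht] at h1 h3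
      obtain ⟨e1, e2, e3⟩ := opn_R (d := cn z (ww β n)) (v := t) hM hB0 hb
      rw [← hcr1] at e1 e3
      apply key _ _ (wr_eq hz0 β n) hy e1
      rw [e3]
      have : 1 < -t * (1 + t) * B ^ 2 := by
        have h5 : a / B * (1 - a / B) ≤ -t * (1 + t) := by nlinarith
        have h6 : a / B * (1 - a / B) * B ^ 2 = a * (B - a) := by field_simp
        nlinarith [mul_le_mul_of_nonneg_right h5 (sq_nonneg B)]
      have h7 : 0 < (vx β n z * (starRingEnd ℂ) (vy β n z)).im * (-t * (1 + t) * B ^ 2 - 1) /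
          (B * normSq (t * B * vy β n z + vx β n z)) :=
        div_pos (mul_pos hb (by linarith)) (mul_pos hB0 e2)
      linarith

/-- Openness of the empty half plane, in a ball. -/
theorem emp_ball {β : ℕ → Bool} {n : ℕ} {z₀ : ℂ} (hU : z₀ ∈ U) (hQ : z₀ ∈ Q) (hG : Good β n z₀)
    (hw0 : (vw β n z₀).im = 0) (h2 : 2 < (vw β n z₀).re) (he : Emp β n z₀) :
    ∃ r : ℝ, 0 < r ∧ ball z₀ r ⊆ U ∧ ∀ z ∈ ball z₀ r, (vw β n z).im = 0 → Emp β n z := by
  obtain ⟨r1, C, hr1, hC, hb1, hn⟩ := cn_near hU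
  obtain ⟨r2, L, hr2, hL, hb2, hl⟩ := cn_lip hU
  obtain ⟨B, hBdef⟩ : ∃ B : ℝ, B = (vw β n z₀).re := ⟨_, rfl⟩
  have hw : vw β n z₀ = B := Complex.ext (by simp [hBdef]) (by simpa using hw0)
  have hB : 2 < B := by rw [hBdef]; exact h2
  have hB0 : 0 < B := by linarith
  have hz0 : z₀ ≠ 0 := by rintro rfl; exact lt_irrefl _ hQ.1
  obtain ⟨a, ha, ha1, haB⟩ := opn_const hB
  have hfree := opn_free hU hQ hG hw hB ha ha1 haB he
  have hprw : Prp (ww β n) := ⟨z₀, hz0, by
    rw [(ww_eq hz0 β n).1, hw]; exact_mod_cast hB0.ne'⟩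
  -- compactness
  obtain ⟨K0, hK0⟩ : ∃ K0 : Set ℂ, K0 = {v : ℂ | |v.re| ≤ 1 / 2 ∧ 0 ≤ v.im ∧ v.im ≤ 2 * C ∧
    a / B ≤ ‖v‖} := ⟨_, rfl⟩
  have hKc : IsCompact K0 := by
    apply Metric.isCompact_of_isClosed_isBounded
    · rw [hK0]
      simp only [Set.ofPred_and]
      exact (isClosed_le (by fun_prop) continuous_const).inter
        ((isClosed_le continuous_const (by fun_prop)).inter
          ((isClosed_le (by fun_prop) continuous_const).inter
            (isClosed_le continuous_const (by fun_prop))))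
    · rw [Metric.isBounded_iff_subset_closedBall 0]
      refine ⟨1 / 2 + 2 * C, fun v hv => ?_⟩
      rw [hK0] at hv
      rw [mem_closedBall, dist_zero_right]
      calc ‖v‖ ≤ |v.re| + |v.im| := Complex.norm_le_abs_re_add_abs_im v
        _ ≤ 1 / 2 + 2 * C := add_le_add hv.1 (by rw [abs_of_nonneg hv.2.1]; exact hv.2.2.1)
  have hK1 : IsCompact ((fun v => cn z₀ (ww β n) + v) '' K0) :=
    hKc.image (by fun_prop)
  have hdis : Disjoint ((fun v => cn z₀ (ww β n) + v) '' K0)
      (closure {c | ∃ g, Prp g ∧ cn z₀ g = c}) := by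
    rw [Set.disjoint_left]
    rintro _ ⟨v, hv, rfl⟩
    rw [hK0] at hv
    exact hfree v hv.1 hv.2.1 hv.2.2.2
  obtain ⟨δ, hδ, hthick⟩ := hdis.exists_thickenings hK1 isClosed_closure
  -- continuity of the value
  obtain ⟨a', ha', ha'a, ha'1⟩ : ∃ a' : ℝ, 0 < a' ∧ a < a' ∧ a' < 1 :=
    ⟨(1 + a) / 2, by linarith, by linarith, by linarith⟩
  have hcw : ContinuousAt (vw β n) z₀ :=
    (continuous_snd.comp (continuous_snd.comp (opn_cont β n))).continuousAt
  have hgap : 0 < min B (B * a' / a - B) := by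
    apply lt_min hB0
    have : B * 1 < B * (a' / a) := by
      apply mul_lt_mul_of_pos_left _ hB0
      rw [lt_div_iff₀ ha]; linarith
    have e : B * a' / a = B * (a' / a) := by ring
    rw [e]; linarith
  obtain ⟨r3, hr3, hb3⟩ := Metric.continuousAt_iff.1 hcw _ hgap
  have hr4 : 0 < δ / (2 * L) := by positivity
  refine ⟨min (min r1 r2) (min r3 (δ / (2 * L))), lt_min (lt_min hr1 hr2) (lt_min hr3 hr4),
    fun z hz => hb1 (ball_subset_ball (le_trans (min_le_left _ _) (min_le_left _ _)) hz), ?_⟩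
  intro z hz him g hg
  by_contra hgt
  rw [not_le] at hgt
  change (cn z (ww β n)).im < (cn z g).im at hgt
  have hz1 : z ∈ ball z₀ r1 :=
    ball_subset_ball (le_trans (min_le_left _ _) (min_le_left _ _)) hz
  have hz2 : z ∈ ball z₀ r2 :=
    ball_subset_ball (le_trans (min_le_left _ _) (min_le_right _ _)) hz
  have hz3 : z ∈ ball z₀ r3 :=
    ball_subset_ball (le_trans (min_le_right _ _) (min_le_left _ _)) hz
  have hz4 : ‖z - z₀‖ < δ / (2 * L) := by
    rw [← dist_eq_norm]
    exact lt_of_lt_of_le (mem_ball.1 hz) (le_trans (min_le_right _ _) (min_le_right _ _))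
  have hzU : z ∈ U := hb1 hz1
  -- the value at `z`
  obtain ⟨w, hwdef⟩ : ∃ w : ℝ, w = (vw β n z).re := ⟨_, rfl⟩
  have hwz : vw β n z = w := Complex.ext (by simp [hwdef]) (by simpa using him)
  have hd3 := hb3 (mem_ball.1 hz3)
  rw [hw, hwz, dist_eq_norm, ← ofReal_sub, norm_real, Real.norm_eq_abs, abs_lt] at hd3
  have hwpos : 0 < w := by have := min_le_left B (B * a' / a - B); linarith [hd3.1]
  have hwle : w * a ≤ B * a' := by
    have h5 := min_le_right B (B * a' / a - B)
    have h6 : w < B * a' / a := by linarith [hd3.2]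
    exact ((lt_div_iff₀ ha).1 h6).le
  have hzne : z ≠ 0 := by
    rintro rfl
    have h5 := prp_ne hzU hprw
    have h6 : vw β n 0 = 0 := by
      have h7 : ∀ m, st β 0 m = (0, 0, 0) := by
        intro m
        induction m with
        | zero => simp [st, s0]
        | succ m ih => simp only [st, step, ih]; split <;> simp
      simp [vw, h7]
    rw [hwz] at h6
    exact hwpos.ne' (by exact_mod_cast h6)
  -- the supremum
  obtain ⟨f, hf⟩ : ∃ f : {g // Prp g} → ℝ, f = fun g => (cn z g.1).im - (cn z (ww β n)).im :=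
    ⟨_, rfl⟩
  have himC : ∀ g, Prp g → |(cn z g).im| ≤ C := by
    intro g hg
    have h5 := hn z hz1 g hg
    have h6 := Complex.abs_im_le_norm (cn z g - nn g)
    simp only [sub_im, intCast_im, sub_zero] at h6
    linarith
  have hbdd : BddAbove (Set.range f) := by
    refine ⟨2 * C, ?_⟩
    rintro _ ⟨g, rfl⟩
    rw [hf]
    have h5 := abs_le.1 (himC g.1 g.2)
    have h6 := abs_le.1 (himC _ hprw)
    simp only
    linarith [h5.2, h6.1]
  have hs0 : 0 < iSup f := by
    refine lt_of_lt_of_le ?_ (le_ciSup hbdd ⟨g, hg⟩)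
    rw [hf]; simp only; linarith
  have hsa : a' ^ 2 * iSup f < iSup f := by
    have : a' ^ 2 < 1 := by nlinarith
    nlinarith
  have : Nonempty {g // Prp g} := ⟨⟨g, hg⟩⟩
  obtain ⟨⟨g', hg'⟩, hg's⟩ := exists_lt_of_lt_ciSup hsa
  rw [hf] at hg's
  simp only at hg's
  rw [← hf] at hg's
  have hg'ne := prp_ne hzU hg'
  obtain ⟨h', hh'⟩ := opn_shift g' (-round ((cn z g') - (cn z (ww β n))).re)
  have hh1 : MM z h' 1 0 ≠ 0 := by rw [(hh' z).1]; exact hg'ne
  have hPh : Prp h' := ⟨z, hzne, hh1⟩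
  have hch : cn z h' = cn z g' + ((-round ((cn z g') - (cn z (ww β n))).re : ℤ) : ℂ) := by
    have e : cn z h' = MM z h' 0 0 / MM z h' 1 0 := rfl
    rw [e, (hh' z).1, (hh' z).2, add_div, mul_div_assoc, div_self hg'ne, mul_one]
    rfl
  obtain ⟨v, hv⟩ : ∃ v : ℂ, v = cn z h' - cn z (ww β n) := ⟨_, rfl⟩
  have hvre : |v.re| ≤ 1 / 2 := by
    have h5 := abs_sub_round ((cn z g') - (cn z (ww β n))).re
    have h6 : v.re = ((cn z g') - (cn z (ww β n))).re -
        (round ((cn z g') - (cn z (ww β n))).re : ℤ) := by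
      rw [hv, hch]
      simp only [sub_re, add_re, intCast_re]
      push_cast
      ring
    rw [h6]; exact h5
  have hvim : v.im = (cn z g').im - (cn z (ww β n)).im := by
    rw [hv, hch]
    simp only [sub_im, add_im, intCast_im, add_zero]
  have hvpos : 0 < v.im := by
    rw [hvim]
    exact lt_trans (by positivity) hg's
  have hvne : v ≠ 0 := by rintro h; rw [h] at hvpos; simp at hvpos
  have hdne : cn z h' ≠ cn z (ww β n) := by
    intro h; apply hvne; rw [hv, h, sub_self]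
  have hVne : vw β n z ≠ 0 := by rw [hwz]; exact_mod_cast hwpos.ne'
  obtain ⟨hPn, hcn⟩ := opn_act hzne (ww_eq hzne β n) hVne hh1 hdne
  have hle := le_ciSup hbdd ⟨_, hPn⟩
  have hval : (cn z (ww β n ++ h')).im - (cn z (ww β n)).im = v.im / (w ^ 2 * normSq v) := by
    rw [hcn, ← hv, hwz, sub_im]
    have e1 : (1 : ℂ) / ((w : ℂ) ^ 2 * v) = (starRingEnd ℂ) v / ((w ^ 2 * normSq v : ℝ) : ℂ) := by
      have hwc : (w : ℂ) ≠ 0 := by exact_mod_cast hwpos.ne'
      have hc : (starRingEnd ℂ) v ≠ 0 := (map_ne_zero _).2 hvne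
      push_cast
      rw [← mul_conj]
      field_simp
    rw [e1, div_ofReal_im, conj_im]
    ring
  rw [hf] at hle
  simp only at hle
  rw [← hf, hval] at hle
  have hns : 0 < normSq v := normSq_pos.2 hvne
  have hww : 0 < w ^ 2 * normSq v := mul_pos (pow_pos hwpos 2) hns
  have h8 : a' ^ 2 < w ^ 2 * normSq v := by
    rw [div_le_iff₀ hww] at hle
    have h9 : a' ^ 2 * iSup f < v.im := by rw [hvim]; exact hg's
    nlinarith
  have h9 : a / B ≤ ‖v‖ := by
    have h10 : a' < w * ‖v‖ := by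
      have h11 : a' ^ 2 < (w * ‖v‖) ^ 2 := by
        rw [mul_pow, ← normSq_eq_norm_sq]; exact h8
      exact lt_of_pow_lt_pow_left₀ 2 (by positivity) h11
    rw [div_le_iff₀ hB0]
    have h12 : a * w < B * (w * ‖v‖) := by nlinarith
    have h13 : w * a < w * (‖v‖ * B) := by linarith
    exact (lt_of_mul_lt_mul_left h13 hwpos.le).le
  have hvC : v.im ≤ 2 * C := by
    rw [hvim]
    have h5 := abs_le.1 (himC g' hg')
    have h6 := abs_le.1 (himC _ hprw)
    linarith [h5.2, h6.1]
  have hvK : v ∈ K0 := by rw [hK0]; exact ⟨hvre, hvpos.le, hvC, h9⟩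
  have hz0m : z₀ ∈ ball z₀ r2 := mem_ball_self hr2
  have h14 := hl z hz2 z₀ hz0m _ hPh
  have h15 := hl z hz2 z₀ hz0m _ hprw
  have h16 : L * ‖z - z₀‖ < δ / 2 := by
    rw [lt_div_iff₀ (by positivity)] at hz4
    linarith
  have h17 : dist (cn z₀ h') (cn z₀ (ww β n) + v) < δ := by
    rw [dist_eq_norm, hv]
    have e : cn z₀ h' - (cn z₀ (ww β n) + (cn z h' - cn z (ww β n))) =
        -(cn z h' - cn z₀ h') + (cn z (ww β n) - cn z₀ (ww β n)) := by ring
    rw [e]
    refine lt_of_le_of_lt (norm_add_le _ _) ?_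
    rw [norm_neg]
    linarith
  have h18 : cn z₀ h' ∈ thickening δ ((fun v => cn z₀ (ww β n) + v) '' K0) := by
    rw [mem_thickening_iff]
    exact ⟨_, ⟨v, hvK, rfl⟩, h17⟩
  have h19 : cn z₀ h' ∈ thickening δ (closure {c | ∃ g, Prp g ∧ cn z₀ g = c}) :=
    self_subset_thickening hδ _ (subset_closure ⟨h', hPh, rfl⟩)
  exact Set.disjoint_left.1 hthick h18 h19

/-- **Openness of the empty half plane.** -/
theorem emp_open {β : ℕ → Bool} {n : ℕ} {z : ℂ} (hU : z ∈ U) (h : RP β n z) (he : Emp β n z) :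
    ∀ᶠ z' in 𝓝 z, RP β n z' → Emp β n z' := by
  obtain ⟨r, hr, _, hb⟩ := emp_ball hU h.q h.e.1 h.e.2.1 h.g he
  filter_upwards [ball_mem_nhds z hr] with z' hz' hz
  exact hb z' hz' hz.e.2.1

/-! ## Closedness -/

theorem MM_cont {z₀ : ℂ} (hz : z₀ ≠ 0) (g : List Lt) (i j : Fin 2) :
    ContinuousAt (fun z => MM z g i j) z₀ := by
  induction g generalizing i j with
  | nil => simp only [MM_nil]; exact continuousAt_const
  | cons l g ih =>
    have hinv : ContinuousAt (fun z : ℂ => z⁻¹) z₀ := continuousAt_inv₀ hz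
    have hl : ∀ i j : Fin 2, ContinuousAt (fun z => lm z l i j) z₀ := by
      intro i j
      cases l <;> fin_cases i <;> fin_cases j <;> simp [lm] <;>
        first
          | exact continuousAt_const
          | exact continuousAt_id
          | exact hinv
          | exact continuousAt_const.mul hinv
          | exact continuousAt_const.mul continuousAt_id
          | exact hinv.neg
          | exact (continuousAt_const.mul hinv).neg
          | exact (continuousAt_const.mul continuousAt_id).neg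
    simp only [MM_cons, Matrix.mul_apply, Fin.sum_univ_two]
    exact ((hl i 0).mul (ih 0 j)).add ((hl i 1).mul (ih 1 j))

theorem cn_cont {z₀ : ℂ} (hU : z₀ ∈ closure U) (hz : z₀ ≠ 0) {g : List Lt} (hg : Prp g) :
    ContinuousAt (fun z => cn z g) z₀ := by
  have h1 := prp_ge hU hg
  have h2 : MM z₀ g 1 0 ≠ 0 := by
    intro h; rw [h, norm_zero] at h1; linarith
  exact (MM_cont hz g 0 0).div (MM_cont hz g 1 0) h2

/-- A limit of empty points is empty. -/
theorem emp_lim {β : ℕ → Bool} {n : ℕ} {z₀ : ℂ} (hU : z₀ ∈ closure U) (hz : z₀ ≠ 0)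
    (hw : vw β n z₀ ≠ 0) {u : ℕ → ℂ} (hu : Tendsto u atTop (𝓝 z₀)) (he : ∀ k, Emp β n (u k)) :
    Emp β n z₀ := by
  intro g hg
  have hp : Prp (ww β n) := ⟨z₀, hz, by rw [(ww_eq hz β n).1]; exact hw⟩
  have h1 : Tendsto (fun k => (cn (u k) g).im) atTop (𝓝 (cn z₀ g).im) :=
    (continuous_im.tendsto _).comp ((cn_cont hU hz hg).tendsto.comp hu)
  have h2 : Tendsto (fun k => (cn (u k) (ww β n)).im) atTop (𝓝 (cn z₀ (ww β n)).im) :=
    (continuous_im.tendsto _).comp ((cn_cont hU hz hp).tendsto.comp hu)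
  exact le_of_tendsto_of_tendsto' h1 h2 (fun k => he k g hg)

/-- A ray point in the closure of `U` which is a limit of empty points is empty. -/
theorem emp_closed {β : ℕ → Bool} {n : ℕ} {z₀ : ℂ} (hU : z₀ ∈ closure U) (h : RP β n z₀)
    {u : ℕ → ℂ} (hu : Tendsto u atTop (𝓝 z₀)) (he : ∀ k, Emp β n (u k)) : Emp β n z₀ := by
  refine emp_lim hU ?_ ?_ hu he
  · rintro rfl; exact lt_irrefl _ h.q.1
  · intro hw; have := h.g; rw [hw] at this; simp at this; linarith

end Pool.Agent.Loc
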