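import Pool.Agent.Loc.Stp

/-!
# Loc: openness at the stops, the fan to the left and the mirror
-/

set_option autoImplicit false

namespace Pool.Agent.Loc

open Complex Filter Topology Metric ComplexConjugate

/-- The states along the fan of pivot `m` (right end), reached by the bit `false`. -/
lemma fan_state {z : ℂ} {n : ℕ} (hm : (vw (bits z) n z).im < 0) (k : ℕ)
    (hpos : ∀ j, 1 ≤ j → j ≤ k →
      0 < (fan (vx (bits z) n z) (vy (bits z) n z) (vw (bits z) n z) j).im) :
    vx (bits z) (n + 1 + k) z = fan (vx (bits z) n z) (vy (bits z) n z) (vw (bits z) n z) k ∧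
    vy (bits z) (n + 1 + k) z = vw (bits z) n z ∧
    vw (bits z) (n + 1 + k) z =
      fan (vx (bits z) n z) (vy (bits z) n z) (vw (bits z) n z) (k + 1) := by
  induction k with
  | zero =>
    have hb : bits z n = false := by rw [bits_eq]; simp [hm]
    refine ⟨vx_f hb, vy_f hb, ?_⟩
    rw [add_zero, vw_f hb]
    simp only [fan]; ring
  | succ k ih =>
    obtain ⟨h1, h2, h3⟩ := ih fun j hj hj' => hpos j hj (by omega)
    have hw : 0 < (vw (bits z) (n + 1 + k) z).im := by rw [h3]; exact hpos (k + 1) (by omega) le_rfl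
    have hb : bits z (n + 1 + k) = true := by rw [bits_eq]; simp [hw.le]
    refine ⟨?_, ?_, ?_⟩
    · rw [← add_assoc, vx_t hb, h3]
    · rw [← add_assoc, vy_t hb, h2]
    · rw [← add_assoc, vw_t hb, h3, h2, h1]
      simp only [fan]; ring

/-- Deterministic part of the openness at a stop. -/
lemma stop_det {z : ℂ} {n : ℕ} {κ A t u B : ℝ} (hB : 2 < B)
    (hg : Good (bits z) n z) (hm : (vw (bits z) n z).im < 0)
    (hf : FanHyp (vw (bits z) n z) (fan (vx (bits z) n z) (vy (bits z) n z) (vw (bits z) n z))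
      (vy (bits z) n z) κ A t u)
    (hx : 0 < (vx (bits z) n z).im)
    (hT : (-(vw (bits z) n z).im) * fT κ A t u ≤ 1)
    (hE : (-(vw (bits z) n z).im) * fE κ A t u ≤ 1 / 8)
    (hnm : ‖vw (bits z) n z‖ ≤ B + 1) {J : ℕ} (hJ : 10 + B ≤ u * κ ^ J)
    (hpos : ∀ j, 1 ≤ j → j ≤ J →
      0 < (fan (vx (bits z) n z) (vy (bits z) n z) (vw (bits z) n z) j).im) :
    Inf (bits z) z ∨ ∃ m, End (bits z) m z := by
  set x := vx (bits z) n z with hxd
  set y := vy (bits z) n z with hyd
  set m := vw (bits z) n z with hmd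
  set X := fan x y m with hX
  have hκ := hf.hκ
  have hκ0 : 0 < κ := by linarith
  have hmre : 1 < m.re := by
    have := hf.hm
    have h1 : 0 < 1 / κ := by positivity
    linarith
  have hX0 : 0 < (X 0).im := hx
  -- edge in the fan
  have hedge : ∀ k, (∀ j, 1 ≤ j → j ≤ k → 0 < (X j).im) → Edge (X k) m := by
    intro k hk
    have hk' : ∀ j, j ≤ k → 0 < (X j).im := by
      intro j hj
      rcases Nat.eq_zero_or_pos j with h | h
      · rw [h]; exact hX0
      · exact hk j h hj
    obtain ⟨s1, -, s3, -, -⟩ := hf.main k hk'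
    have hre : 0 < (X k).re := lt_of_lt_of_le (by have := hf.hu; positivity) s1
    refine ⟨hre, hk' k le_rfl, by linarith, hm, ?_⟩
    have h3 : (X k).im ≤ fT κ A t u * (X k).re := by
      refine s3.trans (mul_le_mul_of_nonneg_right ?_ hre.le)
      unfold fT
      have h1 : 0 ≤ A / (u ^ 2 * (1 - (κ ^ 2)⁻¹)) := by
        have := hf.inv_lt
        have := hf.A_nonneg
        have := hf.hu
        positivity
      have h2 : 0 ≤ ((κ ^ 2) ^ k)⁻¹ := by positivity
      nlinarith
    simp only [Complex.mul_re, Complex.conj_re, Complex.conj_im]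
    have h4 : (-m.im) * (X k).im ≤ 1 * (X k).re := by
      calc (-m.im) * (X k).im ≤ (-m.im) * (fT κ A t u * (X k).re) :=
            mul_le_mul_of_nonneg_left h3 (by linarith)
        _ = (-m.im * fT κ A t u) * (X k).re := by ring
        _ ≤ 1 * (X k).re := mul_le_mul_of_nonneg_right hT hre.le
    nlinarith
  have hgood : ∀ k, (∀ j, 1 ≤ j → j ≤ k → 0 < (X j).im) → Good (bits z) (n + 1 + k) z := by
    intro k
    induction k with
    | zero =>
      intro h0
      refine hg.succ ?_
      have := fan_state hm 0 (fun j hj hj' => by omega)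
      rw [add_zero] at this
      rw [this.1, this.2.1]
      exact hedge 0 h0
    | succ k ih =>
      intro hk
      have h1 := ih fun j hj hj' => hk j hj (by omega)
      rw [← add_assoc]
      refine h1.succ ?_
      have := fan_state hm (k + 1) hk
      rw [← add_assoc] at this
      rw [this.1, this.2.1]
      exact hedge (k + 1) hk
  by_cases hall : ∀ j, 1 ≤ j → 0 < (X j).im
  · left
    intro k
    exact (hgood k fun j hj _ => hall j hj).mono (by omega)
  · push Not at hall
    obtain ⟨j, ⟨hj1, hj2⟩, hmin⟩ : ∃ j, (1 ≤ j ∧ (X j).im ≤ 0) ∧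
        ∀ k, k < j → ¬ (1 ≤ k ∧ (X k).im ≤ 0) := by
      classical
      exact ⟨Nat.find hall, Nat.find_spec hall, fun k hk => Nat.find_min hall hk⟩
    have hjJ : J < j := by
      by_contra hcon
      push Not at hcon
      linarith [hpos j hj1 hcon]
    obtain ⟨k, rfl⟩ : ∃ k, j = k + 1 := ⟨j - 1, by omega⟩
    have hk : ∀ i, 1 ≤ i → i ≤ k → 0 < (X i).im := by
      intro i hi hi'
      have := hmin i (by omega)
      push Not at this
      exact this hi
    have hk' : ∀ i, i ≤ k → 0 < (X i).im := by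
      intro i hi
      rcases Nat.eq_zero_or_pos i with h | h
      · rw [h]; exact hX0
      · exact hk i h hi
    obtain ⟨s1, s2, -, -, s5⟩ := hf.main k hk'
    obtain ⟨e1, e2, e3⟩ := fan_state hm k hk
    have hgk := hgood k hk
    have hrk : 10 + B ≤ (X k).re := by
      refine hJ.trans (le_trans ?_ s1)
      refine mul_le_mul_of_nonneg_left ?_ hf.hu.le
      exact pow_le_pow_right₀ hκ.le (by omega)
    have hrk1 : 10 + B ≤ (X (k + 1)).re := by nlinarith
    rcases hj2.eq_or_lt with h0 | h0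
    · right
      refine ⟨n + 1 + k, hgk, ?_, ?_⟩
      · rw [e3]; exact h0
      · rw [e3]; linarith
    · -- tangents at the exit
      have hrk0 : 0 < (X k).re := by linarith
      have hrk10 : 0 < (X (k + 1)).re := by linarith
      have hA : -(X (k + 1) * conj (X k)).im =
          (X k).im * (X (k + 1)).re - (X (k + 1)).im * (X k).re := by
        simp only [Complex.mul_im, Complex.conj_re, Complex.conj_im]; ring
      rw [hA] at s5
      have hik := hk' k le_rfl
      have hkk : (X k).re ≤ (X (k + 1)).re := by nlinarith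
      have s6 : (X k).im * (X (k + 1)).re - (X (k + 1)).im * (X k).re ≤
          1 / 8 * (X k).re ^ 2 :=
        s5.trans (mul_le_mul_of_nonneg_right hE (by positivity))
      have hp1 : 0 ≤ -(X (k + 1)).im * (X k).re := mul_nonneg (by linarith) hrk0.le
      have hp2 : 0 ≤ (X k).im * (X (k + 1)).re := mul_nonneg hik.le hrk10.le
      have t1 : |(X k).im| ≤ 1 / 8 * (X k).re := by
        rw [abs_of_pos hik]
        have h1 : (X k).im * (X k).re ≤ (X k).im * (X (k + 1)).re :=
          mul_le_mul_of_nonneg_left hkk hik.le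
        have h2 : (X k).im * (X k).re ≤ (1 / 8 * (X k).re) * (X k).re := by nlinarith
        exact le_of_mul_le_mul_right h2 hrk0
      have t2 : |(X (k + 1)).im| ≤ 1 / 8 * (X (k + 1)).re := by
        rw [abs_of_neg h0]
        have h2 : -(X (k + 1)).im * (X k).re ≤ (1 / 8 * (X k).re) * (X k).re := by nlinarith
        have h3 := le_of_mul_le_mul_right h2 hrk0
        linarith
      have a1 := arg_le_of_tan hrk0 t1
      have a2 := arg_le_of_tan hrk10 t2
      have hb : bits z (n + 1 + k) = false := by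
        rw [bits_eq, e3]; exact decide_eq_false (not_le.mpr h0)
      have f1 : vx (bits z) (n + 1 + k + 1) z = X k := by rw [vx_f hb, e1]
      have f2 : vy (bits z) (n + 1 + k + 1) z = X (k + 1) := by rw [vy_f hb, e3]
      have f3 : vw (bits z) (n + 1 + k + 1) z = X k * X (k + 1) - m := by
        rw [vw_f hb, e3, e1, e2]
      have n1 : 10 + B ≤ ‖X k‖ := hrk.trans (Complex.re_le_norm _)
      have n2 : 10 + B ≤ ‖X (k + 1)‖ := hrk1.trans (Complex.re_le_norm _)
      have ap := arg_pos_of_im hik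
      have an : arg (X (k + 1)) < 0 := Complex.arg_neg_iff.mpr h0
      rw [abs_of_pos ap] at a1
      rw [abs_of_neg an] at a2
      have hπ := Real.pi_gt_three
      have hL : Large (vx (bits z) (n + 1 + k + 1) z) (vy (bits z) (n + 1 + k + 1) z)
          (vw (bits z) (n + 1 + k + 1) z) := by
        refine ⟨markoff_st _ _ _, ?_, ?_, ?_, ?_, ?_, ?_⟩
        · rw [f1]; linarith
        · rw [f2]; linarith
        · rw [f1, f2, f3, show X k * X (k + 1) - (X k * X (k + 1) - m) = m by ring]
          have h1 := norm_sub_norm_le (X k * X (k + 1)) m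
          rw [norm_mul] at h1
          nlinarith
        · rw [f1]; exact ap
        · rw [f2]; exact an
        · rw [f1, f2]; linarith
      have hTT : TT (vx (bits z) (n + 1 + k + 1) z) (vy (bits z) (n + 1 + k + 1) z) < 1 := by
        have := hL.tt_le
        rw [f1, f2] at this ⊢
        linarith
      have hgk1 : Good (bits z) (n + 1 + k + 1) z := hgk.succ hL.edge
      rcases large_cont hgk1 hL hTT with h | ⟨i, hi, -⟩
      · exact Or.inl h.1
      · exact Or.inr ⟨i, hi⟩

/-- Ends of a good edge, level `0` included. -/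
lemma signs_of_good {z : ℂ} (hz : z ∈ Q) {β : ℕ → Bool} {n : ℕ} (h : Good β n z) :
    0 < (vx β n z).re ∧ 0 < (vx β n z).im ∧ 0 < (vy β n z).re ∧ (vy β n z).im < 0 := by
  rcases Nat.eq_zero_or_pos n with rfl | hn
  · obtain ⟨h1, h2⟩ := hz
    refine ⟨h1, h2, ?_, ?_⟩
    · rw [vy_zero]; simp [h2]
    · rw [vy_zero]; simp [h1]
  · obtain ⟨h1, h2, h3, h4, -⟩ := h n hn le_rfl
    exact ⟨h1, h2, h3, h4⟩

lemma bits_near_of_good {z₀ : ℂ} {n : ℕ} (h : Good (bits z₀) n z₀) :
    ∀ᶠ z in 𝓝 z₀, ∀ k, k < n → bits z k = bits z₀ k := by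
  refine bits_near fun k hk h0 => ?_
  have e := h (k + 1) (by omega) (by omega)
  cases hb : bits z₀ k
  · have := e.2.2.2.1
    rw [vy_f hb, h0] at this
    exact lt_irrefl _ this
  · have := e.2.1
    rw [vx_t hb, h0] at this
    exact lt_irrefl _ this

/-- Openness at a stop, points whose mediant value has negative imaginary part. -/
theorem stop_open_left {z₀ : ℂ} (hz : z₀ ∈ Q) {n : ℕ} (h : End (bits z₀) n z₀)
    (h2 : 2 < (vw (bits z₀) n z₀).re) :
    ∀ᶠ z in 𝓝 z₀, (vw (bits z₀) n z).im < 0 → Inf (bits z) z ∨ ∃ m, End (bits z) m z := by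
  obtain ⟨hg, him, -⟩ := h
  set β := bits z₀ with hβ
  set B := (vw β n z₀).re with hB
  obtain ⟨sx, sx', sy, sy'⟩ := signs_of_good hz hg
  have hM := markoff_st β z₀ n
  set κ := (1 + B / 2) / 2 with hκd
  have hκ : 1 < κ := by rw [hκd]; linarith
  have hκB : κ < B / 2 := by rw [hκd]; linarith
  have hκ0 : 0 < κ := by linarith
  have hκi : 1 / κ < 1 := by rw [div_lt_one hκ0]; exact hκ
  have hr := real_fan_re hM him h2 sx sx' sy'
  set X : ℂ → ℕ → ℂ := fun z => fan (vx β n z) (vy β n z) (vw β n z) with hX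
  have cX : ∀ k, Continuous (fun z => X z k) := continuous_fan (cont_vx β n) (cont_vy β n)
    (cont_vw β n)
  have cm := cont_vw β n
  have cy := cont_vy β n
  set A := (vx β n z₀ * conj (vy β n z₀)).im + 1 with hA
  set t := (vx β n z₀).im / (vx β n z₀).re + 1 with ht
  set u := (vx β n z₀).re / 2 with hu
  have hu0 : 0 < u := by rw [hu]; linarith
  obtain ⟨J, hJ⟩ : ∃ J : ℕ, 10 + B ≤ u * κ ^ J := by
    obtain ⟨J, hJ⟩ := pow_unbounded_of_one_lt ((10 + B) / u) hκ
    refine ⟨J, ?_⟩
    rw [div_lt_iff₀ hu0] at hJ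
    linarith
  have ev1 := bits_near_of_good hg
  have ev2 : ∀ᶠ z in 𝓝 z₀, Good β n z := (good_open β n).mem_nhds hg
  have cre : ContinuousAt (fun z => (vw β n z).re) z₀ := (continuous_re.comp cm).continuousAt
  have cim : ContinuousAt (fun z => -(vw β n z).im) z₀ :=
    (continuous_im.comp cm).neg.continuousAt
  have ev3 : ∀ᶠ z in 𝓝 z₀, κ + 1 / κ < (vw β n z).re :=
    cre.eventually_const_lt (by change κ + 1 / κ < B; linarith)
  have ev4 : ∀ᶠ z in 𝓝 z₀, -(vw β n z).im * fT κ A t u < 1 :=
    (cim.mul continuousAt_const).eventually_lt_const (by simp [him])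
  have ev5 : ∀ᶠ z in 𝓝 z₀, -(vw β n z).im * fE κ A t u < 1 / 8 :=
    (cim.mul continuousAt_const).eventually_lt_const (by simp [him])
  have c0re : ContinuousAt (fun z => (X z 0).re) z₀ := (continuous_re.comp (cX 0)).continuousAt
  have c0im : ContinuousAt (fun z => (X z 0).im) z₀ := (continuous_im.comp (cX 0)).continuousAt
  have c1re : ContinuousAt (fun z => (X z 1).re) z₀ := (continuous_re.comp (cX 1)).continuousAt
  have ev6 : ∀ᶠ z in 𝓝 z₀, u < (X z 0).re := by
    refine c0re.eventually_const_lt ?_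
    change (vx β n z₀).re / 2 < (vx β n z₀).re
    linarith
  have ev7 : ∀ᶠ z in 𝓝 z₀, κ * (X z 0).re < (X z 1).re := by
    refine (continuousAt_const.mul c0re).eventually_lt c1re ?_
    refine lt_trans ?_ hr
    exact mul_lt_mul_of_pos_right hκB sx
  have cW : ContinuousAt (fun z => (X z 0 * conj (vy β n z)).im) z₀ :=
    (continuous_im.comp ((cX 0).mul (continuous_conj.comp cy))).continuousAt
  have hW : 0 < (X z₀ 0 * conj (vy β n z₀)).im := by
    change 0 < (vx β n z₀ * conj (vy β n z₀)).im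
    simp only [Complex.mul_im, Complex.conj_re, Complex.conj_im]
    nlinarith [mul_pos sx' sy]
  have ev8 : ∀ᶠ z in 𝓝 z₀, 0 < (X z 0 * conj (vy β n z)).im := cW.eventually_const_lt hW
  have ev9 : ∀ᶠ z in 𝓝 z₀, (X z 0 * conj (vy β n z)).im < A := by
    refine cW.eventually_lt_const ?_
    change (vx β n z₀ * conj (vy β n z₀)).im < A
    rw [hA]; linarith
  have ht0 : 0 ≤ t := by rw [ht]; positivity
  have ev10 : ∀ᶠ z in 𝓝 z₀, (X z 0).im < t * (X z 0).re := by
    refine c0im.eventually_lt (continuousAt_const.mul c0re) ?_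
    change (vx β n z₀).im < t * (vx β n z₀).re
    rw [ht, add_mul, div_mul_cancel₀ _ sx.ne']
    linarith
  have ev11 : ∀ᶠ z in 𝓝 z₀, ‖vw β n z‖ < B + 1 := by
    refine cm.continuousAt.norm.eventually_lt_const ?_
    have : vw β n z₀ = (B : ℂ) := by
      apply Complex.ext
      · rw [Complex.ofReal_re]
      · rw [Complex.ofReal_im, him]
    change ‖vw β n z₀‖ < B + 1
    rw [this, Complex.norm_real, Real.norm_eq_abs, abs_of_pos (by linarith)]
    linarith
  have ev12 : ∀ᶠ z in 𝓝 z₀, ∀ j ∈ Finset.range (J + 1), 0 < (X z j).im := by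
    rw [Filter.eventually_all_finset]
    intro j _
    exact (continuous_im.comp (cX j)).continuousAt.eventually_const_lt
      (real_fan_im him h2 sx' sy' j).1
  filter_upwards [ev1, ev2, ev3, ev4, ev5, ev6, ev7, ev8, ev9, ev10, ev11, ev12, isOpen_Q.mem_nhds hz]
    with z z1 z2 z3 z4 z5 z6 z7 z8 z9 z10 z11 z12 z13 hneg
  have hc : ∀ k, k < n → β k = bits z k := fun k hk => (z1 k hk).symm
  have ex : vx β n z = vx (bits z) n z := vx_congr hc
  have ey : vy β n z = vy (bits z) n z := vy_congr hc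
  have ew : vw β n z = vw (bits z) n z := vw_congr hc
  have eX : X z = fan (vx (bits z) n z) (vy (bits z) n z) (vw (bits z) n z) := by
    simp only [hX]; rw [ex, ey, ew]
  rw [eX] at z6 z7 z8 z9 z10 z12
  rw [ew] at z3 z4 z5 z11 hneg
  rw [ey] at z8 z9
  have hgz : Good (bits z) n z := good_congr hc z2
  have hsz := signs_of_good z13 hgz
  refine stop_det (κ := κ) (A := A) (t := t) (u := u) (B := B) h2 hgz hneg ?_ hsz.2.1 z4.le z5.le
    z11.le hJ ?_
  · exact ⟨rfl, fun k => rfl, hκ, z3.le, hneg.le, hu0, z6.le, z7.le, z8.le, z9.le, z10.le, ht0⟩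
  · intro j _ hj
    exact z12 j (Finset.mem_range.mpr (by omega))

/-! ### The mirror `z ↦ i z̄` -/

/-- The mirror image of a point. -/
noncomputable def mir (z : ℂ) : ℂ := I * conj z

lemma mir_mir (z : ℂ) : mir (mir z) = z := by
  unfold mir
  rw [map_mul, Complex.conj_I, Complex.conj_conj, ← mul_assoc, mul_neg, Complex.I_mul_I]
  ring

lemma continuous_mir : Continuous mir := continuous_const.mul continuous_conj

lemma mir_st (β : ℕ → Bool) (z : ℂ) (n : ℕ) :
    vx (fun k => !β k) n (mir z) = conj (vy β n z) ∧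
    vy (fun k => !β k) n (mir z) = conj (vx β n z) ∧
    vw (fun k => !β k) n (mir z) = conj (vw β n z) := by
  induction n with
  | zero =>
    refine ⟨?_, ?_, ?_⟩
    · rw [vx_zero, vy_zero]; simp [mir]
    · rw [vy_zero, vx_zero]; simp [mir, ← mul_assoc]
    · rw [vw_zero, vw_zero]; simp [mir, mul_pow, Complex.I_sq]
  | succ n ih =>
    obtain ⟨h1, h2, h3⟩ := ih
    cases hb : β n
    · have hb' : (fun k => !β k) n = true := by simp [hb]
      rw [vx_t (β := fun k => !β k) hb', vy_t (β := fun k => !β k) hb',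
        vw_t (β := fun k => !β k) hb', vx_f hb, vy_f hb, vw_f hb, h1, h2, h3, map_sub, map_mul]
      refine ⟨rfl, rfl, ?_⟩
      ring
    · have hb' : (fun k => !β k) n = false := by simp [hb]
      rw [vx_f (β := fun k => !β k) hb', vy_f (β := fun k => !β k) hb',
        vw_f (β := fun k => !β k) hb', vx_t hb, vy_t hb, vw_t hb, h1, h2, h3, map_sub, map_mul]
      refine ⟨rfl, rfl, ?_⟩
      ring

lemma edge_mir {x y : ℂ} (h : Edge x y) : Edge (conj y) (conj x) := by
  obtain ⟨h1, h2, h3, h4, h5⟩ := h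
  refine ⟨by simpa using h3, by simpa using h4, by simpa using h1, by simpa using h2, ?_⟩
  simp only [Complex.mul_re, Complex.conj_re, Complex.conj_im, Complex.conj_conj] at h5 ⊢
  linarith

lemma good_mir {β : ℕ → Bool} {n : ℕ} {z : ℂ} (h : Good β n z) :
    Good (fun k => !β k) n (mir z) := by
  intro k hk1 hk
  obtain ⟨e1, e2, -⟩ := mir_st β z k
  rw [e1, e2]
  exact edge_mir (h k hk1 hk)

lemma end_mir {β : ℕ → Bool} {n : ℕ} {z : ℂ} (h : End β n z) :
    End (fun k => !β k) n (mir z) := by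
  obtain ⟨h1, h2, h3⟩ := h
  obtain ⟨-, -, e3⟩ := mir_st β z n
  refine ⟨good_mir h1, ?_, ?_⟩
  · rw [e3, Complex.conj_im, h2, neg_zero]
  · rw [e3, Complex.conj_re]; exact h3

lemma inf_or_end_mir {z : ℂ} (h : Inf (bits z) z ∨ ∃ m, End (bits z) m z) :
    Inf (bits (mir z)) (mir z) ∨ ∃ m, End (bits (mir z)) m (mir z) := by
  rcases h with h | ⟨m, hm⟩
  · left
    have h1 : Inf (fun k => !bits z k) (mir z) := fun n => good_mir (h n)
    rw [← inf_bits h1]; exact h1
  · right
    exact ⟨m, end_bits (end_mir hm)⟩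

/-- **Openness at the stops.** -/
theorem stop_open {z₀ : ℂ} (hz : z₀ ∈ Q) {n : ℕ} (h : End (bits z₀) n z₀)
    (h2 : 2 < (vw (bits z₀) n z₀).re) :
    ∀ᶠ z in 𝓝 z₀, Inf (bits z) z ∨ ∃ m, End (bits z) m z := by
  have hl := stop_open_left hz h h2
  -- the mirror image
  have hzm : mir z₀ ∈ Q := by
    obtain ⟨h1, h3⟩ := hz
    constructor
    · simpa [mir] using h3
    · simpa [mir] using h1
  have hE := end_bits (end_mir h)
  have hcm : ∀ k, k < n → (fun k => !bits z₀ k) k = bits (mir z₀) k := good_bits (end_mir h).1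
  have hvw : ∀ z, vw (bits (mir z₀)) n (mir z) = conj (vw (bits z₀) n z) := fun z => by
    rw [← vw_congr (z := mir z) hcm]; exact (mir_st (bits z₀) z n).2.2
  have h2m : 2 < (vw (bits (mir z₀)) n (mir z₀)).re := by
    rw [hvw, Complex.conj_re]; exact h2
  have hr := stop_open_left hzm hE h2m
  have hr' : ∀ᶠ z in 𝓝 z₀, (vw (bits (mir z₀)) n (mir z)).im < 0 →
      Inf (bits (mir z)) (mir z) ∨ ∃ m, End (bits (mir z)) m (mir z) :=
    continuous_mir.continuousAt.eventually hr
  have hg : ∀ᶠ z in 𝓝 z₀, Good (bits z₀) n z := (good_open (bits z₀) n).mem_nhds h.1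
  have hre : ∀ᶠ z in 𝓝 z₀, 0 < (vw (bits z₀) n z).re :=
    (continuous_re.comp (cont_vw (bits z₀) n)).continuousAt.eventually_const_lt
      (by change 0 < (vw (bits z₀) n z₀).re; linarith)
  filter_upwards [hl, hr', hg, hre] with z z1 z2 z3 z4
  rcases lt_trichotomy (vw (bits z₀) n z).im 0 with h0 | h0 | h0
  · exact z1 h0
  · exact Or.inr ⟨n, end_bits ⟨z3, h0, z4⟩⟩
  · have h3 := z2 (by rw [hvw, Complex.conj_im]; linarith)
    have := inf_or_end_mir h3
    rwa [mir_mir] at this

end Pool.Agent.Loc
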