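import Pool.Agent.Loc.Lnk
import Pool.Agent.Loc.GroD
import Pool.Agent.Loc.StpB
import Pool.Agent.Loc.Clo
import Pool.Agent.NoH.Top

set_option autoImplicit false

/-!
# Loc: every point of the closure of `U` in the open quadrant has a good path (helper79)
-/

namespace Pool.Agent.Loc

open Complex Pool.Agent.FZC Filter Topology

theorem sq_length (β : ℕ → Bool) (n : ℕ) :
    n + 2 ≤ ((sq β n).1.2 ++ (sq β n).2.2).length := by
  induction n with
  | zero => simp [sq]
  | succ n ih =>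
    have h1 := List.length_pos_iff.2 (sq_unit β n).1.2
    have h2 := List.length_pos_iff.2 (sq_unit β n).2.2
    rw [List.length_append] at ih ⊢
    cases hb : β n
    · simp only [sq, hb, List.length_append]
      simp only [Bool.false_eq_true, if_false, List.length_append]
      omega
    · simp only [sq, hb, if_true, List.length_append]
      omega

/-- Every mediant value is a unit times a value of some `P v`, with `v` long. -/
theorem vw_eq_P_len (β : ℕ → Bool) (n : ℕ) : ∃ (v : List Bool) (u : ℂ), n ≤ v.length ∧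
    ‖u‖ = 1 ∧ ∀ z, vw β n z = u * (P v).eval z := by
  have hL : ∃ a v b, (sq β n).1.2 ++ (sq β n).2.2 = a :: (v ++ [b]) := by
    rcases list_cases (L := (sq β n).1.2 ++ (sq β n).2.2) (by simp [(sq_unit β n).1.2]) with
      ⟨b, hb⟩ | h
    · exfalso
      have h3 := sq_length β n
      rw [hb, List.length_singleton] at h3
      omega
    · exact h
  obtain ⟨a, v, b, hb⟩ := hL
  have hu := (sq_unit β n).1.1.mul (sq_unit β n).2.1
  have hlen := sq_length β n
  rw [hb] at hlen
  simp only [List.length_cons, List.length_append, List.length_nil] at hlen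
  exact ⟨v, _, by omega, hu.1, of_ne_zero (continuous_state β n).2.2
    (continuous_const.mul (P v).continuous)
    (((Vl_w β n).eq_P (sq_eq_w · β n)).2 a v b hb)⟩

/-- On `U` the mediant values tend to infinity. -/
theorem vw_large {z : ℂ} (hz : z ∈ U) (β : ℕ → Bool) (C : ℝ) : ∃ N, ∀ n, N ≤ n → C < ‖vw β n z‖ := by
  obtain ⟨κ, c, hκ, hc, h⟩ := FZR.Gr_of_not_mem (show z ∉ Sig from hz)
  have h1 : Tendsto (fun n : ℕ => c * κ ^ n) atTop atTop :=
    (tendsto_pow_atTop_atTop_of_one_lt hκ).const_mul_atTop hc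
  obtain ⟨N, hN⟩ := (h1.eventually_gt_atTop C).exists_forall_of_atTop
  refine ⟨N, fun n hn => ?_⟩
  obtain ⟨v, u, hv, hu, he⟩ := vw_eq_P_len β n
  rw [he, norm_mul, hu, one_mul]
  refine lt_of_lt_of_le (hN v.length (by omega)) (h v)

/-- Infinite good paths grow on `U`. -/
theorem grow_of_mem {z : ℂ} (hz : z ∈ Q) (hU : z ∈ U) {β : ℕ → Bool} (h : Inf β z) :
    Grow β z := by
  by_contra hg
  obtain ⟨N, hN⟩ := vw_large hU β 2
  obtain ⟨n, hn, hh⟩ := not_const hz (low (subset_closure hU)) h N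
  have h1 := hN n hn
  have h2 := hN (n + 1) (by omega)
  have key : 2 < ‖vx β (n + 2) z‖ ∧ 2 < ‖vy β (n + 2) z‖ := by
    unfold Hinge at hh
    cases hb : β n
    · have hb' : β (n + 1) = true := by
        rw [hb] at hh
        simpa using hh.symm
      rw [show n + 2 = n + 1 + 1 from rfl, vx_t hb', vy_t hb', vy_f hb]
      exact ⟨h2, h1⟩
    · have hb' : β (n + 1) = false := by
        rw [hb] at hh
        simpa using hh.symm
      rw [show n + 2 = n + 1 + 1 from rfl, vx_f hb', vy_f hb', vx_t hb]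
      exact ⟨h1, h2⟩
  rcases small_end_of_not_grow hg (n + 2) with h3 | h3
  · linarith [key.1]
  · linarith [key.2]

theorem isOpen_U : IsOpen U := FZR.isClosed_Sig.isOpen_compl

/-- Good points of `U` are interior. -/
theorem gd_open {z : ℂ} (hz : z ∈ Q) (hU : z ∈ U) (h : Gd z) : ∀ᶠ z' in 𝓝 z, Gd z' := by
  rcases h with h | ⟨n, h⟩
  · obtain ⟨r, hr, hb⟩ := grow_open hz (low (subset_closure hU)) h (grow_of_mem hz hU h)
    filter_upwards [Metric.ball_mem_nhds z hr] with z' hz'
    rcases (hb z' hz').2 with h' | ⟨n, h', -⟩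
    · exact Or.inl h'.1
    · exact Or.inr ⟨n, h'⟩
  · have h2 : 2 < (vw (bits z) n z).re := by
      have := real_gt hU (β := bits z) (n := n) h.2.1
      rwa [abs_of_pos h.2.2] at this
    exact stop_open hz h h2

theorem gd_start : ∃ z : ℂ, z ∈ U ∧ z ∈ Q ∧ Gd z := by
  refine ⟨3 + 3 * I, ?_, ⟨by simp, by simp⟩, Or.inr ⟨0, good_zero _ _, ?_, ?_⟩⟩
  · refine NoH.far_not_mem _ ?_
    have h1 : ((3 + 3 * I : ℂ)).re ≤ ‖(3 + 3 * I : ℂ)‖ := Complex.re_le_norm _
    have h2 : ((3 + 3 * I : ℂ)).re = 3 := by simp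
    rw [h2] at h1
    linarith
  · rw [vw_zero_im]; simp
  · simp [pow_two]

theorem path_exists_of (hconn : IsPreconnected (U ∩ Q)) {z : ℂ} (hz : z ∈ Q)
    (hU : z ∈ closure U) : Inf (bits z) z ∨ ∃ n, End (bits z) n z := by
  set A : Set ℂ := {z | (z ∈ U ∧ z ∈ Q) ∧ Gd z} with hA
  have hAo : IsOpen A := by
    rw [isOpen_iff_mem_nhds]
    rintro w ⟨⟨w1, w2⟩, w3⟩
    filter_upwards [isOpen_U.mem_nhds w1, isOpen_Q.mem_nhds w2, gd_open w2 w1 w3] with v v1 v2 v3
    exact ⟨⟨v1, v2⟩, v3⟩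
  have hsub : U ∩ Q ⊆ A := by
    refine hconn.subset_of_closure_inter_subset hAo ?_ ?_
    · obtain ⟨w, w1, w2, w3⟩ := gd_start
      exact ⟨w, ⟨w1, w2⟩, ⟨w1, w2⟩, w3⟩
    · rintro w ⟨w0, w1, w2⟩
      refine ⟨⟨w1, w2⟩, closed_gd w2 (low (subset_closure w1)) ?_⟩
      exact closure_mono (fun v hv => hv.2) w0
  refine closed_gd hz (low hU) ?_
  have h1 : z ∈ closure (U ∩ Q) := by
    rw [Set.inter_comm]
    exact isOpen_Q.inter_closure ⟨hz, hU⟩
  exact closure_mono (fun v hv => (hsub hv).2) h1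

end Pool.Agent.Loc
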