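import Pool.Agent.Loc.WrD

/-!
# Loc: words, centres, closure facts. All statements are proved in `WrA` - `WrD` and `Lnk`.
-/
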