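import Pool.Agent.Loc.Bas
import Pool.Agent.Loc.Wrd

set_option autoImplicit false

/-!
# Loc: ray points, involutions, the empty half plane (helper74, text part345 3.0 - 3.4)
-/

namespace Pool.Agent.Loc

open Complex Pool.Agent.FZC Metric Filter Topology

/-- `z` is a ray point of the first `n` bits of `β`: good path, real end value `> 2`. -/
structure RP (β : ℕ → Bool) (n : ℕ) (z : ℂ) : Prop where
  q : z ∈ Q
  e : End β n z
  g : 2 < (vw β n z).re

/-- The height of the line through the centre of the mediant. -/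
noncomputable def ht (β : ℕ → Bool) (n : ℕ) (z : ℂ) : ℝ := (cn z (ww β n)).im

/-- The half plane above this line contains no centre. -/
def Emp (β : ℕ → Bool) (n : ℕ) (z : ℂ) : Prop := ∀ g, Prp g → (cn z g).im ≤ ht β n z

/-- The Möbius map of a matrix. -/
noncomputable def mob (M : Matrix (Fin 2) (Fin 2) ℂ) (W : ℂ) : ℂ :=
  (M 0 0 * W + M 0 1) / (M 1 0 * W + M 1 1)

/-- Upper fixed points of the involutions of the left end, the right end and the mediant. -/
noncomputable def fl (β : ℕ → Bool) (n : ℕ) (z : ℂ) : ℂ := cn z (wl β n) + I / vx β n z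

noncomputable def fr (β : ℕ → Bool) (n : ℕ) (z : ℂ) : ℂ := cn z (wr β n) + I / vy β n z

noncomputable def fw (β : ℕ → Bool) (n : ℕ) (z : ℂ) : ℂ := cn z (ww β n) + I / vw β n z

/-- All values up to level `n` are different from `0`. -/
def NZ (β : ℕ → Bool) (n : ℕ) (z : ℂ) : Prop :=
  z ≠ 0 ∧ ∀ k ≤ n, vx β k z ≠ 0 ∧ vy β k z ≠ 0 ∧ vw β k z ≠ 0

/- MODULE ra -/
private theorem ra_x {β : ℕ → Bool} {n k : ℕ} {z : ℂ} (hz : z ∈ Q) (h : Good β n z) (hk : k ≤ n) :
    0 < (vx β k z).re ∧ 0 < (vx β k z).im := by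
  rcases Nat.eq_zero_or_pos k with h0 | h0
  · subst h0; exact hz
  · exact ⟨(h k h0 hk).1, (h k h0 hk).2.1⟩

private theorem ra_y {β : ℕ → Bool} {n k : ℕ} {z : ℂ} (hz : z ∈ Q) (h : Good β n z) (hk : k ≤ n) :
    0 < (vy β k z).re ∧ (vy β k z).im < 0 := by
  rcases Nat.eq_zero_or_pos k with h0 | h0
  · subst h0
    change 0 < (-I * z).re ∧ (-I * z).im < 0
    obtain ⟨h1, h2⟩ := hz
    constructor
    · simpa using h2
    · simpa using h1
  · exact ⟨(h k h0 hk).2.2.1, (h k h0 hk).2.2.2.1⟩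

private theorem ra_ne {w : ℂ} (h : 0 < w.re) : w ≠ 0 := fun h0 => by rw [h0] at h; simp at h

theorem RP.nz {β : ℕ → Bool} {n : ℕ} {z : ℂ} (h : RP β n z) : NZ β n z := by
  refine ⟨ra_ne h.q.1, fun k hk => ⟨ra_ne (ra_x h.q h.e.1 hk).1, ra_ne (ra_y h.q h.e.1 hk).1, ?_⟩⟩
  rcases hk.lt_or_eq with h1 | h1
  · have h2 := h.e.1 (k + 1) (by omega) (by omega)
    cases hb : β k with
    | true => have := h2.1; rw [vx_t hb] at this; exact ra_ne this
    | false => have := h2.2.2.1; rw [vy_f hb] at this; exact ra_ne this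
  · subst h1; exact ra_ne h.e.2.2

/-- On the last edge (level `0` included) the left end is in the open first quadrant, the right end
in the open fourth quadrant and the angle is in `(0, π)`. -/
theorem RP.edge {β : ℕ → Bool} {n : ℕ} {z : ℂ} (h : RP β n z) :
    0 < (vx β n z).re ∧ 0 < (vx β n z).im ∧ 0 < (vy β n z).re ∧ (vy β n z).im < 0 ∧
      0 < (vx β n z * (starRingEnd ℂ) (vy β n z)).im ∧
      vw β n z = ((vw β n z).re : ℂ) := by
  obtain ⟨a1, a2⟩ := ra_x h.q h.e.1 le_rfl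
  obtain ⟨b1, b2⟩ := ra_y h.q h.e.1 le_rfl
  refine ⟨a1, a2, b1, b2, ?_, ?_⟩
  · rw [Complex.mul_im, Complex.conj_re, Complex.conj_im]
    have := mul_pos a2 b1
    have := mul_neg_of_pos_of_neg a1 b2
    linarith
  · apply Complex.ext
    · simp
    · simp [h.e.2.1]

/- MODULE rb -/
/-- `mob M W = d - 1 / (V² (W - d))` for a matrix of trace `0`, determinant `1`, lower left entry
`V ≠ 0`, `d = M 0 0 / V`. -/
theorem mob_inv {M : Matrix (Fin 2) (Fin 2) ℂ} (ht : M 0 0 + M 1 1 = 0) (hd : M.det = 1)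
    (hV : M 1 0 ≠ 0) {W : ℂ} (hW : W ≠ M 0 0 / M 1 0) :
    M 1 0 * W + M 1 1 ≠ 0 ∧
    mob M W = M 0 0 / M 1 0 - 1 / (M 1 0 ^ 2 * (W - M 0 0 / M 1 0)) := by
  have h11 : M 1 1 = - M 0 0 := by linear_combination ht
  rw [Matrix.det_fin_two, h11] at hd
  have hden : M 1 0 * W + M 1 1 = M 1 0 * (W - M 0 0 / M 1 0) := by
    rw [h11]; field_simp; ring
  have hW' : W - M 0 0 / M 1 0 ≠ 0 := sub_ne_zero.mpr hW
  have hden0 : M 1 0 * W + M 1 1 ≠ 0 := by rw [hden]; exact mul_ne_zero hV hW'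
  refine ⟨hden0, ?_⟩
  unfold mob
  rw [hden]
  have h01 : M 0 1 = -(1 + M 0 0 ^ 2) / M 1 0 := by
    field_simp
    linear_combination -hd
  rw [h01]
  set δ := W - M 0 0 / M 1 0 with hδ
  have hWe : W = δ + M 0 0 / M 1 0 := by rw [hδ]; ring
  rw [hWe]
  field_simp
  ring

/-- The centres at a level. -/
theorem cn_rel {β : ℕ → Bool} {n : ℕ} {z : ℂ} (hz : z ≠ 0) (hx : vx β n z ≠ 0)
    (hy : vy β n z ≠ 0) (hw : vw β n z ≠ 0) :
    cn z (ww β n) = cn z (wl β n) - vy β n z / (vx β n z * vw β n z) ∧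
    cn z (ww β n) = cn z (wr β n) + vx β n z / (vy β n z * vw β n z) := by
  obtain ⟨l1, l2⟩ := wl_eq hz β n
  obtain ⟨r1, r2⟩ := wr_eq hz β n
  obtain ⟨w1, w2⟩ := ww_eq hz β n
  have ld := MM_det hz (wl β n)
  have rd := MM_det hz (wr β n)
  rw [Matrix.det_fin_two] at ld rd
  have hww : MM z (ww β n) = MM z (wl β n) * (lm z .T * MM z (wr β n)) := by
    rw [ww, MM_append, MM_cons]
  unfold cn
  rw [w1, l1, r1]
  rw [hww] at w1 w2 ⊢
  simp only [lm, Matrix.mul_apply, Fin.sum_univ_two, Matrix.of_apply, Matrix.cons_val', Matrix.cons_val_zero,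
    Matrix.cons_val_one, Matrix.cons_val_fin_one] at w1 w2 ⊢
  rw [l1] at w1 w2 ld
  rw [r1] at w1 w2 rd
  rw [r1]
  revert l2 r2 w1 w2 ld rd hx hy hw
  generalize vx β n z = x
  generalize vy β n z = y
  generalize vw β n z = w
  generalize MM z (wl β n) 0 0 = a
  generalize MM z (wl β n) 0 1 = b
  generalize MM z (wl β n) 1 1 = a'
  generalize MM z (wr β n) 0 0 = c
  generalize MM z (wr β n) 0 1 = d
  generalize MM z (wr β n) 1 1 = c'
  intro hx hy hw l2 r2 ld rd w1 w2
  have e1 : a' = -a := by linear_combination l2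
  have e2 : c' = -c := by linear_combination r2
  subst e1 e2
  have key : a * (1 * c + 1 * y) + b * (0 * c + 1 * y) = -(x * d - x * c + a * c) := by
    linear_combination w2
  constructor
  · rw [div_sub_div _ _ hx (mul_ne_zero hx hw), div_eq_div_iff hw (mul_ne_zero hx (mul_ne_zero hx hw))]
    have h3 : w = x * (c + y) - a * y := by linear_combination -w1
    rw [h3]
    linear_combination -(x * (x * (c + y) - a * y) * y) * ld
  · rw [key, div_add_div _ _ hy (mul_ne_zero hy hw), div_eq_div_iff hw (mul_ne_zero hy (mul_ne_zero hy hw))]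
    have h3 : w = x * (c + y) - a * y := by linear_combination -w1
    rw [h3]
    linear_combination (y * (x * (c + y) - a * y) * x) * rd

/- MODULE rc -/
private theorem rc_fix {M : Matrix (Fin 2) (Fin 2) ℂ} (ht : M 0 0 + M 1 1 = 0) (hd : M.det = 1)
    (hV : M 1 0 ≠ 0) :
    M 1 0 * (M 0 0 / M 1 0 + I / M 1 0) + M 1 1 ≠ 0 ∧
      mob M (M 0 0 / M 1 0 + I / M 1 0) = M 0 0 / M 1 0 + I / M 1 0 := by
  have h11 : M 1 1 = - M 0 0 := by linear_combination ht
  rw [Matrix.det_fin_two, h11] at hd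
  have hden : M 1 0 * (M 0 0 / M 1 0 + I / M 1 0) + M 1 1 = I := by
    rw [h11]; field_simp; ring
  refine ⟨by rw [hden]; exact I_ne_zero, ?_⟩
  unfold mob
  rw [hden]
  have hI : I ^ 2 = -1 := I_sq
  rw [div_eq_iff I_ne_zero]
  field_simp
  linear_combination -hd - hI
/-- The involutions fix their points. -/
theorem mob_fl {β : ℕ → Bool} {n : ℕ} {z : ℂ} (hz : z ≠ 0) (hx : vx β n z ≠ 0) :
    MM z (wl β n) 1 0 * fl β n z + MM z (wl β n) 1 1 ≠ 0 ∧
    mob (MM z (wl β n)) (fl β n z) = fl β n z := by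
  obtain ⟨e1, e2⟩ := wl_eq hz β n
  have := rc_fix e2 (MM_det hz (wl β n)) (by rw [e1]; exact hx)
  unfold fl cn
  rw [← e1]
  exact this

theorem mob_fr {β : ℕ → Bool} {n : ℕ} {z : ℂ} (hz : z ≠ 0) (hy : vy β n z ≠ 0) :
    MM z (wr β n) 1 0 * fr β n z + MM z (wr β n) 1 1 ≠ 0 ∧
    mob (MM z (wr β n)) (fr β n z) = fr β n z := by
  obtain ⟨e1, e2⟩ := wr_eq hz β n
  have := rc_fix e2 (MM_det hz (wr β n)) (by rw [e1]; exact hy)
  unfold fr cn
  rw [← e1]
  exact this

theorem mob_fw {β : ℕ → Bool} {n : ℕ} {z : ℂ} (hz : z ≠ 0) (hw : vw β n z ≠ 0) :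
    MM z (ww β n) 1 0 * fw β n z + MM z (ww β n) 1 1 ≠ 0 ∧
    mob (MM z (ww β n)) (fw β n z) = fw β n z := by
  obtain ⟨e1, e2⟩ := ww_eq hz β n
  have := rc_fix e2 (MM_det hz (ww β n)) (by rw [e1]; exact hw)
  unfold fw cn
  rw [← e1]
  exact this

/- MODULE rd : the flips, (3.2) -/
private theorem rd_key {G M R : Matrix (Fin 2) (Fin 2) ℂ} (hMt : M 0 0 + M 1 1 = 0)
    (hMd : M.det = 1) (hM : M 1 0 ≠ 0) (hRt : R 0 0 + R 1 1 = 0) (hR : R 1 0 ≠ 0)
    (hG : G.det ≠ 0) (h : G * M = R * G) :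
    G 1 0 * (M 0 0 / M 1 0 + I / M 1 0) + G 1 1 ≠ 0 ∧
    mob G (M 0 0 / M 1 0 + I / M 1 0) = R 0 0 / R 1 0 + I / R 1 0 := by
  obtain ⟨f, hf⟩ : ∃ f, f = M 0 0 / M 1 0 + I / M 1 0 := ⟨_, rfl⟩
  rw [← hf]
  have hf1 : M 1 0 * f = M 0 0 + I := by rw [hf]; field_simp
  have hM11 : M 1 1 = - M 0 0 := by linear_combination hMt
  have hR11 : R 1 1 = - R 0 0 := by linear_combination hRt
  have hdet : M 0 0 * M 1 1 - M 0 1 * M 1 0 = 1 := by rw [← Matrix.det_fin_two]; exact hMd
  have hu0 : M 0 0 * f + M 0 1 = I * f := by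
    have h1 : M 1 0 * (M 0 0 * f + M 0 1) = M 1 0 * (I * f) := by
      linear_combination (M 0 0 - I) * hf1 - hdet + M 0 0 * hM11 - I_sq
    exact mul_left_cancel₀ hM h1
  have h10 : G 1 0 * M 0 0 + G 1 1 * M 1 0 = R 1 0 * G 0 0 + R 1 1 * G 1 0 := by
    have := congrFun (congrFun h 1) 0
    simpa [Matrix.mul_apply, Fin.sum_univ_two] using this
  have h11 : G 1 0 * M 0 1 + G 1 1 * M 1 1 = R 1 0 * G 0 1 + R 1 1 * G 1 1 := by
    have := congrFun (congrFun h 1) 1
    simpa [Matrix.mul_apply, Fin.sum_univ_two] using this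
  have key : R 1 0 * (G 0 0 * f + G 0 1) = (R 0 0 + I) * (G 1 0 * f + G 1 1) := by
    linear_combination (-f) * h10 - h11 + G 1 0 * hu0 + G 1 1 * hf1 + G 1 1 * hM11 +
      (-(G 1 0 * f) - G 1 1) * hR11
  have hq : G 1 0 * f + G 1 1 ≠ 0 := by
    intro hq
    rw [hq, mul_zero] at key
    have hp : G 0 0 * f + G 0 1 = 0 := by
      rcases mul_eq_zero.1 key with h1 | h1
      · exact absurd h1 hR
      · exact h1
    apply hG
    rw [Matrix.det_fin_two]
    linear_combination G 0 0 * hq - G 1 0 * hp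
  refine ⟨hq, ?_⟩
  unfold mob
  rw [← add_div, div_eq_div_iff hq hR]
  linear_combination key

private theorem rd_sq {M : Matrix (Fin 2) (Fin 2) ℂ} (hMt : M 0 0 + M 1 1 = 0)
    (hMd : M.det = 1) : M * M = -1 := by
  have hM11 : M 1 1 = - M 0 0 := by linear_combination hMt
  have hdet : M 0 0 * M 1 1 - M 0 1 * M 1 0 = 1 := by rw [← Matrix.det_fin_two]; exact hMd
  have e00 : (M * M) 0 0 = (-1 : Matrix (Fin 2) (Fin 2) ℂ) 0 0 := by
    simp only [Matrix.mul_apply, Fin.sum_univ_two, Matrix.neg_apply, Matrix.one_apply_eq]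
    linear_combination - hdet + M 0 0 * hM11
  have e01 : (M * M) 0 1 = (-1 : Matrix (Fin 2) (Fin 2) ℂ) 0 1 := by
    simp only [Matrix.mul_apply, Fin.sum_univ_two, Matrix.neg_apply,
      Matrix.one_apply_ne (show (0 : Fin 2) ≠ 1 by decide)]
    linear_combination M 0 1 * hM11
  have e10 : (M * M) 1 0 = (-1 : Matrix (Fin 2) (Fin 2) ℂ) 1 0 := by
    simp only [Matrix.mul_apply, Fin.sum_univ_two, Matrix.neg_apply,
      Matrix.one_apply_ne (show (1 : Fin 2) ≠ 0 by decide)]
    linear_combination M 1 0 * hM11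
  have e11 : (M * M) 1 1 = (-1 : Matrix (Fin 2) (Fin 2) ℂ) 1 1 := by
    simp only [Matrix.mul_apply, Fin.sum_univ_two, Matrix.neg_apply, Matrix.one_apply_eq]
    linear_combination - hdet + M 1 1 * hM11
  ext i j
  fin_cases i <;> fin_cases j
  · exact e00
  · exact e01
  · exact e10
  · exact e11

/-- the matrices of the left end, the right end and the mediant -/
private theorem rd_W (z : ℂ) (β : ℕ → Bool) (k : ℕ) :
    MM z (ww β k) = MM z (wl β k) * (lm z .T * MM z (wr β k)) := by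
  unfold ww
  rw [MM_append, MM_cons]

private theorem rd_wf {β : ℕ → Bool} {k : ℕ} (hb : β k = false) :
    wl β (k + 1) = wl β k ∧ wr β (k + 1) = ww β k := by
  constructor <;> simp [wl, wr, ww, wp, hb]

private theorem rd_wt {β : ℕ → Bool} {k : ℕ} (hb : β k = true) :
    wl β (k + 1) = ww β k ∧ wr β (k + 1) = wr β k := by
  constructor <;> simp [wl, wr, ww, wp, hb]

private theorem rd_TS (z : ℂ) : lm z .T * lm z .S = 1 ∧ lm z .S * lm z .T = 1 := by
  constructor <;> simp [lm, Matrix.one_fin_two]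

private theorem rd_STL (z : ℂ) (L : Matrix (Fin 2) (Fin 2) ℂ) :
    (lm z .S * L * lm z .T) 0 0 = L 0 0 - L 1 0 ∧ (lm z .S * L * lm z .T) 1 0 = L 1 0 ∧
      (lm z .S * L * lm z .T) 1 1 = L 1 0 + L 1 1 := by
  have a00 : lm z .S 0 0 = 1 := rfl
  have a01 : lm z .S 0 1 = -1 := rfl
  have a10 : lm z .S 1 0 = 0 := rfl
  have a11 : lm z .S 1 1 = 1 := rfl
  have b00 : lm z .T 0 0 = 1 := rfl
  have b01 : lm z .T 0 1 = 1 := rfl
  have b10 : lm z .T 1 0 = 0 := rfl
  have b11 : lm z .T 1 1 = 1 := rfl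
  refine ⟨?_, ?_, ?_⟩
  · rw [Matrix.mul_apply, Fin.sum_univ_two, Matrix.mul_apply, Matrix.mul_apply,
      Fin.sum_univ_two, Fin.sum_univ_two, a00, a01, b00, b10]
    ring
  · rw [Matrix.mul_apply, Fin.sum_univ_two, Matrix.mul_apply, Matrix.mul_apply,
      Fin.sum_univ_two, Fin.sum_univ_two, a10, a11, b00, b10]
    ring
  · rw [Matrix.mul_apply, Fin.sum_univ_two, Matrix.mul_apply, Matrix.mul_apply,
      Fin.sum_univ_two, Fin.sum_univ_two, a10, a11, b01, b11]
    ring

private theorem rd_detne {z : ℂ} (hz : z ≠ 0) (g : List Lt) : (MM z g).det ≠ 0 := by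
  rw [MM_det hz]
  exact one_ne_zero

/-- Bit `false`: the next edge is `(l, w)`; `m` its mediant. -/
theorem flip_false {β : ℕ → Bool} {k : ℕ} {z : ℂ} (h : NZ β (k + 1) z) (hb : β k = false) :
    fl β (k + 1) z = fl β k z ∧ fr β (k + 1) z = fw β k z ∧
    (MM z (ww β k) 1 0 * fw β (k + 1) z + MM z (ww β k) 1 1 ≠ 0 ∧
      mob (MM z (ww β k)) (fw β (k + 1) z) = fr β k z) ∧
    (MM z (.S :: wl β k) 1 0 * fw β (k + 1) z + MM z (.S :: wl β k) 1 1 ≠ 0 ∧
      mob (MM z (.S :: wl β k)) (fw β (k + 1) z) = fr β k z) ∧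
    (MM z (.S :: wl β k) 1 0 * fl β (k + 1) z + MM z (.S :: wl β k) 1 1 ≠ 0 ∧
      mob (MM z (.S :: wl β k)) (fl β (k + 1) z) = fl β k z - 1) ∧
    (MM z (ww β k) 1 0 * fr β (k + 1) z + MM z (ww β k) 1 1 ≠ 0 ∧
      mob (MM z (ww β k)) (fr β (k + 1) z) = fw β k z) := by
  obtain ⟨hz, hn⟩ := h
  obtain ⟨hx, hy, hw⟩ := hn k (by omega)
  obtain ⟨hx1, hy1, hw1⟩ := hn (k + 1) le_rfl
  obtain ⟨e1, e2⟩ := rd_wf hb
  obtain ⟨l1, l2⟩ := wl_eq hz β k
  obtain ⟨r1, r2⟩ := wr_eq hz β k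
  obtain ⟨w1, w2⟩ := ww_eq hz β k
  obtain ⟨m1, m2⟩ := ww_eq hz β (k + 1)
  have f1 : fl β (k + 1) z = fl β k z := by
    unfold fl
    rw [e1, vx_f hb]
  have f2 : fr β (k + 1) z = fw β k z := by
    unfold fr fw
    rw [e2, vy_f hb]
  have L2 := rd_sq l2 (MM_det hz _)
  have R2 := rd_sq r2 (MM_det hz _)
  have W2 := rd_sq w2 (MM_det hz _)
  have hW := rd_W z β k
  have hM : MM z (ww β (k + 1)) = MM z (wl β k) * (lm z .T * MM z (ww β k)) := by
    rw [rd_W z β (k + 1), e1, e2]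
  obtain ⟨T1, T2⟩ := rd_TS z
  have efl : fl β k z = MM z (wl β k) 0 0 / MM z (wl β k) 1 0 + I / MM z (wl β k) 1 0 := by
    unfold fl cn
    rw [l1]
  have efr : fr β k z = MM z (wr β k) 0 0 / MM z (wr β k) 1 0 + I / MM z (wr β k) 1 0 := by
    unfold fr cn
    rw [r1]
  have efw : fw β k z = MM z (ww β k) 0 0 / MM z (ww β k) 1 0 + I / MM z (ww β k) 1 0 := by
    unfold fw cn
    rw [w1]
  have efm : fw β (k + 1) z = MM z (ww β (k + 1)) 0 0 / MM z (ww β (k + 1)) 1 0 +
      I / MM z (ww β (k + 1)) 1 0 := by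
    unfold fw cn
    rw [m1]
  have nl : MM z (wl β k) 1 0 ≠ 0 := by rw [l1]; exact hx
  have nr : MM z (wr β k) 1 0 ≠ 0 := by rw [r1]; exact hy
  have nw : MM z (ww β k) 1 0 ≠ 0 := by rw [w1]; exact hw
  have nm : MM z (ww β (k + 1)) 1 0 ≠ 0 := by rw [m1]; exact hw1
  have dl := MM_det hz (wl β k)
  have dw := MM_det hz (ww β k)
  have dm := MM_det hz (ww β (k + 1))
  set L := MM z (wl β k) with hL
  set R := MM z (wr β k) with hR
  set W := MM z (ww β k) with hWd
  set M := MM z (ww β (k + 1)) with hMdef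
  set T := lm z .T with hT
  set S := lm z .S with hS
  -- R * S * L = - W
  have k0 : W * (L * T) = R := by
    have h1 : W * (L * T) * R = R * R := by
      calc W * (L * T) * R = W * (L * (T * R)) := by simp only [mul_assoc]
        _ = W * W := by rw [← hW]
        _ = R * R := by rw [W2, R2]
    have h2 : W * (L * T) * R * R = R * R * R := by rw [h1]
    rw [mul_assoc (W * (L * T)), mul_assoc R, R2] at h2
    simpa using h2
  have k1 : W * M = R * W := by
    rw [hM, ← mul_assoc L, ← mul_assoc, k0]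
  have k2 : S * L * M = R * (S * L) := by
    have h1 : S * L * M = - W := by
      calc S * L * M = S * (L * L) * (T * W) := by rw [hM]; simp only [mul_assoc]
        _ = - (S * T) * W := by rw [L2]; simp [mul_assoc]
        _ = - W := by rw [T2]; simp
    have h2 : R * (S * L) = - W := by
      calc R * (S * L) = W * (L * T) * (S * L) := by rw [k0]
        _ = W * (L * (T * S) * L) := by simp only [mul_assoc]
        _ = W * (L * L) := by rw [T1, mul_one]
        _ = - W := by rw [L2]; simp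
    rw [h1, h2]
  have hSL : MM z (.S :: wl β k) = S * L := MM_cons z .S _
  rw [f1, f2, hSL]
  have dSL : (S * L).det ≠ 0 := by
    rw [← hSL]
    exact rd_detne hz _
  refine ⟨rfl, rfl, ?_, ?_, ?_, ?_⟩
  · rw [efm, efr]
    exact rd_key m2 dm nm r2 nr (by rw [dw]; exact one_ne_zero) k1
  · rw [efm, efr]
    exact rd_key m2 dm nm r2 nr dSL k2
  · rw [efl]
    obtain ⟨s00, s10, s11⟩ := rd_STL z L
    rw [← hS, ← hT] at s00 s10 s11
    have key := rd_key (G := S * L) (M := L) (R := S * L * T) l2 dl nl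
      (by rw [s00, s11]; linear_combination l2) (by rw [s10]; exact nl) dSL (by
        calc S * L * L = S * L * (1 * L) := by rw [one_mul]
          _ = S * L * (T * S * L) := by rw [T1]
          _ = S * L * T * (S * L) := by simp only [mul_assoc])
    refine ⟨key.1, ?_⟩
    rw [key.2, s00, s10]
    field_simp
    ring
  · rw [efw]
    exact rd_key w2 dw nw w2 nw (by rw [dw]; exact one_ne_zero) rfl

/- MODULE re : the flips, mirror -/
/-- Bit `true`: the next edge is `(w, r)`; `m` its mediant. -/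
theorem flip_true {β : ℕ → Bool} {k : ℕ} {z : ℂ} (h : NZ β (k + 1) z) (hb : β k = true) :
    fl β (k + 1) z = fw β k z ∧ fr β (k + 1) z = fr β k z ∧
    (MM z (ww β k) 1 0 * fw β (k + 1) z + MM z (ww β k) 1 1 ≠ 0 ∧
      mob (MM z (ww β k)) (fw β (k + 1) z) = fl β k z) ∧
    (MM z (ww β k) 1 0 * fl β (k + 1) z + MM z (ww β k) 1 1 ≠ 0 ∧
      mob (MM z (ww β k)) (fl β (k + 1) z) = fw β k z) ∧
    (MM z (wr β k) 1 0 * fw β (k + 1) z + MM z (wr β k) 1 1 ≠ 0 ∧
      mob (MM z (wr β k)) (fw β (k + 1) z) = fl β k z - 1) ∧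
    (MM z (wr β k) 1 0 * fr β (k + 1) z + MM z (wr β k) 1 1 ≠ 0 ∧
      mob (MM z (wr β k)) (fr β (k + 1) z) = fr β k z) := by
  obtain ⟨hz, hn⟩ := h
  obtain ⟨hx, hy, hw⟩ := hn k (by omega)
  obtain ⟨hx1, hy1, hw1⟩ := hn (k + 1) le_rfl
  obtain ⟨e1, e2⟩ := rd_wt hb
  obtain ⟨l1, l2⟩ := wl_eq hz β k
  obtain ⟨r1, r2⟩ := wr_eq hz β k
  obtain ⟨w1, w2⟩ := ww_eq hz β k
  obtain ⟨m1, m2⟩ := ww_eq hz β (k + 1)
  have f1 : fl β (k + 1) z = fw β k z := by
    unfold fl fw
    rw [e1, vx_t hb]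
  have f2 : fr β (k + 1) z = fr β k z := by
    unfold fr
    rw [e2, vy_t hb]
  have L2 := rd_sq l2 (MM_det hz _)
  have R2 := rd_sq r2 (MM_det hz _)
  have W2 := rd_sq w2 (MM_det hz _)
  have hW := rd_W z β k
  have hM : MM z (ww β (k + 1)) = MM z (ww β k) * (lm z .T * MM z (wr β k)) := by
    rw [rd_W z β (k + 1), e1, e2]
  obtain ⟨T1, T2⟩ := rd_TS z
  have efl : fl β k z = MM z (wl β k) 0 0 / MM z (wl β k) 1 0 + I / MM z (wl β k) 1 0 := by
    unfold fl cn
    rw [l1]
  have efr : fr β k z = MM z (wr β k) 0 0 / MM z (wr β k) 1 0 + I / MM z (wr β k) 1 0 := by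
    unfold fr cn
    rw [r1]
  have efw : fw β k z = MM z (ww β k) 0 0 / MM z (ww β k) 1 0 + I / MM z (ww β k) 1 0 := by
    unfold fw cn
    rw [w1]
  have efm : fw β (k + 1) z = MM z (ww β (k + 1)) 0 0 / MM z (ww β (k + 1)) 1 0 +
      I / MM z (ww β (k + 1)) 1 0 := by
    unfold fw cn
    rw [m1]
  have nl : MM z (wl β k) 1 0 ≠ 0 := by rw [l1]; exact hx
  have nr : MM z (wr β k) 1 0 ≠ 0 := by rw [r1]; exact hy
  have nw : MM z (ww β k) 1 0 ≠ 0 := by rw [w1]; exact hw
  have nm : MM z (ww β (k + 1)) 1 0 ≠ 0 := by rw [m1]; exact hw1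
  have dr := MM_det hz (wr β k)
  have dw := MM_det hz (ww β k)
  have dm := MM_det hz (ww β (k + 1))
  set L := MM z (wl β k) with hL
  set R := MM z (wr β k) with hR
  set W := MM z (ww β k) with hWd
  set M := MM z (ww β (k + 1)) with hMdef
  set T := lm z .T with hT
  set S := lm z .S with hS
  have k1 : W * M = L * W := by
    calc W * M = W * W * (T * R) := by rw [hM]; simp only [mul_assoc]
      _ = L * L * (T * R) := by rw [W2, L2]
      _ = L * W := by rw [hW]; simp only [mul_assoc]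
  have k3 : S * (L * W) = - R := by
    calc S * (L * W) = S * (L * L * (T * R)) := by rw [hW]; simp only [mul_assoc]
      _ = - (S * T * R) := by rw [L2]; simp [mul_assoc]
      _ = - R := by rw [T2, one_mul]
  have k4 : R * W = S * L := by
    have h1 : S * (L * W) * W = - R * W := by rw [k3]
    rw [mul_assoc, mul_assoc L, W2] at h1
    have h2 : -(S * L) = - (R * W) := by simpa using h1
    exact (neg_injective h2).symm
  have k2 : R * M = S * L * T * R := by
    calc R * M = R * W * (T * R) := by rw [hM]; simp only [mul_assoc]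
      _ = S * L * (T * R) := by rw [k4]
      _ = S * L * T * R := by simp only [mul_assoc]
  rw [f1, f2]
  obtain ⟨s00, s10, s11⟩ := rd_STL z L
  rw [← hS, ← hT] at s00 s10 s11
  refine ⟨rfl, rfl, ?_, ?_, ?_, ?_⟩
  · rw [efm, efl]
    exact rd_key m2 dm nm l2 nl (by rw [dw]; exact one_ne_zero) k1
  · rw [efw]
    exact rd_key w2 dw nw w2 nw (by rw [dw]; exact one_ne_zero) rfl
  · rw [efm, efl]
    have key := rd_key (G := R) (M := M) (R := S * L * T) m2 dm nm
      (by rw [s00, s11]; linear_combination l2) (by rw [s10]; exact nl)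
      (by rw [dr]; exact one_ne_zero) k2
    refine ⟨key.1, ?_⟩
    rw [key.2, s00, s10]
    field_simp
    ring
  · rw [efr]
    exact rd_key r2 dr nr r2 nr (by rw [dr]; exact one_ne_zero) rfl

/- MODULE rf : (3.3) -/
/-- The involution of the mediant on the half plane. -/
theorem im_mob_ww {β : ℕ → Bool} {n : ℕ} {z : ℂ} (h : RP β n z) {v : ℂ} (hv : v ≠ 0) :
    (mob (MM z (ww β n)) (cn z (ww β n) + v)).im - ht β n z =
      v.im / ((vw β n z).re ^ 2 * ‖v‖ ^ 2) := by
  have hz : z ≠ 0 := h.nz.1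
  have hw : vw β n z ≠ 0 := (h.nz.2 n le_rfl).2.2
  obtain ⟨e1, e2⟩ := ww_eq hz β n
  have hW : cn z (ww β n) + v ≠ MM z (ww β n) 0 0 / MM z (ww β n) 1 0 := by
    intro h0
    apply hv
    have : cn z (ww β n) = MM z (ww β n) 0 0 / MM z (ww β n) 1 0 := rfl
    rw [← this] at h0
    linear_combination h0
  have hm := (mob_inv e2 (MM_det hz (ww β n)) (by rw [e1]; exact hw) hW).2
  have hc : MM z (ww β n) 0 0 / MM z (ww β n) 1 0 = cn z (ww β n) := rfl
  rw [hc, e1] at hm
  rw [hm, ht]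
  have hre := h.edge.2.2.2.2.2
  have e3 : cn z (ww β n) + v - cn z (ww β n) = v := by ring
  rw [e3, Complex.sub_im]
  have e4 : (1 / (vw β n z ^ 2 * v)) = (((vw β n z).re ^ 2)⁻¹ : ℝ) * v⁻¹ := by
    rw [hre]; push_cast; simp only [Complex.ofReal_re]; field_simp
  rw [e4, Complex.im_ofReal_mul, Complex.inv_im, Complex.normSq_eq_norm_sq]
  have hv' : ‖v‖ ≠ 0 := norm_ne_zero_iff.mpr hv
  have hB' : (vw β n z).re ≠ 0 := by have := h.g; intro h0; rw [h0] at this; linarith
  field_simp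
  ring

/-- The gaps of the line are covered by the discs of the left and the right end. -/
theorem gap_left {β : ℕ → Bool} {n : ℕ} {z : ℂ} (h : RP β n z) {v : ℝ}
    (hv : 1 < v * (1 - v) * (vw β n z).re ^ 2) :
    MM z (wl β n) 1 0 * (cn z (ww β n) + v) + MM z (wl β n) 1 1 ≠ 0 ∧
    ht β n z < (mob (MM z (wl β n)) (cn z (ww β n) + v)).im := by
  have hz : z ≠ 0 := h.nz.1
  obtain ⟨hx, hy, hw⟩ := h.nz.2 n le_rfl
  obtain ⟨q1, q2, q3, q4, hb0, hre⟩ := h.edge
  obtain ⟨e1, e2⟩ := wl_eq hz β n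
  have hB : 2 < (vw β n z).re := h.g
  obtain ⟨c1, -⟩ := cn_rel hz hx hy hw
  have hmk := markoff β n z
  have hcl : MM z (wl β n) 0 0 / MM z (wl β n) 1 0 = cn z (wl β n) := rfl
  rw [← hcl] at c1
  have hM : MM z (wl β n) 1 0 ≠ 0 := by rw [e1]; exact hx
  have hmi := fun hW => mob_inv (W := cn z (ww β n) + v) e2 (MM_det hz (wl β n)) hM hW
  rw [hcl] at hmi c1
  rw [e1] at hmi
  unfold ht
  rw [c1] at hmi ⊢
  generalize MM z (wl β n) = M at *
  generalize cn z (wl β n) = dl at *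
  set B : ℝ := (vw β n z).re with hBd
  rw [hre] at hmk hmi hw
  rw [hre]
  generalize vx β n z = x at *
  generalize vy β n z = y at *
  have hB0 : (B : ℂ) ≠ 0 := hw
  -- the denominator
  have hden : (B : ℂ) * v * x - y ≠ 0 := by
    intro h0
    have h1 : y = ((B * v : ℝ) : ℂ) * x := by push_cast; linear_combination -h0
    rw [h1] at hb0
    have : (x * (starRingEnd ℂ) (((B * v : ℝ) : ℂ) * x)).im = 0 := by
      rw [map_mul, Complex.conj_ofReal]
      simp only [Complex.mul_im, Complex.mul_re, Complex.conj_re, Complex.conj_im, Complex.ofReal_re,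
        Complex.ofReal_im]
      ring
    rw [this] at hb0
    exact lt_irrefl _ hb0
  have hne : dl - y / (x * B) + v ≠ dl := by
    intro h0
    apply hden
    have h1 : (v : ℂ) = y / (x * B) := by linear_combination h0
    rw [h1]; field_simp; ring
  obtain ⟨m1, m2⟩ := hmi hne
  refine ⟨by rw [e1]; exact m1, ?_⟩
  rw [m2]
  have hsub : dl - y / (x * B) + v - dl = (B * v * x - y) / (x * B) := by field_simp; ring
  have hkey : dl - 1 / (x ^ 2 * (dl - y / (x * B) + v - dl)) =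
      dl - y / (x * B) + (x - (1 - v) * B * y) / (B * (B * v * x - y)) := by
    rw [hsub]
    clear hsub m1 m2 hne hmi c1
    obtain ⟨D, hD⟩ : ∃ D, D = (B : ℂ) * v * x - y := ⟨_, rfl⟩
    have hyD : y = B * v * x - D := by rw [hD]; ring
    rw [← hD] at hden ⊢
    rw [hyD] at hmk ⊢
    field_simp
    linear_combination -hmk
  rw [hkey, Complex.add_im, ← sub_pos]
  have e5 : (dl - y / (x * B)).im + ((x - (1 - v) * B * y) / (B * (B * v * x - y))).im -
      (dl - y / (x * B)).im = ((x - (1 - v) * B * y) / (B * (B * v * x - y))).im := by ring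
  rw [e5]
  have hnum : (x - (1 - v) * B * y) / (B * (B * v * x - y)) =
      ((x - (1 - v) * B * y) * (starRingEnd ℂ) (B * v * x - y)) *
        (((B * Complex.normSq (B * v * x - y))⁻¹ : ℝ) : ℂ) := by
    generalize (B : ℂ) * v * x - y = D at hden ⊢
    generalize x - (1 - v) * B * y = N
    push_cast
    rw [Complex.normSq_eq_conj_mul_self]
    have hc : (starRingEnd ℂ) D ≠ 0 := (map_ne_zero _).mpr hden
    field_simp
  rw [hnum, Complex.mul_im, Complex.ofReal_im, Complex.ofReal_re, mul_zero, zero_add]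
  apply mul_pos
  · have : ((x - (1 - v) * B * y) * (starRingEnd ℂ) (B * v * x - y)).im =
        (v * (1 - v) * B ^ 2 - 1) * (x * (starRingEnd ℂ) y).im := by
      simp only [map_sub, map_mul, Complex.conj_ofReal, Complex.mul_im, Complex.mul_re, Complex.sub_re,
        Complex.sub_im, Complex.one_re, Complex.one_im, Complex.ofReal_re, Complex.ofReal_im,
        Complex.conj_re, Complex.conj_im]
      ring
    rw [this]
    exact mul_pos (by linarith) hb0
  · exact inv_pos.mpr (mul_pos (by linarith) (Complex.normSq_pos.mpr hden))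

theorem gap_right {β : ℕ → Bool} {n : ℕ} {z : ℂ} (h : RP β n z) {v : ℝ}
    (hv : 1 < -v * (1 + v) * (vw β n z).re ^ 2) :
    MM z (wr β n) 1 0 * (cn z (ww β n) + v) + MM z (wr β n) 1 1 ≠ 0 ∧
    ht β n z < (mob (MM z (wr β n)) (cn z (ww β n) + v)).im := by
  have hz : z ≠ 0 := h.nz.1
  obtain ⟨hx, hy, hw⟩ := h.nz.2 n le_rfl
  obtain ⟨q1, q2, q3, q4, hb0, hre⟩ := h.edge
  obtain ⟨e1, e2⟩ := wr_eq hz β n
  have hB : 2 < (vw β n z).re := h.g
  obtain ⟨-, c1⟩ := cn_rel hz hx hy hw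
  have hmk := markoff β n z
  have hcl : MM z (wr β n) 0 0 / MM z (wr β n) 1 0 = cn z (wr β n) := rfl
  rw [← hcl] at c1
  have hM : MM z (wr β n) 1 0 ≠ 0 := by rw [e1]; exact hy
  have hmi := fun hW => mob_inv (W := cn z (ww β n) + v) e2 (MM_det hz (wr β n)) hM hW
  rw [hcl] at hmi c1
  rw [e1] at hmi
  unfold ht
  rw [c1] at hmi ⊢
  generalize MM z (wr β n) = M at *
  generalize cn z (wr β n) = dl at *
  set B : ℝ := (vw β n z).re with hBd
  rw [hre] at hmk hmi hw
  rw [hre]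
  generalize vx β n z = x at *
  generalize vy β n z = y at *
  have hB0 : (B : ℂ) ≠ 0 := hw
  -- the denominator
  have hden : (B : ℂ) * v * y + x ≠ 0 := by
    intro h0
    have h1 : x = ((-(B * v) : ℝ) : ℂ) * y := by push_cast; linear_combination h0
    rw [h1] at hb0
    have : (((-(B * v) : ℝ) : ℂ) * y * (starRingEnd ℂ) y).im = 0 := by
      simp only [Complex.mul_im, Complex.mul_re, Complex.conj_re, Complex.conj_im, Complex.ofReal_re,
        Complex.ofReal_im]
      ring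
    rw [this] at hb0
    exact lt_irrefl _ hb0
  have hne : dl + x / (y * B) + v ≠ dl := by
    intro h0
    apply hden
    have h1 : (v : ℂ) = - (x / (y * B)) := by linear_combination h0
    rw [h1]; field_simp; ring
  obtain ⟨m1, m2⟩ := hmi hne
  refine ⟨by rw [e1]; exact m1, ?_⟩
  rw [m2]
  have hsub : dl + x / (y * B) + v - dl = (B * v * y + x) / (y * B) := by field_simp; ring
  have hkey : dl - 1 / (y ^ 2 * (dl + x / (y * B) + v - dl)) =
      dl + x / (y * B) + (y - (1 + v) * B * x) / (B * (B * v * y + x)) := by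
    rw [hsub]
    clear hsub m1 m2 hne hmi c1
    obtain ⟨D, hD⟩ : ∃ D, D = (B : ℂ) * v * y + x := ⟨_, rfl⟩
    have hyD : x = D - B * v * y := by rw [hD]; ring
    rw [← hD] at hden ⊢
    rw [hyD] at hmk ⊢
    field_simp
    linear_combination -hmk
  rw [hkey, Complex.add_im (dl + x / (y * B)), ← sub_pos]
  have e5 : (dl + x / (y * B)).im + ((y - (1 + v) * B * x) / (B * (B * v * y + x))).im -
      (dl + x / (y * B)).im = ((y - (1 + v) * B * x) / (B * (B * v * y + x))).im := by ring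
  rw [e5]
  have hnum : (y - (1 + v) * B * x) / (B * (B * v * y + x)) =
      ((y - (1 + v) * B * x) * (starRingEnd ℂ) (B * v * y + x)) *
        (((B * Complex.normSq (B * v * y + x))⁻¹ : ℝ) : ℂ) := by
    generalize (B : ℂ) * v * y + x = D at hden ⊢
    generalize y - (1 + v) * B * x = N
    push_cast
    rw [Complex.normSq_eq_conj_mul_self]
    have hc : (starRingEnd ℂ) D ≠ 0 := (map_ne_zero _).mpr hden
    field_simp
  rw [hnum, Complex.mul_im, Complex.ofReal_im, Complex.ofReal_re, mul_zero, zero_add]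
  apply mul_pos
  · have : ((y - (1 + v) * B * x) * (starRingEnd ℂ) (B * v * y + x)).im =
        (-v * (1 + v) * B ^ 2 - 1) * (x * (starRingEnd ℂ) y).im := by
      simp only [map_add, map_mul, Complex.conj_ofReal, Complex.mul_im, Complex.mul_re, Complex.sub_re,
        Complex.sub_im, Complex.add_re, Complex.add_im, Complex.one_re, Complex.one_im, Complex.ofReal_re,
        Complex.ofReal_im, Complex.conj_re, Complex.conj_im]
      ring
    rw [this]
    exact mul_pos (by linarith) hb0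
  · exact inv_pos.mpr (mul_pos (by linarith) (Complex.normSq_pos.mpr hden))

/- MODULE rg : (3.4) -/
private theorem rg_alg {x1 x2 y1 y2 B : ℝ} (hx1 : 0 < x1) (hx2 : 0 < x2) (hy1 : 0 < y1) (hy2 : 0 < y2)
    (hB : 2 < B) (hr : x1 ^ 2 - x2 ^ 2 + y1 ^ 2 - y2 ^ 2 + B ^ 2 = B * (x1 * y1 + x2 * y2))
    (hi : 2 * x1 * x2 - 2 * y1 * y2 = B * (x2 * y1 - x1 * y2)) :
    x2 * y1 + x1 * y2 < B * x1 ∧ x2 * y1 + x1 * y2 < B * y1 := by
  set b := x2 * y1 + x1 * y2 with hb
  have hb0 : 0 < b := by positivity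
  set p := B * x1 * y1 - x1 ^ 2 - y1 ^ 2 with hp
  set q := x2 ^ 2 + y2 ^ 2 + B * x2 * y2 with hq
  have hq0 : 0 < q := by positivity
  have hpq : p + q = B ^ 2 := by rw [hp, hq]; linear_combination -hr
  have hprod : p * q = (B ^ 2 / 4 - 1) * b ^ 2 := by
    rw [hp, hq, hb]
    linear_combination (-(2 * x1 * x2 - 2 * y1 * y2 + B * (x2 * y1 - x1 * y2)) / 4 +
      (B / 2) * (x2 * y1 - x1 * y2)) * hi
  have hB4 : 0 < B ^ 2 / 4 - 1 := by nlinarith
  have hp0 : 0 < p := by
    by_contra hcon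
    push Not at hcon
    have h1 : p * q ≤ 0 := mul_nonpos_of_nonpos_of_nonneg hcon hq0.le
    have h2 : 0 < (B ^ 2 / 4 - 1) * b ^ 2 := by positivity
    linarith
  have hBB : 0 < B ^ 2 - 4 := by linarith
  have main : ∀ t : ℝ, 0 < t → 4 * p ≤ t ^ 2 * (B ^ 2 - 4) → b < B * t := by
    intro t ht h1
    have h2 : b ^ 2 * (B ^ 2 - 4) < (B * t) ^ 2 * (B ^ 2 - 4) := by
      have e1 : b ^ 2 * (B ^ 2 - 4) = 4 * (p * q) := by rw [hprod]; ring
      have e2 : 4 * (p * q) < 4 * p * B ^ 2 := by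
        rw [← hpq]; nlinarith [mul_pos hp0 hp0]
      have e3 : 4 * p * B ^ 2 ≤ t ^ 2 * (B ^ 2 - 4) * B ^ 2 :=
        mul_le_mul_of_nonneg_right h1 (sq_nonneg B)
      nlinarith
    have h3 : b ^ 2 < (B * t) ^ 2 := lt_of_mul_lt_mul_right h2 hBB.le
    exact lt_of_pow_lt_pow_left₀ 2 (by positivity) h3
  constructor
  · apply main x1 hx1
    nlinarith [sq_nonneg (2 * y1 - B * x1)]
  · apply main y1 hy1
    nlinarith [sq_nonneg (2 * x1 - B * y1)]

theorem fix_above {β : ℕ → Bool} {n : ℕ} {z : ℂ} (h : RP β n z) :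
    ht β n z < (fl β n z).im ∧ ht β n z < (fw β n z).im ∧ ht β n z < (fr β n z).im := by
  have hz : z ≠ 0 := h.nz.1
  obtain ⟨hx, hy, hw⟩ := h.nz.2 n le_rfl
  obtain ⟨q1, q2, q3, q4, hb0, hre⟩ := h.edge
  have hB : 2 < (vw β n z).re := h.g
  obtain ⟨c1, c2⟩ := cn_rel hz hx hy hw
  have hmk := markoff β n z
  unfold ht fl fw fr
  set B : ℝ := (vw β n z).re with hBd
  rw [hre] at hmk c1 c2 hw ⊢
  generalize vx β n z = x at *
  generalize vy β n z = y at *
  generalize cn z (wl β n) = dl at *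
  generalize cn z (wr β n) = dr at *
  generalize cn z (ww β n) = dw at *
  have hB0 : (0 : ℝ) < B := by linarith
  have hr := congrArg Complex.re hmk
  have hi := congrArg Complex.im hmk
  simp only [pow_two, Complex.add_re, Complex.add_im, Complex.mul_re, Complex.mul_im, Complex.ofReal_re,
    Complex.ofReal_im] at hr hi
  have hb1 : (x * (starRingEnd ℂ) y).im = x.im * y.re - x.re * y.im := by
    rw [Complex.mul_im, Complex.conj_re, Complex.conj_im]; ring
  obtain ⟨k1, k2⟩ := rg_alg (x1 := x.re) (x2 := x.im) (y1 := y.re) (y2 := -y.im) q1 q2 q3 (by linarith) hB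
    (by linear_combination hr) (by linear_combination hi)
  have nx : 0 < Complex.normSq x := Complex.normSq_pos.mpr hx
  have ny : 0 < Complex.normSq y := Complex.normSq_pos.mpr hy
  refine ⟨?_, ?_, ?_⟩
  · -- left
    rw [c1, Complex.sub_im, Complex.add_im]
    have e1 : y / (x * B) = (y * (starRingEnd ℂ) x) * (((Complex.normSq x * B)⁻¹ : ℝ) : ℂ) := by
      push_cast
      rw [Complex.normSq_eq_conj_mul_self]
      have hc : (starRingEnd ℂ) x ≠ 0 := (map_ne_zero _).mpr hx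
      field_simp
    have e2 : I / x = (I * (starRingEnd ℂ) x) * (((Complex.normSq x)⁻¹ : ℝ) : ℂ) := by
      push_cast
      rw [Complex.normSq_eq_conj_mul_self]
      have hc : (starRingEnd ℂ) x ≠ 0 := (map_ne_zero _).mpr hx
      field_simp
    rw [e1, e2, Complex.mul_im, Complex.ofReal_im, Complex.ofReal_re, mul_zero, zero_add,
      Complex.mul_im (I * (starRingEnd ℂ) x), Complex.ofReal_im, Complex.ofReal_re, mul_zero, zero_add]
    have e3 : (y * (starRingEnd ℂ) x).im = -(x.im * y.re + x.re * (-y.im)) := by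
      rw [Complex.mul_im, Complex.conj_re, Complex.conj_im]; ring
    have e4 : (I * (starRingEnd ℂ) x).im = x.re := by simp
    rw [e3, e4, mul_inv]
    have h5 : (x.im * y.re + x.re * (-y.im)) * B⁻¹ < x.re := by
      rw [← div_eq_mul_inv, div_lt_iff₀ hB0]; linarith
    have h6 := mul_lt_mul_of_pos_right h5 (inv_pos.mpr nx)
    linarith
  · rw [Complex.add_im]
    have : 0 < (I / (B : ℂ)).im := by
      rw [Complex.div_ofReal_im]; simp; exact hB0
    linarith
  · -- right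
    rw [c2, Complex.add_im, Complex.add_im]
    have e1 : x / (y * B) = (x * (starRingEnd ℂ) y) * (((Complex.normSq y * B)⁻¹ : ℝ) : ℂ) := by
      push_cast
      rw [Complex.normSq_eq_conj_mul_self]
      have hc : (starRingEnd ℂ) y ≠ 0 := (map_ne_zero _).mpr hy
      field_simp
    have e2 : I / y = (I * (starRingEnd ℂ) y) * (((Complex.normSq y)⁻¹ : ℝ) : ℂ) := by
      push_cast
      rw [Complex.normSq_eq_conj_mul_self]
      have hc : (starRingEnd ℂ) y ≠ 0 := (map_ne_zero _).mpr hy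
      field_simp
    rw [e1, e2, Complex.mul_im, Complex.ofReal_im, Complex.ofReal_re, mul_zero, zero_add,
      Complex.mul_im (I * (starRingEnd ℂ) y), Complex.ofReal_im, Complex.ofReal_re, mul_zero, zero_add]
    have e3 : (x * (starRingEnd ℂ) y).im = (x.im * y.re + x.re * (-y.im)) := by
      rw [Complex.mul_im, Complex.conj_re, Complex.conj_im]; ring
    have e4 : (I * (starRingEnd ℂ) y).im = y.re := by simp
    rw [e3, e4, mul_inv]
    have h5 : (x.im * y.re + x.re * (-y.im)) * B⁻¹ < y.re := by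
      rw [← div_eq_mul_inv, div_lt_iff₀ hB0]; linarith
    have h6 := mul_lt_mul_of_pos_right h5 (inv_pos.mpr ny)
    linarith

end Pool.Agent.Loc
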