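import Mathlib

set_option autoImplicit false

/-!
# Loc: Schwarz-Pick at the centre of a disc, for maps into the upper half plane
-/

namespace Pool.Agent.Loc

open Complex Metric

theorem schwarz_pick {f : ℂ → ℂ} {a : ℂ} {r : ℝ} (hr : 0 < r) (hf : DifferentiableOn ℂ f (ball a r))
    (him : ∀ z ∈ ball a r, 0 < (f z).im) : ‖deriv f a‖ * r ≤ 2 * (f a).im := by
  set w₀ := f a with hw₀
  have ha : a ∈ ball a r := mem_ball_self hr
  have h0 : 0 < w₀.im := him a ha
  have hden : ∀ z ∈ ball a r, f z - (starRingEnd ℂ) w₀ ≠ 0 := by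
    intro z hz h
    have h1 := congrArg Complex.im h
    simp at h1
    have := him z hz
    linarith
  let g : ℂ → ℂ := fun z => (f z - w₀) / (f z - (starRingEnd ℂ) w₀)
  have hg : DifferentiableOn ℂ g (ball a r) :=
    (hf.sub (differentiableOn_const w₀)).div (hf.sub (differentiableOn_const _)) hden
  have hga : g a = 0 := by simp [g, hw₀]
  have hmaps : Set.MapsTo g (ball a r) (ball (g a) 1) := by
    intro z hz
    rw [hga, mem_ball, dist_zero_right, norm_div, div_lt_one (norm_pos_iff.2 (hden z hz))]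
    have h1 := him z hz
    have h2 : ‖f z - w₀‖ ^ 2 < ‖f z - (starRingEnd ℂ) w₀‖ ^ 2 := by
      rw [← normSq_eq_norm_sq, ← normSq_eq_norm_sq, normSq_apply, normSq_apply]
      simp
      nlinarith
    exact lt_of_pow_lt_pow_left₀ 2 (norm_nonneg _) h2
  have h1 := norm_deriv_le_div_of_mapsTo_ball hg (fun z hz => ball_subset_closedBall (hmaps hz)) hr
  have hfa : HasDerivAt f (deriv f a) a :=
    (hf.differentiableAt (isOpen_ball.mem_nhds ha)).hasDerivAt
  have hd : HasDerivAt g (deriv f a / (w₀ - (starRingEnd ℂ) w₀)) a := by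
    have h2 := (hfa.sub_const w₀).div (hfa.sub_const ((starRingEnd ℂ) w₀)) (hden a ha)
    have h3 : (deriv f a * (f a - (starRingEnd ℂ) w₀) - (f a - w₀) * deriv f a) /
        (f a - (starRingEnd ℂ) w₀) ^ 2 = deriv f a / (w₀ - (starRingEnd ℂ) w₀) := by
      rw [← hw₀]
      have := hden a ha
      rw [← hw₀] at this
      field_simp
      ring
    rw [h3] at h2
    exact h2
  rw [hd.deriv, norm_div] at h1
  have h4 : ‖w₀ - (starRingEnd ℂ) w₀‖ = 2 * w₀.im := by
    have : w₀ - (starRingEnd ℂ) w₀ = ((2 * w₀.im : ℝ) : ℂ) * I := by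
      apply Complex.ext <;> simp; ring
    rw [this, norm_mul, norm_I, mul_one, norm_real, Real.norm_eq_abs, abs_of_pos (by linarith)]
  rw [h4, div_le_div_iff₀ (by linarith) hr] at h1
  linarith

/-- In the open first quadrant. -/
theorem ld_quadrant {f : ℂ → ℂ} {a : ℂ} {r : ℝ} (hr : 0 < r) (hf : DifferentiableOn ℂ f (ball a r))
    (h : ∀ z ∈ ball a r, 0 < (f z).re ∧ 0 < (f z).im) :
    ‖deriv f a / f a‖ * r ≤ 2 * |(f a).arg| := by
  have ha : a ∈ ball a r := mem_ball_self hr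
  obtain ⟨h1, h2⟩ := h a ha
  have hne : f a ≠ 0 := fun h0 => by rw [h0] at h1; simp at h1
  have hfa := (hf.differentiableAt (isOpen_ball.mem_nhds ha)).hasDerivAt
  have hsp := schwarz_pick (f := fun z => f z ^ 2) hr (hf.pow 2) (fun z hz => by
    obtain ⟨h3, h4⟩ := h z hz
    simp [pow_two]
    nlinarith [mul_pos h3 h4])
  have hd : deriv (fun z => f z ^ 2) a = 2 * f a * deriv f a := by
    have := (hfa.fun_pow 2).deriv
    simpa using this
  rw [hd] at hsp
  have hn : 0 < ‖f a‖ := norm_pos_iff.2 hne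
  -- imaginary part of the square
  have him : (f a ^ 2).im = 2 * ((f a).re * (f a).im) := by simp [pow_two]; ring
  have hsin : (f a).im = ‖f a‖ * Real.sin (f a).arg := by
    rw [Complex.sin_arg]; field_simp
  have harg : 0 ≤ (f a).arg := by
    rw [Complex.arg_nonneg_iff]; exact h2.le
  have h5 : (f a).im ≤ ‖f a‖ * (f a).arg := by
    rw [hsin]
    exact mul_le_mul_of_nonneg_left (Real.sin_le harg) hn.le
  have h6 : (f a).re ≤ ‖f a‖ := (le_abs_self _).trans (abs_re_le_norm _)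
  rw [norm_div, abs_of_nonneg harg, div_mul_eq_mul_div, div_le_iff₀ hn]
  rw [him, norm_mul, norm_mul] at hsp
  simp only [Complex.norm_ofNat] at hsp
  have h7 : (f a).re * (f a).im ≤ ‖f a‖ * (‖f a‖ * (f a).arg) :=
    mul_le_mul h6 h5 h2.le hn.le
  have h8 : 2 * ‖f a‖ * (‖deriv f a‖ * r) ≤ 2 * ‖f a‖ * (2 * (f a).arg * ‖f a‖) := by
    nlinarith
  exact le_of_mul_le_mul_left h8 (by positivity)

/-- In the open fourth quadrant. -/
theorem ld_quadrant' {f : ℂ → ℂ} {a : ℂ} {r : ℝ} (hr : 0 < r) (hf : DifferentiableOn ℂ f (ball a r))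
    (h : ∀ z ∈ ball a r, 0 < (f z).re ∧ (f z).im < 0) :
    ‖deriv f a / f a‖ * r ≤ 2 * |(f a).arg| := by
  have ha : a ∈ ball a r := mem_ball_self hr
  obtain ⟨h1, h2⟩ := h a ha
  have hne : f a ≠ 0 := fun h0 => by rw [h0] at h1; simp at h1
  have hfa := (hf.differentiableAt (isOpen_ball.mem_nhds ha)).hasDerivAt
  have hsp := schwarz_pick (f := fun z => -(f z ^ 2)) hr (hf.pow 2).neg (fun z hz => by
    obtain ⟨h3, h4⟩ := h z hz
    simp [pow_two]
    nlinarith [mul_pos h3 (neg_pos.2 h4)])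
  have hd : deriv (fun z => -(f z ^ 2)) a = -(2 * f a * deriv f a) := by
    have := (hfa.fun_pow 2).fun_neg.deriv
    simpa using this
  rw [hd, norm_neg] at hsp
  have hn : 0 < ‖f a‖ := norm_pos_iff.2 hne
  have him : (-(f a ^ 2)).im = 2 * ((f a).re * (-(f a).im)) := by simp [pow_two]; ring
  have hsin : (f a).im = ‖f a‖ * Real.sin (f a).arg := by
    rw [Complex.sin_arg]; field_simp
  have harg : (f a).arg < 0 := by
    rw [Complex.arg_neg_iff]; exact h2
  have h5 : -(f a).im ≤ ‖f a‖ * (-(f a).arg) := by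
    rw [hsin, ← mul_neg, ← Real.sin_neg]
    exact mul_le_mul_of_nonneg_left (Real.sin_le (by linarith)) hn.le
  have h6 : (f a).re ≤ ‖f a‖ := (le_abs_self _).trans (abs_re_le_norm _)
  rw [norm_div, abs_of_neg harg, div_mul_eq_mul_div, div_le_iff₀ hn]
  rw [him, norm_mul, norm_mul] at hsp
  simp only [Complex.norm_ofNat] at hsp
  have h7 : (f a).re * (-(f a).im) ≤ ‖f a‖ * (‖f a‖ * (-(f a).arg)) :=
    mul_le_mul h6 h5 (by linarith) hn.le
  have h8 : 2 * ‖f a‖ * (‖deriv f a‖ * r) ≤ 2 * ‖f a‖ * (2 * (-(f a).arg) * ‖f a‖) := by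
    nlinarith
  exact le_of_mul_le_mul_left h8 (by positivity)

end Pool.Agent.Loc
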