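import Pool.Agent.Loc.GroD

/-!
# Loc: openness at the stops (helper79's 1.9, 1.10)
-/

set_option autoImplicit false

namespace Pool.Agent.Loc

open Complex Filter Topology Metric ComplexConjugate

/-- Data of a fan with pivot `m`, `Im m ≤ 0`: `X (-1) = Y`, `X (k+1) = m X k - X (k-1)`. -/
structure FanHyp (m : ℂ) (X : ℕ → ℂ) (Y : ℂ) (κ A t u : ℝ) : Prop where
  rec0 : X 1 = m * X 0 - Y
  rcs : ∀ k, X (k + 2) = m * X (k + 1) - X k
  hκ : 1 < κ
  hm : κ + 1 / κ ≤ m.re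
  hi : m.im ≤ 0
  hu : 0 < u
  hu0 : u ≤ (X 0).re
  hr : κ * (X 0).re ≤ (X 1).re
  hA0 : 0 ≤ (X 0 * conj Y).im
  hA : (X 0 * conj Y).im ≤ A
  ht : (X 0).im ≤ t * (X 0).re
  ht0 : 0 ≤ t

/-- Bound of the tangents. -/
noncomputable def fT (κ A t u : ℝ) : ℝ := t + A / (u ^ 2 * (1 - (κ ^ 2)⁻¹))

/-- Bound of the defect. -/
noncomputable def fE (κ A t u : ℝ) : ℝ := (1 + fT κ A t u ^ 2) / (1 - (κ ^ 2)⁻¹)

section

variable {m : ℂ} {X : ℕ → ℂ} {Y : ℂ} {κ A t u : ℝ}

lemma FanHyp.inv_lt (h : FanHyp m X Y κ A t u) : 0 < 1 - (κ ^ 2)⁻¹ := by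
  have : (κ ^ 2)⁻¹ < 1 := inv_lt_one_of_one_lt₀ (by nlinarith [h.hκ])
  linarith

lemma FanHyp.A_nonneg (h : FanHyp m X Y κ A t u) : 0 ≤ A := h.hA0.trans h.hA

lemma FanHyp.fT_nonneg (h : FanHyp m X Y κ A t u) : 0 ≤ fT κ A t u := by
  have h1 := h.inv_lt
  have h2 := h.A_nonneg
  have h3 := h.hu
  have h4 := h.ht0
  unfold fT; positivity

lemma frac_aux (A : ℝ) {U D S : ℝ} (hU : U ≠ 0) (hD : D ≠ 0) (hS : S ≠ 0) :
    A / (U * S) = A / (U * D) * (S⁻¹ * D) := by
  field_simp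

/-- The increment of the Wronskian. -/
lemma wronsk (a b c m : ℂ) (h : c = m * b - a) :
    (c * conj b).im = (b * conj a).im + m.im * (b.re ^ 2 + b.im ^ 2) := by
  subst h
  simp only [Complex.mul_im, Complex.sub_re, Complex.sub_im, Complex.mul_re, Complex.conj_re,
    Complex.conj_im]
  ring

lemma re_step (a b c m : ℂ) (h : c = m * b - a) : c.re = m.re * b.re - m.im * b.im - a.re := by
  subst h
  simp only [Complex.sub_re, Complex.mul_re]

lemma FanHyp.main (h : FanHyp m X Y κ A t u) : ∀ k, (∀ j, j ≤ k → 0 < (X j).im) →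
    u * κ ^ k ≤ (X k).re ∧ κ * (X k).re ≤ (X (k + 1)).re ∧
    (X k).im ≤ (t + A / (u ^ 2 * (1 - (κ ^ 2)⁻¹)) * (1 - ((κ ^ 2) ^ k)⁻¹)) * (X k).re ∧
    (X (k + 1) * conj (X k)).im ≤ A ∧
    -(X (k + 1) * conj (X k)).im ≤ (-m.im) * fE κ A t u * (X k).re ^ 2 := by
  have hκ := h.hκ
  have hκ0 : 0 < κ := by linarith
  have hinv := h.inv_lt
  have hA0 := h.A_nonneg
  have hu := h.hu
  have hT := h.fT_nonneg
  have hi := h.hi
  have hE : (1 + fT κ A t u ^ 2) = fE κ A t u * (1 - (κ ^ 2)⁻¹) :=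
    (div_mul_cancel₀ _ hinv.ne').symm
  have hE0 : 0 ≤ fE κ A t u := by unfold fE; positivity
  -- the tangent bound gives the norm bound
  have hnorm : ∀ a : ℂ, 0 < a.re → 0 < a.im → a.im ≤ fT κ A t u * a.re →
      a.re ^ 2 + a.im ^ 2 ≤ (1 + fT κ A t u ^ 2) * a.re ^ 2 := by
    intro a h1 h2 h3
    have : a.im ^ 2 ≤ (fT κ A t u * a.re) ^ 2 := by
      apply pow_le_pow_left₀ h2.le h3
    nlinarith
  intro k
  induction k with
  | zero =>
    intro hpos
    have hre0 : 0 < (X 0).re := hu.trans_le h.hu0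
    have hw := wronsk Y (X 0) (X 1) m h.rec0
    have hn : 0 ≤ (X 0).re ^ 2 + (X 0).im ^ 2 := by positivity
    refine ⟨by simpa using h.hu0, h.hr, by simpa using h.ht, ?_, ?_⟩
    · rw [zero_add, hw]; nlinarith [h.hA]
    · rw [zero_add, hw]
      have h3 : (X 0).im ≤ fT κ A t u * (X 0).re := by
        refine h.ht.trans (mul_le_mul_of_nonneg_right ?_ hre0.le)
        unfold fT
        have : 0 ≤ A / (u ^ 2 * (1 - (κ ^ 2)⁻¹)) := by positivity
        linarith
      have h4 := hnorm _ hre0 (hpos 0 le_rfl) h3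
      have h5 : (1 + fT κ A t u ^ 2) * (X 0).re ^ 2 ≤ fE κ A t u * (X 0).re ^ 2 := by
        refine mul_le_mul_of_nonneg_right ?_ (by positivity)
        rw [hE]
        have : 0 ≤ (κ ^ 2)⁻¹ := by positivity
        nlinarith
      have h6 : -m.im * ((X 0).re ^ 2 + (X 0).im ^ 2) ≤ -m.im * (fE κ A t u * (X 0).re ^ 2) :=
        mul_le_mul_of_nonneg_left (h4.trans h5) (by linarith)
      nlinarith [h.hA0]
  | succ k ih =>
    intro hpos
    obtain ⟨i1, i2, i3, i4, i5⟩ := ih fun j hj => hpos j (by omega)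
    have hk0 := hpos k (by omega)
    have hk1 := hpos (k + 1) le_rfl
    have hκk : 0 < κ ^ k := by positivity
    have hrk : 0 < (X k).re := lt_of_lt_of_le (by positivity) i1
    have hrk1 : 0 < (X (k + 1)).re := lt_of_lt_of_le (by positivity) i2
    have hw := wronsk (X k) (X (k + 1)) (X (k + 2)) m (h.rcs k)
    have hs1 : u * κ ^ (k + 1) ≤ (X (k + 1)).re := by
      rw [pow_succ]; nlinarith
    -- tangent
    have hs3 : (X (k + 1)).im ≤
        (t + A / (u ^ 2 * (1 - (κ ^ 2)⁻¹)) * (1 - ((κ ^ 2) ^ (k + 1))⁻¹)) * (X (k + 1)).re := by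
      have e1 : (X (k + 1) * conj (X k)).im =
          (X (k + 1)).im * (X k).re - (X (k + 1)).re * (X k).im := by
        simp only [Complex.mul_im, Complex.conj_re, Complex.conj_im]; ring
      have e2 : (X (k + 1)).im / (X (k + 1)).re ≤ (X k).im / (X k).re +
          A / ((X k).re * (X (k + 1)).re) := by
        rw [div_add_div _ _ hrk.ne' (mul_pos hrk hrk1).ne', div_le_div_iff₀ hrk1 (by positivity)]
        have : (X (k + 1)).im * (X k).re ≤ A + (X (k + 1)).re * (X k).im := by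
          rw [e1] at i4; linarith
        nlinarith [mul_pos hrk hrk1, mul_pos hrk (mul_pos hrk hrk1)]
      have e3 : A / ((X k).re * (X (k + 1)).re) ≤ A / (u ^ 2 * (κ ^ 2) ^ k) := by
        apply div_le_div_of_nonneg_left hA0 (by positivity)
        have : u * κ ^ k ≤ (X (k + 1)).re := by nlinarith
        calc u ^ 2 * (κ ^ 2) ^ k = (u * κ ^ k) * (u * κ ^ k) := by
              rw [← pow_mul, mul_comm 2 k, pow_mul]; ring
          _ ≤ (X k).re * (X (k + 1)).re := mul_le_mul i1 this (by positivity) hrk.le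
      have e4 : A / (u ^ 2 * (κ ^ 2) ^ k) = A / (u ^ 2 * (1 - (κ ^ 2)⁻¹)) *
          (((κ ^ 2) ^ k)⁻¹ - ((κ ^ 2) ^ (k + 1))⁻¹) := by
        have h1 : (κ ^ 2) ^ k ≠ 0 := by positivity
        rw [show ((κ ^ 2) ^ k)⁻¹ - ((κ ^ 2) ^ (k + 1))⁻¹ = ((κ ^ 2) ^ k)⁻¹ * (1 - (κ ^ 2)⁻¹) by
          rw [pow_succ (κ ^ 2) k, mul_inv]; ring]
        exact frac_aux A (by positivity) hinv.ne' h1
      have e5 : (X k).im / (X k).re ≤
          t + A / (u ^ 2 * (1 - (κ ^ 2)⁻¹)) * (1 - ((κ ^ 2) ^ k)⁻¹) := by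
        rw [div_le_iff₀ hrk]; exact i3
      rw [← div_le_iff₀ hrk1]
      calc _ ≤ _ := e2
        _ ≤ (t + A / (u ^ 2 * (1 - (κ ^ 2)⁻¹)) * (1 - ((κ ^ 2) ^ k)⁻¹)) +
            A / (u ^ 2 * (1 - (κ ^ 2)⁻¹)) * (((κ ^ 2) ^ k)⁻¹ - ((κ ^ 2) ^ (k + 1))⁻¹) := by
          rw [← e4]; exact add_le_add e5 e3
        _ = _ := by ring
    have hT1 : (X (k + 1)).im ≤ fT κ A t u * (X (k + 1)).re := by
      refine hs3.trans (mul_le_mul_of_nonneg_right ?_ hrk1.le)
      unfold fT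
      have h1 : 0 ≤ A / (u ^ 2 * (1 - (κ ^ 2)⁻¹)) := by positivity
      have h2 : 0 ≤ ((κ ^ 2) ^ (k + 1))⁻¹ := by positivity
      nlinarith
    have hnk := hnorm _ hrk1 hk1 hT1
    refine ⟨hs1, ?_, hs3, ?_, ?_⟩
    · rw [re_step (X k) (X (k + 1)) (X (k + 2)) m (h.rcs k)]
      have e1 : (X k).re ≤ 1 / κ * (X (k + 1)).re := by
        rw [one_div, inv_mul_eq_div, le_div_iff₀ hκ0]; linarith
      have e2 : (κ + 1 / κ) * (X (k + 1)).re ≤ m.re * (X (k + 1)).re :=
        mul_le_mul_of_nonneg_right h.hm hrk1.le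
      nlinarith
    · change (X (k + 2) * conj (X (k + 1))).im ≤ A
      rw [hw]
      have : 0 ≤ (X (k + 1)).re ^ 2 + (X (k + 1)).im ^ 2 := by positivity
      nlinarith
    · change -(X (k + 2) * conj (X (k + 1))).im ≤ _
      rw [hw]
      have e1 : (X k).re ^ 2 ≤ (κ ^ 2)⁻¹ * (X (k + 1)).re ^ 2 := by
        rw [inv_mul_eq_div, le_div_iff₀ (by positivity)]
        calc (X k).re ^ 2 * κ ^ 2 = (κ * (X k).re) ^ 2 := by ring
          _ ≤ _ := pow_le_pow_left₀ (by positivity) i2 2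
      have e2 : -m.im * fE κ A t u * (X k).re ^ 2 ≤
          -m.im * fE κ A t u * ((κ ^ 2)⁻¹ * (X (k + 1)).re ^ 2) :=
        mul_le_mul_of_nonneg_left e1 (mul_nonneg (by linarith) hE0)
      have e3 : -m.im * ((X (k + 1)).re ^ 2 + (X (k + 1)).im ^ 2) ≤
          -m.im * ((1 + fT κ A t u ^ 2) * (X (k + 1)).re ^ 2) :=
        mul_le_mul_of_nonneg_left hnk (by linarith)
      rw [hE] at e3
      linarith

end

/-! ### The real fan at the stop -/

/-- The fan of pivot `m`. -/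
def fan (x y m : ℂ) : ℕ → ℂ
  | 0 => x
  | 1 => m * x - y
  | k + 2 => m * fan x y m (k + 1) - fan x y m k

lemma continuous_fan {f g h : ℂ → ℂ} (hf : Continuous f) (hg : Continuous g) (hh : Continuous h) :
    ∀ k, Continuous (fun z => fan (f z) (g z) (h z) k) := by
  intro k
  induction k using Nat.strong_induction_on with
  | _ k ih =>
    match k with
    | 0 => exact hf
    | 1 => exact (hh.mul hf).sub hg
    | k + 2 => exact (hh.mul (ih (k + 1) (by omega))).sub (ih k (by omega))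

/-- Imaginary parts increase in the real fan. -/
lemma real_fan_im {x y m : ℂ} (hm : m.im = 0) (hm2 : 2 < m.re) (hx : 0 < x.im) (hy : y.im < 0) :
    ∀ k, 0 < (fan x y m k).im ∧ (fan x y m k).im < (fan x y m (k + 1)).im := by
  intro k
  induction k with
  | zero =>
    refine ⟨hx, ?_⟩
    simp only [fan, Complex.sub_im, Complex.mul_im, hm, zero_mul, add_zero]
    nlinarith
  | succ k ih =>
    obtain ⟨h1, h2⟩ := ih
    have h3 : 0 < (fan x y m (k + 1)).im := h1.trans h2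
    refine ⟨h3, ?_⟩
    change _ < (m * fan x y m (k + 1) - fan x y m k).im
    simp only [Complex.sub_im, Complex.mul_im, hm, zero_mul, add_zero]
    nlinarith

/-- The first ratio of the real parts is larger than `B / 2`. -/
lemma real_fan_re {x y m : ℂ} (hM : x ^ 2 + y ^ 2 + m ^ 2 = x * y * m) (hm : m.im = 0)
    (hm2 : 2 < m.re) (hxr : 0 < x.re) (hx : 0 < x.im) (hy : y.im < 0) :
    m.re / 2 * x.re < (fan x y m 1).re := by
  have h1 := congrArg Complex.im hM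
  simp only [pow_two, Complex.add_im, Complex.mul_im, Complex.mul_re, hm] at h1
  simp only [fan, Complex.sub_re, Complex.mul_re, hm, zero_mul, sub_zero]
  -- `u₁ = B u₀ - u₋₁`, `u₋₁ (B v₀ - 2 v₋₁) = u₀ (2 v₀ - B v₋₁)`
  have h2 : y.re * (m.re * x.im - 2 * y.im) = x.re * (2 * x.im - m.re * y.im) := by
    linarith
  have h3 : 0 < m.re * x.im - 2 * y.im := by nlinarith
  have h4 : y.re < m.re / 2 * x.re := by
    by_contra hcon
    push Not at hcon
    have h5 : m.re / 2 * x.re * (m.re * x.im - 2 * y.im) ≤ y.re * (m.re * x.im - 2 * y.im) :=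
      mul_le_mul_of_nonneg_right hcon h3.le
    rw [h2] at h5
    have h6 : 0 < x.re * x.im * (m.re ^ 2 / 2 - 2) := by
      apply mul_pos (mul_pos hxr hx)
      nlinarith
    nlinarith
  linarith

lemma arg_le_of_tan {x : ℂ} (hx : 0 < x.re) (h : |x.im| ≤ 1 / 8 * x.re) : |arg x| ≤ 1 / 5 := by
  have hπ := Real.pi_pos
  have h1 : |arg x| < Real.pi / 2 := Complex.abs_arg_lt_pi_div_two_iff.mpr (Or.inl hx)
  have h2 := Real.mul_abs_le_abs_sin h1.le
  have hn : 0 < ‖x‖ := by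
    have := Complex.re_le_norm x
    linarith
  have h3 : |Real.sin (arg x)| ≤ 1 / 8 := by
    rw [Complex.sin_arg, abs_div, abs_of_pos hn, div_le_iff₀ hn]
    have := Complex.re_le_norm x
    linarith
  have h4 : 2 / Real.pi * |arg x| ≤ 1 / 8 := h2.trans h3
  rw [div_mul_eq_mul_div, div_le_iff₀ hπ] at h4
  have := Real.pi_lt_d2
  linarith

end Pool.Agent.Loc
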