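import Pool.Agent.Loc.Defs

/-!
# T6a (Bowditch part): algebra of the arrows along a path of Farey edges

A path is given by bits `b : ℕ → Bool` and three sequences `x y w : ℕ → ℂ`
(`x n`, `y n` the two values of the `n`-th edge, `w n` the value of the mediant,
`x n * y n - w n` the value of the region behind the edge).
No discreteness is used.
-/

namespace Pool.Agent.Loc

/-- The step relations of a path. -/
def PathStep (b : ℕ → Bool) (x y w : ℕ → ℂ) : Prop :=
  ∀ n, (b n = true → x (n + 1) = w n ∧ y (n + 1) = y n ∧ w (n + 1) = w n * y n - x n) ∧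
    (b n = false → x (n + 1) = x n ∧ y (n + 1) = w n ∧ w (n + 1) = x n * w n - y n)

/-- The arrow of the `n`-th edge points back. -/
def Back (x y w : ℕ → ℂ) (n : ℕ) : Prop := ‖x n * y n - w n‖ ≤ ‖w n‖

/-- One step of the `no two outgoing arrows` lemma. -/
lemma arrow_step {x y w : ℂ} (hy : 2 ≤ ‖y‖) (hB : ‖x * y - w‖ ≤ ‖w‖) :
    ‖x‖ ≤ ‖w * y - x‖ := by
  have h1 : ‖x‖ * ‖y‖ ≤ 2 * ‖w‖ := by
    have := norm_sub_norm_le (x * y) w
    rw [norm_mul] at this
    linarith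
  have h2 : ‖w‖ * ‖y‖ ≤ ‖w * y - x‖ + ‖x‖ := by
    have := norm_sub_norm_le (w * y) x
    rw [norm_mul] at this
    linarith
  have h3 : ‖x‖ ≤ ‖w‖ := by nlinarith [norm_nonneg x, norm_nonneg w]
  nlinarith [norm_nonneg x, norm_nonneg w]

lemma arrow_step' {x y w : ℂ} (hx : 2 ≤ ‖x‖) (hB : ‖x * y - w‖ ≤ ‖w‖) :
    ‖y‖ ≤ ‖x * w - y‖ := by
  have := arrow_step (x := y) (y := x) (w := w) hx (by rwa [mul_comm y x])
  rwa [mul_comm w x] at this

variable {b : ℕ → Bool} {x y w : ℕ → ℂ}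

/-- The behind value after a step. -/
lemma PathStep.behind (h : PathStep b x y w) (n : ℕ) :
    (b n = true → x (n + 1) * y (n + 1) - w (n + 1) = x n) ∧
    (b n = false → x (n + 1) * y (n + 1) - w (n + 1) = y n) := by
  constructor
  · intro hb
    obtain ⟨h1, h2, h3⟩ := (h n).1 hb
    rw [h1, h2, h3]; ring
  · intro hb
    obtain ⟨h1, h2, h3⟩ := (h n).2 hb
    rw [h1, h2, h3]; ring

/-- The Markoff equation is kept along the path. -/
lemma PathStep.markoff (h : PathStep b x y w)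
    (h0 : x 0 ^ 2 + y 0 ^ 2 + w 0 ^ 2 = x 0 * y 0 * w 0) (n : ℕ) :
    x n ^ 2 + y n ^ 2 + w n ^ 2 = x n * y n * w n := by
  induction n with
  | zero => exact h0
  | succ n ih =>
    cases hb : b n
    · obtain ⟨h1, h2, h3⟩ := (h n).2 hb
      rw [h1, h2, h3]; linear_combination ih
    · obtain ⟨h1, h2, h3⟩ := (h n).1 hb
      rw [h1, h2, h3]; linear_combination ih

/-- If the arrow of edge `n` points back and the common region is at least `2`,
then the next arrow points back too. -/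
lemma PathStep.back_succ (h : PathStep b x y w) {n : ℕ} (hB : Back x y w n)
    (hx : b n = false → 2 ≤ ‖x n‖) (hy : b n = true → 2 ≤ ‖y n‖) : Back x y w (n + 1) := by
  unfold Back at *
  cases hb : b n
  · rw [(h.behind n).2 hb, ((h n).2 hb).2.2]
    exact arrow_step' (hx hb) hB
  · rw [(h.behind n).1 hb, ((h n).1 hb).2.2]
    exact arrow_step (hy hb) hB

lemma Back.mul_le {n : ℕ} (hB : Back x y w n) : ‖x n‖ * ‖y n‖ ≤ 2 * ‖w n‖ := by
  unfold Back at hB
  have := norm_sub_norm_le (x n * y n) (w n)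
  rw [norm_mul] at this
  linarith

/-- Beyond an edge with two large ends and the arrow pointing back everything is large. -/
lemma PathStep.large_after (h : PathStep b x y w) {K : ℝ} (hK : 2 ≤ K) {n : ℕ}
    (hB : Back x y w n) (hx : K ≤ ‖x n‖) (hy : K ≤ ‖y n‖) :
    ∀ m, n ≤ m → Back x y w m ∧ K ≤ ‖x m‖ ∧ K ≤ ‖y m‖ := by
  intro m hm
  induction m, hm using Nat.le_induction with
  | base => exact ⟨hB, hx, hy⟩
  | succ m hm ih =>
    obtain ⟨iB, ix, iy⟩ := ih
    have hw : K ≤ ‖w m‖ := by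
      have := iB.mul_le
      nlinarith
    refine ⟨h.back_succ iB (fun _ => hK.trans ix) (fun _ => hK.trans iy), ?_, ?_⟩
    · cases hb : b m
      · rw [((h m).2 hb).1]; exact ix
      · rw [((h m).1 hb).1]; exact hw
    · cases hb : b m
      · rw [((h m).2 hb).2.1]; exact hw
      · rw [((h m).1 hb).2.1]; exact iy

/-- If both ends of edge `n` are at least `2` then its arrow points back
(`w 0 = x 0 * y 0`: the region behind the first edge has value `0`). -/
lemma PathStep.back_of_large (h : PathStep b x y w) (h0 : w 0 = x 0 * y 0) :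
    ∀ n, 2 ≤ ‖x n‖ → 2 ≤ ‖y n‖ → Back x y w n := by
  intro n
  induction n with
  | zero =>
    intro _ _
    unfold Back
    rw [h0, sub_self, norm_zero]
    exact norm_nonneg _
  | succ n ih =>
    intro hx hy
    by_contra hB
    have hB' := hB
    unfold Back at hB'
    rw [not_le] at hB'
    cases hb : b n
    · obtain ⟨h1, h2, h3⟩ := (h n).2 hb
      rw [(h.behind n).2 hb, h3] at hB'
      rw [h1] at hx
      rw [h2] at hy
      have h4 : ‖x n‖ * ‖w n‖ ≤ ‖x n * w n - y n‖ + ‖y n‖ := by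
        have := norm_sub_norm_le (x n * w n) (y n)
        rw [norm_mul] at this
        linarith
      have h5 : 2 ≤ ‖y n‖ := by nlinarith
      exact hB (h.back_succ (ih hx h5) (fun _ => hx) (fun _ => h5))
    · obtain ⟨h1, h2, h3⟩ := (h n).1 hb
      rw [(h.behind n).1 hb, h3] at hB'
      rw [h1] at hx
      rw [h2] at hy
      have h4 : ‖w n‖ * ‖y n‖ ≤ ‖w n * y n - x n‖ + ‖x n‖ := by
        have := norm_sub_norm_le (w n * y n) (x n)
        rw [norm_mul] at this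
        linarith
      have h5 : 2 ≤ ‖x n‖ := by nlinarith
      exact hB (h.back_succ (ih h5 hy) (fun _ => h5) (fun _ => hy))

/-- Dichotomy: every edge has an end of modulus `≤ 2`, or from some edge on both ends are
`≥ K > 2` and the next value is at least half of the product. -/
theorem PathStep.dichotomy (h : PathStep b x y w) (h0 : w 0 = x 0 * y 0) :
    (∀ n, ‖x n‖ ≤ 2 ∨ ‖y n‖ ≤ 2) ∨
    ∃ N : ℕ, ∃ K : ℝ, 2 < K ∧ ∀ m, N ≤ m →
      K ≤ ‖x m‖ ∧ K ≤ ‖y m‖ ∧ ‖x m‖ * ‖y m‖ ≤ 2 * ‖w m‖ := by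
  by_cases hc : ∀ n, ‖x n‖ ≤ 2 ∨ ‖y n‖ ≤ 2
  · exact Or.inl hc
  · push Not at hc
    obtain ⟨N, hx, hy⟩ := hc
    refine Or.inr ⟨N, min ‖x N‖ ‖y N‖, lt_min hx hy, fun m hm => ?_⟩
    have hB := h.back_of_large h0 N hx.le hy.le
    obtain ⟨h1, h2, h3⟩ := h.large_after (lt_min hx hy).le hB (min_le_left _ _)
      (min_le_right _ _) m hm
    exact ⟨h2, h3, h1.mul_le⟩

/-- In the second case of the dichotomy, along a path whose bits are not eventually constant,
all values tend to infinity. -/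
theorem PathStep.tendsto_of_growth (h : PathStep b x y w)
    (hb : ∀ n, ∃ m, n ≤ m ∧ b m ≠ b (m + 1)) {N : ℕ} {K : ℝ} (hK : 2 < K)
    (hN : ∀ m, N ≤ m → K ≤ ‖x m‖ ∧ K ≤ ‖y m‖ ∧ ‖x m‖ * ‖y m‖ ≤ 2 * ‖w m‖) (C : ℝ) :
    ∃ M, ∀ m, M ≤ m → C ≤ ‖x m‖ ∧ C ≤ ‖y m‖ ∧ C ≤ ‖w m‖ := by
  set q : ℝ := K / 2 with hq
  have hq1 : 1 < q := by rw [hq]; linarith
  have hwx : ∀ m, N ≤ m → q * ‖x m‖ ≤ ‖w m‖ := by
    intro m hm
    obtain ⟨h1, h2, h3⟩ := hN m hm
    have : K * ‖x m‖ ≤ ‖x m‖ * ‖y m‖ := by nlinarith [norm_nonneg (x m)]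
    rw [hq]; linarith
  have hwy : ∀ m, N ≤ m → q * ‖y m‖ ≤ ‖w m‖ := by
    intro m hm
    obtain ⟨h1, h2, h3⟩ := hN m hm
    have : K * ‖y m‖ ≤ ‖x m‖ * ‖y m‖ := by nlinarith [norm_nonneg (y m)]
    rw [hq]; linarith
  -- the maximum grows geometrically
  have hmax : ∀ k, q ^ k ≤ max ‖x (N + k)‖ ‖y (N + k)‖ := by
    intro k
    induction k with
    | zero =>
      rw [pow_zero, add_zero]
      have := (hN N le_rfl).1
      exact le_max_of_le_left (by linarith)
    | succ k ih =>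
      have e1 : q * max ‖x (N + k)‖ ‖y (N + k)‖ ≤ ‖w (N + k)‖ := by
        rcases le_total ‖x (N + k)‖ ‖y (N + k)‖ with hle | hle
        · rw [max_eq_right hle]; exact hwy _ (by omega)
        · rw [max_eq_left hle]; exact hwx _ (by omega)
      have e2 : q ^ (k + 1) ≤ ‖w (N + k)‖ := by
        rw [pow_succ, mul_comm]
        exact (mul_le_mul_of_nonneg_left ih (by linarith)).trans e1
      rw [← add_assoc]
      cases hbk : b (N + k)
      · exact le_max_of_le_right (by rw [((h _).2 hbk).2.1]; exact e2)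
      · exact le_max_of_le_left (by rw [((h _).1 hbk).1]; exact e2)
  -- the minimum does not decrease
  have hmono : ∀ C : ℝ, ∀ m, N ≤ m → C ≤ ‖x m‖ → C ≤ ‖y m‖ →
      ∀ m', m ≤ m' → C ≤ ‖x m'‖ ∧ C ≤ ‖y m'‖ := by
    intro C m hm hx hy m' hm'
    induction m', hm' using Nat.le_induction with
    | base => exact ⟨hx, hy⟩
    | succ j hj ih =>
      obtain ⟨ix, iy⟩ := ih
      have hw : C ≤ ‖w j‖ := by
        have := hwx j (by omega)
        nlinarith [norm_nonneg (x j)]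
      cases hbj : b j
      · rw [((h _).2 hbj).1, ((h _).2 hbj).2.1]; exact ⟨ix, hw⟩
      · rw [((h _).1 hbj).1, ((h _).1 hbj).2.1]; exact ⟨hw, iy⟩
  obtain ⟨k, hk⟩ := pow_unbounded_of_one_lt C hq1
  obtain ⟨m, hm, hbm⟩ := hb (N + k)
  have hmN : N ≤ m := by omega
  have hmx : C ≤ max ‖x m‖ ‖y m‖ := by
    have h1 := hmax (m - N)
    rw [show N + (m - N) = m by omega] at h1
    have h2 : q ^ k ≤ q ^ (m - N) := pow_le_pow_right₀ hq1.le (by omega)
    linarith
  have hwm : C ≤ ‖w m‖ := by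
    rcases le_total ‖x m‖ ‖y m‖ with hle | hle
    · rw [max_eq_right hle] at hmx
      have := hwy m hmN
      nlinarith [norm_nonneg (y m)]
    · rw [max_eq_left hle] at hmx
      have := hwx m hmN
      nlinarith [norm_nonneg (x m)]
  -- after two steps both ends are large
  have hw1 : C ≤ ‖w (m + 1)‖ := by
    cases hb1 : b m
    · have := hwy (m + 1) (by omega)
      rw [((h _).2 hb1).2.1] at this
      nlinarith [norm_nonneg (w m)]
    · have := hwx (m + 1) (by omega)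
      rw [((h _).1 hb1).1] at this
      nlinarith [norm_nonneg (w m)]
  have h2 : C ≤ ‖x (m + 2)‖ ∧ C ≤ ‖y (m + 2)‖ := by
    cases hb1 : b m
    · have hb2 : b (m + 1) = true := by
        cases h' : b (m + 1)
        · exact absurd (hb1.trans h'.symm) hbm
        · rfl
      obtain ⟨e1, e2, -⟩ := (h m).2 hb1
      obtain ⟨f1, f2, -⟩ := (h (m + 1)).1 hb2
      rw [f1, f2, e2]
      exact ⟨hw1, hwm⟩
    · have hb2 : b (m + 1) = false := by
        cases h' : b (m + 1)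
        · rfl
        · exact absurd (hb1.trans h'.symm) hbm
      obtain ⟨e1, e2, -⟩ := (h m).1 hb1
      obtain ⟨f1, f2, -⟩ := (h (m + 1)).2 hb2
      rw [f1, f2, e1]
      exact ⟨hwm, hw1⟩
  refine ⟨m + 2, fun m' hm' => ?_⟩
  obtain ⟨g1, g2⟩ := hmono C (m + 2) (by omega) h2.1 h2.2 m' hm'
  refine ⟨g1, g2, ?_⟩
  have := hwx m' (by omega)
  nlinarith [norm_nonneg (x m')]

/-- In a Markoff triple two members of modulus `≤ 2` bound the third. -/
lemma markoff_third {p q r : ℂ} (hM : p ^ 2 + q ^ 2 + r ^ 2 = p * q * r)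
    (hq : ‖q‖ ≤ 2) (hr : ‖r‖ ≤ 2) : ‖p‖ ≤ 11 / 2 := by
  have h1 : p ^ 2 = p * q * r - q ^ 2 - r ^ 2 := by linear_combination hM
  have h2 : ‖p‖ ^ 2 ≤ ‖p‖ * ‖q‖ * ‖r‖ + ‖q‖ ^ 2 + ‖r‖ ^ 2 := by
    rw [← norm_pow, h1]
    calc ‖p * q * r - q ^ 2 - r ^ 2‖ ≤ ‖p * q * r‖ + ‖q ^ 2‖ + ‖r ^ 2‖ := by
          refine (norm_sub_le _ _).trans ?_
          gcongr
          exact norm_sub_le _ _
      _ = _ := by rw [norm_mul, norm_mul, norm_pow, norm_pow]
  have h3 : ‖q‖ * ‖r‖ ≤ 4 := by nlinarith [norm_nonneg q, norm_nonneg r]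
  by_contra hcon
  push Not at hcon
  nlinarith [norm_nonneg p, norm_nonneg q, norm_nonneg r, mul_nonneg (norm_nonneg q) (norm_nonneg r)]

/-- A region which lies on two consecutive edges is bounded, if every edge has a small end. -/
lemma PathStep.pivot_le (h : PathStep b x y w)
    (h00 : x 0 ^ 2 + y 0 ^ 2 + w 0 ^ 2 = x 0 * y 0 * w 0)
    (hc : ∀ n, ‖x n‖ ≤ 2 ∨ ‖y n‖ ≤ 2) (n : ℕ) :
    (b n = true → ‖y n‖ ≤ 11 / 2) ∧ (b n = false → ‖x n‖ ≤ 11 / 2) := by
  have hM := h.markoff h00 n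
  constructor
  · intro hb
    obtain ⟨h1, h2, -⟩ := (h n).1 hb
    by_contra hcon
    push Not at hcon
    have hx : ‖x n‖ ≤ 2 := by
      rcases hc n with h' | h'
      · exact h'
      · linarith
    have hw : ‖w n‖ ≤ 2 := by
      have := hc (n + 1)
      rw [h1, h2] at this
      rcases this with h' | h'
      · exact h'
      · linarith
    have := markoff_third (p := y n) (q := x n) (r := w n) (by linear_combination hM) hx hw
    linarith
  · intro hb
    obtain ⟨h1, h2, -⟩ := (h n).2 hb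
    by_contra hcon
    push Not at hcon
    have hx : ‖y n‖ ≤ 2 := by
      rcases hc n with h' | h'
      · linarith
      · exact h'
    have hw : ‖w n‖ ≤ 2 := by
      have := hc (n + 1)
      rw [h1, h2] at this
      rcases this with h' | h'
      · linarith
      · exact h'
    have := markoff_third (p := x n) (q := y n) (r := w n) (by linear_combination hM) hx hw
    linarith

/-- A root of `X ^ 2 - x y X + x ^ 2 + y ^ 2` with `‖x‖, ‖y‖ ≤ 11/2` and one of them `≤ 2`. -/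
lemma root_le {x y w : ℂ} (hM : x ^ 2 + y ^ 2 + w ^ 2 = x * y * w)
    (hx : ‖x‖ ≤ 11 / 2) (hy : ‖y‖ ≤ 11 / 2) (hxy : ‖x‖ ≤ 2 ∨ ‖y‖ ≤ 2) : ‖w‖ ≤ 14 := by
  have h1 : w ^ 2 = x * y * w - x ^ 2 - y ^ 2 := by linear_combination hM
  have h2 : ‖w‖ ^ 2 ≤ ‖x‖ * ‖y‖ * ‖w‖ + ‖x‖ ^ 2 + ‖y‖ ^ 2 := by
    rw [← norm_pow, h1]
    calc ‖x * y * w - x ^ 2 - y ^ 2‖ ≤ ‖x * y * w‖ + ‖x ^ 2‖ + ‖y ^ 2‖ := by
          refine (norm_sub_le _ _).trans ?_
          gcongr
          exact norm_sub_le _ _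
      _ = _ := by rw [norm_mul, norm_mul, norm_pow, norm_pow]
  have h3 : ‖x‖ * ‖y‖ ≤ 11 := by
    rcases hxy with h | h <;> nlinarith [norm_nonneg x, norm_nonneg y]
  have h4 : ‖x‖ ^ 2 + ‖y‖ ^ 2 ≤ 4 + 121 / 4 := by
    rcases hxy with h | h <;> nlinarith [norm_nonneg x, norm_nonneg y]
  by_contra hcon
  push Not at hcon
  nlinarith [norm_nonneg w, mul_nonneg (norm_nonneg x) (norm_nonneg y)]

/-- **T6a.** If every edge has an end of modulus `≤ 2` then the values at every hinge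
(the two pivots, the value ahead and the value behind) are bounded. -/
theorem PathStep.hinge_le (h : PathStep b x y w)
    (h00 : x 0 ^ 2 + y 0 ^ 2 + w 0 ^ 2 = x 0 * y 0 * w 0)
    (hc : ∀ n, ‖x n‖ ≤ 2 ∨ ‖y n‖ ≤ 2) {n : ℕ} (hn : b n ≠ b (n + 1)) :
    ‖x (n + 1)‖ ≤ 11 / 2 ∧ ‖y (n + 1)‖ ≤ 11 / 2 ∧ ‖w (n + 1)‖ ≤ 14 ∧
      ‖x (n + 1) * y (n + 1) - w (n + 1)‖ ≤ 14 := by
  have hM := h.markoff h00 (n + 1)
  have hxy : ‖x (n + 1)‖ ≤ 11 / 2 ∧ ‖y (n + 1)‖ ≤ 11 / 2 := by
    cases hb1 : b n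
    · have hb2 : b (n + 1) = true := by
        cases h' : b (n + 1)
        · exact absurd (hb1.trans h'.symm) hn
        · rfl
      refine ⟨?_, (h.pivot_le h00 hc (n + 1)).1 hb2⟩
      rw [((h n).2 hb1).1]
      exact (h.pivot_le h00 hc n).2 hb1
    · have hb2 : b (n + 1) = false := by
        cases h' : b (n + 1)
        · rfl
        · exact absurd (hb1.trans h'.symm) hn
      refine ⟨(h.pivot_le h00 hc (n + 1)).2 hb2, ?_⟩
      rw [((h n).1 hb1).2.1]
      exact (h.pivot_le h00 hc n).1 hb1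
  refine ⟨hxy.1, hxy.2, root_le hM hxy.1 hxy.2 (hc _), root_le ?_ hxy.1 hxy.2 (hc _)⟩
  linear_combination hM

/-! ### The statement of the interface -/

lemma pathStep_st (β : ℕ → Bool) (z : ℂ) :
    PathStep β (fun n => vx β n z) (fun n => vy β n z) (fun n => vw β n z) := by
  intro n
  constructor
  · intro hb
    simp [vx, vy, vw, st, step, hb]
  · intro hb
    simp [vx, vy, vw, st, step, hb]

/-- Case distinction of the arrow lemma for the states of a path: without growth every edge has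
an end of modulus at most `2`. -/
lemma small_end_of_not_grow {β : ℕ → Bool} {z : ℂ} (hg : ¬ Grow β z) (n : ℕ) :
    ‖vx β n z‖ ≤ 2 ∨ ‖vy β n z‖ ≤ 2 := by
  by_contra hc
  push Not at hc
  obtain ⟨hx, hy⟩ := hc
  have h0 : vw β 0 z = vx β 0 z * vy β 0 z := by
    simp only [vx, vy, vw, st, s0]; ring
  exact hg ⟨n, hx, hy, (pathStep_st β z).back_of_large h0 n hx.le hy.le⟩

/-- **T6a** with explicit constants, for every `z` (no positivity, no discreteness). -/
theorem hinge_bdd_explicit {β : ℕ → Bool} {z : ℂ} (hg : ¬ Grow β z) {n : ℕ} (hn : Hinge β n) :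
    ‖vx β (n + 1) z‖ ≤ 11 / 2 ∧ ‖vy β (n + 1) z‖ ≤ 11 / 2 ∧ ‖vw β (n + 1) z‖ ≤ 14 ∧
      Bdd 14 β n z := by
  have hs := pathStep_st β z
  have h00 : vx β 0 z ^ 2 + vy β 0 z ^ 2 + vw β 0 z ^ 2 = vx β 0 z * vy β 0 z * vw β 0 z := by
    simp only [vx, vy, vw, st, s0]
    have hI : Complex.I ^ 2 = -1 := Complex.I_sq
    linear_combination (z ^ 2 + z ^ 4 - z ^ 4) * hI
  obtain ⟨h1, h2, h3, h4⟩ := hs.hinge_le h00 (small_end_of_not_grow hg) hn
  refine ⟨h1, h2, h3, ?_⟩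
  cases hb : β n
  · have hbe := (hs.behind n).2 hb
    rw [hbe] at h4
    obtain ⟨e1, e2, -⟩ := (hs n).2 hb
    beta_reduce at e1 e2
    rw [e1] at h1
    rw [e2] at h2
    exact ⟨by linarith, h4, by linarith⟩
  · have hbe := (hs.behind n).1 hb
    rw [hbe] at h4
    obtain ⟨e1, e2, -⟩ := (hs n).1 hb
    beta_reduce at e1 e2
    rw [e1] at h1
    rw [e2] at h2
    exact ⟨h4, by linarith, by linarith⟩

theorem hinge_bdd : ∃ C : ℝ, ∀ (β : ℕ → Bool) (z : ℂ), z ∈ Q → Low z → Inf β z → ¬ Grow β z →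
    ∀ n, Hinge β n → Bdd C β n z :=
  ⟨14, fun _ _ _ _ _ hg _ hn => (hinge_bdd_explicit hg hn).2.2.2⟩

end Pool.Agent.Loc
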