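import Pool.Agent.Loc.Iface
import Pool.Agent.Loc.Bas
import Pool.Agent.Loc.SP

set_option autoImplicit false

/-!
# Loc: T6b, a growing path in the closure of `U` is in `U`
-/

namespace Pool.Agent.Loc

open Complex Pool.Agent.FZC Metric Filter Topology

theorem good_im_b {β : ℕ → Bool} {n : ℕ} {z : ℂ} (hz : z ∈ Q) (h : Good β n z) :
    0 < (vx β n z).im ∧ (vy β n z).im < 0 := by
  rcases Nat.eq_zero_or_pos n with h0 | h0
  · subst h0
    simp only [vx_zero, vy_zero]
    refine ⟨hz.2, ?_⟩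
    simp; exact hz.1
  · have := h n h0 le_rfl
    exact ⟨this.2.1, this.2.2.2.1⟩

theorem inf_vx {β : ℕ → Bool} {z : ℂ} (hz : z ∈ Q) (h : Inf β z) (n : ℕ) :
    0 < (vx β n z).re ∧ 0 < (vx β n z).im := by
  rcases Nat.eq_zero_or_pos n with h0 | h0
  · subst h0; exact hz
  · have := h n n h0 le_rfl
    exact ⟨this.1, this.2.1⟩

theorem inf_vy {β : ℕ → Bool} {z : ℂ} (hz : z ∈ Q) (h : Inf β z) (n : ℕ) :
    0 < (vy β n z).re ∧ (vy β n z).im < 0 := by
  rcases Nat.eq_zero_or_pos n with h0 | h0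
  · subst h0
    simp only [vy_zero]
    constructor
    · simp; exact hz.2
    · simp; exact hz.1
  · have := h n n h0 le_rfl
    exact ⟨this.2.2.1, this.2.2.2.1⟩

theorem inf_im_ne {β : ℕ → Bool} {z : ℂ} (h : Inf β z) (n : ℕ) : (vw β n z).im ≠ 0 := by
  have e := h (n + 1) (n + 1) (by omega) le_rfl
  cases hb : β n
  · rw [vy_f hb] at e; exact e.2.2.2.1.ne
  · rw [vx_t hb] at e; exact e.2.1.ne'

/-- On a ball where all bit sequences are infinite good paths the bits are constant. -/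
theorem bits_const {a : ℂ} {r : ℝ} (hr : 0 < r) (h : ∀ z ∈ ball a r, Inf (bits z) z) :
    ∀ z ∈ ball a r, bits z = bits a := by
  intro z hz
  funext n
  have hloc : ∀ w ∈ ball a r, ∀ᶠ w' in 𝓝 w, bits w' n = bits w n := by
    intro w hw
    have h1 := bits_near (z₀ := w) (n := n + 1) (fun k _ => inf_im_ne (h w hw) k)
    filter_upwards [h1] with w' hw'
    exact hw' n (by omega)
  have hpc : IsPreconnected (ball a r) := (convex_ball a r).isPreconnected
  have hco : ContinuousOn (fun w => bits w n) (ball a r) := by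
    intro w hw
    refine ContinuousAt.continuousWithinAt ?_
    exact (continuousAt_const (y := bits w n)).congr ((hloc w hw).mono fun _ h => h.symm)
  exact hpc.constant hco hz (mem_ball_self hr)

theorem grow_mem {β : ℕ → Bool} {z : ℂ} (hz : z ∈ Q) (hU : z ∈ closure U) (h : Inf β z)
    (hg : Grow β z) : z ∈ U := by
  by_contra hzU
  have hS : z ∈ Sig := by
    by_contra hc; exact hzU hc
  obtain ⟨r, hr, hball⟩ := grow_open hz (low hU) h hg
  rw [← FZR.closure_interior] at hS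
  obtain ⟨a, ha1, ha2⟩ := mem_closure_iff.1 hS (ball z r) isOpen_ball (mem_ball_self hr)
  obtain ⟨ε, hε, hsub⟩ := isOpen_iff.1 (isOpen_ball.inter isOpen_interior) a ⟨ha1, ha2⟩
  -- all points of the ball have infinite growing paths
  have hinf : ∀ w ∈ ball a ε, Inf (bits w) w ∧ Grow (bits w) w := by
    intro w hw
    obtain ⟨hw1, hw2⟩ := hsub hw
    obtain ⟨hwQ, h1 | ⟨n, hn, hn2⟩⟩ := hball w hw1
    · exact h1
    · exfalso
      obtain ⟨w', hw'U, hw'Q, hw'E, hw'v⟩ := ray (bits w) n _ hn2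
      have he : vw (bits w) n w = vw (bits w) n w' := by
        rw [hw'v]
        apply Complex.ext
        · simp
        · rw [hn.2.1]; simp
      have := uniq_end hwQ hw'Q hn hw'E he hn2.le
      rw [← this] at hw'U
      exact hw'U (interior_subset hw2)
  have hconst := bits_const hε (fun w hw => (hinf w hw).1)
  set γ := bits a with hγ
  have hI : ∀ w ∈ ball a ε, Inf γ w := fun w hw => by
    rw [← hconst w hw]; exact (hinf w hw).1
  have haa : a ∈ ball a ε := mem_ball_self hε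
  have hQ : ∀ w ∈ ball a ε, w ∈ Q := fun w hw => (hball w (hsub hw).1).1
  obtain ⟨c, hc, hcn⟩ := area_mono (hQ a haa) (hI a haa)
  -- small logarithmic derivatives
  have hx : ∀ n, ‖ld (vx γ n) a‖ * ε ≤ 2 * |(vx γ n a).arg| := fun n =>
    ld_quadrant hε (diff_vx γ n).differentiableOn (fun w hw => inf_vx (hQ w hw) (hI w hw) n)
  have hy : ∀ n, ‖ld (vy γ n) a‖ * ε ≤ 2 * |(vy γ n a).arg| := fun n =>
    ld_quadrant' hε (diff_vy γ n).differentiableOn (fun w hw => inf_vy (hQ w hw) (hI w hw) n)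
  have hw : ∀ n, ‖ld (vw γ n) a‖ * ε ≤ 2 * |(vw γ n a).arg| := fun n => by
    cases hb : γ n
    · have e : vw γ n = vy γ (n + 1) := funext fun w => (vy_f hb).symm
      rw [e]; exact hy (n + 1)
    · have e : vw γ n = vx γ (n + 1) := funext fun w => (vx_t hb).symm
      rw [e]; exact hx (n + 1)
  -- choose the size
  set δ : ℝ := min 1 (c / 8) with hδ
  have hδ0 : 0 < δ := lt_min one_pos (by positivity)
  obtain ⟨N, hN⟩ := grow_arg (hQ a haa) (hI a haa) (hinf a haa).2 (δ * ε / 2) (by positivity)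
  obtain ⟨h1, h2, h3⟩ := hN (N + 1) (by omega)
  have b1 : ‖ld (vx γ (N + 1)) a‖ < δ := by
    have := hx (N + 1)
    have h4 : ‖ld (vx γ (N + 1)) a‖ * ε < δ * ε := by linarith
    exact lt_of_mul_lt_mul_right h4 hε.le
  have b2 : ‖ld (vy γ (N + 1)) a‖ < δ := by
    have := hy (N + 1)
    have h4 : ‖ld (vy γ (N + 1)) a‖ * ε < δ * ε := by linarith
    exact lt_of_mul_lt_mul_right h4 hε.le
  have b3 : ‖ld (vw γ (N + 1)) a‖ < δ := by
    have := hw (N + 1)
    have h4 : ‖ld (vw γ (N + 1)) a‖ * ε < δ * ε := by linarith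
    exact lt_of_mul_lt_mul_right h4 hε.le
  have hA := hcn (N + 1) (by omega)
  have hle : |Ar γ (N + 1) a| ≤ ‖ld (vw γ (N + 1)) a - ld (vx γ (N + 1)) a‖ *
      ‖ld (vy γ (N + 1)) a - ld (vx γ (N + 1)) a‖ := by
    unfold Ar
    refine (abs_im_le_norm _).trans ?_
    rw [norm_mul, norm_conj]
  have h5 : ‖ld (vw γ (N + 1)) a - ld (vx γ (N + 1)) a‖ ≤ 2 * δ :=
    (norm_sub_le _ _).trans (by linarith)
  have h6 : ‖ld (vy γ (N + 1)) a - ld (vx γ (N + 1)) a‖ ≤ 2 * δ :=
    (norm_sub_le _ _).trans (by linarith)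
  have h7 : ‖ld (vw γ (N + 1)) a - ld (vx γ (N + 1)) a‖ *
      ‖ld (vy γ (N + 1)) a - ld (vx γ (N + 1)) a‖ ≤ (2 * δ) * (2 * δ) :=
    mul_le_mul h5 h6 (norm_nonneg _) (by positivity)
  have h8 : δ ≤ 1 := min_le_left _ _
  have h9 : δ ≤ c / 8 := min_le_right _ _
  nlinarith

end Pool.Agent.Loc
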