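import Pool.Agent.Loc.CodA
import Pool.Agent.Loc.T6b
import Pool.Agent.NoH.Top

set_option autoImplicit false

/-!
# Loc: T7, group B
-/

namespace Pool.Agent.Loc

open Complex Pool.Agent.FZC Metric Set Filter Topology

/-- The frontier of the spectrum in the closed quadrant. -/
def F : Set ℂ := frontier Sig ∩ Qc

theorem norm_le_two {z : ℂ} (hz : z ∈ Sig) : ‖z‖ ≤ 2 := by
  by_contra h
  exact NoH.far_not_mem z (by linarith) hz

theorem F_sub_Sig {z : ℂ} (hz : z ∈ F) : z ∈ Sig :=
  FZR.isClosed_Sig.frontier_subset hz.1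

theorem F_sub_clU {z : ℂ} (hz : z ∈ F) : z ∈ closure U := by
  have h := hz.1
  rw [frontier_eq_closure_inter_closure] at h
  exact h.2

theorem mem_F {z : ℂ} (h1 : z ∈ Sig) (h2 : z ∈ closure U) (h3 : z ∈ Qc) : z ∈ F := by
  refine ⟨?_, h3⟩
  rw [frontier_eq_closure_inter_closure]
  exact ⟨subset_closure h1, h2⟩

theorem F_cases {z : ℂ} (hz : z ∈ F) : z = 2 ∨ z = 2 * I ∨
    (z ∈ Q ∧ Low z ∧ Inf (bits z) z ∧ ¬ Grow (bits z) z) ∨
    (z ∈ Q ∧ ∃ n, End (bits z) n z ∧ vw (bits z) n z = 2) := by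
  have hS := F_sub_Sig hz
  have hU := F_sub_clU hz
  have h2 := norm_le_two hS
  obtain ⟨-, hre, him⟩ := hz
  rcases eq_or_lt_of_le him with h | h
  · left
    have h3 := axis_ge hU (Or.inl h.symm)
    have h4 : ‖z‖ = 2 := le_antisymm h2 h3
    have h5 : z = ((z.re : ℝ) : ℂ) := by
      apply Complex.ext <;> simp [← h]
    have h6 : z.re = 2 := by
      rw [h5, norm_real, Real.norm_eq_abs, abs_of_nonneg hre] at h4
      exact h4
    rw [h5, h6]; norm_num
  rcases eq_or_lt_of_le hre with h' | h'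
  · right; left
    have h3 := axis_ge hU (Or.inr h'.symm)
    have h4 : ‖z‖ = 2 := le_antisymm h2 h3
    have h5 : z = ((z.im : ℝ) : ℂ) * I := by
      apply Complex.ext <;> simp [← h']
    have h6 : z.im = 2 := by
      rw [h5, norm_mul, norm_real, norm_I, mul_one, Real.norm_eq_abs, abs_of_nonneg him] at h4
      exact h4
    rw [h5, h6]; norm_num
  right; right
  have hQ : z ∈ Q := ⟨h', h⟩
  rcases path_exists hQ hU with hi | ⟨n, hn⟩
  · left
    refine ⟨hQ, low hU, hi, fun hg => ?_⟩
    exact grow_mem hQ hU hi hg hS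
  · right
    refine ⟨hQ, n, hn, ?_⟩
    have h3 := real_ge hU hn.2.1
    rw [abs_of_pos hn.2.2] at h3
    have h4 : (vw (bits z) n z).re = 2 := by
      rcases eq_or_lt_of_le h3 with h5 | h5
      · exact h5.symm
      · exact absurd hS (end_mem hQ hU hn h5)
    apply Complex.ext
    · rw [h4]; simp
    · rw [hn.2.1]; simp

/-- Type of a code sequence. -/
theorem bits_two (n : ℕ) : bits 2 n = false := (bits_real (by simp) (by simp) n).1

theorem bits_two_I (n : ℕ) : bits (2 * I) n = true := (bits_imag (by simp) (by simp) n).1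

/-- A point of `F` whose bits are eventually `true` is `2 * I`. -/
theorem F_ev_true {z : ℂ} (hz : z ∈ F) {N : ℕ} (h : ∀ k, N ≤ k → bits z k = true) : z = 2 * I := by
  rcases F_cases hz with h1 | h1 | ⟨hQ, hl, hi, -⟩ | ⟨hQ, n, hn, hw⟩
  · subst h1
    have := h N le_rfl
    rw [bits_two] at this; cases this
  · exact h1
  · obtain ⟨m, hm, hh⟩ := not_const hQ hl hi N
    exact absurd ((h m hm).trans (h (m + 1) (by omega)).symm) hh
  · have h2 : 2 ≤ (vw (bits z) n z).re := by rw [hw]; simp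
    have h3 := (end_tail hQ hn h2).2 (max N (n + 1)) (by
      have := le_max_right N (n + 1); omega)
    rw [h _ (le_max_left _ _)] at h3; cases h3

/-- A point of `F` whose bits are eventually `false`: it is `2` or a finite end with value `2`. -/
theorem F_ev_false {z : ℂ} (hz : z ∈ F) {N : ℕ} (h : ∀ k, N ≤ k → bits z k = false) : z = 2 ∨
    (z ∈ Q ∧ ∃ n, End (bits z) n z ∧ vw (bits z) n z = 2) := by
  rcases F_cases hz with h1 | h1 | ⟨hQ, hl, hi, -⟩ | h1
  · exact Or.inl h1
  · subst h1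
    have := h N le_rfl
    rw [bits_two_I] at this; cases this
  · obtain ⟨m, hm, hh⟩ := not_const hQ hl hi N
    exact absurd ((h m hm).trans (h (m + 1) (by omega)).symm) hh
  · exact Or.inr h1

theorem code_inj : InjOn code F := by
  intro z hz z' hz' he
  -- the bit sequences agree
  have hb : bits z = bits z' := by
    rcases cod_inj he with h | ⟨n, -, h | h⟩
    · exact h
    · obtain ⟨-, h2, h3⟩ := h
      have h4 := F_ev_true hz' (N := n + 1) (fun k hk => (h3 k (by omega)).2)
      rw [h4, bits_two_I] at h2; cases h2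
    · obtain ⟨h2, -, h3⟩ := h
      have h4 := F_ev_true hz (N := n + 1) (fun k hk => (h3 k (by omega)).1)
      rw [h4, bits_two_I] at h2; cases h2
  rcases F_cases hz with h1 | h1 | ⟨hQ, hl, hi, hg⟩ | ⟨hQ, n, hn, hw⟩
  · -- all bits false
    have h0 : ∀ k, 0 ≤ k → bits z' k = false := fun k _ => by rw [← hb, h1, bits_two]
    rcases F_ev_false hz' h0 with h2 | ⟨hQ', m, hm, hw'⟩
    · rw [h1, h2]
    · have := (end_tail hQ' hm (by rw [hw']; simp)).1
      rw [h0 m (by omega)] at this; cases this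
  · have h0 : ∀ k, 0 ≤ k → bits z' k = true := fun k _ => by rw [← hb, h1, bits_two_I]
    rw [h1, F_ev_true hz' h0]
  · have hnc := not_const hQ hl hi
    rcases F_cases hz' with h1' | h1' | ⟨hQ', hl', hi', hg'⟩ | ⟨hQ', n', hn', hw'⟩
    · obtain ⟨m, -, hh⟩ := hnc 0
      exact absurd (by rw [hb, h1', bits_two, bits_two]) hh
    · obtain ⟨m, -, hh⟩ := hnc 0
      exact absurd (by rw [hb, h1', bits_two_I, bits_two_I]) hh
    · obtain ⟨C, hC⟩ := hinge_bdd
      rw [← hb] at hi' hg'
      exact uniq_inf hQ hQ' hl hl' hi hi' C (hC _ z hQ hl hi hg) (hC _ z' hQ' hl' hi' hg')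
    · have ht := (end_tail hQ' hn' (by rw [hw']; simp)).2
      obtain ⟨m, hm, hh⟩ := hnc (n' + 1)
      exact absurd (by rw [hb, ht m (by omega), ht (m + 1) (by omega)]) hh
  · have ht := end_tail hQ hn (by rw [hw]; simp)
    rcases F_ev_false hz' (N := n + 1) (fun k hk => by rw [← hb]; exact ht.2 k (by omega)) with
      h2 | ⟨hQ', m, hm, hw'⟩
    · have := ht.1
      rw [hb, h2, bits_two] at this; cases this
    · have ht' := end_tail hQ' hm (by rw [hw']; simp)
      have hnm : m = n := by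
        rcases lt_trichotomy m n with h | h | h
        · have := ht'.2 n h
          rw [← hb, ht.1] at this; cases this
        · exact h
        · have := ht.2 m h
          rw [hb, ht'.1] at this; cases this
      subst hnm
      rw [← hb] at hm hw'
      exact uniq_end hQ hQ' hn hm (hw.trans hw'.symm) (by rw [hw]; simp)

theorem isCompact_Sig : IsCompact Sig := by
  rw [Sig_eq]; exact isCompact_bddSol

theorem isClosed_Qc : IsClosed Qc :=
  (isClosed_le continuous_const continuous_re).inter (isClosed_le continuous_const continuous_im)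

theorem isCompact_F : IsCompact F := by
  have h : IsCompact (frontier Sig) :=
    isCompact_Sig.of_isClosed_subset isClosed_frontier FZR.isClosed_Sig.frontier_subset
  exact h.inter_right isClosed_Qc

theorem large_aux {z : ℂ} (hz : 3 ≤ ‖z‖) (β : ℕ → Bool) (n : ℕ) :
    3 ≤ ‖vx β n z‖ ∧ 3 ≤ ‖vy β n z‖ ∧ 2 * ‖vx β n z‖ ≤ ‖vw β n z‖ ∧
      2 * ‖vy β n z‖ ≤ ‖vw β n z‖ ∧ ‖z‖ ≤ ‖vw β n z‖ := by
  induction n with
  | zero =>
    simp only [vx_zero, vy_zero, vw_zero, norm_mul, norm_neg, norm_I, one_mul, norm_pow]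
    refine ⟨hz, hz, ?_, ?_, ?_⟩ <;> nlinarith
  | succ n ih =>
    obtain ⟨h1, h2, h3, h4, h5⟩ := ih
    cases h : β n
    · rw [vx_f h, vy_f h, vw_f h]
      have h6 : ‖vx β n z‖ * ‖vw β n z‖ - ‖vy β n z‖ ≤ ‖vx β n z * vw β n z - vy β n z‖ := by
        rw [← norm_mul]; exact norm_sub_norm_le _ _
      refine ⟨h1, by linarith, ?_, ?_, ?_⟩ <;> nlinarith
    · rw [vx_t h, vy_t h, vw_t h]
      have h6 : ‖vw β n z‖ * ‖vy β n z‖ - ‖vx β n z‖ ≤ ‖vw β n z * vy β n z - vx β n z‖ := by
        rw [← norm_mul]; exact norm_sub_norm_le _ _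
      refine ⟨by linarith, h2, ?_, ?_, ?_⟩ <;> nlinarith

theorem large {z : ℂ} (hz : 3 ≤ ‖z‖) (β : ℕ → Bool) (n : ℕ) : ‖z‖ ≤ ‖vw β n z‖ :=
  (large_aux hz β n).2.2.2.2

theorem dyadic {β : ℕ → Bool} {n : ℕ} (h1 : β n = true) (h0 : ∀ k, n < k → β k = false) :
    ∃ z ∈ F, code z = cod β := by
  -- ray points with end values `2 + 1 / (k + 1)`
  have hv : ∀ k : ℕ, (2 : ℝ) < 2 + 1 / ((k : ℝ) + 1) := fun k => by
    have : (0 : ℝ) < 1 / ((k : ℝ) + 1) := by positivity
    linarith
  choose p hpU hpQ hpE hpw using fun k : ℕ => ray β n _ (hv k)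
  have hp3 : ∀ k, ‖p k‖ ≤ 3 := by
    intro k
    by_contra hc
    push Not at hc
    have h2 := large hc.le β n
    rw [hpw k, norm_real, Real.norm_eq_abs, abs_of_pos (by linarith [hv k])] at h2
    have h3 : 1 / ((k : ℝ) + 1) ≤ 1 := by
      rw [div_le_one (by positivity)]
      have : (0 : ℝ) ≤ k := Nat.cast_nonneg k
      linarith
    linarith
  have hcode : ∀ k, code (p k) = cod β := by
    intro k
    have h2 : 2 ≤ (vw β n (p k)).re := by rw [hpw k, ofReal_re]; exact (hv k).le
    have h3 := end_tail (hpQ k) (hpE k) h2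
    have h4 := good_bits (hpE k).1
    have : bits (p k) = β := by
      funext j
      rcases lt_trichotomy j n with h | h | h
      · exact (h4 j h).symm
      · rw [h, h3.1, h1]
      · rw [h3.2 j h, h0 j h]
    rw [code, this]
  obtain ⟨z, hz, φ, hφ, hlim⟩ := (isCompact_closedBall (0 : ℂ) 3).tendsto_subseq
    (x := p) (fun k => by rw [mem_closedBall, dist_zero_right]; exact hp3 k)
  have hzU : z ∈ closure U := mem_closure_of_tendsto hlim (Eventually.of_forall fun k => hpU _)
  have hzQ : z ∈ Qc := isClosed_Qc.mem_of_tendsto hlim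
    (Eventually.of_forall fun k => ⟨(hpQ (φ k)).1.le, (hpQ (φ k)).2.le⟩)
  have hw : vw β n z = 2 := by
    have h2 : Tendsto (fun k => vw β n (p (φ k))) atTop (𝓝 (vw β n z)) :=
      ((cont_vw β n).tendsto z).comp hlim
    have h3 : Tendsto (fun k => vw β n (p (φ k))) atTop (𝓝 2) := by
      simp only [hpw]
      have h4 : Tendsto (fun k : ℕ => (2 : ℝ) + 1 / ((φ k : ℝ) + 1)) atTop (𝓝 (2 + 0)) :=
        tendsto_const_nhds.add (tendsto_one_div_add_atTop_nhds_zero_nat.comp hφ.tendsto_atTop)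
      have h5 := (continuous_ofReal.tendsto (2 + 0)).comp h4
      simpa [Function.comp_def] using h5
    exact tendsto_nhds_unique h2 h3
  have hzS : z ∈ Sig := by
    by_contra hc
    have := real_gt (z := z) hc (β := β) (n := n) (by rw [hw]; simp)
    rw [hw] at this; simp at this
  refine ⟨z, mem_F hzS hzU hzQ, ?_⟩
  have hc := code_cont z ⟨hzU, hzQ⟩
  have h2 : Tendsto (fun k => code (p (φ k))) atTop (𝓝 (code z)) := by
    refine hc.tendsto.comp (tendsto_nhdsWithin_iff.2 ⟨hlim, Eventually.of_forall fun k => ?_⟩)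
    exact ⟨subset_closure (hpU _), (hpQ _).1.le, (hpQ _).2.le⟩
  simp only [hcode] at h2
  exact tendsto_nhds_unique h2 tendsto_const_nhds

/-- Truncation to a dyadic expansion. -/
def trunc (β : ℕ → Bool) (n k : ℕ) : Bool := if k < n then β k else decide (k = n)

theorem code_surj : SurjOn code F (Icc (0 : ℝ) 1) := by
  intro x hx
  obtain ⟨β, rfl⟩ := cod_surj hx
  have hFc : F ⊆ closure U ∩ Qc := fun z hz => ⟨F_sub_clU hz, hz.2⟩
  have hcl : IsClosed (code '' F) := (isCompact_F.image_of_continuousOn (code_cont.mono hFc)).isClosed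
  have hd : ∀ n, cod (trunc β n) ∈ code '' F := by
    intro n
    obtain ⟨z, hz, he⟩ := dyadic (β := trunc β n) (n := n) (by simp [trunc])
      (fun k hk => by simp [trunc, show ¬ k < n by omega, show k ≠ n by omega])
    exact ⟨z, hz, he⟩
  have ht : Tendsto (fun n => cod (trunc β n)) atTop (𝓝 (cod β)) := by
    rw [tendsto_iff_dist_tendsto_zero]
    refine squeeze_zero (fun n => dist_nonneg) (fun n => ?_)
      (tendsto_pow_atTop_nhds_zero_of_lt_one (r := (1 / 2 : ℝ)) (by norm_num) (by norm_num))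
    rw [Real.dist_eq]
    exact cod_close (fun k hk => by simp [trunc, hk])
  exact hcl.mem_of_tendsto ht (Eventually.of_forall hd)

end Pool.Agent.Loc
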