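import Pool.Agent.Loc.T7B
import Pool.Agent.FZC.Rts

set_option autoImplicit false

/-!
# Loc: T7, group C (topology)

`F` is an arc by the code; the frontier of the spectrum is made of the four reflected copies of `F`,
which meet at `± 2`, `± 2 i`; a point of the spectrum is joined with the frontier by a horizontal
segment.
-/

namespace Pool.Agent.Loc

open Complex Pool.Agent.FZC Metric Set Filter Topology

theorem F_sub_cl : F ⊆ closure U ∩ Qc := fun _ hz => ⟨F_sub_clU hz, hz.2⟩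

theorem pathConnected_F : IsPathConnected F := by
  have hcont : ContinuousOn code F := code_cont.mono F_sub_cl
  have hmaps : MapsTo code F (Icc (0 : ℝ) 1) := fun z _ => ⟨cod_nonneg _, cod_le_one _⟩
  have : CompactSpace F := isCompact_iff_compactSpace.1 isCompact_F
  have hc : Continuous (hmaps.restrict code F (Icc (0 : ℝ) 1)) := hcont.mapsToRestrict hmaps
  have hb : Function.Bijective (hmaps.restrict code F (Icc (0 : ℝ) 1)) := by
    constructor
    · intro a b hab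
      exact Subtype.ext (code_inj a.2 b.2 (congrArg Subtype.val hab))
    · rintro ⟨x, hx⟩
      obtain ⟨z, hz, h⟩ := code_surj hx
      exact ⟨⟨z, hz⟩, Subtype.ext h⟩
  let e : F ≃ Icc (0 : ℝ) 1 := Equiv.ofBijective _ hb
  let h : F ≃ₜ Icc (0 : ℝ) 1 := Continuous.homeoOfEquivCompactToT2 (f := e) hc
  have : PathConnectedSpace (Icc (0 : ℝ) 1) :=
    isPathConnected_iff_pathConnectedSpace.1
      ((convex_Icc (0 : ℝ) 1).isPathConnected ⟨0, by simp⟩)
  rw [isPathConnected_iff_pathConnectedSpace]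
  exact h.symm.surjective.pathConnectedSpace h.symm.continuous

theorem sig_neg {z : ℂ} (h : z ∈ Sig) : -z ∈ Sig := by
  rw [Sig_eq] at h ⊢
  obtain ⟨b, hb, ψ, ⟨C, hC⟩, ⟨n₀, h0⟩, hrec⟩ := h
  have hm : ((-1 : ℂ)) ≠ 0 := by norm_num
  have hn : ∀ n : ℤ, ‖((-1 : ℂ) ^ n)‖ = 1 := by
    intro n
    rw [norm_zpow]; simp
  refine ⟨b, hb, fun n => (-1 : ℂ) ^ n * ψ n, ⟨C, fun n => ?_⟩, ⟨n₀, ?_⟩, fun n => ?_⟩
  · rw [norm_mul, hn, one_mul]; exact hC n
  · exact mul_ne_zero (zpow_ne_zero _ hm) h0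
  · have e1 : (-1 : ℂ) ^ (n + 1) = -(-1 : ℂ) ^ n := by rw [zpow_add₀ hm, zpow_one, mul_neg_one]
    have e2 : (-1 : ℂ) ^ (n - 1) = -(-1 : ℂ) ^ n := by
      rw [zpow_sub₀ hm, zpow_one, div_neg, div_one]
    simp only [e1, e2]
    linear_combination (-(-1 : ℂ) ^ n) * hrec n

theorem sig_conj {z : ℂ} (h : z ∈ Sig) : (starRingEnd ℂ) z ∈ Sig := by
  rw [Sig_eq] at h ⊢
  obtain ⟨b, hb, ψ, ⟨C, hC⟩, ⟨n₀, h0⟩, hrec⟩ := h
  refine ⟨b, hb, fun n => (starRingEnd ℂ) (ψ n), ⟨C, fun n => ?_⟩, ⟨n₀, ?_⟩, fun n => ?_⟩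
  · rw [Complex.norm_conj]; exact hC n
  · simpa using h0
  · have hb' : (starRingEnd ℂ) (b (n - 1)) = b (n - 1) := by
      rcases hb (n - 1) with h | h <;> simp [h]
    have := congrArg (starRingEnd ℂ) (hrec n)
    simp only [map_add, map_mul, hb'] at this
    exact this

theorem clU_of_far {z : ℂ} (h : ‖z‖ = 2) : z ∈ closure U := by
  have h1 : Tendsto (fun k : ℕ => ((1 + 1 / ((k : ℝ) + 1) : ℝ) : ℂ) * z) atTop (𝓝 z) := by
    have h2 : Tendsto (fun k : ℕ => (1 : ℝ) + 1 / ((k : ℝ) + 1)) atTop (𝓝 (1 + 0)) :=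
      tendsto_const_nhds.add tendsto_one_div_add_atTop_nhds_zero_nat
    have h3 := ((continuous_ofReal.tendsto (1 + 0)).comp h2).mul_const z
    simpa [Function.comp_def] using h3
  refine mem_closure_of_tendsto h1 (Eventually.of_forall fun k => ?_)
  refine NoH.far_not_mem _ ?_
  have h4 : (0 : ℝ) < 1 / ((k : ℝ) + 1) := by positivity
  rw [norm_mul, norm_real, Real.norm_eq_abs, abs_of_pos (by linarith), h]
  linarith

theorem two_mem_F : (2 : ℂ) ∈ F := by
  refine mem_F ?_ (clU_of_far (by simp)) ⟨by simp, by simp⟩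
  rw [Sig_eq]
  have := bdd_real 2 (by norm_num)
  simpa using this

theorem two_I_mem_F : (2 * I : ℂ) ∈ F := by
  refine mem_F ?_ (clU_of_far (by simp)) ⟨by simp, by simp⟩
  rw [Sig_eq]
  have := bdd_imag 2 (by norm_num)
  simpa using this

/-- The frontier is invariant under the symmetries of the spectrum. -/
theorem frontier_map {f : ℂ → ℂ} (hf : Continuous f) (hi : ∀ z, f (f z) = z)
    (h : ∀ z ∈ Sig, f z ∈ Sig) {z : ℂ} (hz : z ∈ frontier Sig) : f z ∈ frontier Sig := by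
  rw [frontier_eq_closure_inter_closure] at hz ⊢
  refine ⟨map_mem_closure hf hz.1 h, map_mem_closure hf hz.2 fun w hw hc => hw ?_⟩
  have := h _ hc
  rwa [hi] at this

theorem frontier_neg {z : ℂ} (hz : z ∈ frontier Sig) : -z ∈ frontier Sig :=
  frontier_map (f := fun z => -z) continuous_neg (fun z => neg_neg z) (fun _ h => sig_neg h) hz

theorem frontier_conj {z : ℂ} (hz : z ∈ frontier Sig) : (starRingEnd ℂ) z ∈ frontier Sig :=
  frontier_map (f := fun z => (starRingEnd ℂ) z) Complex.continuous_conj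
    (fun z => Complex.conj_conj z) (fun _ h => sig_conj h) hz

theorem frontier_eq_union : frontier Sig =
    (F ∪ (fun z => (starRingEnd ℂ) z) '' F) ∪ ((fun z => -(starRingEnd ℂ) z) '' F ∪
      (fun z => -z) '' F) := by
  ext z
  constructor
  · intro hz
    rcases le_total 0 z.re with h1 | h1 <;> rcases le_total 0 z.im with h2 | h2
    · exact Or.inl (Or.inl ⟨hz, h1, h2⟩)
    · refine Or.inl (Or.inr ⟨(starRingEnd ℂ) z, ⟨frontier_conj hz, ?_, ?_⟩, Complex.conj_conj z⟩)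
      · simpa using h1
      · simpa using h2
    · refine Or.inr (Or.inl ⟨-(starRingEnd ℂ) z, ⟨frontier_neg (frontier_conj hz), ?_, ?_⟩, ?_⟩)
      · simpa using h1
      · simpa using h2
      · simp
    · refine Or.inr (Or.inr ⟨-z, ⟨frontier_neg hz, ?_, ?_⟩, neg_neg z⟩)
      · simpa using h1
      · simpa using h2
  · rintro ((h | ⟨w, h, rfl⟩) | (⟨w, h, rfl⟩ | ⟨w, h, rfl⟩))
    · exact h.1
    · exact frontier_conj h.1
    · exact frontier_neg (frontier_conj h.1)
    · exact frontier_neg h.1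

theorem pathConnected_frontier : IsPathConnected (frontier Sig) := by
  rw [frontier_eq_union]
  have hF := pathConnected_F
  have h1 : IsPathConnected ((fun z => (starRingEnd ℂ) z) '' F) := hF.image Complex.continuous_conj
  have h2 : IsPathConnected ((fun z => -(starRingEnd ℂ) z) '' F) :=
    hF.image Complex.continuous_conj.neg
  have h3 : IsPathConnected ((fun z : ℂ => -z) '' F) := hF.image continuous_neg
  have c2 : (starRingEnd ℂ) 2 = 2 := Complex.conj_ofNat 2
  refine (hF.union h1 ⟨2, two_mem_F, 2, two_mem_F, c2⟩).union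
    (h2.union h3 ⟨-2, ⟨2, two_mem_F, congrArg Neg.neg c2⟩, 2, two_mem_F, rfl⟩) ?_
  exact ⟨2 * I, Or.inl two_I_mem_F, Or.inl ⟨2 * I, two_I_mem_F, by simp [c2]⟩⟩

/-- A point of the spectrum is joined with the frontier by a horizontal segment. -/
theorem joined_frontier {z : ℂ} (hz : z ∈ Sig) : ∃ w ∈ frontier Sig, JoinedIn Sig z w := by
  have hz2 := norm_le_two hz
  let T : Set ℝ := {t : ℝ | 0 ≤ t ∧ z + (t : ℂ) ∈ U}
  have hne : T.Nonempty := by
    refine ⟨5, by norm_num, NoH.far_not_mem _ ?_⟩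
    have h1 : ‖((5 : ℝ) : ℂ)‖ - ‖z‖ ≤ ‖((5 : ℝ) : ℂ) + z‖ := by
      have := norm_sub_norm_le ((5 : ℝ) : ℂ) (-z)
      rwa [norm_neg, sub_neg_eq_add] at this
    rw [add_comm]
    have h2 : ‖((5 : ℝ) : ℂ)‖ = 5 := by rw [norm_real]; norm_num
    rw [h2] at h1
    linarith
  have hbd : BddBelow T := ⟨0, fun t ht => ht.1⟩
  obtain ⟨t₀, ht₀⟩ : ∃ t₀, t₀ = sInf T := ⟨_, rfl⟩
  have h0 : 0 ≤ t₀ := by rw [ht₀]; exact le_csInf hne (fun t ht => ht.1)
  have hlt : ∀ t, 0 ≤ t → t < t₀ → z + (t : ℂ) ∈ Sig := by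
    intro t h1 h2
    by_contra hc
    have h3 : t ∈ T := ⟨h1, hc⟩
    have := csInf_le hbd h3
    rw [← ht₀] at this
    linarith
  have hcont : Continuous fun t : ℝ => z + (t : ℂ) := continuous_const.add continuous_ofReal
  have hmem : z + (t₀ : ℂ) ∈ Sig := by
    rcases h0.eq_or_lt with h | h
    · rw [← h]; simpa using hz
    · have h1 : t₀ ∈ closure (Ico 0 t₀) := by
        rw [closure_Ico h.ne]; exact ⟨h0, le_rfl⟩
      have h2 := map_mem_closure hcont h1 (t := Sig) (fun t ht => hlt t ht.1 ht.2)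
      rwa [FZR.isClosed_Sig.closure_eq] at h2
  have hle : ∀ t, 0 ≤ t → t ≤ t₀ → z + (t : ℂ) ∈ Sig := by
    intro t h1 h2
    rcases h2.eq_or_lt with h | h
    · rw [h]; exact hmem
    · exact hlt t h1 h
  have hcl : z + (t₀ : ℂ) ∈ closure U := by
    have h1 : t₀ ∈ closure T := by rw [ht₀]; exact csInf_mem_closure hne hbd
    exact map_mem_closure (f := fun t : ℝ => z + (t : ℂ)) hcont h1 fun t ht => ht.2
  refine ⟨z + (t₀ : ℂ), ?_, ?_⟩
  · rw [frontier_eq_closure_inter_closure]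
    exact ⟨subset_closure hmem, hcl⟩
  · have h1 : JoinedIn (Icc (0 : ℝ) t₀) 0 t₀ :=
      ((convex_Icc (0 : ℝ) t₀).isPathConnected ⟨0, le_rfl, h0⟩).joinedIn 0 ⟨le_rfl, h0⟩ t₀
        ⟨h0, le_rfl⟩
    have h2 := h1.map hcont
    have h3 : (fun t : ℝ => z + (t : ℂ)) '' Icc 0 t₀ ⊆ Sig := by
      rintro _ ⟨t, ht, rfl⟩
      exact hle t ht.1 ht.2
    have h4 := h2.mono h3
    simpa using h4

theorem pathConnected : IsPathConnected Sig := by
  obtain ⟨x, hx, hj⟩ := pathConnected_frontier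
  refine ⟨x, FZR.isClosed_Sig.frontier_subset hx, fun {y} hy => ?_⟩
  obtain ⟨w, hw, hj'⟩ := joined_frontier hy
  exact ((hj hw).mono FZR.isClosed_Sig.frontier_subset).trans hj'.symm

end Pool.Agent.Loc
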