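import Pool.Agent.Loc.Defs
import Pool.Agent.FZE.Riley

set_option autoImplicit false

/-!
# Loc: words, definitions and algebra (helper67).

Plane `W = w / z`. Letters `T : W ↦ W + 1`, `S = T⁻¹`, `A : W ↦ -1/(z² W)`, `B : W ↦ 1/(z² W)`.
-/

namespace Pool.Agent.Loc

open Complex Pool.Agent.FZC Pool.Agent.FZE Metric Filter Topology

/-- Letters. -/
inductive Lt
  | T | S | A | B
  deriving DecidableEq

/-- The inverse letter, up to sign. -/
def Lt.inv : Lt → Lt
  | .T => .S
  | .S => .T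
  | .A => .A
  | .B => .B

/-- The matrix of a letter. -/
noncomputable def lm (z : ℂ) : Lt → Matrix (Fin 2) (Fin 2) ℂ
  | .T => !![1, 1; 0, 1]
  | .S => !![1, -1; 0, 1]
  | .A => !![0, -z⁻¹; z, 0]
  | .B => !![0, -I * z⁻¹; -I * z, 0]

/-- The matrix of a word. -/
noncomputable def MM (z : ℂ) (g : List Lt) : Matrix (Fin 2) (Fin 2) ℂ := (g.map (lm z)).prod

/-- The inverse word. -/
def winv (g : List Lt) : List Lt := (g.map Lt.inv).reverse

/-- Proper words: the lower left entry does not vanish identically. -/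
def Prp (g : List Lt) : Prop := ∃ z : ℂ, z ≠ 0 ∧ MM z g 1 0 ≠ 0

/-- The centre of a word. -/
noncomputable def cn (z : ℂ) (g : List Lt) : ℂ := MM z g 0 0 / MM z g 1 0

/-- The integer near the centre. -/
noncomputable def nn (g : List Lt) : ℤ := round (cn 4 g).re

/-- The words of the involutions of the left and the right end. -/
def wp (β : ℕ → Bool) : ℕ → List Lt × List Lt
  | 0 => ([.A], [.B])
  | n + 1 => if β n then ((wp β n).1 ++ .T :: (wp β n).2, (wp β n).2)
      else ((wp β n).1, (wp β n).1 ++ .T :: (wp β n).2)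

def wl (β : ℕ → Bool) (n : ℕ) : List Lt := (wp β n).1
def wr (β : ℕ → Bool) (n : ℕ) : List Lt := (wp β n).2
/-- The word of the mediant. -/
def ww (β : ℕ → Bool) (n : ℕ) : List Lt := wl β n ++ .T :: wr β n

/-- The points `x` of a list of signs and digits: `x [] = 0`, `x ((e, n) :: L) = e κ / (n + x L)`,
`κ = 1 / z²`. -/
noncomputable def xv (z : ℂ) : List (Bool × ℤ) → ℂ
  | [] => 0
  | (e, n) :: L => sg e / (z ^ 2 * (n + xv z L))

theorem MM_nil (z : ℂ) : MM z [] = 1 := by simp [MM]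

theorem MM_cons (z : ℂ) (l : Lt) (g : List Lt) : MM z (l :: g) = lm z l * MM z g := by simp [MM]

theorem MM_append (z : ℂ) (g h : List Lt) : MM z (g ++ h) = MM z g * MM z h := by simp [MM]

theorem lm_det {z : ℂ} (hz : z ≠ 0) (l : Lt) : (lm z l).det = 1 := by
  cases l
  · simp [lm, Matrix.det_fin_two_of]
  · simp [lm, Matrix.det_fin_two_of]
  · simp [lm, Matrix.det_fin_two_of, hz]
  · simp only [lm, Matrix.det_fin_two_of]
    have : I * I = -1 := Complex.I_mul_I
    field_simp
    linear_combination -Complex.I_sq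

theorem MM_det {z : ℂ} (hz : z ≠ 0) (g : List Lt) : (MM z g).det = 1 := by
  induction g with
  | nil => simp [MM_nil]
  | cons l g ih => rw [MM_cons, Matrix.det_mul, lm_det hz, ih, one_mul]

theorem lm_inv {z : ℂ} (hz : z ≠ 0) (l : Lt) :
    (lm z l.inv * lm z l = 1 ∧ lm z l * lm z l.inv = 1) ∨
      (lm z l.inv * lm z l = -1 ∧ lm z l * lm z l.inv = -1) := by
  cases l
  · left
    constructor <;>
    · ext i j
      fin_cases i <;> fin_cases j <;> simp [lm, Lt.inv, Matrix.mul_apply]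
  · left
    constructor <;>
    · ext i j
      fin_cases i <;> fin_cases j <;> simp [lm, Lt.inv, Matrix.mul_apply]
  · right
    constructor <;>
    · ext i j
      fin_cases i <;> fin_cases j <;> simp [lm, Lt.inv, Matrix.mul_apply, hz]
  · right
    constructor <;>
    · ext i j
      fin_cases i <;> fin_cases j <;> simp [lm, Lt.inv, Matrix.mul_apply] <;>
      · field_simp
        linear_combination Complex.I_sq

theorem winv_cons (l : Lt) (g : List Lt) : winv (l :: g) = winv g ++ [l.inv] := by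
  simp [winv]

theorem MM_winv {z : ℂ} (hz : z ≠ 0) (g : List Lt) :
    (MM z (winv g) * MM z g = 1 ∧ MM z g * MM z (winv g) = 1) ∨
      (MM z (winv g) * MM z g = -1 ∧ MM z g * MM z (winv g) = -1) := by
  induction g with
  | nil => left; simp [winv, MM_nil]
  | cons l g ih =>
    rw [winv_cons, MM_append, MM_cons z l g, MM_cons z l.inv [], MM_nil, mul_one]
    have e1 : MM z (winv g) * lm z l.inv * (lm z l * MM z g) =
        MM z (winv g) * (lm z l.inv * lm z l) * MM z g := by simp only [mul_assoc]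
    have e2 : lm z l * MM z g * (MM z (winv g) * lm z l.inv) =
        lm z l * (MM z g * MM z (winv g)) * lm z l.inv := by simp only [mul_assoc]
    rw [e1, e2]
    rcases lm_inv hz l with ⟨h1, h2⟩ | ⟨h1, h2⟩ <;> rcases ih with ⟨h3, h4⟩ | ⟨h3, h4⟩ <;>
      rw [h1, h4] <;> simp [h2, h3]

theorem CH (R : Matrix (Fin 2) (Fin 2) ℂ) : R * R = (R 0 0 + R 1 1) • R - R.det • 1 := by
  rw [Matrix.det_fin_two]
  ext i j
  fin_cases i <;> fin_cases j <;> simp [Matrix.mul_apply] <;> ring

theorem MM_T (z : ℂ) (g h : List Lt) : MM z (g ++ .T :: h) = MM z g * (lm z .T * MM z h) := by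
  rw [MM_append, MM_cons]

/-- `R = T P`, `P` of trace `0`. -/
theorem TP_sq {z : ℂ} (hz : z ≠ 0) {g : List Lt} (ht : MM z g 0 0 + MM z g 1 1 = 0) :
    (lm z .T * MM z g) * (lm z .T * MM z g) = MM z g 1 0 • (lm z .T * MM z g) - 1 := by
  rw [CH, Matrix.det_mul, lm_det hz, MM_det hz, mul_one, one_smul]
  congr 2
  simp [lm, Matrix.mul_apply]
  linear_combination ht

theorem PT_sq {z : ℂ} (hz : z ≠ 0) {g : List Lt} (ht : MM z g 0 0 + MM z g 1 1 = 0) :
    (MM z g * lm z .T) * (MM z g * lm z .T) = MM z g 1 0 • (MM z g * lm z .T) - 1 := by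
  rw [CH, Matrix.det_mul, lm_det hz, MM_det hz, mul_one, one_smul]
  congr 2
  simp [lm, Matrix.mul_apply]
  linear_combination ht

theorem wp_all {z : ℂ} (hz : z ≠ 0) (β : ℕ → Bool) (n : ℕ) :
    (MM z (wl β n) 1 0 = vx β n z ∧ MM z (wl β n) 0 0 + MM z (wl β n) 1 1 = 0) ∧
    (MM z (wr β n) 1 0 = vy β n z ∧ MM z (wr β n) 0 0 + MM z (wr β n) 1 1 = 0) ∧
    (MM z (ww β n) 1 0 = vw β n z ∧ MM z (ww β n) 0 0 + MM z (ww β n) 1 1 = 0) := by
  induction n with
  | zero =>
    refine ⟨?_, ?_, ?_⟩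
    · simp [wl, wp, MM, lm, vx, st, s0]
    · simp [wr, wp, MM, lm, vy, st, s0]
    · simp only [ww, wl, wr, wp, MM_T, vw, st, s0]
      constructor
      · simp [MM, lm, Matrix.mul_apply]
        ring
      · simp [MM, lm, Matrix.mul_apply]
        field_simp
        ring
  | succ n ih =>
    obtain ⟨⟨hx, tx⟩, ⟨hy, ty⟩, ⟨hw, tw⟩⟩ := ih
    cases hb : β n with
    | true =>
      have e1 : wl β (n + 1) = ww β n := by simp [wl, wp, hb, ww, wr]
      have e2 : wr β (n + 1) = wr β n := by simp [wr, wp, hb]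
      have f1 : vx β (n + 1) z = vw β n z := by simp [vx, vw, st, step, hb]
      have f2 : vy β (n + 1) z = vy β n z := by simp [vy, st, step, hb]
      have f3 : vw β (n + 1) z = vw β n z * vy β n z - vx β n z := by
        simp [vw, vy, vx, st, step, hb]
      have e3 : MM z (ww β (n + 1)) = vy β n z • MM z (ww β n) - MM z (wl β n) := by
        rw [ww, e1, e2, MM_T, ww, MM_T, mul_assoc, TP_sq hz ty, hy, mul_sub, mul_one,
          Matrix.mul_smul]
      rw [e1, e2, e3, f1, f2, f3]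
      refine ⟨⟨hw, tw⟩, ⟨hy, ty⟩, ?_, ?_⟩
      · rw [Matrix.sub_apply, Matrix.smul_apply, hw, hx, smul_eq_mul, mul_comm]
      · rw [Matrix.sub_apply, Matrix.smul_apply, Matrix.sub_apply, Matrix.smul_apply, smul_eq_mul,
          smul_eq_mul]
        linear_combination vy β n z * tw - tx
    | false =>
      have e1 : wl β (n + 1) = wl β n := by simp [wl, wp, hb]
      have e2 : wr β (n + 1) = ww β n := by simp [wr, wp, hb, ww, wl]
      have f1 : vx β (n + 1) z = vx β n z := by simp [vx, st, step, hb]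
      have f2 : vy β (n + 1) z = vw β n z := by simp [vy, vw, st, step, hb]
      have f3 : vw β (n + 1) z = vx β n z * vw β n z - vy β n z := by
        simp [vw, vy, vx, st, step, hb]
      have e3 : MM z (ww β (n + 1)) = vx β n z • MM z (ww β n) - MM z (wr β n) := by
        have e4 : MM z (wl β n) * (lm z .T * (MM z (wl β n) * (lm z .T * MM z (wr β n)))) =
            (MM z (wl β n) * lm z .T) * (MM z (wl β n) * lm z .T) * MM z (wr β n) := by
          simp only [mul_assoc]
        rw [ww, e1, e2, MM_T, ww, MM_T, e4, PT_sq hz tx, hx, sub_mul, one_mul,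
          Matrix.smul_mul, mul_assoc]
      rw [e1, e2, e3, f1, f2, f3]
      refine ⟨⟨hx, tx⟩, ⟨hw, tw⟩, ?_, ?_⟩
      · rw [Matrix.sub_apply, Matrix.smul_apply, hw, hy, smul_eq_mul]
      · rw [Matrix.sub_apply, Matrix.smul_apply, Matrix.sub_apply, Matrix.smul_apply, smul_eq_mul,
          smul_eq_mul]
        linear_combination vx β n z * tw - ty

theorem wl_eq {z : ℂ} (hz : z ≠ 0) (β : ℕ → Bool) (n : ℕ) :
    MM z (wl β n) 1 0 = vx β n z ∧ MM z (wl β n) 0 0 + MM z (wl β n) 1 1 = 0 :=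
  (wp_all hz β n).1

theorem wr_eq {z : ℂ} (hz : z ≠ 0) (β : ℕ → Bool) (n : ℕ) :
    MM z (wr β n) 1 0 = vy β n z ∧ MM z (wr β n) 0 0 + MM z (wr β n) 1 1 = 0 :=
  (wp_all hz β n).2.1

theorem ww_eq {z : ℂ} (hz : z ≠ 0) (β : ℕ → Bool) (n : ℕ) :
    MM z (ww β n) 1 0 = vw β n z ∧ MM z (ww β n) 0 0 + MM z (ww β n) 1 1 = 0 :=
  (wp_all hz β n).2.2

/-! ### The group in the plane `w` -/

/-- The letters in `SL(2, ℂ)`, plane `w`. -/
noncomputable def sl (z : ℂ) : Lt → SLC
  | .T => mT z
  | .S => (mT z)⁻¹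
  | .A => mE * mI
  | .B => mI⁻¹

/-- Evaluation of a word in the plane `w`. -/
noncomputable def ev (z : ℂ) (g : List Lt) : SLC := (g.map (sl z)).prod

theorem ev_nil (z : ℂ) : ev z [] = 1 := by simp [ev]

theorem ev_cons (z : ℂ) (l : Lt) (g : List Lt) : ev z (l :: g) = sl z l * ev z g := by simp [ev]

theorem ev_append (z : ℂ) (g h : List Lt) : ev z (g ++ h) = ev z g * ev z h := by simp [ev]

theorem sl_mem (z : ℂ) (l : Lt) : sl z l ∈ GG z := by
  cases l
  · exact mT_mem z
  · exact (GG z).inv_mem (mT_mem z)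
  · exact (GG z).mul_mem (mE_mem z) (mI_mem z)
  · exact (GG z).inv_mem (mI_mem z)

theorem ev_mem (z : ℂ) (g : List Lt) : ev z g ∈ GG z := by
  induction g with
  | nil => rw [ev_nil]; exact (GG z).one_mem
  | cons l g ih => rw [ev_cons]; exact (GG z).mul_mem (sl_mem z l) ih

theorem sl_entries (z : ℂ) (l : Lt) :
    sl z l 0 0 = (match l with | .T => 1 | .S => 1 | .A => 0 | .B => 0) ∧
    sl z l 0 1 = (match l with | .T => z | .S => -z | .A => -1 | .B => -I) ∧
    sl z l 1 0 = (match l with | .T => 0 | .S => 0 | .A => 1 | .B => -I) ∧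
    sl z l 1 1 = (match l with | .T => 1 | .S => 1 | .A => 0 | .B => 0) := by
  cases l <;> simp [sl, mul00, mul01, mul10, mul11, inv00, inv01, inv10, inv11]

/-- Comparison of the two planes. -/
theorem MM_ev {z : ℂ} (hz : z ≠ 0) (g : List Lt) :
    MM z g 0 0 = ev z g 0 0 ∧ MM z g 0 1 = ev z g 0 1 * z⁻¹ ∧ MM z g 1 0 = z * ev z g 1 0 ∧
      MM z g 1 1 = ev z g 1 1 := by
  induction g with
  | nil => simp [MM_nil, ev_nil]
  | cons l g ih =>
    obtain ⟨h00, h01, h10, h11⟩ := ih
    obtain ⟨e00, e01, e10, e11⟩ := sl_entries z l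
    simp only [MM_cons, ev_cons, mul00, mul01, mul10, mul11, Matrix.mul_apply, Fin.sum_univ_two,
      h00, h01, h10, h11, e00, e01, e10, e11]
    cases l <;> simp [lm] <;> (try field_simp) <;> (try simp)

end Pool.Agent.Loc
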