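import Pool.Agent.Loc.WrA

set_option autoImplicit false

/-!
# Loc: normal forms of words (helper67).
-/

namespace Pool.Agent.Loc

open Complex Pool.Agent.FZC Pool.Agent.FZE Metric Filter Topology

/-- `W ↦ W + n`. -/
def Tn (n : ℂ) : Matrix (Fin 2) (Fin 2) ℂ := !![1, n; 0, 1]

/-- `W ↦ -W`. -/
noncomputable def Em : Matrix (Fin 2) (Fin 2) ℂ := !![I, 0; 0, -I]

/-- The letter of a sign: `B` is `κ / W`, `A` is `-κ / W`. -/
def ltr (e : Bool) : Lt := if e then .B else .A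

/-- The canonical matrix of a normal form. -/
noncomputable def Cm (z : ℂ) : List (Bool × ℤ) → ℤ → Matrix (Fin 2) (Fin 2) ℂ
  | [], n => Tn n * lm z .A
  | (e, m) :: L, n => Tn n * (lm z (ltr e) * Cm z L m)

/-- Change the sign of the first digit. -/
def flp : List (Bool × ℤ) → List (Bool × ℤ)
  | [] => []
  | (e, m) :: L => (!e, m) :: L

/-- Elements `W ↦ ± W + n`. -/
def DF (d : Matrix (Fin 2) (Fin 2) ℂ) : Prop :=
  ∃ (e : ℂ) (n : ℤ), e ^ 4 = 1 ∧ d = !![e, e ^ 3 * n; 0, e ^ 3]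

theorem DF_one : DF 1 := ⟨1, 0, by simp, by
  ext i j; fin_cases i <;> fin_cases j <;> simp⟩

theorem DF_neg_one : DF (-1) := ⟨-1, 0, by norm_num, by
  ext i j; fin_cases i <;> fin_cases j <;> simp; norm_num⟩

theorem DF_Em : DF Em := ⟨I, 0, Complex.I_pow_four, by
  ext i j; fin_cases i <;> fin_cases j <;> simp [Em]⟩

theorem DF_Tn (n : ℤ) : DF (Tn n) := ⟨1, n, by simp, by
  ext i j; fin_cases i <;> fin_cases j <;> simp [Tn]⟩

theorem DF_sq {e : ℂ} (h : e ^ 4 = 1) : e ^ 2 = 1 ∨ e ^ 2 = -1 := by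
  have h1 : (e ^ 2 - 1) * (e ^ 2 + 1) = 0 := by linear_combination h
  rcases mul_eq_zero.mp h1 with h2 | h2
  · left; linear_combination h2
  · right; linear_combination h2

theorem DF.mul {d d' : Matrix (Fin 2) (Fin 2) ℂ} (h : DF d) (h' : DF d') : DF (d * d') := by
  obtain ⟨e, n, he, rfl⟩ := h
  obtain ⟨e', n', he', rfl⟩ := h'
  rcases DF_sq he with hs | hs
  · refine ⟨e * e', n + n', by rw [mul_pow, he, he', one_mul], ?_⟩
    ext i j
    fin_cases i <;> fin_cases j <;> simp [Matrix.mul_apply]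
    · linear_combination (e' ^ 3 * n' * e * (-1)) * hs
    · ring
  · refine ⟨e * e', n - n', by rw [mul_pow, he, he', one_mul], ?_⟩
    ext i j
    fin_cases i <;> fin_cases j <;> simp [Matrix.mul_apply]
    · linear_combination (e' ^ 3 * n' * e) * hs
    · ring

theorem DF.neg {d : Matrix (Fin 2) (Fin 2) ℂ} (h : DF d) : DF (-d) := by
  have := DF_neg_one.mul h
  rwa [neg_one_mul] at this

/-! ### Relations of the letters -/

theorem Tn_zero : Tn 0 = 1 := by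
  ext i j; fin_cases i <;> fin_cases j <;> simp [Tn]

theorem Tn_add (a b : ℂ) : Tn a * Tn b = Tn (a + b) := by
  ext i j; fin_cases i <;> fin_cases j <;> simp [Tn, Matrix.mul_apply, add_comm]

theorem lm_T (z : ℂ) : lm z .T = Tn 1 := rfl
theorem lm_S (z : ℂ) : lm z .S = Tn (-1) := rfl

theorem Em_Tn (n : ℂ) : Em * Tn n = Tn (-n) * Em := by
  ext i j; fin_cases i <;> fin_cases j <;> simp [Tn, Em, Matrix.mul_apply, mul_comm]

theorem AA_eq {z : ℂ} (hz : z ≠ 0) : lm z .A * lm z .A = -1 := by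
  ext i j; fin_cases i <;> fin_cases j <;> simp [lm, Matrix.mul_apply, hz]

theorem BB_eq {z : ℂ} (hz : z ≠ 0) : lm z .B * lm z .B = -1 := by
  ext i j; fin_cases i <;> fin_cases j <;> simp [lm, Matrix.mul_apply] <;>
  · field_simp
    linear_combination Complex.I_sq

theorem AB_eq {z : ℂ} (hz : z ≠ 0) : lm z .A * lm z .B = Em := by
  ext i j; fin_cases i <;> fin_cases j <;> simp [lm, Em, Matrix.mul_apply] <;>
  · field_simp

theorem BA_eq {z : ℂ} (hz : z ≠ 0) : lm z .B * lm z .A = -Em := by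
  ext i j; fin_cases i <;> fin_cases j <;> simp [lm, Em, Matrix.mul_apply] <;>
  · field_simp

theorem EA_eq (z : ℂ) : Em * lm z .A = lm z .B := by
  ext i j; fin_cases i <;> fin_cases j <;> simp [lm, Em, Matrix.mul_apply]

theorem EB_eq (z : ℂ) : Em * lm z .B = -lm z .A := by
  ext i j; fin_cases i <;> fin_cases j <;> simp [lm, Em, Matrix.mul_apply] <;>
  · ring_nf
    simp

theorem EX_eq (z : ℂ) (e : Bool) : ∃ c : ℂ, (c = 1 ∨ c = -1) ∧
    Em * lm z (ltr e) = c • lm z (ltr (!e)) := by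
  cases e
  · exact ⟨1, Or.inl rfl, by simp [ltr, EA_eq]⟩
  · exact ⟨-1, Or.inr rfl, by simp [ltr, EB_eq]⟩

theorem Em_Cm (L : List (Bool × ℤ)) (n : ℤ) : ∃ d, DF d ∧ ∀ z : ℂ, z ≠ 0 →
    Em * Cm z L n = Cm z (flp L) (-n) * d := by
  match L with
  | [] =>
    refine ⟨-Em, DF_Em.neg, fun z hz => ?_⟩
    have h1 : lm z .A * (-Em) = lm z .B := by
      rw [← AB_eq hz, mul_neg, ← mul_assoc, AA_eq hz, neg_mul, neg_neg, one_mul]
    simp only [Cm, flp, Int.cast_neg]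
    rw [← mul_assoc, Em_Tn, mul_assoc, EA_eq, mul_assoc, h1]
  | (e, m) :: L =>
    cases e with
    | false =>
      refine ⟨1, DF_one, fun z hz => ?_⟩
      simp only [Cm, flp, Int.cast_neg, Bool.not_false, mul_one, ltr, if_true]
      rw [← mul_assoc, Em_Tn, mul_assoc, ← mul_assoc Em, if_neg (by simp), EA_eq]
    | true =>
      refine ⟨-1, DF_neg_one, fun z hz => ?_⟩
      simp only [Cm, flp, Int.cast_neg, Bool.not_true, ltr, if_true]
      rw [← mul_assoc, Em_Tn, mul_assoc, ← mul_assoc Em, EB_eq, if_neg (by simp)]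
      simp

/-- All digits are nonzero. -/
def Dg (L : List (Bool × ℤ)) : Prop := ∀ p ∈ L, p.2 ≠ 0

theorem Dg_nil : Dg [] := by simp [Dg]

theorem Dg_cons {e : Bool} {m : ℤ} {L : List (Bool × ℤ)} : Dg ((e, m) :: L) ↔ m ≠ 0 ∧ Dg L := by
  simp only [Dg, List.mem_cons, forall_eq_or_imp]

theorem Dg_flp {L : List (Bool × ℤ)} (h : Dg L) : Dg (flp L) := by
  match L with
  | [] => exact h
  | (e, m) :: L => rw [flp]; rw [Dg_cons] at h ⊢; exact h

/-- The word `g` fixes `∞`. -/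
def Ip (g : List Lt) : Prop := ∃ d, DF d ∧ ∀ z : ℂ, z ≠ 0 → MM z g = d

/-- The word `g` has the normal form `(n, L)`. -/
def Rp (g : List Lt) (n : ℤ) (L : List (Bool × ℤ)) : Prop :=
  Dg L ∧ ∃ d, DF d ∧ ∀ z : ℂ, z ≠ 0 → MM z g = Cm z L n * d

theorem Tn_Cm (z : ℂ) (L : List (Bool × ℤ)) (n m : ℤ) : Tn m * Cm z L n = Cm z L (m + n) := by
  match L with
  | [] => simp only [Cm, Int.cast_add]; rw [← mul_assoc, Tn_add]
  | (e, k) :: L => simp only [Cm, Int.cast_add]; rw [← mul_assoc, Tn_add]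

theorem Cm_zero_nil (z : ℂ) : Cm z [] 0 = lm z .A := by
  simp [Cm, Tn_zero]

theorem Cm_zero_cons (z : ℂ) (e : Bool) (m : ℤ) (L : List (Bool × ℤ)) :
    Cm z ((e, m) :: L) 0 = lm z (ltr e) * Cm z L m := by
  simp [Cm, Tn_zero]

theorem Rp.T {g : List Lt} {n : ℤ} {L : List (Bool × ℤ)} (h : Rp g n L) :
    Rp (.T :: g) (n + 1) L := by
  obtain ⟨hL, d, hd, h⟩ := h
  refine ⟨hL, d, hd, fun z hz => ?_⟩
  rw [MM_cons, h z hz, lm_T, ← mul_assoc]
  have := Tn_Cm z L n 1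
  rw [Int.cast_one] at this
  rw [this, add_comm]

theorem Rp.S {g : List Lt} {n : ℤ} {L : List (Bool × ℤ)} (h : Rp g n L) :
    Rp (.S :: g) (n - 1) L := by
  obtain ⟨hL, d, hd, h⟩ := h
  refine ⟨hL, d, hd, fun z hz => ?_⟩
  rw [MM_cons, h z hz, lm_S, ← mul_assoc]
  have := Tn_Cm z L n (-1)
  rw [Int.cast_neg, Int.cast_one] at this
  rw [this]
  congr 2
  ring

theorem Ip.T {g : List Lt} (h : Ip g) : Ip (.T :: g) := by
  obtain ⟨d, hd, h⟩ := h
  refine ⟨Tn 1 * d, ?_, fun z hz => by rw [MM_cons, h z hz, lm_T]⟩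
  have := (DF_Tn 1).mul hd
  rwa [Int.cast_one] at this

theorem Ip.S {g : List Lt} (h : Ip g) : Ip (.S :: g) := by
  obtain ⟨d, hd, h⟩ := h
  refine ⟨Tn (-1) * d, ?_, fun z hz => by rw [MM_cons, h z hz, lm_S]⟩
  have := (DF_Tn (-1)).mul hd
  rwa [Int.cast_neg, Int.cast_one] at this

theorem Ip.A {g : List Lt} (h : Ip g) : Rp (.A :: g) 0 [] := by
  obtain ⟨d, hd, h⟩ := h
  exact ⟨Dg_nil, d, hd, fun z hz => by rw [MM_cons, h z hz, Cm_zero_nil]⟩

theorem Ip.B {g : List Lt} (h : Ip g) : Rp (.B :: g) 0 [] := by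
  obtain ⟨d, hd, h⟩ := h
  refine ⟨Dg_nil, -Em * d, DF_Em.neg.mul hd, fun z hz => ?_⟩
  have h1 : lm z .A * (-Em) = lm z .B := by
    rw [← AB_eq hz, mul_neg, ← mul_assoc, AA_eq hz, neg_mul, neg_neg, one_mul]
  rw [MM_cons, h z hz, Cm_zero_nil, ← mul_assoc, h1]

theorem Rp.X {g : List Lt} {n : ℤ} {L : List (Bool × ℤ)} (h : Rp g n L) (hn : n ≠ 0) (e : Bool) :
    Rp (ltr e :: g) 0 ((e, n) :: L) := by
  obtain ⟨hL, d, hd, h⟩ := h
  refine ⟨Dg_cons.2 ⟨hn, hL⟩, d, hd, fun z hz => ?_⟩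
  rw [MM_cons, h z hz, Cm_zero_cons, mul_assoc]

theorem Rp.A {g : List Lt} {n : ℤ} {L : List (Bool × ℤ)} (h : Rp g n L) (hn : n ≠ 0) :
    Rp (.A :: g) 0 ((false, n) :: L) := h.X hn false

theorem Rp.B {g : List Lt} {n : ℤ} {L : List (Bool × ℤ)} (h : Rp g n L) (hn : n ≠ 0) :
    Rp (.B :: g) 0 ((true, n) :: L) := h.X hn true

theorem Rp.E {g : List Lt} {n : ℤ} {L : List (Bool × ℤ)} (h : Rp g n L) :
    Rp (.A :: .B :: g) (-n) (flp L) := by
  obtain ⟨hL, d, hd, h⟩ := h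
  obtain ⟨d', hd', h'⟩ := Em_Cm L n
  refine ⟨Dg_flp hL, d' * d, hd'.mul hd, fun z hz => ?_⟩
  rw [MM_cons, MM_cons, h z hz, ← mul_assoc, ← mul_assoc, AB_eq hz, h' z hz, mul_assoc]

theorem Ip.E {g : List Lt} (h : Ip g) : Ip (.A :: .B :: g) := by
  obtain ⟨d, hd, h⟩ := h
  exact ⟨Em * d, DF_Em.mul hd, fun z hz => by
    rw [MM_cons, MM_cons, h z hz, ← mul_assoc, AB_eq hz]⟩

/-- Letters at normal forms with integer `0`. -/
theorem Rp.X0 {g : List Lt} {L : List (Bool × ℤ)} (h : Rp g 0 L) (e : Bool) :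
    Ip (ltr e :: g) ∨ ∃ n L', Rp (ltr e :: g) n L' := by
  obtain ⟨hL, d, hd, h⟩ := h
  have hX : ∀ (e f : Bool), ∃ c, DF c ∧ (∀ z, z ≠ 0 → lm z (ltr e) * lm z (ltr f) = c) ∧
      (c = -1 ∨ c = Em ∨ c = -Em) := by
    intro e f
    cases e <;> cases f
    · exact ⟨-1, DF_neg_one, fun z hz => by simpa [ltr] using AA_eq hz, by simp⟩
    · exact ⟨Em, DF_Em, fun z hz => by simpa [ltr] using AB_eq hz, by simp⟩
    · exact ⟨-Em, DF_Em.neg, fun z hz => by simpa [ltr] using BA_eq hz, by simp⟩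
    · exact ⟨-1, DF_neg_one, fun z hz => by simpa [ltr] using BB_eq hz, by simp⟩
  match L with
  | [] =>
    left
    obtain ⟨c, hc, he, -⟩ := hX e false
    refine ⟨c * d, hc.mul hd, fun z hz => ?_⟩
    have h1 := he z hz
    have h2 : lm z (ltr false) = lm z .A := by simp [ltr]
    rw [MM_cons, h z hz, Cm_zero_nil, ← mul_assoc, ← h2, h1]
  | (f, m) :: L =>
    right
    obtain ⟨c, hc, he, hc'⟩ := hX e f
    have hL' := (Dg_cons.1 hL).2
    have key : ∀ z, z ≠ 0 → MM z (ltr e :: g) = c * Cm z L m * d := by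
      intro z hz
      rw [MM_cons, h z hz, Cm_zero_cons, ← mul_assoc, ← mul_assoc, he z hz]
    obtain ⟨d', hd', h'⟩ := Em_Cm L m
    rcases hc' with rfl | rfl | rfl
    · exact ⟨m, L, hL', -d, hd.neg, fun z hz => by rw [key z hz]; simp⟩
    · exact ⟨-m, flp L, Dg_flp hL', d' * d, hd'.mul hd, fun z hz => by
        rw [key z hz, h' z hz, mul_assoc]⟩
    · exact ⟨-m, flp L, Dg_flp hL', -(d' * d), (hd'.mul hd).neg, fun z hz => by
        rw [key z hz, neg_mul, h' z hz, neg_mul, mul_neg, mul_assoc]⟩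

/-- Every word has a normal form. -/
theorem nform (g : List Lt) : Ip g ∨ ∃ n L, Rp g n L := by
  induction g with
  | nil => exact Or.inl ⟨1, DF_one, fun z _ => MM_nil z⟩
  | cons l g ih =>
    rcases ih with h | ⟨n, L, h⟩
    · cases l
      · exact Or.inl h.T
      · exact Or.inl h.S
      · exact Or.inr ⟨_, _, h.A⟩
      · exact Or.inr ⟨_, _, h.B⟩
    · cases l
      · exact Or.inr ⟨_, _, h.T⟩
      · exact Or.inr ⟨_, _, h.S⟩
      · by_cases hn : n = 0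
        · subst hn
          simpa [ltr] using h.X0 false
        · exact Or.inr ⟨_, _, h.A hn⟩
      · by_cases hn : n = 0
        · subst hn
          simpa [ltr] using h.X0 true
        · exact Or.inr ⟨_, _, h.B hn⟩

end Pool.Agent.Loc
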