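import Pool.Agent.Loc.WrB
import Pool.Agent.Loc.Lnk

set_option autoImplicit false

/-!
# Loc: centres on `U` (helper67).
-/

namespace Pool.Agent.Loc

open Complex Pool.Agent.FZC Pool.Agent.FZE Metric Filter Topology

/-! ### Traps -/

theorem sg_norm (e : Bool) : ‖sg e‖ = 1 := by cases e <;> simp [sg]

theorem xv_mem {z : ℂ} {K : Set ℂ} (hK : Trap z K) (hc : IsConnected K) :
    ∀ L : List (Bool × ℤ), Dg L → z * xv z L ∈ K
  | [], _ => by simpa [xv] using hK.zero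
  | (e, m) :: L, h => by
    obtain ⟨hm, hL⟩ := Dg_cons.1 h
    have hz := trap_ne_zero hK
    have ih := xv_mem hK hc L hL
    have h1 : (m : ℂ) * z + z * xv z L ∉ K := by
      intro h2
      exact trap_multiples hK hc m hm _ h2 _ ih (by ring)
    have h2 := hK.inv _ h1
    have h3 : (m : ℂ) * z + z * xv z L ≠ 0 := fun h0 => h1 (h0 ▸ hK.zero)
    have h4 : z * xv z ((e, m) :: L) = sg e * ((m : ℂ) * z + z * xv z L)⁻¹ := by
      rw [xv]
      have h5 : (m : ℂ) * z + z * xv z L = z * (m + xv z L) := by ring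
      rw [h5] at h3 ⊢
      have h6 := right_ne_zero_of_mul h3
      field_simp
    rw [h4]
    cases e
    · simpa [sg] using hK.neg _ h2
    · simpa [sg] using h2

theorem xv_ne {z : ℂ} {K : Set ℂ} (hK : Trap z K) (hc : IsConnected K) {m : ℤ} (hm : m ≠ 0)
    {L : List (Bool × ℤ)} (hL : Dg L) : (m : ℂ) + xv z L ≠ 0 := by
  intro h0
  have ih := xv_mem hK hc L hL
  have h1 : (m : ℂ) * z + z * xv z L ∉ K := by
    intro h2
    exact trap_multiples hK hc m hm _ h2 _ ih (by ring)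
  apply h1
  have h5 : (m : ℂ) * z + z * xv z L = z * (m + xv z L) := by ring
  rw [h5, h0, mul_zero]
  exact hK.zero

/-- The first column of the canonical matrix. -/
theorem Cm_col {z : ℂ} (hz : z ≠ 0) {K : Set ℂ} (hK : Trap z K) (hc : IsConnected K) :
    ∀ (L : List (Bool × ℤ)) (n : ℤ), Dg L →
      Cm z L n 1 0 ≠ 0 ∧ Cm z L n 0 0 / Cm z L n 1 0 = n + xv z L
  | [], n, _ => by
    constructor
    · simpa [Cm, Tn, lm, Matrix.mul_apply] using hz
    · simp [Cm, Tn, lm, Matrix.mul_apply, xv]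
      field_simp
  | (e, m) :: L, n, h => by
    obtain ⟨hm, hL⟩ := Dg_cons.1 h
    obtain ⟨h1, h2⟩ := Cm_col hz hK hc L m hL
    have h3 := xv_ne hK hc hm hL
    have h4 : Cm z L m 0 0 = (m + xv z L) * Cm z L m 1 0 := by
      rw [← h2, div_mul_cancel₀ _ h1]
    cases e
    · have e1 : Cm z ((false, m) :: L) n 1 0 = z * ((m + xv z L) * Cm z L m 1 0) := by
        simp only [Cm, Matrix.mul_apply, Fin.sum_univ_two, h4]
        simp [Tn, lm, ltr]
      have e2 : Cm z ((false, m) :: L) n 0 0 = -z⁻¹ * Cm z L m 1 0 +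
          n * (z * ((m + xv z L) * Cm z L m 1 0)) := by
        simp only [Cm, Matrix.mul_apply, Fin.sum_univ_two, h4]
        simp [Tn, lm, ltr]
      constructor
      · rw [e1]
        exact mul_ne_zero hz (mul_ne_zero h3 h1)
      · rw [e1, e2, xv]
        simp only [sg]
        field_simp
        simp
        ring
    · have e1 : Cm z ((true, m) :: L) n 1 0 = -I * z * ((m + xv z L) * Cm z L m 1 0) := by
        simp only [Cm, Matrix.mul_apply, Fin.sum_univ_two, h4]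
        simp [Tn, lm, ltr]
      have e2 : Cm z ((true, m) :: L) n 0 0 = -I * z⁻¹ * Cm z L m 1 0 +
          n * (-I * z * ((m + xv z L) * Cm z L m 1 0)) := by
        simp only [Cm, Matrix.mul_apply, Fin.sum_univ_two, h4]
        simp [Tn, lm, ltr]
      have hI : (I : ℂ) ≠ 0 := I_ne_zero
      constructor
      · rw [e1]
        exact mul_ne_zero (mul_ne_zero (neg_ne_zero.2 hI) hz) (mul_ne_zero h3 h1)
      · rw [e1, e2, xv]
        simp only [sg]
        field_simp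
        simp

theorem Rp.col {g : List Lt} {n : ℤ} {L : List (Bool × ℤ)} (h : Rp g n L) {z : ℂ} {K : Set ℂ}
    (hK : Trap z K) (hc : IsConnected K) : MM z g 1 0 ≠ 0 ∧ cn z g = n + xv z L := by
  obtain ⟨hL, d, ⟨e, k, he, rfl⟩, h⟩ := h
  have hz := trap_ne_zero hK
  have he0 : e ≠ 0 := by
    rintro rfl
    norm_num at he
  obtain ⟨h1, h2⟩ := Cm_col hz hK hc L n hL
  have e1 : MM z g 1 0 = Cm z L n 1 0 * e := by
    rw [h z hz]; simp [Matrix.mul_apply]
  have e2 : MM z g 0 0 = Cm z L n 0 0 * e := by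
    rw [h z hz]; simp [Matrix.mul_apply]
  refine ⟨by rw [e1]; exact mul_ne_zero h1 he0, ?_⟩
  rw [cn, e1, e2, mul_div_mul_right _ _ he0, h2]

/-- The unit disc is a trap for `|z| > 2`. -/
theorem trap_disc {z : ℂ} (hz : 2 < ‖z‖) : Trap z (closedBall 0 1) := by
  refine ⟨isCompact_closedBall _ _, by simp, fun x hx => by simpa using hx, fun x hx => ?_,
    fun x hx y hy h => ?_⟩
  · rw [mem_closedBall_zero_iff, not_le] at hx
    rw [mem_closedBall_zero_iff, norm_inv]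
    exact inv_le_one_of_one_le₀ hx.le
  · rw [mem_closedBall_zero_iff] at hx hy
    have := norm_sub_le x y
    rw [h] at this
    linarith

theorem disc_connected : IsConnected (closedBall (0 : ℂ) 1) :=
  ⟨⟨0, by simp⟩, (convex_closedBall 0 1).isPreconnected⟩

theorem big_mem {z : ℂ} (hz : 2 < ‖z‖) : z ∈ U := not_mem_of_trap (trap_disc hz)

theorem xv_le {z : ℂ} (hz : 2 < ‖z‖) {L : List (Bool × ℤ)} (hL : Dg L) :
    ‖xv z L‖ ≤ 1 / ‖z‖ := by
  have h1 := xv_mem (trap_disc hz) disc_connected L hL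
  rw [mem_closedBall_zero_iff, norm_mul] at h1
  rw [le_div_iff₀ (by linarith)]
  linarith

theorem xv_big {z : ℂ} (hz : 4 ≤ ‖z‖) {L : List (Bool × ℤ)} (hL : Dg L) :
    ‖xv z L‖ ≤ 2 / ‖z‖ ^ 2 := by
  match L with
  | [] =>
    simp only [xv, norm_zero]
    positivity
  | (e, m) :: L =>
    obtain ⟨hm, hL'⟩ := Dg_cons.1 hL
    have h1 := xv_le (show 2 < ‖z‖ by linarith) hL'
    have h2 : 1 / ‖z‖ ≤ 1 / 4 := one_div_le_one_div_of_le (by norm_num) hz
    have h3 : (1 : ℝ) ≤ ‖(m : ℂ)‖ := by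
      rw [Complex.norm_intCast]
      exact_mod_cast Int.one_le_abs hm
    have h4 : 1 / 2 ≤ ‖(m : ℂ) + xv z L‖ := by
      have := norm_sub_le ((m : ℂ) + xv z L) (xv z L)
      rw [add_sub_cancel_right] at this
      linarith
    have hz0 : 0 < ‖z‖ := by linarith
    rw [xv, norm_div, sg_norm, norm_mul, norm_pow]
    rw [div_le_div_iff₀ (by positivity) (by positivity)]
    nlinarith [pow_pos hz0 2]

theorem Rp.nn {g : List Lt} {n : ℤ} {L : List (Bool × ℤ)} (h : Rp g n L) : nn g = n := by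
  have h4 : (4 : ℝ) ≤ ‖(4 : ℂ)‖ := by simp
  obtain ⟨-, h1⟩ := h.col (trap_disc (show 2 < ‖(4 : ℂ)‖ by simp; norm_num)) disc_connected
  have h2 := xv_big h4 h.1
  have h3 := (Complex.abs_re_le_norm (xv 4 L)).trans h2
  have h5 : (2 : ℝ) / ‖(4 : ℂ)‖ ^ 2 = 1 / 8 := by simp; norm_num
  rw [h5] at h3
  rw [Pool.Agent.Loc.nn, h1]
  have h6 : ((n : ℂ) + xv 4 L).re = n + (xv 4 L).re := by simp
  rw [h6, round_eq_iff]
  have h7 := abs_le.1 h3
  constructor <;> linarith

theorem Rp.prp {g : List Lt} {n : ℤ} {L : List (Bool × ℤ)} (h : Rp g n L) : Prp g :=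
  ⟨4, by norm_num, (h.col (trap_disc (show 2 < ‖(4 : ℂ)‖ by simp; norm_num)) disc_connected).1⟩

theorem Ip.not_prp {g : List Lt} (h : Ip g) : ¬ Prp g := by
  rintro ⟨z, hz, h1⟩
  obtain ⟨d, ⟨e, k, -, rfl⟩, h⟩ := h
  apply h1
  rw [h z hz]
  simp

theorem prp_iff {g : List Lt} : Prp g ↔ ∃ n L, Rp g n L := by
  constructor
  · intro h
    rcases nform g with h1 | h1
    · exact absurd h h1.not_prp
    · exact h1
  · rintro ⟨n, L, h⟩
    exact h.prp

theorem prp_rp {g : List Lt} (h : Prp g) : ∃ L, Rp g (nn g) L := by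
  obtain ⟨n, L, h1⟩ := prp_iff.1 h
  rw [h1.nn]
  exact ⟨L, h1⟩

theorem not_prp_iff {g : List Lt} : ¬ Prp g ↔ Ip g := by
  constructor
  · intro h
    rcases nform g with h1 | ⟨n, L, h1⟩
    · exact h1
    · exact absurd h1.prp h
  · exact fun h => h.not_prp

/-! ### The statements -/

theorem Trap.ne {z : ℂ} {K : Set ℂ} (hK : Trap z K) (hc : IsConnected K) {g : List Lt}
    (hg : Prp g) : MM z g 1 0 ≠ 0 := by
  obtain ⟨L, h⟩ := prp_rp hg
  exact (h.col hK hc).1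

/-- On `U` proper words are proper everywhere. -/
theorem prp_ne {z : ℂ} (hz : z ∈ U) {g : List Lt} (hg : Prp g) : MM z g 1 0 ≠ 0 := by
  obtain ⟨K, hK, hc, -⟩ := exists_continuum hz
  exact Trap.ne hK hc hg

/-- Improper words fix `∞` for all parameters. -/
theorem not_prp {g : List Lt} (hg : ¬ Prp g) {z : ℂ} (hz : z ≠ 0) : MM z g 1 0 = 0 := by
  by_contra h
  exact hg ⟨z, hz, h⟩

theorem MM_diff (g : List Lt) (i j : Fin 2) : DifferentiableOn ℂ (fun z => MM z g i j) {0}ᶜ := by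
  induction g generalizing i j with
  | nil => simp only [MM_nil]; exact differentiableOn_const _
  | cons l g ih =>
    have h1 : ∀ i j, DifferentiableOn ℂ (fun z => lm z l i j) {0}ᶜ := by
      intro i j
      have hinv : DifferentiableOn ℂ (fun z : ℂ => z⁻¹) {0}ᶜ := differentiableOn_inv
      have hid : DifferentiableOn ℂ (fun z : ℂ => z) {0}ᶜ := differentiableOn_id
      cases l <;> fin_cases i <;> fin_cases j <;>
        simp only [lm, Matrix.of_apply, Matrix.cons_val', Matrix.cons_val_zero,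
          Matrix.cons_val_one, Matrix.cons_val_fin_one, Fin.zero_eta, Fin.mk_one]
      all_goals first
        | exact differentiableOn_const _
        | exact hid
        | exact hinv.neg
        | exact (differentiableOn_const _).mul hinv
        | exact (differentiableOn_const _).mul hid
    simp only [MM_cons, Matrix.mul_apply, Fin.sum_univ_two]
    exact ((h1 i 0).mul (ih 0 j)).add ((h1 i 1).mul (ih 1 j))

theorem MM_contAt (g : List Lt) (i j : Fin 2) {z : ℂ} (hz : z ≠ 0) :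
    ContinuousAt (fun z => MM z g i j) z :=
  ((MM_diff g i j).differentiableAt (isOpen_compl_singleton.mem_nhds hz)).continuousAt

theorem U_open : IsOpen U := Pool.Agent.FZR.isClosed_Sig.isOpen_compl

theorem closure_ne_zero {z : ℂ} (hz : z ∈ closure U) : z ≠ 0 := by
  rintro rfl
  have := (low hz (fun _ => true) 0).1
  simp [vx, st, s0] at this
  linarith

theorem prp_ge_U {z : ℂ} (hz : z ∈ U) {g : List Lt} (hg : Prp g) : 1 ≤ ‖MM z g 1 0‖ := by
  have h1 := prp_ne hz hg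
  have hz0 := zero_not_mem hz
  rw [(MM_ev hz0 g).2.2.1] at h1 ⊢
  exact shim hz (ev_mem z g) (right_ne_zero_of_mul h1)

/-- Shimizu - Leutbecher on the closure of `U`. -/
theorem prp_ge {z : ℂ} (hz : z ∈ closure U) {g : List Lt} (hg : Prp g) : 1 ≤ ‖MM z g 1 0‖ := by
  by_contra hcon
  push Not at hcon
  have hz0 := closure_ne_zero hz
  have h1 := (MM_contAt g 1 0 hz0).norm.eventually (gt_mem_nhds hcon)
  obtain ⟨w, hw, hw2⟩ := mem_closure_iff_nhds.1 hz _ h1
  exact absurd (prp_ge_U hw2 hg) (not_le.2 hw)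

theorem cn_eq_U {z : ℂ} (hz : z ∈ U) {g : List Lt} {n : ℤ} {L : List (Bool × ℤ)} (h : Rp g n L) :
    cn z g = n + xv z L := by
  obtain ⟨K, hK, hc, -⟩ := exists_continuum hz
  exact (h.col hK hc).2

/-- Every centre is `n + x`, `x` with nonzero digits (the same digits for all parameters). -/
theorem cn_xv {g : List Lt} (hg : Prp g) : ∃ L : List (Bool × ℤ), (∀ p ∈ L, p.2 ≠ 0) ∧
    ∀ z ∈ U, cn z g = nn g + xv z L := by
  obtain ⟨L, h⟩ := prp_rp hg
  exact ⟨L, h.1, fun z hz => cn_eq_U hz h⟩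

/-- A trap works for all nearby parameters. -/
theorem Trap.near {z : ℂ} {K : Set ℂ} (h : Trap z K) : ∃ ρ : ℝ, 0 < ρ ∧ ∀ z' ∈ ball z ρ,
    Trap z' K := by
  have hc : IsCompact ((fun q : ℂ × ℂ => q.1 - q.2) '' (K ×ˢ K)) :=
    (h.cpt.prod h.cpt).image (continuous_fst.sub continuous_snd)
  have hz : z ∈ ((fun q : ℂ × ℂ => q.1 - q.2) '' (K ×ˢ K))ᶜ := by
    rintro ⟨⟨x, y⟩, ⟨hx, hy⟩, e⟩
    exact h.sep x hx y hy e
  obtain ⟨ρ, hρ, hb⟩ := Metric.isOpen_iff.1 hc.isClosed.isOpen_compl z hz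
  refine ⟨ρ, hρ, fun z' hz' => ⟨h.cpt, h.zero, h.neg, h.inv, fun x hx y hy he => ?_⟩⟩
  exact hb hz' ⟨(x, y), ⟨hx, hy⟩, he⟩

/-- The centres of all proper words are uniformly near their integers, locally uniformly in `U`. -/
theorem cn_near {z₀ : ℂ} (hz : z₀ ∈ U) : ∃ r C : ℝ, 0 < r ∧ 0 < C ∧ ball z₀ r ⊆ U ∧
    ∀ z ∈ ball z₀ r, ∀ g, Prp g → ‖cn z g - nn g‖ ≤ C := by
  obtain ⟨K, hK, hc, -⟩ := exists_continuum hz
  obtain ⟨ρ, hρ, hn⟩ := Trap.near hK
  obtain ⟨R, hR⟩ := hK.cpt.isBounded.exists_norm_le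
  have hR0 : 0 ≤ R := (norm_nonneg _).trans (hR 0 hK.zero)
  have hU : ball z₀ ρ ⊆ U := fun z hz => not_mem_of_trap (hn z hz)
  refine ⟨ρ, R + 1, hρ, by linarith, hU, fun z hz g hg => ?_⟩
  obtain ⟨L, h⟩ := prp_rp hg
  rw [(h.col (hn z hz) hc).2, add_sub_cancel_left]
  have h1 := hR _ (xv_mem (hn z hz) hc L h.1)
  have h2 : 1 ≤ ‖z‖ := (low (subset_closure (hU hz)) (fun _ => true) 0).1
  rw [norm_mul] at h1
  have h3 := norm_nonneg (xv z L)
  nlinarith

/-- The centres move uniformly slowly. -/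
theorem cn_lip {z₀ : ℂ} (hz : z₀ ∈ U) : ∃ r L : ℝ, 0 < r ∧ 0 < L ∧ ball z₀ r ⊆ U ∧
    ∀ z ∈ ball z₀ r, ∀ z' ∈ ball z₀ r, ∀ g, Prp g → ‖cn z g - cn z' g‖ ≤ L * ‖z - z'‖ := by
  obtain ⟨r, C, hr, hC, hU, hb⟩ := cn_near hz
  refine ⟨r / 2, C / (r / 4), by positivity, by positivity,
    (ball_subset_ball (by linarith)).trans hU, fun z hz z' hz' g hg => ?_⟩
  have hd : DifferentiableOn ℂ (fun w => cn w g - nn g) (ball z₀ r) := by
    have h0 : ball z₀ r ⊆ {0}ᶜ := fun w hw => zero_not_mem (hU hw)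
    exact (((MM_diff g 0 0).mono h0).div ((MM_diff g 1 0).mono h0)
      (fun w hw => prp_ne (hU hw) hg)).sub_const _
  have hder : ∀ w ∈ ball z₀ (r / 2), ‖deriv (fun w => cn w g - nn g) w‖ ≤ C / (r / 4) := by
    intro w hw
    have hsub : closedBall w (r / 4) ⊆ ball z₀ r := by
      intro x hx
      rw [mem_closedBall] at hx
      rw [mem_ball] at hw ⊢
      have := dist_triangle x w z₀
      linarith
    refine Complex.norm_deriv_le_of_forall_mem_sphere_norm_le (by positivity) ?_ fun x hx => ?_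
    · refine DifferentiableOn.diffContOnCl (hd.mono ?_)
      exact Metric.closure_ball_subset_closedBall.trans hsub
    · exact hb x (hsub (sphere_subset_closedBall hx)) g hg
  have key := (convex_ball z₀ (r / 2)).norm_image_sub_le_of_norm_deriv_le (𝕜 := ℂ)
    (f := fun w => cn w g - nn g) (fun w hw => ?_) hder hz' hz
  · simpa using key
  · exact hd.differentiableAt (isOpen_ball.mem_nhds (ball_subset_ball (by linarith) hw))

/-- The centres far away. -/
theorem cn_big {z : ℂ} (hz : 4 ≤ ‖z‖) {g : List Lt} (hg : Prp g) :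
    ‖cn z g - nn g‖ ≤ 2 / ‖z‖ ^ 2 := by
  obtain ⟨L, h⟩ := prp_rp hg
  rw [(h.col (trap_disc (by linarith)) disc_connected).2, add_sub_cancel_left]
  exact xv_big hz h.1

theorem rp_unique {g : List Lt} {n : ℤ} {L : List (Bool × ℤ)} (h : Rp g n L) : nn g = n := h.nn

theorem nn_T {g : List Lt} (hg : Prp g) : Pool.Agent.Loc.nn (.T :: g) = nn g + 1 := by
  obtain ⟨L, h⟩ := prp_rp hg
  exact h.T.nn

theorem nn_S {g : List Lt} (hg : Prp g) : Pool.Agent.Loc.nn (.S :: g) = nn g - 1 := by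
  obtain ⟨L, h⟩ := prp_rp hg
  exact h.S.nn

theorem nn_E {g : List Lt} (hg : Prp g) : Pool.Agent.Loc.nn (.A :: .B :: g) = -nn g := by
  obtain ⟨L, h⟩ := prp_rp hg
  exact h.E.nn

theorem prp_T {g : List Lt} : Prp (.T :: g) ↔ Prp g := by
  constructor
  · intro h
    by_contra hg
    exact (not_prp_iff.1 hg).T.not_prp h
  · intro h
    obtain ⟨L, h⟩ := prp_rp h
    exact h.T.prp

theorem prp_S {g : List Lt} : Prp (.S :: g) ↔ Prp g := by
  constructor
  · intro h
    by_contra hg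
    exact (not_prp_iff.1 hg).S.not_prp h
  · intro h
    obtain ⟨L, h⟩ := prp_rp h
    exact h.S.prp

theorem prp_E {g : List Lt} : Prp (.A :: .B :: g) ↔ Prp g := by
  constructor
  · intro h
    by_contra hg
    exact (not_prp_iff.1 hg).E.not_prp h
  · intro h
    obtain ⟨L, h⟩ := prp_rp h
    exact h.E.prp

/-- If `nn g ≠ 0` then `A g` and `B g` are proper with integer `0`. -/
theorem nn_A {g : List Lt} (hg : Prp g) (hn : nn g ≠ 0) :
    Prp (.A :: g) ∧ Pool.Agent.Loc.nn (.A :: g) = 0 := by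
  obtain ⟨L, h⟩ := prp_rp hg
  exact ⟨(h.A hn).prp, (h.A hn).nn⟩

theorem nn_B {g : List Lt} (hg : Prp g) (hn : nn g ≠ 0) :
    Prp (.B :: g) ∧ Pool.Agent.Loc.nn (.B :: g) = 0 := by
  obtain ⟨L, h⟩ := prp_rp hg
  exact ⟨(h.B hn).prp, (h.B hn).nn⟩

/-- Words fixing `∞` act as `W ↦ ± W + n`. -/
theorem not_prp_act {g : List Lt} (hg : ¬ Prp g) : ∃ (n : ℤ) (e : ℂ), (e ^ 2 = 1 ∨ e ^ 2 = -1) ∧
    ∀ z : ℂ, z ≠ 0 → MM z g 0 0 = e ∧ MM z g 0 0 * MM z g 1 1 = 1 ∧ MM z g 1 0 = 0 ∧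
      MM z g 0 0 * MM z g 0 1 = n := by
  obtain ⟨d, ⟨e, n, he, rfl⟩, h⟩ := not_prp_iff.1 hg
  refine ⟨n, e, DF_sq he, fun z hz => ?_⟩
  rw [h z hz]
  refine ⟨by simp, ?_, by simp, ?_⟩
  · simp
    linear_combination he
  · simp
    linear_combination n * he

theorem nn_inf {g : List Lt} (hg : ¬ Prp g) : Prp (.A :: g) ∧ Pool.Agent.Loc.nn (.A :: g) = 0 ∧
    Prp (.B :: g) ∧ Pool.Agent.Loc.nn (.B :: g) = 0 := by
  have h := not_prp_iff.1 hg
  exact ⟨h.A.prp, h.A.nn, h.B.prp, h.B.nn⟩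

/-! ### Action on centres -/

/-- The action on centres. -/
theorem cn_append {z : ℂ} {g h : List Lt} (hh : MM z h 1 0 ≠ 0) (hgh : MM z (g ++ h) 1 0 ≠ 0) :
    MM z g 1 0 * cn z h + MM z g 1 1 ≠ 0 ∧
    cn z (g ++ h) = (MM z g 0 0 * cn z h + MM z g 0 1) / (MM z g 1 0 * cn z h + MM z g 1 1) := by
  have e0 : MM z h 0 0 = cn z h * MM z h 1 0 := by rw [cn, div_mul_cancel₀ _ hh]
  have e1 : MM z (g ++ h) 1 0 = (MM z g 1 0 * cn z h + MM z g 1 1) * MM z h 1 0 := by
    rw [MM_append, Matrix.mul_apply, Fin.sum_univ_two, e0]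
    ring
  have e2 : MM z (g ++ h) 0 0 = (MM z g 0 0 * cn z h + MM z g 0 1) * MM z h 1 0 := by
    rw [MM_append, Matrix.mul_apply, Fin.sum_univ_two, e0]
    ring
  have h1 : MM z g 1 0 * cn z h + MM z g 1 1 ≠ 0 := by
    intro h0
    apply hgh
    rw [e1, h0, zero_mul]
  refine ⟨h1, ?_⟩
  rw [cn, e1, e2, mul_div_mul_right _ _ hh]

/-- The inverse word has the adjugate matrix, up to sign. -/
theorem MM_winv_entries {z : ℂ} (hz : z ≠ 0) (g : List Lt) : ∃ e : ℂ, (e = 1 ∨ e = -1) ∧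
    MM z (winv g) 0 0 = e * MM z g 1 1 ∧ MM z (winv g) 0 1 = -(e * MM z g 0 1) ∧
    MM z (winv g) 1 0 = -(e * MM z g 1 0) ∧ MM z (winv g) 1 1 = e * MM z g 0 0 := by
  have hd := MM_det hz g
  have hadj : MM z g * (MM z g).adjugate = 1 := by rw [Matrix.mul_adjugate, hd, one_smul]
  have key : ∃ e : ℂ, (e = 1 ∨ e = -1) ∧ MM z (winv g) = e • (MM z g).adjugate := by
    rcases MM_winv hz g with ⟨h1, -⟩ | ⟨h1, -⟩
    · refine ⟨1, Or.inl rfl, ?_⟩
      calc MM z (winv g) = MM z (winv g) * (MM z g * (MM z g).adjugate) := by rw [hadj, mul_one]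
        _ = _ := by rw [← mul_assoc, h1, one_mul, one_smul]
    · refine ⟨-1, Or.inr rfl, ?_⟩
      calc MM z (winv g) = MM z (winv g) * (MM z g * (MM z g).adjugate) := by rw [hadj, mul_one]
        _ = _ := by rw [← mul_assoc, h1, neg_one_mul, neg_one_smul]
  obtain ⟨e, he, h⟩ := key
  refine ⟨e, he, ?_, ?_, ?_, ?_⟩ <;> rw [h, Matrix.adjugate_fin_two] <;> simp

theorem cn_winv {z : ℂ} (hz : z ≠ 0) {g : List Lt} :
    cn z (winv g) = - MM z g 1 1 / MM z g 1 0 := by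
  obtain ⟨e, he, h1, -, h2, -⟩ := MM_winv_entries hz g
  have he0 : e ≠ 0 := by rcases he with rfl | rfl <;> norm_num
  rw [cn, h1, h2, ← mul_neg, mul_div_mul_left _ _ he0, div_neg, neg_div]

theorem prp_winv {g : List Lt} : Prp (winv g) ↔ Prp g := by
  constructor
  · rintro ⟨z, hz, h⟩
    refine ⟨z, hz, fun h0 => h ?_⟩
    obtain ⟨e, he, -, -, h2, -⟩ := MM_winv_entries hz g
    rw [h2, h0, mul_zero, neg_zero]
  · rintro ⟨z, hz, h⟩
    refine ⟨z, hz, fun h0 => h ?_⟩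
    obtain ⟨e, he, -, -, h2, -⟩ := MM_winv_entries hz g
    have he0 : e ≠ 0 := by rcases he with rfl | rfl <;> norm_num
    rw [h2, neg_eq_zero] at h0
    exact (mul_eq_zero.1 h0).resolve_left he0

end Pool.Agent.Loc
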