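import Pool.Agent.Loc.WrC

set_option autoImplicit false

/-!
# Loc: centres with different integers accumulate on the frontier (helper67).
-/

namespace Pool.Agent.Loc

open Complex Pool.Agent.FZC Pool.Agent.FZE Metric Filter Topology

theorem prp_ne_cl {z : ℂ} (hz : z ∈ closure U) {g : List Lt} (hg : Prp g) : MM z g 1 0 ≠ 0 := by
  intro h
  have := prp_ge hz hg
  rw [h, norm_zero] at this
  linarith

theorem cn_T {z : ℂ} {g : List Lt} (h : MM z g 1 0 ≠ 0) : cn z (.T :: g) = cn z g + 1 := by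
  have e1 : MM z (.T :: g) 1 0 = MM z g 1 0 := by
    rw [MM_cons, Matrix.mul_apply, Fin.sum_univ_two]; simp [lm]
  have e2 : MM z (.T :: g) 0 0 = MM z g 0 0 + MM z g 1 0 := by
    rw [MM_cons, Matrix.mul_apply, Fin.sum_univ_two]; simp [lm]
  rw [cn, e1, e2, add_div, div_self h, cn]

theorem cn_S {z : ℂ} {g : List Lt} (h : MM z g 1 0 ≠ 0) : cn z (.S :: g) = cn z g - 1 := by
  have e1 : MM z (.S :: g) 1 0 = MM z g 1 0 := by
    rw [MM_cons, Matrix.mul_apply, Fin.sum_univ_two]; simp [lm]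
  have e2 : MM z (.S :: g) 0 0 = MM z g 0 0 - MM z g 1 0 := by
    rw [MM_cons, Matrix.mul_apply, Fin.sum_univ_two]; simp [lm]; ring
  rw [cn, e1, e2, sub_div, div_self h, cn]

theorem cn_E {z : ℂ} (hz : z ≠ 0) (g : List Lt) : cn z (.A :: .B :: g) = -cn z g := by
  have e0 : MM z (.A :: .B :: g) = Em * MM z g := by
    rw [MM_cons, MM_cons, ← mul_assoc, AB_eq hz]
  have e1 : MM z (.A :: .B :: g) 1 0 = I * (-MM z g 1 0) := by
    rw [e0, Matrix.mul_apply, Fin.sum_univ_two]; simp [Em]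
  have e2 : MM z (.A :: .B :: g) 0 0 = I * MM z g 0 0 := by
    rw [e0, Matrix.mul_apply, Fin.sum_univ_two]; simp [Em]
  rw [cn, e1, e2, mul_div_mul_left _ _ I_ne_zero, div_neg, cn]

/-- The word of a sign word. -/
def bw : List Bool → List Lt
  | [] => []
  | b :: L => .T :: (if b then .A else .B) :: bw L

theorem bw_eq {z : ℂ} (hz : z ≠ 0) (L : List Bool) : ∃ u : ℂ, u ≠ 0 ∧
    MM z (bw L) 0 0 = u * AA z L 0 0 ∧ MM z (bw L) 1 0 = u * (z * AA z L 1 0) := by
  induction L with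
  | nil => exact ⟨1, one_ne_zero, by simp [bw, MM_nil, AA], by simp [bw, MM_nil, AA]⟩
  | cons b L ih =>
    obtain ⟨u, hu, h1, h2⟩ := ih
    cases b
    · refine ⟨-I * u, mul_ne_zero (neg_ne_zero.2 I_ne_zero) hu, ?_, ?_⟩
      · simp only [bw, MM_cons, Matrix.mul_apply, Fin.sum_univ_two, AA]
        simp [lm, h1, h2, sg]
        field_simp
        ring
      · simp only [bw, MM_cons, Matrix.mul_apply, Fin.sum_univ_two, AA]
        simp [lm, h1, h2, sg]
        ring
    · refine ⟨u, hu, ?_, ?_⟩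
      · simp only [bw, MM_cons, Matrix.mul_apply, Fin.sum_univ_two, AA]
        simp [lm, h1, h2, sg]
        field_simp
        ring
      · simp only [bw, MM_cons, Matrix.mul_apply, Fin.sum_univ_two, AA]
        simp [lm, h1, h2, sg]
        ring

theorem bw_cn {z : ℂ} (hz : z ≠ 0) (L : List Bool) :
    cn z (bw L) = AA z L 0 0 / AA z L 1 0 / z := by
  obtain ⟨u, hu, h1, h2⟩ := bw_eq hz L
  rw [cn, h1, h2, mul_div_mul_left _ _ hu, div_div, mul_comm z]

theorem bw_rp (L : List Bool) : ∃ l, Rp (bw (L ++ [true])) 1 l := by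
  induction L with
  | nil =>
    have h0 : Ip [] := ⟨1, DF_one, fun z _ => MM_nil z⟩
    exact ⟨[], by simpa [bw] using h0.A.T⟩
  | cons b L ih =>
    obtain ⟨l, h⟩ := ih
    cases b
    · exact ⟨_, by simpa [bw] using (h.B one_ne_zero).T⟩
    · exact ⟨_, by simpa [bw] using (h.A one_ne_zero).T⟩

theorem AA_det (z : ℂ) (L : List Bool) : ‖(AA z L).det‖ = 1 := by
  induction L with
  | nil => simp [AA]
  | cons b L ih =>
    rw [AA, Matrix.det_mul, norm_mul, ih, mul_one, Matrix.det_fin_two_of]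
    simp [sg_norm]

theorem P_ge {z : ℂ} (hz : z ∈ closure U) (v : List Bool) : 1 ≤ ‖(P v).eval z‖ := by
  have h1 : closure U ⊆ {z | 1 ≤ ‖(P v).eval z‖} := by
    apply closure_minimal _ (isClosed_le continuous_const (P v).continuous.norm)
    intro w hw
    exact (Pool.Agent.FZR.P_norm_gt (fun h => hw (Pool.Agent.FZR.closure_E_subset h)) v).le
  exact h1 hz

theorem AA_ge {z : ℂ} (hz : z ∈ closure U) {L : List Bool} (hL : L ≠ []) :
    1 ≤ ‖z * AA z L 1 0‖ := by
  have hz1 : 1 ≤ ‖z‖ := (low hz (fun _ => true) 0).1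
  rcases list_cases hL with ⟨b, rfl⟩ | ⟨a, v, b, rfl⟩
  · simpa [AA] using hz1
  · have h2 := (AA_col z (a :: v) b).2
    simp only [List.cons_append] at h2
    rw [h2]
    have h3 := P_ge hz v
    simpa [KK, P, D] using h3

/-- Letters of a sequence. -/
def wd (β : ℕ → Bool) (k : ℕ) : List Bool := (List.range k).map β

theorem wd_add (β : ℕ → Bool) (k m : ℕ) :
    wd β (k + m) = wd β k ++ (List.range m).map (fun j => β (k + j)) := by
  rw [wd, List.range_add, List.map_append, List.map_map]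
  rfl

theorem wd_succ (β : ℕ → Bool) (k : ℕ) : wd β (k + 1) = wd β k ++ [β k] := by
  rw [wd_add]; simp

theorem transfer {z : ℂ} {β : ℕ → Bool} {a : ℕ → ℂ}
    (hr : ∀ k, a k + sg (β k) * a (k + 2) = z * a (k + 1)) (k : ℕ) :
    a 0 = AA z (wd β k) 0 0 * a k + AA z (wd β k) 0 1 * a (k + 1) ∧
      a 1 = AA z (wd β k) 1 0 * a k + AA z (wd β k) 1 1 * a (k + 1) := by
  induction k with
  | zero => simp [wd, AA]
  | succ k ih =>
    obtain ⟨h1, h2⟩ := ih
    have h3 := hr k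
    rw [wd_succ, AA_append]
    simp only [Matrix.mul_apply, Fin.sum_univ_two, AA, mul_one]
    simp
    constructor
    · rw [h1]
      linear_combination AA z (wd β k) 0 0 * h3
    · rw [h2]
      linear_combination AA z (wd β k) 1 0 * h3

theorem side {z : ℂ} (hU : z ∈ closure U) {β : ℕ → Bool} {a : ℕ → ℂ} {C : ℝ}
    (hC : ∀ n, ‖a n‖ ≤ C) (h1 : a 1 ≠ 0)
    (hr : ∀ k, a k + sg (β k) * a (k + 2) = z * a (k + 1)) :
    ∃ g : ℕ → List Lt, (∀ k, Prp (g k) ∧ nn (g k) = 1) ∧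
      Tendsto (fun k => cn z (g k)) atTop (𝓝 (a 0 / a 1 / z)) := by
  have hz0 := closure_ne_zero hU
  have hzn : 0 < ‖z‖ := norm_pos_iff.2 hz0
  have hz1 : 1 ≤ ‖z‖ := (low hU (fun _ => true) 0).1
  have hC0 : 0 ≤ C := (norm_nonneg _).trans (hC 0)
  set p : ℕ → ℂ := fun k => AA z (wd β (k + 1)) 0 0 with hp
  set q : ℕ → ℂ := fun k => AA z (wd β (k + 1)) 1 0 with hq
  have hq1 : ∀ k, 1 ≤ ‖z‖ * ‖q k‖ := by
    intro k
    have := AA_ge hU (L := wd β (k + 1)) (by simp [wd_succ])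
    rwa [norm_mul] at this
  have hq0 : ∀ k, q k ≠ 0 := by
    intro k h0
    have := hq1 k
    rw [h0, norm_zero, mul_zero] at this
    linarith
  have herr : ∀ k, ‖a 0 * q k - a 1 * p k‖ ≤ C := by
    intro k
    obtain ⟨e1, e2⟩ := transfer hr (k + 1)
    have h3 : a 0 * q k - a 1 * p k = -(AA z (wd β (k + 1))).det * a (k + 2) := by
      rw [e1, e2, Matrix.det_fin_two]
      simp only [hp, hq]
      ring
    rw [h3, norm_mul, norm_neg, AA_det, one_mul]
    exact hC _
  have hdist : ∀ k, ‖a 0 / a 1 - p k / q k‖ ≤ C / ‖a 1‖ / ‖q k‖ := by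
    intro k
    have e : a 0 / a 1 - p k / q k = (a 0 * q k - a 1 * p k) / (a 1 * q k) := by
      have := hq0 k
      field_simp
    rw [e, norm_div, norm_mul, div_div]
    exact div_le_div_of_nonneg_right (herr k) (by positivity)
  have hsep : ∀ k l, k < l → 1 / (‖z‖ * (‖q k‖ * ‖q l‖)) ≤ ‖p k / q k - p l / q l‖ := by
    intro k l hkl
    obtain ⟨m, rfl⟩ : ∃ m, l = k + (m + 1) := ⟨l - k - 1, by omega⟩
    set N := AA z ((List.range (m + 1)).map (fun j => β (k + 1 + j))) with hN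
    have e0 : AA z (wd β (k + (m + 1) + 1)) = AA z (wd β (k + 1)) * N := by
      rw [show k + (m + 1) + 1 = k + 1 + (m + 1) by ring, wd_add, AA_append]
    have e1 : p (k + (m + 1)) = p k * N 0 0 + AA z (wd β (k + 1)) 0 1 * N 1 0 := by
      simp only [hp]
      rw [e0, Matrix.mul_apply, Fin.sum_univ_two]
    have e2 : q (k + (m + 1)) = q k * N 0 0 + AA z (wd β (k + 1)) 1 1 * N 1 0 := by
      simp only [hq]
      rw [e0, Matrix.mul_apply, Fin.sum_univ_two]
    have e3 : p k * q (k + (m + 1)) - p (k + (m + 1)) * q k =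
        (AA z (wd β (k + 1))).det * N 1 0 := by
      rw [e1, e2, Matrix.det_fin_two]
      simp only [hp, hq]
      ring
    have h4 : 1 ≤ ‖z * N 1 0‖ := AA_ge hU (by simp)
    have e4 : p k / q k - p (k + (m + 1)) / q (k + (m + 1)) =
        ((AA z (wd β (k + 1))).det * N 1 0) / (q k * q (k + (m + 1))) := by
      rw [← e3]
      have := hq0 k
      have := hq0 (k + (m + 1))
      field_simp
    rw [e4, norm_div, norm_mul, AA_det, one_mul, norm_mul]
    rw [norm_mul] at h4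
    have h5 : 0 < ‖q k‖ * ‖q (k + (m + 1))‖ :=
      mul_pos (norm_pos_iff.2 (hq0 _)) (norm_pos_iff.2 (hq0 _))
    rw [div_le_div_iff₀ (by positivity) h5]
    nlinarith
  have hinf : Tendsto (fun k => ‖q k‖) atTop atTop := by
    by_contra hcon
    rw [Filter.tendsto_atTop] at hcon
    push Not at hcon
    obtain ⟨M, hM⟩ := hcon
    obtain ⟨φ, hφ, hφM⟩ := extraction_of_frequently_atTop hM
    have hbd : ∀ n, (p (φ n) / q (φ n)) ∈ closedBall (a 0 / a 1) (C / ‖a 1‖ * ‖z‖) := by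
      intro n
      rw [mem_closedBall, dist_comm, dist_eq_norm]
      refine (hdist (φ n)).trans ?_
      have h2 := hq1 (φ n)
      have h3 : 0 < ‖q (φ n)‖ := norm_pos_iff.2 (hq0 _)
      have h4 : 0 ≤ C / ‖a 1‖ := by positivity
      rw [div_le_iff₀ h3]
      nlinarith
    obtain ⟨x, -, θ, hθ, hx⟩ := (isCompact_closedBall (a 0 / a 1) _).tendsto_subseq hbd
    have hM0 : 0 < M := (norm_nonneg _).trans_lt (hφM 0)
    set δ : ℝ := 1 / (‖z‖ * (M * M)) with hδ
    have hδ0 : 0 < δ := by positivity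
    have hcs := hx.cauchySeq
    rw [Metric.cauchySeq_iff] at hcs
    obtain ⟨N, hN⟩ := hcs δ hδ0
    have h2 := hN N (le_refl _) (N + 1) (by omega)
    rw [dist_eq_norm] at h2
    have h3 := hsep (φ (θ N)) (φ (θ (N + 1))) (hφ (hθ (Nat.lt_succ_self N)))
    have h4 := hφM (θ N)
    have h5 := hφM (θ (N + 1))
    have h6 : δ ≤ 1 / (‖z‖ * (‖q (φ (θ N))‖ * ‖q (φ (θ (N + 1)))‖)) := by
      have h7 : 0 < ‖q (φ (θ N))‖ := norm_pos_iff.2 (hq0 _)
      have h8 : 0 < ‖q (φ (θ (N + 1)))‖ := norm_pos_iff.2 (hq0 _)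
      apply one_div_le_one_div_of_le (by positivity)
      gcongr
    exact absurd h2 (not_lt.2 (h6.trans h3))
  refine ⟨fun k => bw (wd β k ++ [true]), fun k => ?_, ?_⟩
  · obtain ⟨l, hl⟩ := bw_rp (wd β k)
    exact ⟨hl.prp, hl.nn⟩
  · have hcol : ∀ k, AA z (wd β k ++ [true]) 0 0 = p k ∧ AA z (wd β k ++ [true]) 1 0 = q k := by
      intro k
      obtain ⟨c1, c2⟩ := AA_col z (wd β k) true
      obtain ⟨c3, c4⟩ := AA_col z (wd β k) (β k)
      rw [← wd_succ] at c3 c4
      exact ⟨by rw [c1]; exact c3.symm, by rw [c2]; exact c4.symm⟩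
    have hlim : Tendsto (fun k => p k / q k) atTop (𝓝 (a 0 / a 1)) := by
      rw [tendsto_iff_norm_sub_tendsto_zero]
      have h2 : Tendsto (fun k => C / ‖a 1‖ / ‖q k‖) atTop (𝓝 0) :=
        hinf.const_div_atTop _
      refine squeeze_zero (fun _ => norm_nonneg _) (fun k => ?_) h2
      rw [norm_sub_rev]
      exact hdist k
    refine (hlim.div_const z).congr fun k => ?_
    rw [bw_cn hz0, (hcol k).1, (hcol k).2]

/-- At a point of the spectrum in the closure of `U` centres with different integers accumulate at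
the same point. -/
theorem K3 {z : ℂ} (hz : z ∈ Sig) (hU : z ∈ closure U) :
    ∃ (ξ : ℂ) (g h : ℕ → List Lt), (∀ k, Prp (g k) ∧ nn (g k) = 1) ∧
      (∀ k, Prp (h k) ∧ nn (h k) = 0) ∧ Tendsto (fun k => cn z (g k)) atTop (𝓝 ξ) ∧
      Tendsto (fun k => cn z (h k)) atTop (𝓝 ξ) := by
  rw [Sig_eq] at hz
  obtain ⟨b0, hb0, ψ0, ⟨C, hC⟩, ⟨n0, hn0⟩, hr0⟩ := hz
  have hz0 := closure_ne_zero hU
  -- the shifted solution
  set ψ : ℤ → ℂ := fun n => ψ0 (n + n0) with hψ
  set β : ℤ → Bool := fun n => decide (b0 (n + n0) = 1) with hβ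
  have hsg : ∀ n, sg (β n) = b0 (n + n0) := by
    intro n
    simp only [hβ, sg]
    rcases hb0 (n + n0) with h | h
    · simp [h]
    · have : ¬ b0 (n + n0) = 1 := by rw [h]; norm_num
      simp [h]; norm_num
  have hr : ∀ n, ψ (n + 1) + sg (β (n - 1)) * ψ (n - 1) = z * ψ n := by
    intro n
    rw [hsg]
    have := hr0 (n + n0)
    simp only [hψ]
    rw [show n + 1 + n0 = n + n0 + 1 by ring, show n - 1 + n0 = n + n0 - 1 by ring]
    exact this
  have hψ0 : ψ 0 ≠ 0 := by simpa [hψ] using hn0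
  have hb : ∀ n, ‖ψ n‖ ≤ C := fun n => hC _
  -- left side
  obtain ⟨g, hg, hgl⟩ := side (β := fun k => β (-(k : ℤ) - 1)) (a := fun k => ψ (1 - (k : ℤ))) hU
    (fun n => hb _) (by simpa using hψ0) (fun k => by
      have := hr (-(k : ℤ))
      rw [show -(k : ℤ) + 1 = 1 - (k : ℤ) by ring] at this
      rw [show (1 : ℤ) - ((k + 2 : ℕ) : ℤ) = -(k : ℤ) - 1 by push_cast; ring,
        show (1 : ℤ) - ((k + 1 : ℕ) : ℤ) = -(k : ℤ) by push_cast; ring]
      exact this)
  -- right side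
  set σ : ℕ → ℂ := fun k => Nat.rec 1 (fun j s => sg (β (j : ℤ)) * s) k with hσ
  have hσ0 : σ 0 = 1 := rfl
  have hσs : ∀ k, σ (k + 1) = sg (β (k : ℤ)) * σ k := fun k => rfl
  have hσn : ∀ k, ‖σ k‖ = 1 := by
    intro k
    induction k with
    | zero => rw [hσ0, norm_one]
    | succ k ih => rw [hσs, norm_mul, sg_norm, ih, one_mul]
  have hsq : ∀ e : Bool, sg e * sg e = 1 := by
    intro e; cases e <;> simp [sg]
  set a' : ℕ → ℂ := fun k => Nat.casesOn k (sg (β (-1)) * ψ (-1)) (fun j => σ j * ψ (j : ℤ)) with ha'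
  have ha0 : a' 0 = sg (β (-1)) * ψ (-1) := rfl
  have has : ∀ k, a' (k + 1) = σ k * ψ (k : ℤ) := fun k => rfl
  obtain ⟨g', hg', hgl'⟩ := side (β := fun k => β (k : ℤ)) (a := a') (C := C) hU
    (fun n => by
      cases n with
      | zero => rw [ha0, norm_mul, sg_norm, one_mul]; exact hb _
      | succ n => rw [has, norm_mul, hσn, one_mul]; exact hb _)
    (by rw [show (1 : ℕ) = 0 + 1 from rfl, has, hσ0]; simpa using hψ0)
    (fun k => by
      cases k with
      | zero =>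
        have t1 : a' (0 + 1) = 1 * ψ 0 := has 0
        have t2 : a' (0 + 2) = (sg (β 0) * 1) * ψ 1 := has 1
        show a' 0 + sg (β 0) * a' (0 + 2) = z * a' (0 + 1)
        rw [ha0, t1, t2]
        have h2 := hr 0
        simp only [zero_add, zero_sub] at h2
        linear_combination h2 + (ψ 1) * hsq (β 0)
      | succ k =>
        have t1 : a' (k + 1) = σ k * ψ (k : ℤ) := has k
        have t2 : a' (k + 1 + 1) = (sg (β (k : ℤ)) * σ k) * ψ ((k : ℤ) + 1) := has (k + 1)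
        have t3 : a' (k + 1 + 2) =
            (sg (β ((k : ℤ) + 1)) * (sg (β (k : ℤ)) * σ k)) * ψ ((k : ℤ) + 1 + 1) := by
          have := has (k + 2)
          push_cast at this
          rw [show (k : ℤ) + 2 = (k : ℤ) + 1 + 1 by ring] at this
          exact this
        show a' (k + 1) + sg (β ((k : ℤ) + 1)) * a' (k + 1 + 2) = z * a' (k + 1 + 1)
        rw [t1, t2, t3]
        have h2 := hr ((k : ℤ) + 1)
        rw [show (k : ℤ) + 1 - 1 = k by ring] at h2
        linear_combination (sg (β (k : ℤ)) * σ k) * h2 +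
          (sg (β (k : ℤ)) * σ k * ψ ((k : ℤ) + 1 + 1)) * hsq (β ((k : ℤ) + 1)) -
          (σ k * ψ k) * hsq (β k))
  refine ⟨ψ 1 / ψ 0 / z, g, fun k => .T :: .A :: .B :: g' k, hg, fun k => ?_, ?_, ?_⟩
  · obtain ⟨h1, h2⟩ := hg' k
    have h3 := prp_E.2 h1
    refine ⟨prp_T.2 h3, ?_⟩
    rw [nn_T h3, nn_E h1, h2]
    norm_num
  · simpa using hgl
  · have h1 : ∀ k, cn z (.T :: .A :: .B :: g' k) = -cn z (g' k) + 1 := by
      intro k
      rw [cn_T (prp_ne_cl hU (prp_E.2 (hg' k).1)), cn_E hz0]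
    have h2 : ψ 1 / ψ 0 / z = -(a' 0 / a' 1 / z) + 1 := by
      have h3 := hr 0
      simp only [zero_add, zero_sub] at h3
      rw [ha0, show (1 : ℕ) = 0 + 1 from rfl, has, hσ0]
      push_cast
      field_simp
      linear_combination h3
    rw [h2]
    refine ((hgl'.neg).add_const 1).congr fun k => (h1 k).symm

end Pool.Agent.Loc
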